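import Pool.Agent.H327R4.Pure.All3

/-!
# Closed left ideals and Cuntz comparison

`InL a x` says that `x` lies in the closed left ideal generated by `a`.
-/

set_option autoImplicit false
set_option linter.unusedSectionVars false

namespace Run7.h450

open Filter Topology
open Pool.Agent.H327R4.Pure

universe u v

section

variable {R : Type u} [CStarAlgebra R]

/-- `x` lies in the closed left ideal generated by `a` -/
def InL (a x : R) : Prop := x ∈ closure (Set.range fun y : R => y * a)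

theorem InL.of_tendsto {a x : R} {y : ℕ → R} (h : Tendsto (fun n => y n * a) atTop (𝓝 x)) :
    InL a x := mem_closure_of_tendsto h (Eventually.of_forall fun n => ⟨y n, rfl⟩)

theorem InL.exists_seq {a x : R} (h : InL a x) :
    ∃ y : ℕ → R, Tendsto (fun n => y n * a) atTop (𝓝 x) := by
  obtain ⟨z, hz, hlim⟩ := mem_closure_iff_seq_limit.mp h
  choose y hy using hz
  refine ⟨y, ?_⟩
  have : (fun n => y n * a) = z := funext hy
  rw [this]
  exact hlim

theorem InL.self (a : R) : InL a a := subset_closure ⟨1, one_mul a⟩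

theorem InL.mul_left {a x : R} (h : InL a x) (z : R) : InL a (z * x) := by
  obtain ⟨y, hy⟩ := h.exists_seq
  refine InL.of_tendsto (y := fun n => z * y n) ?_
  have := hy.const_mul z
  simpa only [mul_assoc] using this

theorem InL.add {a x z : R} (h : InL a x) (h' : InL a z) : InL a (x + z) := by
  obtain ⟨y, hy⟩ := h.exists_seq
  obtain ⟨y', hy'⟩ := h'.exists_seq
  refine InL.of_tendsto (y := fun n => y n + y' n) ?_
  simpa only [add_mul] using hy.add hy'

theorem InL.neg {a x : R} (h : InL a x) : InL a (-x) := by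
  have := h.mul_left (-1)
  simpa using this

theorem InL.sub {a x z : R} (h : InL a x) (h' : InL a z) : InL a (x - z) := by
  rw [sub_eq_add_neg]
  exact h.add h'.neg

theorem InL.zero (a : R) : InL a 0 := by
  have := (InL.self a).mul_left 0
  simpa using this

theorem InL.csmul {a x : R} (h : InL a x) (c : ℂ) : InL a (c • x) := by
  have := h.mul_left (c • (1 : R))
  simpa using this

theorem isClosed_inL (a : R) : IsClosed {x : R | InL a x} := isClosed_closure

theorem InL.trans {a b x : R} (h : InL a b) (h' : InL b x) : InL a x := by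
  obtain ⟨y, hy⟩ := h'.exists_seq
  exact (isClosed_inL a).mem_of_tendsto hy (Eventually.of_forall fun n => h.mul_left (y n))

theorem InL.mul_eq_zero {a x z : R} (h : InL a x) (h0 : a * z = 0) : x * z = 0 := by
  obtain ⟨y, hy⟩ := h.exists_seq
  have h1 : Tendsto (fun n => y n * a * z) atTop (𝓝 (x * z)) := hy.mul_const z
  have h2 : (fun n => y n * a * z) = fun _ => (0 : R) := by
    funext n
    rw [mul_assoc, h0, mul_zero]
  rw [h2] at h1
  exact (tendsto_nhds_unique h1 tendsto_const_nhds)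

theorem InL.zero_mul_star {a x z : R} (h : InL a x) (h0 : z * star a = 0) : z * star x = 0 := by
  have h1 : x * star z = 0 := h.mul_eq_zero (by
    have := congrArg star h0
    simpa using this)
  have := congrArg star h1
  simpa using this

end

section

variable {R : Type u} [CStarAlgebra R] [PartialOrder R] [StarOrderedRing R]

/-- the elements `x` such that `x` and `x^*` lie in the closed left ideal generated by `a` -/
def herS (a : R) : NonUnitalStarSubalgebra ℝ R where
  carrier := {x | InL a x ∧ InL a (star x)}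
  add_mem' := fun {x y} hx hy => ⟨hx.1.add hy.1, by rw [star_add]; exact hx.2.add hy.2⟩
  zero_mem' := ⟨InL.zero a, by rw [star_zero]; exact InL.zero a⟩
  mul_mem' := fun {x y} hx hy => ⟨hy.1.mul_left x, by rw [star_mul]; exact hx.2.mul_left _⟩
  smul_mem' := fun c x hx => by
    refine ⟨?_, ?_⟩
    · have := hx.1.csmul (c : ℂ)
      rwa [Complex.coe_smul] at this
    · have := hx.2.csmul (c : ℂ)
      rw [Complex.coe_smul] at this
      rw [star_smul]
      simpa using this
  star_mem' := fun {x} hx => ⟨hx.2, by rw [star_star]; exact hx.1⟩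

theorem InL.cfcn {a : R} (ha : IsSelfAdjoint a) (f : ℝ → ℝ) : InL a (cfcₙ f a) := by
  have h1 : cfcₙ f a ∈ NonUnitalStarAlgebra.elemental ℝ a := cfcₙ_mem_elemental f a
  have h2 : NonUnitalStarAlgebra.elemental ℝ a ≤ herS a := by
    refine NonUnitalStarAlgebra.elemental.le_of_mem ?_ ?_
    · exact (isClosed_inL a).inter ((isClosed_inL a).preimage continuous_star)
    · exact ⟨InL.self _, by rw [ha.star_eq]; exact InL.self _⟩
  exact (h2 h1).1

end

section

variable {R : Type u} [CStarAlgebra R] [PartialOrder R] [StarOrderedRing R]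

theorem cz_refl {a : R} : Cz a a := ⟨fun _ => 1, by simp⟩

theorem cz_conj (x b : R) : Cz (x * b * star x) b := ⟨fun _ => x, tendsto_const_nhds⟩

theorem cz_trans {a b c : R} (h : Cz a b) (h' : Cz b c) : Cz a c := tra' R a b c h h'

theorem cz_of_le {a b : R} (ha : 0 ≤ a) (h : a ≤ b) : Cz a b := le' R a b ha h

theorem cz_smul {a : R} (c : ℝ) (hc : 0 ≤ c) : Cz (c • a) a := by
  refine ⟨fun _ => (Real.sqrt c : ℂ) • (1 : R), ?_⟩
  have h : ((Real.sqrt c : ℂ) • (1 : R)) * a * star ((Real.sqrt c : ℂ) • (1 : R)) = c • a := by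
    rw [star_smul, star_one, smul_mul_assoc, one_mul, mul_smul_comm, mul_one, smul_smul]
    have : star (Real.sqrt c : ℂ) * (Real.sqrt c : ℂ) = ((c : ℝ) : ℂ) := by
      rw [Complex.star_def, Complex.conj_ofReal, ← Complex.ofReal_mul, Real.mul_self_sqrt hc]
    rw [this, Complex.coe_smul]
  simp only [h]
  exact tendsto_const_nhds

theorem cz_of_le_smul {a b : R} (ha : 0 ≤ a) (c : ℝ) (hc : 0 ≤ c) (h : a ≤ c • b) : Cz a b :=
  cz_trans (cz_of_le ha h) (cz_smul c hc)

theorem cz_of_limit {a b : R} (ha : 0 ≤ a) (z : ℕ → R) (hz : ∀ n, 0 ≤ z n)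
    (hzb : ∀ n, Cz (z n) b) (h : Tendsto z atTop (𝓝 a)) : Cz a b := by
  refine clo' R a b ha fun ε hε => ?_
  obtain ⟨n, hn⟩ := (Metric.tendsto_atTop.mp h ε hε)
  have hn := hn n le_rfl
  rw [dist_eq_norm] at hn
  have h1 := kr' R a (z n) ε 0 ha (hz n) (by rw [norm_sub_rev]; exact hn.le) le_rfl
  rw [add_zero, (ct' R (z n) (hz n)).2.2.2.2.1] at h1
  exact cz_trans h1 (hzb n)

theorem cz_sq {e : R} (he : 0 ≤ e) : Cz e (e * e) := KRx.sq_below e he

theorem star_mul_self_cz (x : R) : Cz (star x * x) (x * star x) := by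
  have h0 : (0 : R) ≤ star x * x := star_mul_self_nonneg x
  refine cz_trans (cz_sq h0) ?_
  have : star x * x * (star x * x) = star x * (x * star x) * star (star x) := by
    rw [star_star]; simp only [mul_assoc]
  rw [this]
  exact cz_conj _ _

theorem mul_star_self_cz (x : R) : Cz (x * star x) (star x * x) := by
  have := star_mul_self_cz (star x)
  rwa [star_star] at this

theorem InL.cz {a w : R} (ha : 0 ≤ a) (hw : 0 ≤ w) (h : InL a w) : Cz w a := by
  refine cz_trans (cz_sq hw) ?_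
  obtain ⟨y, hy⟩ := h.exists_seq
  have h1 : Tendsto (fun n => star (y n * a) * (y n * a)) atTop (𝓝 (star w * w)) :=
    hy.star.mul hy
  rw [(IsSelfAdjoint.of_nonneg hw).star_eq] at h1
  refine cz_of_limit (IsSelfAdjoint.of_nonneg hw).mul_self_nonneg _
    (fun n => star_mul_self_nonneg _) (fun n => ?_) h1
  refine cz_trans (star_mul_self_cz _) ?_
  have h2 : y n * a * star (y n * a) = y n * (a * a) * star (y n) := by
    rw [star_mul, (IsSelfAdjoint.of_nonneg ha).star_eq]
    simp only [mul_assoc]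
  rw [h2]
  refine cz_trans (cz_conj _ _) ?_
  have h3 : a * a = CFC.sqrt a * (a * star (CFC.sqrt a) * 1) * 1 := by
    have hs := CFC.sqrt_mul_sqrt_self a ha
    have hstar : star (CFC.sqrt a) = CFC.sqrt a :=
      (IsSelfAdjoint.of_nonneg (CFC.sqrt_nonneg a)).star_eq
    rw [hstar, mul_one, mul_one]
    calc a * a = CFC.sqrt a * CFC.sqrt a * (CFC.sqrt a * CFC.sqrt a) := by rw [hs]
      _ = CFC.sqrt a * ((CFC.sqrt a * CFC.sqrt a) * CFC.sqrt a) := by simp only [mul_assoc]
      _ = _ := by rw [hs]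
  rw [h3, mul_one, mul_one, ← mul_assoc]
  exact cz_conj _ _

/-- the square root of a positive element -/
noncomputable def sq (a : R) : R := cfcₙ Real.sqrt a

theorem sq_nonneg {a : R} : 0 ≤ sq a := cfcₙ_nonneg fun x _ => Real.sqrt_nonneg x

theorem sq_star (a : R) : star (sq a) = sq a := (IsSelfAdjoint.of_nonneg sq_nonneg).star_eq

theorem sq_mul_sq {a : R} (ha : 0 ≤ a) : sq a * sq a = a := by
  unfold sq
  rw [← cfcₙ_mul Real.sqrt Real.sqrt a (by fun_prop) Real.sqrt_zero (by fun_prop) Real.sqrt_zero]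
  conv_rhs => rw [← cfcₙ_id' ℝ a (IsSelfAdjoint.of_nonneg ha)]
  refine cfcₙ_congr fun x hx => ?_
  exact Real.mul_self_sqrt (quasispectrum_nonneg_of_nonneg a ha x hx)

theorem sq_sq {a : R} (ha : 0 ≤ a) : sq (a * a) = a := by
  unfold sq
  have e2 : a * a = cfcₙ (fun t : ℝ => t * t) a := by
    rw [cfcₙ_mul (fun t : ℝ => t) (fun t : ℝ => t) a (by fun_prop) rfl (by fun_prop) rfl,
      cfcₙ_id' ℝ a (IsSelfAdjoint.of_nonneg ha)]
  rw [e2, ← cfcₙ_comp' Real.sqrt (fun t : ℝ => t * t) a (by fun_prop) (by simp) (by fun_prop)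
    (by simp) (IsSelfAdjoint.of_nonneg ha)]
  conv_rhs => rw [← cfcₙ_id' ℝ a (IsSelfAdjoint.of_nonneg ha)]
  refine cfcₙ_congr fun x hx => ?_
  exact Real.sqrt_mul_self (quasispectrum_nonneg_of_nonneg a ha x hx)

theorem InL.sq {a : R} (ha : 0 ≤ a) : InL a (sq a) :=
  InL.cfcn (IsSelfAdjoint.of_nonneg ha) _

theorem inL_of_sq {a : R} (ha : 0 ≤ a) : InL (a * a) a := by
  have h := InL.sq (R := R) (a := a * a) (IsSelfAdjoint.of_nonneg ha).mul_self_nonneg
  rwa [sq_sq ha] at h

theorem mul_comm_zero {y y' : R} (hy : 0 ≤ y) (hy' : 0 ≤ y') (hyy : y * y' = 0) : y' * y = 0 := by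
  have := congrArg star hyy
  rwa [star_mul, star_zero, (IsSelfAdjoint.of_nonneg hy).star_eq,
    (IsSelfAdjoint.of_nonneg hy').star_eq] at this

theorem inL_add_left {y y' : R} (hy : 0 ≤ y) (hyy : y * y' = 0) :
    InL (y + y') y := by
  have h1 : InL (y + y') (y * y) := by
    have := (InL.self (y + y')).mul_left y
    rwa [mul_add, hyy, add_zero] at this
  exact h1.trans (inL_of_sq hy)

/-- sums of Cuntz subequivalences, orthogonality is needed only on the right -/
theorem cz_add {x x' y y' : R} (hx : 0 ≤ x) (hx' : 0 ≤ x') (hy : 0 ≤ y) (hy' : 0 ≤ y')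
    (hyy : y * y' = 0) (h : Cz x y) (h' : Cz x' y') : Cz (x + x') (y + y') := by
  have hyy' : y' * y = 0 := mul_comm_zero hy hy' hyy
  obtain ⟨z, hz⟩ := h
  obtain ⟨z', hz'⟩ := h'
  have hL : InL (y + y') (Run7.h450.sq y) := (inL_add_left hy hyy).trans (InL.sq hy)
  have hL' : InL (y + y') (Run7.h450.sq y') := by
    rw [add_comm]
    exact (inL_add_left hy' hyy').trans (InL.sq hy')
  have h0 : Run7.h450.sq y * Run7.h450.sq y' = 0 := by
    have h1 : Run7.h450.sq y * y' = 0 := (InL.sq hy).mul_eq_zero hyy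
    have h2 : y' * Run7.h450.sq y = 0 := mul_comm_zero sq_nonneg hy' h1
    exact mul_comm_zero sq_nonneg sq_nonneg ((InL.sq hy').mul_eq_zero h2)
  have h0' : Run7.h450.sq y' * Run7.h450.sq y = 0 := mul_comm_zero sq_nonneg sq_nonneg h0
  refine cz_of_limit (add_nonneg hx hx') _
    (fun n => add_nonneg (star_right_conjugate_nonneg hy (z n))
      (star_right_conjugate_nonneg hy' (z' n))) (fun n => ?_) (hz.add hz')
  set Z : R := z n * Run7.h450.sq y + z' n * Run7.h450.sq y' with hZ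
  have e : z n * y * star (z n) + z' n * y' * star (z' n) = Z * star Z := by
    rw [hZ, star_add, star_mul, star_mul, sq_star, sq_star]
    have e1 : (z n * Run7.h450.sq y + z' n * Run7.h450.sq y') *
        (Run7.h450.sq y * star (z n) + Run7.h450.sq y' * star (z' n)) =
        z n * (Run7.h450.sq y * Run7.h450.sq y) * star (z n) +
        z' n * (Run7.h450.sq y' * Run7.h450.sq y') * star (z' n) +
        (z n * (Run7.h450.sq y * Run7.h450.sq y') * star (z' n) +
          z' n * (Run7.h450.sq y' * Run7.h450.sq y) * star (z n)) := by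
      noncomm_ring
    rw [e1, h0, h0', sq_mul_sq hy, sq_mul_sq hy']
    simp
  rw [e]
  refine cz_trans (mul_star_self_cz Z) ?_
  have hZL : InL (y + y') Z := (hL.mul_left _).add (hL'.mul_left _)
  exact InL.cz (add_nonneg hy hy') (star_mul_self_nonneg Z) (hZL.mul_left _)

end

end Run7.h450

set_option autoImplicit false
set_option linter.unusedSectionVars false

namespace Run7.h450

open Filter Topology
open Pool.Agent.H327R4.Pure

universe u v

section

variable {R : Type u} [CStarAlgebra R] [PartialOrder R] [StarOrderedRing R]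

theorem mul_self_le {e : R} (h0 : 0 ≤ e) (h1 : e ≤ 1) : e * e ≤ e := by
  have h2 : sq e * e = e * sq e := by
    calc sq e * e = sq e * (sq e * sq e) := by rw [sq_mul_sq h0]
      _ = sq e * sq e * sq e := by rw [mul_assoc]
      _ = e * sq e := by rw [sq_mul_sq h0]
  have h3 : e - e * e = sq e * (1 - e) * star (sq e) := by
    rw [sq_star, mul_sub, sub_mul, mul_one, h2, mul_assoc e, sq_mul_sq h0]
  rw [← sub_nonneg, h3]
  exact star_right_conjugate_nonneg (sub_nonneg.mpr h1) _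

end

theorem InL.map {R : Type u} {R' : Type v} [CStarAlgebra R] [CStarAlgebra R']
    (φ : R →⋆ₙₐ[ℂ] R') {a x : R} (h : InL a x) : InL (φ a) (φ x) := by
  obtain ⟨y, hy⟩ := h.exists_seq
  refine InL.of_tendsto (y := fun k => φ (y k)) ?_
  have hc : Continuous φ :=
    (AddMonoidHomClass.continuous_of_bound φ 1 fun x => by
      rw [one_mul]; exact NonUnitalStarAlgHom.norm_apply_le _ x)
  refine ((hc.tendsto _).comp hy).congr fun k => ?_
  show φ (y k * a) = _
  rw [map_mul]

theorem InL.sum {R : Type u} [CStarAlgebra R] {ι : Type v} (s : Finset ι) {a : R} {x : ι → R}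
    (h : ∀ i, InL a (x i)) : InL a (∑ i ∈ s, x i) := by
  classical
  induction s using Finset.induction_on with
  | empty => exact InL.zero a
  | insert b t hb ih => rw [Finset.sum_insert hb]; exact (h b).add ih

theorem InL.rsmul {R : Type u} [CStarAlgebra R] {a x : R} (h : InL a x) (c : ℝ) :
    InL a (c • x) := by
  have := h.csmul (c : ℂ)
  rwa [Complex.coe_smul] at this

theorem tr_rsmul {R : Type u} [CStarAlgebra R] (T : Tr R) (c : ℝ) (x : R) :
    (T.f (c • x)).re = c * (T.f x).re := by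
  rw [← Complex.coe_smul, map_smul, smul_eq_mul, Complex.re_ofReal_mul]

end Run7.h450

/-!
# Ranks: subadditivity, cutting
-/

set_option autoImplicit false
set_option linter.unusedSectionVars false

namespace Run7.h450

open Filter Topology
open Pool.Agent.H327R4.Pure

universe u v

section

variable {R : Type u} [CStarAlgebra R] [PartialOrder R] [StarOrderedRing R]

theorem rk_nonneg (T : Tr R) {a : R} (ha : 0 ≤ a) : 0 ≤ rk T a := (rk' R T a ha).2.2.2

theorem rk_cz (T : Tr R) {a b : R} (ha : 0 ≤ a) (hb : 0 ≤ b) (h : Cz a b) : rk T a ≤ rk T b :=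
  lsc' R T a b ha hb h

theorem rk_swap (T : Tr R) (x : R) : rk T (star x * x) = rk T (x * star x) :=
  small_rk_swap swap' R T x

theorem rk_smul_le (T : Tr R) {a : R} (ha : 0 ≤ a) (c : ℝ) (hc : 0 ≤ c) :
    rk T (c • a) ≤ rk T a := rk_cz T (smul_nonneg hc ha) ha (cz_smul c hc)

theorem rk_mono (T : Tr R) {a b : R} (ha : 0 ≤ a) (h : a ≤ b) : rk T a ≤ rk T b :=
  rk_cz T ha (ha.trans h) (cz_of_le ha h)

theorem rk_add_orth (T : Tr R) {p q : R} (hp : 0 ≤ p) (hq : 0 ≤ q) (h : p * q = 0) :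
    rk T (p + q) = rk T p + rk T q := add' R T p q hp hq h

/-- the rank is subadditive -/
theorem rk_add_le (T : Tr R) {x y : R} (hx : 0 ≤ x) (hy : 0 ≤ y) :
    rk T (x + y) ≤ rk T x + rk T y := by
  have h1 := diag' R 2 ![x + y, 0] (by
    intro j; fin_cases j
    · exact add_nonneg hx hy
    · exact le_rfl)
  have h2 := diag' R 2 ![x, y] (by
    intro j; fin_cases j
    · exact hx
    · exact hy)
  have e1 := h1.2 T
  have e2 := h2.2 T
  rw [Fin.sum_univ_two] at e1 e2
  simp only [Matrix.cons_val_zero, Matrix.cons_val_one] at e1 e2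
  rw [AD.rk_zero, add_zero] at e1
  rw [← e1, ← e2]
  set z : MM 2 R := CStarMatrix.ofMatrix !![sq x, sq y; 0, 0] with hz
  set w : MM 2 R := CStarMatrix.ofMatrix !![sq x, -sq y; 0, 0] with hw
  have hzz : z * star z = dg ![x + y, 0] := by
    ext i j
    rw [CStarMatrix.mul_apply, Fin.sum_univ_two, CStarMatrix.star_apply, CStarMatrix.star_apply]
    fin_cases i <;> fin_cases j <;>
      simp [hz, dg, sq_star, sq_mul_sq hx, sq_mul_sq hy]
  have hle : star z * z ≤ (2 : ℝ) • dg ![x, y] := by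
    have : (2 : ℝ) • dg ![x, y] - star z * z = star w * w := by
      ext i j
      rw [CStarMatrix.sub_apply, CStarMatrix.smul_apply, CStarMatrix.mul_apply,
        CStarMatrix.mul_apply, Fin.sum_univ_two, Fin.sum_univ_two, CStarMatrix.star_apply,
        CStarMatrix.star_apply, CStarMatrix.star_apply, CStarMatrix.star_apply]
      fin_cases i <;> fin_cases j <;>
        simp [hz, hw, dg, sq_star, sq_mul_sq hx, sq_mul_sq hy, two_smul]
    rw [← sub_nonneg, this]
    exact star_mul_self_nonneg w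
  rw [← hzz, ← rk_swap]
  refine (rk_mono _ (star_mul_self_nonneg z) hle).trans ?_
  exact rk_smul_le _ h2.1 2 (by norm_num)

/-- lower semicontinuity of the rank -/
theorem rk_cut (T : Tr R) {a : R} (ha : 0 ≤ a) (η : ℝ) (hη : 0 < η) :
    ∃ ε : ℝ, 0 < ε ∧ ∀ ε' : ℝ, 0 ≤ ε' → ε' ≤ ε → rk T a - η < rk T (cut ε' a) := by
  obtain ⟨δ, hδ, h1⟩ := (rk' R T a ha).2.1 (η / 2) (by positivity)
  set ε : ℝ := η * δ / (2 * (‖T.f‖ + 1)) with hε
  have hε0 : 0 < ε := by positivity
  refine ⟨ε, hε0, fun ε' h0 hle => ?_⟩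
  rcases h0.lt_or_eq with h0 | h0
  · have h2 := TDINI.phi_cut_near a ε' δ ha h0 hδ
    have h3 : ‖T.f (phi δ (cut ε' a)) - T.f (phi δ a)‖ ≤ ‖T.f‖ * (ε' / δ) := by
      rw [← map_sub]
      exact (T.f.le_opNorm _).trans (mul_le_mul_of_nonneg_left h2 (norm_nonneg _))
    have h4 : ‖T.f‖ * (ε' / δ) < η / 2 := by
      have h5 : ‖T.f‖ * (ε' / δ) ≤ ‖T.f‖ * (ε / δ) :=
        mul_le_mul_of_nonneg_left (div_le_div_of_nonneg_right hle hδ.le) (norm_nonneg _)
      have h6 : ‖T.f‖ * (ε / δ) = η / 2 * (‖T.f‖ / (‖T.f‖ + 1)) := by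
        rw [hε]
        field_simp
      have h7 : ‖T.f‖ / (‖T.f‖ + 1) < 1 := by
        rw [div_lt_one (by positivity)]
        linarith
      rw [h6] at h5
      nlinarith
    have h5 := Complex.abs_re_le_norm (T.f (phi δ (cut ε' a)) - T.f (phi δ a))
    rw [Complex.sub_re] at h5
    have h6 := (abs_le.mp (h5.trans h3)).1
    have h7 := (rk' R T (cut ε' a) ((ct' R a ha).1 ε')).1 δ hδ
    linarith
  · rw [← h0, (ct' R a ha).2.2.2.2.1]
    linarith

/-- a finite family version -/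
theorem rk_cut_fin {ι : Type} [Finite ι] (T : ι → Tr R) {a : R} (ha : 0 ≤ a) (η : ℝ)
    (hη : 0 < η) : ∃ ε : ℝ, 0 < ε ∧ ∀ ε' : ℝ, 0 ≤ ε' → ε' ≤ ε → ∀ i,
      rk (T i) a - η < rk (T i) (cut ε' a) := by
  have := Fintype.ofFinite ι
  choose e he0 he using fun i => rk_cut (T i) ha η hη
  obtain ⟨ε, hε0, hε⟩ := TDINI.exists_min Finset.univ e he0
  exact ⟨ε, hε0, fun ε' h0 hle i => he i ε' h0 (hle.trans (hε i (Finset.mem_univ i)))⟩

/-- `T a ≤ rk T a` for a positive contraction -/
theorem tr_le_rk (T : Tr R) {a : R} (ha : 0 ≤ a) (h1 : a ≤ 1) : (T.f a).re ≤ rk T a := by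
  have h2 := (rk' R T a ha).1 1 one_pos
  have h3 : phi 1 a = a := by
    unfold phi
    conv_rhs => rw [← cfcₙ_id' ℝ a (IsSelfAdjoint.of_nonneg ha)]
    refine cfcₙ_congr fun x hx => ?_
    have hn : ‖a‖ ≤ 1 := (CStarAlgebra.norm_le_one_iff_of_nonneg a ha).mpr h1
    have h4 := NonUnitalIsometricContinuousFunctionalCalculus.norm_quasispectrum_le a hx
      (IsSelfAdjoint.of_nonneg ha)
    rw [Real.norm_eq_abs] at h4
    have h5 : x ≤ 1 := (le_abs_self x).trans (h4.trans hn)
    show min 1 (x / 1) = x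
    rw [div_one]
    exact min_eq_right h5
  rwa [h3] at h2

/-! ### ramps -/

/-- the ramp function: `0` up to `ε`, `1` from `2 ε` on -/
noncomputable def rf (ε : ℝ) (h : R) : R :=
  cfcₙ (fun t : ℝ => min 1 (max 0 ((t - ε) / ε))) h

theorem rf_cont (ε : ℝ) : Continuous (fun t : ℝ => min 1 (max 0 ((t - ε) / ε))) := by fun_prop

theorem rf_zero {ε : ℝ} (hε : 0 < ε) : (fun t : ℝ => min 1 (max 0 ((t - ε) / ε))) 0 = 0 := by
  have h : (0 - ε) / ε ≤ 0 := by
    rw [zero_sub, neg_div]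
    exact neg_nonpos.mpr (by positivity)
  show min 1 (max 0 ((0 - ε) / ε)) = 0
  rw [max_eq_left h]
  exact min_eq_right zero_le_one

theorem rf_nonneg (ε : ℝ) (h : R) : 0 ≤ rf ε h :=
  cfcₙ_nonneg fun _ _ => le_min zero_le_one (le_max_left _ _)

theorem rf_star (ε : ℝ) (h : R) : star (rf ε h) = rf ε h :=
  (IsSelfAdjoint.of_nonneg (rf_nonneg ε h)).star_eq

theorem rf_le_one (ε : ℝ) (h : R) : rf ε h ≤ 1 := by
  rw [← CStarAlgebra.norm_le_one_iff_of_nonneg _ (rf_nonneg ε h)]
  refine norm_cfcₙ_le fun t _ => ?_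
  rw [Real.norm_eq_abs, abs_of_nonneg (le_min zero_le_one (le_max_left _ _))]
  exact min_le_left _ _

theorem rf_le {ε : ℝ} (hε : 0 < ε) (h : R) : rf ε h ≤ (1 / ε) • cut ε h := by
  have e : (1 / ε) • cut ε h = cfcₙ (fun t : ℝ => (1 / ε) * max (t - ε) 0) h := by
    unfold cut
    rw [cfcₙ_const_mul (1 / ε) (fun t => max (t - ε) 0) h (by fun_prop) (by simp [hε.le])]
  rw [e]
  unfold rf
  by_cases hs : IsSelfAdjoint h
  · refine cfcₙ_mono (fun t _ => ?_) (by fun_prop) (by fun_prop) (rf_zero hε) (by simp [hε.le])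
    refine (min_le_right _ _).trans ?_
    refine max_le (mul_nonneg (by positivity) (le_max_right _ _)) ?_
    rw [div_eq_inv_mul, one_div]
    exact mul_le_mul_of_nonneg_left (le_max_left _ _) (by positivity)
  · rw [cfcₙ_apply_of_not_predicate _ hs, cfcₙ_apply_of_not_predicate _ hs]

/-- `1 - rf ε h` kills the functions supported on `[2ε, ∞)` -/
theorem rf_mul {ε : ℝ} (hε : 0 < ε) (h : R) (g : ℝ → ℝ) (hg : Continuous g)
    (hg0 : ∀ t, t ≤ 2 * ε → g t = 0) : rf ε h * cfcₙ g h = cfcₙ g h := by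
  have g0 : g 0 = 0 := hg0 0 (by linarith)
  unfold rf
  rw [← cfcₙ_mul _ g h (rf_cont ε).continuousOn (rf_zero hε) hg.continuousOn g0]
  congr 1
  funext t
  by_cases ht : t ≤ 2 * ε
  · rw [hg0 t ht, mul_zero]
  · push Not at ht
    have h1 : 1 ≤ (t - ε) / ε := by
      rw [le_div_iff₀ hε]
      linarith
    rw [max_eq_right (zero_le_one.trans h1), min_eq_left h1, one_mul]

theorem rf_mul' {ε : ℝ} (hε : 0 < ε) (h : R) (g : ℝ → ℝ) (hg : Continuous g)
    (hg0 : ∀ t, t ≤ 2 * ε → g t = 0) : cfcₙ g h * rf ε h = cfcₙ g h := by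
  have h1 := congrArg star (rf_mul hε h g hg hg0)
  have h2 : star (cfcₙ g h) = cfcₙ g h := (cfcₙ_predicate g h : IsSelfAdjoint _).star_eq
  rwa [star_mul, h2, rf_star] at h1

theorem inL_rf (ε : ℝ) {h : R} (hh : 0 ≤ h) : InL h (rf ε h) :=
  InL.cfcn (IsSelfAdjoint.of_nonneg hh) _

/-! ### splitting -/

theorem split_le {a f : R} (ha : 0 ≤ a) (hf : star f = f) :
    a ≤ (2 : ℝ) • (f * a * f + (1 - f) * a * (1 - f)) := by
  have h0 : 0 ≤ (2 * f - 1) * a * star (2 * f - 1) := star_right_conjugate_nonneg ha _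
  have h1 : star (2 * f - 1) = 2 * f - 1 := by
    rw [star_sub, star_mul, hf, star_one, star_ofNat, mul_two, two_mul]
  rw [h1] at h0
  rw [← sub_nonneg]
  have e : (2 : ℝ) • (f * a * f + (1 - f) * a * (1 - f)) - a = (2 * f - 1) * a * (2 * f - 1) := by
    rw [two_smul]
    noncomm_ring
  rw [e]
  exact h0

theorem conj_nonneg {a f : R} (ha : 0 ≤ a) (hf : star f = f) : 0 ≤ f * a * f := by
  have := star_right_conjugate_nonneg ha f
  rwa [hf] at this

theorem one_sub_star {f : R} (hf : star f = f) : star (1 - f) = 1 - f := by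
  rw [star_sub, star_one, hf]

theorem rk_split (T : Tr R) {a f : R} (ha : 0 ≤ a) (hf : star f = f) :
    rk T a ≤ rk T (f * a * f) + rk T ((1 - f) * a * (1 - f)) := by
  have h1 := conj_nonneg ha hf
  have h2 := conj_nonneg ha (one_sub_star hf)
  refine (rk_mono T ha (split_le ha hf)).trans ?_
  exact (rk_smul_le T (add_nonneg h1 h2) 2 (by norm_num)).trans (rk_add_le T h1 h2)

end

end Run7.h450

/-!
# Exhaustion: comparison up to small elements with respect to finitely many traces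
-/

set_option autoImplicit false
set_option linter.unusedSectionVars false

namespace Run7.h450

open Filter Topology
open Pool.Agent.H327R4.Pure

universe u v

section

variable {R : Type u} [CStarAlgebra R] [PartialOrder R] [StarOrderedRing R]

/-- the averaging property of a trace -/
def Avg (T : Tr R) : Prop :=
  ∀ η : ℝ, 0 < η → ∃ c : ℝ, 0 < c ∧ ∀ p q : R, 0 ≤ p → p ≤ 1 → 0 ≤ q → q ≤ 1 →
    η ≤ (T.f p).re → η ≤ (T.f q).re → ∃ z : R, z * star z ≤ 1 ∧ c ≤ (T.f (p * (z * q * star z))).re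

/-- `√((t-δ)_+ / t)` -/
noncomputable def sf (δ t : ℝ) : ℝ := Real.sqrt (max (t - δ) 0 / max t δ)

theorem sf_cont {δ : ℝ} (hδ : 0 < δ) : Continuous (sf δ) := by
  unfold sf
  refine Real.continuous_sqrt.comp (Continuous.div (by fun_prop) (by fun_prop) fun t => ?_)
  exact (lt_of_lt_of_le hδ (le_max_right _ _)).ne'

theorem sf_zero {δ : ℝ} (t : ℝ) (ht : t ≤ δ) : sf δ t = 0 := by
  unfold sf
  rw [max_eq_right (by linarith : t - δ ≤ 0), zero_div, Real.sqrt_zero]

theorem sf_sq {δ : ℝ} (hδ : 0 < δ) (t : ℝ) : sf δ t * sf δ t = max (t - δ) 0 / max t δ :=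
  Real.mul_self_sqrt (div_nonneg (le_max_right _ _) (hδ.le.trans (le_max_right _ _)))

/-- `x √((h-δ)_+ / h)` for `h = x^* x` -/
noncomputable def zz (δ : ℝ) (x : R) : R := x * cfcₙ (sf δ) (star x * x)

theorem zz_star_mul {δ : ℝ} (hδ : 0 < δ) (x : R) : star (zz δ x) * zz δ x = cut δ (star x * x) := by
  have hs : star (cfcₙ (sf δ) (star x * x)) = cfcₙ (sf δ) (star x * x) :=
    (cfcₙ_predicate (sf δ) (star x * x) : IsSelfAdjoint _).star_eq
  have h0 : sf δ 0 = 0 := sf_zero 0 hδ.le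
  have hc := (sf_cont hδ).continuousOn (s := quasispectrum ℝ (star x * x))
  unfold zz
  rw [star_mul, hs]
  have e : cfcₙ (sf δ) (star x * x) * star x * (x * cfcₙ (sf δ) (star x * x)) =
      cfcₙ (sf δ) (star x * x) * (star x * x) * cfcₙ (sf δ) (star x * x) := by
    simp only [mul_assoc]
  rw [e]
  have e1 : cfcₙ (sf δ) (star x * x) * (star x * x) =
      cfcₙ (fun t => sf δ t * t) (star x * x) := by
    rw [cfcₙ_mul (sf δ) (fun t : ℝ => t) (star x * x) hc h0 (by fun_prop) rfl,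
      cfcₙ_id' ℝ (star x * x) (IsSelfAdjoint.star_mul_self x)]
  rw [e1, ← cfcₙ_mul (fun t => sf δ t * t) (sf δ) (star x * x)
    (hc.mul (by fun_prop)) (by simp) hc h0]
  unfold cut
  refine cfcₙ_congr fun t ht => ?_
  have ht0 : 0 ≤ t := quasispectrum_nonneg_of_nonneg _ (star_mul_self_nonneg x) t ht
  show sf δ t * t * sf δ t = max (t - δ) 0
  rw [mul_right_comm, sf_sq hδ]
  by_cases h : t ≤ δ
  · rw [max_eq_right (by linarith : t - δ ≤ 0), zero_div, zero_mul]
  · push Not at h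
    rw [max_eq_left h.le (a := t), div_mul_cancel₀ _ (hδ.trans h).ne']

theorem zz_mul_star {δ : ℝ} (hδ : 0 < δ) (x : R) : zz δ x * star (zz δ x) = cut δ (x * star x) := by
  have hs : star (cfcₙ (sf δ) (star x * x)) = cfcₙ (sf δ) (star x * x) :=
    (cfcₙ_predicate (sf δ) (star x * x) : IsSelfAdjoint _).star_eq
  have h0 : sf δ 0 = 0 := sf_zero 0 hδ.le
  have hc := (sf_cont hδ).continuousOn (s := quasispectrum ℝ (star x * x))
  have hk := DDAx.conj_kd x hδ (f := fun t : ℝ => max (t - δ) 0) (by fun_prop)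
    (fun t ht => max_eq_right (by linarith))
  unfold zz cut
  rw [← hk, star_mul, hs]
  have e : x * cfcₙ (sf δ) (star x * x) * (cfcₙ (sf δ) (star x * x) * star x) =
      x * (cfcₙ (sf δ) (star x * x) * cfcₙ (sf δ) (star x * x)) * star x := by
    simp only [mul_assoc]
  rw [e, ← cfcₙ_mul (sf δ) (sf δ) (star x * x) hc h0 hc h0]
  congr 2
  congr 1
  funext t
  exact sf_sq hδ t

theorem zz_eq {δ : ℝ} (hδ : 0 < δ) (x : R) : zz δ x = cfcₙ (sf δ) (x * star x) * x :=
  DDAx.conj_cfc x (sf δ) (sf_cont hδ) (sf_zero 0 hδ.le)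

theorem cut_swap {δ : ℝ} (hδ : 0 < δ) (x : R) :
    Cz (cut δ (star x * x)) (cut δ (x * star x)) := by
  rw [← zz_star_mul hδ, ← zz_mul_star hδ]
  exact star_mul_self_cz _

theorem cut_nonneg {a : R} (ha : 0 ≤ a) (ε : ℝ) : 0 ≤ cut ε a := (ct' R a ha).1 ε

theorem cut_le {a : R} (ha : 0 ≤ a) {ε : ℝ} (hε : 0 ≤ ε) : cut ε a ≤ a := (ct' R a ha).2.1 ε hε

/-- cutting down by the support of `x^* x` -/
theorem cutdown (a x : R) (ha : 0 ≤ a) (hx : InL a x) (ε : ℝ) (hε : 0 < ε) :
    ∃ a1 p : R, 0 ≤ a1 ∧ 0 ≤ p ∧ InL a a1 ∧ a ≤ (2 : ℝ) • (p + a1) ∧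
      Cz p (cut ε (star x * x)) ∧
      (∀ T : Tr R, rk T a1 + rk T (cut (2 * ε) (star x * x)) ≤ rk T a) ∧
      (∀ T : Tr R, rk T a ≤ rk T (star x * x) + rk T a1) ∧
      (∀ g : ℝ → ℝ, Continuous g → (∀ t, t ≤ 2 * ε → g t = 0) →
        a1 * cfcₙ g (star x * x) = 0) := by
  set h : R := star x * x with hh
  have h0 : 0 ≤ h := star_mul_self_nonneg x
  set f : R := rf ε h with hf
  have hfs : star f = f := rf_star ε h
  have hf0 : 0 ≤ f := rf_nonneg ε h
  have hLh : InL a h := hx.mul_left _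
  have hLf : InL a f := hLh.trans (inL_rf ε h0)
  have ha1 : 0 ≤ (1 - f) * a * (1 - f) := conj_nonneg ha (one_sub_star hfs)
  have hp : 0 ≤ f * a * f := conj_nonneg ha hfs
  have hLa1 : InL a ((1 - f) * a * (1 - f)) := by
    have e : (1 - f) * a * (1 - f) = (1 - f) * (a - a * f) := by
      rw [mul_assoc, mul_sub, mul_one]
    rw [e]
    exact ((InL.self a).sub (hLf.mul_left a)).mul_left _
  have horth : ∀ g : ℝ → ℝ, Continuous g → (∀ t, t ≤ 2 * ε → g t = 0) →
      (1 - f) * a * (1 - f) * cfcₙ g h = 0 := by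
    intro g hg hg0
    have h9 : (1 - f) * cfcₙ g h = 0 := by
      rw [sub_mul, one_mul, hf, rf_mul hε h g hg hg0, sub_self]
    rw [mul_assoc, h9, mul_zero]
  have hcutc : Continuous (fun t : ℝ => max (t - 2 * ε) 0) := by fun_prop
  have horthc : (1 - f) * a * (1 - f) * cut (2 * ε) h = 0 :=
    horth _ hcutc (fun t ht => max_eq_right (by linarith))
  have hLc : InL a (cut (2 * ε) h) := hLh.trans (InL.cfcn (IsSelfAdjoint.of_nonneg h0) _)
  have hpf : Cz (f * a * f) (cut ε h) := by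
    have h1 : f * a * f ≤ (‖a‖ * (1 / ε)) • cut ε h := by
      have h2 := CStarAlgebra.star_left_conjugate_le_norm_smul (a := f) (b := a)
        (IsSelfAdjoint.of_nonneg ha)
      rw [hfs] at h2
      have h3 : f * f ≤ f := by
        have h4 : 0 ≤ f * (1 - f) := by
          have hcom : f * (1 - f) = sq f * (1 - f) * star (sq f) := by
            have e1 : sq f * f = f * sq f := by
              calc sq f * f = sq f * (sq f * sq f) := by rw [sq_mul_sq hf0]
                _ = sq f * sq f * sq f := by rw [mul_assoc]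
                _ = f * sq f := by rw [sq_mul_sq hf0]
            have e2 : sq f * (1 - f) * sq f = sq f * sq f - sq f * f * sq f := by noncomm_ring
            rw [sq_star, e2, e1, mul_assoc f, sq_mul_sq hf0, mul_sub, mul_one]
          rw [hcom]
          exact star_right_conjugate_nonneg (sub_nonneg.mpr (rf_le_one ε h)) _
        rw [mul_sub, mul_one] at h4
        exact sub_nonneg.mp h4
      calc f * a * f ≤ ‖a‖ • (f * f) := h2
        _ ≤ ‖a‖ • f := smul_le_smul_of_nonneg_left h3 (norm_nonneg a)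
        _ ≤ ‖a‖ • ((1 / ε) • cut ε h) := smul_le_smul_of_nonneg_left (rf_le hε h) (norm_nonneg a)
        _ = _ := by rw [smul_smul]
    exact cz_of_le_smul hp _ (by positivity) h1
  refine ⟨(1 - f) * a * (1 - f), f * a * f, ha1, hp, hLa1, split_le ha hfs, hpf, ?_, ?_, horth⟩
  · intro T
    rw [← rk_add_orth T ha1 (cut_nonneg h0 _) horthc]
    exact rk_cz T (add_nonneg ha1 (cut_nonneg h0 _)) ha
      (InL.cz ha (add_nonneg ha1 (cut_nonneg h0 _)) (hLa1.add hLc))
  · intro T
    refine (rk_split T ha hfs).trans ?_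
    have h1 : rk T (f * a * f) ≤ rk T h :=
      (rk_cz T hp (cut_nonneg h0 _) hpf).trans (rk_mono T (cut_nonneg h0 _) (cut_le h0 hε.le))
    linarith

/-- exhaustion: `a` and `b` have a common subelement which is almost as large as `a` -/
theorem exh {ι : Type} [Finite ι] (T : ι → Tr R) (hT : ∀ i, Avg (T i)) (a b : R) (ha : 0 ≤ a)
    (hb : 0 ≤ b) (hab : ∀ i, rk (T i) a ≤ rk (T i) b) (η : ℝ) (hη : 0 < η) :
    ∃ x : R, InL a x ∧ InL b (star x) ∧ ∀ i, rk (T i) a - η < rk (T i) (star x * x) := by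
  have := Fintype.ofFinite ι
  by_contra hcon
  push Not at hcon
  choose c0 hc0 hc using fun i => hT i (η / 2) (by positivity)
  obtain ⟨c, hcpos, hcle⟩ := TDINI.exists_min Finset.univ c0 hc0
  set V : Set ℝ := {v | ∃ x : R, InL a x ∧ InL b (star x) ∧ v = ∑ i, rk (T i) (star x * x)} with hV
  have hbd : BddAbove V := by
    refine ⟨∑ i, rk (T i) a, ?_⟩
    rintro v ⟨x, h1, _, rfl⟩
    exact Finset.sum_le_sum fun i _ => rk_cz _ (star_mul_self_nonneg x) ha
      (InL.cz ha (star_mul_self_nonneg x) (h1.mul_left _))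
  have hne : V.Nonempty := ⟨_, 0, InL.zero a, by rw [star_zero]; exact InL.zero b, rfl⟩
  obtain ⟨v, ⟨x, hxa, hxb, rfl⟩, hxS⟩ := exists_lt_of_lt_csSup hne
    (show sSup V - c / 2 < sSup V by linarith)
  set h : R := star x * x with hh
  have h0 : 0 ≤ h := star_mul_self_nonneg x
  set k : ℝ := (Fintype.card ι : ℝ) with hk
  have hk0 : 0 ≤ k := Nat.cast_nonneg _
  obtain ⟨ε₀, hε₀, hεc⟩ := rk_cut_fin T h0 (c / (2 * (k + 1))) (by positivity)
  set ε : ℝ := ε₀ / 2 with hε
  have hεpos : 0 < ε := by positivity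
  obtain ⟨i, hi⟩ := hcon x hxa hxb
  obtain ⟨a1, p, ha1, hp, hLa1, -, -, -, hrka, horth⟩ := cutdown a x ha hxa ε hεpos
  obtain ⟨b1, p', hb1, hp', hLb1, -, -, -, hrkb, horth'⟩ := cutdown b (star x) hb hxb ε hεpos
  rw [star_star] at hrkb horth'
  have hra := hrka (T i)
  have hrb := hrkb (T i)
  rw [← rk_swap] at hrb
  have hη1 : η ≤ rk (T i) a1 := by linarith
  have hη2 : η ≤ rk (T i) b1 := by linarith [hab i]
  obtain ⟨δ, hδ, h1⟩ := (rk' R (T i) a1 ha1).2.1 (η / 2) (by positivity)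
  obtain ⟨δ', hδ', h1'⟩ := (rk' R (T i) b1 hb1).2.1 (η / 2) (by positivity)
  have hphi := (ct' R a1 ha1).2.2.2.2.2.2.2.1 δ hδ
  have hphi' := (ct' R b1 hb1).2.2.2.2.2.2.2.1 δ' hδ'
  set P : R := phi δ a1 with hP
  set Q : R := phi δ' b1 with hQ
  have hP0 : 0 ≤ P := hphi.1
  have hQ0 : 0 ≤ Q := hphi'.1
  have hP1 : P ≤ 1 := (CStarAlgebra.norm_le_one_iff_of_nonneg _ hP0).mp hphi.2.1
  have hQ1 : Q ≤ 1 := (CStarAlgebra.norm_le_one_iff_of_nonneg _ hQ0).mp hphi'.2.1
  obtain ⟨w, hw1, hw2⟩ := hc i P Q hP0 hP1 hQ0 hQ1 (by linarith) (by linarith)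
  set y : R := sq Q * star w * sq P with hy
  have hLy : InL a1 y :=
    ((InL.cfcn (IsSelfAdjoint.of_nonneg ha1) _).trans (InL.sq hP0)).mul_left _
  have hLy' : InL b1 (star y) := by
    have e : star y = sq P * w * sq Q := by
      rw [hy, star_mul, star_mul, sq_star, sq_star, star_star, mul_assoc]
    rw [e]
    exact ((InL.cfcn (IsSelfAdjoint.of_nonneg hb1) _).trans (InL.sq hQ0)).mul_left _
  have hyy : star y * y = sq P * (w * Q * star w) * sq P := by
    have e : star y * y = sq P * (w * (sq Q * sq Q) * star w) * sq P := by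
      rw [hy, star_mul, star_mul, sq_star, sq_star, star_star]
      simp only [mul_assoc]
    rw [e, sq_mul_sq hQ0]
  have hyT : c ≤ rk (T i) (star y * y) := by
    have h2 : star y * y ≤ 1 := by
      rw [hyy]
      have h3 : w * Q * star w ≤ 1 := by
        have := star_right_conjugate_le_conjugate hQ1 w
        rw [mul_one] at this
        exact this.trans hw1
      have h4 := star_right_conjugate_le_conjugate h3 (sq P)
      rw [sq_star, mul_one, sq_mul_sq hP0] at h4
      exact h4.trans hP1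
    refine le_trans ?_ (tr_le_rk (T i) (star_mul_self_nonneg y) h2)
    rw [hyy, mul_assoc, (T i).tr, mul_assoc, sq_mul_sq hP0, (T i).tr]
    exact (hcle i (Finset.mem_univ i)).trans hw2
  set z : R := zz (2 * ε) x with hz
  have h2ε : 0 < 2 * ε := by positivity
  have hza1 : z * a1 = 0 := by
    have h3 : a1 * cfcₙ (sf (2 * ε)) h = 0 :=
      horth _ (sf_cont h2ε) (fun t ht => sf_zero t ht)
    have h4 := congrArg star h3
    rw [star_mul, star_zero, (cfcₙ_predicate (sf (2 * ε)) h : IsSelfAdjoint _).star_eq,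
      (IsSelfAdjoint.of_nonneg ha1).star_eq] at h4
    rw [hz]
    unfold zz
    rw [mul_assoc, ← hh, h4, mul_zero]
  have hb1z : b1 * z = 0 := by
    rw [hz, zz_eq h2ε, ← mul_assoc, horth' _ (sf_cont h2ε) (fun t ht => sf_zero t ht), zero_mul]
  have hyz : star y * z = 0 := hLy'.mul_eq_zero hb1z
  have hzy : star z * y = 0 := by
    have := congrArg star hyz
    rwa [star_mul, star_star, star_zero] at this
  have hzys : z * star y = 0 := hLy.zero_mul_star (by
    rw [(IsSelfAdjoint.of_nonneg ha1).star_eq]; exact hza1)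
  have hsum : star (z + y) * (z + y) = star z * z + star y * y := by
    rw [star_add, add_mul, mul_add, mul_add, hzy, hyz, add_zero, zero_add]
  have horth2 : star z * z * (star y * y) = 0 := by
    have e : star z * z * (star y * y) = star z * (z * star y) * y := by
      simp only [mul_assoc]
    rw [e, hzys, mul_zero, zero_mul]
  have hzz : star z * z = cut (2 * ε) h := zz_star_mul h2ε x
  have hmem : ∑ i, rk (T i) (star (z + y) * (z + y)) ∈ V := by
    refine ⟨z + y, ?_, ?_, rfl⟩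
    · refine InL.add ?_ (hLa1.trans hLy)
      rw [hz, zz_eq h2ε]
      exact hxa.mul_left _
    · rw [star_add]
      refine InL.add ?_ (hLb1.trans hLy')
      rw [hz]
      unfold zz
      rw [star_mul]
      exact hxb.mul_left _
  have hle := le_csSup hbd hmem
  have hsumrk : ∀ j, rk (T j) (star (z + y) * (z + y)) = rk (T j) (cut (2 * ε) h) +
      rk (T j) (star y * y) := by
    intro j
    rw [hsum, rk_add_orth (T j) (star_mul_self_nonneg z) (star_mul_self_nonneg y) horth2, hzz]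
  have hlow : ∑ j, rk (T j) h - c / 2 ≤ ∑ j, rk (T j) (cut (2 * ε) h) := by
    have h5 : ∑ j, (rk (T j) h - c / (2 * (k + 1))) ≤ ∑ j, rk (T j) (cut (2 * ε) h) :=
      Finset.sum_le_sum fun j _ => (hεc (2 * ε) h2ε.le (by rw [hε]; linarith) j).le
    rw [Finset.sum_sub_distrib, Finset.sum_const, Finset.card_univ, nsmul_eq_mul, ← hk] at h5
    have h6 : k * (c / (2 * (k + 1))) ≤ c / 2 := by
      have : k * (c / (2 * (k + 1))) = c / 2 * (k / (k + 1)) := by
        field_simp
      rw [this]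
      have h7 : k / (k + 1) ≤ 1 := by
        rw [div_le_one (by positivity)]
        linarith
      have : c / 2 * (k / (k + 1)) ≤ c / 2 * 1 := mul_le_mul_of_nonneg_left h7 (by positivity)
      linarith
    linarith
  have hup : ∑ j, rk (T j) (cut (2 * ε) h) + c ≤ ∑ j, rk (T j) (star (z + y) * (z + y)) := by
    simp only [hsumrk, Finset.sum_add_distrib]
    have h8 : rk (T i) (star y * y) ≤ ∑ j, rk (T j) (star y * y) :=
      Finset.single_le_sum (f := fun j => rk (T j) (star y * y))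
        (fun j _ => rk_nonneg (T j) (star_mul_self_nonneg y)) (Finset.mem_univ i)
    linarith
  linarith

end

end Run7.h450

/-!
# The key lemma and the assembly
-/

set_option autoImplicit false
set_option linter.unusedSectionVars false

namespace Run7.h450

open Filter Topology
open Pool.Agent.H327R4.Pure

universe u v

section

variable {R : Type u} [CStarAlgebra R] [PartialOrder R] [StarOrderedRing R]

/-- comparison up to a small element -/
theorem uc {ι : Type} [Finite ι] (T : ι → Tr R) (hT : ∀ i, Avg (T i)) (a b : R) (ha : 0 ≤ a)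
    (hb : 0 ≤ b) (hab : ∀ i, rk (T i) a ≤ rk (T i) b) (η : ℝ) (hη : 0 < η) :
    ∃ v p w : R, 0 ≤ v ∧ 0 ≤ p ∧ 0 ≤ w ∧ InL a v ∧ InL b w ∧ a ≤ (2 : ℝ) • (p + v) ∧
      Cz p w ∧ ∀ i, rk (T i) v < η := by
  obtain ⟨x, hxa, hxb, hx⟩ := exh T hT a b ha hb hab (η / 2) (by positivity)
  have h0 : 0 ≤ star x * x := star_mul_self_nonneg x
  obtain ⟨ε₀, hε₀, hεc⟩ := rk_cut_fin T h0 (η / 2) (by positivity)
  obtain ⟨a1, p, ha1, hp, hLa1, hle, hcz, hrk, -, -⟩ :=
    cutdown a x ha hxa (ε₀ / 2) (by positivity)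
  have hw0 : 0 ≤ x * star x := mul_star_self_nonneg x
  refine ⟨a1, p, cut (ε₀ / 2) (x * star x), ha1, hp, cut_nonneg hw0 _, hLa1, ?_, hle,
    cz_trans hcz (cut_swap (by positivity) x), fun i => ?_⟩
  · exact (hxb.mul_left x).trans (InL.cfcn (IsSelfAdjoint.of_nonneg hw0) _)
  · have h1 := hrk (T i)
    have h2 := hεc (2 * (ε₀ / 2)) (by positivity) (by linarith) i
    have h3 := hx i
    linarith

/-- `a ≤ b + s 1` implies `(a - s)_+ ≾ b` -/
theorem cz_cut_of_le {a b : R} (ha : 0 ≤ a) (hb : 0 ≤ b) (s : ℝ) (hs : 0 ≤ s)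
    (h : a ≤ b + s • (1 : R)) : Cz (cut s a) b := by
  have hsa : IsSelfAdjoint a := IsSelfAdjoint.of_nonneg ha
  set k : ℝ → ℝ := fun t => Real.sqrt (max (t - s) 0) with hk
  have hkc : Continuous k := by rw [hk]; fun_prop
  have hk0 : k 0 = 0 := by
    show Real.sqrt (max (0 - s) 0) = 0
    rw [max_eq_right (by linarith), Real.sqrt_zero]
  set u : R := cfcₙ k a with hu
  have hus : star u = u := (cfcₙ_predicate k a : IsSelfAdjoint _).star_eq
  have h1 : u * a * u - s • (u * u) = cut s a * cut s a := by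
    have e1 : u * a * u = cfcₙ (fun t => k t * t * k t) a := by
      rw [cfcₙ_mul (fun t => k t * t) k a (by fun_prop) (by simp) hkc.continuousOn hk0,
        cfcₙ_mul k (fun t : ℝ => t) a hkc.continuousOn hk0 (by fun_prop) rfl,
        cfcₙ_id' ℝ a hsa]
    have e2 : s • (u * u) = cfcₙ (fun t => s * (k t * k t)) a := by
      rw [cfcₙ_const_mul s (fun t => k t * k t) a (by fun_prop) (by simp [hk0]),
        cfcₙ_mul k k a hkc.continuousOn hk0 hkc.continuousOn hk0]
    have e3 : cut s a * cut s a = cfcₙ (fun t : ℝ => max (t - s) 0 * max (t - s) 0) a := by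
      unfold cut
      rw [cfcₙ_mul (fun t : ℝ => max (t - s) 0) (fun t : ℝ => max (t - s) 0) a (by fun_prop)
        (by simp [hs]) (by fun_prop) (by simp [hs])]
    rw [e1, e2, e3, ← cfcₙ_sub (fun t => k t * t * k t) (fun t => s * (k t * k t)) a
      (by fun_prop) (by simp [hk0]) (by fun_prop) (by simp [hk0])]
    congr 1
    funext t
    have h2 : k t * k t = max (t - s) 0 := Real.mul_self_sqrt (le_max_right _ _)
    have h3 : k t * t * k t - s * (k t * k t) = (k t * k t) * (t - s) := by ring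
    rw [h3, h2]
    by_cases ht : t ≤ s
    · rw [max_eq_right (by linarith), zero_mul, zero_mul]
    · push Not at ht
      rw [max_eq_left (by linarith)]
  have h2 : cut s a * cut s a ≤ u * b * u := by
    have h3 := star_right_conjugate_le_conjugate h u
    rw [hus, mul_add, add_mul, mul_smul_comm, mul_one, smul_mul_assoc] at h3
    rw [← h1]
    exact sub_le_iff_le_add.mpr h3
  have h3 : 0 ≤ cut s a := cut_nonneg ha s
  refine cz_trans (cz_sq h3) (cz_trans (cz_of_le (IsSelfAdjoint.of_nonneg h3).mul_self_nonneg h2) ?_)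
  have := cz_conj u b
  rwa [hus] at this

theorem le_cut_add {a : R} (ha : 0 ≤ a) (s : ℝ) (hs : 0 ≤ s) : a ≤ cut s a + s • (1 : R) := by
  have h1 := (ct' R a ha).2.2.2.2.2.1 s hs
  have h2 : IsSelfAdjoint (a - cut s a) :=
    (IsSelfAdjoint.of_nonneg ha).sub (IsSelfAdjoint.of_nonneg (cut_nonneg ha s))
  have h3 := IsSelfAdjoint.le_algebraMap_norm_self h2
  rw [Algebra.algebraMap_eq_smul_one] at h3
  have h4 : ‖a - cut s a‖ • (1 : R) ≤ s • (1 : R) := smul_le_smul_of_nonneg_right h1 zero_le_one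
  have h5 := h3.trans h4
  rw [sub_le_iff_le_add] at h5
  rwa [add_comm]

/-- the cut-off by `1 - min (1, y / μ)` -/
theorem phi_kill {y : R} (hy : 0 ≤ y) (μ : ℝ) (hμ : 0 < μ) :
    ‖(1 - phi μ y) * y * (1 - phi μ y)‖ ≤ μ := by
  have hsa : IsSelfAdjoint y := IsSelfAdjoint.of_nonneg hy
  set g : ℝ → ℝ := fun t => min 1 (t / μ) with hg
  have hgc : Continuous g := by rw [hg]; fun_prop
  have hg0 : g 0 = 0 := by simp [hg]
  have e1 : (1 - phi μ y) * y * (1 - phi μ y) = cfcₙ (fun t => t - g t * t - t * g t +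
      g t * t * g t) y := by
    have e2 : (1 - phi μ y) * y * (1 - phi μ y) = y - phi μ y * y - y * phi μ y +
      phi μ y * y * phi μ y := by noncomm_ring
    rw [e2]
    unfold phi
    rw [cfcₙ_add (fun t => t - g t * t - t * g t) (fun t => g t * t * g t) y (by fun_prop)
      (by simp) (by fun_prop) (by simp),
      cfcₙ_sub (fun t => t - g t * t) (fun t => t * g t) y (by fun_prop) (by simp) (by fun_prop)
      (by simp), cfcₙ_sub (fun t : ℝ => t) (fun t => g t * t) y (by fun_prop) rfl (by fun_prop)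
      (by simp), cfcₙ_mul (fun t => g t * t) g y (by fun_prop) (by simp) hgc.continuousOn hg0,
      cfcₙ_mul g (fun t : ℝ => t) y hgc.continuousOn hg0 (by fun_prop) rfl,
      cfcₙ_mul (fun t : ℝ => t) g y (by fun_prop) rfl hgc.continuousOn hg0,
      cfcₙ_id' ℝ y hsa]
  rw [e1]
  refine norm_cfcₙ_le fun t ht => ?_
  have ht0 : 0 ≤ t := quasispectrum_nonneg_of_nonneg y hy t ht
  have e3 : t - g t * t - t * g t + g t * t * g t = t * (1 - g t) ^ 2 := by ring
  rw [e3, Real.norm_eq_abs, abs_of_nonneg (by positivity)]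
  by_cases h : t ≤ μ
  · have h1 : t / μ ≤ 1 := (div_le_one hμ).mpr h
    have h2 : g t = t / μ := min_eq_right h1
    have h3 : 0 ≤ t / μ := by positivity
    have h4 : (1 - g t) ^ 2 ≤ 1 := by
      rw [h2]
      nlinarith
    have h5 : t * (1 - g t) ^ 2 ≤ t * 1 := mul_le_mul_of_nonneg_left h4 ht0
    linarith
  · push Not at h
    have h1 : 1 ≤ t / μ := (one_le_div hμ).mpr h.le
    have h2 : g t = 1 := min_eq_left h1
    rw [h2]
    simp only [sub_self]
    nlinarith

variable {C : Type v} [CStarAlgebra C] [PartialOrder C] [StarOrderedRing C]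

/-- the key lemma: a subelement of `t` in `C` which is exactly below `b` in `R` and whose
complement is small -/
theorem key {ι : Type} [Finite ι] (T : ι → Tr R) (hT : ∀ i, Avg (T i)) (ψ : C →⋆ₙₐ[ℂ] R)
    (F : R → C) (κ : ℝ) (hκ : 0 ≤ κ) (hF0 : ∀ v, 0 ≤ v → 0 ≤ F v)
    (hF : ∀ v, 0 ≤ v → InL (ψ 1) v → v ≤ κ • ψ (F v)) (t : C) (ht : 0 ≤ t) (b : R) (hb : 0 ≤ b)
    (hab : ∀ i, rk (T i) (ψ t) ≤ rk (T i) b) (η : ℝ) (hη : 0 < η) (δ : ℝ) (hδ : 0 < δ) :
    ∃ (t1 : C) (v w b1 : R), 0 ≤ t1 ∧ 0 ≤ v ∧ 0 ≤ w ∧ 0 ≤ b1 ∧ InL b w ∧ InL b b1 ∧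
      b1 * w = 0 ∧ Cz (ψ t1) w ∧ (∀ i, rk (T i) v < η) ∧ InL (ψ 1) v ∧
      (∀ i, rk (T i) b ≤ rk (T i) (ψ t) + rk (T i) b1) ∧
      ∀ S : Tr C, rk S (cut δ t) ≤ rk S (F v) + rk S t1 := by
  have hom := hom' C R ψ
  have hψt : 0 ≤ ψ t := (hom t ht).1
  obtain ⟨x, hxa, hxb, hx⟩ := exh T hT (ψ t) b hψt hb hab (η / 2) (by positivity)
  have h0 : 0 ≤ star x * x := star_mul_self_nonneg x
  have h0' : 0 ≤ x * star x := mul_star_self_nonneg x
  obtain ⟨ε₀, hε₀, hεc⟩ := rk_cut_fin T h0 (η / 2) (by positivity)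
  set ε : ℝ := ε₀ / 2 with hε
  have hεpos : 0 < ε := by positivity
  obtain ⟨v, p, hv, hp, hLv, hle, hcz, hrk, -, -⟩ := cutdown (ψ t) x hψt hxa ε hεpos
  obtain ⟨b1, p', hb1, hp', hLb1, -, -, -, hrkb, horth⟩ :=
    cutdown b (star x) hb hxb (ε / 2) (by positivity)
  rw [star_star] at hrkb horth
  set w : R := cut ε (x * star x) with hw
  have hLψ : InL (ψ 1) (ψ t) := by
    have := (InL.self (ψ (1 : C))).mul_left (ψ t)
    rwa [← map_mul, mul_one] at this
  set y : C := F v with hy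
  have hy0 : 0 ≤ y := hF0 v hv
  have hvy : v ≤ κ • ψ y := hF v hv (hLψ.trans hLv)
  set μ : ℝ := δ / (4 * (κ + 1)) with hμ
  have hμ0 : 0 < μ := by positivity
  have hκμ : 4 * (κ * μ) ≤ δ := by
    have : 4 * (κ * μ) = δ * (κ / (κ + 1)) := by
      rw [hμ]
      field_simp
    rw [this]
    have h1 : κ / (κ + 1) ≤ 1 := by
      rw [div_le_one (by positivity)]
      linarith
    nlinarith
  set g : C := phi μ y with hg
  have hgs : star g = g := (IsSelfAdjoint.of_nonneg ((ct' C y hy0).2.2.2.2.2.2.2.1 μ hμ0).1).star_eq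
  set tw : C := (1 - g) * t * (1 - g) with htw
  have htw0 : 0 ≤ tw := conj_nonneg ht (one_sub_star hgs)
  set t1 : C := cut (2 * (κ * μ)) tw with ht1
  have ht10 : 0 ≤ t1 := cut_nonneg htw0 _
  have hψg : star (1 - ψ g) = 1 - ψ g := one_sub_star (by rw [← map_star, hgs])
  have hψtw : ψ tw = (1 - ψ g) * ψ t * (1 - ψ g) := by
    have e1 : tw = t - g * t - t * g + g * t * g := by rw [htw]; noncomm_ring
    have e2 : (1 - ψ g) * ψ t * (1 - ψ g) = ψ t - ψ g * ψ t - ψ t * ψ g + ψ g * ψ t * ψ g := by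
      noncomm_ring
    rw [e1, e2]
    simp only [map_add, map_sub, map_mul]
  have hψy : (1 - ψ g) * ψ y * (1 - ψ g) ≤ μ • (1 : R) := by
    have e1 : (1 - ψ g) * ψ y * (1 - ψ g) = ψ ((1 - g) * y * (1 - g)) := by
      have e1 : (1 - g) * y * (1 - g) = y - g * y - y * g + g * y * g := by noncomm_ring
      have e2 : (1 - ψ g) * ψ y * (1 - ψ g) = ψ y - ψ g * ψ y - ψ y * ψ g + ψ g * ψ y * ψ g := by
        noncomm_ring
      rw [e1, e2]
      simp only [map_add, map_sub, map_mul]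
    rw [e1]
    have h1 : 0 ≤ (1 - g) * y * (1 - g) := conj_nonneg hy0 (one_sub_star hgs)
    have h2 := (hom _ h1).1
    have h3 := IsSelfAdjoint.le_algebraMap_norm_self (IsSelfAdjoint.of_nonneg h2)
    rw [Algebra.algebraMap_eq_smul_one] at h3
    refine h3.trans (smul_le_smul_of_nonneg_right ?_ zero_le_one)
    exact (NonUnitalStarAlgHom.norm_apply_le ψ _).trans (phi_kill hy0 μ hμ0)
  have hczt1 : Cz (ψ t1) w := by
    have h1 : ψ tw ≤ (2 : ℝ) • ((1 - ψ g) * p * (1 - ψ g)) + (2 * (κ * μ)) • (1 : R) := by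
      rw [hψtw]
      have h2 := star_right_conjugate_le_conjugate hle (1 - ψ g)
      rw [hψg] at h2
      refine h2.trans ?_
      have e1 : (1 - ψ g) * ((2 : ℝ) • (p + v)) * (1 - ψ g) =
          (2 : ℝ) • ((1 - ψ g) * p * (1 - ψ g)) + (2 : ℝ) • ((1 - ψ g) * v * (1 - ψ g)) := by
        rw [mul_smul_comm, smul_mul_assoc, mul_add, add_mul, smul_add]
      rw [e1]
      refine add_le_add le_rfl ?_
      have h3 := star_right_conjugate_le_conjugate hvy (1 - ψ g)
      rw [hψg, mul_smul_comm, smul_mul_assoc] at h3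
      have h4 : κ • ((1 - ψ g) * ψ y * (1 - ψ g)) ≤ κ • (μ • (1 : R)) :=
        smul_le_smul_of_nonneg_left hψy hκ
      have h5 : (2 : ℝ) • ((1 - ψ g) * v * (1 - ψ g)) ≤ (2 : ℝ) • (κ • (μ • (1 : R))) :=
        smul_le_smul_of_nonneg_left (h3.trans h4) (by norm_num)
      refine h5.trans (le_of_eq ?_)
      rw [smul_smul, smul_smul, mul_assoc]
    have hP : 0 ≤ (1 - ψ g) * p * (1 - ψ g) := conj_nonneg hp hψg
    have h2 := cz_cut_of_le (hom tw htw0).1 (smul_nonneg (by norm_num) hP) (2 * (κ * μ))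
      (by positivity) h1
    rw [ht1, (hom tw htw0).2.1 _ (by positivity)]
    refine cz_trans h2 (cz_trans (cz_smul 2 (by norm_num)) (cz_trans ?_
      (cz_trans hcz (cut_swap hεpos x))))
    have := cz_conj (1 - ψ g) p
    rwa [hψg] at this
  refine ⟨t1, v, w, b1, ht10, hv, cut_nonneg h0' _, hb1, ?_, hLb1, ?_, hczt1, ?_, hLψ.trans hLv,
    ?_, ?_⟩
  · exact (hxb.mul_left x).trans (InL.cfcn (IsSelfAdjoint.of_nonneg h0') _)
  · exact horth (fun s : ℝ => max (s - ε) 0) (by fun_prop) (fun s hs => max_eq_right (by linarith))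
  · intro i
    have h1 := hrk (T i)
    have h2 := hεc (2 * ε) (by positivity) (by rw [hε]; linarith) i
    have h3 := hx i
    linarith
  · intro i
    have h1 := hrkb (T i)
    rw [← rk_swap] at h1
    have h2 : rk (T i) (star x * x) ≤ rk (T i) (ψ t) :=
      rk_cz _ h0 hψt (InL.cz hψt h0 (hxa.mul_left _))
    linarith
  · intro S
    have h1 : t ≤ (2 : ℝ) • (g * t * g + t1) + δ • (1 : C) := by
      refine (split_le ht hgs).trans ?_
      have h2 := le_cut_add htw0 (2 * (κ * μ)) (by positivity)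
      have h3 : (2 : ℝ) • (g * t * g + (1 - g) * t * (1 - g)) ≤
          (2 : ℝ) • (g * t * g + (t1 + (2 * (κ * μ)) • (1 : C))) :=
        smul_le_smul_of_nonneg_left (add_le_add le_rfl h2) (by norm_num)
      refine h3.trans ?_
      rw [← add_assoc, smul_add (2 : ℝ) (g * t * g + t1)]
      refine add_le_add le_rfl ?_
      rw [smul_smul]
      exact smul_le_smul_of_nonneg_right (by linarith) zero_le_one
    have hgt : 0 ≤ g * t * g := conj_nonneg ht hgs
    have h2 := cz_cut_of_le ht (smul_nonneg (by norm_num) (add_nonneg hgt ht10)) δ hδ.le h1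
    have h3 := rk_cz S (cut_nonneg ht δ) (smul_nonneg (by norm_num) (add_nonneg hgt ht10)) h2
    refine h3.trans ((rk_smul_le S (add_nonneg hgt ht10) 2 (by norm_num)).trans
      ((rk_add_le S hgt ht10).trans ?_))
    have h4 : InL y (g * t * g) := (InL.cfcn (IsSelfAdjoint.of_nonneg hy0) _).mul_left _
    have h5 := rk_cz S hgt hy0 (InL.cz hy0 hgt h4)
    linarith

/-- the assembly: comparison in `R` from comparison of small elements -/
theorem assemble {ι : Type} [Finite ι] (T : ι → Tr R) (hT : ∀ i, Avg (T i)) (ψ : C →⋆ₙₐ[ℂ] R)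
    (F : R → C) (κ : ℝ) (hκ : 0 ≤ κ) (hF0 : ∀ v, 0 ≤ v → 0 ≤ F v)
    (hF : ∀ v, 0 ≤ v → InL (ψ 1) v → v ≤ κ • ψ (F v)) (SS : Set (Tr C)) (K : ℝ) (hK : 0 ≤ K)
    (hFK : ∀ v, 0 ≤ v → ∀ η : ℝ, (∀ i, rk (T i) v < η) → ∀ S ∈ SS, rk S (F v) ≤ K * η)
    (a b : R) (ha : 0 ≤ a) (hb : 0 ≤ b) (t : C) (ht : 0 ≤ t)
    (hab : ∀ i, rk (T i) a + rk (T i) (ψ t) ≤ rk (T i) b) (r ε δ : ℝ) (hε : 0 < ε) (hδ : 0 < δ)
    (htδ : ∀ S ∈ SS, r + 2 * ε ≤ rk S (cut δ t))
    (hcomp : ∀ t1 : C, 0 ≤ t1 → (∀ S ∈ SS, r + ε ≤ rk S t1) → ∀ s : R, 0 ≤ s →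
      (∀ i, rk (T i) s < ε) → Cz s (ψ t1)) : Cz a b := by
  have hom := hom' C R ψ
  have hψt : 0 ≤ ψ t := (hom t ht).1
  obtain ⟨t1, v, w, b1, ht1, hv, hw, hb1, hLw, hLb1, horth, hczt, hrv, hLv, hrb, hS⟩ :=
    key T hT ψ F κ hκ hF0 hF t ht b hb
      (fun i => by have := hab i; have := rk_nonneg (T i) ha; linarith) (ε / (K + 1))
      (by positivity) δ hδ
  have h1 : ∀ S ∈ SS, r + ε ≤ rk S t1 := by
    intro S hS'
    have h2 := hFK v hv _ hrv S hS'
    have h3 := hS S
    have h4 := htδ S hS'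
    have h5 : K * (ε / (K + 1)) ≤ ε := by
      have : K * (ε / (K + 1)) = ε * (K / (K + 1)) := by ring
      rw [this]
      have h6 : K / (K + 1) ≤ 1 := by
        rw [div_le_one (by positivity)]
        linarith
      nlinarith
    linarith
  have h2 := hcomp t1 ht1 h1
  obtain ⟨v', p', w', hv', hp', hw', -, hLw', hle, hcz, hrv'⟩ :=
    uc T hT a b1 ha hb1 (fun i => by have := hab i; have := hrb i; linarith) ε hε
  have h3 : Cz v' w := cz_trans (h2 v' hv' hrv') hczt
  have h4 : w' * w = 0 := hLw'.mul_eq_zero horth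
  have h5 : Cz (p' + v') (w' + w) := cz_add hp' hv' hw' hw h4 hcz h3
  have h6 : InL b (w' + w) := (hLb1.trans hLw').add hLw
  exact cz_trans (cz_of_le_smul ha 2 (by norm_num) hle)
    (cz_trans h5 (InL.cz hb (add_nonneg hw' hw) h6))

end

end Run7.h450
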