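import Pool.Agent.Run7.h450.Avg
import Pool.Agent.Run7.h450.Q1

/-!
# Explicit form of the cut down, and its trace
-/

set_option autoImplicit false
set_option linter.unusedSectionVars false

namespace Run7.h450

open Filter Topology
open Pool.Agent.H327R4.Pure

universe u v

section

variable {R : Type u} [CStarAlgebra R] [PartialOrder R] [StarOrderedRing R]

theorem rf_sq_le (ε : ℝ) (h : R) : rf ε h * rf ε h ≤ rf ε h :=
  mul_self_le (rf_nonneg ε h) (rf_le_one ε h)

/-- cutting down by the support of `x^* x`, explicit form -/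
theorem cutdown' (a x : R) (ha : 0 ≤ a) (hx : InL a x) (ε : ℝ) (hε : 0 < ε) :
    0 ≤ (1 - rf ε (star x * x)) * a * (1 - rf ε (star x * x)) ∧
      0 ≤ rf ε (star x * x) * a * rf ε (star x * x) ∧
      InL a ((1 - rf ε (star x * x)) * a * (1 - rf ε (star x * x))) ∧
      a ≤ (2 : ℝ) • (rf ε (star x * x) * a * rf ε (star x * x) +
        (1 - rf ε (star x * x)) * a * (1 - rf ε (star x * x))) ∧
      Cz (rf ε (star x * x) * a * rf ε (star x * x)) (cut ε (star x * x)) ∧
      (∀ T : Tr R, rk T ((1 - rf ε (star x * x)) * a * (1 - rf ε (star x * x))) +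
        rk T (cut (2 * ε) (star x * x)) ≤ rk T a) := by
  set h : R := star x * x with hh
  have h0 : 0 ≤ h := star_mul_self_nonneg x
  set f : R := rf ε h with hf
  have hfs : star f = f := rf_star ε h
  have hf0 : 0 ≤ f := rf_nonneg ε h
  have hLh : InL a h := hx.mul_left _
  have hLf : InL a f := hLh.trans (inL_rf ε h0)
  have ha1 : 0 ≤ (1 - f) * a * (1 - f) := conj_nonneg ha (one_sub_star hfs)
  have hp : 0 ≤ f * a * f := conj_nonneg ha hfs
  have hLa1 : InL a ((1 - f) * a * (1 - f)) := by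
    have e : (1 - f) * a * (1 - f) = (1 - f) * (a - a * f) := by
      rw [mul_assoc, mul_sub, mul_one]
    rw [e]
    exact ((InL.self a).sub (hLf.mul_left a)).mul_left _
  have horthc : (1 - f) * a * (1 - f) * cut (2 * ε) h = 0 := by
    have h9 : (1 - f) * cut (2 * ε) h = 0 := by
      rw [sub_mul, one_mul, hf]
      unfold cut
      rw [rf_mul hε h _ (by fun_prop) (fun t ht => max_eq_right (by linarith)), sub_self]
    rw [mul_assoc, h9, mul_zero]
  have hLc : InL a (cut (2 * ε) h) := hLh.trans (InL.cfcn (IsSelfAdjoint.of_nonneg h0) _)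
  have hpf : Cz (f * a * f) (cut ε h) := by
    have h1 : f * a * f ≤ (‖a‖ * (1 / ε)) • cut ε h := by
      have h2 := CStarAlgebra.star_left_conjugate_le_norm_smul (a := f) (b := a)
        (IsSelfAdjoint.of_nonneg ha)
      rw [hfs] at h2
      calc f * a * f ≤ ‖a‖ • (f * f) := h2
        _ ≤ ‖a‖ • f := smul_le_smul_of_nonneg_left (rf_sq_le ε h) (norm_nonneg a)
        _ ≤ ‖a‖ • ((1 / ε) • cut ε h) := smul_le_smul_of_nonneg_left (rf_le hε h) (norm_nonneg a)
        _ = _ := by rw [smul_smul]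
    exact cz_of_le_smul hp _ (by positivity) h1
  refine ⟨ha1, hp, hLa1, split_le ha hfs, hpf, ?_⟩
  intro T
  rw [← rk_add_orth T ha1 (cut_nonneg h0 _) horthc]
  exact rk_cz T (add_nonneg ha1 (cut_nonneg h0 _)) ha
    (InL.cz ha (add_nonneg ha1 (cut_nonneg h0 _)) (hLa1.add hLc))

/-- `h (1 - rf ε h) ≤ 2 ε` -/
theorem sub_rf_le {h : R} (h0 : 0 ≤ h) (ε : ℝ) (hε : 0 < ε) :
    h - h * rf ε h ≤ (2 * ε) • (1 : R) := by
  have hsa : IsSelfAdjoint h := IsSelfAdjoint.of_nonneg h0
  have hc := (rf_cont ε).continuousOn (s := quasispectrum ℝ h)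
  have e : h - h * rf ε h = cfcₙ (fun t => t - t * min 1 (max 0 ((t - ε) / ε))) h := by
    unfold rf
    rw [cfcₙ_sub (fun t : ℝ => t) (fun t => t * min 1 (max 0 ((t - ε) / ε))) h (by fun_prop) rfl
      (continuousOn_id.mul hc) (by simp),
      cfcₙ_mul (fun t : ℝ => t) (fun t => min 1 (max 0 ((t - ε) / ε))) h (by fun_prop) rfl hc
      (rf_zero hε), cfcₙ_id' ℝ h hsa]
  rw [e]
  have h1 : ‖cfcₙ (fun t => t - t * min 1 (max 0 ((t - ε) / ε))) h‖ ≤ 2 * ε := by
    refine norm_cfcₙ_le fun t ht => ?_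
    have ht0 : 0 ≤ t := quasispectrum_nonneg_of_nonneg h h0 t ht
    have h2 : 0 ≤ min 1 (max 0 ((t - ε) / ε)) := le_min zero_le_one (le_max_left _ _)
    have h3 : min 1 (max 0 ((t - ε) / ε)) ≤ 1 := min_le_left _ _
    rw [Real.norm_eq_abs, abs_of_nonneg (by nlinarith)]
    by_cases h4 : t ≤ 2 * ε
    · nlinarith
    · push Not at h4
      have h5 : 1 ≤ (t - ε) / ε := by
        rw [le_div_iff₀ hε]
        linarith
      rw [max_eq_right (zero_le_one.trans h5), min_eq_left h5]
      linarith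
  have h2 := IsSelfAdjoint.le_algebraMap_norm_self
    (cfcₙ_predicate (fun t => t - t * min 1 (max 0 ((t - ε) / ε))) h : IsSelfAdjoint _)
  rw [Algebra.algebraMap_eq_smul_one] at h2
  exact h2.trans (smul_le_smul_of_nonneg_right h1 zero_le_one)

theorem one_sub_sq_le {f : R} (h0 : 0 ≤ f) (h1 : f ≤ 1) : (1 - f) * (1 - f) ≤ 1 - f :=
  mul_self_le (sub_nonneg.mpr h1) (sub_le_self _ h0)

/-- the trace of the part of `a` left by `x` -/
theorem tr_left_le (T : Tr R) {a x : R} (ha : 0 ≤ a) (hxa : star x * x ≤ a) (ε : ℝ)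
    (hε : 0 < ε) :
    (T.f ((1 - rf ε (star x * x)) * a * (1 - rf ε (star x * x)))).re ≤
      (T.f a).re - (T.f (star x * x)).re + 2 * ε * (T.f 1).re := by
  set h : R := star x * x with hh
  have h0 : 0 ≤ h := star_mul_self_nonneg x
  set f : R := rf ε h with hf
  have hf0 : 0 ≤ f := rf_nonneg ε h
  have hf1 : f ≤ 1 := rf_le_one ε h
  have e1 : (T.f ((1 - f) * a * (1 - f))).re = (T.f (a * ((1 - f) * (1 - f)))).re := by
    rw [mul_assoc, T.tr, mul_assoc]
  have e2 := re_mul_le T ha (one_sub_sq_le hf0 hf1)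
  have e3 : (T.f (a * (1 - f))).re = (T.f a).re - (T.f (f * a)).re := by
    rw [mul_sub, mul_one, map_sub, Complex.sub_re, T.tr a f]
  have e4 := re_mul_le T hf0 hxa
  have e5 : (T.f (h - h * f)).re ≤ 2 * ε * (T.f 1).re := by
    have := (mt' R T).1 _ _ (sub_rf_le h0 ε hε)
    rwa [tr_rsmul] at this
  rw [map_sub, Complex.sub_re, T.tr h f] at e5
  rw [e1]
  linarith

/-- a small trace gives a small rank after cutting -/
theorem rk_cut_le (T : Tr R) {v : R} (hv : 0 ≤ v) (κ : ℝ) (hκ : 0 < κ) :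
    rk T (cut κ v) ≤ (T.f v).re / κ := by
  refine (sand' R T v κ hv hκ).trans ?_
  have h1 : phi κ v ≤ (1 / κ) • v := by
    have hsa : IsSelfAdjoint v := IsSelfAdjoint.of_nonneg hv
    have e : (1 / κ) • v = cfcₙ (fun t : ℝ => (1 / κ) * t) v := by
      rw [cfcₙ_const_mul (1 / κ) (fun t : ℝ => t) v (by fun_prop) rfl, cfcₙ_id' ℝ v hsa]
    rw [e]
    unfold phi
    refine cfcₙ_mono (fun t _ => ?_) (by fun_prop) (by fun_prop) (by simp) (by simp)
    refine (min_le_right _ _).trans (le_of_eq ?_)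
    ring
  have h2 := (mt' R T).1 _ _ h1
  rw [tr_rsmul] at h2
  refine h2.trans (le_of_eq ?_)
  ring

end

end Run7.h450

/-!
# Comparison with respect to a single trace, with a margin in all traces
-/

set_option autoImplicit false
set_option linter.unusedSectionVars false

namespace Run7.h450

open Filter Topology
open Pool.Agent.H327R4.Pure

universe u v w

section

variable {R : Type u} [CStarAlgebra R] [PartialOrder R] [StarOrderedRing R]

theorem exists_fun_elt (x : R) (f : ℝ → ℝ) (hf : Continuous f)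
    (hf0 : ∀ t, 0 ≤ f t) (η : ℝ) (hη : 0 < η) (hfη : ∀ t, t ≤ η → f t = 0) :
    ∃ k : R, star k = k ∧ star (x * k) * (x * k) = cfcₙ f (star x * x) := by
  set g : ℝ → ℝ := fun t => Real.sqrt (DDAx.kd η f t) with hg
  have hkc : Continuous (DDAx.kd η f) := DDAx.kd_cont hη hf
  have hk0 : DDAx.kd η f 0 = 0 := DDAx.kd_zero hη hfη
  have hkn : ∀ t, 0 ≤ DDAx.kd η f t := fun t =>
    div_nonneg (hf0 t) (hη.le.trans (le_max_right _ _))
  have hgc : Continuous g := Real.continuous_sqrt.comp hkc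
  have hg0 : g 0 = 0 := by simp [hg, hk0]
  have hgg : ∀ t, g t * g t = DDAx.kd η f t := fun t => Real.mul_self_sqrt (hkn t)
  set k : R := cfcₙ g (star x * x) with hk
  have hks : star k = k := (cfcₙ_predicate g (star x * x) : IsSelfAdjoint _).star_eq
  have hsa : IsSelfAdjoint (star x * x) := IsSelfAdjoint.star_mul_self x
  refine ⟨k, hks, ?_⟩
  have e2 : star (x * k) * (x * k) = k * (star x * x) * k := by
    rw [star_mul, hks]
    simp only [mul_assoc]
  have e3 : k * (star x * x) = cfcₙ (fun t => g t * t) (star x * x) := by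
    rw [cfcₙ_mul g (fun t : ℝ => t) (star x * x) hgc.continuousOn hg0 (by fun_prop) rfl,
      cfcₙ_id' ℝ (star x * x) hsa]
  rw [e2, e3, hk, ← cfcₙ_mul (fun t => g t * t) g (star x * x)
    (hgc.mul continuous_id).continuousOn (by simp) hgc.continuousOn hg0]
  congr 1
  funext t
  have : g t * t * g t = g t * g t * t := by ring
  rw [this, hgg, DDAx.kd_mul hη hfη]

theorem one_sub_rf_le {h : R} (_h0 : 0 ≤ h) {ε : ℝ} (hε : 0 < ε) :
    1 - rf (ε / 2) h ≤ (1 - rf ε h) * (1 - rf ε h) := by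
  have hc := (rf_cont ε).continuousOn (s := quasispectrum ℝ h)
  have hc' := (rf_cont (ε / 2)).continuousOn (s := quasispectrum ℝ h)
  have hε2 : 0 < ε / 2 := by positivity
  have e : (1 - rf ε h) * (1 - rf ε h) - (1 - rf (ε / 2) h) = cfcₙ (fun t =>
      min 1 (max 0 ((t - ε / 2) / (ε / 2))) - 2 * min 1 (max 0 ((t - ε) / ε)) +
        min 1 (max 0 ((t - ε) / ε)) * min 1 (max 0 ((t - ε) / ε))) h := by
    rw [cfcₙ_add (fun t => min 1 (max 0 ((t - ε / 2) / (ε / 2))) -
        2 * min 1 (max 0 ((t - ε) / ε)))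
        (fun t => min 1 (max 0 ((t - ε) / ε)) * min 1 (max 0 ((t - ε) / ε))) h
        (hc'.sub (continuousOn_const.mul hc)) (by simp only [rf_zero hε, rf_zero hε2]; simp)
        (hc.mul hc) (by simp only [rf_zero hε]; simp),
      cfcₙ_sub (fun t => min 1 (max 0 ((t - ε / 2) / (ε / 2))))
        (fun t => 2 * min 1 (max 0 ((t - ε) / ε))) h hc' (rf_zero hε2)
        (continuousOn_const.mul hc) (by simp only [rf_zero hε]; simp),
      cfcₙ_const_mul (2 : ℝ) (fun t => min 1 (max 0 ((t - ε) / ε))) h hc (rf_zero hε),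
      cfcₙ_mul (fun t => min 1 (max 0 ((t - ε) / ε))) (fun t => min 1 (max 0 ((t - ε) / ε))) h
        hc (rf_zero hε) hc (rf_zero hε)]
    unfold rf
    rw [two_smul]
    noncomm_ring
  rw [← sub_nonneg, e]
  refine cfcₙ_nonneg fun t ht => ?_
  by_cases h1 : t ≤ ε
  · have h2 : (t - ε) / ε ≤ 0 := div_nonpos_of_nonpos_of_nonneg (by linarith) hε.le
    rw [max_eq_left h2, min_eq_right zero_le_one]
    have h3 : 0 ≤ min 1 (max 0 ((t - ε / 2) / (ε / 2))) := le_min zero_le_one (le_max_left _ _)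
    linarith
  · push Not at h1
    have h2 : 1 ≤ (t - ε / 2) / (ε / 2) := by
      rw [le_div_iff₀ hε2]
      linarith
    rw [max_eq_right (zero_le_one.trans h2), min_eq_left h2]
    nlinarith [mul_self_nonneg (1 - min 1 (max 0 ((t - ε) / ε)))]

end

end Run7.h450

/-!
# Sequences which are null in the uniform 2-seminorm
-/

set_option autoImplicit false
set_option linter.unusedSectionVars false

namespace Run7.h450

open Filter Topology
open Pool.Agent.H327R4.Pure

universe u v w

section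

variable {R : Type u} [CStarAlgebra R] [PartialOrder R] [StarOrderedRing R]

theorem N2_add_le (T : Tr R) (x y : R) : N2 T (x + y) ≤ 2 * N2 T x + 2 * N2 T y := by
  have h1 := N2_sub T x y
  have h2 := N2_nonneg T (x - y)
  linarith

theorem N2_neg (T : Tr R) (x : R) : N2 T (-x) = N2 T x := by
  unfold N2
  rw [star_neg, neg_mul_neg]

theorem N2_star (T : Tr R) (x : R) : N2 T (star x) = N2 T x := by
  unfold N2
  rw [star_star, T.tr]

theorem N2_zero (T : Tr R) : N2 T (0 : R) = 0 := by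
  unfold N2
  rw [mul_zero, map_zero, Complex.zero_re]

theorem N2_mul_left (T : Tr R) (a y : R) : N2 T (a * y) ≤ ‖a‖ ^ 2 * N2 T y := by
  unfold N2
  have h1 := CStarAlgebra.star_left_conjugate_le_norm_smul (a := y) (b := star a * a)
    (IsSelfAdjoint.star_mul_self a)
  have h2 := (mt' R T).1 _ _ h1
  rw [tr_rsmul, CStarRing.norm_star_mul_self] at h2
  have e : star (a * y) * (a * y) = star y * (star a * a) * y := by
    rw [star_mul]
    simp only [mul_assoc]
  rw [e]
  refine h2.trans (le_of_eq ?_)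
  ring

theorem N2_mul_right (T : Tr R) (y a : R) : N2 T (y * a) ≤ ‖a‖ ^ 2 * N2 T y := by
  rw [← N2_star T (y * a), star_mul]
  refine (N2_mul_left T (star a) (star y)).trans (le_of_eq ?_)
  rw [norm_star, N2_star]

theorem re_sq_le (T : Tr R) (y : R) : (T.f y).re ^ 2 ≤ (T.f 1).re * N2 T y := by
  have h1 := cs T 1 y
  have h2 : N2 T (1 : R) = (T.f 1).re := by
    unfold N2
    rw [star_one, mul_one]
  rw [star_one, one_mul, h2] at h1
  refine le_trans ?_ h1
  exact sq_le_sq' (by
    have := Complex.abs_re_le_norm (T.f y)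
    have := (abs_le.mp this).1
    linarith) ((le_abs_self _).trans (Complex.abs_re_le_norm _))

/-- null sequences -/
def NN (S : Set (Tr R)) (y : ℕ → R) : Prop :=
  ∀ ε : ℝ, 0 < ε → ∀ᶠ n in atTop, ∀ T ∈ S, N2 T (y n) ≤ ε

/-- bounded sequences -/
def Bd (y : ℕ → R) : Prop := ∃ C : ℝ, 0 ≤ C ∧ ∀ n, ‖y n‖ ≤ C

variable {S : Set (Tr R)}

theorem NN.zero : NN S (0 : ℕ → R) := by
  intro ε hε
  refine Eventually.of_forall fun n T _ => ?_
  rw [Pi.zero_apply, N2_zero]
  exact hε.le

theorem NN.add {x y : ℕ → R} (hx : NN S x) (hy : NN S y) : NN S (x + y) := by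
  intro ε hε
  filter_upwards [hx (ε / 4) (by positivity), hy (ε / 4) (by positivity)] with n h1 h2 T hT
  have := N2_add_le T (x n) (y n)
  have h1 := h1 T hT
  have h2 := h2 T hT
  rw [Pi.add_apply]
  linarith

theorem NN.neg {x : ℕ → R} (hx : NN S x) : NN S (-x) := by
  intro ε hε
  filter_upwards [hx ε hε] with n h1 T hT
  rw [Pi.neg_apply, N2_neg]
  exact h1 T hT

theorem NN.sub {x y : ℕ → R} (hx : NN S x) (hy : NN S y) : NN S (x - y) := by
  rw [sub_eq_add_neg]
  exact hx.add hy.neg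

theorem NN.star {x : ℕ → R} (hx : NN S x) : NN S (star x) := by
  intro ε hε
  filter_upwards [hx ε hε] with n h1 T hT
  rw [Pi.star_apply, N2_star]
  exact h1 T hT

theorem NN.mul_left {x : ℕ → R} (hx : NN S x) {a : ℕ → R} (ha : Bd a) : NN S (a * x) := by
  obtain ⟨C, hC, hCa⟩ := ha
  intro ε hε
  filter_upwards [hx (ε / (C ^ 2 + 1)) (by positivity)] with n h1 T hT
  rw [Pi.mul_apply]
  refine (N2_mul_left T (a n) (x n)).trans ?_
  have h2 := h1 T hT
  have h3 : ‖a n‖ ^ 2 ≤ C ^ 2 := pow_le_pow_left₀ (norm_nonneg _) (hCa n) 2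
  have h4 : ‖a n‖ ^ 2 * N2 T (x n) ≤ C ^ 2 * (ε / (C ^ 2 + 1)) :=
    mul_le_mul h3 h2 (N2_nonneg _ _) (by positivity)
  refine h4.trans ?_
  have h5 : C ^ 2 * (ε / (C ^ 2 + 1)) = ε * (C ^ 2 / (C ^ 2 + 1)) := by ring
  rw [h5]
  have h6 : C ^ 2 / (C ^ 2 + 1) ≤ 1 := by
    rw [div_le_one (by positivity)]
    linarith
  nlinarith

theorem Bd.star {a : ℕ → R} (ha : Bd a) : Bd (star a) := by
  obtain ⟨C, hC, h⟩ := ha
  exact ⟨C, hC, fun n => by rw [Pi.star_apply, norm_star]; exact h n⟩

theorem Bd.mul {a b : ℕ → R} (ha : Bd a) (hb : Bd b) : Bd (a * b) := by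
  obtain ⟨C, hC, h⟩ := ha
  obtain ⟨C', hC', h'⟩ := hb
  exact ⟨C * C', by positivity, fun n => by
    rw [Pi.mul_apply]
    exact (norm_mul_le _ _).trans (mul_le_mul (h n) (h' n) (norm_nonneg _) hC)⟩

theorem Bd.add {a b : ℕ → R} (ha : Bd a) (hb : Bd b) : Bd (a + b) := by
  obtain ⟨C, hC, h⟩ := ha
  obtain ⟨C', hC', h'⟩ := hb
  exact ⟨C + C', by positivity, fun n => by
    rw [Pi.add_apply]
    exact (norm_add_le _ _).trans (add_le_add (h n) (h' n))⟩

theorem Bd.const (a : R) : Bd (Function.const ℕ a) := ⟨‖a‖, norm_nonneg _, fun _ => le_rfl⟩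

theorem Bd.zero : Bd (0 : ℕ → R) := ⟨0, le_rfl, fun n => by simp⟩

theorem Bd.one : Bd (1 : ℕ → R) := ⟨‖(1 : R)‖, norm_nonneg _, fun _ => le_rfl⟩

theorem Bd.sum {ι : Type v} (s : Finset ι) {a : ι → ℕ → R} (h : ∀ i, Bd (a i)) :
    Bd (∑ i ∈ s, a i) := by
  classical
  induction s using Finset.induction_on with
  | empty => exact Bd.zero
  | insert b t hb ih => rw [Finset.sum_insert hb]; exact (h b).add ih

theorem NN.mul_right {x : ℕ → R} (hx : NN S x) {a : ℕ → R} (ha : Bd a) : NN S (x * a) := by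
  have h1 := (hx.star.mul_left ha.star).star
  rwa [star_mul, star_star, star_star] at h1

theorem NN.sum {ι : Type v} (s : Finset ι) {a : ι → ℕ → R} (h : ∀ i ∈ s, NN S (a i)) :
    NN S (∑ i ∈ s, a i) := by
  classical
  induction s using Finset.induction_on with
  | empty => exact NN.zero
  | insert b t hb ih =>
    rw [Finset.sum_insert hb]
    exact (h b (Finset.mem_insert_self _ _)).add (ih fun i hi => h i (Finset.mem_insert_of_mem hi))

/-- asymptotic equality -/
def Eqv (S : Set (Tr R)) (a b : ℕ → R) : Prop := NN S (a - b)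

theorem Eqv.refl (a : ℕ → R) : Eqv S a a := by
  unfold Eqv
  rw [sub_self]
  exact NN.zero

theorem Eqv.of_eq {a b : ℕ → R} (h : a = b) : Eqv S a b := h ▸ Eqv.refl a

theorem Eqv.symm {a b : ℕ → R} (h : Eqv S a b) : Eqv S b a := by
  have := NN.neg h
  rwa [neg_sub] at this

theorem Eqv.trans {a b c : ℕ → R} (h : Eqv S a b) (h' : Eqv S b c) : Eqv S a c := by
  have := NN.add h h'
  rwa [sub_add_sub_cancel] at this

theorem Eqv.add {a b a' b' : ℕ → R} (h : Eqv S a b) (h' : Eqv S a' b') :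
    Eqv S (a + a') (b + b') := by
  have := NN.add h h'
  unfold Eqv
  rwa [add_sub_add_comm]

theorem Eqv.neg {a b : ℕ → R} (h : Eqv S a b) : Eqv S (-a) (-b) := by
  have := NN.neg h
  unfold Eqv
  have e : -a - -b = -(a - b) := by abel
  rwa [e]

theorem Eqv.sub {a b a' b' : ℕ → R} (h : Eqv S a b) (h' : Eqv S a' b') :
    Eqv S (a - a') (b - b') := by
  rw [sub_eq_add_neg, sub_eq_add_neg]
  exact h.add h'.neg

theorem Eqv.mul_left {a b : ℕ → R} (h : Eqv S a b) {c : ℕ → R} (hc : Bd c) :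
    Eqv S (c * a) (c * b) := by
  have := NN.mul_left h hc
  rwa [mul_sub] at this

theorem Eqv.mul_right {a b : ℕ → R} (h : Eqv S a b) {c : ℕ → R} (hc : Bd c) :
    Eqv S (a * c) (b * c) := by
  have := NN.mul_right h hc
  rwa [sub_mul] at this

theorem Eqv.sum {ι : Type v} (s : Finset ι) {a b : ι → ℕ → R} (h : ∀ i ∈ s, Eqv S (a i) (b i)) :
    Eqv S (∑ i ∈ s, a i) (∑ i ∈ s, b i) := by
  unfold Eqv
  rw [← Finset.sum_sub_distrib]
  exact NN.sum s h

theorem Eqv.zero_iff {a : ℕ → R} : Eqv S a 0 ↔ NN S a := by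
  unfold Eqv
  rw [sub_zero]

theorem NN.eqv_zero {a : ℕ → R} (h : NN S a) : Eqv S a 0 := Eqv.zero_iff.mpr h

theorem NN.of_eqv {a b : ℕ → R} (h : Eqv S a b) (h' : NN S b) : NN S a :=
  Eqv.zero_iff.mp (h.trans h'.eqv_zero)

theorem Eqv.re {a b : ℕ → R} (h : Eqv S a b) (K : ℝ) (hK : ∀ T ∈ S, (T.f 1).re ≤ K) (ε : ℝ)
    (hε : 0 < ε) : ∀ᶠ n in atTop, ∀ T ∈ S, |(T.f (a n)).re - (T.f (b n)).re| ≤ ε := by
  filter_upwards [h (ε ^ 2 / (|K| + 1)) (by positivity)] with n h1 T hT
  have h2 := h1 T hT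
  have h3 := re_sq_le T ((a - b) n)
  have h4 : (T.f 1).re * N2 T ((a - b) n) ≤ (|K| + 1) * (ε ^ 2 / (|K| + 1)) := by
    refine mul_le_mul ?_ h2 (N2_nonneg _ _) (by positivity)
    have := hK T hT
    have := le_abs_self K
    linarith
  have h5 : (|K| + 1) * (ε ^ 2 / (|K| + 1)) = ε ^ 2 := by
    field_simp
  rw [h5] at h4
  have h6 := h3.trans h4
  have h7 : (T.f ((a - b) n)).re = (T.f (a n)).re - (T.f (b n)).re := by
    rw [Pi.sub_apply, map_sub, Complex.sub_re]
  rw [h7] at h6
  exact abs_le_of_sq_le_sq h6 hε.le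

end

end Run7.h450

/-!
# Truncation to a contraction
-/

set_option autoImplicit false
set_option linter.unusedSectionVars false

namespace Run7.h450

open Filter Topology
open Pool.Agent.H327R4.Pure

universe u v w

section

variable {R : Type u} [CStarAlgebra R] [PartialOrder R] [StarOrderedRing R]

/-- `1 - 1 / √(max 1 t)` -/
noncomputable def kt (t : ℝ) : ℝ := 1 - (Real.sqrt (max 1 t))⁻¹

theorem kt_cont : Continuous kt := by
  unfold kt
  refine continuous_const.sub (Continuous.inv₀ (by fun_prop) fun t => ?_)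
  exact (Real.sqrt_pos.mpr (lt_of_lt_of_le one_pos (le_max_left _ _))).ne'

theorem kt_zero : kt 0 = 0 := by
  unfold kt
  rw [max_eq_left zero_le_one, Real.sqrt_one, inv_one, sub_self]

theorem kt_sq (t : ℝ) : (1 - kt t) * (1 - kt t) = (max 1 t)⁻¹ := by
  unfold kt
  have h : (0 : ℝ) ≤ max 1 t := zero_le_one.trans (le_max_left _ _)
  rw [sub_sub_cancel, ← mul_inv, Real.mul_self_sqrt h]

theorem kt_q_nonneg (t : ℝ) : 0 ≤ 2 * kt t - kt t * kt t := by
  have h1 := kt_sq t
  have h2 : (max 1 t)⁻¹ ≤ 1 := inv_le_one_of_one_le₀ (le_max_left _ _)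
  nlinarith

theorem kt_q_mul (t : ℝ) : (2 * kt t - kt t * kt t) * t = max (t - 1) 0 := by
  have h1 := kt_sq t
  have h2 : 2 * kt t - kt t * kt t = 1 - (max 1 t)⁻¹ := by linarith
  rw [h2]
  by_cases h : t ≤ 1
  · rw [max_eq_left h, inv_one, sub_self, zero_mul, max_eq_right (by linarith)]
  · push Not at h
    rw [max_eq_right h.le, max_eq_left (by linarith), sub_mul, one_mul,
      inv_mul_cancel₀ (by linarith)]

theorem trunc (z : R) : ∃ w : R, star w * w ≤ 1 ∧ (∀ b, InL b (star z) → InL b (star w)) ∧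
    ∀ (T : Tr R) (s : R), star s = s → s * s ≤ 1 →
      (T.f (s * (star z * z) * s)).re - (T.f (cut 1 (z * star z))).re ≤
        (T.f (s * (star w * w) * s)).re := by
  set h : R := z * star z with hh
  have h0 : 0 ≤ h := mul_star_self_nonneg z
  have hsa : IsSelfAdjoint h := IsSelfAdjoint.of_nonneg h0
  set κ : R := cfcₙ kt h with hκ
  have hκs : star κ = κ := (cfcₙ_predicate kt h : IsSelfAdjoint _).star_eq
  have hκ1 : star (1 - κ) = 1 - κ := one_sub_star hκs
  set w : R := (1 - κ) * z with hw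
  have hc := kt_cont.continuousOn (s := quasispectrum ℝ h)
  have hww : w * star w = cfcₙ (fun t => t - kt t * t - t * kt t + kt t * t * kt t) h := by
    have e : w * star w = h - κ * h - h * κ + κ * h * κ := by
      rw [hw, star_mul, hκ1]
      have : (1 - κ) * z * (star z * (1 - κ)) = (1 - κ) * (z * star z) * (1 - κ) := by
        simp only [mul_assoc]
      rw [this, ← hh]
      noncomm_ring
    rw [e, cfcₙ_add (fun t => t - kt t * t - t * kt t) (fun t => kt t * t * kt t) h
      (by fun_prop) (by simp) (by fun_prop) (by simp),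
      cfcₙ_sub (fun t => t - kt t * t) (fun t => t * kt t) h (by fun_prop) (by simp)
      (by fun_prop) (by simp),
      cfcₙ_sub (fun t : ℝ => t) (fun t => kt t * t) h (by fun_prop) rfl (by fun_prop) (by simp),
      cfcₙ_mul (fun t => kt t * t) kt h (by fun_prop) (by simp) hc kt_zero,
      cfcₙ_mul kt (fun t : ℝ => t) h hc kt_zero (by fun_prop) rfl,
      cfcₙ_mul (fun t : ℝ => t) kt h (by fun_prop) rfl hc kt_zero, cfcₙ_id' ℝ h hsa]
  have hwn : ‖w * star w‖ ≤ 1 := by
    rw [hww]
    refine norm_cfcₙ_le fun t ht => ?_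
    have ht0 : 0 ≤ t := quasispectrum_nonneg_of_nonneg h h0 t ht
    have e : t - kt t * t - t * kt t + kt t * t * kt t = ((1 - kt t) * (1 - kt t)) * t := by ring
    have hm : 0 < max 1 t := lt_of_lt_of_le one_pos (le_max_left _ _)
    rw [e, kt_sq, Real.norm_eq_abs, abs_of_nonneg (by positivity), inv_mul_le_iff₀ hm, mul_one]
    exact le_max_right _ _
  have hwn' : ‖star w * w‖ ≤ 1 := by
    rw [CStarRing.norm_star_mul_self, ← CStarRing.norm_self_mul_star]
    exact hwn
  refine ⟨w, (CStarAlgebra.norm_le_one_iff_of_nonneg _ (star_mul_self_nonneg w)).mp hwn', ?_, ?_⟩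
  · intro b hb
    have e : star w = star z - star z * κ := by
      rw [hw, star_mul, hκ1, mul_sub, mul_one]
    rw [e]
    have h1 : InL b h := hb.mul_left z
    have h2 : InL b κ := h1.trans (InL.cfcn hsa _)
    exact hb.sub (h2.mul_left _)
  · intro T s hs hs1
    set Q : R := cfcₙ (fun t => 2 * kt t - kt t * kt t) h with hQ
    have hQ0 : 0 ≤ Q := cfcₙ_nonneg fun t _ => kt_q_nonneg t
    have hQe : Q = 1 - (1 - κ) * (1 - κ) := by
      rw [hQ, cfcₙ_sub (fun t => 2 * kt t) (fun t => kt t * kt t) h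
        (continuousOn_const.mul hc) (by simp [kt_zero]) (hc.mul hc) (by simp [kt_zero]),
        cfcₙ_const_mul (2 : ℝ) kt h hc kt_zero, cfcₙ_mul kt kt h hc kt_zero hc kt_zero, ← hκ,
        two_smul]
      noncomm_ring
    have hQh : Q * h = cut 1 h := by
      have e1 : Q * h = cfcₙ (fun t => (2 * kt t - kt t * kt t) * t) h := by
        rw [cfcₙ_mul (fun t => 2 * kt t - kt t * kt t) (fun t : ℝ => t) h
          ((continuousOn_const.mul hc).sub (hc.mul hc)) (by simp [kt_zero]) (by fun_prop) rfl,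
          cfcₙ_id' ℝ h hsa]
      rw [e1]
      unfold cut
      congr 1
      funext t
      exact kt_q_mul t
    have e1 : s * (star w * w) * s = s * (star z * z) * s - s * (star z * Q * z) * s := by
      rw [hQe, hw, star_mul, hκ1]
      noncomm_ring
    have e2 : T.f (s * (star z * Q * z) * s) = T.f (Q * (z * (s * s) * star z)) := by
      have a1 : s * (star z * Q * z) * s = (s * star z) * (Q * (z * s)) := by
        simp only [mul_assoc]
      rw [a1, T.tr]
      congr 1
      simp only [mul_assoc]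
    have e3 : z * (s * s) * star z ≤ h := by
      have := star_right_conjugate_le_conjugate hs1 z
      rwa [mul_one] at this
    have e4 := re_mul_le T hQ0 e3
    rw [hQh] at e4
    rw [e1, map_sub, Complex.sub_re, e2]
    linarith

theorem N2_cut_le (T : Tr R) {h h' s : R} (h0 : 0 ≤ h) (hs : h' ≤ s) :
    N2 T (cut 1 h) ≤ N2 T ((h - h') + (s - 1)) := by
  set d : R := cut 1 h with hd
  have hd0 : 0 ≤ d := cut_nonneg h0 1
  have hds : star d = d := (IsSelfAdjoint.of_nonneg hd0).star_eq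
  have hsa : IsSelfAdjoint h := IsSelfAdjoint.of_nonneg h0
  set u : R := (h - h') + (s - 1) with hu
  have e1 : d * d = d * h - d := by
    have a1 : d * h = cfcₙ (fun t : ℝ => max (t - 1) 0 * t) h := by
      rw [cfcₙ_mul (fun t : ℝ => max (t - 1) 0) (fun t : ℝ => t) h (by fun_prop) (by simp)
        (by fun_prop) rfl, cfcₙ_id' ℝ h hsa]
      rfl
    have a2 : d * d = cfcₙ (fun t : ℝ => max (t - 1) 0 * max (t - 1) 0) h := by
      rw [cfcₙ_mul (fun t : ℝ => max (t - 1) 0) (fun t : ℝ => max (t - 1) 0) h (by fun_prop)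
        (by simp) (by fun_prop) (by simp)]
      rfl
    have a3 : d = cfcₙ (fun t : ℝ => max (t - 1) 0) h := rfl
    conv_rhs => rw [a1, a3]
    rw [a2, ← cfcₙ_sub (fun t : ℝ => max (t - 1) 0 * t) (fun t : ℝ => max (t - 1) 0) h
      (by fun_prop) (by simp) (by fun_prop) (by simp)]
    congr 1
    funext t
    by_cases ht : t ≤ 1
    · rw [max_eq_right (by linarith)]
      ring
    · push Not at ht
      rw [max_eq_left (by linarith)]
      ring
  have e2 : d * d = d * u - d * (s - h') := by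
    rw [e1, hu]
    noncomm_ring
  have h1 := (re_mul_nonneg T hd0 (sub_nonneg.mpr hs)).1
  have h2 : N2 T d ≤ (T.f (d * u)).re := by
    unfold N2
    rw [hds, e2, map_sub, Complex.sub_re]
    linarith
  have h3 := cs T d u
  rw [hds] at h3
  have h4 : (T.f (d * u)).re ≤ ‖T.f (d * u)‖ := (le_abs_self _).trans (Complex.abs_re_le_norm _)
  have h5 : N2 T d ^ 2 ≤ N2 T d * N2 T u := by
    refine le_trans ?_ h3
    exact pow_le_pow_left₀ (N2_nonneg T d) (h2.trans h4) 2
  rcases (N2_nonneg T d).eq_or_lt with h6 | h6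
  · rw [← h6]
    exact N2_nonneg T u
  · rw [pow_two] at h5
    exact le_of_mul_le_mul_left h5 h6

end

end Run7.h450

/-!
# Abstract gluing
-/

set_option autoImplicit false
set_option linter.unusedSectionVars false

namespace Run7.h450

open Filter Topology
open Pool.Agent.H327R4.Pure

universe u v w

section

variable {R : Type u} [CStarAlgebra R] [PartialOrder R] [StarOrderedRing R] {S : Set (Tr R)}

theorem Eqv.star {a b : ℕ → R} (h : Eqv S a b) : Eqv S (star a) (star b) := by
  have := NN.star h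
  rwa [star_sub] at this

theorem Eqv.sum_single {M : ℕ} {t : Fin M → ℕ → R} {t' : ℕ → R} (i : Fin M)
    (h : ∀ l, l ≠ i → NN S (t l)) (h' : Eqv S (t i) t') : Eqv S (∑ l, t l) t' := by
  rw [← Finset.add_sum_erase _ _ (Finset.mem_univ i)]
  have h1 : NN S (∑ l ∈ Finset.univ.erase i, t l) :=
    NN.sum _ fun l hl => h l (Finset.ne_of_mem_erase hl)
  have h2 := h'.add h1.eqv_zero
  rwa [add_zero] at h2

/-- constant sequences -/
abbrev cst (x : R) : ℕ → R := Function.const ℕ x

theorem cst_mul (x y : R) : cst (x * y) = cst x * cst y := rfl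

theorem cst_star (x : R) : star (cst x) = cst (star x) := rfl

theorem star_mul_self_le_one {y : R} (hy : star y * y ≤ 1) : y * star y ≤ 1 := by
  rw [← CStarAlgebra.norm_le_one_iff_of_nonneg _ (mul_star_self_nonneg y),
    CStarRing.norm_self_mul_star, ← CStarRing.norm_star_mul_self]
  exact (CStarAlgebra.norm_le_one_iff_of_nonneg _ (star_mul_self_nonneg y)).mpr hy

/-- abstract gluing -/
theorem glue_abs (K : ℝ) (hK : ∀ T ∈ S, (T.f 1).re ≤ K) {c b : R} (hc0 : 0 ≤ c)
    (hc1 : c ≤ 1) {M : ℕ} (Y : Fin M → R) (hY : ∀ i, star (Y i) * Y i ≤ 1)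
    (hYb : ∀ i, InL b (star (Y i))) (E : Fin M → ℕ → R) (hEs : ∀ i, star (E i) = E i)
    (hEB : ∀ i, Bd (E i)) (hEY : ∀ i l, Eqv S (E i * cst (Y l)) (cst (Y l) * E i))
    (hEc : ∀ i, Eqv S (E i * cst (sq c)) (cst (sq c) * E i))
    (hort : ∀ i l, i ≠ l → NN S (E i * E l)) (hsum : Eqv S (∑ i, E i) 1) (δ : ℝ)
    (hδ : ∀ ε : ℝ, 0 < ε → ∀ᶠ n in atTop, ∀ T ∈ S,
      (T.f (∑ i, E i n * (sq c * (1 - star (Y i) * Y i) * sq c))).re ≤ δ + ε)
    (η : ℝ) (hη : 0 < η) : ∃ w : R, star w * w ≤ 1 ∧ InL b (star w) ∧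
      ∀ T ∈ S, (T.f c).re - (T.f (sq c * (star w * w) * sq c)).re ≤ δ + η := by
  have hB : ∀ x : R, Bd (cst x) := Bd.const
  -- commutation with the adjoints
  have hEYs : ∀ i l, Eqv S (E i * cst (star (Y l))) (cst (star (Y l)) * E i) := by
    intro i l
    have h1 := (hEY i l).symm.star
    rwa [star_mul, star_mul, hEs, cst_star] at h1
  -- `E_i` is asymptotically idempotent
  have hEE : ∀ i, Eqv S (E i * E i) (E i) := by
    intro i
    have h1 : Eqv S (E i * ∑ l, E l) (E i * E i) := by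
      rw [Finset.mul_sum]
      exact Eqv.sum_single i (fun l hl => hort i l (Ne.symm hl)) (Eqv.refl _)
    have h2 := hsum.mul_left (hEB i)
    rw [mul_one] at h2
    exact h1.symm.trans h2
  have hEE1 : Eqv S (∑ i, E i * E i) 1 := (Eqv.sum _ fun i _ => hEE i).trans hsum
  set z : ℕ → R := ∑ i, cst (Y i) * E i with hz
  have hzs : star z = ∑ i, E i * cst (star (Y i)) := by
    rw [hz, star_sum]
    exact Finset.sum_congr rfl fun i _ => by rw [star_mul, hEs, cst_star]
  set H' : ℕ → R := ∑ i, E i * (cst (Y i) * cst (star (Y i))) * E i with hH'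
  have hA : Eqv S (z * star z) H' := by
    rw [hzs, hz, Finset.sum_mul_sum]
    refine Eqv.sum _ fun i _ => Eqv.sum_single i (fun l hl => ?_) ?_
    · have h1 := ((hort i l (Ne.symm hl)).mul_left (hB (Y i))).mul_right (hB (star (Y l)))
      have e : cst (Y i) * E i * (E l * cst (star (Y l))) =
          cst (Y i) * (E i * E l) * cst (star (Y l)) := by noncomm_ring
      rwa [e]
    · have h1 := (hEY i i).symm.mul_right ((hEB i).mul (hB (star (Y i))))
      have h2 := (hEYs i i).mul_left ((hEB i).mul (hB (Y i)))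
      have e : E i * (cst (Y i) * cst (star (Y i))) * E i =
          E i * cst (Y i) * (cst (star (Y i)) * E i) := by noncomm_ring
      rw [e]
      exact h1.trans h2
  have hzz : Eqv S (star z * z) (∑ i, E i * (cst (star (Y i)) * cst (Y i))) := by
    rw [hzs, hz, Finset.sum_mul_sum]
    refine Eqv.sum _ fun i _ => Eqv.sum_single i (fun l hl => ?_) ?_
    · have h1 := ((hort i l (Ne.symm hl)).mul_left (hB (star (Y i)))).mul_right (hB (Y l))
      have h2 := (hEYs i i).mul_right ((hB (Y l)).mul (hEB l))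
      have h3 := (hEY l l).symm.mul_left ((hB (star (Y i))).mul (hEB i))
      refine NN.of_eqv (h2.trans ((Eqv.of_eq (by noncomm_ring)).trans h3)) ?_
      have e : cst (star (Y i)) * E i * (E l * cst (Y l)) =
          cst (star (Y i)) * (E i * E l) * cst (Y l) := by noncomm_ring
      rwa [e]
    · have h1 := (hEY i i).symm.mul_left ((hEB i).mul (hB (star (Y i))))
      have h2 := (hEYs i i).symm.mul_left (hEB i)
      have h3 := h2.mul_right (hB (Y i))
      have h4 := (hEE i).mul_right ((hB (star (Y i))).mul (hB (Y i)))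
      refine h1.trans ((Eqv.of_eq ?_).trans (h3.trans ((Eqv.of_eq ?_).trans h4)))
      · noncomm_ring
      · noncomm_ring
  set X : Fin M → R := fun i => sq c * (1 - star (Y i) * Y i) * sq c with hX
  have hW : ∀ i, cst (sq c) * (cst (star (Y i)) * cst (Y i)) * cst (sq c) =
      cst c - cst (X i) := by
    intro i
    funext n
    show sq c * (star (Y i) * Y i) * sq c = c - sq c * (1 - star (Y i) * Y i) * sq c
    conv_rhs => rw [mul_sub, sub_mul, mul_one, sq_mul_sq hc0]
    rw [sub_sub_cancel]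
  have hP : Eqv S (cst (sq c) * (star z * z) * cst (sq c)) (cst c - ∑ i, E i * cst (X i)) := by
    have h1 := (hzz.mul_left (hB (sq c))).mul_right (hB (sq c))
    refine h1.trans ?_
    rw [Finset.mul_sum, Finset.sum_mul]
    have h2 : Eqv S (∑ i, cst (sq c) * (E i * (cst (star (Y i)) * cst (Y i))) * cst (sq c))
        (∑ i, E i * (cst c - cst (X i))) := by
      refine Eqv.sum _ fun i _ => ?_
      have h3 := (hEc i).symm.mul_right
        (((hB (star (Y i))).mul (hB (Y i))).mul (hB (sq c)))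
      refine (Eqv.of_eq ?_).trans (h3.trans (Eqv.of_eq ?_))
      · noncomm_ring
      · rw [← hW]
        noncomm_ring
    refine h2.trans ?_
    simp only [mul_sub]
    rw [Finset.sum_sub_distrib, ← Finset.sum_mul]
    have h3 := hsum.mul_right (hB c)
    rw [one_mul] at h3
    exact h3.sub (Eqv.refl _)
  -- choose `n`
  have hη3 : 0 < η / 3 := by positivity
  have hR : Eqv S ((z * star z - H') + (∑ i, E i * E i - 1)) 0 := by
    have h1 : Eqv S (z * star z - H') 0 := NN.eqv_zero hA
    have h2 : Eqv S (∑ i, E i * E i - 1) 0 := NN.eqv_zero hEE1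
    have h3 := h1.add h2
    rwa [add_zero] at h3
  have hR' : NN S ((z * star z - H') + (∑ i, E i * E i - 1)) := Eqv.zero_iff.mp hR
  obtain ⟨n, h1, h2, h3⟩ := ((hP.re K hK (η / 3) hη3).and ((hδ (η / 3) hη3).and
    (hR' ((η / 3) ^ 2 / (|K| + 1)) (by positivity)))).exists
  obtain ⟨w, hw1, hw2, hw3⟩ := trunc (z n)
  have hzn : z n = ∑ i, Y i * E i n := by
    rw [hz, Finset.sum_apply]
    rfl
  have hEsn : ∀ i, star (E i n) = E i n := fun i => congrFun (hEs i) n
  have hzsn : star (z n) = ∑ i, E i n * star (Y i) := by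
    rw [hzn, star_sum]
    exact Finset.sum_congr rfl fun i _ => by rw [star_mul, hEsn]
  refine ⟨w, hw1, hw2 b ?_, fun T hT => ?_⟩
  · rw [hzsn]
    exact InL.sum _ fun i => (hYb i).mul_left _
  · have h1 := h1 T hT
    have h2 := h2 T hT
    have h3 := h3 T hT
    have h4 := hw3 T (sq c) (sq_star c) (by rw [sq_mul_sq hc0]; exact hc1)
    have hzz0 : 0 ≤ z n * star (z n) := mul_star_self_nonneg _
    have hle : H' n ≤ (∑ i, E i * E i) n := by
      rw [hH', Finset.sum_apply, Finset.sum_apply]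
      refine Finset.sum_le_sum fun i _ => ?_
      have h5 := star_right_conjugate_le_conjugate (star_mul_self_le_one (hY i)) (E i n)
      rw [hEsn, mul_one] at h5
      exact h5
    have h5 := N2_cut_le T hzz0 hle
    have h6 : ((z * star z - H') + (∑ i, E i * E i - 1)) n =
        (z n * star (z n) - H' n) + ((∑ i, E i * E i) n - 1) := rfl
    rw [h6] at h3
    have h7 := re_sq_le T (cut 1 (z n * star (z n)))
    have h8 : (T.f 1).re * N2 T (cut 1 (z n * star (z n))) ≤
        (|K| + 1) * ((η / 3) ^ 2 / (|K| + 1)) := by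
      refine mul_le_mul ?_ (h5.trans h3) (N2_nonneg _ _) (by positivity)
      have := hK T hT
      have := le_abs_self K
      linarith
    have h9 : (|K| + 1) * ((η / 3) ^ 2 / (|K| + 1)) = (η / 3) ^ 2 := by field_simp
    rw [h9] at h8
    have h10 := abs_le_of_sq_le_sq (h7.trans h8) hη3.le
    have h11 := (abs_le.mp h1).1
    have e1 : (cst (sq c) * (star z * z) * cst (sq c)) n = sq c * (star (z n) * z n) * sq c := rfl
    have e2 : (cst c - ∑ i, E i * cst (X i)) n = c - ∑ i, E i n * X i := by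
      rw [Pi.sub_apply, Finset.sum_apply]
      rfl
    rw [e1, e2, map_sub, Complex.sub_re] at h11
    have h12 : (T.f (∑ i, E i n * X i)).re ≤ δ + η / 3 := h2
    have h13 := (abs_le.mp h10).2
    linarith

end

end Run7.h450
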