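import Pool.Agent.Run7.h450.Q6
import Pool.Agent.Run7.h450.Q5

/-!
# Comparison with respect to a single trace, with a margin in all traces
-/

set_option autoImplicit false
set_option linter.unusedSectionVars false

namespace Run7.h450

open Filter Topology
open Pool.Agent.H327R4.Pure

universe u v w

section

variable {D : Type w} [CStarAlgebra D] [PartialOrder D] [StarOrderedRing D]

/-- for each trace there is an element of `b R` which almost recovers `c` -/
theorem local_y (L : ℕ) {c b : Mat L D} (hc0 : 0 ≤ c) (hc1 : c ≤ 1) (hb : 0 ≤ b) (m₀ : ℝ)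
    (hm₀ : 0 < m₀) (hab : ∀ S ∈ SSt L, rk S c + m₀ ≤ rk S b) (T : Tr (Mat L D)) (η : ℝ)
    (hη : 0 < η) : ∃ y : Mat L D, star y * y ≤ 1 ∧ InL b (star y) ∧
      (T.f (c * (1 - star y * y))).re < η := by
  obtain ⟨x, hxc, hxb, hx⟩ := exh2 (fun _ : Unit => T) (SSt L) m₀
    (gain_mat L (fun _ : Unit => T) m₀ hm₀) c b hc0 hb hab (η / 2) (by positivity)
  have h0 : 0 ≤ star x * x := star_mul_self_nonneg x
  obtain ⟨ε₀, hε₀, hεc⟩ := rk_cut_fin (fun _ : Unit => T) h0 (η / 2) (by positivity)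
  set ε : ℝ := ε₀ / 2 with hε
  have hε1 : 0 < ε := by positivity
  obtain ⟨ha1, -, -, -, -, hrk⟩ := cutdown' c x hc0 hxc ε hε1
  obtain ⟨k, hk, hk2⟩ := exists_fun_elt x _ (rf_cont (ε / 2))
    (fun t => le_min zero_le_one (le_max_left _ _)) (ε / 2) (by positivity) (fun t ht => by
      have h2 : (t - ε / 2) / (ε / 2) ≤ 0 :=
        div_nonpos_of_nonpos_of_nonneg (by linarith) (by positivity)
      rw [max_eq_left h2, min_eq_right zero_le_one])
  have hk3 : star (x * k) * (x * k) = rf (ε / 2) (star x * x) := hk2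
  refine ⟨x * k, ?_, ?_, ?_⟩
  · rw [hk3]
    exact rf_le_one _ _
  · rw [star_mul, hk]
    exact hxb.mul_left k
  · rw [hk3]
    have h1 := re_mul_le T hc0 (one_sub_rf_le h0 hε1)
    refine lt_of_le_of_lt h1 ?_
    set f : Mat L D := rf ε (star x * x) with hf
    have hfs : star (1 - f) = 1 - f := one_sub_star (rf_star _ _)
    have e1 : (T.f (c * ((1 - f) * (1 - f)))).re = (T.f ((1 - f) * c * (1 - f))).re := by
      rw [mul_assoc, T.tr (1 - f), mul_assoc]
    have h2 : (1 - f) * c * (1 - f) ≤ 1 := by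
      have h3 := star_right_conjugate_le_conjugate hc1 (1 - f)
      rw [hfs, mul_one] at h3
      refine h3.trans ((one_sub_sq_le (rf_nonneg _ _) (rf_le_one _ _)).trans ?_)
      exact sub_le_self _ (rf_nonneg _ _)
    rw [e1]
    refine lt_of_le_of_lt (tr_le_rk T ha1 h2) ?_
    have h3 := hrk T
    have h4 := hεc (2 * ε) (by positivity) (by rw [hε]; linarith) ()
    have h5 := hx ()
    linarith

end

end Run7.h450

/-!
# Gluing over the trace simplex
-/

set_option autoImplicit false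
set_option linter.unusedSectionVars false

namespace Run7.h450

open Filter Topology
open Pool.Agent.H327R4.Pure

universe u v w

section

variable {A : Type u} [CStarAlgebra A] [PartialOrder A] [StarOrderedRing A]

variable (A) in
/-- partition of unity property for the traces on `A` -/
def PU : Prop :=
  ∀ (k : ℕ) (a : Fin k → A) (δ : ℝ), (∀ i, 0 ≤ a i) →
    (∀ T : Tr A, T.f 1 = 1 → ∃ i, (T.f (a i)).re < δ) →
    ∃ (M : ℕ) (φ : Fin M → Fin k) (C : ℝ), ∀ (F : Finset A) (ε : ℝ), 0 < ε →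
      ∃ e : Fin M → A, (∀ i, star (e i) = e i) ∧ (∀ i, ‖e i‖ ≤ C) ∧ ∀ T : Tr A, T.f 1 = 1 →
        (∀ i, ∀ x ∈ F, N2 T (e i * x - x * e i) ≤ ε) ∧
        (∀ i l, i ≠ l → N2 T (e i * e l) ≤ ε) ∧ N2 T (∑ i, e i - 1) ≤ ε ∧
        (T.f (∑ i, e i * a (φ i))).re ≤ δ + ε

/-- scalar matrices, as a homomorphism -/
noncomputable def scalHom (N : ℕ) : A →⋆ₙₐ[ℂ] Mat N A where
  toFun := scal N
  map_smul' c x := by
    ext p q
    show (if p = q then c • x else 0) = c • (if p = q then x else 0)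
    split_ifs
    · rfl
    · rw [smul_zero]
  map_zero' := by
    ext p q
    show (if p = q then (0 : A) else 0) = 0
    split_ifs <;> rfl
  map_add' x y := by
    ext p q
    show (if p = q then x + y else 0) = (if p = q then x else 0) + (if p = q then y else 0)
    split_ifs
    · rfl
    · rw [add_zero]
  map_mul' x y := by
    ext p q
    rw [scal_mul, scal_apply, scal_apply]
    split_ifs
    · rfl
    · rw [mul_zero]
  map_star' x := by
    ext p q
    rw [CStarMatrix.star_apply, scal_apply, scal_apply]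
    by_cases h : p = q
    · rw [if_pos h, if_pos h.symm]
    · rw [if_neg h, if_neg (fun h' => h h'.symm), star_zero]

theorem scalHom_apply (N : ℕ) (x : A) : scalHom N x = scal N x := rfl

theorem scal_norm_le (N : ℕ) (x : A) : ‖scal N x‖ ≤ ‖x‖ :=
  NonUnitalStarAlgHom.norm_apply_le (scalHom N) x

theorem N2_trM (T : Tr A) {N : ℕ} (X : Mat N A) :
    N2 (trM T (Fin N)) X = ∑ p, ∑ q, N2 T (X q p) := by
  unfold N2
  rw [trM_apply, Complex.re_sum]
  refine Finset.sum_congr rfl fun p _ => ?_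
  rw [CStarMatrix.mul_apply, map_sum, Complex.re_sum]
  refine Finset.sum_congr rfl fun q _ => ?_
  rw [CStarMatrix.star_apply]

theorem nn_mat {N : ℕ} {X : ℕ → Mat N A}
    (h : ∀ p q, ∀ ε : ℝ, 0 < ε → ∀ᶠ n in atTop, ∀ T : Tr A, T.f 1 = 1 → N2 T (X n p q) ≤ ε) :
    NN (SSt N) X := by
  intro ε hε
  have h1 : ∀ᶠ n in atTop, ∀ p q, ∀ T : Tr A, T.f 1 = 1 →
      N2 T (X n p q) ≤ ε / (N * N + 1) :=
    eventually_all.mpr fun p => eventually_all.mpr fun q => h p q _ (by positivity)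
  filter_upwards [h1] with n hn T hT
  obtain ⟨T', hT', rfl⟩ := hT
  rw [N2_trM]
  calc ∑ p, ∑ q, N2 T' (X n q p) ≤ ∑ _p : Fin N, ∑ _q : Fin N, ε / (N * N + 1) :=
        Finset.sum_le_sum fun p _ => Finset.sum_le_sum fun q _ => hn q p T' hT'
    _ = ε * ((N * N) / (N * N + 1)) := by
        rw [Finset.sum_const, Finset.sum_const, Finset.card_univ, Fintype.card_fin, nsmul_eq_mul,
          nsmul_eq_mul]
        ring
    _ ≤ ε := by
        have h6 : ((N : ℝ) * N) / (N * N + 1) ≤ 1 := by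
          rw [div_le_one (by positivity)]
          linarith
        nlinarith

theorem trM_one_re (T : Tr A) (hT : T.f 1 = 1) (N : ℕ) : ((trM T (Fin N)).f 1).re = N := by
  rw [trM_apply]
  have h2 : ∀ i : Fin N, (1 : Mat N A) i i = 1 := fun i => by
    rw [CStarMatrix.one_apply, if_pos rfl]
  simp [h2, hT]

theorem ts_continuous (x : A) : Continuous fun T : TS A => (T.1.f x).re := by
  have h1 : Continuous fun (T : TS A) (x : A) => T.1.f x := continuous_induced_dom
  exact Complex.continuous_re.comp ((continuous_apply x).comp h1)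

/-- gluing -/
theorem glue (hPU : PU A) (N : ℕ) {c b : Mat N A} (hc0 : 0 ≤ c) (hc1 : c ≤ 1) (hb : 0 ≤ b)
    (m₀ : ℝ) (hm₀ : 0 < m₀) (hab : ∀ S ∈ SSt N, rk S c + m₀ ≤ rk S b) (η : ℝ) (hη : 0 < η) :
    ∃ w : Mat N A, star w * w ≤ 1 ∧ InL b (star w) ∧ ∀ T ∈ SSt N,
      (T.f c).re - (T.f (sq c * (star w * w) * sq c)).re ≤ η := by
  classical
  have hη2 : 0 < η / 2 := by positivity
  choose y hy1 hy2 hy3 using fun T : TS A =>
    local_y N hc0 hc1 hb m₀ hm₀ hab (trM T.1 (Fin N)) (η / 2) hη2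
  set X : TS A → Mat N A := fun T => sq c * (1 - star (y T) * y T) * sq c with hX
  have hX0 : ∀ T, 0 ≤ X T := fun T => conj_nonneg (sub_nonneg.mpr (hy1 T)) (sq_star c)
  set a : TS A → A := fun T => ∑ p, X T p p with ha
  have ha0 : ∀ T, 0 ≤ a T := fun T => Finset.sum_nonneg fun p _ => entry_nonneg (hX0 T) p
  have htr : ∀ (T' : Tr A) (T : TS A), T'.f (a T) = (trM T' (Fin N)).f (X T) := by
    intro T' T
    rw [trM_apply, ha]
    simp only
    rw [map_sum]
  have haT : ∀ T : TS A, (T.1.f (a T)).re < η / 2 := by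
    intro T
    rw [htr, hX]
    simp only
    have e : (trM T.1 (Fin N)).f (sq c * (1 - star (y T) * y T) * sq c) =
        (trM T.1 (Fin N)).f (c * (1 - star (y T) * y T)) := by
      rw [(trM T.1 (Fin N)).tr, ← mul_assoc, sq_mul_sq hc0]
    rw [e]
    exact hy3 T
  have := cpt' A
  obtain ⟨t, ht⟩ := isCompact_univ.elim_finite_subcover
    (fun T : TS A => {T' : TS A | (T'.1.f (a T)).re < η / 2})
    (fun T => isOpen_lt (ts_continuous (a T)) continuous_const)
    (fun T _ => Set.mem_iUnion.mpr ⟨T, haT T⟩)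
  let σ : Fin t.card ≃ {T // T ∈ t} := t.equivFin.symm
  have hcov : ∀ T : Tr A, T.f 1 = 1 → ∃ i : Fin t.card, (T.f (a (σ i).1)).re < η / 2 := by
    intro T hT
    have h1 := ht (Set.mem_univ (⟨T, hT⟩ : TS A))
    obtain ⟨T', hT'⟩ := Set.mem_iUnion.mp h1
    obtain ⟨hT't, h2⟩ := Set.mem_iUnion.mp hT'
    refine ⟨σ.symm ⟨T', hT't⟩, ?_⟩
    rw [Equiv.apply_symm_apply]
    exact h2
  obtain ⟨M, φ, C, hM⟩ := hPU t.card (fun i => a (σ i).1) (η / 2) (fun i => ha0 _) hcov
  let F : Finset A := (Finset.univ.image fun z : Fin t.card × Fin N × Fin N =>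
    y (σ z.1).1 z.2.1 z.2.2) ∪ (Finset.univ.image fun z : Fin N × Fin N => sq c z.1 z.2)
  choose e he1 he2 he3 using fun n : ℕ => hM F (1 / ((n : ℝ) + 1)) (by positivity)
  have hsmall : ∀ ε : ℝ, 0 < ε → ∀ᶠ n : ℕ in atTop, 1 / ((n : ℝ) + 1) ≤ ε := fun ε hε =>
    (tendsto_one_div_add_atTop_nhds_zero_nat (𝕜 := ℝ)).eventually (ge_mem_nhds hε)
  set Y : Fin M → Mat N A := fun i => y (σ (φ i)).1 with hY
  set E : Fin M → ℕ → Mat N A := fun i n => scal N (e n i) with hE
  have hcomm : ∀ (i : Fin M) (Z : Mat N A), (∀ p q, Z p q ∈ F) →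
      Eqv (SSt N) (E i * cst Z) (cst Z * E i) := by
    intro i Z hZ
    refine nn_mat fun p q ε hε => ?_
    filter_upwards [hsmall ε hε] with n hn T hT
    have e1 : (E i * cst Z - cst Z * E i) n p q = e n i * Z p q - Z p q * e n i := by
      show (scal N (e n i) * Z - Z * scal N (e n i)) p q = _
      rw [CStarMatrix.sub_apply, scal_mul, mul_scal]
    rw [e1]
    exact ((he3 n T hT).1 i _ (hZ p q)).trans hn
  obtain ⟨w, hw1, hw2, hw3⟩ := glue_abs (S := SSt N) (N : ℝ) (by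
      rintro _ ⟨T, hT, rfl⟩
      exact (trM_one_re T hT N).le) hc0 hc1 Y (fun i => hy1 _) (b := b) (fun i => hy2 _) E
    (fun i => by
      funext n
      show star (scal N (e n i)) = scal N (e n i)
      rw [← scalHom_apply, ← map_star, he1])
    (fun i => ⟨|C|, abs_nonneg C, fun n => (scal_norm_le N _).trans
      ((he2 n i).trans (le_abs_self C))⟩)
    (fun i l => hcomm i _ fun p q => Finset.mem_union_left _ (Finset.mem_image.mpr
      ⟨(φ l, p, q), Finset.mem_univ _, rfl⟩))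
    (fun i => hcomm i _ fun p q => Finset.mem_union_right _ (Finset.mem_image.mpr
      ⟨(p, q), Finset.mem_univ _, rfl⟩))
    (fun i l hil => by
      refine nn_mat fun p q ε hε => ?_
      filter_upwards [hsmall ε hε] with n hn T hT
      have e1 : (E i * E l) n p q = if p = q then e n i * e n l else 0 := by
        show (scal N (e n i) * scal N (e n l)) p q = _
        rw [scal_mul, scal_apply]
        split_ifs
        · rfl
        · rw [mul_zero]
      rw [e1]
      split_ifs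
      · exact ((he3 n T hT).2.1 i l hil).trans hn
      · rw [N2_zero]
        exact hε.le)
    (by
      refine nn_mat fun p q ε hε => ?_
      filter_upwards [hsmall ε hε] with n hn T hT
      have e0 : (∑ i, E i - 1) n = scal N (∑ i, e n i) - 1 := by
        rw [Pi.sub_apply, Finset.sum_apply, Pi.one_apply]
        congr 1
        rw [← scalHom_apply, map_sum]
        rfl
      have e1 : (∑ i, E i - 1) n p q = if p = q then ∑ i, e n i - 1 else 0 := by
        rw [e0, CStarMatrix.sub_apply, scal_apply, CStarMatrix.one_apply]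
        split_ifs
        · rfl
        · rw [sub_zero]
      rw [e1]
      split_ifs
      · exact (he3 n T hT).2.2.1.trans hn
      · rw [N2_zero]
        exact hε.le) (η / 2) (fun ε hε => by
      filter_upwards [hsmall ε hε] with n hn T hT
      obtain ⟨T', hT', rfl⟩ := hT
      have h1 := (he3 n T' hT').2.2.2
      have e1 : (trM T' (Fin N)).f (∑ i, E i n * (sq c * (1 - star (Y i) * Y i) * sq c)) =
          T'.f (∑ i, e n i * a (σ (φ i)).1) := by
        rw [map_sum, map_sum]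
        refine Finset.sum_congr rfl fun i _ => ?_
        rw [trM_apply, ha]
        simp only
        rw [Finset.mul_sum, map_sum]
        refine Finset.sum_congr rfl fun p _ => ?_
        show T'.f ((scal N (e n i) * X (σ (φ i)).1) p p) = _
        rw [scal_mul]
      rw [e1]
      exact h1.trans (by linarith)) (η / 2) hη2
  refine ⟨w, hw1, hw2, fun T hT => ?_⟩
  have := hw3 T hT
  linarith

end

end Run7.h450

/-!
# The key lemma and the assembly for general trace simplices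
-/

set_option autoImplicit false
set_option linter.unusedSectionVars false

namespace Run7.h450

open Filter Topology
open Pool.Agent.H327R4.Pure

universe u v w

section

variable {R : Type u} [CStarAlgebra R] [PartialOrder R] [StarOrderedRing R]

/-- uniform comparison up to small trace -/
def UC (S : Set (Tr R)) : Prop :=
  ∀ a b : R, 0 ≤ a → 0 ≤ b → ∀ m₀ : ℝ, 0 < m₀ → (∀ T ∈ S, rk T a + m₀ ≤ rk T b) →
    ∀ η : ℝ, 0 < η → ∃ x : R, InL a x ∧ InL b (star x) ∧ star x * x ≤ a ∧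
      ∀ T ∈ S, (T.f a).re - (T.f (star x * x)).re ≤ η

theorem rsmul_mono' (c : ℝ) (hc : 0 ≤ c) {x y : R} (h : x ≤ y) : c • x ≤ c • y :=
  smul_le_smul_of_nonneg_left h hc

theorem uc_of {S : Set (Tr R)} (h : ∀ c b : R, 0 ≤ c → c ≤ 1 → 0 ≤ b → ∀ m₀ : ℝ, 0 < m₀ →
    (∀ T ∈ S, rk T c + m₀ ≤ rk T b) → ∀ η : ℝ, 0 < η → ∃ w : R, star w * w ≤ 1 ∧
      InL b (star w) ∧ ∀ T ∈ S, (T.f c).re - (T.f (sq c * (star w * w) * sq c)).re ≤ η) :
    UC S := by
  intro a b ha hb m₀ hm₀ hab η hη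
  set s : ℝ := ‖a‖ + 1 with hs
  have hs0 : 0 < s := by positivity
  set c : R := (1 / s) • a with hc
  have hsc : s • c = a := by
    rw [hc, smul_smul, mul_one_div_cancel hs0.ne', one_smul]
  have hc0 : 0 ≤ c := smul_nonneg (by positivity) ha
  have hc1 : c ≤ 1 := by
    have h1 := IsSelfAdjoint.le_algebraMap_norm_self (IsSelfAdjoint.of_nonneg ha)
    rw [Algebra.algebraMap_eq_smul_one] at h1
    have h2 : a ≤ s • (1 : R) :=
      h1.trans (smul_le_smul_of_nonneg_right (by rw [hs]; linarith) zero_le_one)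
    have h3 := rsmul_mono' (1 / s) (by positivity) h2
    rwa [smul_smul, one_div_mul_cancel hs0.ne', one_smul] at h3
  obtain ⟨w, hw1, hw2, hw3⟩ := h c b hc0 hc1 hb m₀ hm₀ (fun T hT => by
    have h1 := rk_smul_le T ha (1 / s) (by positivity)
    have h2 := hab T hT
    linarith) (η / s) (by positivity)
  have hLc : InL a (sq c) := by
    have h1 : InL a c := (InL.self a).rsmul _
    exact h1.trans (InL.sq hc0)
  set x : R := Real.sqrt s • (w * sq c) with hx
  have hxx : star x * x = s • (sq c * (star w * w) * sq c) := by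
    rw [hx, star_smul, smul_mul_smul_comm, star_mul, sq_star]
    simp only [star_trivial]
    rw [Real.mul_self_sqrt hs0.le]
    congr 1
    simp only [mul_assoc]
  refine ⟨x, (hLc.mul_left w).rsmul _, ?_, ?_, fun T hT => ?_⟩
  · rw [hx, star_smul, star_mul, star_trivial]
    exact (hw2.mul_left _).rsmul _
  · rw [hxx]
    have h1 := star_right_conjugate_le_conjugate hw1 (sq c)
    rw [sq_star, mul_one, sq_mul_sq hc0] at h1
    have h2 := rsmul_mono' s hs0.le h1
    rwa [hsc] at h2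
  · rw [hxx, tr_rsmul]
    have h1 := hw3 T hT
    have h2 : (T.f a).re = s * (T.f c).re := by
      rw [← tr_rsmul, hsc]
    rw [h2]
    have h3 := mul_le_mul_of_nonneg_left h1 hs0.le
    have h4 : s * (η / s) = η := by field_simp
    rw [h4, mul_sub] at h3
    exact h3

/-- comparison up to a small element -/
theorem stepg {S : Set (Tr R)} (K : ℝ) (hK : ∀ T ∈ S, (T.f 1).re ≤ K) (hUC : UC S) (a b : R)
    (ha : 0 ≤ a) (hb : 0 ≤ b) (m₀ : ℝ) (hm₀ : 0 < m₀) (hab : ∀ T ∈ S, rk T a + m₀ ≤ rk T b)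
    (η : ℝ) (hη : 0 < η) (κ : ℝ) (hκ : 0 < κ) :
    ∃ (x v p : R) (ε : ℝ), 0 < ε ∧ InL a x ∧ InL b (star x) ∧ star x * x ≤ a ∧ 0 ≤ v ∧ 0 ≤ p ∧
      InL a v ∧ a ≤ (2 : ℝ) • (p + v) + (2 * κ) • (1 : R) ∧ Cz p (cut ε (x * star x)) ∧
      ∀ T ∈ S, rk T v < η := by
  obtain ⟨x, hxa, hxb, hxx, hx⟩ := hUC a b ha hb m₀ hm₀ hab (η * κ / 4) (by positivity)
  set ε : ℝ := η * κ / (8 * (|K| + 1)) with hε
  have hε0 : 0 < ε := by positivity
  obtain ⟨hv0, hp0, hLv, hle, hcz, -⟩ := cutdown' a x ha hxa ε hε0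
  set f : R := rf ε (star x * x) with hf
  set v₀ : R := (1 - f) * a * (1 - f) with hv₀
  refine ⟨x, cut κ v₀, f * a * f, ε, hε0, hxa, hxb, hxx, cut_nonneg hv0 _, hp0,
    hLv.trans (InL.cfcn (IsSelfAdjoint.of_nonneg hv0) _), ?_, cz_trans hcz (cut_swap hε0 x),
    fun T hT => ?_⟩
  · refine hle.trans ?_
    have h1 := le_cut_add hv0 κ hκ.le
    have h2 : (2 : ℝ) • (f * a * f + v₀) ≤ (2 : ℝ) • (f * a * f + (cut κ v₀ + κ • (1 : R))) :=
      rsmul_mono' 2 (by norm_num) (add_le_add le_rfl h1)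
    refine h2.trans (le_of_eq ?_)
    rw [← add_assoc, smul_add (2 : ℝ) (f * a * f + cut κ v₀), smul_smul]
  · refine (rk_cut_le T hv0 κ hκ).trans_lt ?_
    have h1 := tr_left_le T ha hxx ε hε0
    have h2 := hx T hT
    have h3 : (T.f 1).re ≤ |K| + 1 := by
      have := hK T hT
      have := le_abs_self K
      linarith
    have h4 : 2 * ε * (T.f 1).re ≤ 2 * ε * (|K| + 1) := mul_le_mul_of_nonneg_left h3 (by positivity)
    have h5 : 2 * ε * (|K| + 1) = η * κ / 4 := by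
      rw [hε]
      field_simp
      ring
    have h6 : (T.f v₀).re ≤ η * κ / 2 := by
      have : (T.f v₀).re ≤ (T.f a).re - (T.f (star x * x)).re + 2 * ε * (T.f 1).re := h1
      linarith
    rw [div_lt_iff₀ hκ]
    have : 0 < η * κ := by positivity
    linarith

variable {C : Type v} [CStarAlgebra C] [PartialOrder C] [StarOrderedRing C]

/-- the key lemma: a subelement of `t` in `C` which is exactly below `b` in `R` and whose
complement is small -/
theorem keyg {S : Set (Tr R)} (K : ℝ) (hK : ∀ T ∈ S, (T.f 1).re ≤ K) (hUC : UC S)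
    (ψ : C →⋆ₙₐ[ℂ] R) (F : R → C) (κ : ℝ) (hκ : 0 ≤ κ) (hF0 : ∀ v, 0 ≤ v → 0 ≤ F v)
    (hF : ∀ v, 0 ≤ v → InL (ψ 1) v → v ≤ κ • ψ (F v)) (t : C) (ht : 0 ≤ t) (b : R) (hb : 0 ≤ b)
    (m₀ : ℝ) (hm₀ : 0 < m₀) (hab : ∀ T ∈ S, rk T (ψ t) + m₀ ≤ rk T b) (η : ℝ) (hη : 0 < η)
    (δ : ℝ) (hδ : 0 < δ) :
    ∃ (t1 : C) (v w b1 : R), 0 ≤ t1 ∧ 0 ≤ v ∧ 0 ≤ w ∧ 0 ≤ b1 ∧ InL b w ∧ InL b b1 ∧
      b1 * w = 0 ∧ Cz (ψ t1) w ∧ (∀ T ∈ S, rk T v < η) ∧ InL (ψ 1) v ∧
      (∀ T ∈ S, rk T b ≤ rk T (ψ t) + rk T b1) ∧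
      ∀ S' : Tr C, rk S' (cut δ t) ≤ rk S' (F v) + rk S' t1 := by
  have hom := hom' C R ψ
  have hψt : 0 ≤ ψ t := (hom t ht).1
  set κ' : ℝ := δ / 8 with hκ'
  have hκ'0 : 0 < κ' := by positivity
  obtain ⟨x, v, p, ε, hεpos, hxa, hxb, hxx, hv, hp, hLv, hle, hcz, hrv⟩ :=
    stepg K hK hUC (ψ t) b hψt hb m₀ hm₀ hab η hη κ' hκ'0
  have h0 : 0 ≤ star x * x := star_mul_self_nonneg x
  have h0' : 0 ≤ x * star x := mul_star_self_nonneg x
  obtain ⟨b1, p', hb1, hp', hLb1, -, -, -, hrkb, horth⟩ :=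
    cutdown b (star x) hb hxb (ε / 2) (by positivity)
  rw [star_star] at hrkb horth
  set w : R := cut ε (x * star x) with hw
  have hLψ : InL (ψ 1) (ψ t) := by
    have := (InL.self (ψ (1 : C))).mul_left (ψ t)
    rwa [← map_mul, mul_one] at this
  set y : C := F v with hy
  have hy0 : 0 ≤ y := hF0 v hv
  have hvy : v ≤ κ • ψ y := hF v hv (hLψ.trans hLv)
  set μ : ℝ := δ / (8 * (κ + 1)) with hμ
  have hμ0 : 0 < μ := by positivity
  have hκμ : 8 * (κ * μ) ≤ δ := by
    have : 8 * (κ * μ) = δ * (κ / (κ + 1)) := by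
      rw [hμ]
      field_simp
    rw [this]
    have h1 : κ / (κ + 1) ≤ 1 := by
      rw [div_le_one (by positivity)]
      linarith
    nlinarith
  set g : C := phi μ y with hg
  have hgp := (ct' C y hy0).2.2.2.2.2.2.2.1 μ hμ0
  have hg0 : 0 ≤ g := hgp.1
  have hg1 : g ≤ 1 := (CStarAlgebra.norm_le_one_iff_of_nonneg _ hg0).mp hgp.2.1
  have hgs : star g = g := (IsSelfAdjoint.of_nonneg hg0).star_eq
  set tw : C := (1 - g) * t * (1 - g) with htw
  have htw0 : 0 ≤ tw := conj_nonneg ht (one_sub_star hgs)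
  set t1 : C := cut (2 * (κ * μ) + 2 * κ') tw with ht1
  have ht10 : 0 ≤ t1 := cut_nonneg htw0 _
  have hψg : star (1 - ψ g) = 1 - ψ g := one_sub_star (by rw [← map_star, hgs])
  have hψg0 : 0 ≤ ψ g := (hom g hg0).1
  have hψ1 : ψ 1 ≤ 1 := (proj_facts ψ).2.1
  have hψg1 : ψ g ≤ 1 := by
    have h1 : 0 ≤ ψ (1 - g) := (hom _ (sub_nonneg.mpr hg1)).1
    rw [map_sub] at h1
    exact (sub_nonneg.mp h1).trans hψ1
  have hsq1 : (1 - ψ g) * (1 - ψ g) ≤ 1 :=
    (one_sub_sq_le hψg0 hψg1).trans (sub_le_self _ hψg0)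
  have hψtw : ψ tw = (1 - ψ g) * ψ t * (1 - ψ g) := by
    have e1 : tw = t - g * t - t * g + g * t * g := by rw [htw]; noncomm_ring
    have e2 : (1 - ψ g) * ψ t * (1 - ψ g) = ψ t - ψ g * ψ t - ψ t * ψ g + ψ g * ψ t * ψ g := by
      noncomm_ring
    rw [e1, e2]
    simp only [map_add, map_sub, map_mul]
  have hψy : (1 - ψ g) * ψ y * (1 - ψ g) ≤ μ • (1 : R) := by
    have e1 : (1 - ψ g) * ψ y * (1 - ψ g) = ψ ((1 - g) * y * (1 - g)) := by
      have e1 : (1 - g) * y * (1 - g) = y - g * y - y * g + g * y * g := by noncomm_ring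
      have e2 : (1 - ψ g) * ψ y * (1 - ψ g) = ψ y - ψ g * ψ y - ψ y * ψ g + ψ g * ψ y * ψ g := by
        noncomm_ring
      rw [e1, e2]
      simp only [map_add, map_sub, map_mul]
    rw [e1]
    have h1 : 0 ≤ (1 - g) * y * (1 - g) := conj_nonneg hy0 (one_sub_star hgs)
    have h2 := (hom _ h1).1
    have h3 := IsSelfAdjoint.le_algebraMap_norm_self (IsSelfAdjoint.of_nonneg h2)
    rw [Algebra.algebraMap_eq_smul_one] at h3
    refine h3.trans (smul_le_smul_of_nonneg_right ?_ zero_le_one)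
    exact (NonUnitalStarAlgHom.norm_apply_le ψ _).trans (phi_kill hy0 μ hμ0)
  have hczt1 : Cz (ψ t1) w := by
    have h1 : ψ tw ≤ (2 : ℝ) • ((1 - ψ g) * p * (1 - ψ g)) +
        (2 * (κ * μ) + 2 * κ') • (1 : R) := by
      rw [hψtw]
      have h2 := star_right_conjugate_le_conjugate hle (1 - ψ g)
      rw [hψg] at h2
      refine h2.trans ?_
      have e1 : (1 - ψ g) * ((2 : ℝ) • (p + v) + (2 * κ') • (1 : R)) * (1 - ψ g) =
          (2 : ℝ) • ((1 - ψ g) * p * (1 - ψ g)) + ((2 : ℝ) • ((1 - ψ g) * v * (1 - ψ g)) +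
            (2 * κ') • ((1 - ψ g) * (1 - ψ g))) := by
        rw [mul_add, add_mul, mul_smul_comm, smul_mul_assoc, mul_add, add_mul, smul_add,
          mul_smul_comm, smul_mul_assoc, mul_one, add_assoc]
      rw [e1]
      refine add_le_add le_rfl ?_
      rw [add_smul]
      refine add_le_add ?_ (rsmul_mono' _ (by positivity) hsq1)
      have h3 := star_right_conjugate_le_conjugate hvy (1 - ψ g)
      rw [hψg, mul_smul_comm, smul_mul_assoc] at h3
      have h4 : κ • ((1 - ψ g) * ψ y * (1 - ψ g)) ≤ κ • (μ • (1 : R)) :=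
        smul_le_smul_of_nonneg_left hψy hκ
      have h5 : (2 : ℝ) • ((1 - ψ g) * v * (1 - ψ g)) ≤ (2 : ℝ) • (κ • (μ • (1 : R))) :=
        smul_le_smul_of_nonneg_left (h3.trans h4) (by norm_num)
      refine h5.trans (le_of_eq ?_)
      rw [smul_smul, smul_smul, mul_assoc]
    have hP : 0 ≤ (1 - ψ g) * p * (1 - ψ g) := conj_nonneg hp hψg
    have h2 := cz_cut_of_le (hom tw htw0).1 (smul_nonneg (by norm_num) hP)
      (2 * (κ * μ) + 2 * κ') (by positivity) h1
    rw [ht1, (hom tw htw0).2.1 _ (by positivity)]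
    refine cz_trans h2 (cz_trans (cz_smul 2 (by norm_num)) (cz_trans ?_ hcz))
    have := cz_conj (1 - ψ g) p
    rwa [hψg] at this
  refine ⟨t1, v, w, b1, ht10, hv, cut_nonneg h0' _, hb1, ?_, hLb1, ?_, hczt1, hrv, hLψ.trans hLv,
    ?_, ?_⟩
  · exact (hxb.mul_left x).trans (InL.cfcn (IsSelfAdjoint.of_nonneg h0') _)
  · exact horth (fun s : ℝ => max (s - ε) 0) (by fun_prop) (fun s hs => max_eq_right (by linarith))
  · intro T hT
    have h1 := hrkb T
    rw [← rk_swap] at h1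
    have h2 : rk T (star x * x) ≤ rk T (ψ t) := rk_mono T h0 hxx
    linarith
  · intro S'
    have h1 : t ≤ (2 : ℝ) • (g * t * g + t1) + δ • (1 : C) := by
      refine (split_le ht hgs).trans ?_
      have h2 := le_cut_add htw0 (2 * (κ * μ) + 2 * κ') (by positivity)
      have h3 : (2 : ℝ) • (g * t * g + (1 - g) * t * (1 - g)) ≤
          (2 : ℝ) • (g * t * g + (t1 + (2 * (κ * μ) + 2 * κ') • (1 : C))) :=
        smul_le_smul_of_nonneg_left (add_le_add le_rfl h2) (by norm_num)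
      refine h3.trans ?_
      rw [← add_assoc, smul_add (2 : ℝ) (g * t * g + t1)]
      refine add_le_add le_rfl ?_
      rw [smul_smul]
      exact smul_le_smul_of_nonneg_right (by linarith) zero_le_one
    have hgt : 0 ≤ g * t * g := conj_nonneg ht hgs
    have h2 := cz_cut_of_le ht (smul_nonneg (by norm_num) (add_nonneg hgt ht10)) δ hδ.le h1
    have h3 := rk_cz S' (cut_nonneg ht δ) (smul_nonneg (by norm_num) (add_nonneg hgt ht10)) h2
    refine h3.trans ((rk_smul_le S' (add_nonneg hgt ht10) 2 (by norm_num)).trans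
      ((rk_add_le S' hgt ht10).trans ?_))
    have h4 : InL y (g * t * g) := (InL.cfcn (IsSelfAdjoint.of_nonneg hy0) _).mul_left _
    have h5 := rk_cz S' hgt hy0 (InL.cz hy0 hgt h4)
    linarith

/-- the assembly: comparison in `R` from comparison of small elements -/
theorem assembleg {S : Set (Tr R)} (K : ℝ) (hK : ∀ T ∈ S, (T.f 1).re ≤ K) (hUC : UC S)
    (ψ : C →⋆ₙₐ[ℂ] R) (F : R → C) (κ : ℝ) (hκ : 0 ≤ κ) (hF0 : ∀ v, 0 ≤ v → 0 ≤ F v)
    (hF : ∀ v, 0 ≤ v → InL (ψ 1) v → v ≤ κ • ψ (F v)) (SS : Set (Tr C)) (K' : ℝ) (hK' : 0 ≤ K')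
    (hFK : ∀ v, 0 ≤ v → ∀ η : ℝ, 0 < η → (∀ T ∈ S, rk T v < η) → ∀ S' ∈ SS,
      rk S' (F v) ≤ K' * η)
    (a b : R) (ha : 0 ≤ a) (hb : 0 ≤ b) (t : C) (ht : 0 ≤ t) (m₀ : ℝ) (hm₀ : 0 < m₀)
    (hab : ∀ T ∈ S, rk T a + rk T (ψ t) + m₀ ≤ rk T b) (r ε δ : ℝ) (hε : 0 < ε) (hδ : 0 < δ)
    (htδ : ∀ S' ∈ SS, r + 2 * ε ≤ rk S' (cut δ t))
    (hcomp : ∀ t1 : C, 0 ≤ t1 → (∀ S' ∈ SS, r + ε ≤ rk S' t1) → ∀ s : R, 0 ≤ s →
      (∀ T ∈ S, rk T s < ε) → Cz s (ψ t1)) : Cz a b := by
  have hom := hom' C R ψ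
  have hψt : 0 ≤ ψ t := (hom t ht).1
  obtain ⟨t1, v, w, b1, ht1, hv, hw, hb1, hLw, hLb1, horth, hczt, hrv, hLv, hrb, hS⟩ :=
    keyg K hK hUC ψ F κ hκ hF0 hF t ht b hb m₀ hm₀
      (fun T hT => by have := hab T hT; have := rk_nonneg T ha; linarith) (ε / (K' + 1))
      (by positivity) δ hδ
  have h1 : ∀ S' ∈ SS, r + ε ≤ rk S' t1 := by
    intro S' hS'
    have h2 := hFK v hv _ (by positivity) hrv S' hS'
    have h3 := hS S'
    have h4 := htδ S' hS'
    have h5 : K' * (ε / (K' + 1)) ≤ ε := by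
      have : K' * (ε / (K' + 1)) = ε * (K' / (K' + 1)) := by ring
      rw [this]
      have h6 : K' / (K' + 1) ≤ 1 := by
        rw [div_le_one (by positivity)]
        linarith
      nlinarith
    linarith
  have h2 := hcomp t1 ht1 h1
  refine clo' R a b ha fun κ₁ hκ₁ => ?_
  obtain ⟨x', v', p', ε', hε', hxa', hxb', hxx', hv', hp', hLv', hle, hcz, hrv'⟩ :=
    stepg K hK hUC a b1 ha hb1 m₀ hm₀ (fun T hT => by
      have := hab T hT
      have := hrb T hT
      linarith) ε hε (κ₁ / 2) (by positivity)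
  have e2 : 2 * (κ₁ / 2) = κ₁ := by ring
  rw [e2] at hle
  set w' : R := cut ε' (x' * star x') with hw'
  have h0' : 0 ≤ x' * star x' := mul_star_self_nonneg x'
  have hw'0 : 0 ≤ w' := cut_nonneg h0' _
  have hLw' : InL b1 w' := (hxb'.mul_left x').trans (InL.cfcn (IsSelfAdjoint.of_nonneg h0') _)
  have h3 : Cz v' w := cz_trans (h2 v' hv' hrv') hczt
  have h4 : w' * w = 0 := hLw'.mul_eq_zero horth
  have h5 : Cz (p' + v') (w' + w) := cz_add hp' hv' hw'0 hw h4 hcz h3
  have h6 : InL b (w' + w) := (hLb1.trans hLw').add hLw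
  have h7 : 0 ≤ (2 : ℝ) • (p' + v') := smul_nonneg (by norm_num) (add_nonneg hp' hv')
  exact cz_trans (cz_cut_of_le ha h7 κ₁ hκ₁.le hle) (cz_trans (cz_smul 2 (by norm_num))
    (cz_trans h5 (InL.cz hb (add_nonneg hw'0 hw) h6)))

end

section

variable {A : Type u} [CStarAlgebra A] [PartialOrder A] [StarOrderedRing A]

theorem uc_mat (hPU : PU A) (N : ℕ) : UC (SSt (D := A) N) :=
  uc_of fun _ _ hc0 hc1 hb m₀ hm₀ hab η hη => glue hPU N hc0 hc1 hb m₀ hm₀ hab η hη

end

end Run7.h450
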