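import Pool.Agent.Run7.h450.Defs3
import Pool.Agent.Run7.h450.Q8

/-!
# Stable rank one passes to matrix algebras
-/

set_option autoImplicit false
set_option linter.unusedSectionVars false

namespace Run7.h450

open Filter Topology
open Pool.Agent.H327R4.Pure

universe u v w

/-- the invertible elements are dense -/
def DU (R : Type u) [CStarAlgebra R] : Prop :=
  ∀ (x : R) (ε : ℝ), 0 < ε → ∃ u : R, IsUnit u ∧ ‖u - x‖ < ε

theorem isUnit_one_add_sq_zero {R : Type u} [Ring R] {n : R} (h : n * n = 0) :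
    IsUnit (1 + n) := by
  refine ⟨⟨1 + n, 1 - n, ?_, ?_⟩, rfl⟩
  · have : (1 + n) * (1 - n) = 1 - n * n := by noncomm_ring
    rw [this, h, sub_zero]
  · have : (1 - n) * (1 + n) = 1 - n * n := by noncomm_ring
    rw [this, h, sub_zero]

/-- the approximation in a corner -/
def CornerDU {R : Type u} [CStarAlgebra R] (p : R) : Prop :=
  ∀ (x : R) (ε : ℝ), 0 < ε → ∃ a b : R, p * a = a ∧ a * p = a ∧ p * b = b ∧ b * p = b ∧
    a * b = p ∧ b * a = p ∧ ‖a - p * x * p‖ < ε

theorem du_of_corners {R : Type u} [CStarAlgebra R] (p q : R) (hpq : p + q = 1) (hp : p * q = 0)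
    (hq : q * p = 0) (h1 : CornerDU p) (h2 : CornerDU q) : DU R := by
  intro x ε hε
  obtain ⟨a, b, pa, ap, pb, bp, ab, ba, hax⟩ := h1 x (ε / 2) (by positivity)
  set σ : R := q * x * q - q * x * b * x * q with hσ
  obtain ⟨d, e, qd, dq, qe, eq, de, ed, hdx⟩ := h2 σ (ε / 2) (by positivity)
  have hqq : q * q = q := by
    have : (p + q) * q = q := by rw [hpq, one_mul]
    rwa [add_mul, hp, zero_add] at this
  have hpp : p * p = p := by
    have : (p + q) * p = p := by rw [hpq, one_mul]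
    rwa [add_mul, hq, add_zero] at this
  have bq : b * q = 0 := by rw [← bp, mul_assoc, hp, mul_zero]
  have qb : q * b = 0 := by rw [← pb, ← mul_assoc, hq, zero_mul]
  have ae : a * e = 0 := by rw [← ap, ← qe, mul_assoc a, ← mul_assoc p, hp, zero_mul, mul_zero]
  have db : d * b = 0 := by rw [← dq, ← pb, mul_assoc d, ← mul_assoc q, hq, zero_mul, mul_zero]
  have ea : e * a = 0 := by rw [← eq, ← pa, mul_assoc e, ← mul_assoc q, hq, zero_mul, mul_zero]
  have bd : b * d = 0 := by rw [← bp, ← qd, mul_assoc b, ← mul_assoc p, hp, zero_mul, mul_zero]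
  have hqσ : q * σ * q = σ := by
    rw [hσ]
    have e1 : q * (q * x * q - q * x * b * x * q) * q =
        (q * q) * x * (q * q) - (q * q) * x * b * x * (q * q) := by noncomm_ring
    rw [e1, hqq]
  rw [hqσ] at hdx
  have hu1 : IsUnit (1 + q * x * b) := isUnit_one_add_sq_zero (by
    have e1 : q * x * b * (q * x * b) = q * x * (b * q) * x * b := by noncomm_ring
    rw [e1, bq]
    simp)
  have hu3 : IsUnit (1 + b * x * q) := isUnit_one_add_sq_zero (by
    have e1 : b * x * q * (b * x * q) = b * x * (q * b) * x * q := by noncomm_ring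
    rw [e1, qb]
    simp)
  have hu2 : IsUnit (a + d) := by
    refine ⟨⟨a + d, b + e, ?_, ?_⟩, rfl⟩
    · have e1 : (a + d) * (b + e) = a * b + a * e + d * b + d * e := by noncomm_ring
      rw [e1, ab, ae, db, de, add_zero, add_zero, hpq]
    · have e1 : (b + e) * (a + d) = b * a + b * d + e * a + e * d := by noncomm_ring
      rw [e1, ba, bd, ea, ed, add_zero, add_zero, hpq]
  refine ⟨(1 + q * x * b) * (a + d) * (1 + b * x * q), (hu1.mul hu2).mul hu3, ?_⟩
  have hxe : x = p * x * p + p * x * q + q * x * p + q * x * q := by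
    have : x = (p + q) * x * (p + q) := by rw [hpq, one_mul, mul_one]
    conv_lhs => rw [this]
    noncomm_ring
  have e1 : (1 + q * x * b) * (a + d) * (1 + b * x * q) = a + d + (q * x) * (b * a) +
      (q * x) * (b * d) + (a * b) * (x * q) + (d * b) * (x * q) +
      (q * x) * (b * a) * (b * x * q) + (q * x) * (b * d) * (b * x * q) := by noncomm_ring
  have e2 : (1 + q * x * b) * (a + d) * (1 + b * x * q) = a + d + q * x * p + p * x * q +
      q * x * b * x * q := by
    rw [e1, ba, bd, ab, db]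
    have e3 : q * x * p * (b * x * q) = q * x * (p * b) * x * q := by noncomm_ring
    rw [e3, pb]
    noncomm_ring
  have e3 : (1 + q * x * b) * (a + d) * (1 + b * x * q) - x = (a - p * x * p) + (d - σ) := by
    rw [e2, hσ]
    conv_lhs => rw [hxe]
    -- avoid rewriting inside
    have key : ∀ X : R, X = p * X * p + p * X * q + q * X * p + q * X * q := by
      intro X
      have : X = (p + q) * X * (p + q) := by rw [hpq, one_mul, mul_one]
      conv_lhs => rw [this]
      noncomm_ring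
    rw [← key x]
    have k1 := key x
    have : a + d + q * x * p + p * x * q + q * x * b * x * q - x =
        a + d + q * x * p + p * x * q + q * x * b * x * q -
          (p * x * p + p * x * q + q * x * p + q * x * q) := by rw [← k1]
    rw [this]
    noncomm_ring
  rw [e3]
  calc ‖(a - p * x * p) + (d - σ)‖ ≤ ‖a - p * x * p‖ + ‖d - σ‖ := norm_add_le _ _
    _ < ε / 2 + ε / 2 := add_lt_add hax hdx
    _ = ε := by ring

section

variable {A : Type u} [CStarAlgebra A] [PartialOrder A] [StarOrderedRing A]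

theorem corner_hom {R : Type u} [CStarAlgebra R] {C : Type v} [CStarAlgebra C]
    (φ : C →⋆ₙₐ[ℂ] R) (hC : DU C) (χ : R → C) (hχ : ∀ x, φ (χ x) = φ 1 * x * φ 1) :
    CornerDU (φ 1) := by
  intro x ε hε
  obtain ⟨u, hu, hux⟩ := hC (χ x) ε hε
  obtain ⟨U, rfl⟩ := hu
  refine ⟨φ U, φ (↑U⁻¹ : C), ?_, ?_, ?_, ?_, ?_, ?_, ?_⟩
  · rw [← map_mul, one_mul]
  · rw [← map_mul, mul_one]
  · rw [← map_mul, one_mul]
  · rw [← map_mul, mul_one]
  · rw [← map_mul, Units.mul_inv]
  · rw [← map_mul, Units.inv_mul]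
  · rw [← hχ, ← map_sub]
    exact (NonUnitalStarAlgHom.norm_apply_le φ _).trans_lt hux

theorem du_mat (hA : DU A) (N : ℕ) : DU (Mat N A) := by
  induction N with
  | zero =>
    intro x ε hε
    have : x = 1 := by
      ext i
      exact i.elim0
    exact ⟨1, isUnit_one, by rw [this, sub_self, norm_zero]; exact hε⟩
  | succ n ih =>
    have h1 : CornerDU (sgHom (D := A) (0 : Fin (n + 1)) 1) :=
      corner_hom (sgHom (D := A) (0 : Fin (n + 1))) hA (fun x => x 0 0) fun x => by
        show sg 0 0 (x 0 0) = sg 0 0 1 * x * sg 0 0 1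
        rw [sg_conj, one_mul, mul_one]
    have h2 : CornerDU (emb (A := A) (Fin.succ : Fin n → Fin (n + 1)) (Fin.succ_injective n) 1) :=
      corner_hom (emb (A := A) (Fin.succ : Fin n → Fin (n + 1)) (Fin.succ_injective n)) ih
        (fun x => cor Fin.succ x) fun x => emb_cor _ _ x
    have hadd : sgHom (D := A) (0 : Fin (n + 1)) 1 +
        emb (A := A) (Fin.succ : Fin n → Fin (n + 1)) (Fin.succ_injective n) 1 = 1 := by
      ext p q
      have e0 : sgHom (D := A) (0 : Fin (n + 1)) 1 p q = if 0 = p ∧ 0 = q then 1 else 0 :=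
        sg_apply 0 0 1 p q
      rw [CStarMatrix.add_apply, e0, CStarMatrix.one_apply, emb_apply]
      refine Fin.cases ?_ (fun i => ?_) p
      · rw [embf_left]
        · refine Fin.cases ?_ (fun j => ?_) q
          · simp
          · rw [add_zero, if_neg, if_neg]
            · exact (Fin.succ_ne_zero j).symm
            · exact fun h => (Fin.succ_ne_zero j).symm h.2
        · rintro ⟨i, hi⟩
          exact Fin.succ_ne_zero i hi
      · refine Fin.cases ?_ (fun j => ?_) q
        · rw [embf_right]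
          · rw [add_zero, if_neg, if_neg]
            · exact Fin.succ_ne_zero i
            · exact fun h => (Fin.succ_ne_zero i).symm h.1
          · rintro ⟨j, hj⟩
            exact Fin.succ_ne_zero j hj
        · rw [embf_apply (Fin.succ_injective n), if_neg, zero_add, CStarMatrix.one_apply]
          · by_cases h : i = j
            · rw [if_pos h, if_pos (by rw [h])]
            · rw [if_neg h, if_neg (fun h' => h (Fin.succ_injective n h'))]
          · exact fun h => (Fin.succ_ne_zero i).symm h.1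
    have hpp : sgHom (D := A) (0 : Fin (n + 1)) 1 * sgHom (D := A) (0 : Fin (n + 1)) 1 =
        sgHom (D := A) (0 : Fin (n + 1)) 1 := by rw [← map_mul, one_mul]
    have hq : emb (A := A) (Fin.succ : Fin n → Fin (n + 1)) (Fin.succ_injective n) 1 =
        1 - sgHom (D := A) (0 : Fin (n + 1)) 1 := eq_sub_of_add_eq' hadd
    refine du_of_corners _ _ hadd ?_ ?_ h1 h2
    · rw [hq, mul_sub, mul_one, hpp, sub_self]
    · rw [hq, sub_mul, one_mul, hpp, sub_self]

end

end Run7.h450

/-!
# Gluing in C*-algebras of stable rank one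
-/

set_option autoImplicit false
set_option linter.unusedSectionVars false

namespace Run7.h450

open Filter Topology
open Pool.Agent.H327R4.Pure

universe u v w

section

variable {R : Type u} [CStarAlgebra R] [PartialOrder R] [StarOrderedRing R]

theorem two_pinch (x y : R) :
    star (x + y) * (x + y) ≤ (2 : ℝ) • (star x * x + star y * y) := by
  rw [← sub_nonneg]
  have e : (2 : ℝ) • (star x * x + star y * y) - star (x + y) * (x + y) =
      star (x - y) * (x - y) := by
    rw [two_smul, star_add, star_sub]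
    noncomm_ring
  rw [e]
  exact star_mul_self_nonneg _

theorem le_norm_smul {x : R} (hx : IsSelfAdjoint x) : x ≤ ‖x‖ • (1 : R) := by
  have h1 := IsSelfAdjoint.le_algebraMap_norm_self hx
  rwa [Algebra.algebraMap_eq_smul_one] at h1

/-- `k k^*` is bounded below for an invertible element `k` -/
theorem unit_bdd_below (k : Rˣ) : ∃ C : ℝ, 0 ≤ C ∧ (1 : R) ≤ C • ((k : R) * star (k : R)) := by
  set l : R := ((k⁻¹ : Rˣ) : R) with hl
  refine ⟨‖l * star l‖, norm_nonneg _, ?_⟩
  have h1 := le_norm_smul (IsSelfAdjoint.mul_star_self l)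
  have h2 := star_right_conjugate_le_conjugate h1 (k : R)
  have h3 : (k : R) * (l * star l) * star (k : R) = 1 := by
    have e : (k : R) * (l * star l) * star (k : R) = ((k : R) * l) * star ((k : R) * l) := by
      rw [star_mul]
      simp only [mul_assoc]
    rw [e, hl, Units.mul_inv, star_one, mul_one]
  rw [h3, mul_smul_comm, mul_one, smul_mul_assoc] at h2
  exact h2

theorem cut_two_le {h : R} (h0 : 0 ≤ h) {ε : ℝ} (hε : 0 < ε) :
    cut (2 * ε) h ≤ (1 / (2 * ε)) • (rf ε h * h * h * rf ε h) := by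
  have hsa : IsSelfAdjoint h := IsSelfAdjoint.of_nonneg h0
  set f : ℝ → ℝ := fun t => min 1 (max 0 ((t - ε) / ε)) with hf
  have hfc : Continuous f := rf_cont ε
  have hf0 : f 0 = 0 := rf_zero hε
  have e1 : rf ε h * h * h * rf ε h = cfcₙ (fun t => f t * t * t * f t) h := by
    rw [cfcₙ_mul (fun t => f t * t * t) f h (by fun_prop) (by simp) hfc.continuousOn hf0,
      cfcₙ_mul (fun t => f t * t) (fun t : ℝ => t) h (by fun_prop) (by simp) (by fun_prop) rfl,
      cfcₙ_mul f (fun t : ℝ => t) h hfc.continuousOn hf0 (by fun_prop) rfl, cfcₙ_id' ℝ h hsa]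
    rfl
  rw [e1, ← cfcₙ_const_mul (1 / (2 * ε)) (fun t => f t * t * t * f t) h (by fun_prop) (by simp)]
  unfold cut
  refine cfcₙ_mono (fun t ht => ?_) (by fun_prop) (by fun_prop)
    (by simp only [zero_sub]; exact max_eq_right (by linarith)) (by simp)
  have ht0 : 0 ≤ t := quasispectrum_nonneg_of_nonneg h h0 t ht
  by_cases h1 : t ≤ 2 * ε
  · rw [max_eq_right (by linarith)]
    have : 0 ≤ f t := le_min zero_le_one (le_max_left _ _)
    positivity
  · push Not at h1
    have h2 : 1 ≤ (t - ε) / ε := by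
      rw [le_div_iff₀ hε]
      linarith
    have h3 : f t = 1 := by
      simp only [hf]
      rw [max_eq_right (zero_le_one.trans h2), min_eq_left h2]
    rw [max_eq_left (by linarith), h3, one_mul, mul_one, one_div, inv_mul_eq_div,
      le_div_iff₀ (by positivity)]
    nlinarith

/-- gluing two elements, using the density of the invertible elements -/
theorem glue_two (hR : DU R) {b c : R} (hc : 0 ≤ c) (y₁ y₂ : R) (hb1 : InL b (star y₁))
    (hb2 : InL b (star y₂)) (ε₁ ε₂ : ℝ) (hε₁ : 0 < ε₁) (hε₂ : 0 < ε₂) :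
    ∃ y : R, InL b (star y) ∧ Cz (cut ε₁ (star y₁ * y₁ + c)) (star y * y + c) ∧
      Cz (cut ε₂ (star y₂ * y₂ + c)) (star y * y + c) := by
  have hcs : star c = c := (IsSelfAdjoint.of_nonneg hc).star_eq
  set ε : ℝ := ε₁ / 2 with hε
  have hε0 : 0 < ε := by positivity
  have hε2 : 0 < ε / 2 := by positivity
  set h₁ : R := star y₁ * y₁ + c with hh₁
  have h₁0 : 0 ≤ h₁ := add_nonneg (star_mul_self_nonneg _) hc
  have h₁sa : IsSelfAdjoint h₁ := IsSelfAdjoint.of_nonneg h₁0
  set h₂ : R := star y₂ * y₂ + c with hh₂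
  have h₂0 : 0 ≤ h₂ := add_nonneg (star_mul_self_nonneg _) hc
  set g : R := star y₁ * y₂ + c with hg
  set f : ℝ → ℝ := fun t => min 1 (max 0 ((t - ε / 2) / (ε / 2))) with hf
  have hfc : Continuous f := rf_cont (ε / 2)
  have hfz : ∀ t, t ≤ ε / 2 → f t = 0 := fun t ht => by
    have h2 : (t - ε / 2) / (ε / 2) ≤ 0 := div_nonpos_of_nonpos_of_nonneg (by linarith) hε2.le
    simp only [hf]
    rw [max_eq_left h2, min_eq_right zero_le_one]
  set F : ℝ → ℝ := DDAx.kd (ε / 2) f with hF
  have hFc : Continuous F := DDAx.kd_cont hε2 hfc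
  have hF0 : F 0 = 0 := DDAx.kd_zero hε2 hfz
  set s : R := cfcₙ F h₁ * g with hs
  have hhs : h₁ * s = rf (ε / 2) h₁ * g := by
    rw [hs, ← mul_assoc]
    congr 1
    have e1 : h₁ * cfcₙ F h₁ = cfcₙ (fun t => t * F t) h₁ := by
      rw [cfcₙ_mul (fun t : ℝ => t) F h₁ (by fun_prop) rfl hFc.continuousOn hF0,
        cfcₙ_id' ℝ h₁ h₁sa]
    rw [e1]
    unfold rf
    congr 1
    funext t
    rw [mul_comm]
    exact DDAx.kd_mul hε2 hfz t
  -- the invertible element
  set δ : ℝ := min (1 / 2) (ε₂ / (2 * ‖g‖ + ‖h₁‖ + 1)) with hδ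
  have hδ0 : 0 < δ := lt_min (by norm_num) (by positivity)
  obtain ⟨k, ⟨K, rfl⟩, hks⟩ := hR s δ hδ0
  set d : R := (K : R) - s with hd
  have hd1 : ‖d‖ < 1 := hks.trans_le ((min_le_left _ _).trans (by norm_num))
  obtain ⟨V, hV⟩ : ∃ V : Rˣ, (V : R) = 1 + d :=
    ⟨Units.oneSub (-d) (by rwa [norm_neg]), by simp⟩
  set z₁ : R := y₂ + y₁ * d with hz₁
  set Vi : R := ((V⁻¹ : Rˣ) : R) with hVi
  have hViV : Vi * (V : R) = 1 := Units.inv_mul V
  have hVVi : (V : R) * Vi = 1 := Units.mul_inv V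
  set H : R := star z₁ * z₁ + star (V : R) * c * (V : R) with hH
  have hH0 : 0 ≤ H :=
    add_nonneg (star_mul_self_nonneg _) (star_left_conjugate_nonneg hc _)
  have hconj : star (V : R) * (star (z₁ * Vi) * (z₁ * Vi) + c) * (V : R) = H := by
    have e1 : star (V : R) * (star (z₁ * Vi) * (z₁ * Vi) + c) * (V : R) =
        (star (V : R) * star Vi) * (star z₁ * z₁) * (Vi * (V : R)) +
          star (V : R) * c * (V : R) := by
      rw [star_mul]
      noncomm_ring
    have e2 : star (V : R) * star Vi = 1 := by rw [← star_mul, hViV, star_one]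
    rw [e1, e2, hViV, one_mul, mul_one]
  have hczH : Cz H (star (z₁ * Vi) * (z₁ * Vi) + c) := by
    have := cz_conj (star (V : R)) (star (z₁ * Vi) * (z₁ * Vi) + c)
    rwa [star_star, hconj] at this
  refine ⟨z₁ * Vi, ?_, ?_, ?_⟩
  · have e : star (z₁ * Vi) = star Vi * (star y₂ + star d * star y₁) := by
      rw [star_mul, hz₁, star_add, star_mul]
    rw [e]
    exact (hb2.add (hb1.mul_left _)).mul_left _
  · refine cz_trans ?_ hczH
    set e₁ : R := rf ε h₁ with he₁
    have he₁s : star e₁ = e₁ := rf_star _ _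
    have hee : e₁ * rf (ε / 2) h₁ = e₁ := by
      rw [he₁]
      exact rf_mul' hε2 h₁ (fun t => min 1 (max 0 ((t - ε) / ε))) (rf_cont ε) (fun t ht => by
        have h2 : (t - ε) / ε ≤ 0 := div_nonpos_of_nonpos_of_nonneg (by linarith) hε0.le
        rw [max_eq_left h2, min_eq_right zero_le_one])
    set m : R := g + h₁ * d with hm
    have hem : e₁ * m = e₁ * h₁ * (K : R) := by
      rw [hm, hd, mul_sub, hhs]
      have e1 : e₁ * (g + (h₁ * (K : R) - rf (ε / 2) h₁ * g)) =
          e₁ * g + e₁ * h₁ * (K : R) - (e₁ * rf (ε / 2) h₁) * g := by noncomm_ring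
      rw [e1, hee]
      abel
    have hmz : m = star y₁ * z₁ + c * (V : R) := by
      rw [hm, hg, hh₁, hz₁, hV]
      noncomm_ring
    obtain ⟨C, hC0, hC⟩ := unit_bdd_below K
    -- `cut ε₁ h₁ ≾ e₁ h₁ h₁ e₁`
    have hpos1 : 0 ≤ e₁ * h₁ * h₁ * e₁ := by
      have e1 : e₁ * h₁ * h₁ * e₁ = star (h₁ * e₁) * (h₁ * e₁) := by
        rw [star_mul, he₁s, h₁sa.star_eq]
        simp only [mul_assoc]
      rw [e1]
      exact star_mul_self_nonneg _
    have s1 : Cz (cut ε₁ h₁) (e₁ * h₁ * h₁ * e₁) := by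
      have h2 := cut_two_le h₁0 hε0
      have h3 : 2 * ε = ε₁ := by rw [hε]; ring
      rw [h3] at h2
      exact cz_of_le_smul (cut_nonneg h₁0 _) _ (by positivity) h2
    -- `e₁ h₁ h₁ e₁ ≾ e₁ m m^* e₁`
    have s2 : Cz (e₁ * h₁ * h₁ * e₁) (e₁ * (m * star m) * e₁) := by
      refine cz_of_le_smul hpos1 C hC0 ?_
      have h2 := star_right_conjugate_le_conjugate hC (e₁ * h₁)
      have h3 : star (e₁ * h₁) = h₁ * e₁ := by rw [star_mul, he₁s, h₁sa.star_eq]
      rw [h3, mul_one, mul_smul_comm, smul_mul_assoc] at h2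
      have h4 : e₁ * h₁ * ((K : R) * star (K : R)) * (h₁ * e₁) = e₁ * (m * star m) * e₁ := by
        have h5 : e₁ * (m * star m) * e₁ = (e₁ * m) * star (e₁ * m) := by
          rw [star_mul, he₁s]
          simp only [mul_assoc]
        rw [h5, hem, star_mul, star_mul, he₁s, h₁sa.star_eq]
        simp only [mul_assoc]
      rw [h4] at h2
      refine le_trans (le_of_eq ?_) h2
      simp only [mul_assoc]
    have s3 : Cz (e₁ * (m * star m) * e₁) (m * star m) := by
      have := cz_conj e₁ (m * star m)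
      rwa [he₁s] at this
    -- `m^* m ≤ const H`
    have s4 : Cz (star m * m) H := by
      set C₁ : ℝ := ‖y₁ * star y₁‖ + ‖c‖ with hC₁
      have hC₁0 : 0 ≤ C₁ := by positivity
      refine cz_of_le_smul (star_mul_self_nonneg m) (2 * C₁) (by positivity) ?_
      rw [hmz]
      refine (two_pinch (star y₁ * z₁) (c * (V : R))).trans ?_
      rw [← smul_smul]
      refine rsmul_mono' 2 (by norm_num) ?_
      rw [hH, smul_add]
      refine add_le_add ?_ ?_
      · have e1 : star (star y₁ * z₁) * (star y₁ * z₁) = star z₁ * (y₁ * star y₁) * z₁ := by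
          rw [star_mul, star_star]
          simp only [mul_assoc]
        rw [e1]
        have h2 := CStarAlgebra.star_left_conjugate_le_norm_smul (a := z₁) (b := y₁ * star y₁)
          (IsSelfAdjoint.mul_star_self y₁)
        refine h2.trans (smul_le_smul_of_nonneg_right ?_ (star_mul_self_nonneg z₁))
        rw [hC₁]
        linarith [norm_nonneg c]
      · have e1 : star (c * (V : R)) * (c * (V : R)) = star (V : R) * (c * c) * (V : R) := by
          rw [star_mul, hcs]
          simp only [mul_assoc]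
        rw [e1]
        have h2 : c * c ≤ ‖c‖ • c := by
          have h3 := CStarAlgebra.star_left_conjugate_le_norm_smul (a := sq c) (b := c)
            (IsSelfAdjoint.of_nonneg hc)
          rw [sq_star, sq_mul_sq hc] at h3
          refine le_trans (le_of_eq ?_) h3
          calc c * c = (sq c * sq c) * (sq c * sq c) := by rw [sq_mul_sq hc]
            _ = sq c * (sq c * sq c) * sq c := by simp only [mul_assoc]
            _ = sq c * c * sq c := by rw [sq_mul_sq hc]
        have h3 := star_left_conjugate_le_conjugate h2 (V : R)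
        rw [mul_smul_comm, smul_mul_assoc] at h3
        refine h3.trans (smul_le_smul_of_nonneg_right ?_ (star_left_conjugate_nonneg hc _))
        rw [hC₁]
        linarith [norm_nonneg (y₁ * star y₁)]
    exact cz_trans s1 (cz_trans s2 (cz_trans s3 (cz_trans (mul_star_self_cz m) s4)))
  · refine cz_trans ?_ hczH
    have hHh : H - h₂ = star d * g + star g * d + star d * h₁ * d := by
      rw [hH, hh₂, hz₁, hV, hg, hh₁]
      simp only [star_add, star_mul, star_star, star_one, hcs]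
      noncomm_ring
    have hn : ‖h₂ - H‖ ≤ ε₂ := by
      rw [norm_sub_rev, hHh]
      have n1 : ‖star d * g‖ ≤ δ * ‖g‖ := by
        refine (norm_mul_le _ _).trans ?_
        rw [norm_star]
        exact mul_le_mul_of_nonneg_right hks.le (norm_nonneg _)
      have n2 : ‖star g * d‖ ≤ δ * ‖g‖ := by
        refine (norm_mul_le _ _).trans ?_
        rw [norm_star, mul_comm]
        exact mul_le_mul_of_nonneg_right hks.le (norm_nonneg _)
      have n3 : ‖star d * h₁ * d‖ ≤ δ * ‖h₁‖ := by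
        refine (norm_mul_le _ _).trans ?_
        have n4 : ‖star d * h₁‖ ≤ ‖d‖ * ‖h₁‖ := by
          refine (norm_mul_le _ _).trans ?_
          rw [norm_star]
        calc ‖star d * h₁‖ * ‖d‖ ≤ (‖d‖ * ‖h₁‖) * 1 :=
              mul_le_mul n4 hd1.le (norm_nonneg _) (by positivity)
          _ ≤ δ * ‖h₁‖ := by
              rw [mul_one]
              exact mul_le_mul_of_nonneg_right hks.le (norm_nonneg _)
      have n5 : δ * (2 * ‖g‖ + ‖h₁‖) ≤ ε₂ := by
        have h2 : δ ≤ ε₂ / (2 * ‖g‖ + ‖h₁‖ + 1) := min_le_right _ _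
        have h3 : 0 ≤ 2 * ‖g‖ + ‖h₁‖ := by positivity
        calc δ * (2 * ‖g‖ + ‖h₁‖) ≤ ε₂ / (2 * ‖g‖ + ‖h₁‖ + 1) * (2 * ‖g‖ + ‖h₁‖) :=
              mul_le_mul_of_nonneg_right h2 h3
          _ = ε₂ * ((2 * ‖g‖ + ‖h₁‖) / (2 * ‖g‖ + ‖h₁‖ + 1)) := by ring
          _ ≤ ε₂ * 1 := by
              refine mul_le_mul_of_nonneg_left ?_ hε₂.le
              rw [div_le_one (by positivity)]
              linarith
          _ = ε₂ := mul_one _
      calc ‖star d * g + star g * d + star d * h₁ * d‖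
          ≤ ‖star d * g‖ + ‖star g * d‖ + ‖star d * h₁ * d‖ := norm_add₃_le
        _ ≤ ε₂ := by linarith
    have h4 := kr' R h₂ H ε₂ 0 h₂0 hH0 hn le_rfl
    rwa [add_zero, (ct' R H hH0).2.2.2.2.1] at h4

end

end Run7.h450

/-!
# Uniform comparison in C*-algebras of stable rank one
-/

set_option autoImplicit false
set_option linter.unusedSectionVars false

namespace Run7.h450

open Filter Topology
open Pool.Agent.H327R4.Pure

universe u v w

section

variable {R : Type u} [CStarAlgebra R] [PartialOrder R] [StarOrderedRing R]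

theorem glue_fin (hR : DU R) {b c : R} (hc : 0 ≤ c) (k : ℕ) : ∀ (y : Fin k → R),
    (∀ i, InL b (star (y i))) → ∀ ε : Fin k → ℝ, (∀ i, 0 < ε i) →
      ∃ z : R, InL b (star z) ∧ ∀ i, Cz (cut (ε i) (star (y i) * y i + c)) (star z * z + c) := by
  induction k with
  | zero =>
    intro y _ ε _
    exact ⟨0, by rw [star_zero]; exact InL.zero b, fun i => i.elim0⟩
  | succ k ih =>
    intro y hy ε hε
    have hpos : ∀ x : R, 0 ≤ star x * x + c := fun x => add_nonneg (star_mul_self_nonneg _) hc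
    obtain ⟨z', hz', hcz⟩ := ih (fun i => y i.castSucc) (fun i => hy _)
      (fun i => ε i.castSucc / 2) (fun i => half_pos (hε _))
    have hr : ∀ i : Fin k, ∃ δ : ℝ, 0 < δ ∧
        Cz (cut (ε i.castSucc) (star (y i.castSucc) * y i.castSucc + c))
          (cut δ (star z' * z' + c)) := by
      intro i
      obtain ⟨δ, hδ, h1⟩ := ror' R _ _ (ε i.castSucc / 2) (cut_nonneg (hpos _) _) (hpos z')
        (hcz i) (half_pos (hε _))
      refine ⟨δ, hδ, ?_⟩
      have h2 := (ct' R _ (hpos (y i.castSucc))).2.2.2.1 (ε i.castSucc / 2) (ε i.castSucc / 2)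
        (half_pos (hε _)).le (half_pos (hε _)).le
      rwa [h2, add_halves] at h1
    choose δ hδ0 hδ using hr
    obtain ⟨δ', hδ'0, hδ'⟩ := TDINI.exists_min Finset.univ δ hδ0
    obtain ⟨z, hz, h1, h2⟩ := glue_two hR hc z' (y (Fin.last k)) hz' (hy _) δ' (ε (Fin.last k))
      hδ'0 (hε _)
    refine ⟨z, hz, fun i => ?_⟩
    refine Fin.lastCases h2 (fun i => ?_) i
    have h3 : Cz (cut (δ i) (star z' * z' + c)) (cut δ' (star z' * z' + c)) :=
      cz_of_le (cut_nonneg (hpos _) _)
        ((ct' R _ (hpos z')).2.2.1 δ' (δ i) hδ'0.le (hδ' i (Finset.mem_univ i)))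
    exact cz_trans (hδ i) (cz_trans h3 h1)

theorem N2_le_one (T : Tr R) {x : R} (h0 : 0 ≤ x) (h1 : x ≤ 1) : N2 T x ≤ (T.f 1).re := by
  unfold N2
  rw [(IsSelfAdjoint.of_nonneg h0).star_eq]
  exact (mt' R T).1 _ _ ((mul_self_le h0 h1).trans h1)

/-- the trace of `1 - rf ε (E + F)` for positive contractions with small `T((1-F)(1-E))` -/
theorem tr_small (T : Tr R) (K : ℝ) (hK : (T.f 1).re ≤ K) {E F : R} (hE0 : 0 ≤ E) (hE1 : E ≤ 1)
    (hF0 : 0 ≤ F) (hF1 : F ≤ 1) (ε η₀ c : ℝ) (hε : 0 < ε)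
    (hT : (T.f ((1 - F) * (1 - E))).re ≤ η₀) (hc0 : 0 ≤ c) (h1 : 2 * ε * K ≤ c)
    (h2 : K * (2 * ε * K) ≤ c ^ 2) (h3 : K * η₀ ≤ c ^ 2) :
    (T.f (1 - rf ε (E + F))).re ≤ 3 * c := by
  have hKn : 0 ≤ K := ((mt' R T).2.1 1 zero_le_one).1.trans hK
  set h : R := E + F with hh
  have hh0 : 0 ≤ h := add_nonneg hE0 hF0
  set n : R := 1 - rf ε h with hn
  have hn0 : 0 ≤ n := sub_nonneg.mpr (rf_le_one ε h)
  have hn1 : n ≤ 1 := sub_le_self _ (rf_nonneg ε h)
  have hns : star n = n := (IsSelfAdjoint.of_nonneg hn0).star_eq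
  set p : R := 1 - F with hp
  have hp0 : 0 ≤ p := sub_nonneg.mpr hF1
  have hp1 : p ≤ 1 := sub_le_self _ hF0
  have hps : star p = p := (IsSelfAdjoint.of_nonneg hp0).star_eq
  set e : R := 1 - E with he
  have he0 : 0 ≤ e := sub_nonneg.mpr hE1
  have he1 : e ≤ 1 := sub_le_self _ hE0
  have hes : star e = e := (IsSelfAdjoint.of_nonneg he0).star_eq
  have hFs : star F = F := (IsSelfAdjoint.of_nonneg hF0).star_eq
  have hpp0 : 0 ≤ p * p := (IsSelfAdjoint.of_nonneg hp0).mul_self_nonneg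
  have hFF0 : 0 ≤ F * F := (IsSelfAdjoint.of_nonneg hF0).mul_self_nonneg
  -- `T (n h) ≤ 2 ε K`
  have b0 : (T.f (n * h)).re ≤ 2 * ε * K := by
    have h4 : (T.f (h - h * rf ε h)).re ≤ 2 * ε * (T.f 1).re := by
      have := (mt' R T).1 _ _ (sub_rf_le hh0 ε hε)
      rwa [tr_rsmul] at this
    have h5 : T.f (n * h) = T.f (h - h * rf ε h) := by
      rw [hn, sub_mul, one_mul, map_sub, map_sub, T.tr (rf ε h) h]
    rw [h5]
    exact h4.trans (mul_le_mul_of_nonneg_left hK (by positivity))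
  have b1 : (T.f (n * E)).re ≤ c :=
    (re_mul_le T hn0 (le_add_of_nonneg_right hF0 : E ≤ h)).trans (b0.trans h1)
  -- `T (n e p)`
  have b2 : (T.f (n * (e * p))).re ≤ c := by
    have h4 := cs T n (e * p)
    rw [hns] at h4
    have h5 : N2 T (e * p) ≤ η₀ := by
      have e1 : T.f (star (e * p) * (e * p)) = T.f ((p * p) * (e * e)) := by
        rw [star_mul, hes, hps]
        have : p * e * (e * p) = (p * e * e) * p := by simp only [mul_assoc]
        rw [this, T.tr]
        congr 1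
        simp only [mul_assoc]
      unfold N2
      rw [e1]
      refine (re_mul_le T hpp0 (mul_self_le he0 he1)).trans ?_
      rw [T.tr]
      refine (re_mul_le T he0 (mul_self_le hp0 hp1)).trans ?_
      rw [T.tr]
      exact hT
    have h6 : ‖T.f (n * (e * p))‖ ^ 2 ≤ c ^ 2 := by
      refine h4.trans (le_trans ?_ h3)
      exact mul_le_mul ((N2_le_one T hn0 hn1).trans hK) h5 (N2_nonneg _ _) hKn
    have h7 : ‖T.f (n * (e * p))‖ ≤ c := by
      have := abs_le_of_sq_le_sq h6 hc0
      rwa [abs_of_nonneg (norm_nonneg _)] at this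
    exact ((le_abs_self _).trans (Complex.abs_re_le_norm _)).trans h7
  -- `T (n e F)`
  have b3 : (T.f (n * (e * F))).re ≤ c := by
    have e0 : T.f (n * (e * F)) = T.f (star (n * F) * e) := by
      rw [star_mul, hns, hFs, ← mul_assoc, T.tr]
      congr 1
      simp only [mul_assoc]
    have h4 := cs T (n * F) e
    rw [← e0] at h4
    have h5 : N2 T (n * F) ≤ 2 * ε * K := by
      have e1 : T.f (star (n * F) * (n * F)) = T.f ((F * F) * (n * n)) := by
        rw [star_mul, hFs, hns]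
        have : F * n * (n * F) = (F * n * n) * F := by simp only [mul_assoc]
        rw [this, T.tr]
        congr 1
        simp only [mul_assoc]
      unfold N2
      rw [e1]
      refine (re_mul_le T hFF0 (mul_self_le hn0 hn1)).trans ?_
      rw [T.tr]
      refine (re_mul_le T hn0 (mul_self_le hF0 hF1)).trans ?_
      exact (re_mul_le T hn0 (le_add_of_nonneg_left hE0 : F ≤ h)).trans b0
    have h6 : ‖T.f (n * (e * F))‖ ^ 2 ≤ c ^ 2 := by
      refine h4.trans (le_trans ?_ h2)
      rw [mul_comm]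
      exact mul_le_mul ((N2_le_one T he0 he1).trans hK) h5 (N2_nonneg _ _) hKn
    have h7 : ‖T.f (n * (e * F))‖ ≤ c := by
      have := abs_le_of_sq_le_sq h6 hc0
      rwa [abs_of_nonneg (norm_nonneg _)] at this
    exact ((le_abs_self _).trans (Complex.abs_re_le_norm _)).trans h7
  have hsum : n = n * E + n * (e * p) + n * (e * F) := by
    rw [he, hp]
    noncomm_ring
  have : (T.f n).re = (T.f (n * E)).re + (T.f (n * (e * p))).re + (T.f (n * (e * F))).re := by
    conv_lhs => rw [hsum]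
    rw [map_add, map_add, Complex.add_re, Complex.add_re]
  rw [this]
  linarith

theorem sub_conj_rf {a : R} (ha : 0 ≤ a) (ε : ℝ) (hε : 0 < ε) :
    0 ≤ a - rf ε a * a * rf ε a ∧ a - rf ε a * a * rf ε a ≤ (2 * ε) • (1 : R) := by
  have hsa : IsSelfAdjoint a := IsSelfAdjoint.of_nonneg ha
  set f : ℝ → ℝ := fun t => min 1 (max 0 ((t - ε) / ε)) with hf
  have hfc : Continuous f := rf_cont ε
  have hf0 : f 0 = 0 := rf_zero hε
  have hfn : ∀ t, 0 ≤ f t := fun t => le_min zero_le_one (le_max_left _ _)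
  have hf1 : ∀ t, f t ≤ 1 := fun t => min_le_left _ _
  have e : a - rf ε a * a * rf ε a = cfcₙ (fun t => t - f t * t * f t) a := by
    rw [cfcₙ_sub (fun t : ℝ => t) (fun t => f t * t * f t) a (by fun_prop) rfl (by fun_prop)
      (by simp), cfcₙ_mul (fun t => f t * t) f a (by fun_prop) (by simp) hfc.continuousOn hf0,
      cfcₙ_mul f (fun t : ℝ => t) a hfc.continuousOn hf0 (by fun_prop) rfl, cfcₙ_id' ℝ a hsa]
    rfl
  have hb : ∀ t : ℝ, 0 ≤ t → 0 ≤ t - f t * t * f t ∧ t - f t * t * f t ≤ 2 * ε := by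
    intro t ht
    have h1 : f t * f t ≤ 1 := mul_le_one₀ (hf1 t) (hfn t) (hf1 t)
    have h2 : t - f t * t * f t = t * (1 - f t * f t) := by ring
    rw [h2]
    refine ⟨mul_nonneg ht (by linarith), ?_⟩
    by_cases h4 : t ≤ 2 * ε
    · have h5 : 0 ≤ f t * f t := mul_nonneg (hfn t) (hfn t)
      nlinarith
    · push Not at h4
      have h5 : 1 ≤ (t - ε) / ε := by
        rw [le_div_iff₀ hε]
        linarith
      have h6 : f t = 1 := by
        simp only [hf]
        rw [max_eq_right (zero_le_one.trans h5), min_eq_left h5]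
      rw [h6]
      simp only [mul_one, sub_self, mul_zero]
      positivity
  rw [e]
  refine ⟨cfcₙ_nonneg fun t ht => (hb t (quasispectrum_nonneg_of_nonneg a ha t ht)).1, ?_⟩
  have h1 : ‖cfcₙ (fun t => t - f t * t * f t) a‖ ≤ 2 * ε := by
    refine norm_cfcₙ_le fun t ht => ?_
    have := hb t (quasispectrum_nonneg_of_nonneg a ha t ht)
    rw [Real.norm_eq_abs, abs_of_nonneg this.1]
    exact this.2
  have h2 := le_norm_smul
    (cfcₙ_predicate (fun t => t - f t * t * f t) a : IsSelfAdjoint _)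
  exact h2.trans (smul_le_smul_of_nonneg_right h1 zero_le_one)

theorem phi_le_smul {h : R} (h0 : 0 ≤ h) (δ : ℝ) (hδ : 0 < δ) : phi δ h ≤ (1 / δ) • h := by
  have hsa : IsSelfAdjoint h := IsSelfAdjoint.of_nonneg h0
  have e : (1 / δ) • h = cfcₙ (fun t : ℝ => (1 / δ) * t) h := by
    rw [cfcₙ_const_mul (1 / δ) (fun t : ℝ => t) h (by fun_prop) rfl, cfcₙ_id' ℝ h hsa]
  rw [e]
  unfold phi
  refine cfcₙ_mono (fun t _ => ?_) (by fun_prop) (by fun_prop) (by simp) (by simp)
  refine (min_le_right _ _).trans (le_of_eq ?_)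
  ring

theorem tr_mul_rsmul (T : Tr R) (x y : R) (c : ℝ) :
    (T.f (x * (c • y))).re = c * (T.f (x * y)).re := by
  rw [mul_smul_comm, tr_rsmul]

theorem final_sr {S : Set (Tr R)} (K : ℝ) (hK0 : 0 ≤ K) (hK : ∀ T ∈ S, (T.f 1).re ≤ K)
    {a b z : R} (ha : 0 ≤ a) (hz : InL b (star z)) (ε₀ : ℝ) (hε₀ : 0 < ε₀) (δ : ℝ) (hδ : 0 < δ)
    (η₁ : ℝ) (hη₁ : 0 < η₁)
    (hT : ∀ T ∈ S, (T.f (1 - phi δ (star z * z + (1 - rf ε₀ a)))).re ≤ η₁) :
    ∃ x : R, InL a x ∧ InL b (star x) ∧ star x * x ≤ a ∧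
      ∀ T ∈ S, (T.f a).re - (T.f (star x * x)).re ≤ 4 * ε₀ * K + ‖a‖ * (2 * η₁) := by
  have h2ε : 0 < 2 * ε₀ := by positivity
  set p : R := rf ε₀ a with hp
  have hp0 : 0 ≤ p := rf_nonneg _ _
  have hp1 : p ≤ 1 := rf_le_one _ _
  set p₀ : R := rf (2 * ε₀) a with hp₀
  have hp₀0 : 0 ≤ p₀ := rf_nonneg _ _
  have hp₀1 : p₀ ≤ 1 := rf_le_one _ _
  have hp₀s : star p₀ = p₀ := rf_star _ _
  have hpp : p * p₀ = p₀ := by
    rw [hp, hp₀]
    exact rf_mul hε₀ a (fun t => min 1 (max 0 ((t - 2 * ε₀) / (2 * ε₀)))) (rf_cont (2 * ε₀))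
      (fun t ht => by
        have h2 : (t - 2 * ε₀) / (2 * ε₀) ≤ 0 :=
          div_nonpos_of_nonpos_of_nonneg (by linarith) h2ε.le
        rw [max_eq_left h2, min_eq_right zero_le_one])
  have hcp : (1 - p) * p₀ = 0 := by rw [sub_mul, one_mul, hpp, sub_self]
  set h : R := star z * z + (1 - p) with hh
  have hh0 : 0 ≤ h := add_nonneg (star_mul_self_nonneg _) (sub_nonneg.mpr hp1)
  set y₀ : R := z * p₀ with hy₀
  set G : R := star y₀ * y₀ with hG
  have hG0 : 0 ≤ G := star_mul_self_nonneg _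
  have hGh : G = p₀ * h * p₀ := by
    rw [hG, hy₀, star_mul, hp₀s, hh]
    have e1 : p₀ * (star z * z + (1 - p)) * p₀ =
        p₀ * star z * (z * p₀) + p₀ * ((1 - p) * p₀) := by noncomm_ring
    rw [e1, hcp, mul_zero, add_zero]
  set δ' : ℝ := δ * η₁ / (2 * (K + 1)) with hδ'
  have hδ'0 : 0 < δ' := by positivity
  obtain ⟨k, hks, hk⟩ := exists_fun_elt y₀ _ (rf_cont δ')
    (fun t => le_min zero_le_one (le_max_left _ _)) δ' hδ'0 (fun t ht => by
      have h2 : (t - δ') / δ' ≤ 0 :=
        div_nonpos_of_nonpos_of_nonneg (by linarith) hδ'0.le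
      rw [max_eq_left h2, min_eq_right zero_le_one])
  set q : R := rf δ' G with hq
  have hkq : star (y₀ * k) * (y₀ * k) = q := hk
  have hq0 : 0 ≤ q := rf_nonneg _ _
  have hq1 : q ≤ 1 := rf_le_one _ _
  have h1q : 0 ≤ 1 - q := sub_nonneg.mpr hq1
  have hxx : star (y₀ * k * sq a) * (y₀ * k * sq a) = sq a * q * sq a := by
    rw [star_mul, sq_star, ← hkq]
    simp only [mul_assoc]
  refine ⟨y₀ * k * sq a, (InL.sq ha).mul_left _, ?_, ?_, fun T hTS => ?_⟩
  · have e1 : star (y₀ * k * sq a) = sq a * (k * (p₀ * star z)) := by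
      rw [star_mul, star_mul, sq_star, hks, hy₀, star_mul, hp₀s]
    rw [e1]
    exact ((hz.mul_left _).mul_left _).mul_left _
  · rw [hxx]
    have := star_right_conjugate_le_conjugate hq1 (sq a)
    rwa [sq_star, mul_one, sq_mul_sq ha] at this
  · have hT1 := hT T hTS
    have hKT := hK T hTS
    -- `T (p₀ p₀ (1 - q)) ≤ 2 η₁`
    set M : R := p₀ * (1 - q) * p₀ with hM
    have hM0 : 0 ≤ M := conj_nonneg h1q hp₀s
    have hM1 : M ≤ 1 := by
      have h2 := star_right_conjugate_le_conjugate (sub_le_self (1 : R) hq0) p₀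
      rw [hp₀s, mul_one] at h2
      exact h2.trans ((mul_self_le hp₀0 hp₀1).trans hp₀1)
    have hφ := (ct' R h hh0).2.2.2.2.2.2.2.1 δ hδ
    have hφ1 : phi δ h ≤ 1 := (CStarAlgebra.norm_le_one_iff_of_nonneg _ hφ.1).mp hφ.2.1
    have m1 : (T.f (M * (1 - phi δ h))).re ≤ η₁ := by
      rw [T.tr]
      refine (re_mul_le T (sub_nonneg.mpr hφ1) hM1).trans ?_
      rw [mul_one]
      exact hT1
    have m2 : (T.f (M * phi δ h)).re ≤ η₁ := by
      refine (re_mul_le T hM0 (phi_le_smul hh0 δ hδ)).trans ?_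
      rw [tr_mul_rsmul]
      have e1 : T.f (M * h) = T.f (G - G * q) := by
        have e2 : M * h = p₀ * ((1 - q) * p₀ * h) := by
          rw [hM]
          simp only [mul_assoc]
        have e3 : (1 - q) * p₀ * h * p₀ = (1 - q) * G := by
          rw [hGh]
          simp only [mul_assoc]
        rw [e2, T.tr, e3, sub_mul, one_mul, map_sub, map_sub, T.tr q G]
      have e2 := (mt' R T).1 _ _ (sub_rf_le hG0 δ' hδ'0)
      rw [tr_rsmul] at e2
      rw [e1]
      have e3 : (1 / δ) * (T.f (G - G * q)).re ≤ (1 / δ) * (2 * δ' * (K + 1)) := by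
        refine mul_le_mul_of_nonneg_left (e2.trans ?_) (by positivity)
        exact mul_le_mul_of_nonneg_left (by linarith) (by positivity)
      refine e3.trans (le_of_eq ?_)
      rw [hδ']
      field_simp
    have m3 : (T.f M).re ≤ 2 * η₁ := by
      have e1 : M = M * phi δ h + M * (1 - phi δ h) := by noncomm_ring
      have : (T.f M).re = (T.f (M * phi δ h)).re + (T.f (M * (1 - phi δ h))).re := by
        conv_lhs => rw [e1]
        rw [map_add, Complex.add_re]
      rw [this]
      linarith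
    have m4 : (T.f ((1 - q) * (p₀ * p₀))).re ≤ 2 * η₁ := by
      have e1 : T.f ((1 - q) * (p₀ * p₀)) = T.f M := by
        rw [← mul_assoc, T.tr, hM]
        congr 1
        simp only [mul_assoc]
      rw [e1]
      exact m3
    -- the two parts of `a`
    obtain ⟨s1, s2⟩ := sub_conj_rf ha (2 * ε₀) h2ε
    have m5 : (T.f ((1 - q) * (a - p₀ * a * p₀))).re ≤ 4 * ε₀ * K := by
      rw [T.tr]
      refine (re_mul_le T s1 (sub_le_self (1 : R) hq0)).trans ?_
      rw [mul_one]
      have h2 := (mt' R T).1 _ _ s2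
      rw [tr_rsmul] at h2
      refine h2.trans ?_
      calc 2 * (2 * ε₀) * (T.f 1).re ≤ 2 * (2 * ε₀) * K :=
            mul_le_mul_of_nonneg_left hKT (by positivity)
        _ = 4 * ε₀ * K := by ring
    have m6 : (T.f ((1 - q) * (p₀ * a * p₀))).re ≤ ‖a‖ * (2 * η₁) := by
      have h2 := CStarAlgebra.star_left_conjugate_le_norm_smul (a := p₀) (b := a)
        (IsSelfAdjoint.of_nonneg ha)
      rw [hp₀s] at h2
      refine (re_mul_le T h1q h2).trans ?_
      rw [tr_mul_rsmul]
      exact mul_le_mul_of_nonneg_left m4 (norm_nonneg a)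
    have e1 : (T.f a).re - (T.f (star (y₀ * k * sq a) * (y₀ * k * sq a))).re =
        (T.f ((1 - q) * (a - p₀ * a * p₀))).re + (T.f ((1 - q) * (p₀ * a * p₀))).re := by
      rw [hxx]
      have e2 : T.f (sq a * q * sq a) = T.f (q * a) := by
        rw [mul_assoc, T.tr, mul_assoc, sq_mul_sq ha]
      rw [e2, ← Complex.add_re, ← map_add, ← mul_add, sub_add_cancel, sub_mul, one_mul, map_sub,
        Complex.sub_re]
    rw [e1]
    linarith

end

section

variable {A : Type u} [CStarAlgebra A] [PartialOrder A] [StarOrderedRing A]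

theorem local_h (N : ℕ) {p b : Mat N A} (hp0 : 0 ≤ p) (hp1 : p ≤ 1) (hb : 0 ≤ b) (m₀ : ℝ)
    (hm₀ : 0 < m₀) (hab : ∀ S ∈ SSt N, rk S p + m₀ ≤ rk S b) (T : Tr (Mat N A)) (K : ℝ)
    (hK0 : 0 ≤ K) (hK : (T.f 1).re ≤ K) (η : ℝ) (hη : 0 < η) :
    ∃ (y : Mat N A) (ε : ℝ), 0 < ε ∧ InL b (star y) ∧
      (T.f (1 - rf ε (star y * y + (1 - p)))).re < η := by
  set K' : ℝ := K + 1 with hK'
  have hK'0 : 0 < K' := by positivity
  set c : ℝ := η / 4 with hc
  have hc0 : 0 < c := by positivity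
  set ε : ℝ := min (c / (2 * K')) (c ^ 2 / (2 * K' ^ 2)) with hε
  have hε0 : 0 < ε := lt_min (by positivity) (by positivity)
  set η₀ : ℝ := c ^ 2 / K' with hη₀
  have hη₀0 : 0 < η₀ := by positivity
  obtain ⟨y, hy1, hy2, hy3⟩ := local_y N hp0 hp1 hb m₀ hm₀ hab T η₀ hη₀0
  refine ⟨y, ε, hε0, hy2, ?_⟩
  have h1 : (T.f (1 - rf ε (star y * y + (1 - p)))).re ≤ 3 * c := by
    refine tr_small T K' (by linarith) (star_mul_self_nonneg y) hy1 (sub_nonneg.mpr hp1)
      (sub_le_self _ hp0) ε η₀ c hε0 ?_ hc0.le ?_ ?_ ?_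
    · rw [sub_sub_cancel]
      exact hy3.le
    · have h2 : ε ≤ c / (2 * K') := min_le_left _ _
      rw [le_div_iff₀ (by positivity)] at h2
      linarith
    · have h2 : ε ≤ c ^ 2 / (2 * K' ^ 2) := min_le_right _ _
      rw [le_div_iff₀ (by positivity)] at h2
      linarith
    · rw [hη₀]
      field_simp
      exact le_rfl
  linarith

theorem uc_sr (hA : DU A) (N : ℕ) : UC (SSt (D := A) N) := by
  classical
  intro a b ha hb m₀ hm₀ hab η hη
  have hR : DU (Mat N A) := du_mat hA N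
  set η₁ : ℝ := η / (4 * (‖a‖ + 1)) with hη₁
  have hη₁0 : 0 < η₁ := by positivity
  set ε₀ : ℝ := η / (8 * ((N : ℝ) + 1)) with hε₀
  have hε₀0 : 0 < ε₀ := by positivity
  set p : Mat N A := rf ε₀ a with hp
  have hp0 : 0 ≤ p := rf_nonneg _ _
  have hp1 : p ≤ 1 := rf_le_one _ _
  have habp : ∀ S ∈ SSt N, rk S p + m₀ ≤ rk S b := by
    intro S hS
    have h1 := rk_cz S hp0 ha (InL.cz ha hp0 (inL_rf ε₀ ha))
    have h2 := hab S hS
    linarith
  have hN0 : (0 : ℝ) ≤ N := Nat.cast_nonneg N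
  choose y ε hε hyb hy using fun T : TS A => local_h N hp0 hp1 hb m₀ hm₀ habp
    (trM T.1 (Fin N)) N hN0 (trM_one_re T.1 T.2 N).le η₁ hη₁0
  have hpos : ∀ x : Mat N A, 0 ≤ star x * x + (1 - p) := fun x =>
    add_nonneg (star_mul_self_nonneg _) (sub_nonneg.mpr hp1)
  set X : TS A → Mat N A := fun T => 1 - rf (ε T) (star (y T) * y T + (1 - p)) with hX
  have htr : ∀ (T' : Tr A) (T : TS A), T'.f (∑ i, X T i i) = (trM T' (Fin N)).f (X T) := by
    intro T' T
    rw [trM_apply, map_sum]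
  have := cpt' A
  obtain ⟨t, ht⟩ := isCompact_univ.elim_finite_subcover
    (fun T : TS A => {T' : TS A | (T'.1.f (∑ i, X T i i)).re < η₁})
    (fun T => isOpen_lt (ts_continuous _) continuous_const)
    (fun T _ => Set.mem_iUnion.mpr ⟨T, by
      show (T.1.f (∑ i, X T i i)).re < η₁
      rw [htr]
      exact hy T⟩)
  let σ : Fin t.card ≃ {T // T ∈ t} := t.equivFin.symm
  obtain ⟨z, hzb, hz⟩ := glue_fin hR (c := 1 - p) (sub_nonneg.mpr hp1) t.card
    (fun i => y (σ i).1) (fun i => hyb _) (fun i => ε (σ i).1) (fun i => hε _)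
  set h : Mat N A := star z * z + (1 - p) with hh
  have hrk : ∀ T : TS A, (N : ℝ) - η₁ < rk (trM T.1 (Fin N)) h := by
    intro T
    obtain ⟨T', hT'⟩ := Set.mem_iUnion.mp (ht (Set.mem_univ T))
    obtain ⟨hT't, h2⟩ := Set.mem_iUnion.mp hT'
    have h3 : ((trM T.1 (Fin N)).f (X T')).re < η₁ := by
      rw [← htr]
      exact h2
    have h4 := hz (σ.symm ⟨T', hT't⟩)
    rw [Equiv.apply_symm_apply] at h4
    have h5 : 0 ≤ star (y T') * y T' + (1 - p) := hpos _
    have h6 := rk_cz (trM T.1 (Fin N)) (cut_nonneg h5 (ε T')) (hpos z) h4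
    have h7 : ((trM T.1 (Fin N)).f (rf (ε T') (star (y T') * y T' + (1 - p)))).re ≤
        rk (trM T.1 (Fin N)) (cut (ε T') (star (y T') * y T' + (1 - p))) := by
      refine (tr_le_rk _ (rf_nonneg _ _) (rf_le_one _ _)).trans ?_
      refine rk_cz _ (rf_nonneg _ _) (cut_nonneg h5 _) ?_
      exact cz_of_le_smul (rf_nonneg _ _) _ (by have := hε T'; positivity)
        (rf_le (hε T') _)
    have h8 : ((trM T.1 (Fin N)).f (X T')).re =
        N - ((trM T.1 (Fin N)).f (rf (ε T') (star (y T') * y T' + (1 - p)))).re := by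
      show ((trM T.1 (Fin N)).f (1 - rf (ε T') (star (y T') * y T' + (1 - p)))).re = _
      rw [map_sub, Complex.sub_re, trM_one_re T.1 T.2 N]
    linarith
  obtain ⟨δ, hδ, hδT⟩ := dini' A N h ((((N : ℝ) - η₁ : ℝ) : ℂ) • (1 : A)) (hpos z) (fun T => by
    have h1 := hrk T
    rw [map_smul, T.2, smul_eq_mul, mul_one, Complex.ofReal_re]
    exact h1)
  obtain ⟨x, hx1, hx2, hx3, hx4⟩ := final_sr (S := SSt N) (N : ℝ) hN0 (by
      rintro _ ⟨T, hT, rfl⟩
      exact (trM_one_re T hT N).le) ha hzb ε₀ hε₀0 δ hδ η₁ hη₁0 (by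
      rintro _ ⟨T, hT, rfl⟩
      have h1 := hδT ⟨T, hT⟩
      rw [map_smul, hT, smul_eq_mul, mul_one, Complex.ofReal_re] at h1
      have h2 := sand' (Mat N A) (trM T (Fin N)) h δ (hpos z) hδ
      have h3 : ((trM T (Fin N)).f (1 - phi δ h)).re = N - ((trM T (Fin N)).f (phi δ h)).re := by
        rw [map_sub, Complex.sub_re, trM_one_re T hT N]
      have h4 : (N : ℝ) - η₁ < rk (trM T (Fin N)) (cut δ h) := h1
      rw [h3]
      linarith)
  refine ⟨x, hx1, hx2, hx3, fun T hT => (hx4 T hT).trans ?_⟩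
  have h1 : 4 * ε₀ * N ≤ η / 2 := by
    have : 4 * ε₀ * N = η / 2 * (N / (N + 1)) := by
      rw [hε₀]
      field_simp
      ring
    rw [this]
    have h6 : (N : ℝ) / (N + 1) ≤ 1 := by
      rw [div_le_one (by positivity)]
      linarith
    nlinarith
  have h2 : ‖a‖ * (2 * η₁) ≤ η / 2 := by
    have : ‖a‖ * (2 * η₁) = η / 2 * (‖a‖ / (‖a‖ + 1)) := by
      rw [hη₁]
      field_simp
      ring
    rw [this]
    have h6 : ‖a‖ / (‖a‖ + 1) ≤ 1 := by
      rw [div_le_one (by positivity)]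
      linarith
    nlinarith
  linarith

end

end Run7.h450

/-!
# Uniform comparison from stable rank one
-/

set_option autoImplicit false
set_option linter.unusedSectionVars false

namespace Run7.h450

universe u

theorem du_of_sr {A : Type u} [CStarAlgebra A] (h : StableRankOne A) : DU A := by
  intro x ε hε
  obtain ⟨u, hu, hd⟩ := h.exists_dist_lt x hε
  exact ⟨u, hu, by rw [← dist_eq_norm, dist_comm]; exact hd⟩

end Run7.h450
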