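import Pool.Agent.Run7.h450.Defs2
import Pool.Agent.Run7.h450.Q8

/-!
# Partitions of unity from uniform property Gamma
-/

set_option autoImplicit false
set_option linter.unusedSectionVars false

namespace Run7.h450

open Filter Topology
open Pool.Agent.H327R4.Pure

universe u v w

section

variable {A : Type u} [CStarAlgebra A] [PartialOrder A] [StarOrderedRing A]

theorem isTrace_ofTr (T : Tr A) (hT : T.f 1 = 1) : (QT.ofTr T hT).IsTrace := fun n x y =>
  map_add (trM T (Fin n)).f x y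

theorem ev_ofTr (T : Tr A) (hT : T.f 1 = 1) (x : A) : (QT.ofTr T hT).ev x = T.f x := by
  show (trM T (Fin 1)).f _ = _
  rw [trM_apply, Fin.sum_univ_one]
  rfl

theorem N2_le_of_norm2 (T : Tr A) (hT : T.f 1 = 1) (x : A) (ε : ℝ) (hε : 0 ≤ ε) (hε1 : ε ≤ 1)
    (h : (QT.ofTr T hT).norm2 x ≤ ε) : N2 T x ≤ ε := by
  unfold QT.norm2 at h
  rw [ev_ofTr] at h
  have h1 : N2 T x ≤ ε ^ 2 := by
    have := (Real.sqrt_le_left hε).mp h
    exact this
  nlinarith

/-- the weights: minimax for the traces -/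
theorem exists_weights {k : ℕ} (a : Fin k → A) (δ : ℝ) (hne : ∃ T : Tr A, T.f 1 = 1)
    (h : ∀ T : Tr A, T.f 1 = 1 → ∃ i, (T.f (a i)).re < δ) :
    ∃ (c : Fin k → ℝ) (δ₁ : ℝ), (∀ i, 0 ≤ c i) ∧ ∑ i, c i = 1 ∧ δ₁ < δ ∧
      ∀ T : Tr A, T.f 1 = 1 → ∑ i, c i * (T.f (a i)).re ≤ δ₁ := by
  classical
  set P : Set (Fin k → ℝ) := Set.range fun (T : TS A) (i : Fin k) => (T.1.f (a i)).re with hP
  set Q : Set (Fin k → ℝ) := {v | ∀ i, δ ≤ v i} with hQ
  have hPc : IsCompact P := by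
    have := cpt' A
    exact isCompact_range (continuous_pi fun i => ts_continuous (a i))
  have hPconv : Convex ℝ P := by
    rintro _ ⟨T, rfl⟩ _ ⟨T', rfl⟩ s t hs ht hst
    obtain ⟨T'', h1⟩ : ∃ T'' : TS A, ∀ x, T''.1.f x = (s : ℂ) * T.1.f x + (t : ℂ) * T'.1.f x := by
      refine ⟨⟨⟨(s : ℂ) • T.1.f + (t : ℂ) • T'.1.f, fun x => ?_, fun x y => ?_⟩, ?_⟩, fun x => rfl⟩
      · have h1 := T.1.pos x
        have h2 := T'.1.pos x
        rw [add_apply, smul_apply, smul_apply, smul_eq_mul, smul_eq_mul, Complex.add_re,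
          Complex.add_im, Complex.re_ofReal_mul, Complex.re_ofReal_mul, Complex.im_ofReal_mul,
          Complex.im_ofReal_mul, h1.2, h2.2, mul_zero, mul_zero, add_zero]
        exact ⟨add_nonneg (mul_nonneg hs h1.1) (mul_nonneg ht h2.1), rfl⟩
      · rw [add_apply, smul_apply, smul_apply, add_apply, smul_apply, smul_apply, T.1.tr, T'.1.tr]
      · show ((s : ℂ) • T.1.f + (t : ℂ) • T'.1.f) 1 = 1
        rw [add_apply, smul_apply, smul_apply, T.2, T'.2, smul_eq_mul, smul_eq_mul, mul_one,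
          mul_one, ← Complex.ofReal_add, hst, Complex.ofReal_one]
    refine ⟨T'', ?_⟩
    funext i
    show (T''.1.f (a i)).re = s * (T.1.f (a i)).re + t * (T'.1.f (a i)).re
    rw [h1, Complex.add_re, Complex.re_ofReal_mul, Complex.re_ofReal_mul]
  have hQconv : Convex ℝ Q := by
    intro v hv w hw s t hs ht hst i
    show δ ≤ s * v i + t * w i
    have h1 := mul_le_mul_of_nonneg_left (hv i) hs
    have h2 := mul_le_mul_of_nonneg_left (hw i) ht
    have h3 : s * δ + t * δ = δ := by rw [← add_mul, hst, one_mul]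
    linarith
  have hQcl : IsClosed Q := by
    have : Q = ⋂ i, {v : Fin k → ℝ | δ ≤ v i} := by
      ext v
      simp [hQ]
    rw [this]
    exact isClosed_iInter fun i => isClosed_le continuous_const (continuous_apply i)
  have hdisj : Disjoint P Q := by
    rw [Set.disjoint_left]
    rintro _ ⟨T, rfl⟩ hv
    obtain ⟨i, hi⟩ := h T.1 T.2
    exact absurd (hv i) (not_le.mpr hi)
  obtain ⟨f, u, v, hu, huv, hv⟩ :=
    geometric_hahn_banach_compact_closed hPconv hPc hQconv hQcl hdisj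
  set c : Fin k → ℝ := fun i => f (Pi.single i 1) with hc
  have hf : ∀ x : Fin k → ℝ, f x = ∑ i, c i * x i := by
    intro x
    have h1 : x = ∑ i, x i • (Pi.single i (1 : ℝ) : Fin k → ℝ) := by
      exact pi_eq_sum_univ' x
    conv_lhs => rw [h1]
    rw [map_sum]
    refine Finset.sum_congr rfl fun i _ => ?_
    rw [map_smul, smul_eq_mul, mul_comm]
  have hc0 : ∀ i, 0 ≤ c i := by
    intro i
    by_contra hneg
    push Not at hneg
    have hδQ : ∀ s : ℝ, 0 ≤ s → v < δ * ∑ l, c l + s * c i := by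
      intro s hs
      have h1 := hv (fun l => δ + (if l = i then s else 0)) (fun l => by
        show δ ≤ δ + (if l = i then s else 0)
        split_ifs
        · linarith
        · linarith)
      rw [hf] at h1
      have h2 : ∑ l, c l * (δ + (if l = i then s else 0)) = δ * ∑ l, c l + s * c i := by
        simp only [mul_add, Finset.sum_add_distrib, mul_ite, mul_zero]
        rw [Finset.sum_ite_eq' Finset.univ i, if_pos (Finset.mem_univ i), Finset.mul_sum]
        congr 1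
        · exact Finset.sum_congr rfl fun l _ => mul_comm _ _
        · exact mul_comm _ _
      rwa [h2] at h1
    have h1 := hδQ ((|δ * ∑ l, c l - v| + 1) / (-c i)) (by
      have : 0 < -c i := by linarith
      positivity)
    have hci : c i ≠ 0 := hneg.ne
    have h2 : (|δ * ∑ l, c l - v| + 1) / (-c i) * c i = -(|δ * ∑ l, c l - v| + 1) := by
      rw [div_neg, neg_mul, div_mul_cancel₀ _ hci]
    rw [h2] at h1
    have := le_abs_self (δ * ∑ l, c l - v)
    linarith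
  have hvδ : v < δ * ∑ l, c l := by
    have h1 := hv (fun _ => δ) (fun l => le_rfl)
    rw [hf, ← Finset.sum_mul, mul_comm] at h1
    exact h1
  obtain ⟨T₀, hT₀⟩ := hne
  have hs0 : 0 < ∑ l, c l := by
    refine lt_of_le_of_ne (Finset.sum_nonneg fun i _ => hc0 i) fun h0 => ?_
    have hall : ∀ i, c i = 0 := fun i =>
      (Finset.sum_eq_zero_iff_of_nonneg fun i _ => hc0 i).mp h0.symm i (Finset.mem_univ i)
    have h1 := hu _ ⟨(⟨T₀, hT₀⟩ : TS A), rfl⟩
    rw [hf] at h1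
    have h2 : ∑ i, c i * (T₀.f (a i)).re = 0 :=
      Finset.sum_eq_zero fun i _ => by rw [hall i, zero_mul]
    have h3 : (0 : ℝ) < u := by
      rw [← h2]
      exact h1
    rw [← h0, mul_zero] at hvδ
    linarith
  refine ⟨fun i => c i / ∑ l, c l, u / ∑ l, c l, fun i => div_nonneg (hc0 i) hs0.le, ?_, ?_,
    fun T hT => ?_⟩
  · rw [← Finset.sum_div, div_self hs0.ne']
  · rw [div_lt_iff₀ hs0]
    linarith
  · have h1 := hu _ ⟨(⟨T, hT⟩ : TS A), rfl⟩
    rw [hf] at h1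
    have h2 : ∑ i, c i / (∑ l, c l) * (T.f (a i)).re = (∑ i, c i * (T.f (a i)).re) / ∑ l, c l := by
      rw [Finset.sum_div]
      exact Finset.sum_congr rfl fun i _ => by ring
    rw [h2]
    exact div_le_div_of_nonneg_right h1.le hs0.le

/-- rational weights -/
theorem exists_rat_weights {k : ℕ} (a : Fin k → A) (ha : ∀ i, 0 ≤ a i) (δ : ℝ)
    (hne : ∃ T : Tr A, T.f 1 = 1)
    (h : ∀ T : Tr A, T.f 1 = 1 → ∃ i, (T.f (a i)).re < δ) :
    ∃ m : Fin k → ℕ, 0 < ∑ i, m i ∧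
      ∀ T : Tr A, T.f 1 = 1 → ∑ i, (m i : ℝ) * (T.f (a i)).re ≤ δ * (∑ i, m i : ℕ) := by
  obtain ⟨c, δ₁, hc0, hc1, hδ₁, hcT⟩ := exists_weights a δ hne h
  set s : ℝ := ∑ i, ‖a i‖ with hs
  have hs0 : 0 ≤ s := Finset.sum_nonneg fun i _ => norm_nonneg _
  obtain ⟨K, hK⟩ := exists_nat_gt (s / (δ - δ₁))
  have hδδ : 0 < δ - δ₁ := by linarith
  have hK0 : (0 : ℝ) < K := lt_of_le_of_lt (by positivity) hK
  have hKs : s ≤ K * (δ - δ₁) := by
    rw [div_lt_iff₀ hδδ] at hK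
    exact hK.le
  set m : Fin k → ℕ := fun i => ⌈c i * K⌉₊ with hm
  have hm1 : ∀ i, c i * K ≤ m i := fun i => Nat.le_ceil _
  have hm2 : ∀ i, (m i : ℝ) ≤ c i * K + 1 := fun i =>
    (Nat.ceil_lt_add_one (mul_nonneg (hc0 i) hK0.le)).le
  have hsum : (K : ℝ) ≤ (∑ i, m i : ℕ) := by
    push_cast
    calc (K : ℝ) = ∑ i, c i * K := by rw [← Finset.sum_mul, hc1, one_mul]
      _ ≤ ∑ i, (m i : ℝ) := Finset.sum_le_sum fun i _ => hm1 i
  have htr : ∀ T : Tr A, T.f 1 = 1 → ∀ i, (T.f (a i)).re ≤ ‖a i‖ := by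
    intro T hT i
    have h1 := IsSelfAdjoint.le_algebraMap_norm_self (IsSelfAdjoint.of_nonneg (ha i))
    rw [Algebra.algebraMap_eq_smul_one] at h1
    have h2 := (mt' A T).1 _ _ h1
    rw [tr_rsmul, hT, Complex.one_re, mul_one] at h2
    exact h2
  refine ⟨m, ?_, fun T hT => ?_⟩
  · have : (0 : ℝ) < (∑ i, m i : ℕ) := lt_of_lt_of_le hK0 hsum
    exact_mod_cast this
  · have h0 : ∀ i, 0 ≤ (T.f (a i)).re := fun i => ((mt' A T).2.1 _ (ha i)).1
    have hδ0 : 0 ≤ δ := by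
      obtain ⟨i, hi⟩ := h T hT
      exact (h0 i).trans hi.le
    calc ∑ i, (m i : ℝ) * (T.f (a i)).re ≤ ∑ i, (c i * K + 1) * (T.f (a i)).re :=
          Finset.sum_le_sum fun i _ => mul_le_mul_of_nonneg_right (hm2 i) (h0 i)
      _ = K * (∑ i, c i * (T.f (a i)).re) + ∑ i, (T.f (a i)).re := by
          rw [Finset.mul_sum, ← Finset.sum_add_distrib]
          exact Finset.sum_congr rfl fun i _ => by ring
      _ ≤ K * δ₁ + s := by
          refine add_le_add (mul_le_mul_of_nonneg_left (hcT T hT) hK0.le) ?_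
          exact Finset.sum_le_sum fun i _ => htr T hT i
      _ ≤ δ * K := by linarith
      _ ≤ δ * (∑ i, m i : ℕ) := mul_le_mul_of_nonneg_left hsum hδ0

theorem sum_sigma_fin {k : ℕ} (m : Fin k → ℕ) {M : Type*} [AddCommMonoid M] (g : Fin k → M) :
    ∑ x : Fin (∑ i, m i), g (finSigmaFinEquiv.symm x).1 = ∑ i, m i • g i := by
  rw [← Equiv.sum_comp finSigmaFinEquiv
    (fun x : Fin (∑ i, m i) => g (finSigmaFinEquiv.symm x).1)]
  simp only [Equiv.symm_apply_apply]
  rw [Fintype.sum_sigma]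
  refine Finset.sum_congr rfl fun i _ => ?_
  show ∑ _y : Fin (m i), g i = m i • g i
  rw [Finset.sum_const, Finset.card_univ, Fintype.card_fin]

theorem part_facts {F : Finset A} {ε : ℝ} (hε : 0 ≤ ε) (hε1 : ε ≤ 1) {k : ℕ} {e : Fin k → A}
    (h : AlmostCentralPartition F ε e) : (∀ i, star (e i) = e i) ∧ (∀ i, ‖e i‖ ≤ 1) ∧
      ∀ T : Tr A, T.f 1 = 1 → (∀ i, ∀ x ∈ F, N2 T (e i * x - x * e i) ≤ ε) ∧
        (∀ i l, i ≠ l → N2 T (e i * e l) ≤ ε) ∧ N2 T (∑ i, e i - 1) ≤ ε := by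
  obtain ⟨h1, h2⟩ := h
  refine ⟨fun i => (IsSelfAdjoint.of_nonneg (h1 i).1).star_eq, fun i =>
    (CStarAlgebra.norm_le_one_iff_of_nonneg _ (h1 i).1).mpr (h1 i).2, fun T hT => ?_⟩
  obtain ⟨h3, h4, h5⟩ := h2 _ (isTrace_ofTr T hT)
  exact ⟨fun i x hx => N2_le_of_norm2 T hT _ ε hε hε1 (h3 i x hx),
    fun i l hil => N2_le_of_norm2 T hT _ ε hε hε1 (h4 i l hil),
    N2_le_of_norm2 T hT _ ε hε hε1 h5⟩

theorem pu_trivial (hne : ¬ ∃ T : Tr A, T.f 1 = 1) : PU A := by
  intro k a δ _ _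
  refine ⟨0, Fin.elim0, 0, fun F ε _ => ⟨Fin.elim0, fun i => i.elim0, fun i => i.elim0,
    fun T hT => absurd ⟨T, hT⟩ hne⟩⟩

theorem pu_of_gamma (hG : UniformGamma A) : PU A := by
  classical
  by_cases hne : ∃ T : Tr A, T.f 1 = 1
  swap
  · exact pu_trivial hne
  intro k a δ ha hcov
  obtain ⟨m, hm0, hm⟩ := exists_rat_weights a ha δ hne hcov
  refine ⟨∑ i, m i, fun x => (finSigmaFinEquiv.symm x).1, 1, fun F ε hε => ?_⟩
  set M : ℕ := ∑ i, m i with hM
  have hM0 : (0 : ℝ) < M := by exact_mod_cast hm0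
  set ε' : ℝ := min ε 1 / ((M : ℝ) + 1) with hε'
  have hmin : 0 < min ε 1 := lt_min hε one_pos
  have hε'0 : 0 < ε' := by positivity
  have hε'1 : ε' ≤ min ε 1 := by
    rw [hε', div_le_iff₀ (by positivity)]
    nlinarith
  obtain ⟨e, he1, he2⟩ := hG M (F ∪ Finset.univ.image a) ε' hm0 hε'0
  obtain ⟨h1, h2, h3⟩ := part_facts hε'0.le (hε'1.trans (min_le_right _ _)) he1
  have hε'ε : ε' ≤ ε := hε'1.trans (min_le_left _ _)
  refine ⟨e, h1, h2, fun T hT => ?_⟩
  obtain ⟨h4, h5, h6⟩ := h3 T hT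
  refine ⟨fun i x hx => (h4 i x (Finset.mem_union_left _ hx)).trans hε'ε,
    fun i l hil => (h5 i l hil).trans hε'ε, h6.trans hε'ε, ?_⟩
  have h7 : ∀ x : Fin M, (T.f (e x * a (finSigmaFinEquiv.symm x).1)).re ≤
      (1 / M) * (T.f (a (finSigmaFinEquiv.symm x).1)).re + ε' := by
    intro x
    have h8 := he2 _ (isTrace_ofTr T hT) x (a (finSigmaFinEquiv.symm x).1)
      (Finset.mem_union_right _ (Finset.mem_image.mpr ⟨_, Finset.mem_univ _, rfl⟩))
    rw [ev_ofTr, ev_ofTr] at h8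
    have h9 := (abs_le.mp ((Complex.abs_re_le_norm _).trans h8)).2
    rw [Complex.sub_re, Complex.div_natCast_re] at h9
    rw [T.tr]
    have h10 : (T.f (a (finSigmaFinEquiv.symm x).1)).re / M =
        (1 / M) * (T.f (a (finSigmaFinEquiv.symm x).1)).re := by ring
    linarith
  rw [map_sum, Complex.re_sum]
  calc ∑ x : Fin M, (T.f (e x * a (finSigmaFinEquiv.symm x).1)).re
      ≤ ∑ x : Fin M, ((1 / M) * (T.f (a (finSigmaFinEquiv.symm x).1)).re + ε') :=
        Finset.sum_le_sum fun x _ => h7 x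
    _ = (1 / M) * (∑ i, (m i : ℝ) * (T.f (a i)).re) + M * ε' := by
        rw [Finset.sum_add_distrib, ← Finset.mul_sum,
          sum_sigma_fin m (fun i => (T.f (a i)).re), Finset.sum_const, Finset.card_univ,
          Fintype.card_fin, nsmul_eq_mul]
        simp only [nsmul_eq_mul]
    _ ≤ (1 / M) * (δ * M) + M * ε' := by
        have := mul_le_mul_of_nonneg_left (hm T hT) (a := 1 / (M : ℝ)) (by positivity)
        linarith
    _ ≤ δ + ε := by
        have h8 : (1 / (M : ℝ)) * (δ * M) = δ := by field_simp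
        have h9 : M * ε' ≤ min ε 1 := by
          have : (M : ℝ) * ε' = min ε 1 * (M / (M + 1)) := by
            rw [hε']
            ring
          rw [this]
          have h10 : (M : ℝ) / (M + 1) ≤ 1 := by
            rw [div_le_one (by positivity)]
            linarith
          nlinarith
        have h11 : min ε 1 ≤ ε := min_le_left _ _
        linarith

theorem pu_of_cpou (hC : CPoU A) : PU A := by
  classical
  by_cases hne : ∃ T : Tr A, T.f 1 = 1
  swap
  · exact pu_trivial hne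
  intro k a δ ha hcov
  obtain ⟨T₀, hT₀⟩ := hne
  have hδ : 0 < δ := by
    obtain ⟨i, hi⟩ := hcov T₀ hT₀
    exact lt_of_le_of_lt ((mt' A T₀).2.1 _ (ha i)).1 hi
  refine ⟨k, id, 1, fun F ε hε => ?_⟩
  set ε₁ : ℝ := min ε 1 / (k + δ + 1) with hε₁
  have hmin : 0 < min ε 1 := lt_min hε one_pos
  have hε₁0 : 0 < ε₁ := by positivity
  have hε₁1 : ε₁ ≤ min ε 1 := by
    rw [hε₁, div_le_iff₀ (by positivity)]
    have : (0 : ℝ) ≤ k := Nat.cast_nonneg _
    nlinarith
  have hε₁2 : ε₁ ≤ 1 := hε₁1.trans (min_le_right _ _)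
  have hε₁ε : ε₁ ≤ ε := hε₁1.trans (min_le_left _ _)
  have hcov' : ∀ τ : QT A, τ.IsTrace → ∃ i, (τ.ev (a i)).re < δ := by
    intro τ hτ
    obtain ⟨T, hT1, hT⟩ := τ.exists_tr hτ
    obtain ⟨i, hi⟩ := hcov T hT1
    refine ⟨i, ?_⟩
    have e : τ.ev (a i) = T.f (a i) := by
      rw [← ev_ofTr T hT1]
      exact hT 1 _
    rw [e]
    exact hi
  obtain ⟨e, he1, he2⟩ := hC k a δ ha hcov' F ε₁ hε₁0
  obtain ⟨h1, h2, h3⟩ := part_facts hε₁0.le hε₁2 he1
  refine ⟨e, h1, h2, fun T hT => ?_⟩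
  obtain ⟨h4, h5, h6⟩ := h3 T hT
  refine ⟨fun i x hx => (h4 i x hx).trans hε₁ε,
    fun i l hil => (h5 i l hil).trans hε₁ε, h6.trans hε₁ε, ?_⟩
  have h7 : ∀ i, (T.f (e i * a i)).re ≤ δ * (T.f (e i)).re + ε₁ := by
    intro i
    have h8 := he2 _ (isTrace_ofTr T hT) i
    rw [ev_ofTr, ev_ofTr] at h8
    rw [T.tr]
    exact h8
  have h8 : (T.f (∑ i, e i)).re ≤ 1 + ε₁ := by
    have h9 := (he1.2 _ (isTrace_ofTr T hT)).2.2
    unfold QT.norm2 at h9
    rw [ev_ofTr] at h9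
    have h10 : N2 T (∑ i, e i - 1) ≤ ε₁ ^ 2 := (Real.sqrt_le_left hε₁0.le).mp h9
    have h11 := re_sq_le T (∑ i, e i - 1)
    rw [hT, Complex.one_re, one_mul] at h11
    have h12 := (abs_le.mp (abs_le_of_sq_le_sq (h11.trans h10) hε₁0.le)).2
    rw [map_sub, Complex.sub_re, hT, Complex.one_re] at h12
    linarith
  rw [map_sum, Complex.re_sum]
  rw [map_sum, Complex.re_sum] at h8
  calc ∑ i, (T.f (e i * a (id i))).re ≤ ∑ i, (δ * (T.f (e i)).re + ε₁) :=
        Finset.sum_le_sum fun i _ => h7 i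
    _ = δ * (∑ i, (T.f (e i)).re) + k * ε₁ := by
        rw [Finset.sum_add_distrib, ← Finset.mul_sum, Finset.sum_const, Finset.card_univ,
          Fintype.card_fin, nsmul_eq_mul]
    _ ≤ δ * (1 + ε₁) + k * ε₁ := by
        have := mul_le_mul_of_nonneg_left h8 hδ.le
        linarith
    _ ≤ δ + ε := by
        have h9 : (k + δ + 1) * ε₁ = min ε 1 := by
          rw [hε₁]
          field_simp
        have h10 : min ε 1 ≤ ε := min_le_left _ _
        nlinarith

end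

end Run7.h450
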