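import Pool.Agent.Run7.h450.Q7
import Pool.Agent.Run7.h450.Q8

/-!
# The crossed product inequality for general trace simplices
-/

set_option autoImplicit false
set_option linter.unusedSectionVars false

namespace Run7.h450

open Filter Topology
open Pool.Agent.H327R4.Pure
open scoped ENNReal NNReal

universe u v w

section

variable {A : Type u} [CStarAlgebra A] [PartialOrder A] [StarOrderedRing A]

variable (A) in
/-- the ranks of quasitraces are ranks of traces -/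
def QAll : Prop :=
  ∀ τ : QT A, ∃ T : Tr A, T.f 1 = 1 ∧ ∀ (n : ℕ) (x : Mat n A), 0 ≤ x →
    τ.d x = rk (trM T (Fin n)) x

theorem qAll_of (h : ∀ τ : QT A, τ.IsTrace) : QAll A := by
  intro τ
  obtain ⟨T, hT1, hT⟩ := τ.exists_tr (h τ)
  refine ⟨T, hT1, fun n x hx => ?_⟩
  have := QT.d_eq (ι := Unit) τ (fun _ => T) (fun _ => 1) (fun n x => by
    simp only [Finset.univ_unique, Finset.sum_singleton, Complex.ofReal_one, one_mul]
    exact hT n x) x hx
  rw [this]
  simp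

variable {G : Type v} [Group G] [Fintype G] {α : G →* (A ≃⋆ₐ[ℂ] A)}
variable {m N : ℕ} (E : G × Fin m → Fin N) (hE : Function.Injective E)

variable (α) in
include hE in
theorem cF_rkg {v : Mat N A} (hv : 0 ≤ v) (η : ℝ)
    (h : ∀ T : Tr A, T.f 1 = 1 → rk (trM T (Fin N)) v ≤ η) (T : Tr A) (hT : T.f 1 = 1) :
    rk (trM T (Fin m)) (cF α E v) ≤ Fintype.card G * η := by
  refine (rk_sum_le Finset.univ _ _ fun g => ent_nonneg _ _
    (cor_nonneg _ (eg_inj E hE g) hv)).trans ?_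
  calc ∑ g, rk (trM T (Fin m)) (ent (act α g⁻¹) m (cor (fun i => E (g, i)) v))
      ≤ ∑ _g : G, η := by
        refine Finset.sum_le_sum fun g _ => ?_
        rw [rk_ent _ _ _ (cor_nonneg _ (eg_inj E hE g) hv)]
        exact (rk_cor_le _ _ (eg_inj E hE g) hv).trans (h _ (pull_one α _ _ hT))
    _ = Fintype.card G * η := by
        rw [Finset.sum_const, Finset.card_univ, nsmul_eq_mul]

variable (α) in
theorem cpsi_rkg {t : Mat m A} (ht : 0 ≤ t) (l : ℝ)
    (h : ∀ T : Tr A, T.f 1 = 1 → rk (trM T (Fin m)) t ≤ l) (T : Tr A) (hT : T.f 1 = 1) :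
    rk (trM T (Fin N)) (cpsi α E hE t) ≤ Fintype.card G * l := by
  rw [cpsi_eq]
  refine (rk_sum_le Finset.univ _ _ fun g => ?_).trans ?_
  · exact hom_nonneg (R := Mat m A) (R' := Mat N A) (emb (fun i => E (g, i)) (eg_inj E hE g))
      (ent_nonneg (act α g) m ht)
  · calc ∑ g, rk (trM T (Fin N)) (emb (fun i => E (g, i)) (eg_inj E hE g)
          (ent (act α g) m t)) ≤ ∑ _g : G, l := by
          refine Finset.sum_le_sum fun g _ => ?_
          rw [rk_emb _ _ _ (ent_nonneg _ _ ht), rk_ent _ _ _ ht]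
          exact h _ (pull_one α _ _ hT)
      _ = Fintype.card G * l := by
          rw [Finset.sum_const, Finset.card_univ, nsmul_eq_mul]

variable {B : Type w} [CStarAlgebra B] [PartialOrder B] [StarOrderedRing B]

theorem d_res_ltg (hQ : QAll A) (φ : A →⋆ₙₐ[ℂ] B) (h1 : φ 1 = 1) (σ : QT B) {n m : ℕ}
    {x : Mat n A} {y : Mat m A} (hx : 0 ≤ x) (hy : 0 ≤ y) (r ε : ℝ)
    (hxε : ∀ T : Tr A, T.f 1 = 1 → rk (trM T (Fin n)) x < ε)
    (hyr : ∀ T : Tr A, T.f 1 = 1 → r + ε ≤ rk (trM T (Fin m)) y) :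
    σ.d (ent φ n x) + r < σ.d (ent φ m y) := by
  rw [QT.d_res φ h1 σ x hx, QT.d_res φ h1 σ y hy]
  obtain ⟨T, hT1, hT⟩ := hQ (QT.res φ h1 σ)
  rw [hT n x hx, hT m y hy]
  have h2 := hxε T hT1
  have h3 := hyr T hT1
  linarith

theorem cp_comparisong (hA : SimpleC A) (hinf : ¬ FiniteDimensional ℂ A) (hQ : QAll A)
    (hUC : ∀ N : ℕ, UC (SSt (D := A) N)) (cp : CrossedProduct α B) (r : ℝ) (hr : 0 ≤ r) (hB : Comparison B r) (r' : ℝ)
    (hr' : Fintype.card G * r < r') : Comparison A r' := by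
  intro n n' a b ha hb hab
  set q : ℝ := (Fintype.card G : ℝ) with hq
  have hq0 : 0 < q := by
    rw [hq]
    exact_mod_cast Fintype.card_pos
  have hrq : r < r' / q := by
    rw [lt_div_iff₀ hq0, mul_comm]
    exact hr'
  set l : ℝ := (r + r' / q) / 2 with hl
  set ε : ℝ := (l - r) / 4 with hε
  have hlr : r < l := by rw [hl]; linarith
  have hlr' : l < r' / q := by rw [hl]; linarith
  have hε0 : 0 < ε := by rw [hε]; linarith
  have hm₀ : 0 < r' - q * l := by
    rw [lt_div_iff₀ hq0] at hlr'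
    linarith
  obtain ⟨K, t, ht, htl⟩ := exists_uniform hA hinf l ε (by linarith) hε0
  obtain ⟨δ, hδ0, hδ⟩ := dini' A K t ((((l - 2 * ε : ℝ)) : ℂ) • (1 : A)) ht (fun S => by
    have h1 := (htl S.1 S.2).1
    rw [map_smul, S.2, smul_eq_mul, mul_one, Complex.ofReal_re]
    linarith)
  set N : ℕ := n + n' + Fintype.card (G × Fin K) with hN
  let E : G × Fin K → Fin N := fun z =>
    Fin.castLE (by omega) (Fintype.equivFin (G × Fin K) z)
  have hE : Function.Injective E :=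
    (Fin.castLE_injective _).comp (Fintype.equivFin (G × Fin K)).injective
  have hn : n ≤ N := by omega
  have hn' : n' ≤ N := by omega
  refine cuntz_of_cz (Fin.castLE hn) (Fin.castLE_injective hn) (Fin.castLE hn')
    (Fin.castLE_injective hn') ?_
  have ha' : 0 ≤ emb (Fin.castLE hn) (Fin.castLE_injective hn) a :=
    hom_nonneg (R := Mat n A) (R' := Mat N A) _ ha
  have hb' : 0 ≤ emb (Fin.castLE hn') (Fin.castLE_injective hn') b :=
    hom_nonneg (R := Mat n' A) (R' := Mat N A) _ hb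
  refine assembleg (R := Mat N A) (C := Mat K A) (S := SSt N) (N : ℝ) (by
      rintro _ ⟨T, hT, rfl⟩
      exact (trM_one_re T hT N).le) (hUC N) (cpsi α E hE) (cF α E) q hq0.le
    (fun v hv => cF_nonneg α E hE hv) (fun v hv hL => cF_le α E hE hv hL)
    (SSt K) q hq0.le ?_ _ _ ha' hb' t ht _ hm₀ ?_ r ε δ hε0 hδ0 ?_ ?_
  · rintro v hv η hη h _ ⟨T, hT, rfl⟩
    exact cF_rkg α E hE hv η (fun T hT => (h _ ⟨T, hT, rfl⟩).le) T hT
  · rintro _ ⟨T, hT, rfl⟩
    have h1 := hab (QT.ofTr T hT)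
    rw [d_ofTr _ _ ha, d_ofTr _ _ hb] at h1
    have h2 := cpsi_rkg α E hE ht l (fun T hT => (htl T hT).2) T hT
    rw [rk_emb_le hn T ha, rk_emb_le hn' T hb]
    linarith
  · rintro _ ⟨T, hT, rfl⟩
    have h1 := hδ ⟨T, hT⟩
    rw [map_smul, hT, smul_eq_mul, mul_one, Complex.ofReal_re] at h1
    have h2 : r + 2 * ε = l - 2 * ε := by rw [hε]; ring
    rw [h2]
    exact h1.le
  · intro t1 ht1 hrt1 s hs hrs
    refine cz_of_cuntz E hE cp ?_
    refine hB N K _ _ (ent_nonneg _ _ hs) (ent_nonneg _ _ ht1) fun σ => ?_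
    exact d_res_ltg hQ cp.inc (map_one cp.ι) σ hs ht1 r ε (fun T hT => hrs _ ⟨T, hT, rfl⟩)
      fun T hT => hrt1 _ ⟨T, hT, rfl⟩

/-- `rc(A) ≤ |G| rc(C*(G, A, α))` -/
theorem cp_finalg (hA : SimpleCStar A) (hinf : ¬ FiniteDimensional ℂ A) (hQ : QAll A)
    (hUC : ∀ N : ℕ, UC (SSt (D := A) N)) (cp : CrossedProduct α B) : rc A ≤ Fintype.card G * rc B := by
  have h1 := rc_le_of (A := A) (B := B) (Fintype.card G : ℝ≥0)
    (by exact_mod_cast Fintype.card_ne_zero) (fun r hr r' hr' =>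
      cp_comparisong (simpleC_of hA) hinf hQ hUC cp r r.2 hr r' (by
        have : ((Fintype.card G : ℝ≥0) * r : ℝ≥0) < r' := hr'
        exact_mod_cast this))
  simpa using h1

end

end Run7.h450

/-!
# The fixed point algebra inequality for general trace simplices
-/

set_option autoImplicit false
set_option linter.unusedSectionVars false

namespace Run7.h450

open Filter Topology
open Pool.Agent.H327R4.Pure
open scoped ENNReal NNReal

universe u v w

section

variable {A : Type u} [CStarAlgebra A] [PartialOrder A] [StarOrderedRing A]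
variable {G : Type v} [Group G] [Fintype G] {α : G →* (A ≃⋆ₐ[ℂ] A)}
variable {D : Type w} [CStarAlgebra D] [PartialOrder D] [StarOrderedRing D]
variable {j : D →⋆ₐ[ℂ] A} (hj : IsFixedPointAlgebra α j)
variable {n : ℕ} (a : Fin n → A) (hfr : ∀ w, ∑ i, a i * j (EE hj (star (a i) * w)) = w)

theorem QT.d_rho_leg (hQ : QAll A) (σ : QT D) : ∃ T : Tr A, T.f 1 = 1 ∧
    ∀ (N : ℕ) (x : Mat N A), 0 ≤ x → ∀ η : ℝ, 0 ≤ η → rk (trM T (Fin N)) x ≤ η →
      σ.d (rho hj a hfr N x) ≤ n * η := by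
  obtain ⟨T, hT1, hT⟩ := hQ (σ.pullRho hj a hfr)
  refine ⟨T, hT1, fun N x hx η hη h => ?_⟩
  rw [σ.d_rho hj a hfr hx, hT N x hx]
  have h2 := σ.mass_ge hj a hfr
  exact (mul_le_mul_of_nonneg_left h (by linarith)).trans
    (mul_le_mul_of_nonneg_right (σ.mass_le hj a hfr) hη)

theorem rk_rho_leg (S : Tr D) (hS : S.f 1 = 1) {N : ℕ} {x : Mat N A} (hx : 0 ≤ x) (η : ℝ)
    (hη : 0 ≤ η) (h : ∀ T : Tr A, T.f 1 = 1 → rk (trM T (Fin N)) x ≤ η) :
    rk (trM S (Fin (N * n))) (rho hj a hfr N x) ≤ n * η := by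
  rw [rk_rho hj a hfr S hx]
  exact rk_scale_le _ n (mass_tr hj a hfr S hS) hx η hη h

include hfr in
/-- quasitraces of `D` are at least as large as the smallest trace on ranks -/
theorem transferg (hQ : QAll A) {m : ℕ} {x : Mat m D}
    (hx : 0 ≤ x) (lam : ℝ) (h : ∀ S : Tr D, S.f 1 = 1 → lam ≤ rk (trM S (Fin m)) x) (σ : QT D) :
    lam ≤ σ.d x := by
  obtain ⟨Tσ, hTσ1, hTσ⟩ := QT.d_rho_leg hj a hfr hQ σ
  by_contra hcon
  push Not at hcon
  obtain ⟨q, hq1, hq2⟩ := exists_rat_btwn hcon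
  have hdx := σ.d_nonneg hx
  have hq0 : (0 : ℝ) < q := lt_of_le_of_lt hdx hq1
  have hq0' : 0 < q := by exact_mod_cast hq0
  set N' : ℕ := q.den with hN'
  set M' : ℕ := q.num.toNat with hM'
  have hN0 : (0 : ℝ) < N' := by exact_mod_cast q.den_pos
  have hnum : (M' : ℤ) = q.num := Int.toNat_of_nonneg (Rat.num_nonneg.mpr hq0'.le)
  have hqe : (q : ℝ) = M' / N' := by
    have h1 : (q : ℝ) = (q.num : ℝ) / (q.den : ℝ) := by exact_mod_cast (Rat.num_div_den q).symm
    rw [h1, ← hnum]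
    push_cast
    rfl
  have h1 : N' * σ.d x < M' := by
    rw [hqe, lt_div_iff₀ hN0] at hq1
    linarith
  have h2 : (M' : ℝ) < N' * lam := by
    rw [hqe, div_lt_iff₀ hN0] at hq2
    linarith
  set L : ℕ := M' + N' * m with hL
  let e₀ : Fin M' → Fin L := Fin.castAdd (N' * m)
  have he₀ : Function.Injective e₀ := Fin.castAdd_injective _ _
  let e : Fin N' → Fin m → Fin L := fun l i => Fin.natAdd M' (ix l i)
  have he : ∀ l, Function.Injective (e l) := by
    intro l i i' hi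
    exact (ix_inj (Fin.natAdd_injective _ _ hi)).2
  have hd : ∀ l l', l ≠ l' → ∀ i i', e l i ≠ e l' i' := by
    intro l l' hl i i' hi
    exact hl (ix_inj (Fin.natAdd_injective _ _ hi)).1
  obtain ⟨hb0, hbT, hbσ⟩ := copies e he hd hx
  set b : Mat L D := ∑ l, emb (e l) (he l) x with hb
  set a' : Mat L D := emb e₀ he₀ 1 with ha'
  have ha0 : 0 ≤ a' := hom_nonneg (R := Mat M' D) (R' := Mat L D) _ zero_le_one
  have haσ : σ.d a' = M' := by rw [ha', σ.d_emb _ _ zero_le_one, σ.d_one]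
  have hm₀ : 0 < N' * lam - M' := by linarith
  set η : ℝ := (M' - N' * σ.d x) / (2 * ((n : ℝ) + 1)) with hη
  have hη0 : 0 < η := div_pos (by linarith) (by positivity)
  obtain ⟨v, p, w, hv, hp, hw, -, hLw, hle, hcz, hrv⟩ := uc2 L
    (fun _ : Unit => trM (Tr.pull (jj j) Tσ) (Fin L)) (N' * lam - M') hm₀ a' b ha0 hb0 (by
      rintro S ⟨S', hS', rfl⟩
      rw [ha', rk_emb S' e₀ he₀ (zero_le_one (α := Mat M' D)), rk_one S' hS', hbT]
      have := mul_le_mul_of_nonneg_left (h S' hS') hN0.le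
      linarith) η hη0
  have h3 : σ.d a' ≤ σ.d b + σ.d v := by
    refine (σ.d_mono ha0 hle).trans ?_
    refine (qd_smul_le (σ.quasi L) (add_nonneg hp hv) 2 (by norm_num)).trans ?_
    refine (σ.d_add_le hp hv).trans ?_
    have h4 := σ.d_cz hp hw hcz
    have h5 := σ.d_cz hw hb0 (InL.cz hb0 hw hLw)
    linarith
  have h4 : σ.d v ≤ n * η := by
    have hjv : 0 ≤ ent (jj j) L v := ent_nonneg _ _ hv
    refine (σ.d_cuntz hv (hom_nonneg (rho hj a hfr L) hjv) (cuntz_rho_j hj a hfr hv)).trans ?_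
    refine hTσ L _ hjv η hη0.le ?_
    rw [rk_ent (jj j) Tσ L hv]
    exact (hrv ()).le
  rw [haσ, hbσ] at h3
  have h5 : (n : ℝ) * η ≤ (M' - N' * σ.d x) / 2 := by
    have : (n : ℝ) * η = (M' - N' * σ.d x) / 2 * (n / (n + 1)) := by
      rw [hη]
      field_simp
    rw [this]
    have h6 : (n : ℝ) / (n + 1) ≤ 1 := by
      rw [div_le_one (by positivity)]
      linarith
    have h7 : 0 ≤ (M' - N' * σ.d x) / 2 := by linarith
    nlinarith
  linarith

variable {m N : ℕ} (e : Fin m → Fin N) (he : Function.Injective e)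

include he in
theorem ent_fF_rkg {v : Mat N A} (hv : 0 ≤ v) (η : ℝ)
    (h : ∀ T : Tr A, T.f 1 = 1 → rk (trM T (Fin N)) v ≤ η) (T : Tr A) (hT : T.f 1 = 1) :
    rk (trM T (Fin m)) (ent (jj j) m (fF hj e v)) ≤ Fintype.card G * η := by
  rw [ent_fF]
  refine (rk_sum_le Finset.univ _ _ fun g => ent_nonneg _ _ (cor_nonneg e he hv)).trans ?_
  calc ∑ g, rk (trM T (Fin m)) (ent (act α g) m (cor e v))
      ≤ ∑ _g : G, η := by
        refine Finset.sum_le_sum fun g _ => ?_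
        rw [rk_ent _ _ _ (cor_nonneg e he hv)]
        exact (rk_cor_le _ _ he hv).trans (h _ (pull_one α _ _ hT))
    _ = Fintype.card G * η := by
        rw [Finset.sum_const, Finset.card_univ, nsmul_eq_mul]

include hj in
theorem fix_comparisong (hA : SimpleC A) (hinf : ¬ FiniteDimensional ℂ A) (hQ : QAll A)
    (hUC : ∀ N : ℕ, UC (SSt (D := A) N)) (r : ℝ) (hr : 0 ≤ r) (hD : Comparison D r) (r' : ℝ) (hr' : r < r') :
    Comparison A r' := by
  obtain ⟨n, fr, hfr⟩ := exists_frame hj hA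
  intro n₁ n₂ a b ha hb hab
  set l : ℝ := (r + r') / 2 with hl
  set ε : ℝ := (l - r) / ((n : ℝ) + 4) with hε
  have hlr : r < l := by rw [hl]; linarith
  have hlr' : l < r' := by rw [hl]; linarith
  have hε0 : 0 < ε := div_pos (by linarith) (by positivity)
  have hεn : (n + 4) * ε = l - r := by
    rw [hε]
    field_simp
  obtain ⟨m, t, ht, htl⟩ := exists_unif hj fr hfr hA hinf l ε (by linarith) hε0
  obtain ⟨δ, hδ0, hδ⟩ := dini' D m t ((((l - 2 * ε : ℝ)) : ℂ) • (1 : D)) ht (fun S => by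
    have h1 := (htl S.1 S.2).1
    rw [map_smul, S.2, smul_eq_mul, mul_one, Complex.ofReal_re]
    linarith)
  set N : ℕ := n₁ + n₂ + m with hN
  have hn₁ : n₁ ≤ N := by omega
  have hn₂ : n₂ ≤ N := by omega
  have hm : m ≤ N := by omega
  refine cuntz_of_cz (Fin.castLE hn₁) (Fin.castLE_injective hn₁) (Fin.castLE hn₂)
    (Fin.castLE_injective hn₂) ?_
  have ha' : 0 ≤ emb (Fin.castLE hn₁) (Fin.castLE_injective hn₁) a :=
    hom_nonneg (R := Mat n₁ A) (R' := Mat N A) _ ha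
  have hb' : 0 ≤ emb (Fin.castLE hn₂) (Fin.castLE_injective hn₂) b :=
    hom_nonneg (R := Mat n₂ A) (R' := Mat N A) _ hb
  set e : Fin m → Fin N := Fin.castLE hm with he'
  have he : Function.Injective e := Fin.castLE_injective hm
  refine assembleg (R := Mat N A) (C := Mat m D) (S := SSt N) (N : ℝ) (by
      rintro _ ⟨T, hT, rfl⟩
      exact (trM_one_re T hT N).le) (hUC N) (fpsi (j := j) e he) (fF hj e) 1 zero_le_one
    (fun v hv => fF_nonneg hj e he hv) (fun v hv hL => fF_le hj e he hv hL)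
    (SSt m) (n * Fintype.card G) (by positivity) ?_ _ _ ha' hb' t ht (r' - l) (by linarith) ?_
    (r + n * ε) ε δ hε0 hδ0 ?_ ?_
  · rintro v hv η hη h _ ⟨S', hS', rfl⟩
    have hF0 := fF_nonneg hj e he hv
    have hjF : 0 ≤ ent (jj j) m (fF hj e v) := ent_nonneg _ _ hF0
    refine (rk_cuntz S' hF0 (hom_nonneg (rho hj fr hfr m) hjF)
      (cuntz_rho_j hj fr hfr hF0)).trans ?_
    refine (rk_rho_leg hj fr hfr S' hS' hjF (Fintype.card G * η) (by positivity)
      fun T hT => ent_fF_rkg hj e he hv η (fun T hT => (h _ ⟨T, hT, rfl⟩).le) T hT).trans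
      (le_of_eq (by ring))
  · rintro _ ⟨T, hT, rfl⟩
    have h1 := hab (QT.ofTr T hT)
    rw [d_ofTr _ _ ha, d_ofTr _ _ hb] at h1
    have h2 : rk (trM T (Fin N)) (fpsi (j := j) e he t) ≤ l := by
      rw [fpsi_apply, rk_emb _ _ _ (ent_nonneg _ _ ht), rk_ent _ _ _ ht]
      exact (htl (Tr.pull (jj j) T) (by rw [Tr.pull_apply, jj_one, hT])).2
    rw [rk_emb_le hn₁ T ha, rk_emb_le hn₂ T hb]
    linarith
  · rintro _ ⟨S', hS', rfl⟩
    have h1 := hδ ⟨S', hS'⟩
    rw [map_smul, hS', smul_eq_mul, mul_one, Complex.ofReal_re] at h1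
    have h2 : (r + n * ε) + 2 * ε = l - 2 * ε := by linarith
    rw [h2]
    exact h1.le
  · intro t1 ht1 hrt1 s hs hrs
    have h1 : Cuntz (rho hj fr hfr N s) t1 := by
      refine hD _ _ _ _ (hom_nonneg (rho hj fr hfr N) hs) ht1 fun σ => ?_
      obtain ⟨Tσ, hTσ1, hTσ⟩ := QT.d_rho_leg hj fr hfr hQ σ
      have h2 : σ.d (rho hj fr hfr N s) ≤ n * ε :=
        hTσ N s hs ε hε0.le (hrs _ ⟨Tσ, hTσ1, rfl⟩).le
      have h3 : r + n * ε + ε ≤ σ.d t1 :=
        transferg hj fr hfr hQ ht1 _ (fun S hS => hrt1 _ ⟨S, hS, rfl⟩) σ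
      linarith
    have h2 : Cuntz s (ent (jj j) m t1) :=
      cuntz_trans (cuntz_rho hj fr hfr hs) (cuntz_map (jj j) h1)
    rw [fpsi_apply]
    exact cz_of_cuntz_right e he h2

include hj in
/-- `rc(A) ≤ rc(A^α)` -/
theorem fix_finalg (hA : SimpleCStar A) (hinf : ¬ FiniteDimensional ℂ A) (hQ : QAll A)
    (hUC : ∀ N : ℕ, UC (SSt (D := A) N)) : rc A ≤ rc D := by
  have h1 := rc_le_of (A := A) (B := D) 1 one_ne_zero (fun r hr r' hr' =>
      fix_comparisong hj (simpleC_of hA) hinf hQ hUC r r.2 hr r' (by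
        rw [one_mul] at hr'
        exact_mod_cast hr'))
  simpa using h1

end

end Run7.h450
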