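import Pool.Agent.Run7.h450.W6

/-!
# The radius of comparison for finite systems, and the final result
-/

set_option autoImplicit false
set_option linter.unusedSectionVars false

namespace Run7.h450.Dyn

open Filter Topology
open Pool.Agent.H327R4.Pure
open scoped ENNReal NNReal

universe u v w

theorem cz_map {R : Type v} {R' : Type w} [CStarAlgebra R] [CStarAlgebra R'] (φ : R →⋆ₙₐ[ℂ] R')
    {a b : R} (h : Cz a b) : Cz (φ a) (φ b) := by
  obtain ⟨x, hx⟩ := h
  refine ⟨fun k => φ (x k), ?_⟩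
  have hc : Continuous φ :=
    (AddMonoidHomClass.continuous_of_bound φ 1 fun x => by
      rw [one_mul]; exact NonUnitalStarAlgHom.norm_apply_le _ x)
  refine ((hc.tendsto _).comp hx).congr fun k => ?_
  show φ (x k * b * star (x k)) = _
  rw [map_mul, map_mul, map_star]

section

open scoped ComplexOrder

variable {X : Type u} [TopologicalSpace X] [CompactSpace X] [T2Space X] [Finite X] {h : X ≃ₜ X}
  {B : Type v} [CStarAlgebra B] [PartialOrder B] [StarOrderedRing B]

/-- comparison for finite minimal systems -/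
theorem Cyc.comparison (c : Cyc h) (C : Crossed h B) (r : ℝ) (hr : 0 ≤ r) : Comparison B r := by
  obtain ⟨Ψ, hΨ⟩ := c.exists_Psi C
  set Ψn : B →⋆ₙₐ[ℂ] Mat c.m DT.{v} := (Ψ : B →⋆ₙₐ[ℂ] Mat c.m DT.{v}) with hΨn
  set Θn : Mat c.m DT.{v} →⋆ₙₐ[ℂ] B := (c.Th C : Mat c.m DT.{v} →⋆ₙₐ[ℂ] B) with hΘn
  intro n₁ n' a b ha hb hab
  set N : ℕ := n₁ + n' with hN
  have hn₁ : n₁ ≤ N := by omega
  have hn' : n' ≤ N := by omega
  refine cuntz_of_cz (Fin.castLE hn₁) (Fin.castLE_injective hn₁) (Fin.castLE hn')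
    (Fin.castLE_injective hn') ?_
  set ea : Mat N B := emb (Fin.castLE hn₁) (Fin.castLE_injective hn₁) a with hea
  set eb : Mat N B := emb (Fin.castLE hn') (Fin.castLE_injective hn') b with heb
  have ha' : 0 ≤ ea := hom_nonneg (R := Mat n₁ B) (R' := Mat N B) _ ha
  have hb' : 0 ≤ eb := hom_nonneg (R := Mat n' B) (R' := Mat N B) _ hb
  have hback : ∀ z : Mat N B, ent Θn N (ent Ψn N z) = z := by
    intro z
    ext p q
    exact hΨ _
  rw [← hback ea, ← hback eb]
  refine cz_map (ent Θn N) (cz_of_flat ?_)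
  have hea0 : 0 ≤ ent Ψn N ea := ent_nonneg _ _ ha'
  have heb0 : 0 ≤ ent Ψn N eb := ent_nonneg _ _ hb'
  have hfa : 0 ≤ flat N c.m (ent Ψn N ea) :=
    hom_nonneg (R := Mat N (Mat c.m DT.{v})) (R' := Mat (N * c.m) DT.{v}) _ hea0
  have hfb : 0 ≤ flat N c.m (ent Ψn N eb) :=
    hom_nonneg (R := Mat N (Mat c.m DT.{v})) (R' := Mat (N * c.m) DT.{v}) _ heb0
  refine ct_cz hfa hfb fun t => ?_
  -- the trace at the point `t`
  set S : Tr (Mat c.m DT.{v}) := trM (Tr.pull (ev t) idTr) (Fin c.m) with hS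
  have hrk : ∀ z : Mat N B, 0 ≤ z →
      rk (trM idTr (Fin (N * c.m))) (ent (ev t) (N * c.m) (flat N c.m (ent Ψn N z))) =
      rk (trM (Tr.pull Ψn S) (Fin N)) z := by
    intro z hz
    have h1 : 0 ≤ ent Ψn N z := ent_nonneg _ _ hz
    have h2 : 0 ≤ flat N c.m (ent Ψn N z) :=
      hom_nonneg (R := Mat N (Mat c.m DT.{v})) (R' := Mat (N * c.m) DT.{v}) _ h1
    rw [rk_ent (ev t) idTr (N * c.m) h2, rk_flat _ h1, rk_ent Ψn S N hz]
  rw [hrk ea ha', hrk eb hb']
  have hm0 : (0 : ℝ) < c.m := by exact_mod_cast c.pos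
  have hS1 : S.f 1 = c.m := by
    rw [hS, trM_apply]
    have h2 : ∀ i : Fin c.m, (Tr.pull (ev t) idTr).f ((1 : Mat c.m DT.{v}) i i) = 1 := fun i => by
      rw [CStarMatrix.one_apply, if_pos rfl]
      rfl
    rw [Finset.sum_congr rfl fun i _ => h2 i, Finset.sum_const, Finset.card_univ,
      Fintype.card_fin, nsmul_eq_mul, mul_one]
  have hT1 : (Tr.scale (1 / c.m) (by positivity) (Tr.pull Ψn S)).f 1 = 1 := by
    show ((1 / c.m : ℝ) : ℂ) * S.f (Ψn 1) = 1
    have h1 : Ψn 1 = 1 := map_one Ψ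
    rw [h1, hS1]
    push_cast
    have : (c.m : ℂ) ≠ 0 := by exact_mod_cast c.pos.ne'
    field_simp
  have h1 := hab (TState.ofTr _ hT1)
  rw [TState.d_ofTr _ _ ha, TState.d_ofTr _ _ hb, ← rk_emb_le hn₁ _ ha, ← rk_emb_le hn' _ hb] at h1
  have hsc : ∀ z : Mat N B, 0 ≤ z →
      rk (trM (Tr.scale (1 / c.m) (by positivity) (Tr.pull Ψn S)) (Fin N)) z =
      1 / c.m * rk (trM (Tr.pull Ψn S) (Fin N)) z := by
    intro z hz
    have h2 := rk_comb (ι := Fin 1)
      (trM (Tr.scale (1 / c.m) (by positivity) (Tr.pull Ψn S)) (Fin N))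
      (fun _ => trM (Tr.pull Ψn S) (Fin N)) (fun _ => (1 / c.m : ℝ)) (fun x => by
        rw [Fin.sum_univ_one, trM_apply, trM_apply, Finset.mul_sum]
        rfl) hz
    rw [h2, Fin.sum_univ_one]
  rw [hsc ea ha', hsc eb hb'] at h1
  have h3 : 1 / (c.m : ℝ) * rk (trM (Tr.pull Ψn S) (Fin N)) ea ≤
      1 / (c.m : ℝ) * rk (trM (Tr.pull Ψn S) (Fin N)) eb := by linarith
  exact le_of_mul_le_mul_left h3 (by positivity)

end

section

variable {X : Type u} [TopologicalSpace X] [CompactSpace X] [T2Space X] [Finite X] {h : X ≃ₜ X}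
  {B : Type v} [CStarAlgebra B] [PartialOrder B] [StarOrderedRing B]

/-- the radius of comparison is zero for finite minimal systems -/
theorem rc_finite (hm : Minimal h) (C : Crossed h B) : rc B = 0 := by
  have hcomp : Comparison B (0 : ℝ≥0) := by
    rcases isEmpty_or_nonempty X with hX | hX
    · -- the zero algebra
      have h1 : (1 : B) = 0 := by
        have h2 : (1 : C(X, ℂ)) = 0 := by
          ext x
          exact hX.elim x
        rw [← map_one C.ι, h2, map_zero]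
      have hsub : Subsingleton B := subsingleton_of_zero_eq_one h1.symm
      intro n₁ n' a b _ _ _
      refine ⟨fun _ => 0, ?_⟩
      have h2 : (fun k : ℕ => (0 : CStarMatrix (Fin n₁) (Fin n') B) * b *
          (0 : CStarMatrix (Fin n₁) (Fin n') B).conjTranspose) = fun _ => a := by
        funext k
        ext p q
        exact Subsingleton.elim _ _
      rw [h2]
      exact tendsto_const_nhds
    · obtain ⟨x₀, m, σ, h1, h2, h3⟩ := exists_cycle hm
      exact (Cyc.mk x₀ m σ h1 h2 h3 : Cyc h).comparison C _ le_rfl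
  have h1 : rc B ≤ ((0 : ℝ≥0) : ℝ≥0∞) := iInf₂_le (0 : ℝ≥0) hcomp
  exact le_antisymm (by simpa using h1) (by positivity)

end

section

variable {X : Type u} [TopologicalSpace X] [CompactSpace X] [T2Space X]
  {h : X ≃ₜ X} {n : ℕ} {A B : Type v} [CStarAlgebra A] [PartialOrder A] [StarOrderedRing A]
  [CStarAlgebra B] [PartialOrder B] [StarOrderedRing B]

theorem minimal_of_pow' {Y : Type u} [TopologicalSpace Y] {k : Y ≃ₜ Y} {l : ℕ}
    (hm : Minimal (k ^ l)) : Minimal k := by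
  intro x
  refine (hm x).mono ?_
  rintro _ ⟨j, rfl⟩
  refine ⟨l * j, ?_⟩
  show (k ^ ((l : ℤ) * j)) x = ((k ^ l) ^ j) x
  rw [zpow_mul, zpow_natCast]

/-- `rc(C*(Z, X, h^n)) = n rc(C*(Z, X, h))` for all compact Hausdorff spaces -/
theorem rc_pow_all (hn : n ≠ 0) (hm : Minimal (h ^ n)) (CA : Crossed (h ^ n) A)
    (CB : Crossed h B) : rc A = n * rc B := by
  rcases finite_or_infinite X with hX | hX
  · rw [rc_finite hm CA, rc_finite (minimal_of_pow' hm) CB, mul_zero]
  · exact rc_pow hn hm CA CB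

end

end Run7.h450.Dyn
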