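import Pool.Agent.Run7.h450.Defs2

/-!
# The weak tracial Rokhlin property: definitions
-/

set_option autoImplicit false

namespace Run7.h450

open Filter Topology

universe u v

variable {A : Type u} [CStarAlgebra A] [PartialOrder A] [StarOrderedRing A]
variable {G : Type v} [Group G] [Fintype G]

/-- the weak tracial Rokhlin property -/
def WeakTracialRokhlin (α : G →* (A ≃⋆ₐ[ℂ] A)) : Prop :=
  ∀ (ε : ℝ) (F : Finset A) (x : A), 0 < ε → 0 ≤ x → ‖x‖ = 1 → ∃ f : G → A,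
    (∀ g, 0 ≤ f g ∧ f g ≤ 1) ∧ (∀ g h, g ≠ h → f g * f h = 0) ∧
    (∀ g, ∀ a ∈ F, ‖f g * a - a * f g‖ < ε) ∧ (∀ g h, ‖α g (f h) - f (g * h)‖ < ε) ∧
    (∃ v : ℕ → A, Tendsto (fun n => v n * x * star (v n)) atTop (𝓝 (1 - ∑ g, f g))) ∧
    1 - ε < ‖(∑ g, f g) * x * (∑ g, f g)‖

/-- some nontrivial element `g` of the group leaves all quasitraces of `A` invariant:
`τ(α_g(x)) = τ(x)` -/
def SomeFixesTraces (α : G →* (A ≃⋆ₐ[ℂ] A)) : Prop :=
  ∃ g : G, g ≠ 1 ∧ ∀ (τ : QT A) (x : A), τ.ev (α g x) = τ.ev x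

end Run7.h450
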