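import Pool.Agent.Run7.h450.Q11
import Pool.Agent.Run7.h450.Defs4

/-!
# Towers of actions with the weak tracial Rokhlin property

If some `g ≠ 1` leaves all traces invariant then there are partitions of unity as in uniform
property Gamma.
-/

set_option autoImplicit false
set_option linter.unusedSectionVars false

namespace Run7.h450

open Filter Topology
open Pool.Agent.H327R4.Pure

universe u v

section

variable {A : Type u} [CStarAlgebra A] [PartialOrder A] [StarOrderedRing A]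

/-- sums of pairwise orthogonal positive contractions are contractions -/
theorem sum_orth_le_one {ι : Type v} [Fintype ι] {f : ι → A} (h0 : ∀ i, 0 ≤ f i)
    (h1 : ∀ i, f i ≤ 1) (ho : ∀ i j, i ≠ j → f i * f j = 0) : ∑ i, f i ≤ 1 := by
  classical
  have hs0 : 0 ≤ ∑ i, f i := Finset.sum_nonneg fun i _ => h0 i
  have hsq : (∑ i, f i) * (∑ i, f i) ≤ ∑ i, f i := by
    rw [Finset.sum_mul_sum]
    have e : ∀ i, ∑ j, f i * f j = f i * f i := fun i =>
      Finset.sum_eq_single i (fun j _ hj => ho i j (Ne.symm hj)) (fun h => absurd (Finset.mem_univ i) h)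
    rw [Finset.sum_congr rfl fun i _ => e i]
    exact Finset.sum_le_sum fun i _ => mul_self_le (h0 i) (h1 i)
  have hsa : IsSelfAdjoint (∑ i, f i) := IsSelfAdjoint.of_nonneg hs0
  have hn : ‖∑ i, f i‖ * ‖∑ i, f i‖ ≤ ‖∑ i, f i‖ := by
    rw [← CStarRing.norm_star_mul_self, hsa.star_eq]
    refine CStarAlgebra.norm_le_norm_of_nonneg_of_le ?_ hsq
    rw [← hsa.star_eq]
    nth_rewrite 2 [hsa.star_eq]
    exact star_mul_self_nonneg _
  refine (CStarAlgebra.norm_le_one_iff_of_nonneg _ hs0).mp ?_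
  by_contra hcon
  push Not at hcon
  nlinarith

/-- the raw towers -/
def RawTower {G : Type v} [Group G] [Fintype G] (α : G →* (A ≃⋆ₐ[ℂ] A)) : Prop :=
  ∀ (F : Finset A) (ε : ℝ), 0 < ε → ∃ f : G → A, (∀ g, 0 ≤ f g) ∧ (∀ g, f g ≤ 1) ∧
    (∀ g h, g ≠ h → f g * f h = 0) ∧ (∀ g, ∀ a ∈ F, ‖f g * a - a * f g‖ ≤ ε) ∧
    (∀ g h, ‖α g (f h) - f (g * h)‖ ≤ ε) ∧ ∀ T : Tr A, T.f 1 = 1 → (T.f (1 - ∑ g, f g)).re ≤ ε

variable {G : Type v} [Group G] [Fintype G] {α : G →* (A ≃⋆ₐ[ℂ] A)}

theorem rawTower_of (hA : SimpleC A) (hinf : ¬ FiniteDimensional ℂ A)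
    (h : WeakTracialRokhlin α) : RawTower α := by
  intro F ε hε
  obtain ⟨N, hN⟩ := exists_nat_gt (1 / ε)
  have hN0 : (0 : ℝ) < N := lt_of_le_of_lt (by positivity) hN
  obtain ⟨c, hc0, hcne, hc⟩ := small' A hA hinf N
  have hcn : 0 < ‖c‖ := norm_pos_iff.mpr hcne
  set x : A := ‖c‖⁻¹ • c with hx
  have hx0 : 0 ≤ x := smul_nonneg (by positivity) hc0
  have hx1 : ‖x‖ = 1 := by
    rw [hx, norm_smul, norm_inv, norm_norm, inv_mul_cancel₀ hcn.ne']
  obtain ⟨f, hf1, hf2, hf3, hf4, ⟨v, hv⟩, -⟩ := h ε F x hε hx0 hx1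
  have hsum : ∑ g, f g ≤ 1 := sum_orth_le_one (fun g => (hf1 g).1) (fun g => (hf1 g).2) hf2
  refine ⟨f, fun g => (hf1 g).1, fun g => (hf1 g).2, hf2, fun g a ha => (hf3 g a ha).le,
    fun g h => (hf4 g h).le, fun T hT => ?_⟩
  have h1 : 0 ≤ 1 - ∑ g, f g := sub_nonneg.mpr hsum
  have h2 : 1 - ∑ g, f g ≤ 1 := sub_le_self _ (Finset.sum_nonneg fun g _ => (hf1 g).1)
  have h3 := tr_le_rk T h1 h2
  have h4 : rk T (1 - ∑ g, f g) ≤ rk T x := rk_cz T h1 hx0 ⟨v, hv⟩
  have h5 : rk T x ≤ rk T c := rk_smul_le T hc0 _ (by positivity)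
  have h6 := hc T
  rw [hT, Complex.one_re] at h6
  have h7 : rk T c ≤ 1 / N := by
    rw [le_div_iff₀ hN0]
    linarith
  have h8 : 1 / (N : ℝ) ≤ ε := by
    rw [div_le_iff₀ hN0]
    rw [div_lt_iff₀ hε] at hN
    linarith
  linarith

/-- restriction to a subgroup -/
theorem RawTower.restrict (h : RawTower α) (H : Subgroup G) [Fintype H] :
    RawTower (α.comp H.subtype) := by
  classical
  intro F ε hε
  set K : ℝ := (Fintype.card (G ⧸ H) : ℝ) with hK
  have hK0 : 0 ≤ K := Nat.cast_nonneg _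
  set ε' : ℝ := ε / (K + 1) with hε'
  have hε'0 : 0 < ε' := by positivity
  have hKε : K * ε' ≤ ε := by
    rw [hε', mul_div_assoc', div_le_iff₀ (by positivity)]
    nlinarith
  have hε'1 : ε' ≤ ε := by
    rw [hε', div_le_iff₀ (by positivity)]
    nlinarith
  obtain ⟨f, hf0, hf1, ho, hc, ht, hs⟩ := h F ε' hε'0
  let E : H × (G ⧸ H) → G := fun z => (z.1 : G) * (z.2.out)⁻¹
  have hE : Function.Injective E := by
    rintro ⟨s, c⟩ ⟨s', c'⟩ hh
    have h1 : (s : G) * (c.out)⁻¹ = (s' : G) * (c'.out)⁻¹ := hh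
    have h2 : c.out⁻¹ * c'.out = (s : G)⁻¹ * s' := by
      have := congrArg (fun z => (s : G)⁻¹ * z * c'.out) h1
      simpa [mul_assoc] using this
    have h3 : c = c' := by
      have h4 : (c.out : G ⧸ H) = (c'.out : G ⧸ H) := by
        rw [QuotientGroup.eq, h2]
        exact H.mul_mem (H.inv_mem s.2) s'.2
      simpa using h4
    subst h3
    have h5 : (s : G) = s' := mul_right_cancel h1
    exact Prod.ext (Subtype.ext h5) rfl
  have hcard : Fintype.card (H × (G ⧸ H)) = Fintype.card G := by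
    rw [Fintype.card_prod]
    have := H.card_eq_card_quotient_mul_card_subgroup
    rw [Nat.card_eq_fintype_card, Nat.card_eq_fintype_card, Nat.card_eq_fintype_card] at this
    rw [this, mul_comm]
  have hEb : Function.Bijective E :=
    (Fintype.bijective_iff_injective_and_card E).mpr ⟨hE, hcard⟩
  have hEmul : ∀ (t s : H) (c : G ⧸ H), (t : G) * E (s, c) = E (t * s, c) := by
    intro t s c
    show (t : G) * ((s : G) * (c.out)⁻¹) = ((t * s : H) : G) * (c.out)⁻¹
    rw [Subgroup.coe_mul, mul_assoc]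
  set f' : H → A := fun s => ∑ c, f (E (s, c)) with hf'
  have hf'0 : ∀ s, 0 ≤ f' s := fun s => Finset.sum_nonneg fun c _ => hf0 _
  have hsum : ∑ s, f' s = ∑ g, f g := by
    rw [hf', ← Fintype.sum_prod_type' (fun s c => f (E (s, c)))]
    exact hEb.sum_comp f
  refine ⟨f', hf'0, fun s => ?_, fun s t hst => ?_, fun s a ha => ?_, fun t s => ?_,
    fun T hT => ?_⟩
  · refine sum_orth_le_one (fun c => hf0 _) (fun c => hf1 _) fun c c' hcc => ho _ _ fun h => hcc ?_
    exact (Prod.ext_iff.mp (hE h)).2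
  · rw [hf']
    simp only
    rw [Finset.sum_mul_sum]
    refine Finset.sum_eq_zero fun c _ => Finset.sum_eq_zero fun c' _ => ho _ _ fun h => hst ?_
    exact (Prod.ext_iff.mp (hE h)).1
  · have e : f' s * a - a * f' s = ∑ c, (f (E (s, c)) * a - a * f (E (s, c))) := by
      rw [Finset.sum_sub_distrib, hf', Finset.sum_mul, Finset.mul_sum]
    rw [e]
    refine (norm_sum_le_of_le _ fun c _ => hc _ a ha).trans ?_
    rw [Finset.sum_const, Finset.card_univ, nsmul_eq_mul]
    exact hKε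
  · have e : (α.comp H.subtype) t (f' s) - f' (t * s) =
        ∑ c, (α t (f (E (s, c))) - f (t * E (s, c))) := by
      rw [Finset.sum_sub_distrib]
      congr 1
      · show α t (∑ c, f (E (s, c))) = _
        rw [map_sum]
      · rw [hf']
        exact Finset.sum_congr rfl fun c _ => by rw [hEmul]
    rw [e]
    refine (norm_sum_le_of_le _ fun c _ => ht _ _).trans ?_
    rw [Finset.sum_const, Finset.card_univ, nsmul_eq_mul]
    exact hKε
  · rw [hsum]
    exact (hs T hT).trans hε'1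

end

section

variable {A : Type u} [CStarAlgebra A] [PartialOrder A] [StarOrderedRing A]

theorem norm_tr_le (T : Tr A) (hT : T.f 1 = 1) (y : A) : ‖T.f y‖ ≤ ‖y‖ := by
  have h1 := cs T 1 y
  have h2 : N2 T (1 : A) = 1 := by
    unfold N2
    rw [star_one, mul_one, hT, Complex.one_re]
  have h3 := N2_mul_left T y 1
  rw [mul_one, h2, mul_one] at h3
  rw [h2, star_one, one_mul, one_mul] at h1
  exact abs_le_of_sq_le_sq' (by
    simpa using h1.trans h3) (norm_nonneg _) |>.2

theorem ultra_lim {ι : Type v} (U : Ultrafilter ι) (z : ι → ℂ) (C : ℝ) (hz : ∀ i, ‖z i‖ ≤ C) :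
    ∃ l : ℂ, Tendsto z U (𝓝 l) := by
  have hc : IsCompact (Metric.closedBall (0 : ℂ) C) := isCompact_closedBall 0 C
  obtain ⟨l, -, hl⟩ := hc.ultrafilter_le_nhds (U.map z) (by
    rw [le_principal_iff]
    refine Ultrafilter.mem_map.mpr (Filter.univ_mem' fun i => ?_)
    simpa using hz i)
  exact ⟨l, hl⟩

/-- invariance of all traces follows from invariance of the normalised ones -/
theorem all_inv {β : A →⋆ₙₐ[ℂ] A}
    (h : ∀ T : Tr A, T.f 1 = 1 → ∀ x, T.f (β x) = T.f x)
    (S : Tr A) (x : A) : S.f (β x) = S.f x := by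
  have hm := (mt' A S).2.1 1 zero_le_one
  by_cases h0 : (S.f 1).re = 0
  · rw [tr_eq_zero S h0, tr_eq_zero S h0]
  · have hpos : 0 < (S.f 1).re := lt_of_le_of_ne hm.1 (Ne.symm h0)
    have hS1 : S.f 1 = ((S.f 1).re : ℂ) := by
      apply Complex.ext
      · simp
      · simp [hm.2]
    have h1 := h (Tr.scale (S.f 1).re⁻¹ (inv_nonneg.mpr hm.1) S) (by
      show (((S.f 1).re⁻¹ : ℝ) : ℂ) * S.f 1 = 1
      rw [hS1]
      simp only [Complex.ofReal_re]
      rw [← Complex.ofReal_mul, inv_mul_cancel₀ h0, Complex.ofReal_one]) x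
    have h2 : (((S.f 1).re⁻¹ : ℝ) : ℂ) * S.f (β x) = (((S.f 1).re⁻¹ : ℝ) : ℂ) * S.f x := h1
    exact mul_left_cancel₀ (by
      rw [Complex.ofReal_ne_zero]
      exact inv_ne_zero h0) h2

variable {G : Type v} [Group G] [Fintype G] {α : G →* (A ≃⋆ₐ[ℂ] A)}

/-- equidistributed towers -/
theorem tower_eq (h : RawTower α)
    (hinv : ∀ T : Tr A, T.f 1 = 1 → ∀ (g : G) (x : A), T.f (α g x) = T.f x)
    (F : Finset A) (ε : ℝ) (hε : 0 < ε) : ∃ f : G → A, (∀ g, 0 ≤ f g) ∧ (∀ g, f g ≤ 1) ∧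
    (∀ g h, g ≠ h → f g * f h = 0) ∧ (∀ g, ∀ a ∈ F, ‖f g * a - a * f g‖ ≤ ε) ∧
    ∀ T : Tr A, T.f 1 = 1 → (T.f (1 - ∑ g, f g)).re ≤ ε ∧
      ∀ g, ∀ x ∈ F, ‖T.f (x * f g) - T.f x / Fintype.card G‖ ≤ ε := by
  classical
  by_contra hcon
  push Not at hcon
  have hraw : ∀ i : Finset A × ℕ, ∃ f : G → A, (∀ g, 0 ≤ f g) ∧ (∀ g, f g ≤ 1) ∧
    (∀ g h, g ≠ h → f g * f h = 0) ∧ (∀ g, ∀ a ∈ F ∪ i.1, ‖f g * a - a * f g‖ ≤ ε / (i.2 + 1)) ∧
    (∀ g h, ‖α g (f h) - f (g * h)‖ ≤ ε / (i.2 + 1)) ∧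
      ∀ T : Tr A, T.f 1 = 1 → (T.f (1 - ∑ g, f g)).re ≤ ε / (i.2 + 1) :=
    fun i => h (F ∪ i.1) (ε / (i.2 + 1)) (by positivity)
  choose f hf0 hf1 ho hc ht hs using hraw
  have hle : ∀ i : Finset A × ℕ, ε / ((i.2 : ℝ) + 1) ≤ ε := fun i =>
    div_le_self hε.le (by
      have : (0 : ℝ) ≤ i.2 := Nat.cast_nonneg _
      linarith)
  have hex : ∀ i : Finset A × ℕ, ∃ T : Tr A, T.f 1 = 1 ∧
      ∃ g, ∃ x ∈ F, ε < ‖T.f (x * f i g) - T.f x / Fintype.card G‖ := by
    intro i
    obtain ⟨T, hT, h1⟩ := hcon (f i) (hf0 i) (hf1 i) (ho i)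
      (fun g a ha => (hc i g a (Finset.mem_union_left _ ha)).trans (hle i))
    exact ⟨T, hT, h1 ((hs i T hT).trans (hle i))⟩
  choose T hT hbad using hex
  let U : Ultrafilter (Finset A × ℕ) := Ultrafilter.of atTop
  have hU : (U : Filter (Finset A × ℕ)) ≤ atTop := Ultrafilter.of_le atTop
  have hsm : Tendsto (fun i : Finset A × ℕ => ε / ((i.2 : ℝ) + 1)) U (𝓝 0) := by
    have h1 : Tendsto (fun n : ℕ => ε / ((n : ℝ) + 1)) atTop (𝓝 0) :=
      tendsto_const_nhds.div_atTop
        (tendsto_natCast_atTop_atTop.atTop_add tendsto_const_nhds)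
    have h2 : Tendsto (fun i : Finset A × ℕ => i.2) atTop atTop := by
      rw [← prod_atTop_atTop_eq]
      exact tendsto_snd
    exact (h1.comp h2).mono_left hU
  have hmem : ∀ y : A, ∀ᶠ i in (U : Filter (Finset A × ℕ)), y ∈ F ∪ i.1 := by
    intro y
    refine hU ?_
    rw [Filter.mem_atTop_sets]
    exact ⟨({y}, 0), fun i hi => Finset.mem_union_right _ (hi.1 (Finset.mem_singleton_self y))⟩
  have hfn : ∀ i g, ‖f i g‖ ≤ 1 := fun i g =>
    (CStarAlgebra.norm_le_one_iff_of_nonneg _ (hf0 i g)).mpr (hf1 i g)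
  have hlim : ∀ (g : G) (x : A), ∃ l : ℂ, Tendsto (fun i => (T i).f (x * f i g)) U (𝓝 l) := by
    intro g x
    refine ultra_lim U _ ‖x‖ fun i => (norm_tr_le _ (hT i) _).trans ?_
    exact (norm_mul_le _ _).trans (mul_le_of_le_one_right (norm_nonneg _) (hfn i g))
  choose φ hφ using hlim
  -- uniqueness of limits up to null sequences
  have huniq : ∀ (z w : Finset A × ℕ → ℂ) (l l' : ℂ) (C : ℝ), Tendsto z U (𝓝 l) →
      Tendsto w U (𝓝 l') → (∀ᶠ i in (U : Filter (Finset A × ℕ)),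
        ‖z i - w i‖ ≤ C * (ε / ((i.2 : ℝ) + 1))) → l = l' := by
    intro z w l l' C hz hw hzw
    have h1 : Tendsto (fun i => z i - w i) U (𝓝 (l - l')) := hz.sub hw
    have h2 : Tendsto (fun i => z i - w i) U (𝓝 0) :=
      squeeze_zero_norm' hzw (by simpa using hsm.const_mul C)
    exact sub_eq_zero.mp (tendsto_nhds_unique h1 h2)
  have hcomm : ∀ g (x y : A), ∀ᶠ i in (U : Filter (Finset A × ℕ)),
      ‖(T i).f (x * y * f i g) - (T i).f (y * x * f i g)‖ ≤ ‖x‖ * (ε / ((i.2 : ℝ) + 1)) := by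
    intro g x y
    filter_upwards [hmem y] with i hi
    have e : (T i).f (x * y * f i g) - (T i).f (y * x * f i g) =
        (T i).f (x * (y * f i g - f i g * y)) := by
      have e1 : (T i).f (y * x * f i g) = (T i).f (x * f i g * y) := by
        rw [mul_assoc y, (T i).tr]
      rw [e1, ← map_sub]
      congr 1
      rw [mul_sub]
      simp only [mul_assoc]
    rw [e]
    refine (norm_tr_le _ (hT i) _).trans ((norm_mul_le _ _).trans ?_)
    refine mul_le_mul_of_nonneg_left ?_ (norm_nonneg _)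
    rw [norm_sub_rev]
    exact hc i g y hi
  have htr : ∀ g, ∃ S : Tr A, ∀ x, S.f x = φ g x := by
    intro g
    refine exists_tr_of (t := φ g) ?_ ?_ ?_ ?_
    · intro x y
      refine tendsto_nhds_unique (hφ g (x + y)) ?_
      have := (hφ g x).add (hφ g y)
      refine this.congr fun i => ?_
      rw [add_mul, map_add]
    · intro c x
      refine tendsto_nhds_unique (hφ g (c • x)) ?_
      have := (hφ g x).const_mul c
      refine this.congr fun i => ?_
      rw [smul_mul_assoc, map_smul, smul_eq_mul]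
    · intro x y
      exact huniq _ _ _ _ ‖x‖ (hφ g (x * y)) (hφ g (y * x)) (hcomm g x y)
    · intro x
      have h1 := hφ g (star x * x)
      have h2 : ∀ i, 0 ≤ ((T i).f (star x * x * f i g)).re ∧
          ((T i).f (star x * x * f i g)).im = 0 := by
        intro i
        rw [mul_assoc, (T i).tr]
        refine (mt' A (T i)).2.1 _ ?_
        have := star_left_conjugate_nonneg (hf0 i g) (star x)
        rwa [star_star] at this
      refine ⟨ge_of_tendsto ((Complex.continuous_re.tendsto _).comp h1)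
        (Eventually.of_forall fun i => (h2 i).1), ?_⟩
      refine tendsto_nhds_unique ((Complex.continuous_im.tendsto _).comp h1) ?_
      refine (tendsto_const_nhds (x := (0 : ℝ))).congr fun i => ?_
      exact (h2 i).2.symm
  have hshift : ∀ g x, φ g x = φ 1 x := by
    intro g x
    obtain ⟨S, hS⟩ := htr g
    have h1 : φ g (α g x) = φ 1 x := by
      refine huniq _ _ _ _ ‖α g x‖ (hφ g (α g x)) (hφ 1 x) (Eventually.of_forall fun i => ?_)
      have e : (T i).f (x * f i 1) = (T i).f (α g x * α g (f i 1)) := by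
        rw [← hinv (T i) (hT i) g (x * f i 1), map_mul]
      rw [e, ← map_sub, ← mul_sub]
      refine (norm_tr_le _ (hT i) _).trans ((norm_mul_le _ _).trans ?_)
      refine mul_le_mul_of_nonneg_left ?_ (norm_nonneg _)
      rw [norm_sub_rev]
      have := ht i g 1
      rwa [mul_one] at this
    have h2 : S.f (α g x) = S.f x := all_inv (β := act α g)
      (fun T hT x => hinv T hT g x) S x
    rw [← h1, ← hS, ← hS, h2]
  have hTlim : ∀ x, Tendsto (fun i => (T i).f x) U (𝓝 (Fintype.card G * φ 1 x)) := by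
    intro x
    have h1 : Tendsto (fun i => ∑ g, (T i).f (x * f i g)) U (𝓝 (∑ g, φ g x)) :=
      tendsto_finsetSum _ fun g _ => hφ g x
    have h2 : ∑ g, φ g x = Fintype.card G * φ 1 x := by
      rw [Finset.sum_congr rfl fun g _ => hshift g x, Finset.sum_const, Finset.card_univ,
        nsmul_eq_mul]
    rw [h2] at h1
    have h3 : Tendsto (fun i => (T i).f x - ∑ g, (T i).f (x * f i g)) U (𝓝 0) := by
      have h4 : Tendsto (fun i : Finset A × ℕ => Real.sqrt (‖x‖ ^ 2 * (ε / ((i.2 : ℝ) + 1)))) U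
          (𝓝 0) := by
        have := (hsm.const_mul (‖x‖ ^ 2)).sqrt
        simpa using this
      refine squeeze_zero_norm (fun i => ?_) h4
      refine Real.le_sqrt_of_sq_le ?_
      have hsum := sum_orth_le_one (hf0 i) (hf1 i) (ho i)
      have h5 : 0 ≤ 1 - ∑ g, f i g := sub_nonneg.mpr hsum
      have h6 : 1 - ∑ g, f i g ≤ 1 := sub_le_self _ (Finset.sum_nonneg fun g _ => hf0 i g)
      have e : (T i).f x - ∑ g, (T i).f (x * f i g) = (T i).f (x * (1 - ∑ g, f i g)) := by
        rw [mul_sub, mul_one, map_sub, Finset.mul_sum, map_sum]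
      rw [e]
      have h7 := cs (T i) (star x) (1 - ∑ g, f i g)
      rw [star_star] at h7
      have h8 : N2 (T i) (star x) ≤ ‖x‖ ^ 2 := by
        rw [N2_star]
        have := N2_mul_left (T i) x 1
        have h9 : N2 (T i) (1 : A) = 1 := by
          unfold N2
          rw [star_one, mul_one, hT, Complex.one_re]
        rwa [mul_one, h9, mul_one] at this
      have h10 : N2 (T i) (1 - ∑ g, f i g) ≤ ε / ((i.2 : ℝ) + 1) := by
        unfold N2
        rw [(IsSelfAdjoint.of_nonneg h5).star_eq]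
        exact ((mt' A (T i)).1 _ _ (mul_self_le h5 h6)).trans (hs i _ (hT i))
      exact h7.trans (mul_le_mul h8 h10 (N2_nonneg _ _) (by positivity))
    have h11 := h3.add h1
    rw [zero_add] at h11
    refine h11.congr fun i => ?_
    ring
  have hq0 : (Fintype.card G : ℂ) ≠ 0 := by exact_mod_cast Fintype.card_ne_zero
  have hfin : ∀ g, ∀ x, Tendsto (fun i => (T i).f (x * f i g) - (T i).f x / Fintype.card G) U
      (𝓝 0) := by
    intro g x
    have h1 := (hφ g x).sub ((hTlim x).div_const (Fintype.card G : ℂ))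
    rwa [mul_div_cancel_left₀ _ hq0, hshift g x, sub_self] at h1
  have hev : ∀ᶠ i in (U : Filter (Finset A × ℕ)), ∀ g, ∀ x ∈ F,
      ‖(T i).f (x * f i g) - (T i).f x / Fintype.card G‖ < ε := by
    rw [eventually_all]
    intro g
    rw [eventually_all_finset]
    intro x _
    have h1 := (hfin g x).norm
    rw [norm_zero] at h1
    exact h1.eventually_lt_const hε
  obtain ⟨i, hi⟩ := hev.exists
  obtain ⟨g, x, hx, hlt⟩ := hbad i
  exact absurd (hi g x hx) (not_lt.mpr hlt.le)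

end

section

variable {A : Type u} [CStarAlgebra A] [PartialOrder A] [StarOrderedRing A]

theorem tr_mul_le (T : Tr A) {X f : A} (hX : 0 ≤ X) (hf1 : f ≤ 1) :
    (T.f (X * f)).re ≤ (T.f X).re := by
  have e : T.f (X * f) = T.f (sq X * f * sq X) := by
    rw [T.tr (sq X * f), ← mul_assoc, sq_mul_sq hX]
  have e2 : sq X * 1 * sq X = X := by rw [mul_one, sq_mul_sq hX]
  rw [e]
  refine ((mt' A T).1 (sq X * f * sq X) (sq X * 1 * sq X) ?_).trans (le_of_eq (by rw [e2]))
  have := star_left_conjugate_le_conjugate hf1 (sq X)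
  rwa [sq_star] at this

theorem sq_norm_le {X : A} (hX : 0 ≤ X) (h1 : X ≤ 1) : ‖sq X‖ ≤ 1 := by
  have h2 : ‖sq X‖ * ‖sq X‖ = ‖X‖ := by
    rw [← CStarRing.norm_star_mul_self, sq_star, sq_mul_sq hX]
  have h3 := (CStarAlgebra.norm_le_one_iff_of_nonneg X hX).mpr h1
  by_contra hcon
  push Not at hcon
  nlinarith

theorem ring_aux1 {s E f : A} (h : s * s = E) : s * f * s * (s * f * s) = (s * f * E * f) * s := by
  rw [← h]
  simp only [mul_assoc]

theorem ring_aux2 {s E f : A} (h : s * s = E) : s * (s * f * E * f) = E * f * E * f := by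
  rw [← h]
  simp only [mul_assoc]

/-- the conclusion of `tower_eq` -/
def TEq (A : Type u) [CStarAlgebra A] [PartialOrder A] [StarOrderedRing A] (G : Type v)
    [Fintype G] : Prop := ∀ (F : Finset A) (ε : ℝ), 0 < ε → ∃ f : G → A, (∀ g, 0 ≤ f g) ∧
    (∀ g, f g ≤ 1) ∧
    (∀ g h, g ≠ h → f g * f h = 0) ∧ (∀ g, ∀ a ∈ F, ‖f g * a - a * f g‖ ≤ ε) ∧
    ∀ T : Tr A, T.f 1 = 1 → (T.f (1 - ∑ g, f g)).re ≤ ε ∧
      ∀ g, ∀ x ∈ F, ‖T.f (x * f g) - T.f x / Fintype.card G‖ ≤ ε

theorem iter {G : Type v} [Fintype G] [Nonempty G] (hG : TEq A G) (l : ℕ) :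
    ∃ (I : Type v) (_ : Fintype I), Fintype.card I = Fintype.card G ^ l ∧
    ∀ (F : Finset A) (ε : ℝ), 0 < ε → ∃ e : I → A, (∀ i, 0 ≤ e i) ∧ ∑ i, e i ≤ 1 ∧
      (∀ i, ∀ x ∈ F, ‖e i * x - x * e i‖ ≤ ε) ∧ ∀ T : Tr A, T.f 1 = 1 →
        (T.f (1 - ∑ i, e i)).re ≤ ε ∧ (∀ i, (T.f (e i - e i * e i)).re ≤ ε) ∧
        ∀ i, ∀ x ∈ F, ‖T.f (x * e i) - T.f x / (Fintype.card G : ℂ) ^ l‖ ≤ ε := by
  classical
  induction l with
  | zero =>
    refine ⟨PUnit, inferInstance, by simp, fun F ε hε => ⟨fun _ => 1, fun _ => zero_le_one, ?_,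
      fun i x _ => ?_, fun T hT => ⟨?_, fun i => ?_, fun i x _ => ?_⟩⟩⟩
    · simp
    · simpa using hε.le
    · simpa using hε.le
    · simpa using hε.le
    · simpa using hε.le
  | succ l ih =>
    obtain ⟨I, hI, hcard, hP⟩ := ih
    refine ⟨I × G, inferInstance, by rw [Fintype.card_prod, hcard, pow_succ], fun F ε hε => ?_⟩
    set C : ℝ := ∑ x ∈ F, ‖x‖ with hC
    have hC0 : 0 ≤ C := Finset.sum_nonneg fun x _ => norm_nonneg x
    have hCx : ∀ x ∈ F, ‖x‖ ≤ C := fun x hx =>
      Finset.single_le_sum (f := fun x : A => ‖x‖) (fun x _ => norm_nonneg x) hx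
    set ε₁ : ℝ := ε / 4 with hε₁
    have hε₁0 : 0 < ε₁ := by positivity
    obtain ⟨e, he0, hesum, hec, heT⟩ := hP F ε₁ hε₁0
    set ε₂ : ℝ := ε / (8 * (C + 1)) with hε₂
    have hε₂0 : 0 < ε₂ := by positivity
    have hε₂C : (C + 1) * ε₂ = ε / 8 := by
      rw [hε₂]
      field_simp
    have hε₂1 : ε₂ ≤ ε / 8 := by nlinarith
    obtain ⟨f, hf0, hf1, hfo, hfc, hfT⟩ := hG (F ∪ Finset.univ.image e ∪
      Finset.univ.image (fun i => sq (e i)) ∪
      (Finset.univ ×ˢ F).image (fun z : I × A => sq (e z.1) * z.2 * sq (e z.1))) ε₂ hε₂0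
    have he1 : ∀ i, e i ≤ 1 := fun i =>
      (Finset.single_le_sum (fun i _ => he0 i) (Finset.mem_univ i)).trans hesum
    have hsn : ∀ i, ‖sq (e i)‖ ≤ 1 := fun i => sq_norm_le (he0 i) (he1 i)
    have hen : ∀ i, ‖e i‖ ≤ 1 := fun i =>
      (CStarAlgebra.norm_le_one_iff_of_nonneg _ (he0 i)).mpr (he1 i)
    have hfn : ∀ g, ‖f g‖ ≤ 1 := fun g =>
      (CStarAlgebra.norm_le_one_iff_of_nonneg _ (hf0 g)).mpr (hf1 g)
    have hfsum : ∑ g, f g ≤ 1 := sum_orth_le_one hf0 hf1 hfo
    have hfF : ∀ g, ∀ x ∈ F, ‖f g * x - x * f g‖ ≤ ε₂ := fun g x hx => hfc g x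
      (Finset.mem_union_left _ (Finset.mem_union_left _ (Finset.mem_union_left _ hx)))
    have hfe : ∀ g i, ‖f g * e i - e i * f g‖ ≤ ε₂ := fun g i => hfc g _
      (Finset.mem_union_left _ (Finset.mem_union_left _ (Finset.mem_union_right _
        (Finset.mem_image_of_mem _ (Finset.mem_univ i)))))
    have hfs : ∀ g i, ‖f g * sq (e i) - sq (e i) * f g‖ ≤ ε₂ := fun g i => hfc g _
      (Finset.mem_union_left _ (Finset.mem_union_right _
        (Finset.mem_image_of_mem _ (Finset.mem_univ i))))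
    have hsum' : ∀ T : Tr A, T.f (∑ z : I × G, sq (e z.1) * f z.2 * sq (e z.1)) =
        T.f ((∑ i, e i) * ∑ g, f g) := by
      intro T
      rw [map_sum, Fintype.sum_prod_type, Finset.sum_mul_sum, map_sum]
      refine Finset.sum_congr rfl fun i _ => ?_
      rw [map_sum]
      refine Finset.sum_congr rfl fun g _ => ?_
      rw [T.tr (sq (e i) * f g), ← mul_assoc, sq_mul_sq (he0 i)]
    refine ⟨fun z => sq (e z.1) * f z.2 * sq (e z.1), fun z => ?_, ?_, fun z x hx => ?_,
      fun T hT => ⟨?_, fun z => ?_, fun z x hx => ?_⟩⟩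
    · have := star_left_conjugate_nonneg (hf0 z.2) (sq (e z.1))
      rwa [sq_star] at this
    · rw [Fintype.sum_prod_type]
      refine (Finset.sum_le_sum fun i _ => ?_).trans hesum
      show ∑ g, sq (e i) * f g * sq (e i) ≤ e i
      rw [← Finset.sum_mul, ← Finset.mul_sum]
      have := star_left_conjugate_le_conjugate hfsum (sq (e i))
      rwa [sq_star, mul_one, sq_mul_sq (he0 i)] at this
    · obtain ⟨i, g⟩ := z
      show ‖sq (e i) * f g * sq (e i) * x - x * (sq (e i) * f g * sq (e i))‖ ≤ ε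
      have e1 : sq (e i) * f g * sq (e i) = e i * f g +
          sq (e i) * (f g * sq (e i) - sq (e i) * f g) := by
        rw [mul_sub, ← mul_assoc (sq (e i)) (sq (e i)) (f g), sq_mul_sq (he0 i), mul_assoc]
        abel
      have e2 : sq (e i) * f g * sq (e i) * x - x * (sq (e i) * f g * sq (e i)) =
          (e i * (f g * x - x * f g) + (e i * x - x * e i) * f g) +
          (sq (e i) * (f g * sq (e i) - sq (e i) * f g) * x -
            x * (sq (e i) * (f g * sq (e i) - sq (e i) * f g))) := by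
        rw [e1]
        noncomm_ring
      have hd : ‖sq (e i) * (f g * sq (e i) - sq (e i) * f g)‖ ≤ ε₂ :=
        (norm_mul_le _ _).trans (by
          have := mul_le_mul (hsn i) (hfs g i) (norm_nonneg _) zero_le_one
          linarith)
      rw [e2]
      have hxC := hCx x hx
      have n1 : ‖e i * (f g * x - x * f g)‖ ≤ ε₂ := (norm_mul_le _ _).trans (by
        have := mul_le_mul (hen i) (hfF g x hx) (norm_nonneg _) zero_le_one
        linarith)
      have n2 : ‖(e i * x - x * e i) * f g‖ ≤ ε₁ := (norm_mul_le _ _).trans (by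
        have := mul_le_mul (hec i x hx) (hfn g) (norm_nonneg _) hε₁0.le
        linarith)
      have n3 : ‖sq (e i) * (f g * sq (e i) - sq (e i) * f g) * x‖ ≤ ε₂ * C :=
        (norm_mul_le _ _).trans (mul_le_mul hd hxC (norm_nonneg _) hε₂0.le)
      have n4 : ‖x * (sq (e i) * (f g * sq (e i) - sq (e i) * f g))‖ ≤ C * ε₂ :=
        (norm_mul_le _ _).trans (mul_le_mul hxC hd (norm_nonneg _) hC0)
      refine (norm_add_le _ _).trans ?_
      have n5 := (norm_add_le (e i * (f g * x - x * f g)) ((e i * x - x * e i) * f g))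
      have n6 := (norm_sub_le (sq (e i) * (f g * sq (e i) - sq (e i) * f g) * x)
        (x * (sq (e i) * (f g * sq (e i) - sq (e i) * f g))))
      nlinarith
    · have h1 := (heT T hT).1
      have h2 := (hfT T hT).1
      rw [map_sub, hsum', Complex.sub_re, hT, Complex.one_re]
      rw [map_sub, Complex.sub_re, hT, Complex.one_re] at h1
      have h3 := tr_mul_le T (sub_nonneg.mpr hfsum) hesum
      have h4 : T.f ((1 - ∑ g, f g) * ∑ i, e i) = T.f (∑ i, e i) -
          T.f ((∑ i, e i) * ∑ g, f g) := by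
        rw [sub_mul, one_mul, map_sub, T.tr (∑ g, f g)]
      rw [h4, Complex.sub_re] at h3
      linarith
    · obtain ⟨i, g⟩ := z
      show (T.f (sq (e i) * f g * sq (e i) - sq (e i) * f g * sq (e i) *
        (sq (e i) * f g * sq (e i)))).re ≤ ε
      have t1 : T.f (sq (e i) * f g * sq (e i)) = T.f (e i * f g) := by
        rw [T.tr (sq (e i) * f g), ← mul_assoc, sq_mul_sq (he0 i)]
      have t2 : T.f (sq (e i) * f g * sq (e i) * (sq (e i) * f g * sq (e i))) =
          T.f (e i * (e i * f g) * f g) + T.f (e i * (f g * e i - e i * f g) * f g) := by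
        rw [ring_aux1 (sq_mul_sq (he0 i)), T.tr, ring_aux2 (sq_mul_sq (he0 i)), ← map_add]
        congr 1
        noncomm_ring
      have t3 : ‖T.f (e i * (f g * e i - e i * f g) * f g)‖ ≤ ε₂ := by
        refine (norm_tr_le T hT _).trans ((norm_mul_le _ _).trans ?_)
        have h1 : ‖e i * (f g * e i - e i * f g)‖ ≤ ε₂ := (norm_mul_le _ _).trans (by
          have := mul_le_mul (hen i) (hfe g i) (norm_nonneg _) zero_le_one
          linarith)
        have := mul_le_mul h1 (hfn g) (norm_nonneg _) hε₂0.le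
        linarith
      have t4 := (abs_le.mp ((Complex.abs_re_le_norm _).trans t3)).1
      have hee : 0 ≤ e i - e i * e i := sub_nonneg.mpr (mul_self_le (he0 i) (he1 i))
      have hff : 0 ≤ f g - f g * f g := sub_nonneg.mpr (mul_self_le (hf0 g) (hf1 g))
      have t5 := tr_mul_le T hee (hf1 g)
      have t6 := tr_mul_le T hff (mul_self_le (he0 i) (he1 i) |>.trans (he1 i))
      have t7 := (heT T hT).2.1 i
      have t8 : (T.f (f g - f g * f g)).re ≤ ε₂ := by
        have e1 : f g * ∑ h, f h = f g * f g := by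
          rw [Finset.mul_sum]
          exact Finset.sum_eq_single g (fun h _ hh => hfo g h (Ne.symm hh))
            (fun h => absurd (Finset.mem_univ g) h)
        have h1 := tr_mul_le T (sub_nonneg.mpr hfsum) (hf1 g)
        rw [T.tr, mul_sub, mul_one, e1] at h1
        exact h1.trans (hfT T hT).1
      have t9 : T.f ((f g - f g * f g) * (e i * e i)) = T.f (e i * e i * f g) -
          T.f (e i * (e i * f g) * f g) := by
        rw [T.tr, mul_sub, map_sub]
        simp only [mul_assoc]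
      have t10 : T.f ((e i - e i * e i) * f g) = T.f (e i * f g) - T.f (e i * e i * f g) := by
        rw [sub_mul, map_sub]
      rw [t9, Complex.sub_re] at t6
      rw [t10, Complex.sub_re] at t5
      rw [map_sub, t1, t2, Complex.sub_re, Complex.add_re]
      linarith
    · obtain ⟨i, g⟩ := z
      show ‖T.f (x * (sq (e i) * f g * sq (e i))) - T.f x / (Fintype.card G : ℂ) ^ (l + 1)‖ ≤ ε
      have hq1 : (1 : ℝ) ≤ Fintype.card G := by exact_mod_cast Fintype.card_pos
      have t1 : T.f (x * (sq (e i) * f g * sq (e i))) = T.f (sq (e i) * x * sq (e i) * f g) := by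
        rw [← mul_assoc x, T.tr]
        simp only [mul_assoc]
      have t2 : T.f (sq (e i) * x * sq (e i)) = T.f (x * e i) := by
        rw [mul_assoc, T.tr, mul_assoc, sq_mul_sq (he0 i)]
      have h1 := (hfT T hT).2 g (sq (e i) * x * sq (e i)) (Finset.mem_union_right _
        (Finset.mem_image.mpr ⟨(i, x), Finset.mem_product.mpr ⟨Finset.mem_univ i, hx⟩, rfl⟩))
      have h2 := (heT T hT).2.2 i x hx
      rw [t2] at h1
      rw [t1]
      have e1 : T.f (sq (e i) * x * sq (e i) * f g) - T.f x / (Fintype.card G : ℂ) ^ (l + 1) =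
          (T.f (sq (e i) * x * sq (e i) * f g) - T.f (x * e i) / Fintype.card G) +
          (T.f (x * e i) - T.f x / (Fintype.card G : ℂ) ^ l) / Fintype.card G := by
        have hq0 : (Fintype.card G : ℂ) ≠ 0 := by exact_mod_cast Fintype.card_ne_zero
        field_simp
        ring
      rw [e1]
      refine (norm_add_le _ _).trans ?_
      have h3 : ‖(T.f (x * e i) - T.f x / (Fintype.card G : ℂ) ^ l) / (Fintype.card G : ℂ)‖ ≤
          ε₁ := by
        rw [norm_div, Complex.norm_natCast]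
        exact (div_le_self (norm_nonneg _) hq1).trans h2
      linarith

end

section

variable {A : Type u} [CStarAlgebra A] [PartialOrder A] [StarOrderedRing A]

/-- weights whose denominator is a power of `q` -/
theorem exists_pow_weights {k : ℕ} (a : Fin k → A) (ha : ∀ i, 0 ≤ a i) (δ : ℝ)
    (hne : ∃ T : Tr A, T.f 1 = 1)
    (h : ∀ T : Tr A, T.f 1 = 1 → ∃ i, (T.f (a i)).re < δ) (q : ℕ) (hq : 2 ≤ q) :
    ∃ (l : ℕ) (m : Fin k → ℕ), ∑ i, m i = q ^ l ∧
      ∀ T : Tr A, T.f 1 = 1 → ∑ i, (m i : ℝ) * (T.f (a i)).re ≤ δ * (∑ i, m i : ℕ) := by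
  classical
  obtain ⟨c, δ₁, hc0, hc1, hδ₁, hcT⟩ := exists_weights a δ hne h
  obtain ⟨T₀, hT₀⟩ := hne
  obtain ⟨i₀, hi₀⟩ := h T₀ hT₀
  have hδδ : 0 < δ - δ₁ := by linarith
  obtain ⟨K, hK⟩ := exists_nat_gt ((k : ℝ) * ‖a i₀‖ / (δ - δ₁))
  obtain ⟨l, hl⟩ : ∃ l : ℕ, K ≤ q ^ l := ⟨K, (Nat.lt_pow_self (by omega)).le⟩
  set P : ℝ := ((q ^ l : ℕ) : ℝ) with hP
  have hP0 : 0 ≤ P := Nat.cast_nonneg _
  have hKP : (k : ℝ) * ‖a i₀‖ ≤ (δ - δ₁) * P := by
    have h1 : (k : ℝ) * ‖a i₀‖ / (δ - δ₁) < P := hK.trans_le (by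
      rw [hP]
      exact_mod_cast hl)
    rw [div_lt_iff₀ hδδ] at h1
    linarith
  set m₀ : Fin k → ℕ := fun i => ⌊c i * P⌋₊ with hm₀
  have hm1 : ∀ i, (m₀ i : ℝ) ≤ c i * P := fun i => Nat.floor_le (mul_nonneg (hc0 i) hP0)
  have hm2 : ∀ i, c i * P - 1 ≤ m₀ i := fun i => (Nat.sub_one_lt_floor _).le
  have hle : ∑ i, m₀ i ≤ q ^ l := by
    have : ((∑ i, m₀ i : ℕ) : ℝ) ≤ P := by
      push_cast
      calc ∑ i, (m₀ i : ℝ) ≤ ∑ i, c i * P := Finset.sum_le_sum fun i _ => hm1 i
        _ = P := by rw [← Finset.sum_mul, hc1, one_mul]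
    rw [hP] at this
    exact_mod_cast this
  set m : Fin k → ℕ := fun i => m₀ i + if i = i₀ then q ^ l - ∑ i, m₀ i else 0 with hm
  have hsum : ∑ i, m i = q ^ l := by
    rw [hm, Finset.sum_add_distrib, Finset.sum_ite_eq' Finset.univ i₀, if_pos (Finset.mem_univ _)]
    omega
  have hrest : ((q ^ l - ∑ i, m₀ i : ℕ) : ℝ) ≤ k := by
    rw [Nat.cast_sub hle, ← hP]
    push_cast
    have : P - k ≤ ∑ i, (m₀ i : ℝ) := by
      calc P - k = ∑ i : Fin k, (c i * P - 1) := by
            rw [Finset.sum_sub_distrib, ← Finset.sum_mul, hc1, one_mul]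
            simp
        _ ≤ ∑ i, (m₀ i : ℝ) := Finset.sum_le_sum fun i _ => hm2 i
    linarith
  have htr : ∀ T : Tr A, T.f 1 = 1 → ∀ i, (T.f (a i)).re ≤ ‖a i‖ := fun T hT i =>
    (le_abs_self _).trans ((Complex.abs_re_le_norm _).trans (norm_tr_le T hT _))
  refine ⟨l, m, hsum, fun T hT => ?_⟩
  have h0 : ∀ i, 0 ≤ (T.f (a i)).re := fun i => ((mt' A T).2.1 _ (ha i)).1
  rw [hsum]
  calc ∑ i, (m i : ℝ) * (T.f (a i)).re
      = ∑ i, (m₀ i : ℝ) * (T.f (a i)).re +
          ((q ^ l - ∑ i, m₀ i : ℕ) : ℝ) * (T.f (a i₀)).re := by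
        rw [hm]
        simp only [Nat.cast_add, Nat.cast_ite, Nat.cast_zero, add_mul, ite_mul, zero_mul]
        rw [Finset.sum_add_distrib, Finset.sum_ite_eq' Finset.univ i₀,
          if_pos (Finset.mem_univ _)]
    _ ≤ ∑ i, (c i * P) * (T.f (a i)).re + k * ‖a i₀‖ := by
        refine add_le_add (Finset.sum_le_sum fun i _ => mul_le_mul_of_nonneg_right (hm1 i) (h0 i)) ?_
        exact mul_le_mul hrest (htr T hT i₀) (h0 _) (Nat.cast_nonneg _)
    _ = P * ∑ i, c i * (T.f (a i)).re + k * ‖a i₀‖ := by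
        rw [Finset.mul_sum]
        congr 1
        exact Finset.sum_congr rfl fun i _ => by ring
    _ ≤ P * δ₁ + (δ - δ₁) * P :=
        add_le_add (mul_le_mul_of_nonneg_left (hcT T hT) hP0) hKP
    _ = δ * P := by ring

theorem pu_of_teq {G : Type v} [Fintype G] (hq : 2 ≤ Fintype.card G) (hG : TEq A G) : PU A := by
  classical
  have hGn : Nonempty G := Fintype.card_pos_iff.mp (by omega)
  by_cases hne : ∃ T : Tr A, T.f 1 = 1
  swap
  · exact pu_trivial hne
  intro k a δ ha hcov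
  obtain ⟨l, m, hml, hm⟩ := exists_pow_weights a ha δ hne hcov _ hq
  refine ⟨∑ i, m i, fun x => (finSigmaFinEquiv.symm x).1, 1, fun F ε hε => ?_⟩
  obtain ⟨I, hI, hcard, hit⟩ := iter hG l
  let σ : Fin (∑ i, m i) ≃ I := (Fintype.equivFinOfCardEq (hcard.trans hml.symm)).symm
  set M : ℕ := ∑ i, m i with hM
  have hMq : (Fintype.card G : ℂ) ^ l = (M : ℂ) := by
    rw [hml]
    push_cast
    rfl
  have hM0' : 0 < M := by
    rw [hml]
    positivity
  have hM0 : (0 : ℝ) < M := by exact_mod_cast hM0'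
  set ε' : ℝ := ε / ((M : ℝ) + 1) with hε'
  have hε'0 : 0 < ε' := by positivity
  have hε'1 : ε' ≤ ε := by
    rw [hε', div_le_iff₀ (by positivity)]
    nlinarith
  obtain ⟨e₀, h0, hsum, hc, hT'⟩ := hit (F ∪ Finset.univ.image a) (min ε' 1 ^ 2)
    (by have := lt_min hε'0 one_pos; positivity)
  have hmin : 0 < min ε' 1 := lt_min hε'0 one_pos
  have hmin1 : min ε' 1 ^ 2 ≤ ε' := by
    have h1 : min ε' 1 ≤ 1 := min_le_right _ _
    have h2 : min ε' 1 ≤ ε' := min_le_left _ _
    nlinarith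
  set e : Fin M → A := fun i => e₀ (σ i) with he
  have hee : ∑ i, e i = ∑ i, e₀ i := σ.sum_comp e₀
  have he1 : ∀ i, e₀ i ≤ 1 := fun i =>
    (Finset.single_le_sum (fun i _ => h0 i) (Finset.mem_univ i)).trans hsum
  refine ⟨e, fun i => (IsSelfAdjoint.of_nonneg (h0 _)).star_eq, fun i =>
    (CStarAlgebra.norm_le_one_iff_of_nonneg _ (h0 _)).mpr (he1 _), fun T hT => ?_⟩
  obtain ⟨g1, g2, g3⟩ := hT' T hT
  refine ⟨fun i x hx => ?_, fun i j hij => ?_, ?_, ?_⟩
  · have h1 := hc (σ i) x (Finset.mem_union_left _ hx)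
    have h2 := N2_mul_left T (e₀ (σ i) * x - x * e₀ (σ i)) 1
    have h3 : N2 T (1 : A) = 1 := by
      unfold N2
      rw [star_one, mul_one, hT, Complex.one_re]
    rw [mul_one, h3, mul_one] at h2
    have h4 : min ε' 1 ^ 2 ≤ 1 := by
      have h1 : min ε' 1 ≤ 1 := min_le_right _ _
      nlinarith
    have h5 : ‖e₀ (σ i) * x - x * e₀ (σ i)‖ ^ 2 ≤ ‖e₀ (σ i) * x - x * e₀ (σ i)‖ := by
      have := norm_nonneg (e₀ (σ i) * x - x * e₀ (σ i))
      nlinarith
    exact h2.trans (h5.trans (h1.trans (hmin1.trans hε'1)))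
  · have hne' : σ i ≠ σ j := fun h => hij (σ.injective h)
    have h1 : e₀ (σ j) ≤ 1 - e₀ (σ i) := by
      rw [le_sub_iff_add_le]
      refine le_trans ?_ hsum
      rw [← Finset.sum_pair (f := e₀) (Ne.symm hne')]
      exact Finset.sum_le_univ_sum_of_nonneg h0
    have h2 : N2 T (e i * e j) = (T.f (e₀ (σ i) * (e₀ (σ j) * e₀ (σ j)) * e₀ (σ i))).re := by
      rw [← N2_star]
      unfold N2
      rw [star_star, he, star_mul, (IsSelfAdjoint.of_nonneg (h0 _)).star_eq,
        (IsSelfAdjoint.of_nonneg (h0 _)).star_eq]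
      simp only [mul_assoc]
    have h3 : e₀ (σ i) * (e₀ (σ j) * e₀ (σ j)) * e₀ (σ i) ≤
        e₀ (σ i) * (1 - e₀ (σ i)) * e₀ (σ i) := by
      have := star_left_conjugate_le_conjugate ((mul_self_le (h0 (σ j)) (he1 (σ j))).trans h1)
        (e₀ (σ i))
      rwa [(IsSelfAdjoint.of_nonneg (h0 (σ i))).star_eq] at this
    have h4 := (mt' A T).1 _ _ h3
    have h5 : T.f (e₀ (σ i) * (1 - e₀ (σ i)) * e₀ (σ i)) =
        T.f ((e₀ (σ i) - e₀ (σ i) * e₀ (σ i)) * e₀ (σ i)) := by
      congr 1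
      noncomm_ring
    rw [h5] at h4
    rw [h2]
    refine h4.trans ((tr_mul_le T (sub_nonneg.mpr (mul_self_le (h0 _) (he1 _))) (he1 _)).trans ?_)
    exact (g2 _).trans (hmin1.trans hε'1)
  · rw [hee]
    have h5 : 0 ≤ 1 - ∑ i, e₀ i := sub_nonneg.mpr hsum
    have h6 : 1 - ∑ i, e₀ i ≤ 1 := sub_le_self _ (Finset.sum_nonneg fun i _ => h0 i)
    rw [← N2_neg, neg_sub]
    unfold N2
    rw [(IsSelfAdjoint.of_nonneg h5).star_eq]
    exact ((mt' A T).1 _ _ (mul_self_le h5 h6)).trans (g1.trans (hmin1.trans hε'1))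
  · have h7 : ∀ x : Fin M, (T.f (e x * a (finSigmaFinEquiv.symm x).1)).re ≤
        (1 / M) * (T.f (a (finSigmaFinEquiv.symm x).1)).re + ε' := by
      intro x
      have h8 := g3 (σ x) (a (finSigmaFinEquiv.symm x).1)
        (Finset.mem_union_right _ (Finset.mem_image.mpr ⟨_, Finset.mem_univ _, rfl⟩))
      rw [hMq] at h8
      have h9 := (abs_le.mp ((Complex.abs_re_le_norm _).trans h8)).2
      rw [Complex.sub_re, Complex.div_natCast_re] at h9
      rw [T.tr]
      have h10 : (T.f (a (finSigmaFinEquiv.symm x).1)).re / M =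
          (1 / M) * (T.f (a (finSigmaFinEquiv.symm x).1)).re := by ring
      have h11 : (T.f (a (finSigmaFinEquiv.symm x).1 * e x)).re =
        (T.f (a (finSigmaFinEquiv.symm x).1 * e₀ (σ x))).re := rfl
      linarith
    rw [map_sum, Complex.re_sum]
    calc ∑ x : Fin M, (T.f (e x * a (finSigmaFinEquiv.symm x).1)).re
        ≤ ∑ x : Fin M, ((1 / M) * (T.f (a (finSigmaFinEquiv.symm x).1)).re + ε') :=
          Finset.sum_le_sum fun x _ => h7 x
      _ = (1 / M) * (∑ i, (m i : ℝ) * (T.f (a i)).re) + M * ε' := by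
          rw [Finset.sum_add_distrib, ← Finset.mul_sum,
            sum_sigma_fin m (fun i => (T.f (a i)).re), Finset.sum_const, Finset.card_univ,
            Fintype.card_fin, nsmul_eq_mul]
          simp only [nsmul_eq_mul]
      _ ≤ (1 / M) * (δ * M) + M * ε' := by
          have := mul_le_mul_of_nonneg_left (hm T hT) (a := 1 / (M : ℝ)) (by positivity)
          linarith
      _ ≤ δ + ε := by
          have h8 : (1 / (M : ℝ)) * (δ * M) = δ := by field_simp
          have h9 : M * ε' ≤ ε := by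
            rw [hε', mul_div_assoc', div_le_iff₀ (by positivity)]
            nlinarith
          linarith

variable {G : Type v} [Group G] [Fintype G] {α : G →* (A ≃⋆ₐ[ℂ] A)}

/-- weak tracial Rokhlin actions for which some `g ≠ 1` fixes all traces -/
theorem pu_of_rokhlin (hA : SimpleC A) (hinf : ¬ FiniteDimensional ℂ A)
    (h : WeakTracialRokhlin α) (hfix : SomeFixesTraces α) : PU A := by
  classical
  let H : Subgroup G :=
    { carrier := {g | ∀ T : Tr A, T.f 1 = 1 → ∀ x, T.f (α g x) = T.f x}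
      one_mem' := fun T _ x => by simp
      mul_mem' := by
        intro g k hg hk T hT x
        have e : α (g * k) x = α g (α k x) := by
          rw [map_mul]
          rfl
        rw [e, hg T hT, hk T hT]
      inv_mem' := by
        intro g hg T hT x
        have h1 := hg T hT (α g⁻¹ x)
        have e : α g (α g⁻¹ x) = x := by
          have : (α g * α g⁻¹) x = x := by
            rw [← map_mul, mul_inv_cancel, map_one]
            rfl
          exact this
        rw [e] at h1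
        exact h1.symm }
  obtain ⟨g, hg1, hg⟩ := hfix
  have hgH : g ∈ H := by
    intro T hT x
    have := hg (QT.ofTr T hT) x
    rwa [ev_ofTr, ev_ofTr] at this
  have hcard : 2 ≤ Fintype.card H := by
    have : Nontrivial H := ⟨⟨⟨g, hgH⟩, 1, fun h => hg1 (congrArg Subtype.val h)⟩⟩
    exact Fintype.one_lt_card
  refine pu_of_teq hcard ?_
  exact tower_eq ((rawTower_of hA hinf h).restrict H) (fun T hT s x => s.2 T hT x)

end

end Run7.h450
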