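import Pool.Agent.H327R4.Pure.All3

/-!
# Averaging over the unitary group for extreme traces

If `T` is an extreme tracial state, `p, q` are positive, then some unitary `u` satisfies
`T (p u q u^*) ≥ T p * T q - ε`.
-/

set_option autoImplicit false
set_option linter.unusedSectionVars false

namespace Run7.h450

open Filter Topology
open Pool.Agent.H327R4.Pure

universe u v

section

variable {A : Type u} [CStarAlgebra A] [PartialOrder A] [StarOrderedRing A]

/-- the seminorm `‖y‖_2^2` of a trace -/
noncomputable def N2 (T : Tr A) (y : A) : ℝ := (T.f (star y * y)).re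

theorem N2_nonneg (T : Tr A) (y : A) : 0 ≤ N2 T y := (T.pos y).1

theorem tr_star (T : Tr A) (x : A) : T.f (star x) = starRingEnd ℂ (T.f x) := HB2.T_star T x

/-- the inner product of a trace -/
@[reducible] noncomputable def preCore (T : Tr A) : PreInnerProductSpace.Core ℂ A where
  inner x y := T.f (star x * y)
  conj_inner_symm x y := by
    show starRingEnd ℂ (T.f (star y * x)) = T.f (star x * y)
    rw [← tr_star, star_mul, star_star]
  re_inner_nonneg x := (T.pos x).1
  add_left x y z := by
    show T.f (star (x + y) * z) = T.f (star x * z) + T.f (star y * z)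
    rw [star_add, add_mul, map_add]
  smul_left x y r := by
    show T.f (star (r • x) * y) = starRingEnd ℂ r * T.f (star x * y)
    rw [star_smul, smul_mul_assoc, map_smul]
    rfl

theorem cs (T : Tr A) (x y : A) : ‖T.f (star x * y)‖ ^ 2 ≤ N2 T x * N2 T y := by
  have h := @InnerProductSpace.Core.inner_mul_inner_self_le ℂ A _ _ _ (preCore T) x y
  have h1 : ‖T.f (star x * y)‖ * ‖T.f (star y * x)‖ ≤ N2 T x * N2 T y := h
  have h2 : ‖T.f (star y * x)‖ = ‖T.f (star x * y)‖ := by
    have : star y * x = star (star x * y) := by rw [star_mul, star_star]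
    rw [this, tr_star, RCLike.norm_conj]
  rw [h2, ← pow_two] at h1
  exact h1

theorem N2_sub (T : Tr A) (x y : A) : N2 T (x - y) = 2 * N2 T x + 2 * N2 T y - N2 T (x + y) := by
  unfold N2
  have : star (x - y) * (x - y) = (2 : ℂ) • (star x * x) + (2 : ℂ) • (star y * y) -
      star (x + y) * (x + y) := by
    rw [star_sub, star_add, two_smul, two_smul]
    noncomm_ring
  rw [this, map_sub, map_add, map_smul, map_smul]
  simp

theorem N2_smul (T : Tr A) (x : A) (c : ℝ) : N2 T (c • x) = c ^ 2 * N2 T x := by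
  unfold N2
  have : star (c • x) * (c • x) = ((c ^ 2 : ℝ) : ℂ) • (star x * x) := by
    rw [star_smul, smul_mul_assoc, mul_smul_comm, smul_smul, Complex.coe_smul, pow_two]
    simp
  rw [this, map_smul, smul_eq_mul, Complex.re_ofReal_mul]

/-- `T` spans an extreme ray of the cone of bounded traces (for a tracial state `T`) -/
def Ext (T : Tr A) : Prop :=
  ∀ (S : Tr A) (C : ℝ), (∀ x, 0 ≤ x → (S.f x).re ≤ C * (T.f x).re) → ∀ x, S.f x = S.f 1 * T.f x

end

section

variable {A : Type u} [CStarAlgebra A] [PartialOrder A] [StarOrderedRing A]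

theorem re_mul_nonneg (T : Tr A) {a b : A} (ha : 0 ≤ a) (hb : 0 ≤ b) :
    0 ≤ (T.f (a * b)).re ∧ (T.f (a * b)).im = 0 := by
  have hs := CFC.sqrt_mul_sqrt_self a ha
  have hst : star (CFC.sqrt a) = CFC.sqrt a :=
    (IsSelfAdjoint.of_nonneg (CFC.sqrt_nonneg a)).star_eq
  have h : T.f (a * b) = T.f (CFC.sqrt a * b * CFC.sqrt a) := by
    conv_lhs => rw [← hs, mul_assoc, T.tr]
  rw [h]
  have h0 : 0 ≤ CFC.sqrt a * b * CFC.sqrt a := by
    have := star_right_conjugate_nonneg hb (CFC.sqrt a)
    rwa [hst] at this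
  exact (mt' A T).2.1 _ h0

theorem re_mul_le (T : Tr A) {a b c : A} (ha : 0 ≤ a) (h : b ≤ c) :
    (T.f (a * b)).re ≤ (T.f (a * c)).re := by
  have := (re_mul_nonneg T ha (sub_nonneg.mpr h)).1
  rw [mul_sub, map_sub, Complex.sub_re] at this
  linarith

theorem exists_unitary (T : Tr A) (hE : Ext T) (p q : A) (hp : 0 ≤ p)
    (hq : 0 ≤ q) (c : ℝ) (hc : c < (T.f p).re * (T.f q).re) :
    ∃ u ∈ unitary A, c < (T.f (p * (u * q * star u))).re := by
  by_contra hcon
  push Not at hcon
  set G : Set A := {y | ∃ u ∈ unitary A, y = u * q * star u} with hG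
  set K : Set A := convexHull ℝ G with hK
  have hre : ∀ (a : A) (s t : ℝ) (x y : A), (T.f (a * (s • x + t • y))).re =
      s * (T.f (a * x)).re + t * (T.f (a * y)).re := by
    intro a s t x y
    rw [mul_add, mul_smul_comm, mul_smul_comm, map_add, Complex.add_re]
    congr 1
    · rw [← Complex.coe_smul s (a * x), map_smul, smul_eq_mul, Complex.re_ofReal_mul]
    · rw [← Complex.coe_smul t (a * y), map_smul, smul_eq_mul, Complex.re_ofReal_mul]
  have hK1 : ∀ y ∈ K, (T.f (p * y)).re ≤ c := by
    have hconv : Convex ℝ {y : A | (T.f (p * y)).re ≤ c} := by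
      intro x hx y hy s t hs ht hst
      show (T.f (p * (s • x + t • y))).re ≤ c
      rw [hre]
      have h1 : s * (T.f (p * x)).re ≤ s * c := mul_le_mul_of_nonneg_left hx hs
      have h2 : t * (T.f (p * y)).re ≤ t * c := mul_le_mul_of_nonneg_left hy ht
      have h3 : s * c + t * c = c := by rw [← add_mul, hst, one_mul]
      linarith
    have hsub : G ⊆ {y : A | (T.f (p * y)).re ≤ c} := by
      rintro y ⟨u, hu, rfl⟩
      exact hcon u hu
    exact fun y hy => convexHull_min hsub hconv hy
  have hqn : q ≤ ‖q‖ • (1 : A) := by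
    rw [← Algebra.algebraMap_eq_smul_one]
    exact IsSelfAdjoint.le_algebraMap_norm_self (IsSelfAdjoint.of_nonneg hq)
  have hK2 : ∀ y ∈ K, 0 ≤ y ∧ y ≤ ‖q‖ • (1 : A) := by
    have hconv : Convex ℝ (Set.Icc (0 : A) (‖q‖ • (1 : A))) := convex_Icc _ _
    have hsub : G ⊆ Set.Icc (0 : A) (‖q‖ • (1 : A)) := by
      rintro y ⟨u, hu, rfl⟩
      refine ⟨star_right_conjugate_nonneg hq u, ?_⟩
      have h1 := star_right_conjugate_le_conjugate hqn u
      have h2 : u * ‖q‖ • (1 : A) * star u = ‖q‖ • (1 : A) := by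
        rw [mul_smul_comm, mul_one, smul_mul_assoc, Unitary.mul_star_self_of_mem hu]
      rwa [h2] at h1
    exact fun y hy => convexHull_min hsub hconv hy
  have hK4 : ∀ u ∈ unitary A, ∀ y ∈ K, u * y * star u ∈ K := by
    intro u hu
    have hconv : Convex ℝ {y : A | u * y * star u ∈ K} := by
      intro x hx y hy s t hs ht hst
      show u * (s • x + t • y) * star u ∈ K
      have : u * (s • x + t • y) * star u = s • (u * x * star u) + t • (u * y * star u) := by
        rw [mul_add, add_mul, mul_smul_comm, mul_smul_comm, smul_mul_assoc, smul_mul_assoc]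
      rw [this]
      exact convex_convexHull ℝ G hx hy hs ht hst
    have hsub : G ⊆ {y : A | u * y * star u ∈ K} := by
      rintro y ⟨v, hv, rfl⟩
      refine subset_convexHull ℝ G ⟨u * v, mul_mem hu hv, ?_⟩
      rw [star_mul]
      simp only [mul_assoc]
    exact fun y hy => convexHull_min hsub hconv hy
  have hK3 : ∀ y ∈ K, T.f y = T.f q := by
    have hconv : Convex ℝ {y : A | T.f y = T.f q} := by
      intro x hx y hy s t hs ht hst
      show T.f (s • x + t • y) = T.f q
      have hx' : T.f x = T.f q := hx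
      have hy' : T.f y = T.f q := hy
      rw [map_add, ← Complex.coe_smul s x, ← Complex.coe_smul t y, map_smul, map_smul, hx', hy',
        ← add_smul, ← Complex.ofReal_add, hst, Complex.ofReal_one, one_smul]
    have hsub : G ⊆ {y : A | T.f y = T.f q} := by
      rintro y ⟨v, hv, rfl⟩
      show T.f (v * q * star v) = T.f q
      rw [T.tr, ← mul_assoc, Unitary.star_mul_self_of_mem hv, one_mul]
    exact fun y hy => convexHull_min hsub hconv hy
  have hqK : q ∈ K := subset_convexHull ℝ G ⟨1, one_mem _, by simp⟩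
  set m0 : ℝ := sInf (N2 T '' K) with hm0
  have hbdd : BddBelow (N2 T '' K) := ⟨0, by rintro _ ⟨y, _, rfl⟩; exact N2_nonneg T y⟩
  have hm : ∀ y ∈ K, m0 ≤ N2 T y := fun y hy => csInf_le hbdd ⟨y, hy, rfl⟩
  have hpar : ∀ y ∈ K, ∀ y' ∈ K, N2 T (y - y') ≤ 2 * N2 T y + 2 * N2 T y' - 4 * m0 := by
    intro y hy y' hy'
    have h1 : (1 / 2 : ℝ) • (y + y') ∈ K := by
      have := convex_convexHull ℝ G hy hy' (a := 1 / 2) (b := 1 / 2) (by norm_num) (by norm_num)
        (by norm_num)
      rwa [← smul_add] at this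
    have h2 := hm _ h1
    rw [N2_smul] at h2
    rw [N2_sub]
    nlinarith
  have hex : ∀ n : ℕ, ∃ y ∈ K, N2 T y < m0 + 1 / ((n : ℝ) + 1) := by
    intro n
    have hpos : (0 : ℝ) < 1 / ((n : ℝ) + 1) := by positivity
    obtain ⟨_, ⟨y, hy, rfl⟩, hlt⟩ := exists_lt_of_csInf_lt (s := N2 T '' K) ⟨_, q, hqK, rfl⟩
      (show sInf (N2 T '' K) < m0 + 1 / ((n : ℝ) + 1) by rw [← hm0]; linarith)
    exact ⟨y, hy, hlt⟩
  choose y hyK hyN using hex
  have hdiff : ∀ n m : ℕ, n ≤ m → N2 T (y n - y m) ≤ 4 / ((n : ℝ) + 1) := by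
    intro n m hnm
    have h1 := hpar _ (hyK n) _ (hyK m)
    have h2 := hyN n
    have h3 := hyN m
    have h4 : 1 / ((m : ℝ) + 1) ≤ 1 / ((n : ℝ) + 1) := by
      apply one_div_le_one_div_of_le (by positivity)
      have : (n : ℝ) ≤ m := by exact_mod_cast hnm
      linarith
    have h5 : 4 / ((n : ℝ) + 1) = 4 * (1 / ((n : ℝ) + 1)) := by ring
    rw [h5]
    linarith
  -- the key estimate
  have hest : ∀ (a z : A) (r : ℝ), N2 T z ≤ r → ‖T.f (a * z)‖ ≤ Real.sqrt (N2 T (star a) * r) := by
    intro a z r hz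
    apply Real.le_sqrt_of_sq_le
    have h1 := cs T (star a) z
    rw [star_star] at h1
    exact h1.trans (mul_le_mul_of_nonneg_left hz (N2_nonneg _ _))
  have hlim0 : ∀ C : ℝ, Tendsto (fun n : ℕ => Real.sqrt (C * (4 / ((n : ℝ) + 1)))) atTop (𝓝 0) := by
    intro C
    have h1 : Tendsto (fun n : ℕ => C * (4 / ((n : ℝ) + 1))) atTop (𝓝 0) := by
      have := (tendsto_one_div_add_atTop_nhds_zero_nat (𝕜 := ℝ)).const_mul (C * 4)
      simp only [mul_zero] at this
      refine this.congr fun n => ?_
      ring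
    have h2 := (Real.continuous_sqrt.tendsto 0).comp h1
    rw [Real.sqrt_zero] at h2
    exact h2
  have hCau : ∀ a : A, ∃ l : ℂ, Tendsto (fun n => T.f (a * y n)) atTop (𝓝 l) := by
    intro a
    refine cauchySeq_tendsto_of_complete ?_
    refine cauchySeq_of_le_tendsto_0 (fun n => Real.sqrt (N2 T (star a) * (4 / ((n : ℝ) + 1))) +
      Real.sqrt (N2 T (star a) * (4 / ((n : ℝ) + 1)))) ?_ ?_
    · intro n m k hkn hkm
      have h1 : ∀ n, k ≤ n → dist (T.f (a * y n)) (T.f (a * y k)) ≤
          Real.sqrt (N2 T (star a) * (4 / ((k : ℝ) + 1))) := by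
        intro n hn
        rw [dist_comm, dist_eq_norm, ← map_sub, ← mul_sub]
        exact hest _ _ _ (hdiff k n hn)
      calc dist (T.f (a * y n)) (T.f (a * y m)) ≤ dist (T.f (a * y n)) (T.f (a * y k)) +
            dist (T.f (a * y k)) (T.f (a * y m)) := dist_triangle _ _ _
        _ ≤ _ := add_le_add (h1 n hkn) (by rw [dist_comm]; exact h1 m hkm)
    · have := (hlim0 (N2 T (star a))).add (hlim0 (N2 T (star a)))
      rwa [add_zero] at this
  choose φ hφ using hCau
  have hbound : ∀ a : A, ‖φ a‖ ≤ ‖T.f‖ * ‖q‖ * ‖a‖ := by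
    intro a
    refine le_of_tendsto' (hφ a).norm fun n => ?_
    refine (T.f.le_opNorm _).trans ?_
    rw [mul_assoc]
    refine mul_le_mul_of_nonneg_left ?_ (norm_nonneg _)
    refine (norm_mul_le _ _).trans ?_
    rw [mul_comm]
    refine mul_le_mul_of_nonneg_right ?_ (norm_nonneg _)
    obtain ⟨h0, h1⟩ := hK2 _ (hyK n)
    have h2 := CStarAlgebra.norm_le_norm_of_nonneg_of_le h0 h1
    refine h2.trans ?_
    rw [norm_smul, norm_norm]
    by_cases hA : Nontrivial A
    · rw [CStarRing.norm_one, mul_one]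
    · rw [not_nontrivial_iff_subsingleton] at hA
      rw [Subsingleton.elim (1 : A) 0, norm_zero, mul_zero]
      exact norm_nonneg _
  let L : A →ₗ[ℂ] ℂ :=
    { toFun := φ
      map_add' := fun a b => by
        refine tendsto_nhds_unique (hφ (a + b)) ?_
        have := (hφ a).add (hφ b)
        refine this.congr fun n => ?_
        rw [add_mul, map_add]
      map_smul' := fun r a => by
        refine tendsto_nhds_unique (hφ (r • a)) ?_
        have := (hφ a).const_mul r
        refine this.congr fun n => ?_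
        rw [smul_mul_assoc, map_smul, smul_eq_mul] }
  have hφpos : ∀ x : A, 0 ≤ (φ (star x * x)).re ∧ (φ (star x * x)).im = 0 := by
    intro x
    have h1 := fun n => re_mul_nonneg T (star_mul_self_nonneg x) (hK2 _ (hyK n)).1
    refine ⟨?_, ?_⟩
    · exact ge_of_tendsto' ((Complex.continuous_re.tendsto _).comp (hφ (star x * x)))
        fun n => (h1 n).1
    · have h2 := (Complex.continuous_im.tendsto _).comp (hφ (star x * x))
      refine tendsto_nhds_unique h2 ?_
      refine tendsto_const_nhds.congr fun n => ?_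
      exact ((h1 n).2).symm
  have hu : ∀ u ∈ unitary A, ∀ a, L (a * u) = L (u * a) := by
    intro u hu a
    show φ (a * u) = φ (u * a)
    have h1 : Tendsto (fun n => T.f (u * a * y n) - T.f (a * u * y n)) atTop
        (𝓝 (φ (u * a) - φ (a * u))) := (hφ _).sub (hφ _)
    have h2 : Tendsto (fun n => T.f (u * a * y n) - T.f (a * u * y n)) atTop (𝓝 0) := by
      refine squeeze_zero_norm (fun n => ?_) (hlim0 (N2 T (star (u * a))))
      have h3 : T.f (a * u * y n) = T.f (u * a * (u * y n * star u)) := by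
        have e1 : u * a * (u * y n * star u) = (u * (a * u * y n)) * star u := by
          simp only [mul_assoc]
        rw [e1, T.tr (u * (a * u * y n)) (star u), ← mul_assoc, Unitary.star_mul_self_of_mem hu,
          one_mul]
      rw [h3, ← map_sub, ← mul_sub]
      refine hest _ _ _ ?_
      have h4 := hpar _ (hyK n) _ (hK4 u hu _ (hyK n))
      have h5 : N2 T (u * y n * star u) = N2 T (y n) := by
        unfold N2
        have e2 : star (u * y n * star u) * (u * y n * star u) =
            u * (star (y n) * (star u * u) * y n) * star u := by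
          rw [star_mul, star_mul, star_star]
          simp only [mul_assoc]
        rw [e2, Unitary.star_mul_self_of_mem hu, mul_one, T.tr, ← mul_assoc,
          Unitary.star_mul_self_of_mem hu, one_mul]
      rw [h5] at h4
      have h6 := hyN n
      have h7 : 4 / ((n : ℝ) + 1) = 4 * (1 / ((n : ℝ) + 1)) := by ring
      rw [h7]
      linarith
    have h3 := tendsto_nhds_unique h1 h2
    exact (sub_eq_zero.mp h3).symm
  have htr : ∀ a b, L (a * b) = L (b * a) := by
    intro a b
    have hb : b ∈ Submodule.span ℂ (unitary A : Set A) := by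
      rw [CStarAlgebra.span_unitary]
      trivial
    induction hb using Submodule.span_induction with
    | mem x hx => exact hu x hx a
    | zero => simp
    | add x z _ _ h1 h2 => rw [mul_add, add_mul, map_add, map_add, h1, h2]
    | smul r x _ h1 => rw [mul_smul_comm, smul_mul_assoc, map_smul, map_smul, h1]
  let S : Tr A :=
    { f := L.mkContinuous (‖T.f‖ * ‖q‖) hbound
      pos := hφpos
      tr := htr }
  have hSφ : ∀ a, S.f a = φ a := fun a => rfl
  have hdom : ∀ x, 0 ≤ x → (S.f x).re ≤ ‖q‖ * (T.f x).re := by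
    intro x hx
    refine le_of_tendsto' ((Complex.continuous_re.tendsto _).comp (hφ x)) fun n => ?_
    have h1 := re_mul_le T hx (hK2 _ (hyK n)).2
    refine h1.trans (le_of_eq ?_)
    rw [mul_smul_comm, mul_one, ← Complex.coe_smul, map_smul, smul_eq_mul,
      Complex.re_ofReal_mul]
  have hS1 : S.f 1 = T.f q := by
    refine tendsto_nhds_unique (hφ 1) ?_
    refine tendsto_const_nhds.congr fun n => ?_
    rw [one_mul, hK3 _ (hyK n)]
  have hfin := hE S ‖q‖ hdom p
  have hfin2 : (S.f p).re ≤ c :=
    le_of_tendsto' ((Complex.continuous_re.tendsto _).comp (hφ p)) fun n => hK1 _ (hyK n)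
  rw [hfin, hS1, Complex.mul_re, ((mt' A T).2.1 p hp).2, mul_zero, sub_zero] at hfin2
  linarith [mul_comm (T.f p).re (T.f q).re]

end

end Run7.h450
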