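import Mathlib

/-!
# Radius of comparison, crossed products and fixed point algebras: definitions

`M_∞(B)` is the union of the matrix algebras `M_n(B)`; its elements are given as elements of some
`M_n(B)`.
-/

set_option autoImplicit false

namespace Run7.h450

open Filter Topology
open scoped ENNReal NNReal

universe u v w

/-- the C*-algebra `M_n(B)` -/
abbrev Mat (n : ℕ) (B : Type u) : Type u := CStarMatrix (Fin n) (Fin n) B

/-- simple C*-algebra: nonzero, and the only closed two-sided ideals are `0` and `A` -/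
def SimpleCStar (A : Type u) [CStarAlgebra A] : Prop :=
  Nontrivial A ∧ ∀ I : TwoSidedIdeal A, IsClosed (I : Set A) → I = ⊥ ∨ I = ⊤

/-- The axioms of a quasitrace on a unital C*-algebra: `0 ≤ τ(x* x) = τ(x x*)`,
`τ(a + i b) = τ(a) + i τ(b)` for self-adjoint `a`, `b`, and `τ` is linear on commutative
*-subalgebras (two elements lie in a common commutative *-subalgebra if and only if they are normal
and each commutes with the other and its adjoint). -/
structure IsQuasitrace {R : Type u} [CStarAlgebra R] (τ : R → ℂ) : Prop where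
  nonneg : ∀ x : R, 0 ≤ (τ (star x * x)).re ∧ (τ (star x * x)).im = 0
  comm : ∀ x : R, τ (star x * x) = τ (x * star x)
  add_I : ∀ a b : R, IsSelfAdjoint a → IsSelfAdjoint b →
    τ (a + Complex.I • b) = τ a + Complex.I * τ b
  linear : ∀ (c : ℂ) (x y : R), IsStarNormal x → IsStarNormal y → Commute x y →
    Commute x (star y) → τ (c • x + y) = c * τ x + τ y

/-- `x ⊕ 0`: the `(n+1) × (n+1)` matrix with upper left corner `x` and zeros elsewhere -/
def pad {B : Type u} [Zero B] {n : ℕ} (x : Mat n B) : Mat (n + 1) B :=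
  CStarMatrix.ofMatrix fun i j =>
    if h : (i : ℕ) < n ∧ (j : ℕ) < n then x ⟨i, h.1⟩ ⟨j, h.2⟩ else 0

section

variable (B : Type u) [CStarAlgebra B] [PartialOrder B] [StarOrderedRing B]

/-- `QT(B)`: the normalised 2-quasitraces on `B`, each given together with its (unique) extension
to a quasitrace on `M_∞(B)`; `val n` is the restriction of this extension to `M_n(B)`. -/
structure QT where
  /-- the values on `M_n(B)` -/
  val : ∀ n : ℕ, Mat n B → ℂ
  quasi : ∀ n : ℕ, IsQuasitrace (val n)
  val_pad : ∀ (n : ℕ) (x : Mat n B), val (n + 1) (pad x) = val n x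
  map_one : val 1 1 = 1

variable {B}

/-- `a ^ (1 / (k + 1))` for a positive element `a` of a C*-algebra -/
noncomputable def root {R : Type u} [CStarAlgebra R] (k : ℕ) (a : R) : R :=
  cfcₙ (fun x : ℝ => x ^ (1 / ((k : ℝ) + 1))) a

/-- the rank `d_τ(a) = lim_k τ(a ^ (1/k))` -/
noncomputable def QT.d (τ : QT B) {n : ℕ} (a : Mat n B) : ℝ :=
  limUnder atTop fun k : ℕ => (τ.val n (root k a)).re

/-- the quasitrace `τ` is a trace, i.e. additive on `M_∞(B)` -/
def QT.IsTrace (τ : QT B) : Prop := ∀ (n : ℕ) (x y : Mat n B), τ.val n (x + y) =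
  τ.val n x + τ.val n y

/-- Cuntz subequivalence `a ≾ b` in `M_∞(B)`, for `a ∈ M_n(B)` and `b ∈ M_m(B)`: there are
`n × m` matrices `x_k` with `x_k b x_k^* → a`. -/
def Cuntz {n m : ℕ} (a : Mat n B) (b : Mat m B) : Prop :=
  ∃ x : ℕ → CStarMatrix (Fin n) (Fin m) B,
    Tendsto (fun k => x k * b * (x k).conjTranspose) atTop (𝓝 a)

variable (B)

/-- for all positive `a, b` in `M_∞(B)`, `d_τ(a) + r < d_τ(b)` for all `τ` in `QT(B)` implies
`a ≾ b` -/
def Comparison (r : ℝ) : Prop :=
  ∀ (n m : ℕ) (a : Mat n B) (b : Mat m B), 0 ≤ a → 0 ≤ b →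
    (∀ τ : QT B, τ.d a + r < τ.d b) → Cuntz a b

/-- the radius of comparison: the infimum of the `r` in `[0,∞)` with `Comparison B r` -/
noncomputable def rc : ℝ≥0∞ := ⨅ (r : ℝ≥0) (_ : Comparison B r), (r : ℝ≥0∞)

/-- `QT(B)` is the convex hull of finitely many traces -/
def FinitelyManyTraces : Prop :=
  ∃ (k : ℕ) (T : Fin k → QT B), (∀ i, (T i).IsTrace) ∧
    ∀ τ : QT B, ∃ c : Fin k → ℝ, (∀ i, 0 ≤ c i) ∧ ∑ i, c i = 1 ∧
      ∀ (n : ℕ) (x : Mat n B), τ.val n x = ∑ i, (c i : ℂ) * (T i).val n x

end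

/-- `B` is the crossed product `C*(G, A, α)` of the unital C*-algebra `A` by the action `α` of the
finite group `G`: it contains `A` unitally (by `ι`) and a unitary representation `u` of `G` with
`u_g a u_g^* = α_g(a)`, and each element of `B` is `∑ a_g u_g` for a unique family of `a_g`
in `A`. -/
structure CrossedProduct {A : Type u} [CStarAlgebra A] {G : Type v} [Group G] [Fintype G]
    (α : G →* (A ≃⋆ₐ[ℂ] A)) (B : Type w) [CStarAlgebra B] where
  /-- the inclusion of `A` -/
  ι : A →⋆ₐ[ℂ] B
  /-- the canonical unitaries -/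
  u : G →* B
  star_u : ∀ g, star (u g) = u g⁻¹
  cov : ∀ (g : G) (a : A), u g * ι a * star (u g) = ι (α g a)
  bij : Function.Bijective fun f : G → A => ∑ g, ι (f g) * u g

/-- `D` (with the inclusion `j`) is the fixed point algebra `A^α` -/
structure IsFixedPointAlgebra {A : Type u} [CStarAlgebra A] {G : Type v} [Group G]
    (α : G →* (A ≃⋆ₐ[ℂ] A)) {D : Type w} [CStarAlgebra D] (j : D →⋆ₐ[ℂ] A) : Prop where
  injective : Function.Injective j
  range : ∀ a : A, (∃ d, j d = a) ↔ ∀ g, α g a = a

end Run7.h450
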