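import Pool.Agent.Run7.h450.Defs

/-!
# Uniform property Gamma and complemented partitions of unity: definitions
-/

set_option autoImplicit false

namespace Run7.h450

universe u

section

variable {B : Type u} [CStarAlgebra B] [PartialOrder B] [StarOrderedRing B]

/-- the value `τ(x)` for `x` in `B` -/
noncomputable def QT.ev (τ : QT B) (x : B) : ℂ := τ.val 1 (CStarMatrix.ofMatrix fun _ _ => x)

/-- the seminorm `‖x‖_{2,τ} = τ(x^* x)^{1/2}` -/
noncomputable def QT.norm2 (τ : QT B) (x : B) : ℝ := Real.sqrt (τ.ev (star x * x)).re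

variable (B)

/-- every normalised 2-quasitrace on `B` is a trace -/
def AllTraces : Prop := ∀ τ : QT B, τ.IsTrace

/-- The family `e` of positive contractions is, up to `ε` and uniformly over the tracial states,
a partition of unity of pairwise orthogonal elements which commute with the elements of `F`. -/
def AlmostCentralPartition {B : Type u} [CStarAlgebra B] [PartialOrder B] [StarOrderedRing B]
    (F : Finset B) (ε : ℝ) {k : ℕ} (e : Fin k → B) : Prop :=
  (∀ i, 0 ≤ e i ∧ e i ≤ 1) ∧ ∀ τ : QT B, τ.IsTrace →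
    (∀ i, ∀ x ∈ F, τ.norm2 (e i * x - x * e i) ≤ ε) ∧
    (∀ i l, i ≠ l → τ.norm2 (e i * e l) ≤ ε) ∧ τ.norm2 (∑ i, e i - 1) ≤ ε

/-- uniform property `Γ` (Castillejos, Evington, Tikuisis, White, Winter) -/
def UniformGamma : Prop :=
  ∀ (k : ℕ) (F : Finset B) (ε : ℝ), 0 < k → 0 < ε → ∃ e : Fin k → B,
    AlmostCentralPartition F ε e ∧ ∀ τ : QT B, τ.IsTrace → ∀ i, ∀ x ∈ F,
      ‖τ.ev (x * e i) - τ.ev x / k‖ ≤ ε

/-- complemented partitions of unity (Castillejos, Evington, Tikuisis, White, Winter) -/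
def CPoU : Prop :=
  ∀ (k : ℕ) (a : Fin k → B) (δ : ℝ), (∀ i, 0 ≤ a i) →
    (∀ τ : QT B, τ.IsTrace → ∃ i, (τ.ev (a i)).re < δ) →
    ∀ (F : Finset B) (ε : ℝ), 0 < ε → ∃ e : Fin k → B,
      AlmostCentralPartition F ε e ∧ ∀ τ : QT B, τ.IsTrace → ∀ i,
        (τ.ev (a i * e i)).re ≤ δ * (τ.ev (e i)).re + ε

end

end Run7.h450
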