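import Pool.Agent.Run7.h450.Defs2

/-!
# Stable rank one: definition
-/

set_option autoImplicit false

namespace Run7.h450

universe u

/-- stable rank one: the invertible elements are dense -/
def StableRankOne (B : Type u) [CStarAlgebra B] : Prop := Dense {x : B | IsUnit x}

end Run7.h450
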