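import Mathlib

/-!
# Crossed products by homeomorphisms, radius of comparison for tracial states: definitions
-/

set_option autoImplicit false

namespace Run7.h450.Dyn

open Filter Topology
open scoped ENNReal NNReal

universe u v

/-- the C*-algebra `M_n(B)` -/
abbrev Mat (n : ℕ) (B : Type u) : Type u := CStarMatrix (Fin n) (Fin n) B

/-- a homeomorphism is minimal if every orbit is dense -/
def Minimal {X : Type u} [TopologicalSpace X] (h : X ≃ₜ X) : Prop :=
  ∀ x : X, Dense (Set.range fun k : ℤ => (h ^ k) x)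

/-- `B` is the crossed product `C*(Z, X, h) = C(X) ⋊ Z` by the automorphism `f ↦ f ∘ h⁻¹`: it is
generated by an (injective) copy of `C(X)` and a unitary `u` with `u f u^* = f ∘ h⁻¹`, and it is
universal for such pairs. -/
structure Crossed {X : Type u} [TopologicalSpace X] [CompactSpace X] (h : X ≃ₜ X)
    (B : Type v) [CStarAlgebra B] where
  /-- the inclusion of `C(X)` -/
  ι : C(X, ℂ) →⋆ₐ[ℂ] B
  injective : Function.Injective ι
  /-- the canonical unitary -/
  u : unitary B
  cov : ∀ f : C(X, ℂ), (u : B) * ι f * star (u : B) = ι (f.comp (h.symm : C(X, X)))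
  dense : closure (Submodule.span ℂ {x : B | ∃ (f : C(X, ℂ)) (k : ℤ),
    x = ι f * ((u ^ k : unitary B) : B)} : Set B) = Set.univ
  lift : ∀ (C : Type v) [CStarAlgebra C] (π : C(X, ℂ) →⋆ₐ[ℂ] C) (w : unitary C),
    (∀ f : C(X, ℂ), (w : C) * π f * star (w : C) = π (f.comp (h.symm : C(X, X)))) →
    ∃ Φ : B →⋆ₐ[ℂ] C, (∀ f, Φ (ι f) = π f) ∧ Φ (u : B) = w

section

variable (B : Type u) [CStarAlgebra B]

/-- the tracial states of `B` -/
structure TState where
  /-- the functional -/
  f : B →L[ℂ] ℂ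
  pos : ∀ x, 0 ≤ (f (star x * x)).re ∧ (f (star x * x)).im = 0
  tr : ∀ x y, f (x * y) = f (y * x)
  map_one : f 1 = 1

variable {B}

/-- `a ^ (1 / (k + 1))` for a positive element `a` of a C*-algebra -/
noncomputable def root {R : Type u} [CStarAlgebra R] (k : ℕ) (a : R) : R :=
  cfcₙ (fun x : ℝ => x ^ (1 / ((k : ℝ) + 1))) a

variable [PartialOrder B] [StarOrderedRing B]

/-- the rank `d_τ(a) = lim_k τ(a ^ (1/k))`, where `τ` also denotes the unnormalised extension of
`τ` to `M_n(B)` -/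
noncomputable def TState.d (τ : TState B) {n : ℕ} (a : Mat n B) : ℝ :=
  limUnder atTop fun k : ℕ => (∑ i, τ.f (root k a i i)).re

/-- Cuntz subequivalence `a ≾ b` in `M_∞(B)`, for `a ∈ M_n(B)` and `b ∈ M_m(B)`: there are
`n × m` matrices `x_k` with `x_k b x_k^* → a`. -/
def Cuntz {n m : ℕ} (a : Mat n B) (b : Mat m B) : Prop :=
  ∃ x : ℕ → CStarMatrix (Fin n) (Fin m) B,
    Tendsto (fun k => x k * b * (x k).conjTranspose) atTop (𝓝 a)

variable (B)

/-- for all positive `a, b` in `M_∞(B)`, `d_τ(a) + r < d_τ(b)` for all tracial states `τ` implies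
`a ≾ b` -/
def Comparison (r : ℝ) : Prop :=
  ∀ (n m : ℕ) (a : Mat n B) (b : Mat m B), 0 ≤ a → 0 ≤ b →
    (∀ τ : TState B, τ.d a + r < τ.d b) → Cuntz a b

/-- the radius of comparison: the infimum of the `r` in `[0,∞)` with `Comparison B r` -/
noncomputable def rc : ℝ≥0∞ := ⨅ (r : ℝ≥0) (_ : Comparison B r), (r : ℝ≥0∞)

end

end Run7.h450.Dyn
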