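import Pool.Agent.Run7.h450.Defs
import Pool.Agent.Run7.h450.Avg
import Pool.Agent.Run7.h450.Q1

/-!
# The averaging property of the traces on matrix algebras
-/

set_option autoImplicit false
set_option linter.unusedSectionVars false

namespace Run7.h450

open Filter Topology
open Pool.Agent.H327R4.Pure

universe u v

section

variable {A : Type u} [CStarAlgebra A] [PartialOrder A] [StarOrderedRing A]

theorem entry_nonneg {N : ℕ} {h : MM N A} (hh : 0 ≤ h) (k : Fin N) : 0 ≤ h k k := by
  obtain ⟨x, rfl⟩ := lowm_sq (B := MM N A) hh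
  rw [CStarMatrix.mul_apply]
  exact Finset.sum_nonneg fun j _ => by
    rw [CStarMatrix.star_apply]
    exact star_mul_self_nonneg _

/-- the matrix with the entry `a` at `(i,j)` -/
noncomputable def sg {N : ℕ} (i j : Fin N) (a : A) : MM N A :=
  CStarMatrix.ofMatrix (Matrix.single i j a)

theorem sg_apply {N : ℕ} (i j : Fin N) (a : A) (p q : Fin N) :
    sg i j a p q = if i = p ∧ j = q then a else 0 := by
  simp only [sg, CStarMatrix.ofMatrix_apply, Matrix.single_apply]

theorem sg_mul {N : ℕ} (i j k : Fin N) (a b : A) : sg i j a * sg j k b = sg i k (a * b) := by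
  have h : (Matrix.single i j a) * Matrix.single j k b = Matrix.single i k (a * b) := by simp
  exact h

theorem sg_star {N : ℕ} (i j : Fin N) (a : A) : star (sg i j a) = sg j i (star a) := by
  ext p q
  rw [CStarMatrix.star_apply]
  simp only [sg, CStarMatrix.ofMatrix_apply, Matrix.single_apply]
  by_cases h1 : i = q <;> by_cases h2 : j = p
  · subst h1; subst h2; simp
  · simp [h2]
  · simp [h1]
  · simp [h1]

theorem sg_left {N : ℕ} (i j : Fin N) (a : A) (M : MM N A) (p q : Fin N) :
    (sg i j a * M) p q = if i = p then a * M j q else 0 := by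
  rw [CStarMatrix.mul_apply, Finset.sum_eq_single j]
  · simp only [sg, CStarMatrix.ofMatrix_apply, Matrix.single_apply]
    by_cases h : i = p <;> simp [h]
  · intro b _ hb
    simp only [sg, CStarMatrix.ofMatrix_apply, Matrix.single_apply]
    simp [Ne.symm hb]
  · simp

theorem sg_right {N : ℕ} (i j : Fin N) (a : A) (M : MM N A) (p q : Fin N) :
    (M * sg i j a) p q = if j = q then M p i * a else 0 := by
  rw [CStarMatrix.mul_apply, Finset.sum_eq_single i]
  · simp only [sg, CStarMatrix.ofMatrix_apply, Matrix.single_apply]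
    by_cases h : j = q <;> simp [h]
  · intro b _ hb
    simp only [sg, CStarMatrix.ofMatrix_apply, Matrix.single_apply]
    simp [Ne.symm hb]
  · simp

theorem sg_conj {N : ℕ} (i j : Fin N) (a b : A) (M : MM N A) :
    sg i j a * M * sg j i b = sg i i (a * M j j * b) := by
  ext p q
  rw [sg_right, sg_left, sg_apply]
  by_cases h1 : i = p <;> by_cases h2 : i = q
  · rw [if_pos h2, if_pos h1, if_pos ⟨h1, h2⟩]
  · rw [if_neg h2, if_neg (fun h => h2 h.2)]
  · rw [if_pos h2, if_neg h1, if_neg (fun h => h1 h.1), zero_mul]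
  · rw [if_neg h2, if_neg (fun h => h1 h.1)]

theorem tr_sg {N : ℕ} (T : Tr A) (i : Fin N) (M : MM N A) (a : A) :
    (trM T (Fin N)).f (M * sg i i a) = T.f (M i i * a) := by
  rw [trM_apply, Finset.sum_eq_single i]
  · rw [sg_right, if_pos rfl]
  · intro b _ hb
    rw [sg_right, if_neg (Ne.symm hb), map_zero]
  · simp

theorem sg_one_le {N : ℕ} (i : Fin N) : sg i i (1 : A) ≤ 1 := by
  have hs : star (sg i i (1 : A)) = sg i i 1 := by rw [sg_star, star_one]
  have hm : sg i i (1 : A) * sg i i 1 = sg i i 1 := by rw [sg_mul, mul_one]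
  have h : 1 - sg i i (1 : A) = star (1 - sg i i 1) * (1 - sg i i 1) := by
    rw [one_sub_star hs, mul_sub, mul_one, sub_mul, one_mul, hm, sub_self, sub_zero]
  rw [← sub_nonneg, h]
  exact star_mul_self_nonneg _

/-- the matrix trace of an extreme trace has the averaging property -/
theorem avg_mat (T : Tr A) (hE : Ext T) (N : ℕ) : Avg (trM T (Fin N)) := by
  intro η hη
  set e : ℝ := η / ((N : ℝ) + 1) with he
  have he0 : 0 < e := by positivity
  refine ⟨e * e / 2, by positivity, ?_⟩
  intro p q hp hp1 hq hq1 hpη hqη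
  have hex : ∀ m : MM N A, 0 ≤ m → η ≤ ((trM T (Fin N)).f m).re → ∃ i, e ≤ (T.f (m i i)).re := by
    intro m hm hmη
    by_contra hcon
    push Not at hcon
    rw [trM_apply, Complex.re_sum] at hmη
    have h1 : ∑ i : Fin N, (T.f (m i i)).re ≤ ∑ _i : Fin N, e :=
      Finset.sum_le_sum fun i _ => (hcon i).le
    rw [Finset.sum_const, Finset.card_univ, Fintype.card_fin, nsmul_eq_mul] at h1
    have h2 : (N : ℝ) * e < η := by
      have : (N : ℝ) * e = η * (N / (N + 1)) := by
        rw [he]
        field_simp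
      rw [this]
      have h3 : (N : ℝ) / (N + 1) < 1 := by
        rw [div_lt_one (by positivity)]
        linarith
      nlinarith
    linarith
  obtain ⟨i, hi⟩ := hex p hp hpη
  obtain ⟨j, hj⟩ := hex q hq hqη
  have hlt : e * e / 2 < (T.f (p i i)).re * (T.f (q j j)).re := by
    have h1 : e * e ≤ (T.f (p i i)).re * (T.f (q j j)).re :=
      mul_le_mul hi hj he0.le (he0.le.trans hi)
    have : 0 < e * e := by positivity
    linarith
  obtain ⟨u, hu, hlt'⟩ := exists_unitary T hE (p i i) (q j j) (entry_nonneg hp i)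
    (entry_nonneg hq j) _ hlt
  refine ⟨sg i j u, ?_, ?_⟩
  · rw [sg_star, sg_mul, Unitary.mul_star_self_of_mem hu]
    exact sg_one_le i
  · rw [sg_star, sg_conj, tr_sg]
    exact hlt'.le

end

end Run7.h450

/-!
# Quasitraces and traces
-/

set_option autoImplicit false
set_option linter.unusedSectionVars false

namespace Run7.h450

open Filter Topology
open Pool.Agent.H327R4.Pure

universe u v w

section

variable {A : Type u} [CStarAlgebra A] [PartialOrder A] [StarOrderedRing A]

theorem IsQuasitrace.of_tr {R : Type u} [CStarAlgebra R] (T : Tr R) :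
    IsQuasitrace (fun x : R => T.f x) where
  nonneg := T.pos
  comm x := T.tr _ _
  add_I a b _ _ := by
    show T.f (a + Complex.I • b) = T.f a + Complex.I * T.f b
    rw [map_add, map_smul, smul_eq_mul]
  linear c x y _ _ _ _ := by
    show T.f (c • x + y) = c * T.f x + T.f y
    rw [map_add, map_smul, smul_eq_mul]

/-- the quasitrace given by a trace -/
noncomputable def QT.ofTr (T : Tr A) (h : T.f 1 = 1) : QT A where
  val n x := (trM T (Fin n)).f x
  quasi n := IsQuasitrace.of_tr (trM T (Fin n))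
  val_pad n x := by
    rw [trM_apply, trM_apply, Fin.sum_univ_castSucc]
    have h1 : pad x (Fin.last n) (Fin.last n) = 0 := by
      simp [pad]
    have h2 : ∀ i : Fin n, pad x i.castSucc i.castSucc = x i i := by
      intro i
      simp [pad]
    rw [h1, map_zero, add_zero]
    exact Finset.sum_congr rfl fun i _ => by rw [h2]
  map_one := by
    rw [trM_apply]
    simp [h]

theorem IsQuasitrace.zero {R : Type u} [CStarAlgebra R] {τ : R → ℂ} (h : IsQuasitrace τ) :
    τ 0 = 0 := by
  have := h.linear 1 0 0 (IsSelfAdjoint.zero R).isStarNormal (IsSelfAdjoint.zero R).isStarNormal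
    (Commute.zero_left _) (Commute.zero_left _)
  simpa using this

theorem IsQuasitrace.smul {R : Type u} [CStarAlgebra R] {τ : R → ℂ} (h : IsQuasitrace τ) (c : ℂ)
    (x : R) (hx : IsStarNormal x) : τ (c • x) = c * τ x := by
  have := h.linear c x 0 hx (IsSelfAdjoint.zero R).isStarNormal
    (Commute.zero_right _) (by rw [star_zero]; exact Commute.zero_right _)
  rwa [add_zero, h.zero, add_zero] at this

/-- an additive quasitrace is linear -/
theorem IsQuasitrace.csmul {R : Type u} [CStarAlgebra R] {τ : R → ℂ} (h : IsQuasitrace τ)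
    (hadd : ∀ x y, τ (x + y) = τ x + τ y) (c : ℂ) (x : R) : τ (c • x) = c * τ x := by
  have hx := realPart_add_I_smul_imaginaryPart x
  have ha : IsSelfAdjoint (realPart x : R) := (realPart x).2
  have hb : IsSelfAdjoint (imaginaryPart x : R) := (imaginaryPart x).2
  conv_lhs => rw [← hx]
  conv_rhs => rw [← hx]
  rw [smul_add, smul_smul, hadd, hadd, h.smul _ _ ha.isStarNormal, h.smul _ _ hb.isStarNormal,
    h.smul _ _ hb.isStarNormal]
  ring

theorem IsQuasitrace.tr {R : Type u} [CStarAlgebra R] {τ : R → ℂ} (h : IsQuasitrace τ)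
    (hadd : ∀ x y, τ (x + y) = τ x + τ y) (x y : R) : τ (x * y) = τ (y * x) := by
  have hs := h.csmul hadd
  have hneg : ∀ x, τ (-x) = -τ x := fun x => by
    have := hs (-1) x
    simpa using this
  have hsub : ∀ x y, τ (x - y) = τ x - τ y := fun x y => by
    rw [sub_eq_add_neg, hadd, hneg, sub_eq_add_neg]
  set z : R := star x with hz
  have hx : x = star z := by rw [hz, star_star]
  have key : ∀ w : R, τ (star z * w) + τ (star w * z) = τ (w * star z) + τ (z * star w) := by
    intro w
    have h1 := h.comm (z + w)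
    have e1 : star (z + w) * (z + w) = star z * z + star w * w + (star z * w + star w * z) := by
      rw [star_add]; noncomm_ring
    have e2 : (z + w) * star (z + w) = z * star z + w * star w + (w * star z + z * star w) := by
      rw [star_add]; noncomm_ring
    rw [e1, e2, hadd, hadd, hadd (z * star z + w * star w), hadd (z * star z), h.comm z,
      h.comm w, hadd, hadd (w * star z)] at h1
    exact add_left_cancel h1
  have k1 := key y
  have k2 := key (Complex.I • y)
  rw [star_smul, Complex.star_def, Complex.conj_I, mul_smul_comm, smul_mul_assoc, smul_mul_assoc,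
    mul_smul_comm, hs, hs, hs, hs] at k2
  rw [hx]
  have k3 : τ (star z * y) - τ (star y * z) = τ (y * star z) - τ (z * star y) := by
    have h3 : Complex.I * (τ (star z * y) - τ (star y * z)) =
        Complex.I * (τ (y * star z) - τ (z * star y)) := by
      linear_combination k2
    exact mul_left_cancel₀ Complex.I_ne_zero h3
  have : (2 : ℂ) * τ (star z * y) = 2 * τ (y * star z) := by linear_combination k1 + k3
  exact mul_left_cancel₀ two_ne_zero this

theorem pad_sg {n : ℕ} (i : Fin n) (a : A) : pad (sg i i a) = sg i.castSucc i.castSucc a := by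
  ext p q
  simp only [pad, CStarMatrix.ofMatrix_apply, sg_apply]
  by_cases h : (p : ℕ) < n ∧ (q : ℕ) < n
  · rw [dif_pos h]
    congr 1
    simp only [Fin.ext_iff, Fin.val_castSucc]
  · rw [dif_neg h, if_neg]
    rintro ⟨h1, h2⟩
    apply h
    rw [← h1, ← h2]
    simp

theorem cm_sum_apply {ι : Type w} {m n : Type v} (s : Finset ι) (f : ι → CStarMatrix m n A)
    (p : m) (q : n) : (∑ i ∈ s, f i) p q = ∑ i ∈ s, f i p q := by
  classical
  induction s using Finset.induction_on with
  | empty => simp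
  | insert a t ha ih => rw [Finset.sum_insert ha, Finset.sum_insert ha, CStarMatrix.add_apply, ih]

theorem mat_sum {n : ℕ} (x : Mat n A) : x = ∑ i, ∑ j, sg i j (x i j) := by
  ext p q
  rw [cm_sum_apply, Finset.sum_eq_single p]
  · rw [cm_sum_apply, Finset.sum_eq_single q]
    · rw [sg_apply, if_pos ⟨rfl, rfl⟩]
    · intro b _ hb
      rw [sg_apply, if_neg (fun h => hb h.2)]
    · simp
  · intro b _ hb
    rw [cm_sum_apply]
    exact Finset.sum_eq_zero fun j _ => by rw [sg_apply, if_neg (fun h => hb h.1)]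
  · simp

theorem sg_add {n : ℕ} (i j : Fin n) (a b : A) : sg i j (a + b) = sg i j a + sg i j b := by
  ext p q
  rw [CStarMatrix.add_apply, sg_apply, sg_apply, sg_apply]
  by_cases h : i = p ∧ j = q
  · rw [if_pos h, if_pos h, if_pos h]
  · rw [if_neg h, if_neg h, if_neg h, add_zero]

theorem sg_smul {n : ℕ} (i j : Fin n) (c : ℂ) (a : A) : sg i j (c • a) = c • sg i j a := by
  ext p q
  rw [CStarMatrix.smul_apply, sg_apply, sg_apply]
  by_cases h : i = p ∧ j = q
  · rw [if_pos h, if_pos h]
  · rw [if_neg h, if_neg h, smul_zero]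

theorem sg_zero {n : ℕ} (i j : Fin n) : sg i j (0 : A) = 0 := by
  ext p q
  rw [sg_apply]
  simp

theorem sg_mul_ne {n : ℕ} (i j k l : Fin n) (h : j ≠ k) (a b : A) : sg i j a * sg k l b = 0 := by
  ext p q
  rw [sg_left, sg_apply]
  by_cases h1 : i = p
  · rw [if_pos h1, if_neg (fun h2 => h h2.1.symm), mul_zero]
    rfl
  · rw [if_neg h1]
    rfl

/-- an additive normalised quasitrace comes from a tracial state -/
theorem QT.exists_tr (τ : QT A) (hτ : τ.IsTrace) :
    ∃ T : Tr A, T.f 1 = 1 ∧ ∀ (n : ℕ) (x : Mat n A), τ.val n x = (trM T (Fin n)).f x := by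
  have hsm : ∀ n (c : ℂ) (x : Mat n A), τ.val n (c • x) = c * τ.val n x := fun n =>
    (τ.quasi n).csmul (hτ n)
  have htr : ∀ n (x y : Mat n A), τ.val n (x * y) = τ.val n (y * x) := fun n =>
    (τ.quasi n).tr (hτ n)
  have h0 : ∀ n, τ.val n 0 = 0 := fun n => (τ.quasi n).zero
  set t : A → ℂ := fun a => τ.val 1 (sg 0 0 a) with ht
  have hd : ∀ n (i j : Fin n) (a : A), τ.val n (sg i i a) = τ.val n (sg j j a) := by
    intro n i j a
    have h1 := htr n (sg i j a) (sg j i 1)
    rwa [sg_mul, sg_mul, mul_one, one_mul] at h1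
  have hz : ∀ n (a : A), τ.val (n + 1) (sg 0 0 a) = t a := by
    intro n a
    induction n with
    | zero => rfl
    | succ n ih =>
      rw [← ih, ← τ.val_pad (n + 1), pad_sg]
      rfl
  have hdiag : ∀ n (i : Fin n) (a : A), τ.val n (sg i i a) = t a := by
    intro n i a
    cases n with
    | zero => exact i.elim0
    | succ n => rw [hd _ i 0, hz]
  have hoff : ∀ n (i j : Fin n) (a : A), i ≠ j → τ.val n (sg i j a) = 0 := by
    intro n i j a hij
    have h1 := htr n (sg i i 1) (sg i j a)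
    rwa [sg_mul, one_mul, sg_mul_ne _ _ _ _ (Ne.symm hij), h0] at h1
  have hsum : ∀ n (s : Finset (Fin n)) (f : Fin n → Mat n A),
      τ.val n (∑ i ∈ s, f i) = ∑ i ∈ s, τ.val n (f i) := by
    intro n s f
    classical
    induction s using Finset.induction_on with
    | empty => simp [h0]
    | insert a r ha ih => rw [Finset.sum_insert ha, Finset.sum_insert ha, hτ, ih]
  have hval : ∀ n (x : Mat n A), τ.val n x = ∑ i, t (x i i) := by
    intro n x
    conv_lhs => rw [mat_sum x]
    rw [hsum]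
    refine Finset.sum_congr rfl fun i _ => ?_
    rw [hsum, Finset.sum_eq_single i]
    · exact hdiag n i _
    · intro j _ hj
      exact hoff n i j _ (Ne.symm hj)
    · simp
  have htadd : ∀ a b, t (a + b) = t a + t b := fun a b => by
    rw [ht]
    simp only [sg_add]
    exact hτ 1 _ _
  have htsm : ∀ (c : ℂ) a, t (c • a) = c * t a := fun c a => by
    rw [ht]
    simp only [sg_smul]
    exact hsm 1 _ _
  have ht1 : t 1 = 1 := by
    have : (sg 0 0 (1 : A) : Mat 1 A) = 1 := by
      ext p q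
      rw [sg_apply, CStarMatrix.one_apply]
      have hp : p = 0 := Subsingleton.elim _ _
      have hq : q = 0 := Subsingleton.elim _ _
      simp [hp, hq]
    rw [ht]
    simp only [this]
    exact τ.map_one
  have htt : ∀ a b, t (a * b) = t (b * a) := by
    intro a b
    have h1 := htr 1 (sg 0 0 a) (sg 0 0 b)
    rwa [sg_mul, sg_mul] at h1
  have htpos : ∀ x, 0 ≤ (t (star x * x)).re ∧ (t (star x * x)).im = 0 := by
    intro x
    have h1 := (τ.quasi 1).nonneg (sg 0 0 x)
    rwa [sg_star, sg_mul] at h1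
  have htpos' : ∀ x, 0 ≤ x → 0 ≤ (t x).re ∧ (t x).im = 0 := by
    intro x hx
    obtain ⟨y, rfl⟩ := lowm_sq hx
    exact htpos y
  have htsub : ∀ a b, t (a - b) = t a - t b := by
    intro a b
    have h1 := htadd (a - b) b
    rw [sub_add_cancel] at h1
    rw [h1]
    ring
  have hsa : ∀ a, IsSelfAdjoint a → ‖t a‖ ≤ ‖a‖ := by
    intro a ha
    have h1 : 0 ≤ algebraMap ℝ A ‖a‖ - a := sub_nonneg.mpr (IsSelfAdjoint.le_algebraMap_norm_self ha)
    have h2 : 0 ≤ algebraMap ℝ A ‖a‖ + a := by
      have := IsSelfAdjoint.neg_algebraMap_norm_le_self ha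
      rwa [neg_le_iff_add_nonneg, add_comm] at this
    have e1 : t (algebraMap ℝ A ‖a‖) = (‖a‖ : ℂ) := by
      rw [Algebra.algebraMap_eq_smul_one, ← Complex.coe_smul, htsm, ht1, mul_one]
    have h3 := htpos' _ h1
    have h4 := htpos' _ h2
    rw [htsub, e1] at h3
    rw [htadd, e1] at h4
    simp only [Complex.sub_re, Complex.sub_im, Complex.add_re, Complex.ofReal_re,
      Complex.ofReal_im] at h3 h4
    have him : (t a).im = 0 := by linarith [h3.2]
    have : t a = ((t a).re : ℂ) := by
      apply Complex.ext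
      · simp
      · simp [him]
    rw [this, Complex.norm_real, Real.norm_eq_abs, abs_le]
    constructor <;> linarith [h3.1, h4.1]
  let L : A →ₗ[ℂ] ℂ :=
    { toFun := t
      map_add' := htadd
      map_smul' := fun c a => by simp only [htsm]; rfl }
  have hbd : ∀ x, ‖L x‖ ≤ 2 * ‖x‖ := by
    intro x
    show ‖t x‖ ≤ _
    conv_lhs => rw [← realPart_add_I_smul_imaginaryPart x]
    rw [htadd, htsm]
    refine (norm_add_le _ _).trans ?_
    rw [norm_mul, Complex.norm_I, one_mul, two_mul]
    exact add_le_add ((hsa _ (realPart x).2).trans (realPart.norm_le x))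
      ((hsa _ (imaginaryPart x).2).trans (imaginaryPart.norm_le x))
  refine ⟨{ f := L.mkContinuous 2 hbd, pos := htpos, tr := htt }, ht1, ?_⟩
  intro n x
  rw [hval, trM_apply]
  rfl

/-- ranks of convex combinations of traces -/
theorem QT.d_eq {ι : Type} [Fintype ι] (τ : QT A) (T : ι → Tr A) (c : ι → ℝ)
    (h : ∀ (n : ℕ) (x : Mat n A), τ.val n x = ∑ i, (c i : ℂ) * (trM (T i) (Fin n)).f x)
    {n : ℕ} (a : Mat n A) (ha : 0 ≤ a) : τ.d a = ∑ i, c i * rk (trM (T i) (Fin n)) a := by
  have h1 : Tendsto (fun k : ℕ => (τ.val n (root k a)).re) atTop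
      (𝓝 (∑ i, c i * rk (trM (T i) (Fin n)) a)) := by
    have h2 : (fun k : ℕ => (τ.val n (root k a)).re) =
        fun k : ℕ => ∑ i, c i * ((trM (T i) (Fin n)).f (rt k a)).re := by
      funext k
      rw [h, Complex.re_sum]
      refine Finset.sum_congr rfl fun i _ => ?_
      rw [Complex.re_ofReal_mul]
      rfl
    rw [h2]
    refine tendsto_finsetSum _ fun i _ => ?_
    exact ((rk' (MM n A) (trM (T i) (Fin n)) a ha).2.2.1).const_mul (c i)
  exact h1.limUnder_eq

end

end Run7.h450

/-!
# Finitely many traces: a family of extreme traces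
-/

set_option autoImplicit false
set_option linter.unusedSectionVars false

namespace Run7.h450

open Filter Topology
open Pool.Agent.H327R4.Pure

universe u v w

section

variable {A : Type u} [CStarAlgebra A] [PartialOrder A] [StarOrderedRing A]

/-- scalar multiples of traces -/
noncomputable def Tr.scale {R : Type u} [CStarAlgebra R] (c : ℝ) (hc : 0 ≤ c) (S : Tr R) :
    Tr R where
  f := (c : ℂ) • S.f
  pos x := by
    have h := S.pos x
    rw [smul_apply, smul_eq_mul, Complex.re_ofReal_mul,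
      Complex.im_ofReal_mul, h.2, mul_zero]
    exact ⟨mul_nonneg hc h.1, rfl⟩
  tr x y := by
    rw [smul_apply, smul_apply, S.tr]

/-- differences of traces -/
noncomputable def Tr.diff (T S : Tr A) (h : ∀ x, 0 ≤ x → (S.f x).re ≤ (T.f x).re) : Tr A where
  f := T.f - S.f
  pos x := by
    have h1 := S.pos x
    have h2 := T.pos x
    have h3 := h _ (star_mul_self_nonneg x)
    rw [sub_apply, Complex.sub_re, Complex.sub_im, h1.2, h2.2, sub_zero]
    exact ⟨by linarith, rfl⟩
  tr x y := by
    rw [sub_apply, sub_apply, S.tr, T.tr]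

theorem trM_one_sg (T : Tr A) (a : A) : (trM T (Fin 1)).f (sg 0 0 a) = T.f a := by
  rw [trM_apply, Fin.sum_univ_one, sg_apply, if_pos ⟨rfl, rfl⟩]

/-- every quasitrace is a convex combination of the `T i` with `i ∈ s` -/
def Gen {k : ℕ} (T : Fin k → Tr A) (s : Finset (Fin k)) : Prop :=
  ∀ τ : QT A, ∃ c : Fin k → ℝ, (∀ i, 0 ≤ c i) ∧ (∀ i, i ∉ s → c i = 0) ∧ ∑ i, c i = 1 ∧
    ∀ (n : ℕ) (x : Mat n A), τ.val n x = ∑ i, (c i : ℂ) * (trM (T i) (Fin n)).f x

theorem Gen.tr {k : ℕ} {T : Fin k → Tr A} {s : Finset (Fin k)} (h : Gen T s) (S : Tr A)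
    (hS : S.f 1 = 1) : ∃ c : Fin k → ℝ, (∀ i, 0 ≤ c i) ∧ (∀ i, i ∉ s → c i = 0) ∧ ∑ i, c i = 1 ∧
      ∀ x : A, S.f x = ∑ i, (c i : ℂ) * (T i).f x := by
  obtain ⟨c, h1, h2, h3, h4⟩ := h (QT.ofTr S hS)
  refine ⟨c, h1, h2, h3, fun x => ?_⟩
  have h5 := h4 1 (sg 0 0 x)
  have h6 : (QT.ofTr S hS).val 1 (sg 0 0 x) = S.f x := trM_one_sg S x
  rw [h6] at h5
  rw [h5]
  exact Finset.sum_congr rfl fun i _ => by rw [trM_one_sg]

theorem ext_of_min {k : ℕ} {T : Fin k → Tr A} (hT1 : ∀ i, (T i).f 1 = 1) {s : Finset (Fin k)}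
    (h : Gen T s) {i : Fin k} (hi : i ∈ s) (hmin : ¬ Gen T (s.erase i)) : Ext (T i) := by
  intro S C hS x
  obtain ⟨hm0, hmi⟩ := (mt' A S).2.1 1 zero_le_one
  set m : ℝ := (S.f 1).re with hm
  have hS1 : S.f 1 = (m : ℂ) := by
    apply Complex.ext
    · simp [hm]
    · simp [hmi]
  rcases hm0.eq_or_lt with h0 | hmpos
  · -- `S = 0`
    have h1 := cs S 1 x
    have h2 : N2 S 1 = 0 := by
      unfold N2
      rw [star_one, mul_one, ← hm, ← h0]
    rw [h2, zero_mul, star_one, one_mul] at h1
    have h3 : S.f x = 0 := by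
      have : ‖S.f x‖ = 0 := by nlinarith [norm_nonneg (S.f x)]
      exact norm_eq_zero.mp this
    rw [h3, hS1, ← h0]
    simp
  · set C' : ℝ := |C| + m + 1 with hC'
    have hC'pos : 0 < C' := by positivity
    have hCm : 0 < C' - m := by
      have := abs_nonneg C
      linarith
    have hdom : ∀ x, 0 ≤ x → (S.f x).re ≤ ((Tr.scale C' hC'pos.le (T i)).f x).re := by
      intro x hx
      have h1 : (Tr.scale C' hC'pos.le (T i)).f x = (C' : ℂ) * (T i).f x := rfl
      rw [h1, Complex.re_ofReal_mul]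
      refine (hS x hx).trans (mul_le_mul_of_nonneg_right ?_ ((mt' A (T i)).2.1 x hx).1)
      have := le_abs_self C
      linarith
    set D : Tr A := Tr.diff _ S hdom with hD
    set σ : Tr A := Tr.scale (1 / m) (by positivity) S with hσ
    set ρ : Tr A := Tr.scale (1 / (C' - m)) (by positivity) D with hρ
    have hσf : ∀ x, σ.f x = ((1 / m : ℝ) : ℂ) * S.f x := fun x => rfl
    have hρf : ∀ x, ρ.f x = ((1 / (C' - m) : ℝ) : ℂ) * ((C' : ℂ) * (T i).f x - S.f x) :=
      fun x => rfl
    have hσ1 : σ.f 1 = 1 := by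
      rw [hσf, hS1, ← Complex.ofReal_mul, one_div_mul_cancel hmpos.ne', Complex.ofReal_one]
    have hρ1 : ρ.f 1 = 1 := by
      rw [hρf, hT1, hS1, mul_one, ← Complex.ofReal_sub, ← Complex.ofReal_mul,
        one_div_mul_cancel hCm.ne', Complex.ofReal_one]
    obtain ⟨a, ha0, has, ha1, haf⟩ := h.tr σ hσ1
    obtain ⟨b, hb0, hbs, hb1, hbf⟩ := h.tr ρ hρ1
    set w : Fin k → ℝ := fun j => (m / C') * a j + ((C' - m) / C') * b j with hw
    have hw0 : ∀ j, 0 ≤ w j := fun j =>
      add_nonneg (mul_nonneg (by positivity) (ha0 j)) (mul_nonneg (by positivity) (hb0 j))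
    have hws : ∀ j, j ∉ s → w j = 0 := fun j hj => by
      simp only [hw]
      rw [has j hj, hbs j hj]
      ring
    have hw1 : ∑ j, w j = 1 := by
      simp only [hw]
      rw [Finset.sum_add_distrib, ← Finset.mul_sum, ← Finset.mul_sum, ha1, hb1]
      field_simp
      ring
    have hTw : ∀ x, (T i).f x = ∑ j, (w j : ℂ) * (T j).f x := by
      intro x
      have h1 : (T i).f x = ((m / C' : ℝ) : ℂ) * σ.f x + (((C' - m) / C' : ℝ) : ℂ) * ρ.f x := by
        rw [hσf, hρf]
        have hmC : (m : ℂ) ≠ 0 := by exact_mod_cast hmpos.ne'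
        have hCC : (C' : ℂ) ≠ 0 := by exact_mod_cast hC'pos.ne'
        have hCmC : ((C' : ℂ) - (m : ℂ)) ≠ 0 := by
          rw [← Complex.ofReal_sub]
          exact_mod_cast hCm.ne'
        push_cast
        field_simp
        ring
      rw [h1, haf, hbf, Finset.mul_sum, Finset.mul_sum, ← Finset.sum_add_distrib]
      refine Finset.sum_congr rfl fun j _ => ?_
      simp only [hw]
      push_cast
      ring
    by_cases hwi : w i = 1
    · have hwj : ∀ j, j ≠ i → w j = 0 := by
        intro j hj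
        have h1 : w i + w j ≤ ∑ l, w l := by
          rw [← Finset.sum_pair (f := w) (Ne.symm hj)]
          exact Finset.sum_le_sum_of_subset_of_nonneg (Finset.subset_univ _) fun l _ _ => hw0 l
        rw [hw1, hwi] at h1
        linarith [hw0 j]
      have haj : ∀ j, j ≠ i → a j = 0 := by
        intro j hj
        have h1 := hwj j hj
        simp only [hw] at h1
        have h2 : 0 ≤ (m / C') * a j := mul_nonneg (by positivity) (ha0 j)
        have h3 : 0 ≤ ((C' - m) / C') * b j := mul_nonneg (by positivity) (hb0 j)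
        have h4 : (m / C') * a j = 0 := by linarith
        rcases mul_eq_zero.mp h4 with h5 | h5
        · exact absurd h5 (by positivity)
        · exact h5
      have hai : a i = 1 := by
        rw [← ha1]
        exact (Finset.sum_eq_single i (fun j _ hj => haj j hj) (by simp)).symm
      have h1 := haf x
      rw [Finset.sum_eq_single i (fun j _ hj => by rw [haj j hj]; simp) (by simp), hai, hσf] at h1
      rw [hS1]
      have hmC : (m : ℂ) ≠ 0 := by exact_mod_cast hmpos.ne'
      push_cast at h1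
      field_simp at h1
      rw [h1]
    · exfalso
      apply hmin
      have hwi1 : w i < 1 := by
        refine lt_of_le_of_ne ?_ hwi
        rw [← hw1]
        exact Finset.single_le_sum (f := w) (fun j _ => hw0 j) (Finset.mem_univ i)
      have h1w : 0 < 1 - w i := by linarith
      have hTi : ∀ x, (T i).f x = ∑ j ∈ Finset.univ.erase i,
          ((w j / (1 - w i) : ℝ) : ℂ) * (T j).f x := by
        intro x
        have h1 := hTw x
        rw [← Finset.add_sum_erase _ _ (Finset.mem_univ i)] at h1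
        have h2 : ((1 - w i : ℝ) : ℂ) * (T i).f x =
            ∑ j ∈ Finset.univ.erase i, (w j : ℂ) * (T j).f x := by
          push_cast
          linear_combination h1
        have h3 : ((1 - w i : ℝ) : ℂ) ≠ 0 := by exact_mod_cast h1w.ne'
        have h4 : (T i).f x = ((1 - w i : ℝ) : ℂ)⁻¹ *
            ∑ j ∈ Finset.univ.erase i, (w j : ℂ) * (T j).f x := by
          rw [← h2, inv_mul_cancel_left₀ h3]
        rw [h4, Finset.mul_sum]
        refine Finset.sum_congr rfl fun j _ => ?_
        push_cast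
        field_simp
      intro τ
      obtain ⟨c, hc0, hcs, hc1, hcf⟩ := h τ
      set e : Fin k → ℝ := fun j => if j = i then 0 else c j + c i * (w j / (1 - w i)) with he
      have hei : e i = 0 := if_pos rfl
      have hej : ∀ j, j ≠ i → e j = c j + c i * (w j / (1 - w i)) := fun j hj => if_neg hj
      refine ⟨e, ?_, ?_, ?_, ?_⟩
      · intro j
        by_cases hj : j = i
        · rw [hj, hei]
        · rw [hej j hj]
          exact add_nonneg (hc0 j) (mul_nonneg (hc0 i) (div_nonneg (hw0 j) h1w.le))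
      · intro j hj
        by_cases hji : j = i
        · rw [hji, hei]
        · rw [hej j hji]
          have hjs : j ∉ s := fun h => hj (Finset.mem_erase.mpr ⟨hji, h⟩)
          rw [hcs j hjs, hws j hjs]
          simp
      · have h1 : ∑ j, e j = ∑ j ∈ Finset.univ.erase i, (c j + c i * (w j / (1 - w i))) := by
          rw [← Finset.add_sum_erase _ _ (Finset.mem_univ i), hei, zero_add]
          exact Finset.sum_congr rfl fun j hj => hej j (Finset.ne_of_mem_erase hj)
        rw [h1, Finset.sum_add_distrib, ← Finset.mul_sum, ← Finset.sum_div]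
        have h2 : ∑ j ∈ Finset.univ.erase i, c j = 1 - c i := by
          rw [← hc1, ← Finset.add_sum_erase _ _ (Finset.mem_univ i)]
          ring
        have h3 : ∑ j ∈ Finset.univ.erase i, w j = 1 - w i := by
          rw [← hw1, ← Finset.add_sum_erase _ _ (Finset.mem_univ i)]
          ring
        rw [h2, h3, div_self h1w.ne']
        ring
      · intro n x
        have hTiM : (trM (T i) (Fin n)).f x = ∑ j ∈ Finset.univ.erase i,
            ((w j / (1 - w i) : ℝ) : ℂ) * (trM (T j) (Fin n)).f x := by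
          rw [trM_apply]
          simp only [hTi, trM_apply, Finset.mul_sum]
          exact Finset.sum_comm
        rw [hcf, ← Finset.add_sum_erase _ _ (Finset.mem_univ i),
          ← Finset.add_sum_erase Finset.univ (fun j => (e j : ℂ) * (trM (T j) (Fin n)).f x)
            (Finset.mem_univ i)]
        rw [hei, Complex.ofReal_zero, zero_mul, zero_add, hTiM, Finset.mul_sum,
          ← Finset.sum_add_distrib]
        refine Finset.sum_congr rfl fun j hj => ?_
        rw [hej j (Finset.ne_of_mem_erase hj)]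
        push_cast
        ring

/-- finitely many traces: one can take extreme ones -/
theorem exists_ext (h : FinitelyManyTraces A) : ∃ (ι : Type) (_ : Fintype ι) (T : ι → Tr A),
    (∀ i, (T i).f 1 = 1) ∧ (∀ i, Ext (T i)) ∧ ∀ τ : QT A, ∃ c : ι → ℝ, (∀ i, 0 ≤ c i) ∧
      ∑ i, c i = 1 ∧ ∀ (n : ℕ) (x : Mat n A), τ.val n x =
        ∑ i, (c i : ℂ) * (trM (T i) (Fin n)).f x := by
  classical
  obtain ⟨k, Q, hQ, hgen⟩ := h
  choose T hT1 hTv using fun i => (Q i).exists_tr (hQ i)
  have hG : Gen T Finset.univ := by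
    intro τ
    obtain ⟨c, h1, h2, h3⟩ := hgen τ
    refine ⟨c, h1, fun i hi => absurd (Finset.mem_univ i) hi, h2, fun n x => ?_⟩
    rw [h3]
    exact Finset.sum_congr rfl fun i _ => by rw [hTv]
  obtain ⟨s, hs⟩ := exists_minimal_of_wellFoundedLT (Gen T) ⟨Finset.univ, hG⟩
  refine ⟨{i // i ∈ s}, inferInstance, fun i => T i.1, fun i => hT1 i.1, fun i => ?_, ?_⟩
  · exact ext_of_min hT1 hs.prop i.2 (hs.not_prop_of_lt (Finset.erase_ssubset i.2))
  · intro τ
    obtain ⟨c, h1, h2, h3, h4⟩ := hs.prop τ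
    have hsum : ∀ (M : Type) [AddCommMonoid M] (f : Fin k → M), (∀ i, i ∉ s → f i = 0) →
        ∑ i : {i // i ∈ s}, f i.1 = ∑ i, f i := by
      intro M _ f hf
      rw [Finset.sum_coe_sort s f]
      exact Finset.sum_subset (Finset.subset_univ s) fun i _ hi => hf i hi
    refine ⟨fun i => c i.1, fun i => h1 i.1, ?_, fun n x => ?_⟩
    · rw [hsum ℝ c h2, h3]
    · rw [h4 n x]
      exact (hsum ℂ (fun i => (c i : ℂ) * (trM (T i) (Fin n)).f x) (fun i hi => by
        rw [h2 i hi]; simp)).symm

end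

end Run7.h450

/-!
# Tools for matrix algebras: pull backs of traces, corners, pinching
-/

set_option autoImplicit false
set_option linter.unusedSectionVars false

namespace Run7.h450

open Filter Topology
open Pool.Agent.H327R4.Pure

universe u v w

section

variable {R : Type u} [CStarAlgebra R] [PartialOrder R] [StarOrderedRing R]

theorem rk_congr {S T : Tr R} (h : ∀ x, S.f x = T.f x) (a : R) : rk S a = rk T a := by
  unfold rk
  simp only [h]

theorem rk_unique (S : Tr R) {a : R} (ha : 0 ≤ a) (d : ℝ)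
    (h : Tendsto (fun k : ℕ => (S.f (rt k a)).re) atTop (𝓝 d)) : rk S a = d :=
  tendsto_nhds_unique (rk' R S a ha).2.2.1 h

/-- ranks of linear combinations of traces -/
theorem rk_comb {ι : Type} [Fintype ι] (S : Tr R) (T : ι → Tr R) (c : ι → ℝ)
    (h : ∀ x, S.f x = ∑ i, (c i : ℂ) * (T i).f x) {a : R} (ha : 0 ≤ a) :
    rk S a = ∑ i, c i * rk (T i) a := by
  refine rk_unique S ha _ ?_
  have h2 : (fun k : ℕ => (S.f (rt k a)).re) =
      fun k : ℕ => ∑ i, c i * ((T i).f (rt k a)).re := by
    funext k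
    rw [h, Complex.re_sum]
    exact Finset.sum_congr rfl fun i _ => by rw [Complex.re_ofReal_mul]
  rw [h2]
  exact tendsto_finsetSum _ fun i _ => ((rk' R (T i) a ha).2.2.1).const_mul (c i)

variable {C : Type v} [CStarAlgebra C] [PartialOrder C] [StarOrderedRing C]

/-- the pull back of a trace -/
noncomputable def Tr.pull (φ : R →⋆ₙₐ[ℂ] C) (S : Tr C) : Tr R where
  f := S.f.comp ((φ : R →ₗ[ℂ] C).mkContinuous 1 fun x => by
    rw [one_mul]; exact NonUnitalStarAlgHom.norm_apply_le φ x)
  pos x := by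
    have h := S.pos (φ x)
    have e : S.f.comp ((φ : R →ₗ[ℂ] C).mkContinuous 1 fun x => by
        rw [one_mul]; exact NonUnitalStarAlgHom.norm_apply_le φ x) (star x * x) =
        S.f (star (φ x) * φ x) := by
      rw [← map_star, ← map_mul]; rfl
    rw [e]
    exact h
  tr x y := by
    show S.f (φ (x * y)) = S.f (φ (y * x))
    rw [map_mul φ x y, map_mul φ y x, S.tr]

theorem Tr.pull_apply (φ : R →⋆ₙₐ[ℂ] C) (S : Tr C) (x : R) : (Tr.pull φ S).f x = S.f (φ x) := rfl

theorem rk_pull (φ : R →⋆ₙₐ[ℂ] C) (S : Tr C) {a : R} (ha : 0 ≤ a) :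
    rk (Tr.pull φ S) a = rk S (φ a) :=
  ((hom' R C φ a ha).2.2.2 (Tr.pull φ S) S fun _ => rfl).symm

/-- a sum of pairwise orthogonal homomorphisms -/
noncomputable def sumHom {ι : Type w} [Fintype ι] (φ : ι → C →⋆ₙₐ[ℂ] R)
    (h : ∀ i j, i ≠ j → ∀ x y, φ i x * φ j y = 0) : C →⋆ₙₐ[ℂ] R where
  toFun x := ∑ i, φ i x
  map_smul' c x := by simp [Finset.smul_sum]
  map_zero' := by simp
  map_add' x y := by simp [Finset.sum_add_distrib]
  map_mul' x y := by
    rw [Finset.sum_mul]
    refine Finset.sum_congr rfl fun i _ => ?_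
    rw [Finset.mul_sum, Finset.sum_eq_single i]
    · exact map_mul _ _ _
    · intro j _ hj
      exact h i j (Ne.symm hj) x y
    · simp
  map_star' x := by simp [map_star]

theorem sumHom_apply {ι : Type w} [Fintype ι] (φ : ι → C →⋆ₙₐ[ℂ] R)
    (h : ∀ i j, i ≠ j → ∀ x y, φ i x * φ j y = 0) (x : C) : sumHom φ h x = ∑ i, φ i x := rfl

/-- pinching -/
theorem pinch {ι : Type w} [Fintype ι] (x : ι → R) :
    star (∑ i, x i) * (∑ i, x i) ≤ (Fintype.card ι : ℝ) • ∑ i, star (x i) * x i := by
  have h0 : 0 ≤ ∑ i, ∑ j, star (x i - x j) * (x i - x j) :=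
    Finset.sum_nonneg fun i _ => Finset.sum_nonneg fun j _ => star_mul_self_nonneg _
  have h1 : ∑ i, ∑ j, star (x i - x j) * (x i - x j) =
      (2 : ℝ) • ((Fintype.card ι : ℝ) • ∑ i, star (x i) * x i -
        star (∑ i, x i) * (∑ i, x i)) := by
    have e1 : ∀ i j, star (x i - x j) * (x i - x j) = star (x i) * x i + star (x j) * x j -
        star (x i) * x j - star (x j) * x i := by
      intro i j
      rw [star_sub]; noncomm_ring
    simp only [e1, Finset.sum_add_distrib, Finset.sum_sub_distrib]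
    have e2 : ∑ i, ∑ _j : ι, star (x i) * x i = (Fintype.card ι : ℝ) • ∑ i, star (x i) * x i := by
      simp only [Finset.sum_const, Finset.card_univ]
      rw [← Finset.smul_sum, Nat.cast_smul_eq_nsmul]
    have e3 : ∑ _i : ι, ∑ j, star (x j) * x j = (Fintype.card ι : ℝ) • ∑ i, star (x i) * x i := by
      simp only [Finset.sum_const, Finset.card_univ]
      rw [Nat.cast_smul_eq_nsmul]
    have e4 : ∑ i, ∑ j, star (x i) * x j = star (∑ i, x i) * ∑ i, x i := by
      rw [star_sum, Finset.sum_mul]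
      exact Finset.sum_congr rfl fun i _ => (Finset.mul_sum _ _ _).symm
    have e5 : ∑ i, ∑ j, star (x j) * x i = star (∑ i, x i) * ∑ i, x i := by
      rw [Finset.sum_comm]
      exact e4
    rw [e2, e3, e4, e5, two_smul]
    abel
  rw [h1] at h0
  have h2 : 0 ≤ (Fintype.card ι : ℝ) • ∑ i, star (x i) * x i -
      star (∑ i, x i) * (∑ i, x i) := by
    have h3 := smul_nonneg (by norm_num : (0 : ℝ) ≤ 1 / 2) h0
    rwa [smul_smul, show (1 / 2 : ℝ) * 2 = 1 by norm_num, one_smul] at h3
  exact sub_nonneg.mp h2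

end

section

variable {A : Type u} [CStarAlgebra A] [PartialOrder A] [StarOrderedRing A]
variable {C : Type v} [CStarAlgebra C] [PartialOrder C] [StarOrderedRing C]

/-- entrywise application of a homomorphism -/
noncomputable def ent (φ : A →⋆ₙₐ[ℂ] C) (n : ℕ) : Mat n A →⋆ₙₐ[ℂ] Mat n C :=
  CStarMatrix.mapₙₐ φ

theorem ent_apply (φ : A →⋆ₙₐ[ℂ] C) (n : ℕ) (x : Mat n A) (i j : Fin n) :
    ent φ n x i j = φ (x i j) := rfl

theorem trM_pull (φ : A →⋆ₙₐ[ℂ] C) (S : Tr C) (n : ℕ) (x : Mat n A) :
    (trM (Tr.pull φ S) (Fin n)).f x = (trM S (Fin n)).f (ent φ n x) := rfl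

theorem rk_ent (φ : A →⋆ₙₐ[ℂ] C) (S : Tr C) (n : ℕ) {x : Mat n A} (hx : 0 ≤ x) :
    rk (trM S (Fin n)) (ent φ n x) = rk (trM (Tr.pull φ S) (Fin n)) x := by
  rw [← rk_pull (ent φ n) _ hx]
  exact rk_congr (fun y => rfl) x

theorem ent_nonneg (φ : A →⋆ₙₐ[ℂ] C) (n : ℕ) {x : Mat n A} (hx : 0 ≤ x) : 0 ≤ ent φ n x :=
  (hom' _ _ (ent φ n) x hx).1

theorem hom_mono {R : Type u} {R' : Type v} [CStarAlgebra R] [PartialOrder R] [StarOrderedRing R]
    [CStarAlgebra R'] [PartialOrder R'] [StarOrderedRing R'] (φ : R →⋆ₙₐ[ℂ] R') {x y : R}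
    (h : x ≤ y) : φ x ≤ φ y := by
  have h1 := (hom' _ _ φ (y - x) (sub_nonneg.mpr h)).1
  rw [map_sub] at h1
  exact sub_nonneg.mp h1

theorem hom_nonneg {R : Type u} {R' : Type v} [CStarAlgebra R] [PartialOrder R]
    [StarOrderedRing R] [CStarAlgebra R'] [PartialOrder R'] [StarOrderedRing R']
    (φ : R →⋆ₙₐ[ℂ] R') {x : R} (h : 0 ≤ x) : 0 ≤ φ x := (hom' _ _ φ x h).1

theorem rsmul_mono {R : Type u} [CStarAlgebra R] [PartialOrder R] [StarOrderedRing R] {x y : R}
    (c : ℝ) (hc : 0 ≤ c) (h : x ≤ y) : c • x ≤ c • y := smul_le_smul_of_nonneg_left h hc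

theorem rk_emb {m N : ℕ} (T : Tr A) (e : Fin m → Fin N) (he : Function.Injective e)
    {x : Mat m A} (hx : 0 ≤ x) :
    rk (trM T (Fin N)) (emb e he x) = rk (trM T (Fin m)) x := by
  rw [← rk_pull (emb e he) _ hx]
  exact rk_congr (fun y => trM_emb T e he y) x

theorem emb_injective {m N : ℕ} (e : Fin m → Fin N) (he : Function.Injective e) :
    Function.Injective (emb (A := A) e he) := by
  intro x y h
  ext i j
  rw [← embf_apply he x i j, ← embf_apply he y i j]
  have : embf e x = embf e y := h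
  rw [this]

/-- corner of a matrix -/
def cor {m N : ℕ} (e : Fin m → Fin N) (v : Mat N A) : Mat m A :=
  CStarMatrix.ofMatrix fun i j => v (e i) (e j)

theorem cor_apply {m N : ℕ} (e : Fin m → Fin N) (v : Mat N A) (i j : Fin m) :
    cor e v i j = v (e i) (e j) := rfl

theorem emb_one_left {m N : ℕ} (e : Fin m → Fin N) (he : Function.Injective e) (v : Mat N A)
    (p q : Fin N) : (emb e he (1 : Mat m A) * v) p q = if p ∈ Set.range e then v p q else 0 := by
  classical
  rw [CStarMatrix.mul_apply, emb_apply]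
  by_cases hp : p ∈ Set.range e
  · obtain ⟨i, rfl⟩ := hp
    rw [if_pos ⟨i, rfl⟩, Finset.sum_eq_single (e i)]
    · rw [embf_apply he, CStarMatrix.one_apply, if_pos rfl, one_mul]
    · intro r _ hr
      by_cases hr' : r ∈ Set.range e
      · obtain ⟨j, rfl⟩ := hr'
        rw [embf_apply he, CStarMatrix.one_apply, if_neg (fun h => hr (by rw [h])), zero_mul]
      · rw [embf_right _ _ hr', zero_mul]
    · simp
  · rw [if_neg hp]
    exact Finset.sum_eq_zero fun r _ => by rw [embf_left _ hp, zero_mul]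

theorem emb_one_right {m N : ℕ} (e : Fin m → Fin N) (he : Function.Injective e) (v : Mat N A)
    (p q : Fin N) : (v * emb e he (1 : Mat m A)) p q = if q ∈ Set.range e then v p q else 0 := by
  classical
  rw [CStarMatrix.mul_apply, emb_apply]
  by_cases hq : q ∈ Set.range e
  · obtain ⟨i, rfl⟩ := hq
    rw [if_pos ⟨i, rfl⟩, Finset.sum_eq_single (e i)]
    · rw [embf_apply he, CStarMatrix.one_apply, if_pos rfl, mul_one]
    · intro r _ hr
      by_cases hr' : r ∈ Set.range e
      · obtain ⟨j, rfl⟩ := hr'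
        rw [embf_apply he, CStarMatrix.one_apply, if_neg (fun h => hr (by rw [h])), mul_zero]
      · rw [embf_left _ hr', mul_zero]
    · simp
  · rw [if_neg hq]
    exact Finset.sum_eq_zero fun r _ => by rw [embf_right _ _ hq, mul_zero]

theorem emb_cor {m N : ℕ} (e : Fin m → Fin N) (he : Function.Injective e) (v : Mat N A) :
    emb e he (cor e v) = emb e he 1 * v * emb e he 1 := by
  classical
  ext p q
  rw [emb_one_right, emb_one_left, emb_apply]
  by_cases hp : p ∈ Set.range e
  · by_cases hq : q ∈ Set.range e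
    · obtain ⟨i, rfl⟩ := hp
      obtain ⟨j, rfl⟩ := hq
      rw [embf_apply he, if_pos ⟨j, rfl⟩, if_pos ⟨i, rfl⟩]
      rfl
    · rw [embf_right _ _ hq, if_neg hq]
  · rw [embf_left _ hp]
    by_cases hq : q ∈ Set.range e
    · rw [if_pos hq, if_neg hp]
    · rw [if_neg hq]

theorem emb_one_star {m N : ℕ} (e : Fin m → Fin N) (he : Function.Injective e) :
    star (emb (A := A) e he 1) = emb e he 1 := by
  rw [← map_star, star_one]

theorem cor_nonneg {m N : ℕ} (e : Fin m → Fin N) (he : Function.Injective e) {v : Mat N A}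
    (hv : 0 ≤ v) : 0 ≤ cor e v := by
  refine ISO.refl (emb e he) (emb_injective e he) _ ?_
  rw [emb_cor]
  exact conj_nonneg hv (emb_one_star e he)

theorem rk_cor_le {m N : ℕ} (T : Tr A) (e : Fin m → Fin N) (he : Function.Injective e)
    {v : Mat N A} (hv : 0 ≤ v) : rk (trM T (Fin m)) (cor e v) ≤ rk (trM T (Fin N)) v := by
  rw [← rk_emb T e he (cor_nonneg e he hv), emb_cor]
  have h := cz_conj (emb (A := A) e he 1) v
  rw [emb_one_star] at h
  exact rk_cz _ (conj_nonneg hv (emb_one_star e he)) hv h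

theorem rk_sum_le {R : Type u} [CStarAlgebra R] [PartialOrder R] [StarOrderedRing R]
    {ι : Type w} (s : Finset ι) (T : Tr R) (x : ι → R) (hx : ∀ i, 0 ≤ x i) :
    rk T (∑ i ∈ s, x i) ≤ ∑ i ∈ s, rk T (x i) := by
  classical
  induction s using Finset.induction_on with
  | empty => simp [AD.rk_zero]
  | insert a t ha ih =>
    rw [Finset.sum_insert ha, Finset.sum_insert ha]
    exact (rk_add_le T (hx a) (Finset.sum_nonneg fun i _ => hx i)).trans (add_le_add le_rfl ih)

end

end Run7.h450

/-!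
# The crossed product
-/

set_option autoImplicit false
set_option linter.unusedSectionVars false

namespace Run7.h450

open Filter Topology
open Pool.Agent.H327R4.Pure

universe u v w

section

variable {A : Type u} [CStarAlgebra A] [PartialOrder A] [StarOrderedRing A]

theorem tendsto_cm {m n : ℕ} {f : ℕ → CStarMatrix (Fin m) (Fin n) A}
    {M : CStarMatrix (Fin m) (Fin n) A} :
    Tendsto f atTop (𝓝 M) ↔ ∀ p q, Tendsto (fun k => f k p q) atTop (𝓝 (M p q)) := by
  have h1 := tendsto_pi_nhds (f := fun k => (f k : Fin m → Fin n → A))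
    (g := (M : Fin m → Fin n → A)) (u := atTop)
  have h2 := fun p => tendsto_pi_nhds (f := fun k => (f k p : Fin n → A))
    (g := (M p : Fin n → A)) (u := atTop)
  exact h1.trans (forall_congr' h2)

variable {G : Type v} [Group G] [Fintype G] (α : G →* (A ≃⋆ₐ[ℂ] A))

/-- the automorphisms of the action -/
noncomputable def act (g : G) : A →⋆ₙₐ[ℂ] A := ((α g : A ≃⋆ₐ[ℂ] A) : A →⋆ₙₐ[ℂ] A)

theorem act_apply (g : G) (a : A) : act α g a = α g a := rfl

theorem act_inv (g : G) (a : A) : act α g (act α g⁻¹ a) = a := by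
  rw [act_apply, act_apply, ← StarAlgEquiv.mul_apply, ← map_mul, mul_inv_cancel, map_one]
  rfl

theorem act_one (g : G) : act α g 1 = 1 := map_one (α g)

variable {m N : ℕ} (E : G × Fin m → Fin N) (hE : Function.Injective E)

theorem eg_inj (hE : Function.Injective E) (g : G) : Function.Injective fun i => E (g, i) :=
  fun i j h => by simpa using hE h

/-- the summands of `c ↦ ⊕ α_g(c)` -/
noncomputable def cpart (g : G) : Mat m A →⋆ₙₐ[ℂ] Mat N A :=
  NonUnitalStarAlgHom.comp (emb (fun i => E (g, i)) (eg_inj E hE g)) (ent (act α g) m)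

theorem cpart_apply (g : G) (x : Mat m A) : cpart α E hE g x =
    emb (fun i => E (g, i)) (eg_inj E hE g) (ent (act α g) m x) := rfl

theorem cpart_mul (g h : G) (hgh : g ≠ h) (x y : Mat m A) :
    cpart α E hE g x * cpart α E hE h y = 0 := by
  rw [cpart_apply, cpart_apply]
  refine emb_mul_emb _ _ _ _ (fun i j he => ?_) _ _
  have h1 := hE he
  exact hgh (congrArg Prod.fst h1)

/-- `c ↦ ⊕ α_g(c)` -/
noncomputable def cpsi : Mat m A →⋆ₙₐ[ℂ] Mat N A :=
  sumHom (cpart α E hE) (cpart_mul α E hE)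

theorem cpsi_eq (c : Mat m A) : cpsi α E hE c =
    ∑ g, emb (fun i => E (g, i)) (eg_inj E hE g) (ent (act α g) m c) := rfl

theorem cpsi_one : cpsi α E hE 1 = ∑ g, emb (fun i => E (g, i)) (eg_inj E hE g) 1 := by
  rw [cpsi_eq]
  refine Finset.sum_congr rfl fun g _ => ?_
  congr 1
  ext i j
  rw [ent_apply, CStarMatrix.one_apply]
  split_ifs
  · exact act_one α g
  · exact map_zero _

theorem cpsi_apply [DecidableEq G] (c : Mat m A) (g h : G) (i j : Fin m) :
    cpsi α E hE c (E (g, i)) (E (h, j)) = if g = h then α g (c i j) else 0 := by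
  rw [cpsi_eq, cm_sum_apply, Finset.sum_eq_single g]
  · rw [emb_apply]
    by_cases hgh : g = h
    · subst hgh
      rw [if_pos rfl, embf_apply (eg_inj E hE g)]
      rfl
    · rw [if_neg hgh, embf_right]
      rintro ⟨i', hi'⟩
      exact hgh (congrArg Prod.fst (hE hi'))
  · intro k _ hk
    rw [emb_apply, embf_left]
    rintro ⟨i', hi'⟩
    exact hk (congrArg Prod.fst (hE hi'))
  · simp

/-- `v ↦ ∑ α_g^{-1}(v_{gg})` -/
noncomputable def cF (v : Mat N A) : Mat m A :=
  ∑ g, ent (act α g⁻¹) m (cor (fun i => E (g, i)) v)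

include hE in
theorem cF_nonneg {v : Mat N A} (hv : 0 ≤ v) : 0 ≤ cF α E v :=
  Finset.sum_nonneg fun g _ => ent_nonneg _ _ (cor_nonneg _ (eg_inj E hE g) hv)

theorem inL_proj {R : Type u} [CStarAlgebra R] {P v : R} (hP : star P = P)
    (hPP : P * P = P) (hv : star v = v) (h : InL P v) : P * v * P = v := by
  have h1 : v * (1 - P) = 0 := h.mul_eq_zero (by rw [mul_sub, mul_one, hPP, sub_self])
  have h2 : v * P = v := by
    rw [mul_sub, mul_one] at h1
    exact (sub_eq_zero.mp h1).symm
  have h3 : P * v = v := by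
    have := congrArg star h2
    rwa [star_mul, hP, hv] at this
  rw [h3, h2]

theorem cF_le {v : Mat N A} (hv : 0 ≤ v) (hL : InL (cpsi α E hE 1) v) :
    v ≤ (Fintype.card G : ℝ) • cpsi α E hE (cF α E v) := by
  set P : G → Mat N A := fun g => emb (fun i => E (g, i)) (eg_inj E hE g) 1 with hP
  have hPs : ∀ g, star (P g) = P g := fun g => emb_one_star _ _
  have hψ1 : cpsi α E hE 1 = ∑ g, P g := cpsi_one α E hE
  have hψs : star (cpsi α E hE 1) = cpsi α E hE 1 := by rw [← map_star, star_one]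
  have hψψ : cpsi α E hE 1 * cpsi α E hE 1 = cpsi α E hE 1 := by rw [← map_mul, one_mul]
  have h1 := inL_proj hψs hψψ (IsSelfAdjoint.of_nonneg hv).star_eq hL
  set s : Mat N A := sq v with hs
  have h2 : v = star (∑ g, s * P g) * ∑ g, s * P g := by
    rw [← Finset.mul_sum, ← hψ1, star_mul, hψs, hs, sq_star]
    conv_lhs => rw [← h1, ← sq_mul_sq hv]
    simp only [mul_assoc]
  have h3 := pinch fun g => s * P g
  rw [← h2] at h3
  refine h3.trans (rsmul_mono _ (Nat.cast_nonneg _) ?_)
  rw [cpsi_eq]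
  refine Finset.sum_le_sum fun g _ => ?_
  have h4 : star (s * P g) * (s * P g) = P g * v * P g := by
    rw [star_mul, hPs, hs, sq_star]
    conv_rhs => rw [← sq_mul_sq hv]
    simp only [mul_assoc]
  rw [h4, hP, ← emb_cor]
  refine hom_mono _ ?_
  have h5 : cor (fun i => E (g, i)) v = ent (act α g) m (ent (act α g⁻¹) m
      (cor (fun i => E (g, i)) v)) := by
    ext i j
    rw [ent_apply, ent_apply, act_inv]
  rw [h5]
  refine hom_mono _ ?_
  refine Finset.single_le_sum (f := fun g => ent (act α g⁻¹) m (cor (fun i => E (g, i)) v))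
    (fun k _ => ?_) (Finset.mem_univ g)
  exact ent_nonneg _ _ (cor_nonneg _ (eg_inj E hE k) hv)

/-- the tracial hypothesis on `A`: tracial states are convex combinations of the `T i` -/
def Conv {ι : Type} [Fintype ι] (T : ι → Tr A) : Prop :=
  ∀ S : Tr A, S.f 1 = 1 → ∃ c : ι → ℝ, (∀ i, 0 ≤ c i) ∧ ∑ i, c i = 1 ∧
    ∀ x : A, S.f x = ∑ i, (c i : ℂ) * (T i).f x

theorem conv_rk {ι : Type} [Fintype ι] {T : ι → Tr A} (hT : Conv T) (S : Tr A) (hS : S.f 1 = 1) :
    ∃ c : ι → ℝ, (∀ i, 0 ≤ c i) ∧ ∑ i, c i = 1 ∧ ∀ (n : ℕ) (x : Mat n A), 0 ≤ x →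
      rk (trM S (Fin n)) x = ∑ i, c i * rk (trM (T i) (Fin n)) x := by
  obtain ⟨c, h1, h2, h3⟩ := hT S hS
  refine ⟨c, h1, h2, fun n x hx => ?_⟩
  refine rk_comb _ (fun i => trM (T i) (Fin n)) c (fun y => ?_) hx
  rw [trM_apply]
  simp only [h3, trM_apply, Finset.mul_sum]
  exact Finset.sum_comm

theorem rk_conv_le {ι : Type} [Fintype ι] {T : ι → Tr A} (hT : Conv T) (S : Tr A)
    (hS : S.f 1 = 1) {n : ℕ} {x : Mat n A} (hx : 0 ≤ x) (η : ℝ)
    (h : ∀ i, rk (trM (T i) (Fin n)) x ≤ η) : rk (trM S (Fin n)) x ≤ η := by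
  obtain ⟨c, h1, h2, h3⟩ := conv_rk hT S hS
  rw [h3 n x hx]
  calc ∑ i, c i * rk (trM (T i) (Fin n)) x ≤ ∑ i, c i * η :=
        Finset.sum_le_sum fun i _ => mul_le_mul_of_nonneg_left (h i) (h1 i)
    _ = η := by rw [← Finset.sum_mul, h2, one_mul]

theorem pull_one (g : G) (S : Tr A) (hS : S.f 1 = 1) : (Tr.pull (act α g) S).f 1 = 1 := by
  rw [Tr.pull_apply, act_one, hS]

include hE in
theorem cF_rk {ι : Type} [Fintype ι] {T : ι → Tr A} (hT : Conv T) (hT1 : ∀ i, (T i).f 1 = 1)
    {v : Mat N A} (hv : 0 ≤ v) (η : ℝ) (h : ∀ i, rk (trM (T i) (Fin N)) v < η) (i : ι) :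
    rk (trM (T i) (Fin m)) (cF α E v) ≤ Fintype.card G * η := by
  refine (rk_sum_le Finset.univ _ _ fun g => ent_nonneg _ _
    (cor_nonneg _ (eg_inj E hE g) hv)).trans ?_
  calc ∑ g, rk (trM (T i) (Fin m)) (ent (act α g⁻¹) m (cor (fun i => E (g, i)) v))
      ≤ ∑ _g : G, η := by
        refine Finset.sum_le_sum fun g _ => ?_
        rw [rk_ent _ _ _ (cor_nonneg _ (eg_inj E hE g) hv)]
        refine rk_conv_le hT _ (pull_one α _ _ (hT1 i)) (cor_nonneg _ (eg_inj E hE g) hv) η
          fun j => ?_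
        exact (rk_cor_le (T j) _ (eg_inj E hE g) hv).trans (h j).le
    _ = Fintype.card G * η := by
        rw [Finset.sum_const, Finset.card_univ, nsmul_eq_mul]

theorem cpsi_rk {ι : Type} [Fintype ι] {T : ι → Tr A} (hT : Conv T) (hT1 : ∀ i, (T i).f 1 = 1)
    {t : Mat m A} (ht : 0 ≤ t) (l : ℝ) (h : ∀ i, rk (trM (T i) (Fin m)) t ≤ l) (i : ι) :
    rk (trM (T i) (Fin N)) (cpsi α E hE t) ≤ Fintype.card G * l := by
  rw [cpsi_eq]
  refine (rk_sum_le Finset.univ _ _ fun g => ?_).trans ?_
  · exact hom_nonneg (R := Mat m A) (R' := Mat N A) (emb (fun i => E (g, i)) (eg_inj E hE g))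
      (ent_nonneg (act α g) m ht)
  · calc ∑ g, rk (trM (T i) (Fin N)) (emb (fun i => E (g, i)) (eg_inj E hE g)
          (ent (act α g) m t)) ≤ ∑ _g : G, l := by
          refine Finset.sum_le_sum fun g _ => ?_
          rw [rk_emb _ _ _ (ent_nonneg _ _ ht), rk_ent _ _ _ ht]
          exact rk_conv_le hT _ (pull_one α _ _ (hT1 i)) ht l h
      _ = Fintype.card G * l := by
          rw [Finset.sum_const, Finset.card_univ, nsmul_eq_mul]

end

section

variable {A : Type u} [CStarAlgebra A] {G : Type v} [Group G] [Fintype G]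
  {α : G →* (A ≃⋆ₐ[ℂ] A)} {B : Type w} [CStarAlgebra B]

/-- the conditional expectation `∑ a_g u_g ↦ a_1` -/
theorem cp_coef (cp : CrossedProduct α B) : ∃ coef : B →L[ℂ] A,
    ∀ f : G → A, coef (∑ g, cp.ι (f g) * cp.u g) = f 1 := by
  let Φ : (G → A) →ₗ[ℂ] B :=
    { toFun := fun f => ∑ g, cp.ι (f g) * cp.u g
      map_add' := fun f h => by
        simp only [Pi.add_apply, map_add, add_mul, Finset.sum_add_distrib]
      map_smul' := fun c f => by
        simp only [Pi.smul_apply, map_smul, smul_mul_assoc, Finset.smul_sum, RingHom.id_apply] }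
  have hc : Continuous Φ := by
    show Continuous fun f : G → A => ∑ g, cp.ι (f g) * cp.u g
    refine continuous_finsetSum _ fun g _ => ?_
    have h1 : Continuous cp.ι := by
      exact (AddMonoidHomClass.continuous_of_bound cp.ι 1 fun x => by
        rw [one_mul]; exact NonUnitalStarAlgHom.norm_apply_le cp.ι x)
    exact (h1.comp (continuous_apply g)).mul continuous_const
  let e : (G → A) ≃ₗ[ℂ] B := LinearEquiv.ofBijective Φ cp.bij
  let e' : (G → A) ≃L[ℂ] B := e.toContinuousLinearEquivOfContinuous hc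
  refine ⟨(ContinuousLinearMap.proj (1 : G)).comp (e'.symm : B →L[ℂ] (G → A)), fun f => ?_⟩
  have h1 : e'.symm (∑ g, cp.ι (f g) * cp.u g) = f := by
    have : (∑ g, cp.ι (f g) * cp.u g) = e' f := rfl
    rw [this, e'.symm_apply_apply]
  show e'.symm (∑ g, cp.ι (f g) * cp.u g) 1 = f 1
  rw [h1]

theorem cp_single (cp : CrossedProduct α B) {coef : B →L[ℂ] A}
    (h : ∀ f : G → A, coef (∑ g, cp.ι (f g) * cp.u g) = f 1) (a : A) (k : G) [DecidableEq G] :
    coef (cp.ι a * cp.u k) = if k = 1 then a else 0 := by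
  have h1 := h (fun g => if g = k then a else 0)
  rw [Finset.sum_eq_single k] at h1
  · rw [if_pos rfl] at h1
    rw [h1]
    by_cases hk : k = 1
    · rw [if_pos hk, if_pos hk.symm]
    · rw [if_neg hk, if_neg (fun h => hk h.symm)]
  · intro b _ hb
    rw [if_neg hb, map_zero, zero_mul]
  · simp

theorem cp_coef_mul (cp : CrossedProduct α B) {coef : B →L[ℂ] A}
    (h : ∀ f : G → A, coef (∑ g, cp.ι (f g) * cp.u g) = f 1) (a b : G → A) (c : A) :
    coef ((∑ g, cp.ι (a g) * cp.u g) * cp.ι c * star (∑ g, cp.ι (b g) * cp.u g)) =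
      ∑ g, a g * α g c * star (b g) := by
  classical
  have hu : ∀ g, cp.u g * cp.u g⁻¹ = 1 := fun g => by
    rw [← map_mul, mul_inv_cancel, map_one]
  have hu' : ∀ g, cp.u g⁻¹ * cp.u g = 1 := fun g => by
    rw [← map_mul, inv_mul_cancel, map_one]
  have hcov : ∀ (g : G) (x : A), cp.u g * cp.ι x = cp.ι (α g x) * cp.u g := by
    intro g x
    rw [← cp.cov g x, cp.star_u, mul_assoc _ (cp.u g⁻¹), hu', mul_one]
  have hterm : ∀ g k, cp.ι (a g) * cp.u g * cp.ι c * star (cp.ι (b k) * cp.u k) =
      cp.ι (a g * α g c * α (g * k⁻¹) (star (b k))) * cp.u (g * k⁻¹) := by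
    intro g k
    rw [star_mul, cp.star_u, ← map_star]
    calc cp.ι (a g) * cp.u g * cp.ι c * (cp.u k⁻¹ * cp.ι (star (b k)))
        = cp.ι (a g) * (cp.u g * cp.ι c) * (cp.u k⁻¹ * cp.ι (star (b k))) := by
          simp only [mul_assoc]
      _ = cp.ι (a g) * cp.ι (α g c) * ((cp.u g * cp.u k⁻¹) * cp.ι (star (b k))) := by
          rw [hcov]; simp only [mul_assoc]
      _ = cp.ι (a g) * cp.ι (α g c) * (cp.ι (α (g * k⁻¹) (star (b k))) * cp.u (g * k⁻¹)) := by
          rw [← map_mul cp.u, hcov]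
      _ = _ := by
          rw [map_mul cp.ι, map_mul cp.ι]
          simp only [mul_assoc]
  rw [star_sum, Finset.sum_mul, Finset.sum_mul]
  simp only [Finset.mul_sum]
  rw [map_sum]
  refine Finset.sum_congr rfl fun g _ => ?_
  rw [map_sum, Finset.sum_eq_single g]
  · rw [hterm, cp_single cp h, if_pos (mul_inv_cancel g), mul_inv_cancel, map_one]
    rfl
  · intro k _ hk
    rw [hterm, cp_single cp h, if_neg]
    intro h1
    exact hk (mul_inv_eq_one.mp h1).symm
  · simp

end

end Run7.h450
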