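import Pool.Agent.Run7.h450.Q2

/-!
# A quasi-basis for the inclusion of the fixed point algebra of a simple C*-algebra
-/

set_option autoImplicit false
set_option linter.unusedSectionVars false

namespace Run7.h450

open Filter Topology
open Pool.Agent.H327R4.Pure

universe u v w

section

variable {A : Type u} [CStarAlgebra A] [PartialOrder A] [StarOrderedRing A]
variable {G : Type v} [Group G] [Fintype G] (α : G →* (A ≃⋆ₐ[ℂ] A))

theorem exists_sum_one (hA : SimpleC A) (a : A) (ha : a ≠ 0) :
    ∃ (n : ℕ) (u v : Fin n → A), ∑ i, u i * a * v i = 1 := by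
  have h1 : star a * a ≠ 0 := fun h => ha (CStarRing.star_mul_self_eq_zero_iff a |>.1 h)
  obtain ⟨n, y, hy⟩ := full' A hA (star a * a) (star_mul_self_nonneg a) h1
  refine ⟨n, fun i => star (y i) * star a, y, ?_⟩
  rw [← hy]
  refine Finset.sum_congr rfl fun i _ => ?_
  simp only [mul_assoc]

/-- the bimodule generated by the constant function `1` -/
noncomputable def VV : Submodule ℂ (G → A) := Submodule.span ℂ {f | ∃ x y : A, f = fun g => x * α g y}

theorem VV.lmul {f : G → A} (hf : f ∈ VV α) (a : A) : (fun g => a * f g) ∈ VV α := by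
  induction hf using Submodule.span_induction with
  | mem f hf =>
    obtain ⟨x, y, rfl⟩ := hf
    refine Submodule.subset_span ⟨a * x, y, ?_⟩
    funext g
    rw [mul_assoc]
  | zero => convert (VV α).zero_mem using 1; funext g; simp
  | add f h _ _ h1 h2 =>
    convert (VV α).add_mem h1 h2 using 1
    funext g
    simp [mul_add]
  | smul c f _ h1 =>
    convert (VV α).smul_mem c h1 using 1
    funext g
    simp

theorem VV.rmul {f : G → A} (hf : f ∈ VV α) (b : A) : (fun g => f g * α g b) ∈ VV α := by
  induction hf using Submodule.span_induction with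
  | mem f hf =>
    obtain ⟨x, y, rfl⟩ := hf
    refine Submodule.subset_span ⟨x, y * b, ?_⟩
    funext g
    rw [map_mul, mul_assoc]
  | zero => convert (VV α).zero_mem using 1; funext g; simp
  | add f h _ _ h1 h2 =>
    convert (VV α).add_mem h1 h2 using 1
    funext g
    simp [add_mul]
  | smul c f _ h1 =>
    convert (VV α).smul_mem c h1 using 1
    funext g
    simp

theorem VV.shift {f : G → A} (hf : f ∈ VV α) (h : G) : (fun g => f (g * h)) ∈ VV α := by
  induction hf using Submodule.span_induction with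
  | mem f hf =>
    obtain ⟨x, y, rfl⟩ := hf
    refine Submodule.subset_span ⟨x, α h y, ?_⟩
    funext g
    show x * α (g * h) y = x * α g (α h y)
    rw [map_mul]
    rfl
  | zero => convert (VV α).zero_mem using 1; funext g; simp
  | add f k _ _ h1 h2 => exact (VV α).add_mem h1 h2
  | smul c f _ h1 => exact (VV α).smul_mem c h1

theorem VV.const (w : A) : (fun _ : G => w) ∈ VV α :=
  Submodule.subset_span ⟨w, 1, by funext g; simp⟩

theorem exists_quasi_basis (hA : SimpleC A) :
    ∃ (n : ℕ) (x y : Fin n → A), ∀ w, ∑ i, x i * (∑ g, α g (y i * w)) = w := by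
  classical
  -- a maximal set `S` of group elements such that `V` contains no nonzero function supported in `S`
  let P : Finset G → Prop := fun S => ∀ f ∈ VV α, (∀ g, g ∉ S → f g = 0) → f = 0
  have hP0 : P ∅ := fun f _ h => funext fun g => h g (Finset.notMem_empty g)
  obtain ⟨S, hS⟩ := Set.Finite.exists_maximal (s := {S | P S}) (Set.toFinite _) ⟨∅, hP0⟩
  have hSP : P S := hS.prop
  have hex : ∀ h : G, ∃ v ∈ VV α, ∀ g, g ∉ S → (if g = h then (1 : A) else 0) - v g = 0 := by
    intro h
    by_cases hh : h ∈ S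
    · refine ⟨0, (VV α).zero_mem, fun g hg => ?_⟩
      have hne : g ≠ h := fun e => hg (by rw [e]; exact hh)
      show (if g = h then (1 : A) else 0) - 0 = 0
      rw [if_neg hne, sub_zero]
    · have h1 : ¬ P (insert h S) := fun hc => by
        have := hS.le_of_ge hc (Finset.subset_insert h S)
        exact hh (this (Finset.mem_insert_self h S))
      simp only [P] at h1
      push Not at h1
      obtain ⟨f, hf, hfS, hf0⟩ := h1
      have hfh : f h ≠ 0 := by
        intro h0
        apply hf0
        refine hSP f hf fun g hg => ?_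
        by_cases hgh : g = h
        · rw [hgh, h0]
        · exact hfS g (by rw [Finset.mem_insert]; tauto)
      obtain ⟨n, u, v, huv⟩ := exists_sum_one hA (f h) hfh
      refine ⟨fun g => ∑ i, u i * (f g * α g ((α h).symm (v i))), ?_, fun g hg => ?_⟩
      · have : (fun g => ∑ i, u i * (f g * α g ((α h).symm (v i)))) =
            ∑ i, fun g => u i * (f g * α g ((α h).symm (v i))) := by
          funext g
          rw [Finset.sum_apply]
        rw [this]
        exact (VV α).sum_mem fun i _ => VV.lmul α (VV.rmul α hf _) (u i)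
      · show (if g = h then (1 : A) else 0) - ∑ i, u i * (f g * α g ((α h).symm (v i))) = 0
        by_cases hgh : g = h
        · subst hgh
          rw [if_pos rfl]
          have : ∑ i, u i * (f g * α g ((α g).symm (v i))) = 1 := by
            rw [← huv]
            refine Finset.sum_congr rfl fun i _ => ?_
            rw [StarAlgEquiv.apply_symm_apply, mul_assoc]
          rw [this, sub_self]
        · rw [if_neg hgh, hfS g (by rw [Finset.mem_insert]; tauto)]
          simp
  choose v hv hvS using hex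
  set q : ℂ := (Fintype.card G : ℂ) with hq
  have hq0 : q ≠ 0 := by
    rw [hq]
    exact_mod_cast Fintype.card_ne_zero
  set z : G → A := fun g => q⁻¹ • ∑ h, v h (g * h) with hz
  have hzV : z ∈ VV α := by
    have : z = q⁻¹ • ∑ h, fun g => v h (g * h) := by
      funext g
      simp [hz, Finset.sum_apply]
    rw [this]
    exact (VV α).smul_mem _ ((VV α).sum_mem fun h _ => VV.shift α (hv h) h)
  have hzw : ∀ w, ∑ g, z g * α g w = w := by
    intro w
    set m : G → G → A := fun h g => (if g = h then (1 : A) else 0) - v h g with hm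
    have hM : (fun k => ∑ h, m h k * α k (α h⁻¹ w)) = 0 := by
      refine hSP _ ?_ fun g hg => ?_
      · have e : (fun k => ∑ h, m h k * α k (α h⁻¹ w)) =
            (fun _ => w) - ∑ h, fun k => v h k * α k (α h⁻¹ w) := by
          funext k
          rw [Pi.sub_apply, Finset.sum_apply]
          simp only [hm, sub_mul, Finset.sum_sub_distrib]
          congr 1
          rw [Finset.sum_eq_single k]
          · rw [if_pos rfl, one_mul, ← StarAlgEquiv.mul_apply, ← map_mul, mul_inv_cancel, map_one]
            rfl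
          · intro b _ hb
            rw [if_neg (Ne.symm hb), zero_mul]
          · simp
        rw [e]
        exact (VV α).sub_mem (VV.const α w) ((VV α).sum_mem fun h _ => VV.rmul α (hv h) _)
      · refine Finset.sum_eq_zero fun h _ => ?_
        rw [hm]
        simp only
        rw [hvS h g hg, zero_mul]
    have h1 : ∀ h, ∑ g, v h (g * h) * α g w = w - ∑ k, m h k * α k (α h⁻¹ w) := by
      intro h
      have e1 : ∑ g, v h (g * h) * α g w = ∑ k, v h k * α k (α h⁻¹ w) := by
        refine Fintype.sum_equiv (Equiv.mulRight h) _ _ fun g => ?_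
        rw [Equiv.coe_mulRight]
        congr 1
        rw [← StarAlgEquiv.mul_apply, ← map_mul, mul_inv_cancel_right]
      rw [e1]
      simp only [hm, sub_mul, Finset.sum_sub_distrib]
      have e2 : ∑ k, (if k = h then (1 : A) else 0) * α k (α h⁻¹ w) = w := by
        rw [Finset.sum_eq_single h]
        · rw [if_pos rfl, one_mul, ← StarAlgEquiv.mul_apply, ← map_mul, mul_inv_cancel, map_one]
          rfl
        · intro b _ hb
          rw [if_neg hb, zero_mul]
        · simp
      rw [e2]
      abel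
    have h2 : ∑ g, z g * α g w = q⁻¹ • ∑ h, ∑ g, v h (g * h) * α g w := by
      rw [Finset.sum_comm, Finset.smul_sum]
      refine Finset.sum_congr rfl fun g _ => ?_
      rw [hz]
      simp only
      rw [smul_mul_assoc, Finset.sum_mul]
    rw [h2]
    simp only [h1, Finset.sum_sub_distrib]
    rw [Finset.sum_comm]
    have h3 : ∑ k, ∑ h, m h k * α k (α h⁻¹ w) = 0 :=
      Finset.sum_eq_zero fun k _ => congrFun hM k
    rw [h3, sub_zero, Finset.sum_const, Finset.card_univ, ← Nat.cast_smul_eq_nsmul ℂ, ← hq,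
      smul_smul, inv_mul_cancel₀ hq0, one_smul]
  obtain ⟨n, c, f, hf⟩ := (Submodule.mem_span_set').mp hzV
  choose x y hxy using fun i => (f i).2
  refine ⟨n, fun i => c i • x i, y, fun w => ?_⟩
  conv_rhs => rw [← hzw w, ← hf]
  simp only [Finset.sum_apply, Pi.smul_apply, hxy, Finset.sum_mul, map_mul, Finset.mul_sum]
  rw [Finset.sum_comm]
  refine Finset.sum_congr rfl fun g _ => Finset.sum_congr rfl fun i _ => ?_
  rw [smul_mul_assoc, smul_mul_assoc, mul_assoc]

end

end Run7.h450

/-!
# A frame for the inclusion of the fixed point algebra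
-/

set_option autoImplicit false
set_option linter.unusedSectionVars false

namespace Run7.h450

open Filter Topology
open Pool.Agent.H327R4.Pure

universe u v w

section

variable {A : Type u} [CStarAlgebra A] [PartialOrder A] [StarOrderedRing A]
variable {G : Type v} [Group G] [Fintype G] {α : G →* (A ≃⋆ₐ[ℂ] A)}
variable {D : Type w} [CStarAlgebra D] [PartialOrder D] [StarOrderedRing D]
variable {j : D →⋆ₐ[ℂ] A} (hj : IsFixedPointAlgebra α j)

include hj in
theorem IsFixedPointAlgebra.fix (d : D) (g : G) : α g (j d) = j d := (hj.range (j d)).1 ⟨d, rfl⟩ g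

include hj in
theorem IsFixedPointAlgebra.exists_sum (x : A) : ∃ d : D, j d = ∑ g, α g x := by
  rw [hj.range]
  intro g
  rw [map_sum]
  refine Fintype.sum_equiv (Equiv.mulLeft g) _ _ fun h => ?_
  rw [Equiv.coe_mulLeft, map_mul]
  rfl

/-- the map `x ↦ ∑ α_g(x)` to the fixed point algebra -/
noncomputable def EE (x : A) : D := Classical.choose (hj.exists_sum x)

theorem j_EE (x : A) : j (EE hj x) = ∑ g, α g x := Classical.choose_spec (hj.exists_sum x)

theorem EE_add (x y : A) : EE hj (x + y) = EE hj x + EE hj y := by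
  apply hj.injective
  rw [map_add, j_EE, j_EE, j_EE, ← Finset.sum_add_distrib]
  exact Finset.sum_congr rfl fun g _ => map_add _ _ _

theorem EE_smul (c : ℂ) (x : A) : EE hj (c • x) = c • EE hj x := by
  apply hj.injective
  rw [map_smul, j_EE, j_EE, Finset.smul_sum]
  exact Finset.sum_congr rfl fun g _ => map_smul _ _ _

theorem EE_zero : EE hj 0 = 0 := by
  have := EE_smul hj 0 0
  rwa [zero_smul, zero_smul] at this

theorem EE_sub (x y : A) : EE hj (x - y) = EE hj x - EE hj y := by
  have h := EE_add hj (x - y) y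
  rw [sub_add_cancel] at h
  rw [h, add_sub_cancel_right]

theorem EE_sum {ι : Type} (s : Finset ι) (f : ι → A) : EE hj (∑ i ∈ s, f i) = ∑ i ∈ s, EE hj (f i) := by
  classical
  induction s using Finset.induction_on with
  | empty => simp [EE_zero]
  | insert a t ha ih => rw [Finset.sum_insert ha, Finset.sum_insert ha, EE_add, ih]

theorem EE_star (x : A) : EE hj (star x) = star (EE hj x) := by
  apply hj.injective
  rw [map_star, j_EE, j_EE, star_sum]
  exact Finset.sum_congr rfl fun g _ => map_star _ _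

theorem EE_mul_j (x : A) (d : D) : EE hj (x * j d) = EE hj x * d := by
  apply hj.injective
  rw [map_mul, j_EE, j_EE, Finset.sum_mul]
  exact Finset.sum_congr rfl fun g _ => by rw [map_mul, hj.fix]

theorem EE_j_mul (x : A) (d : D) : EE hj (j d * x) = d * EE hj x := by
  apply hj.injective
  rw [map_mul, j_EE, j_EE, Finset.mul_sum]
  exact Finset.sum_congr rfl fun g _ => by rw [map_mul, hj.fix]

theorem EE_one : EE hj 1 = (Fintype.card G : ℝ) • (1 : D) := by
  apply hj.injective
  rw [j_EE]
  have h1 : ∀ g, α g (1 : A) = 1 := fun g => map_one _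
  simp only [h1, Finset.sum_const, Finset.card_univ]
  have h2 : j ((Fintype.card G : ℝ) • (1 : D)) = (Fintype.card G : ℝ) • (1 : A) := by
    rw [← Complex.coe_smul, map_smul, map_one, Complex.coe_smul]
  rw [h2, Nat.cast_smul_eq_nsmul]

/-- the homomorphism `j` as a non-unital homomorphism -/
noncomputable def jj (j : D →⋆ₐ[ℂ] A) : D →⋆ₙₐ[ℂ] A := (j : D →⋆ₙₐ[ℂ] A)

theorem jj_apply (d : D) : jj j d = j d := rfl

theorem jj_one : jj j 1 = 1 := map_one j

include hj in
theorem jj_injective : Function.Injective (jj j) := hj.injective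

include hj in
theorem j_refl (d : D) (h : 0 ≤ j d) : 0 ≤ d := ISO.refl (jj j) (jj_injective hj) d h

theorem EE_nonneg {x : A} (hx : 0 ≤ x) : 0 ≤ EE hj x := by
  apply j_refl hj
  rw [j_EE]
  exact Finset.sum_nonneg fun g _ => hom_nonneg (act α g) hx

theorem le_j_EE {x : A} (hx : 0 ≤ x) : x ≤ j (EE hj x) := by
  rw [j_EE]
  have h1 : x = α 1 x := by rw [map_one]; rfl
  conv_lhs => rw [h1]
  exact Finset.single_le_sum (f := fun g => α g x) (fun g _ => hom_nonneg (act α g) hx)
    (Finset.mem_univ 1)

theorem EE_faithful {x : A} (h : EE hj (star x * x) = 0) : x = 0 := by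
  have h1 := le_j_EE hj (star_mul_self_nonneg x)
  rw [h, map_zero] at h1
  exact (CStarRing.star_mul_self_eq_zero_iff x).1 (le_antisymm h1 (star_mul_self_nonneg x))

/-- the Gram matrix -/
noncomputable def gram {n m : ℕ} (b : Fin n → A) (c : Fin m → A) :
    CStarMatrix (Fin n) (Fin m) D :=
  CStarMatrix.ofMatrix fun i k => EE hj (star (b i) * c k)

theorem gram_apply {n m : ℕ} (b : Fin n → A) (c : Fin m → A) (i : Fin n) (k : Fin m) :
    gram hj b c i k = EE hj (star (b i) * c k) := rfl

theorem gram_star {n : ℕ} (b c : Fin n → A) : star (gram hj b c) = gram hj c b := by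
  ext i k
  rw [CStarMatrix.star_apply, gram_apply, gram_apply, ← EE_star, star_mul, star_star]

/-- spectral gap -/
theorem gap {R : Type u} [CStarAlgebra R] [PartialOrder R] [StarOrderedRing R] {Γ : R}
    (h0 : 0 ≤ Γ) (h : (4 : ℝ) • Γ ≤ Γ * Γ) (t : ℝ) (ht : t ∈ quasispectrum ℝ Γ) :
    t = 0 ∨ 4 ≤ t := by
  have hsa : IsSelfAdjoint Γ := IsSelfAdjoint.of_nonneg h0
  have e : Γ * Γ - (4 : ℝ) • Γ = cfcₙ (fun s : ℝ => s * s - 4 * s) Γ := by
    rw [cfcₙ_sub (fun s : ℝ => s * s) (fun s : ℝ => 4 * s) Γ (by fun_prop) (by simp) (by fun_prop)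
      (by simp), cfcₙ_mul (fun s : ℝ => s) (fun s : ℝ => s) Γ (by fun_prop) rfl (by fun_prop) rfl,
      cfcₙ_const_mul (4 : ℝ) (fun s : ℝ => s) Γ (by fun_prop) rfl, cfcₙ_id' ℝ Γ hsa]
  have h1 : 0 ≤ cfcₙ (fun s : ℝ => s * s - 4 * s) Γ := by
    rw [← e]
    exact sub_nonneg.mpr h
  have h2 : t * t - 4 * t ∈ quasispectrum ℝ (cfcₙ (fun s : ℝ => s * s - 4 * s) Γ) := by
    rw [cfcₙ_map_quasispectrum (fun s : ℝ => s * s - 4 * s) Γ (by fun_prop) (by simp)]
    exact ⟨t, ht, rfl⟩
  have h3 := quasispectrum_nonneg_of_nonneg _ h1 _ h2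
  have h4 := quasispectrum_nonneg_of_nonneg _ h0 t ht
  rcases h4.eq_or_lt with h5 | h5
  · exact Or.inl h5.symm
  · right
    nlinarith

/-- `√t / max t 1` -/
noncomputable def hf (t : ℝ) : ℝ := Real.sqrt t / max t 1

theorem hf_cont : Continuous hf := by
  unfold hf
  refine Continuous.div (by fun_prop) (by fun_prop) fun t => ?_
  exact (lt_of_lt_of_le one_pos (le_max_right _ _)).ne'

theorem hf_zero : hf 0 = 0 := by
  unfold hf
  rw [Real.sqrt_zero, zero_div]

theorem hf_sq {t : ℝ} (ht : 1 ≤ t) : t * (hf t * hf t) = 1 := by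
  unfold hf
  rw [max_eq_left ht]
  have h0 : 0 < t := by linarith
  have h1 : Real.sqrt t * Real.sqrt t = t := Real.mul_self_sqrt h0.le
  have h2 : Real.sqrt t / t * (Real.sqrt t / t) = (Real.sqrt t * Real.sqrt t) / (t * t) := by ring
  rw [h2, h1]
  field_simp

theorem exists_inv_root {R : Type u} [CStarAlgebra R] [PartialOrder R] [StarOrderedRing R] {Γ : R}
    (h0 : 0 ≤ Γ) (h : (4 : ℝ) • Γ ≤ Γ * Γ) :
    ∃ H : R, star H = H ∧ Γ * (H * H) = H * H * Γ ∧ Γ * (H * H) * Γ = Γ := by
  have hsa : IsSelfAdjoint Γ := IsSelfAdjoint.of_nonneg h0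
  have hc := hf_cont.continuousOn (s := quasispectrum ℝ Γ)
  refine ⟨cfcₙ hf Γ, (cfcₙ_predicate hf Γ : IsSelfAdjoint _).star_eq, ?_, ?_⟩
  · have e1 : Γ * (cfcₙ hf Γ * cfcₙ hf Γ) = cfcₙ (fun t => t * (hf t * hf t)) Γ := by
      rw [cfcₙ_mul (fun t : ℝ => t) (fun t => hf t * hf t) Γ (by fun_prop) rfl (hc.mul hc)
        (by simp [hf_zero]), cfcₙ_mul hf hf Γ hc hf_zero hc hf_zero, cfcₙ_id' ℝ Γ hsa]
    have e2 : cfcₙ hf Γ * cfcₙ hf Γ * Γ = cfcₙ (fun t => hf t * hf t * t) Γ := by
      rw [cfcₙ_mul (fun t => hf t * hf t) (fun t : ℝ => t) Γ (hc.mul hc)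
        (by simp [hf_zero]) (by fun_prop) rfl, cfcₙ_mul hf hf Γ hc hf_zero hc hf_zero,
        cfcₙ_id' ℝ Γ hsa]
    rw [e1, e2]
    congr 1
    funext t
    ring
  · have e1 : Γ * (cfcₙ hf Γ * cfcₙ hf Γ) * Γ = cfcₙ (fun t => t * (hf t * hf t) * t) Γ := by
      rw [cfcₙ_mul (fun t : ℝ => t * (hf t * hf t)) (fun t : ℝ => t) Γ
        (continuousOn_id.mul (hc.mul hc)) (by simp) (by fun_prop) rfl,
        cfcₙ_mul (fun t : ℝ => t) (fun t => hf t * hf t) Γ (by fun_prop) rfl (hc.mul hc)
        (by simp [hf_zero]), cfcₙ_mul hf hf Γ hc hf_zero hc hf_zero, cfcₙ_id' ℝ Γ hsa]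
    rw [e1]
    conv_rhs => rw [← cfcₙ_id' ℝ Γ hsa]
    refine cfcₙ_congr fun t ht => ?_
    rcases gap h0 h t ht with h1 | h1
    · subst h1
      simp
    · show t * (hf t * hf t) * t = t
      rw [hf_sq (by linarith), one_mul]

/-- `Γ ≤ Γ²` for the Gram matrix of the symmetrised quasi-basis -/
theorem gram_gap {n : ℕ} (b z : Fin n → A)
    (h : ∀ v w : A, (4 : ℝ) • EE hj (star v * w) =
      ∑ i, EE hj (star v * b i) * EE hj (star (b i) * w) -
        ∑ i, EE hj (star v * z i) * EE hj (star (z i) * w)) :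
    0 ≤ gram hj b b ∧ (4 : ℝ) • gram hj b b ≤ gram hj b b * gram hj b b := by
  have h1 : (4 : ℝ) • gram hj b b = gram hj b b * gram hj b b - gram hj b z * star (gram hj b z) := by
    rw [gram_star]
    ext i k
    rw [CStarMatrix.smul_apply, CStarMatrix.sub_apply, CStarMatrix.mul_apply,
      CStarMatrix.mul_apply, gram_apply, h]
    rfl
  refine ⟨?_, ?_⟩
  · refine ISO.refl (ent (jj j) n) (fun x y hxy => ?_) _ ?_
    · ext p q
      exact jj_injective hj (congrFun (congrFun hxy p) q)
    · have e : ent (jj j) n (gram hj b b) = ∑ g : G, star (CStarMatrix.ofMatrix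
          (fun (i k : Fin n) => if (i : ℕ) = 0 then α g (b k) else 0) : Mat n A) *
          (CStarMatrix.ofMatrix
          (fun (i k : Fin n) => if (i : ℕ) = 0 then α g (b k) else 0) : Mat n A) := by
        ext p q
        rw [cm_sum_apply, ent_apply, gram_apply, jj_apply, j_EE]
        refine Finset.sum_congr rfl fun g _ => ?_
        rw [CStarMatrix.mul_apply]
        have hn : 0 < n := lt_of_le_of_lt (Nat.zero_le _) p.2
        rw [Finset.sum_eq_single (⟨0, hn⟩ : Fin n)]
        · rw [CStarMatrix.star_apply]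
          simp only [CStarMatrix.ofMatrix_apply, if_true, map_mul, map_star]
        · intro i _ hi
          have hi' : (i : ℕ) ≠ 0 := fun h0 => hi (Fin.ext h0)
          simp only [CStarMatrix.ofMatrix_apply, if_neg hi', mul_zero]
        · simp
      rw [e]
      exact Finset.sum_nonneg fun g _ => star_mul_self_nonneg _
  · rw [h1]
    exact sub_le_self _ (mul_star_self_nonneg _)

theorem exists_frame (hA : SimpleC A) : ∃ (n : ℕ) (a : Fin n → A),
    ∀ w, ∑ i, a i * j (EE hj (star (a i) * w)) = w := by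
  obtain ⟨n, x, y, hxy⟩ := exists_quasi_basis α hA
  have hq : ∀ w, ∑ i, x i * j (EE hj (y i * w)) = w := by
    intro w
    simp only [j_EE]
    exact hxy w
  have hI : ∀ v w : A, EE hj (star v * w) =
      ∑ i, EE hj (star v * x i) * EE hj (y i * w) := by
    intro v w
    conv_lhs => rw [← hq w]
    rw [Finset.mul_sum, EE_sum]
    refine Finset.sum_congr rfl fun i _ => ?_
    rw [← mul_assoc, EE_mul_j]
  have hI' : ∀ v w : A, EE hj (star v * w) =
      ∑ i, EE hj (star v * star (y i)) * EE hj (star (x i) * w) := by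
    intro v w
    have h1 := congrArg star (hI w v)
    rw [← EE_star, star_mul, star_star, star_sum] at h1
    rw [h1]
    refine Finset.sum_congr rfl fun i _ => ?_
    rw [star_mul, ← EE_star, ← EE_star, star_mul, star_mul, star_star]
  set b : Fin n → A := fun i => x i + star (y i) with hb
  set z : Fin n → A := fun i => x i - star (y i) with hz
  have hII : ∀ v w : A, (4 : ℝ) • EE hj (star v * w) =
      ∑ i, EE hj (star v * b i) * EE hj (star (b i) * w) -
        ∑ i, EE hj (star v * z i) * EE hj (star (z i) * w) := by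
    intro v w
    have h4 : (4 : ℝ) • EE hj (star v * w) =
        (EE hj (star v * w) + EE hj (star v * w)) + (EE hj (star v * w) + EE hj (star v * w)) := by
      have h5 : (4 : ℝ) = 1 + 1 + (1 + 1) := by norm_num
      rw [h5, add_smul, add_smul, one_smul]
    rw [h4]
    conv_lhs =>
      enter [1, 1]
      rw [hI v w]
    conv_lhs =>
      enter [1, 2]
      rw [hI' v w]
    conv_lhs =>
      enter [2, 1]
      rw [hI v w]
    conv_lhs =>
      enter [2, 2]
      rw [hI' v w]
    rw [← Finset.sum_add_distrib, ← Finset.sum_add_distrib, ← Finset.sum_sub_distrib]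
    refine Finset.sum_congr rfl fun i _ => ?_
    simp only [hb, hz, star_add, star_sub, star_star, mul_add, add_mul, mul_sub, sub_mul,
      EE_add, EE_sub]
    abel
  obtain ⟨hΓ0, hΓ⟩ := gram_gap hj b z hII
  set Γ : Mat n D := gram hj b b with hΓd
  obtain ⟨H, hHs, hcom, hΓH⟩ := exists_inv_root hΓ0 hΓ
  have hHs' : ∀ p q, star (H p q) = H q p := fun p q => by
    rw [← CStarMatrix.star_apply, hHs]
  refine ⟨n, fun k => ∑ i, b i * j (H i k), fun w => ?_⟩
  set W : Fin n → D := fun i => EE hj (star (b i) * w) with hW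
  set Q : Mat n D := 1 - Γ * (H * H) with hQ
  have hQs : star Q = Q := by
    rw [hQ, star_sub, star_one, star_mul, star_mul, hHs, (IsSelfAdjoint.of_nonneg hΓ0).star_eq,
      ← hcom]
  have hQΓ : Q * Γ = 0 := by
    rw [hQ, sub_mul, one_mul, hΓH, sub_self]
  have hu : ∀ k, ∑ i, b i * j (Q i k) = 0 := by
    intro k
    apply EE_faithful hj
    have e1 : EE hj (star (∑ i, b i * j (Q i k)) * ∑ i, b i * j (Q i k)) = (Q * Γ * Q) k k := by
      have hQs' : ∀ p q, star (Q p q) = Q q p := fun p q => by
        rw [← CStarMatrix.star_apply, hQs]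
      rw [CStarMatrix.mul_apply, star_sum, Finset.mul_sum, EE_sum]
      refine Finset.sum_congr rfl fun i _ => ?_
      rw [Finset.sum_mul, EE_sum, CStarMatrix.mul_apply, Finset.sum_mul]
      refine Finset.sum_congr rfl fun l _ => ?_
      rw [star_mul, ← map_star, hQs']
      have e2 : j (Q k l) * star (b l) * (b i * j (Q i k)) =
          j (Q k l) * (star (b l) * b i * j (Q i k)) := by simp only [mul_assoc]
      rw [e2, EE_j_mul, EE_mul_j, hΓd, gram_apply, mul_assoc]
    rw [e1, hQΓ, zero_mul]
    rfl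
  have hQW : ∀ k, ∑ l, Q k l * W l = 0 := by
    intro k
    have h1 : EE hj (star (∑ i, b i * j (Q i k)) * w) = ∑ l, Q k l * W l := by
      have hQs' : ∀ p q, star (Q p q) = Q q p := fun p q => by
        rw [← CStarMatrix.star_apply, hQs]
      rw [star_sum, Finset.sum_mul, EE_sum]
      refine Finset.sum_congr rfl fun l _ => ?_
      rw [star_mul, ← map_star, hQs', mul_assoc, EE_j_mul]
    rw [← h1, hu k, star_zero, zero_mul, EE_zero]
  set V : Fin n → D := fun i => ∑ l, (H * H) i l * W l with hV
  have hw' : ∑ k, (∑ i, b i * j (H i k)) * j (EE hj (star (∑ i, b i * j (H i k)) * w)) =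
      ∑ i, b i * j (V i) := by
    have h1 : ∀ k, EE hj (star (∑ i, b i * j (H i k)) * w) = ∑ l, H k l * W l := by
      intro k
      rw [star_sum, Finset.sum_mul, EE_sum]
      refine Finset.sum_congr rfl fun l _ => ?_
      rw [star_mul, ← map_star, hHs', mul_assoc, EE_j_mul]
    simp only [h1, Finset.sum_mul]
    rw [Finset.sum_comm]
    refine Finset.sum_congr rfl fun i _ => ?_
    simp only [mul_assoc, ← Finset.mul_sum, ← map_mul, ← map_sum]
    congr 2
    rw [hV]
    simp only [CStarMatrix.mul_apply, Finset.sum_mul, Finset.mul_sum, mul_assoc]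
    rw [Finset.sum_comm]
  show ∑ k, (∑ i, b i * j (H i k)) * j (EE hj (star (∑ i, b i * j (H i k)) * w)) = w
  rw [hw']
  set δ : A := w - ∑ i, b i * j (V i) with hδ
  have hδb : ∀ k, EE hj (star (b k) * δ) = 0 := by
    intro k
    rw [hδ, mul_sub, EE_sub, Finset.mul_sum, EE_sum]
    have h1 : ∀ i, EE hj (star (b k) * (b i * j (V i))) = Γ k i * V i := by
      intro i
      rw [← mul_assoc, EE_mul_j, hΓd, gram_apply]
    simp only [h1]
    have h2 : ∑ i, Γ k i * V i = ∑ l, (Γ * (H * H)) k l * W l := by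
      rw [hV]
      simp only [Finset.mul_sum]
      rw [Finset.sum_comm]
      refine Finset.sum_congr rfl fun l _ => ?_
      rw [CStarMatrix.mul_apply, Finset.sum_mul]
      exact Finset.sum_congr rfl fun i _ => (mul_assoc _ _ _).symm
    rw [h2, ← hQW k]
    have h3 : W k = ∑ l, (1 : Mat n D) k l * W l := by
      rw [Finset.sum_eq_single k]
      · rw [CStarMatrix.one_apply, if_pos rfl, one_mul]
      · intro l _ hl
        rw [CStarMatrix.one_apply, if_neg (Ne.symm hl), zero_mul]
      · simp
    have h4 : EE hj (star (b k) * w) = W k := rfl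
    rw [h4, h3, ← Finset.sum_sub_distrib]
    refine Finset.sum_congr rfl fun l _ => ?_
    rw [hQ, CStarMatrix.sub_apply, sub_mul]
  have hδ0 : EE hj (star δ * δ) = 0 := by
    have h1 := hII δ δ
    have h2 : ∑ i, EE hj (star δ * b i) * EE hj (star (b i) * δ) = 0 :=
      Finset.sum_eq_zero fun i _ => by rw [hδb, mul_zero]
    rw [h2, zero_sub] at h1
    have h3 : 0 ≤ ∑ i, EE hj (star δ * z i) * EE hj (star (z i) * δ) := by
      refine Finset.sum_nonneg fun i _ => ?_
      have : EE hj (star δ * z i) = star (EE hj (star (z i) * δ)) := by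
        rw [← EE_star, star_mul, star_star]
      rw [this]
      exact star_mul_self_nonneg _
    have h4 : (4 : ℝ) • EE hj (star δ * δ) ≤ 0 := by
      rw [h1]
      exact neg_nonpos.mpr h3
    have h5 : 0 ≤ EE hj (star δ * δ) := EE_nonneg hj (star_mul_self_nonneg δ)
    have h6 : EE hj (star δ * δ) ≤ (4 : ℝ) • EE hj (star δ * δ) := by
      have h7 : (1 : ℝ) • EE hj (star δ * δ) ≤ (4 : ℝ) • EE hj (star δ * δ) :=
        smul_le_smul_of_nonneg_right (by norm_num) h5
      rwa [one_smul] at h7
    exact le_antisymm (h6.trans h4) h5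
  have hδ' := EE_faithful hj hδ0
  rw [hδ, sub_eq_zero] at hδ'
  exact hδ'.symm

end

end Run7.h450
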