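import Pool.Agent.Run7.h450.Q2

/-!
# The crossed product inequality
-/

set_option autoImplicit false
set_option linter.unusedSectionVars false

namespace Run7.h450

open Filter Topology
open Pool.Agent.H327R4.Pure
open scoped ENNReal NNReal

universe u v w

theorem IsQuasitrace.comp {R : Type u} {R' : Type v} [CStarAlgebra R] [CStarAlgebra R']
    {τ : R' → ℂ} (h : IsQuasitrace τ) (φ : R →⋆ₙₐ[ℂ] R') : IsQuasitrace fun x => τ (φ x) where
  nonneg x := by
    have := h.nonneg (φ x)
    rwa [← map_star, ← map_mul] at this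
  comm x := by
    have := h.comm (φ x)
    rwa [← map_star, ← map_mul, ← map_mul] at this
  add_I a b ha hb := by
    have := h.add_I (φ a) (φ b) (ha.map φ) (hb.map φ)
    rwa [← map_smul, ← map_add] at this
  linear c x y hx hy hxy hxy' := by
    have h1 : IsStarNormal (φ x) := hx.map φ
    have h2 : IsStarNormal (φ y) := hy.map φ
    have := h.linear c (φ x) (φ y) h1 h2 (hxy.map φ) (by
      rw [← map_star]; exact hxy'.map φ)
    rwa [← map_smul, ← map_add] at this

section

variable {A : Type u} [CStarAlgebra A] [PartialOrder A] [StarOrderedRing A]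
variable {B : Type w} [CStarAlgebra B] [PartialOrder B] [StarOrderedRing B]

theorem ent_pad (φ : A →⋆ₙₐ[ℂ] B) {n : ℕ} (x : Mat n A) :
    ent φ (n + 1) (pad x) = pad (ent φ n x) := by
  ext i j
  rw [ent_apply]
  simp only [pad, CStarMatrix.ofMatrix_apply]
  by_cases h : (i : ℕ) < n ∧ (j : ℕ) < n
  · rw [dif_pos h, dif_pos h]
    rfl
  · rw [dif_neg h, dif_neg h, map_zero]

theorem ent_one (φ : A →⋆ₙₐ[ℂ] B) (h1 : φ 1 = 1) (n : ℕ) : ent φ n 1 = 1 := by
  ext i j
  rw [ent_apply, CStarMatrix.one_apply, CStarMatrix.one_apply]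
  split_ifs
  · exact h1
  · exact map_zero _

/-- restriction of quasitraces along a unital homomorphism -/
noncomputable def QT.res (φ : A →⋆ₙₐ[ℂ] B) (h1 : φ 1 = 1) (σ : QT B) : QT A where
  val n x := σ.val n (ent φ n x)
  quasi n := (σ.quasi n).comp (ent φ n)
  val_pad n x := by rw [ent_pad, σ.val_pad]
  map_one := by rw [ent_one φ h1, σ.map_one]

theorem QT.d_res (φ : A →⋆ₙₐ[ℂ] B) (h1 : φ 1 = 1) (σ : QT B) {n : ℕ} (x : Mat n A)
    (hx : 0 ≤ x) : σ.d (ent φ n x) = (QT.res φ h1 σ).d x := by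
  unfold QT.d
  congr 1
  funext k
  have h2 : ent φ n (root k x) = root k (ent φ n x) := RKSaux.rt_hom (ent φ n) hx k
  show (σ.val n (root k (ent φ n x))).re = (σ.val n (ent φ n (root k x))).re
  rw [h2]

end

section

variable {A : Type u} [CStarAlgebra A] [PartialOrder A] [StarOrderedRing A]
variable {G : Type v} [Group G] [Fintype G] {α : G →* (A ≃⋆ₐ[ℂ] A)}
variable {B : Type w} [CStarAlgebra B] [PartialOrder B] [StarOrderedRing B]
variable {m N : ℕ} (E : G × Fin m → Fin N) (hE : Function.Injective E)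

/-- the inclusion as a non-unital homomorphism -/
noncomputable def CrossedProduct.inc (cp : CrossedProduct α B) : A →⋆ₙₐ[ℂ] B :=
  (cp.ι : A →⋆ₙₐ[ℂ] B)

theorem cz_of_cuntz (cp : CrossedProduct α B) {s : Mat N A} {t1 : Mat m A}
    (h : Cuntz (ent cp.inc N s) (ent cp.inc m t1)) : Cz s (cpsi α E hE t1) := by
  classical
  obtain ⟨x, hx⟩ := h
  obtain ⟨coef, hcoef⟩ := cp_coef cp
  have hsur : ∀ k p i, ∃ f : G → A, ∑ g, cp.ι (f g) * cp.u g = x k p i :=
    fun k p i => cp.bij.2 (x k p i)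
  choose a ha using hsur
  rw [tendsto_cm] at hx
  set Y : ℕ → Mat N A := fun k => CStarMatrix.ofMatrix fun p r =>
    ∑ z : G × Fin m, if E z = r then a k p z.2 z.1 else 0 with hY
  have hYE : ∀ k p z, Y k p (E z) = a k p z.2 z.1 := by
    intro k p z
    simp only [hY, CStarMatrix.ofMatrix_apply]
    rw [Finset.sum_eq_single z]
    · simp
    · intro b _ hb
      rw [if_neg (fun h => hb (hE h))]
    · simp
  have hY0 : ∀ k p r, r ∉ Set.range E → Y k p r = 0 := by
    intro k p r hr
    simp only [hY, CStarMatrix.ofMatrix_apply]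
    exact Finset.sum_eq_zero fun z _ => if_neg (fun h => hr ⟨z, h⟩)
  refine ⟨Y, ?_⟩
  rw [tendsto_cm]
  intro p q
  have h1 : Tendsto (fun k => coef ((x k * ent cp.inc m t1 * (x k).conjTranspose) p q)) atTop
      (𝓝 (coef (cp.ι (s p q)))) := (coef.continuous.tendsto _).comp (hx p q)
  have h2 : coef (cp.ι (s p q)) = s p q := by
    have := cp_single cp hcoef (s p q) 1
    rwa [map_one, mul_one, if_pos rfl] at this
  rw [h2] at h1
  refine h1.congr fun k => ?_
  have hL : (Y k * cpsi α E hE t1 * star (Y k)) p q =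
      ∑ z' : G × Fin m, ∑ z : G × Fin m,
        a k p z.2 z.1 * (if z.1 = z'.1 then α z.1 (t1 z.2 z'.2) else 0) *
          star (a k q z'.2 z'.1) := by
    have hin : ∀ z' : G × Fin m, (Y k * cpsi α E hE t1) p (E z') =
        ∑ z : G × Fin m, a k p z.2 z.1 * (if z.1 = z'.1 then α z.1 (t1 z.2 z'.2) else 0) := by
      intro z'
      rw [CStarMatrix.mul_apply]
      symm
      refine Fintype.sum_of_injective E hE _ _ ?_ ?_
      · intro r hr
        rw [hY0 k p r hr, zero_mul]
      · intro z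
        rw [hYE]
        congr 1
        exact (cpsi_apply α E hE t1 z.1 z'.1 z.2 z'.2).symm
    rw [CStarMatrix.mul_apply]
    symm
    refine Fintype.sum_of_injective E hE _ _ ?_ ?_
    · intro r hr
      rw [CStarMatrix.star_apply, hY0 k q r hr, star_zero, mul_zero]
    · intro z'
      rw [CStarMatrix.star_apply, hYE, hin, Finset.sum_mul]
  have hR : coef ((x k * ent cp.inc m t1 * (x k).conjTranspose) p q) =
      ∑ j, ∑ i, ∑ g, a k p i g * α g (t1 i j) * star (a k q j g) := by
    rw [CStarMatrix.mul_apply, map_sum]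
    refine Finset.sum_congr rfl fun j _ => ?_
    rw [CStarMatrix.mul_apply, Finset.sum_mul, map_sum]
    refine Finset.sum_congr rfl fun i _ => ?_
    rw [CStarMatrix.conjTranspose_apply, ← ha k p i, ← ha k q j]
    exact cp_coef_mul cp hcoef (a k p i) (a k q j) (t1 i j)
  have hK : ∑ z' : G × Fin m, ∑ z : G × Fin m,
        a k p z.2 z.1 * (if z.1 = z'.1 then α z.1 (t1 z.2 z'.2) else 0) *
          star (a k q z'.2 z'.1) =
      ∑ j, ∑ i, ∑ g, a k p i g * α g (t1 i j) * star (a k q j g) := by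
    rw [Fintype.sum_prod_type, Finset.sum_comm]
    refine Finset.sum_congr rfl fun j _ => ?_
    have h3 : ∀ g : G, ∑ z : G × Fin m,
        a k p z.2 z.1 * (if z.1 = g then α z.1 (t1 z.2 j) else 0) * star (a k q j g) =
        ∑ i : Fin m, a k p i g * α g (t1 i j) * star (a k q j g) := by
      intro g
      rw [Fintype.sum_prod_type, Finset.sum_eq_single g]
      · simp
      · intro b _ hb
        exact Finset.sum_eq_zero fun i _ => by
          show a k p i b * (if b = g then α b (t1 i j) else 0) * star (a k q j g) = 0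
          rw [if_neg hb, mul_zero, zero_mul]
      · simp
    exact (Finset.sum_congr rfl fun g _ => h3 g).trans Finset.sum_comm
  exact hR.trans (hK.symm.trans hL.symm)

/-- convex combination form of the hypothesis on the quasitraces -/
def QConv {ι : Type} [Fintype ι] (T : ι → Tr A) : Prop :=
  ∀ τ : QT A, ∃ c : ι → ℝ, (∀ i, 0 ≤ c i) ∧ ∑ i, c i = 1 ∧ ∀ (n : ℕ) (x : Mat n A),
    τ.val n x = ∑ i, (c i : ℂ) * (trM (T i) (Fin n)).f x

theorem QConv.conv {ι : Type} [Fintype ι] {T : ι → Tr A} (h : QConv T) : Conv T := by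
  intro S hS
  obtain ⟨c, h1, h2, h3⟩ := h (QT.ofTr S hS)
  refine ⟨c, h1, h2, fun x => ?_⟩
  have h5 := h3 1 (sg 0 0 x)
  have h6 : (QT.ofTr S hS).val 1 (sg 0 0 x) = S.f x := trM_one_sg S x
  rw [h6] at h5
  rw [h5]
  exact Finset.sum_congr rfl fun i _ => by rw [trM_one_sg]

theorem d_res_lt {ι : Type} [Fintype ι] {T : ι → Tr A} (hQ : QConv T) (φ : A →⋆ₙₐ[ℂ] B)
    (h1 : φ 1 = 1) (σ : QT B) {n m : ℕ} {x : Mat n A} {y : Mat m A} (hx : 0 ≤ x) (hy : 0 ≤ y)
    (r ε : ℝ) (hxε : ∀ i, rk (trM (T i) (Fin n)) x < ε)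
    (hyr : ∀ i, r + ε ≤ rk (trM (T i) (Fin m)) y) :
    σ.d (ent φ n x) + r < σ.d (ent φ m y) := by
  rw [QT.d_res φ h1 σ x hx, QT.d_res φ h1 σ y hy]
  obtain ⟨c, hc0, hc1, hc⟩ := hQ (QT.res φ h1 σ)
  rw [QT.d_eq _ T c hc x hx, QT.d_eq _ T c hc y hy]
  have hex : ∃ i, 0 < c i := by
    by_contra hcon
    push Not at hcon
    have : ∑ i, c i ≤ 0 := Finset.sum_nonpos fun i _ => hcon i
    rw [hc1] at this
    linarith
  obtain ⟨i, hi⟩ := hex
  have h2 : ∑ j, c j * rk (trM (T j) (Fin n)) x < ∑ j, c j * ε :=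
    Finset.sum_lt_sum (fun j _ => mul_le_mul_of_nonneg_left (hxε j).le (hc0 j))
      ⟨i, Finset.mem_univ i, mul_lt_mul_of_pos_left (hxε i) hi⟩
  have h3 : ∑ j, c j * (r + ε) ≤ ∑ j, c j * rk (trM (T j) (Fin m)) y :=
    Finset.sum_le_sum fun j _ => mul_le_mul_of_nonneg_left (hyr j) (hc0 j)
  rw [← Finset.sum_mul, hc1, one_mul] at h2 h3
  linarith

theorem rk_emb_le {n N : ℕ} (hn : n ≤ N) (T : Tr A) {a : Mat n A} (ha : 0 ≤ a) :
    rk (trM T (Fin N)) (emb (Fin.castLE hn) (Fin.castLE_injective hn) a) =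
      rk (trM T (Fin n)) a := rk_emb T _ _ ha

/-- from the matrix algebra of a large size back to rectangular matrices -/
theorem cuntz_of_cz {n n' N : ℕ} (e : Fin n → Fin N) (he : Function.Injective e)
    (e' : Fin n' → Fin N) (he' : Function.Injective e') {a : Mat n A} {b : Mat n' A}
    (h : Cz (emb e he a) (emb e' he' b)) : Cuntz a b := by
  classical
  obtain ⟨x, hx⟩ := h
  refine ⟨fun k => CStarMatrix.ofMatrix fun i j => x k (e i) (e' j), ?_⟩
  rw [tendsto_cm] at hx ⊢
  intro p q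
  have h1 := hx (e p) (e q)
  have h0 : emb e he a (e p) (e q) = a p q := embf_apply he a p q
  rw [h0] at h1
  refine h1.congr fun k => ?_
  rw [CStarMatrix.mul_apply, CStarMatrix.mul_apply]
  symm
  refine Fintype.sum_of_injective e' he' _ _ ?_ ?_
  · intro r hr
    rw [CStarMatrix.mul_apply]
    have : ∑ j, x k (e p) j * emb e' he' b j r = 0 :=
      Finset.sum_eq_zero fun j _ => by rw [emb_apply, embf_right _ _ hr, mul_zero]
    rw [this, zero_mul]
  · intro j
    rw [CStarMatrix.star_apply, CStarMatrix.conjTranspose_apply, CStarMatrix.mul_apply,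
      CStarMatrix.mul_apply]
    congr 1
    refine Fintype.sum_of_injective e' he' _ _ ?_ ?_
    · intro r hr
      rw [emb_apply, embf_left _ hr, mul_zero]
    · intro i
      rw [emb_apply, embf_apply he']
      rfl

end

end Run7.h450

/-!
# The crossed product inequality: final theorem
-/

set_option autoImplicit false
set_option linter.unusedSectionVars false

namespace Run7.h450

open Filter Topology
open Pool.Agent.H327R4.Pure
open scoped ENNReal NNReal

universe u v w

section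

variable {A : Type u} [CStarAlgebra A] [PartialOrder A] [StarOrderedRing A]

theorem d_ofTr (T : Tr A) (h : T.f 1 = 1) {n : ℕ} {a : Mat n A} (ha : 0 ≤ a) :
    (QT.ofTr T h).d a = rk (trM T (Fin n)) a := by
  have := QT.d_eq (ι := Unit) (QT.ofTr T h) (fun _ => T) (fun _ => 1) (fun n x => by
    simp only [Finset.univ_unique, Finset.sum_singleton, Complex.ofReal_one, one_mul]
    rfl) a ha
  rw [this]
  simp

/-- a uniform element: all ranks are almost equal to `l` -/
theorem exists_uniform (hA : SimpleC A) (hinf : ¬ FiniteDimensional ℂ A) (l ε : ℝ) (hl : 0 ≤ l)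
    (hε : 0 < ε) : ∃ (K : ℕ) (t : Mat K A), 0 ≤ t ∧ ∀ T : Tr A, T.f 1 = 1 →
      l - ε ≤ rk (trM T (Fin K)) t ∧ rk (trM T (Fin K)) t ≤ l := by
  have h0 : (0 : MM 1 A) ≤ l • (1 : MM 1 A) := smul_nonneg hl zero_le_one
  obtain ⟨K, t, ht, h⟩ := mat1' A hA hinf 1 (l • (1 : MM 1 A)) ε h0 hε
  refine ⟨K, t, ht, fun T hT => ?_⟩
  have h1 := h T
  have h2 : ((trM T (Fin 1)).f (l • (1 : MM 1 A))).re = l := by
    have h3 : (l • (1 : MM 1 A)) 0 0 = l • (1 : A) := rfl
    rw [trM_apply, Fin.sum_univ_one, h3, RK_smul, hT, Complex.one_re, mul_one]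
  rw [h2, hT, Complex.one_re, mul_one] at h1
  exact h1

variable {G : Type v} [Group G] [Fintype G] {α : G →* (A ≃⋆ₐ[ℂ] A)}
variable {B : Type w} [CStarAlgebra B] [PartialOrder B] [StarOrderedRing B]

theorem cp_comparison {ι : Type} [Fintype ι] (hA : SimpleC A) (hinf : ¬ FiniteDimensional ℂ A)
    (T : ι → Tr A) (hT1 : ∀ i, (T i).f 1 = 1) (hExt : ∀ i, Ext (T i)) (hQ : QConv T)
    (cp : CrossedProduct α B) (r : ℝ) (hr : 0 ≤ r) (hB : Comparison B r) (r' : ℝ)
    (hr' : Fintype.card G * r < r') : Comparison A r' := by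
  intro n n' a b ha hb hab
  set q : ℝ := (Fintype.card G : ℝ) with hq
  have hq0 : 0 < q := by
    rw [hq]
    exact_mod_cast Fintype.card_pos
  have hrq : r < r' / q := by
    rw [lt_div_iff₀ hq0, mul_comm]
    exact hr'
  set l : ℝ := (r + r' / q) / 2 with hl
  set ε : ℝ := (l - r) / 4 with hε
  have hlr : r < l := by rw [hl]; linarith
  have hlr' : l < r' / q := by rw [hl]; linarith
  have hε0 : 0 < ε := by rw [hε]; linarith
  obtain ⟨K, t, ht, htl⟩ := exists_uniform hA hinf l ε (by linarith) hε0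
  set N : ℕ := n + n' + Fintype.card (G × Fin K) with hN
  let E : G × Fin K → Fin N := fun z =>
    Fin.castLE (by omega) (Fintype.equivFin (G × Fin K) z)
  have hE : Function.Injective E :=
    (Fin.castLE_injective _).comp (Fintype.equivFin (G × Fin K)).injective
  have hn : n ≤ N := by omega
  have hn' : n' ≤ N := by omega
  obtain ⟨δ, hδ0, hδ⟩ := rk_cut_fin (fun i => trM (T i) (Fin K)) ht ε hε0
  refine cuntz_of_cz (Fin.castLE hn) (Fin.castLE_injective hn) (Fin.castLE hn')
    (Fin.castLE_injective hn') ?_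
  have ha' : 0 ≤ emb (Fin.castLE hn) (Fin.castLE_injective hn) a :=
    hom_nonneg (R := Mat n A) (R' := Mat N A) _ ha
  have hb' : 0 ≤ emb (Fin.castLE hn') (Fin.castLE_injective hn') b :=
    hom_nonneg (R := Mat n' A) (R' := Mat N A) _ hb
  refine assemble (R := Mat N A) (C := Mat K A) (fun i => trM (T i) (Fin N))
    (fun i => avg_mat (T i) (hExt i) N) (cpsi α E hE) (cF α E) q hq0.le
    (fun v hv => cF_nonneg α E hE hv) (fun v hv hL => cF_le α E hE hv hL)
    (Set.range fun i => trM (T i) (Fin K)) q hq0.le ?_ _ _ ha' hb' t ht ?_ r ε δ hε0 hδ0 ?_ ?_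
  · rintro v hv η h S ⟨i, rfl⟩
    exact cF_rk α E hE hQ.conv hT1 hv η h i
  · intro i
    have h1 := hab (QT.ofTr (T i) (hT1 i))
    rw [d_ofTr _ _ ha, d_ofTr _ _ hb] at h1
    have h2 := cpsi_rk α E hE hQ.conv hT1 ht l (fun j => (htl (T j) (hT1 j)).2) i
    rw [rk_emb_le hn (T i) ha, rk_emb_le hn' (T i) hb]
    have h3 : q * l < r' := by
      rw [lt_div_iff₀ hq0] at hlr'
      linarith
    linarith
  · rintro S ⟨i, rfl⟩
    have h1 := hδ δ hδ0.le le_rfl i
    have h2 := (htl (T i) (hT1 i)).1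
    show r + 2 * ε ≤ rk (trM (T i) (Fin K)) (cut δ t)
    have h1' : rk (trM (T i) (Fin K)) t - ε < rk (trM (T i) (Fin K)) (cut δ t) := h1
    linarith
  · intro t1 ht1 hrt1 s hs hrs
    refine cz_of_cuntz E hE cp ?_
    refine hB N K _ _ (ent_nonneg _ _ hs) (ent_nonneg _ _ ht1) fun σ => ?_
    exact d_res_lt hQ cp.inc (map_one cp.ι) σ hs ht1 r ε hrs fun i =>
      hrt1 (trM (T i) (Fin K)) ⟨i, rfl⟩

theorem rc_le_of {A : Type u} [CStarAlgebra A] [PartialOrder A] [StarOrderedRing A]
    {B : Type w} [CStarAlgebra B] [PartialOrder B] [StarOrderedRing B] (q : ℝ≥0) (hq : q ≠ 0)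
    (h : ∀ r : ℝ≥0, Comparison B r → ∀ r' : ℝ≥0, q * r < r' → Comparison A r') :
    rc A ≤ q * rc B := by
  have hq' : (q : ℝ≥0∞) ≠ 0 := by exact_mod_cast hq
  unfold rc
  rw [ENNReal.mul_iInf_of_ne hq' ENNReal.coe_ne_top]
  refine le_iInf fun r => ?_
  rw [ENNReal.mul_iInf_of_ne hq' ENNReal.coe_ne_top]
  refine le_iInf fun hr => ?_
  refine ENNReal.le_of_forall_pos_le_add fun ε hε _ => ?_
  have h1 := h r hr (q * r + ε) (lt_add_of_pos_right _ hε)
  have h2 : (⨅ (r : ℝ≥0) (_ : Comparison A r), (r : ℝ≥0∞)) ≤ ((q * r + ε : ℝ≥0) : ℝ≥0∞) :=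
    iInf₂_le (q * r + ε) h1
  refine h2.trans (le_of_eq ?_)
  push_cast
  rfl

theorem simpleC_of {A : Type u} [CStarAlgebra A] (h : SimpleCStar A) : SimpleC A := h

/-- `rc(A) ≤ |G| rc(C*(G, A, α))` -/
theorem cp_final (hA : SimpleCStar A) (hinf : ¬ FiniteDimensional ℂ A)
    (hT : FinitelyManyTraces A) (cp : CrossedProduct α B) : rc A ≤ Fintype.card G * rc B := by
  obtain ⟨ι, _, T, hT1, hExt, hQ⟩ := exists_ext hT
  have h1 := rc_le_of (A := A) (B := B) (Fintype.card G : ℝ≥0)
    (by exact_mod_cast Fintype.card_ne_zero) (fun r hr r' hr' =>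
      cp_comparison (simpleC_of hA) hinf T hT1 hExt hQ cp r r.2 hr r' (by
        have : ((Fintype.card G : ℝ≥0) * r : ℝ≥0) < r' := hr'
        exact_mod_cast this))
  simpa using h1

end

end Run7.h450

/-!
# Ranks with respect to quasitraces
-/

set_option autoImplicit false
set_option linter.unusedSectionVars false

namespace Run7.h450

open Filter Topology
open Pool.Agent.H327R4.Pure

universe u v w

section

variable {R : Type u} [CStarAlgebra R] [PartialOrder R] [StarOrderedRing R]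

theorem exists_tr_of {t : R → ℂ} (hadd : ∀ x y, t (x + y) = t x + t y)
    (hsm : ∀ (c : ℂ) x, t (c • x) = c * t x) (htr : ∀ x y, t (x * y) = t (y * x))
    (hpos : ∀ x, 0 ≤ (t (star x * x)).re ∧ (t (star x * x)).im = 0) :
    ∃ T : Tr R, ∀ x, T.f x = t x := by
  have hpos' : ∀ x, 0 ≤ x → 0 ≤ (t x).re ∧ (t x).im = 0 := by
    intro x hx
    obtain ⟨y, rfl⟩ := lowm_sq hx
    exact hpos y
  have htsub : ∀ a b, t (a - b) = t a - t b := by
    intro a b
    have h1 := hadd (a - b) b
    rw [sub_add_cancel] at h1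
    rw [h1]
    ring
  obtain ⟨hm0, hm1⟩ := hpos' 1 zero_le_one
  set m : ℝ := (t 1).re with hm
  have ht1 : t 1 = (m : ℂ) := by
    apply Complex.ext
    · simp [hm]
    · simp [hm1]
  have hsa : ∀ a, IsSelfAdjoint a → ‖t a‖ ≤ m * ‖a‖ := by
    intro a ha
    have h1 : 0 ≤ algebraMap ℝ R ‖a‖ - a := sub_nonneg.mpr (IsSelfAdjoint.le_algebraMap_norm_self ha)
    have h2 : 0 ≤ algebraMap ℝ R ‖a‖ + a := by
      have := IsSelfAdjoint.neg_algebraMap_norm_le_self ha
      rwa [neg_le_iff_add_nonneg, add_comm] at this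
    have e1 : t (algebraMap ℝ R ‖a‖) = ((m * ‖a‖ : ℝ) : ℂ) := by
      rw [Algebra.algebraMap_eq_smul_one, ← Complex.coe_smul, hsm, ht1]
      push_cast
      ring
    have h3 := hpos' _ h1
    have h4 := hpos' _ h2
    rw [htsub, e1] at h3
    rw [hadd, e1] at h4
    simp only [Complex.sub_re, Complex.sub_im, Complex.add_re, Complex.ofReal_re,
      Complex.ofReal_im] at h3 h4
    have him : (t a).im = 0 := by linarith [h3.2]
    have : t a = ((t a).re : ℂ) := by
      apply Complex.ext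
      · simp
      · simp [him]
    rw [this, Complex.norm_real, Real.norm_eq_abs, abs_le]
    constructor <;> linarith [h3.1, h4.1]
  let L : R →ₗ[ℂ] ℂ :=
    { toFun := t
      map_add' := hadd
      map_smul' := fun c a => by simp only [hsm]; rfl }
  have hbd : ∀ x, ‖L x‖ ≤ (2 * m) * ‖x‖ := by
    intro x
    show ‖t x‖ ≤ _
    conv_lhs => rw [← realPart_add_I_smul_imaginaryPart x]
    rw [hadd, hsm]
    refine (norm_add_le _ _).trans ?_
    rw [norm_mul, Complex.norm_I, one_mul, two_mul, add_mul]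
    exact add_le_add ((hsa _ (realPart x).2).trans (mul_le_mul_of_nonneg_left (realPart.norm_le x) hm0))
      ((hsa _ (imaginaryPart x).2).trans (mul_le_mul_of_nonneg_left (imaginaryPart.norm_le x) hm0))
  exact ⟨{ f := L.mkContinuous (2 * m) hbd, pos := hpos, tr := htr }, fun x => rfl⟩

/-- a quasitrace is a trace on the commutative subalgebra generated by a positive element -/
theorem IsQuasitrace.exists_comm {τ : R → ℂ} (h : IsQuasitrace τ) {a : R} (ha : 0 ≤ a) :
    ∃ (C : Type) (_ : CStarAlgebra C) (_ : PartialOrder C) (_ : StarOrderedRing C)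
      (φ : C →⋆ₙₐ[ℂ] R) (a₀ : C) (T : Tr C), 0 ≤ a₀ ∧ φ a₀ = a ∧ ∀ x, T.f x = τ (φ x) := by
  have hn : IsStarNormal a := (IsSelfAdjoint.of_nonneg ha).isStarNormal
  let C := C(spectrum ℂ a, ℂ)
  let _ : PartialOrder C := CStarAlgebra.spectralOrder C
  let _ : StarOrderedRing C := CStarAlgebra.spectralOrderedRing C
  let Φ : C →⋆ₐ[ℂ] R := cfcHom (R := ℂ) (a := a) hn
  let φ : C →⋆ₙₐ[ℂ] R := (Φ : C →⋆ₙₐ[ℂ] R)
  have hinj : Function.Injective φ := (cfcHom_isClosedEmbedding (R := ℂ) (a := a) hn).injective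
  let a₀ : C := ContinuousMap.restrict (spectrum ℂ a) (ContinuousMap.id ℂ)
  have hφa : φ a₀ = a := cfcHom_id (R := ℂ) (a := a) hn
  have hcomm : ∀ x y : C, x * y = y * x := mul_comm
  have hlin : ∀ (c : ℂ) (x y : C), τ (φ (c • x + y)) = c * τ (φ x) + τ (φ y) := by
    intro c x y
    have hnx : ∀ z : C, IsStarNormal (φ z) := fun z => ⟨by
      show star (φ z) * φ z = φ z * star (φ z)
      rw [← map_star, ← map_mul, ← map_mul, hcomm]⟩
    have hco : ∀ z z' : C, Commute (φ z) (φ z') := fun z z' => by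
      show φ z * φ z' = φ z' * φ z
      rw [← map_mul, ← map_mul, hcomm]
    have := h.linear c (φ x) (φ y) (hnx x) (hnx y) (hco x y) (by
      rw [← map_star]; exact hco _ _)
    rw [map_add, map_smul]
    exact this
  have hadd : ∀ x y : C, τ (φ (x + y)) = τ (φ x) + τ (φ y) := by
    intro x y
    have := hlin 1 x y
    rwa [one_smul, one_mul] at this
  have h0 : τ (φ 0) = 0 := by rw [map_zero]; exact h.zero
  obtain ⟨T, hT⟩ := exists_tr_of (R := C) (t := fun x => τ (φ x)) hadd (fun c x => by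
      have := hlin c x 0
      rwa [add_zero, h0, add_zero] at this)
    (fun x y => by rw [hcomm])
    (fun x => by
      have := h.nonneg (φ x)
      rwa [← map_star, ← map_mul] at this)
  exact ⟨C, inferInstance, inferInstance, inferInstance, φ, a₀, T,
    ISO.refl φ hinj a₀ (by rw [hφa]; exact ha), hφa, hT⟩

/-- the rank with respect to a quasitrace -/
noncomputable def qd (τ : R → ℂ) (a : R) : ℝ := limUnder atTop fun k : ℕ => (τ (root k a)).re

theorem qd_tendsto_of {τ : R → ℂ} {C : Type v} [CStarAlgebra C] [PartialOrder C]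
    [StarOrderedRing C] (φ : C →⋆ₙₐ[ℂ] R) (T : Tr C) (hT : ∀ x, T.f x = τ (φ x)) {b : C}
    (hb : 0 ≤ b) : Tendsto (fun k : ℕ => (τ (root k (φ b))).re) atTop (𝓝 (rk T b)) := by
  refine (rk' C T b hb).2.2.1.congr fun k => ?_
  have h1 : φ (rt k b) = rt k (φ b) := RKSaux.rt_hom φ hb k
  rw [hT, h1]
  rfl

theorem qd_of {τ : R → ℂ} {C : Type v} [CStarAlgebra C] [PartialOrder C]
    [StarOrderedRing C] (φ : C →⋆ₙₐ[ℂ] R) (T : Tr C) (hT : ∀ x, T.f x = τ (φ x)) {b : C}
    (hb : 0 ≤ b) : qd τ (φ b) = rk T b := (qd_tendsto_of φ T hT hb).limUnder_eq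

variable {τ : R → ℂ} (h : IsQuasitrace τ)

include h in
theorem qd_tendsto {a : R} (ha : 0 ≤ a) :
    Tendsto (fun k : ℕ => (τ (root k a)).re) atTop (𝓝 (qd τ a)) := by
  obtain ⟨C, _, _, _, φ, a₀, T, ha₀, rfl, hT⟩ := h.exists_comm ha
  rw [qd_of φ T hT ha₀]
  exact qd_tendsto_of φ T hT ha₀

include h in
theorem phi_le_qd {a : R} (ha : 0 ≤ a) (δ : ℝ) (hδ : 0 < δ) : (τ (phi δ a)).re ≤ qd τ a := by
  obtain ⟨C, _, _, _, φ, a₀, T, ha₀, rfl, hT⟩ := h.exists_comm ha
  rw [qd_of φ T hT ha₀, ← (hom' C R φ a₀ ha₀).2.2.1 δ hδ, ← hT]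
  exact (rk' C T a₀ ha₀).1 δ hδ

include h in
theorem qd_lt_phi {a : R} (ha : 0 ≤ a) (η : ℝ) (hη : 0 < η) :
    ∃ δ : ℝ, 0 < δ ∧ qd τ a - η < (τ (phi δ a)).re := by
  obtain ⟨C, _, _, _, φ, a₀, T, ha₀, rfl, hT⟩ := h.exists_comm ha
  obtain ⟨δ, hδ, h1⟩ := (rk' C T a₀ ha₀).2.1 η hη
  refine ⟨δ, hδ, ?_⟩
  rw [qd_of φ T hT ha₀, ← (hom' C R φ a₀ ha₀).2.2.1 δ hδ, ← hT]
  exact h1

include h in
theorem qd_nonneg {a : R} (ha : 0 ≤ a) : 0 ≤ qd τ a := by
  obtain ⟨C, _, _, _, φ, a₀, T, ha₀, rfl, hT⟩ := h.exists_comm ha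
  rw [qd_of φ T hT ha₀]
  exact rk_nonneg T ha₀

include h in
theorem qd_cut_le {a : R} (ha : 0 ≤ a) (ε : ℝ) (hε : 0 ≤ ε) : qd τ (cut ε a) ≤ qd τ a := by
  obtain ⟨C, _, _, _, φ, a₀, T, ha₀, rfl, hT⟩ := h.exists_comm ha
  rw [← (hom' C R φ a₀ ha₀).2.1 ε hε, qd_of φ T hT ha₀, qd_of φ T hT (cut_nonneg ha₀ ε)]
  exact rk_mono T (cut_nonneg ha₀ ε) (cut_le ha₀ hε)

include h in
theorem qd_lt_cut {a : R} (ha : 0 ≤ a) (η : ℝ) (hη : 0 < η) :
    ∃ ε : ℝ, 0 < ε ∧ qd τ a - η < qd τ (cut ε a) := by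
  obtain ⟨C, _, _, _, φ, a₀, T, ha₀, rfl, hT⟩ := h.exists_comm ha
  obtain ⟨ε, hε, h1⟩ := rk_cut T ha₀ η hη
  refine ⟨ε, hε, ?_⟩
  rw [← (hom' C R φ a₀ ha₀).2.1 ε hε.le, qd_of φ T hT ha₀, qd_of φ T hT (cut_nonneg ha₀ ε)]
  exact h1 ε hε.le le_rfl

end

section

variable {R : Type u} [CStarAlgebra R] [PartialOrder R] [StarOrderedRing R]
variable {τ : R → ℂ} (h : IsQuasitrace τ)

theorem IsQuasitrace.re_nonneg (h : IsQuasitrace τ) {x : R} (hx : 0 ≤ x) : 0 ≤ (τ x).re := by
  obtain ⟨y, rfl⟩ := lowm_sq hx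
  exact (h.nonneg y).1

theorem IsQuasitrace.add (h : IsQuasitrace τ) {x y : R} (hx : IsSelfAdjoint x)
    (hy : IsSelfAdjoint y) (hxy : Commute x y) : τ (x + y) = τ x + τ y := by
  have := h.linear 1 x y hx.isStarNormal hy.isStarNormal hxy (by rw [hy.star_eq]; exact hxy)
  rwa [one_smul, one_mul] at this

/-- the trace property for functional calculus -/
theorem IsQuasitrace.swapf (h : IsQuasitrace τ) (x : R) (f : ℝ → ℝ) (hf : Continuous f)
    (hf0 : ∀ t, 0 ≤ f t) (η : ℝ) (hη : 0 < η) (hfη : ∀ t, t ≤ η → f t = 0) :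
    τ (cfcₙ f (star x * x)) = τ (cfcₙ f (x * star x)) := by
  set g : ℝ → ℝ := fun t => Real.sqrt (DDAx.kd η f t) with hg
  have hkc : Continuous (DDAx.kd η f) := DDAx.kd_cont hη hf
  have hk0 : DDAx.kd η f 0 = 0 := DDAx.kd_zero hη hfη
  have hkn : ∀ t, 0 ≤ DDAx.kd η f t := fun t =>
    div_nonneg (hf0 t) (hη.le.trans (le_max_right _ _))
  have hgc : Continuous g := Real.continuous_sqrt.comp hkc
  have hg0 : g 0 = 0 := by simp [hg, hk0]
  have hgg : ∀ t, g t * g t = DDAx.kd η f t := fun t => Real.mul_self_sqrt (hkn t)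
  set k : R := cfcₙ g (star x * x) with hk
  have hks : star k = k := (cfcₙ_predicate g (star x * x) : IsSelfAdjoint _).star_eq
  have hsa : IsSelfAdjoint (star x * x) := IsSelfAdjoint.star_mul_self x
  have e1 : star (x * k) * (x * k) = cfcₙ f (star x * x) := by
    have e2 : star (x * k) * (x * k) = k * (star x * x) * k := by
      rw [star_mul, hks]
      simp only [mul_assoc]
    have e3 : k * (star x * x) = cfcₙ (fun t => g t * t) (star x * x) := by
      rw [cfcₙ_mul g (fun t : ℝ => t) (star x * x) hgc.continuousOn hg0 (by fun_prop) rfl,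
        cfcₙ_id' ℝ (star x * x) hsa]
    rw [e2, e3, hk, ← cfcₙ_mul (fun t => g t * t) g (star x * x)
      (hgc.mul continuous_id).continuousOn (by simp) hgc.continuousOn hg0]
    congr 1
    funext t
    have : g t * t * g t = g t * g t * t := by ring
    rw [this, hgg, DDAx.kd_mul hη hfη]
  have e4 : x * k * star (x * k) = cfcₙ f (x * star x) := by
    have e5 : x * k * star (x * k) = x * (k * k) * star x := by
      rw [star_mul, hks]
      simp only [mul_assoc]
    have e6 : k * k = cfcₙ (DDAx.kd η f) (star x * x) := by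
      rw [hk, ← cfcₙ_mul g g (star x * x) hgc.continuousOn hg0 hgc.continuousOn hg0]
      congr 1
      funext t
      exact hgg t
    rw [e5, e6]
    exact DDAx.conj_kd x hη hf hfη
  rw [← e1, ← e4]
  exact h.comm _

theorem root_cut {a : R} (ha : 0 ≤ a) {ε : ℝ} (hε : 0 < ε) (k : ℕ) :
    root k (cut ε a) = cfcₙ (fun t : ℝ => (max (t - ε) 0) ^ (1 / ((k : ℝ) + 1))) a := by
  have hk : (0 : ℝ) < 1 / ((k : ℝ) + 1) := by positivity
  unfold root cut
  rw [← cfcₙ_comp' (fun x : ℝ => x ^ (1 / ((k : ℝ) + 1))) (fun x : ℝ => max (x - ε) 0) a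
    (Real.continuous_rpow_const hk.le).continuousOn (Real.zero_rpow hk.ne') (by fun_prop)
    (by simp [hε.le]) (IsSelfAdjoint.of_nonneg ha)]

include h in
theorem qd_swap (x : R) : qd τ (star x * x) = qd τ (x * star x) := by
  have h0 : 0 ≤ star x * x := star_mul_self_nonneg x
  have h0' : 0 ≤ x * star x := mul_star_self_nonneg x
  have hcut : ∀ ε : ℝ, 0 < ε → qd τ (cut ε (star x * x)) = qd τ (cut ε (x * star x)) := by
    intro ε hε
    unfold qd
    congr 1
    funext k
    have hk : (0 : ℝ) < 1 / ((k : ℝ) + 1) := by positivity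
    rw [root_cut h0 hε, root_cut h0' hε]
    congr 1
    refine h.swapf x _ ?_ (fun t => Real.rpow_nonneg (le_max_right _ _) _) ε hε fun t ht => ?_
    · exact (Real.continuous_rpow_const hk.le).comp (by fun_prop)
    · rw [max_eq_right (by linarith), Real.zero_rpow hk.ne']
  refine le_antisymm ?_ ?_
  · refine le_of_forall_pos_le_add fun η hη => ?_
    obtain ⟨ε, hε, h1⟩ := qd_lt_cut h h0 η hη
    rw [hcut ε hε] at h1
    linarith [qd_cut_le h h0' ε hε.le]
  · refine le_of_forall_pos_le_add fun η hη => ?_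
    obtain ⟨ε, hε, h1⟩ := qd_lt_cut h h0' η hη
    rw [← hcut ε hε] at h1
    linarith [qd_cut_le h h0 ε hε.le]

include h in
theorem qd_le_of_unit {c e : R} (hc : 0 ≤ c) (he : 0 ≤ e) (he1 : e ≤ 1) (hec : e * c = c) :
    qd τ c ≤ (τ e).re := by
  refine le_of_forall_pos_le_add fun η hη => ?_
  obtain ⟨δ, hδ, h1⟩ := qd_lt_phi h hc η hη
  set f : R := phi δ c with hf
  obtain ⟨hf0, hf1, -⟩ := (ct' R c hc).2.2.2.2.2.2.2.1 δ hδ
  have hf1' : f ≤ 1 := (CStarAlgebra.norm_le_one_iff_of_nonneg _ hf0).mp hf1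
  have hes : IsSelfAdjoint e := IsSelfAdjoint.of_nonneg he
  have hfs : IsSelfAdjoint f := IsSelfAdjoint.of_nonneg hf0
  have hce : c * (e - 1) = 0 := by
    have := congrArg star hec
    rw [star_mul, hes.star_eq, (IsSelfAdjoint.of_nonneg hc).star_eq] at this
    rw [mul_sub, this, mul_one, sub_self]
  have hfe : f * (e - 1) = 0 :=
    (InL.cfcn (IsSelfAdjoint.of_nonneg hc) _ : InL c f).mul_eq_zero hce
  have hfe' : f * e = f := by
    rw [mul_sub, mul_one, sub_eq_zero] at hfe
    exact hfe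
  have hef' : e * f = f := by
    have := congrArg star hfe'
    rwa [star_mul, hes.star_eq, hfs.star_eq] at this
  have hle : 0 ≤ e - f := by
    have h2 : f ≤ e * e := by
      have h3 := star_right_conjugate_le_conjugate hf1' e
      rw [hes.star_eq, mul_one, hef', hfe'] at h3
      exact h3
    exact sub_nonneg.mpr (h2.trans (mul_self_le he he1))
  have h2 : τ e = τ (e - f) + τ f := by
    conv_lhs => rw [← sub_add_cancel e f]
    refine h.add (hes.sub hfs) hfs ?_
    show (e - f) * f = f * (e - f)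
    rw [sub_mul, mul_sub, hef', hfe']
  have h3 := h.re_nonneg hle
  rw [h2, Complex.add_re]
  linarith

theorem phi_mul_cut (b : R) (hb : 0 ≤ b) (δ : ℝ) (hδ : 0 < δ) :
    phi δ b * cut δ b = cut δ b := by
  unfold phi cut
  rw [← cfcₙ_mul (fun x : ℝ => min 1 (x / δ)) (fun x : ℝ => max (x - δ) 0) b (by fun_prop)
    (by simp) (by fun_prop) (by simp [hδ.le])]
  congr 1
  funext t
  by_cases ht : t ≤ δ
  · rw [max_eq_right (by linarith), mul_zero]
  · push Not at ht
    have : 1 ≤ t / δ := (one_le_div hδ).mpr ht.le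
    rw [min_eq_left this, one_mul]

include h in
/-- monotonicity under Cuntz subequivalence -/
theorem qd_cz {a b : R} (ha : 0 ≤ a) (hb : 0 ≤ b) (hab : Cz a b) : qd τ a ≤ qd τ b := by
  refine le_of_forall_pos_le_add fun η hη => ?_
  obtain ⟨ε, hε, h1⟩ := qd_lt_cut h ha η hη
  obtain ⟨δ, x, hδ, hx⟩ := exa' R a b ε ha hb hab hε
  have hcut : 0 ≤ cut δ b := cut_nonneg hb δ
  set y : R := sq (cut δ b) * star x with hy
  have e1 : star y * y = cut ε a := by
    rw [hy, star_mul, star_star, sq_star, hx]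
    calc x * sq (cut δ b) * (sq (cut δ b) * star x) = x * (sq (cut δ b) * sq (cut δ b)) * star x := by
          simp only [mul_assoc]
      _ = _ := by rw [sq_mul_sq hcut]
  have e2 : phi δ b * (y * star y) = y * star y := by
    have e3 : phi δ b * sq (cut δ b) = sq (cut δ b) := by
      have h2 : (1 - phi δ b) * star (cut δ b) = 0 := by
        rw [(IsSelfAdjoint.of_nonneg hcut).star_eq, sub_mul, one_mul, phi_mul_cut b hb δ hδ,
          sub_self]
      have h3 := (InL.sq hcut).zero_mul_star h2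
      rw [sq_star, sub_mul, one_mul, sub_eq_zero] at h3
      exact h3.symm
    rw [hy, ← mul_assoc, ← mul_assoc, e3]
  obtain ⟨hp0, hp1, -⟩ := (ct' R b hb).2.2.2.2.2.2.2.1 δ hδ
  have h2 := qd_le_of_unit h (mul_star_self_nonneg y) hp0
    ((CStarAlgebra.norm_le_one_iff_of_nonneg _ hp0).mp hp1) e2
  rw [← qd_swap h, e1] at h2
  linarith [phi_le_qd h hb δ hδ]

include h in
theorem qd_mono {a b : R} (ha : 0 ≤ a) (hab : a ≤ b) : qd τ a ≤ qd τ b :=
  qd_cz h ha (ha.trans hab) (cz_of_le ha hab)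

include h in
theorem qd_smul_le {a : R} (ha : 0 ≤ a) (c : ℝ) (hc : 0 ≤ c) : qd τ (c • a) ≤ qd τ a :=
  qd_cz h (smul_nonneg hc ha) ha (cz_smul c hc)

include h in
theorem qd_add_orth {p q : R} (hp : 0 ≤ p) (hq : 0 ≤ q) (hpq : p * q = 0) :
    qd τ (p + q) = qd τ p + qd τ q := by
  refine tendsto_nhds_unique (qd_tendsto h (add_nonneg hp hq)) ?_
  refine ((qd_tendsto h hp).add (qd_tendsto h hq)).congr fun k => ?_
  have hk : (0 : ℝ) < 1 / ((k : ℝ) + 1) := by positivity
  have h6 := orth' R p q (fun x : ℝ => x ^ (1 / ((k : ℝ) + 1))) hp hq hpq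
    (Real.continuous_rpow_const hk.le) (Real.zero_rpow hk.ne')
  have h7 : root k (p + q) = root k p + root k q := h6
  have h8 : root k p * root k q = 0 := by
    have h9 : root k p * q = 0 := (InL.cfcn (IsSelfAdjoint.of_nonneg hp) _).mul_eq_zero hpq
    have h10 : root k p * star q = 0 := by rwa [(IsSelfAdjoint.of_nonneg hq).star_eq]
    have h11 := (InL.cfcn (R := R) (IsSelfAdjoint.of_nonneg hq)
      (fun x : ℝ => x ^ (1 / ((k : ℝ) + 1)))).zero_mul_star h10
    rwa [(cfcₙ_predicate _ q : IsSelfAdjoint _).star_eq] at h11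
  have hsp : IsSelfAdjoint (root k p) := cfcₙ_predicate _ p
  have hsq : IsSelfAdjoint (root k q) := cfcₙ_predicate _ q
  rw [h7, h.add hsp hsq, Complex.add_re]
  show root k p * root k q = root k q * root k p
  have h12 := congrArg star h8
  rw [star_mul, star_zero, hsp.star_eq, hsq.star_eq] at h12
  rw [h8, h12]

end

end Run7.h450

/-!
# Quasitraces on matrix algebras
-/

set_option autoImplicit false
set_option linter.unusedSectionVars false

namespace Run7.h450

open Filter Topology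
open Pool.Agent.H327R4.Pure

universe u v w

theorem IsQuasitrace.ext_pos {R : Type u} [CStarAlgebra R] [PartialOrder R] [StarOrderedRing R]
    {τ τ' : R → ℂ} (h : IsQuasitrace τ) (h' : IsQuasitrace τ')
    (hp : ∀ x, 0 ≤ x → τ x = τ' x) (x : R) : τ x = τ' x := by
  have hsa : ∀ a : R, IsSelfAdjoint a → τ a = τ' a := by
    intro a ha
    have h1 : a = (-1 : ℂ) • a⁻ + a⁺ := by
      have := CFC.posPart_sub_negPart a ha
      rw [neg_smul, one_smul, neg_add_eq_sub]
      exact this.symm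
    have hpp : (0 : R) ≤ a⁺ := CFC.posPart_nonneg a
    have hnn : (0 : R) ≤ a⁻ := CFC.negPart_nonneg a
    have hc : Commute a⁻ a⁺ := by
      show a⁻ * a⁺ = a⁺ * a⁻
      rw [CFC.posPart_mul_negPart, CFC.negPart_mul_posPart]
    have hc' : Commute a⁻ (star a⁺) := by
      rw [(IsSelfAdjoint.of_nonneg hpp).star_eq]
      exact hc
    have e1 := h.linear (-1) a⁻ a⁺ (IsSelfAdjoint.of_nonneg hnn).isStarNormal
      (IsSelfAdjoint.of_nonneg hpp).isStarNormal hc hc'
    have e2 := h'.linear (-1) a⁻ a⁺ (IsSelfAdjoint.of_nonneg hnn).isStarNormal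
      (IsSelfAdjoint.of_nonneg hpp).isStarNormal hc hc'
    rw [h1, e1, e2, hp _ hpp, hp _ hnn]
  rw [← realPart_add_I_smul_imaginaryPart x, h.add_I _ _ (realPart x).2 (imaginaryPart x).2,
    h'.add_I _ _ (realPart x).2 (imaginaryPart x).2, hsa _ (realPart x).2,
    hsa _ (imaginaryPart x).2]

section

variable {B : Type u} [CStarAlgebra B] [PartialOrder B] [StarOrderedRing B]

/-- the partial permutation matrix -/
noncomputable def pp {n N : ℕ} (e e' : Fin n → Fin N) : Mat N B :=
  open Classical in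
  CStarMatrix.ofMatrix fun p q => if ∃ i, e' i = p ∧ e i = q then 1 else 0

theorem pp_mul {n N : ℕ} (e e' : Fin n → Fin N) (he' : Function.Injective e') (M : Mat N B)
    (i : Fin n) (q : Fin N) : ((pp e e' : Mat N B) * M) (e' i) q = M (e i) q := by
  classical
  rw [CStarMatrix.mul_apply, Finset.sum_eq_single (e i)]
  · have : (pp e e' : Mat N B) (e' i) (e i) = 1 := if_pos ⟨i, rfl, rfl⟩
    rw [this, one_mul]
  · intro r _ hr
    have : (pp e e' : Mat N B) (e' i) r = 0 := by
      refine if_neg ?_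
      rintro ⟨k, hk, hk'⟩
      rw [he' hk] at hk'
      exact hr hk'.symm
    rw [this, zero_mul]
  · simp

theorem pp_mul_zero {n N : ℕ} (e e' : Fin n → Fin N) (M : Mat N B)
    {p : Fin N} (hp : p ∉ Set.range e') (q : Fin N) : ((pp e e' : Mat N B) * M) p q = 0 := by
  classical
  rw [CStarMatrix.mul_apply]
  refine Finset.sum_eq_zero fun r _ => ?_
  have : (pp e e' : Mat N B) p r = 0 := by
    refine if_neg ?_
    rintro ⟨k, hk, -⟩
    exact hp ⟨k, hk⟩
  rw [this, zero_mul]

/-- moving from one corner to another one -/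
noncomputable def mv {n N : ℕ} (e e' : Fin n → Fin N) (he : Function.Injective e) (y : Mat n B) :
    Mat N B := pp e e' * emb e he y

theorem mv_star_mul {n N : ℕ} (e e' : Fin n → Fin N) (he : Function.Injective e)
    (he' : Function.Injective e') (y : Mat n B) :
    star (mv e e' he y) * mv e e' he y = emb e he (star y * y) := by
  classical
  rw [map_mul, map_star]
  ext p q
  rw [CStarMatrix.mul_apply, CStarMatrix.mul_apply]
  have h1 : ∑ r, star (mv e e' he y) p r * mv e e' he y r q =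
      ∑ i, star (emb e he y (e i) p) * emb e he y (e i) q := by
    symm
    refine Fintype.sum_of_injective e' he' _ _ ?_ ?_
    · intro r hr
      unfold mv
      rw [pp_mul_zero e e' _ hr, mul_zero]
    · intro i
      rw [CStarMatrix.star_apply]
      unfold mv
      rw [pp_mul e e' he', pp_mul e e' he']
  rw [h1]
  refine Fintype.sum_of_injective e he _ _ ?_ ?_
  · intro r hr
    rw [emb_apply (A := B) e he y, embf_left _ hr, mul_zero]
  · intro i
    rw [CStarMatrix.star_apply]

theorem mv_mul_star {n N : ℕ} (e e' : Fin n → Fin N) (he : Function.Injective e)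
    (he' : Function.Injective e') (y : Mat n B) :
    mv e e' he y * star (mv e e' he y) = emb e' he' (y * star y) := by
  classical
  ext p q
  rw [CStarMatrix.mul_apply]
  by_cases hp : p ∈ Set.range e'
  · by_cases hq : q ∈ Set.range e'
    · obtain ⟨i, rfl⟩ := hp
      obtain ⟨k, rfl⟩ := hq
      rw [emb_apply, embf_apply he']
      have h1 : (y * star y) i k = (emb e he y * star (emb e he y)) (e i) (e k) := by
        rw [← map_star, ← map_mul, emb_apply, embf_apply he]
      rw [h1, CStarMatrix.mul_apply]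
      refine Finset.sum_congr rfl fun r _ => ?_
      rw [CStarMatrix.star_apply, CStarMatrix.star_apply]
      unfold mv
      rw [pp_mul e e' he', pp_mul e e' he']
    · rw [emb_apply, embf_right _ _ hq]
      refine Finset.sum_eq_zero fun r _ => ?_
      rw [CStarMatrix.star_apply]
      unfold mv
      rw [pp_mul_zero e e' _ hq, star_zero, mul_zero]
  · rw [emb_apply, embf_left _ hp]
    refine Finset.sum_eq_zero fun r _ => ?_
    unfold mv
    rw [pp_mul_zero e e' _ hp, zero_mul]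

theorem emb_castLE {n N : ℕ} (hn : n ≤ N) (x : Mat n B) (p q : Fin N) :
    emb (Fin.castLE hn) (Fin.castLE_injective hn) x p q =
      if h : (p : ℕ) < n ∧ (q : ℕ) < n then x ⟨p, h.1⟩ ⟨q, h.2⟩ else 0 := by
  by_cases hp : (p : ℕ) < n
  · by_cases hq : (q : ℕ) < n
    · rw [dif_pos ⟨hp, hq⟩]
      have h1 : p = Fin.castLE hn ⟨p, hp⟩ := by ext; rfl
      have h2 : q = Fin.castLE hn ⟨q, hq⟩ := by ext; rfl
      conv_lhs => rw [h1, h2]
      rw [emb_apply, embf_apply (Fin.castLE_injective hn)]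
    · rw [dif_neg (fun h => hq h.2), emb_apply, embf_right]
      rintro ⟨i, rfl⟩
      exact hq i.2
  · rw [dif_neg (fun h => hp h.1), emb_apply, embf_left]
    rintro ⟨i, rfl⟩
    exact hp i.2

theorem QT.val_castLE (σ : QT B) {n N : ℕ} (hn : n ≤ N) (x : Mat n B) :
    σ.val N (emb (Fin.castLE hn) (Fin.castLE_injective hn) x) = σ.val n x := by
  induction N, hn using Nat.le_induction with
  | base =>
    have h1 : emb (Fin.castLE (le_refl n)) (Fin.castLE_injective (le_refl n)) x = x := by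
      ext p q
      rw [emb_castLE, dif_pos ⟨p.2, q.2⟩]
    rw [h1]
  | succ N hn ih =>
    refine Eq.trans ?_ ((σ.val_pad N _).trans ih)
    refine congrArg (σ.val (N + 1)) ?_
    ext p q
    rw [emb_castLE]
    simp only [pad, CStarMatrix.ofMatrix_apply]
    by_cases h : (p : ℕ) < n ∧ (q : ℕ) < n
    · rw [dif_pos h, dif_pos ⟨h.1.trans_le hn, h.2.trans_le hn⟩, emb_castLE, dif_pos h]
    · rw [dif_neg h]
      by_cases h' : (p : ℕ) < N ∧ (q : ℕ) < N
      · rw [dif_pos h', emb_castLE, dif_neg h]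
      · rw [dif_neg h']

theorem QT.val_emb (σ : QT B) {n N : ℕ} (e : Fin n → Fin N) (he : Function.Injective e)
    (x : Mat n B) : σ.val N (emb e he x) = σ.val n x := by
  have hn : n ≤ N := by
    have := Fintype.card_le_of_injective e he
    simpa using this
  refine IsQuasitrace.ext_pos ((σ.quasi N).comp (emb e he)) (σ.quasi n) (fun y hy => ?_) x
  rw [← σ.val_castLE hn y]
  have h1 := (σ.quasi N).comm (mv e (Fin.castLE hn) he (sq y))
  rw [mv_star_mul e _ he (Fin.castLE_injective hn),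
    mv_mul_star e _ he (Fin.castLE_injective hn), sq_star, sq_mul_sq hy] at h1
  exact h1

theorem QT.d_eq_qd (σ : QT B) {n : ℕ} (a : Mat n B) : σ.d a = qd (σ.val n) a := rfl

theorem QT.d_emb (σ : QT B) {n N : ℕ} (e : Fin n → Fin N) (he : Function.Injective e)
    {a : Mat n B} (ha : 0 ≤ a) : σ.d (emb e he a) = σ.d a := by
  unfold QT.d
  congr 1
  funext k
  have h2 : emb e he (root k a) = root k (emb e he a) := RKSaux.rt_hom (emb e he) ha k
  rw [← h2, σ.val_emb]

theorem QT.d_nonneg (σ : QT B) {n : ℕ} {a : Mat n B} (ha : 0 ≤ a) : 0 ≤ σ.d a :=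
  qd_nonneg (σ.quasi n) ha

theorem QT.d_cz (σ : QT B) {n : ℕ} {a b : Mat n B} (ha : 0 ≤ a) (hb : 0 ≤ b) (h : Cz a b) :
    σ.d a ≤ σ.d b := qd_cz (σ.quasi n) ha hb h

theorem QT.d_mono (σ : QT B) {n : ℕ} {a b : Mat n B} (ha : 0 ≤ a) (h : a ≤ b) :
    σ.d a ≤ σ.d b := qd_mono (σ.quasi n) ha h

theorem QT.d_add_orth (σ : QT B) {n : ℕ} {a b : Mat n B} (ha : 0 ≤ a) (hb : 0 ≤ b)
    (h : a * b = 0) : σ.d (a + b) = σ.d a + σ.d b := qd_add_orth (σ.quasi n) ha hb h

theorem add_star_mul_le {R : Type u} [CStarAlgebra R] [PartialOrder R] [StarOrderedRing R]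
    (a b : R) : star (a + b) * (a + b) ≤ (2 : ℝ) • (star a * a + star b * b) := by
  have h0 : 0 ≤ star (a - b) * (a - b) := star_mul_self_nonneg _
  have h1 : star (a - b) * (a - b) = (2 : ℝ) • (star a * a + star b * b) -
      star (a + b) * (a + b) := by
    rw [two_smul, star_sub, star_add]
    noncomm_ring
  rw [h1] at h0
  exact sub_nonneg.mp h0

/-- subadditivity -/
theorem QT.d_add_le (σ : QT B) {n : ℕ} {x y : Mat n B} (hx : 0 ≤ x) (hy : 0 ≤ y) :
    σ.d (x + y) ≤ σ.d x + σ.d y := by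
  set e₁ : Fin n → Fin (n + n) := Fin.castAdd n with he₁
  set e₂ : Fin n → Fin (n + n) := Fin.natAdd n with he₂
  have h₁ : Function.Injective e₁ := Fin.castAdd_injective n n
  have h₂ : Function.Injective e₂ := Fin.natAdd_injective n n
  have h21 : ∀ i k, e₂ i ≠ e₁ k := by
    intro i k hik
    have := congrArg Fin.val hik
    simp only [he₁, he₂, Fin.val_natAdd, Fin.val_castAdd] at this
    have := k.2
    omega
  set w : Mat (n + n) B := mv e₂ e₁ h₂ (sq y) with hw
  set s : Mat (n + n) B := emb e₁ h₁ (sq x) with hs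
  have hss : star s = s := by rw [hs, ← map_star, sq_star]
  have hwy : w * star w = emb e₁ h₁ y := by
    rw [hw, mv_mul_star e₂ e₁ h₂ h₁, sq_star, sq_mul_sq hy]
  have hyw : star w * w = emb e₂ h₂ y := by
    rw [hw, mv_star_mul e₂ e₁ h₂ h₁, sq_star, sq_mul_sq hy]
  have hsx : s * s = emb e₁ h₁ x := by
    rw [hs, ← map_mul, sq_mul_sq hx]
  have hws : w * s = 0 := by
    rw [hw, hs]
    unfold mv
    rw [mul_assoc, emb_mul_emb e₂ h₂ e₁ h₁ h21, mul_zero]
  have hsw : s * star w = 0 := by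
    have := congrArg star hws
    rwa [star_mul, star_zero, hss] at this
  have hzz : (s + w) * star (s + w) = emb e₁ h₁ (x + y) := by
    rw [star_add, hss, add_mul, mul_add, mul_add, hsx, hsw, hws, hwy, map_add, add_zero, zero_add]
  have hzz' : star (s + w) * (s + w) ≤ (2 : ℝ) • (emb e₁ h₁ x + emb e₂ h₂ y) := by
    have := add_star_mul_le s w
    rwa [hss, hsx, hyw] at this
  have hx' : 0 ≤ emb e₁ h₁ x := hom_nonneg (R := Mat n B) (R' := Mat (n + n) B) _ hx
  have hy' : 0 ≤ emb e₂ h₂ y := hom_nonneg (R := Mat n B) (R' := Mat (n + n) B) _ hy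
  have horth : emb e₁ h₁ x * emb e₂ h₂ y = 0 :=
    emb_mul_emb e₁ h₁ e₂ h₂ (fun i k h => h21 k i h.symm) x y
  rw [← σ.d_emb e₁ h₁ (add_nonneg hx hy), ← hzz, ← σ.d_emb e₁ h₁ hx, ← σ.d_emb e₂ h₂ hy,
    ← σ.d_add_orth hx' hy' horth]
  have h3 : σ.d ((s + w) * star (s + w)) = σ.d (star (s + w) * (s + w)) :=
    (qd_swap (σ.quasi (n + n)) (s + w)).symm
  rw [h3]
  refine (σ.d_mono (star_mul_self_nonneg _) hzz').trans ?_
  exact qd_smul_le (σ.quasi (n + n)) (add_nonneg hx' hy') 2 (by norm_num)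

end

end Run7.h450

/-!
# Rectangular matrices
-/

set_option autoImplicit false
set_option linter.unusedSectionVars false

namespace Run7.h450

open Filter Topology
open Pool.Agent.H327R4.Pure

universe u v w

section

variable {B : Type u} [CStarAlgebra B] [PartialOrder B] [StarOrderedRing B]

/-- a rectangular matrix as a part of a large square matrix -/
noncomputable def remb {n m N : ℕ} (e : Fin n → Fin N) (e' : Fin m → Fin N)
    (x : CStarMatrix (Fin n) (Fin m) B) : Mat N B :=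
  CStarMatrix.ofMatrix fun p q => ∑ i, ∑ k, if e i = p ∧ e' k = q then x i k else 0

theorem remb_apply {n m N : ℕ} {e : Fin n → Fin N} {e' : Fin m → Fin N}
    (he : Function.Injective e) (he' : Function.Injective e')
    (x : CStarMatrix (Fin n) (Fin m) B) (i : Fin n) (k : Fin m) :
    remb e e' x (e i) (e' k) = x i k := by
  simp only [remb, CStarMatrix.ofMatrix_apply]
  rw [Finset.sum_eq_single i, Finset.sum_eq_single k]
  · simp
  · intro b _ hb
    have : e' b ≠ e' k := fun h => hb (he' h)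
    simp [this]
  · simp
  · intro b _ hb
    have : e b ≠ e i := fun h => hb (he h)
    simp [this]
  · simp

theorem remb_left {n m N : ℕ} {e : Fin n → Fin N} {e' : Fin m → Fin N}
    (x : CStarMatrix (Fin n) (Fin m) B) {p : Fin N} (hp : p ∉ Set.range e) (q : Fin N) :
    remb e e' x p q = 0 := by
  simp only [remb, CStarMatrix.ofMatrix_apply]
  refine Finset.sum_eq_zero fun i _ => Finset.sum_eq_zero fun j _ => ?_
  have : e i ≠ p := fun h => hp ⟨i, h⟩
  simp [this]

theorem remb_right {n m N : ℕ} {e : Fin n → Fin N} {e' : Fin m → Fin N}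
    (x : CStarMatrix (Fin n) (Fin m) B) (p : Fin N) {q : Fin N} (hq : q ∉ Set.range e') :
    remb e e' x p q = 0 := by
  simp only [remb, CStarMatrix.ofMatrix_apply]
  refine Finset.sum_eq_zero fun i _ => Finset.sum_eq_zero fun j _ => ?_
  have : e' j ≠ q := fun h => hq ⟨j, h⟩
  simp [this]

theorem remb_mul {n m l N : ℕ} {e : Fin n → Fin N} {e' : Fin m → Fin N} {e'' : Fin l → Fin N}
    (he : Function.Injective e) (he' : Function.Injective e') (he'' : Function.Injective e'')
    (x : CStarMatrix (Fin n) (Fin m) B) (y : CStarMatrix (Fin m) (Fin l) B) :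
    remb e e' x * remb e' e'' y = remb e e'' (x * y) := by
  classical
  ext p q
  rw [CStarMatrix.mul_apply]
  by_cases hp : p ∈ Set.range e
  · by_cases hq : q ∈ Set.range e''
    · obtain ⟨i, rfl⟩ := hp
      obtain ⟨k, rfl⟩ := hq
      rw [remb_apply he he'', CStarMatrix.mul_apply]
      symm
      refine Fintype.sum_of_injective e' he' _ _ ?_ ?_
      · intro r hr
        rw [remb_right x _ hr, zero_mul]
      · intro r
        rw [remb_apply he he', remb_apply he' he'']
    · rw [remb_right _ _ hq]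
      exact Finset.sum_eq_zero fun r _ => by rw [remb_right y _ hq, mul_zero]
  · rw [remb_left _ hp]
    exact Finset.sum_eq_zero fun r _ => by rw [remb_left x hp, zero_mul]

theorem remb_star {n m N : ℕ} (e : Fin n → Fin N) (e' : Fin m → Fin N)
    (x : CStarMatrix (Fin n) (Fin m) B) : star (remb e e' x) = remb e' e x.conjTranspose := by
  ext p q
  simp only [remb, CStarMatrix.ofMatrix_apply, CStarMatrix.star_apply, star_sum,
    CStarMatrix.conjTranspose_apply]
  rw [Finset.sum_comm]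
  refine Finset.sum_congr rfl fun i _ => Finset.sum_congr rfl fun j _ => ?_
  by_cases h1 : e j = q <;> by_cases h2 : e' i = p <;> simp [h1, h2]

theorem remb_emb {n N : ℕ} (e : Fin n → Fin N) (he : Function.Injective e) (x : Mat n B) :
    remb e e x = emb e he x := rfl

theorem cz_of_cuntz' {n n' N : ℕ} (e : Fin n → Fin N) (he : Function.Injective e)
    (e' : Fin n' → Fin N) (he' : Function.Injective e') {a : Mat n B} {b : Mat n' B}
    (h : Cuntz a b) : Cz (emb e he a) (emb e' he' b) := by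
  obtain ⟨x, hx⟩ := h
  refine ⟨fun k => remb e e' (x k), ?_⟩
  have h1 : ∀ k, remb e e' (x k) * emb e' he' b * star (remb e e' (x k)) =
      emb e he (x k * b * (x k).conjTranspose) := by
    intro k
    rw [remb_star, ← remb_emb e' he', remb_mul he he' he', remb_mul he he' he, remb_emb e he]
  simp only [h1]
  have hc : Continuous (emb (A := B) e he) :=
    (AddMonoidHomClass.continuous_of_bound (emb (A := B) e he) 1 fun x => by
      rw [one_mul]; exact NonUnitalStarAlgHom.norm_apply_le _ x)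
  exact (hc.tendsto _).comp hx

theorem QT.d_cuntz (σ : QT B) {n m : ℕ} {a : Mat n B} {b : Mat m B} (ha : 0 ≤ a) (hb : 0 ≤ b)
    (h : Cuntz a b) : σ.d a ≤ σ.d b := by
  have h1 := cz_of_cuntz' (Fin.castAdd m) (Fin.castAdd_injective n m) (Fin.natAdd n)
    (Fin.natAdd_injective m n) h
  rw [← σ.d_emb (Fin.castAdd m) (Fin.castAdd_injective n m) ha,
    ← σ.d_emb (Fin.natAdd n) (Fin.natAdd_injective m n) hb]
  exact σ.d_cz (hom_nonneg (R := Mat n B) (R' := Mat (n + m) B) _ ha)
    (hom_nonneg (R := Mat m B) (R' := Mat (n + m) B) _ hb) h1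

theorem rk_cuntz (T : Tr B) {n m : ℕ} {a : Mat n B} {b : Mat m B} (ha : 0 ≤ a) (hb : 0 ≤ b)
    (h : Cuntz a b) : rk (trM T (Fin n)) a ≤ rk (trM T (Fin m)) b := by
  have h1 := cz_of_cuntz' (Fin.castAdd m) (Fin.castAdd_injective n m) (Fin.natAdd n)
    (Fin.natAdd_injective m n) h
  rw [← rk_emb T (Fin.castAdd m) (Fin.castAdd_injective n m) ha,
    ← rk_emb T (Fin.natAdd n) (Fin.natAdd_injective m n) hb]
  exact rk_cz _ (hom_nonneg (R := Mat n B) (R' := Mat (n + m) B) _ ha)
    (hom_nonneg (R := Mat m B) (R' := Mat (n + m) B) _ hb) h1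

theorem cuntz_const {n m : ℕ} {a : Mat n B} {b : Mat m B} (x : CStarMatrix (Fin n) (Fin m) B)
    (h : x * b * x.conjTranspose = a) : Cuntz a b :=
  ⟨fun _ => x, by
    show Tendsto (fun _ => x * b * x.conjTranspose) atTop (𝓝 a)
    rw [h]; exact tendsto_const_nhds⟩

theorem QT.val_one (σ : QT B) (n : ℕ) : σ.val n 1 = n := by
  induction n with
  | zero =>
    have : (1 : Mat 0 B) = 0 := by
      ext i
      exact i.elim0
    rw [this, (σ.quasi 0).zero]
    simp
  | succ n ih =>
    have h1 : (1 : Mat (n + 1) B) = pad (1 : Mat n B) +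
        emb (fun _ : Fin 1 => Fin.last n) (fun i k _ => Subsingleton.elim i k) 1 := by
      ext p q
      rw [CStarMatrix.add_apply, CStarMatrix.one_apply]
      simp only [pad, CStarMatrix.ofMatrix_apply]
      by_cases hp : (p : ℕ) < n
      · have hp' : p ∉ Set.range (fun _ : Fin 1 => Fin.last n) := by
          rintro ⟨i, rfl⟩
          simp at hp
        rw [emb_apply, embf_left _ hp', add_zero]
        by_cases hq : (q : ℕ) < n
        · rw [dif_pos ⟨hp, hq⟩, CStarMatrix.one_apply]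
          simp only [Fin.ext_iff]
        · rw [dif_neg (fun h => hq h.2), if_neg]
          rintro rfl
          exact hq hp
      · have hp' : p = Fin.last n := by
          ext
          have := p.2
          simp only [Fin.val_last]
          omega
        rw [dif_neg (fun h => hp h.1), zero_add]
        by_cases hq : (q : ℕ) < n
        · have hq' : q ∉ Set.range (fun _ : Fin 1 => Fin.last n) := by
            rintro ⟨i, rfl⟩
            simp at hq
          rw [emb_apply, embf_right _ _ hq', if_neg]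
          rintro rfl
          exact hp hq
        · have hq' : q = Fin.last n := by
            ext
            have := q.2
            simp only [Fin.val_last]
            omega
          rw [hp', hq', if_pos rfl]
          have := embf_apply (e := fun _ : Fin 1 => Fin.last n)
            (fun i k _ => Subsingleton.elim i k) (1 : Mat 1 B) 0 0
          rw [emb_apply, this, CStarMatrix.one_apply, if_pos rfl]
    set P : Mat (n + 1) B := pad (1 : Mat n B) with hP
    set Q : Mat (n + 1) B :=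
      emb (fun _ : Fin 1 => Fin.last n) (fun i k _ => Subsingleton.elim i k) 1 with hQ
    have hPQ : P = 1 - Q := by rw [h1]; abel
    have hQs : IsSelfAdjoint Q := emb_one_star _ _
    have hPs : IsSelfAdjoint P := by
      rw [hPQ]
      exact (IsSelfAdjoint.one _).sub hQs
    rw [h1, (σ.quasi (n + 1)).add hPs hQs]
    · rw [hP, σ.val_pad, ih, hQ, σ.val_emb, σ.map_one]
      push_cast
      ring
    · rw [hPQ]
      exact (Commute.one_left _).sub_left (Commute.refl _)

theorem phi_one_of_le {R : Type u} [CStarAlgebra R] [PartialOrder R] [StarOrderedRing R] {a : R}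
    (ha : 0 ≤ a) (h1 : a ≤ 1) : phi 1 a = a := by
  unfold phi
  conv_rhs => rw [← cfcₙ_id' ℝ a (IsSelfAdjoint.of_nonneg ha)]
  refine cfcₙ_congr fun x hx => ?_
  have hn : ‖a‖ ≤ 1 := (CStarAlgebra.norm_le_one_iff_of_nonneg a ha).mpr h1
  have h4 := NonUnitalIsometricContinuousFunctionalCalculus.norm_quasispectrum_le a hx
    (IsSelfAdjoint.of_nonneg ha)
  rw [Real.norm_eq_abs] at h4
  have h5 : x ≤ 1 := (le_abs_self x).trans (h4.trans hn)
  show min 1 (x / 1) = x
  rw [div_one]
  exact min_eq_right h5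

/-- the rank of a projection -/
theorem qd_proj {R : Type u} [CStarAlgebra R] [PartialOrder R] [StarOrderedRing R] {τ : R → ℂ}
    (h : IsQuasitrace τ) {p : R} (hp : 0 ≤ p) (hp1 : p ≤ 1) (hpp : p * p = p) :
    qd τ p = (τ p).re := by
  refine le_antisymm (qd_le_of_unit h hp hp hp1 hpp) ?_
  have := phi_le_qd h hp 1 one_pos
  rwa [phi_one_of_le hp hp1] at this

theorem QT.d_one (σ : QT B) (n : ℕ) : σ.d (1 : Mat n B) = n := by
  have := qd_proj (σ.quasi n) zero_le_one le_rfl (one_mul 1)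
  rw [QT.d_eq_qd, this, σ.val_one]
  simp

theorem rk_sum_orth {R : Type u} [CStarAlgebra R] [PartialOrder R] [StarOrderedRing R]
    {ι : Type} (s : Finset ι) (T : Tr R) (x : ι → R) (hx : ∀ i, 0 ≤ x i)
    (h : ∀ i k, i ≠ k → x i * x k = 0) :
    rk T (∑ i ∈ s, x i) = ∑ i ∈ s, rk T (x i) := by
  classical
  induction s using Finset.induction_on with
  | empty => simp [AD.rk_zero]
  | insert a t ha ih =>
    rw [Finset.sum_insert ha, Finset.sum_insert ha, rk_add_orth T (hx a)
      (Finset.sum_nonneg fun i _ => hx i), ih]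
    rw [Finset.mul_sum]
    refine Finset.sum_eq_zero fun i hi => h a i ?_
    rintro rfl
    exact ha hi

theorem qd_zero {R : Type u} [CStarAlgebra R] [PartialOrder R] [StarOrderedRing R] {τ : R → ℂ}
    (h : IsQuasitrace τ) : qd τ 0 = 0 := by
  rw [qd_proj h le_rfl zero_le_one (mul_zero 0), h.zero]
  rfl

theorem qd_sum_orth {R : Type u} [CStarAlgebra R] [PartialOrder R] [StarOrderedRing R]
    {τ : R → ℂ} (hτ : IsQuasitrace τ)
    {ι : Type} (s : Finset ι) (x : ι → R) (hx : ∀ i, 0 ≤ x i)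
    (h : ∀ i k, i ≠ k → x i * x k = 0) :
    qd τ (∑ i ∈ s, x i) = ∑ i ∈ s, qd τ (x i) := by
  classical
  induction s using Finset.induction_on with
  | empty => simp [qd_zero hτ]
  | insert a t ha ih =>
    rw [Finset.sum_insert ha, Finset.sum_insert ha, qd_add_orth hτ (hx a)
      (Finset.sum_nonneg fun i _ => hx i), ih]
    rw [Finset.mul_sum]
    refine Finset.sum_eq_zero fun i hi => h a i ?_
    rintro rfl
    exact ha hi

end

end Run7.h450
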