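import Pool.Agent.Run7.h450.Q3
import Pool.Agent.Run7.h450.Q4

/-!
# The homomorphism `M_N(A) → M_{Nn}(D)` given by a frame
-/

set_option autoImplicit false
set_option linter.unusedSectionVars false

namespace Run7.h450

open Filter Topology
open Pool.Agent.H327R4.Pure

universe u v w

section

variable {D : Type w} [CStarAlgebra D] [PartialOrder D] [StarOrderedRing D]

/-- the position `(i,k)` -/
def ix {N n : ℕ} (i : Fin N) (k : Fin n) : Fin (N * n) := finProdFinEquiv (i, k)

theorem ix_inj {N n : ℕ} {i i' : Fin N} {k k' : Fin n} (h : ix i k = ix i' k') :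
    i = i' ∧ k = k' := by
  have := finProdFinEquiv.injective h
  exact ⟨congrArg Prod.fst this, congrArg Prod.snd this⟩

theorem ix_surj {N n : ℕ} (p : Fin (N * n)) : ∃ i k, p = ix (N := N) (n := n) i k :=
  ⟨(finProdFinEquiv.symm p).1, (finProdFinEquiv.symm p).2, (finProdFinEquiv.apply_symm_apply p).symm⟩

theorem ix_sum {M : Type u} [AddCommMonoid M] {N n : ℕ} (f : Fin (N * n) → M) :
    ∑ p, f p = ∑ i, ∑ k, f (ix i k) := by
  rw [← Fintype.sum_prod_type' (f := fun i k => f (ix i k))]
  exact (Equiv.sum_comp finProdFinEquiv f).symm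

/-- matrices over matrices are matrices -/
noncomputable def flat (N n : ℕ) : Mat N (Mat n D) →⋆ₙₐ[ℂ] Mat (N * n) D where
  toFun X := CStarMatrix.ofMatrix fun p q =>
    X (finProdFinEquiv.symm p).1 (finProdFinEquiv.symm q).1 (finProdFinEquiv.symm p).2
      (finProdFinEquiv.symm q).2
  map_smul' c X := by ext p q; rfl
  map_zero' := by ext p q; rfl
  map_add' X Y := by ext p q; rfl
  map_mul' X Y := by
    ext p q
    rw [CStarMatrix.mul_apply, ix_sum]
    simp only [CStarMatrix.ofMatrix_apply]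
    rw [CStarMatrix.mul_apply, cm_sum_apply]
    refine Finset.sum_congr rfl fun i _ => ?_
    rw [CStarMatrix.mul_apply]
    refine Finset.sum_congr rfl fun k _ => ?_
    simp only [ix, Equiv.symm_apply_apply]
  map_star' X := by
    ext p q
    simp only [CStarMatrix.ofMatrix_apply, CStarMatrix.star_apply]

theorem flat_apply {N n : ℕ} (X : Mat N (Mat n D)) (i i' : Fin N) (k k' : Fin n) :
    flat N n X (ix i k) (ix i' k') = X i i' k k' := by
  show X (finProdFinEquiv.symm (ix i k)).1 (finProdFinEquiv.symm (ix i' k')).1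
    (finProdFinEquiv.symm (ix i k)).2 (finProdFinEquiv.symm (ix i' k')).2 = _
  simp only [ix, Equiv.symm_apply_apply]

theorem trM_flat (S : Tr D) {N n : ℕ} (X : Mat N (Mat n D)) :
    (trM S (Fin (N * n))).f (flat N n X) = (trM (trM S (Fin n)) (Fin N)).f X := by
  rw [trM_apply, trM_apply, ix_sum]
  refine Finset.sum_congr rfl fun i _ => ?_
  rw [trM_apply]
  exact Finset.sum_congr rfl fun k _ => by rw [flat_apply]

end

section

variable {A : Type u} [CStarAlgebra A] [PartialOrder A] [StarOrderedRing A]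
variable {G : Type v} [Group G] [Fintype G] {α : G →* (A ≃⋆ₐ[ℂ] A)}
variable {D : Type w} [CStarAlgebra D] [PartialOrder D] [StarOrderedRing D]
variable {j : D →⋆ₐ[ℂ] A} (hj : IsFixedPointAlgebra α j)
variable {n : ℕ} (a : Fin n → A) (hfr : ∀ w, ∑ i, a i * j (EE hj (star (a i) * w)) = w)

/-- `x ↦ (E(a_i^* x a_k))` -/
noncomputable def rho1 : A →⋆ₙₐ[ℂ] Mat n D where
  toFun x := CStarMatrix.ofMatrix fun i k => EE hj (star (a i) * x * a k)
  map_smul' c x := by
    ext i k
    simp only [CStarMatrix.ofMatrix_apply, CStarMatrix.smul_apply, mul_smul_comm, smul_mul_assoc,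
      EE_smul]
    rfl
  map_zero' := by
    ext i k
    simp only [CStarMatrix.ofMatrix_apply, mul_zero, zero_mul, EE_zero]
    rfl
  map_add' x y := by
    ext i k
    simp only [CStarMatrix.ofMatrix_apply, CStarMatrix.add_apply, mul_add, add_mul, EE_add]
  map_mul' x y := by
    ext i k
    rw [CStarMatrix.mul_apply]
    simp only [CStarMatrix.ofMatrix_apply]
    have h1 : ∀ l, EE hj (star (a i) * x * a l) * EE hj (star (a l) * y * a k) =
        EE hj (star (a i) * x * (a l * j (EE hj (star (a l) * (y * a k))))) := by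
      intro l
      rw [← mul_assoc, EE_mul_j, mul_assoc (star (a l))]
    simp only [h1]
    rw [← EE_sum, ← Finset.mul_sum, hfr]
    simp only [mul_assoc]
  map_star' x := by
    ext i k
    simp only [CStarMatrix.ofMatrix_apply, CStarMatrix.star_apply]
    rw [← EE_star, star_mul, star_mul, star_star, mul_assoc]

theorem rho1_apply (x : A) (i k : Fin n) : rho1 hj a hfr x i k = EE hj (star (a i) * x * a k) := rfl

/-- `M_N(A) → M_{Nn}(D)` -/
noncomputable def rho (N : ℕ) : Mat N A →⋆ₙₐ[ℂ] Mat (N * n) D :=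
  NonUnitalStarAlgHom.comp (flat N n) (ent (rho1 hj a hfr) N)

theorem rho_apply {N : ℕ} (x : Mat N A) (i i' : Fin N) (k k' : Fin n) :
    rho hj a hfr N x (ix i k) (ix i' k') = EE hj (star (a k) * x i i' * a k') := by
  show flat N n (ent (rho1 hj a hfr) N x) (ix i k) (ix i' k') = _
  rw [flat_apply, ent_apply, rho1_apply]

/-- the index map -/
def ixs (N n : ℕ) (p : Fin (N * n)) : Fin ((N + 1) * n) :=
  ix (finProdFinEquiv.symm p).1.castSucc (finProdFinEquiv.symm p).2

theorem ixs_ix {N n : ℕ} (i : Fin N) (k : Fin n) : ixs N n (ix i k) = ix i.castSucc k := by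
  unfold ixs
  simp only [ix, Equiv.symm_apply_apply]

theorem ixs_inj (N n : ℕ) : Function.Injective (ixs N n) := by
  intro p q h
  obtain ⟨i, k, rfl⟩ := ix_surj p
  obtain ⟨i', k', rfl⟩ := ix_surj q
  rw [ixs_ix, ixs_ix] at h
  obtain ⟨h1, h2⟩ := ix_inj h
  rw [Fin.castSucc_injective _ h1, h2]

theorem rho_pad {N : ℕ} (x : Mat N A) :
    rho hj a hfr (N + 1) (pad x) = emb (ixs N n) (ixs_inj N n) (rho hj a hfr N x) := by
  ext p q
  obtain ⟨i, k, rfl⟩ := ix_surj p
  obtain ⟨i', k', rfl⟩ := ix_surj q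
  rw [rho_apply]
  simp only [pad, CStarMatrix.ofMatrix_apply]
  have hout : ∀ (i : Fin (N + 1)) (k : Fin n), ¬ (i : ℕ) < N → ix i k ∉ Set.range (ixs N n) := by
    rintro i k hi ⟨r, hr⟩
    obtain ⟨l, m, rfl⟩ := ix_surj r
    rw [ixs_ix] at hr
    obtain ⟨h1, -⟩ := ix_inj hr
    rw [← h1] at hi
    exact hi l.2
  by_cases hi : (i : ℕ) < N
  · by_cases hi' : (i' : ℕ) < N
    · rw [dif_pos ⟨hi, hi'⟩]
      have e1 : ix i k = ixs N n (ix ⟨i, hi⟩ k) := by rw [ixs_ix]; rfl
      have e2 : ix i' k' = ixs N n (ix ⟨i', hi'⟩ k') := by rw [ixs_ix]; rfl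
      rw [e1, e2, emb_apply, embf_apply (ixs_inj N n), rho_apply]
    · rw [dif_neg (fun h => hi' h.2), emb_apply, embf_right _ _ (hout i' k' hi'), mul_zero,
        zero_mul, EE_zero]
  · rw [dif_neg (fun h => hi h.1), emb_apply, embf_left _ (hout i k hi), mul_zero,
      zero_mul, EE_zero]

theorem trM_rho (S : Tr D) {N : ℕ} (x : Mat N A) :
    (trM S (Fin (N * n))).f (rho hj a hfr N x) =
      (trM (Tr.pull (rho1 hj a hfr) (trM S (Fin n))) (Fin N)).f x := by
  show (trM S (Fin (N * n))).f (flat N n (ent (rho1 hj a hfr) N x)) = _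
  rw [trM_flat]
  rfl

theorem rk_rho (S : Tr D) {N : ℕ} {x : Mat N A} (hx : 0 ≤ x) :
    rk (trM S (Fin (N * n))) (rho hj a hfr N x) =
      rk (trM (Tr.pull (rho1 hj a hfr) (trM S (Fin n))) (Fin N)) x := by
  rw [← rk_pull (rho hj a hfr N) _ hx]
  exact rk_congr (fun y => trM_rho hj a hfr S y) x

end

end Run7.h450

/-!
# Cuntz comparison and the homomorphism given by a frame
-/

set_option autoImplicit false
set_option linter.unusedSectionVars false

namespace Run7.h450

open Filter Topology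
open Pool.Agent.H327R4.Pure

universe u v w

section

variable {B : Type u} [CStarAlgebra B] [PartialOrder B] [StarOrderedRing B]
variable {C : Type v} [CStarAlgebra C] [PartialOrder C] [StarOrderedRing C]

theorem cz_smul' {R : Type u} [CStarAlgebra R] [PartialOrder R] [StarOrderedRing R] (x : R)
    (q : ℝ) (hq : 0 < q) : Cz x (q • x) := by
  have h4 := cz_smul (a := q • x) (1 / q) (by positivity)
  rwa [smul_smul, one_div_mul_cancel hq.ne', one_smul] at h4

theorem cuntz_of_cz_same {n : ℕ} {a b : Mat n B} (h : Cz a b) : Cuntz a b := h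

theorem cuntz_trans {n m l : ℕ} {a : Mat n B} {b : Mat m B} {c : Mat l B} (h : Cuntz a b)
    (h' : Cuntz b c) : Cuntz a c := by
  have hn : n ≤ n + m + l := by omega
  have hm : m ≤ n + m + l := by omega
  have hl : l ≤ n + m + l := by omega
  have h1 := cz_of_cuntz' (Fin.castLE hn) (Fin.castLE_injective hn) (Fin.castLE hm)
    (Fin.castLE_injective hm) h
  have h2 := cz_of_cuntz' (Fin.castLE hm) (Fin.castLE_injective hm) (Fin.castLE hl)
    (Fin.castLE_injective hl) h'
  exact cuntz_of_cz _ _ _ _ (cz_trans h1 h2)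

theorem emb_id {n : ℕ} (h : Function.Injective (id : Fin n → Fin n)) (x : Mat n B) :
    emb id h x = x := by
  ext p q
  exact embf_apply h x p q

theorem cz_of_cuntz_right {n m : ℕ} {a : Mat n B} {b : Mat m B} (e : Fin m → Fin n)
    (he : Function.Injective e) (h : Cuntz a b) : Cz a (emb e he b) := by
  have := cz_of_cuntz' id Function.injective_id e he h
  rwa [emb_id] at this

theorem cuntz_map (φ : B →⋆ₙₐ[ℂ] C) {n m : ℕ} {a : Mat n B} {b : Mat m B} (h : Cuntz a b) :
    Cuntz (ent φ n a) (ent φ m b) := by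
  obtain ⟨x, hx⟩ := h
  refine ⟨fun k => CStarMatrix.ofMatrix fun p q => φ (x k p q), ?_⟩
  rw [tendsto_cm] at hx ⊢
  intro p q
  have hc : Continuous φ :=
    (AddMonoidHomClass.continuous_of_bound φ 1 fun x => by
      rw [one_mul]; exact NonUnitalStarAlgHom.norm_apply_le _ x)
  have h1 := (hc.tendsto _).comp (hx p q)
  have h2 : ent φ n a p q = φ (a p q) := rfl
  rw [h2]
  refine h1.congr fun k => ?_
  show φ ((x k * b * (x k).conjTranspose) p q) = _
  rw [CStarMatrix.mul_apply, CStarMatrix.mul_apply, map_sum]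
  refine Finset.sum_congr rfl fun l _ => ?_
  rw [CStarMatrix.mul_apply, CStarMatrix.mul_apply, map_mul, map_sum]
  congr 1
  · refine Finset.sum_congr rfl fun r _ => ?_
    rw [map_mul]
    rfl
  · rw [CStarMatrix.conjTranspose_apply, CStarMatrix.conjTranspose_apply, map_star]
    rfl

theorem emb_cuntz {n N : ℕ} (e : Fin n → Fin N) (he : Function.Injective e) (b : Mat n B) :
    Cuntz (emb e he b) b := by
  have h : Cz (emb id Function.injective_id (emb e he b)) (emb e he b) := by
    rw [emb_id]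
    exact cz_refl
  exact cuntz_of_cz _ _ _ _ h

end

section

variable {A : Type u} [CStarAlgebra A] [PartialOrder A] [StarOrderedRing A]
variable {G : Type v} [Group G] [Fintype G] {α : G →* (A ≃⋆ₐ[ℂ] A)}
variable {D : Type w} [CStarAlgebra D] [PartialOrder D] [StarOrderedRing D]
variable {j : D →⋆ₐ[ℂ] A} (hj : IsFixedPointAlgebra α j)
variable {n : ℕ} (a : Fin n → A) (hfr : ∀ w, ∑ i, a i * j (EE hj (star (a i) * w)) = w)

/-- scalar matrices -/
noncomputable def scal (N : ℕ) (z : A) : Mat N A :=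
  CStarMatrix.ofMatrix fun p q => if p = q then z else 0

theorem scal_apply (N : ℕ) (z : A) (p q : Fin N) : scal N z p q = if p = q then z else 0 := rfl

theorem scal_mul {N : ℕ} (z : A) (x : Mat N A) (p q : Fin N) : (scal N z * x) p q = z * x p q := by
  rw [CStarMatrix.mul_apply, Finset.sum_eq_single p]
  · rw [scal_apply, if_pos rfl]
  · intro r _ hr
    rw [scal_apply, if_neg (Ne.symm hr), zero_mul]
  · simp

theorem mul_scal {N : ℕ} (z : A) (x : Mat N A) (p q : Fin N) : (x * scal N z) p q = x p q * z := by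
  rw [CStarMatrix.mul_apply, Finset.sum_eq_single q]
  · rw [scal_apply, if_pos rfl]
  · intro r _ hr
    rw [scal_apply, if_neg hr, mul_zero]
  · simp

include hfr in
theorem exists_frame_bound : ∃ C : ℝ, 0 ≤ C ∧ (1 : A) ≤ C • ∑ k, a k * star (a k) := by
  have h1 := hfr 1
  simp only [mul_one] at h1
  set b : Fin n → A := fun k => j (EE hj (star (a k))) with hb
  have h2 := pinch fun k => star (a k * b k)
  have h3 : star (∑ k, star (a k * b k)) * ∑ k, star (a k * b k) = 1 := by
    have : ∑ k, a k * b k = 1 := h1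
    rw [← star_sum, star_star, this, star_one, mul_one]
  rw [h3] at h2
  set M : ℝ := ∑ k, ‖b k * star (b k)‖ with hM
  have hM0 : 0 ≤ M := Finset.sum_nonneg fun k _ => norm_nonneg _
  refine ⟨Fintype.card (Fin n) * M, by positivity, h2.trans ?_⟩
  rw [← smul_smul]
  refine rsmul_mono _ (Nat.cast_nonneg _) ?_
  rw [Finset.smul_sum]
  refine Finset.sum_le_sum fun k _ => ?_
  rw [star_star, star_mul]
  have h4 : b k * star (b k) ≤ M • (1 : A) := by
    have h5 := IsSelfAdjoint.le_algebraMap_norm_self (IsSelfAdjoint.mul_star_self (b k))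
    rw [Algebra.algebraMap_eq_smul_one] at h5
    refine h5.trans (smul_le_smul_of_nonneg_right ?_ zero_le_one)
    exact Finset.single_le_sum (f := fun k => ‖b k * star (b k)‖) (fun i _ => norm_nonneg _)
      (Finset.mem_univ k)
  have h6 := star_right_conjugate_le_conjugate h4 (a k)
  rw [mul_smul_comm, mul_one, smul_mul_assoc] at h6
  refine le_trans (le_of_eq ?_) h6
  simp only [mul_assoc]

/-- `s ≾ j(ρ(s))` -/
theorem cuntz_rho {N : ℕ} {x : Mat N A} (hx : 0 ≤ x) :
    Cuntz x (ent (jj j) (N * n) (rho hj a hfr N x)) := by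
  set Rm : CStarMatrix (Fin N) (Fin (N * n)) A := CStarMatrix.ofMatrix fun i p =>
    if i = (finProdFinEquiv.symm p).1 then a (finProdFinEquiv.symm p).2 else 0 with hRm
  have hRa : ∀ i i' k, Rm i (ix i' k) = if i = i' then a k else 0 := by
    intro i i' k
    simp only [hRm, CStarMatrix.ofMatrix_apply, ix, Equiv.symm_apply_apply]
  set Z : A := ∑ k, a k * star (a k) with hZ
  have hR1 : ∀ (y : Mat N A) (i i' : Fin N) (k' : Fin n),
      (Rm * ent (jj j) (N * n) (rho hj a hfr N y)) i (ix i' k') = y i i' * a k' := by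
    intro y i i' k'
    rw [CStarMatrix.mul_apply, ix_sum, Finset.sum_eq_single i]
    · have h1 : ∀ k, Rm i (ix i k) * ent (jj j) (N * n) (rho hj a hfr N y) (ix i k) (ix i' k') =
          a k * j (EE hj (star (a k) * (y i i' * a k'))) := by
        intro k
        rw [hRa, if_pos rfl, ent_apply, rho_apply, jj_apply, mul_assoc (star (a k))]
      simp only [h1]
      exact hfr _
    · intro r _ hr
      exact Finset.sum_eq_zero fun k _ => by rw [hRa, if_neg (Ne.symm hr), zero_mul]
    · simp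
  have hR2 : ∀ y : Mat N A, Rm * ent (jj j) (N * n) (rho hj a hfr N y) * Rm.conjTranspose =
      y * scal N Z := by
    intro y
    ext i i'
    rw [CStarMatrix.mul_apply, ix_sum, mul_scal, Finset.sum_eq_single i']
    · rw [hZ, Finset.mul_sum]
      refine Finset.sum_congr rfl fun k _ => ?_
      rw [hR1, CStarMatrix.conjTranspose_apply, hRa, if_pos rfl, mul_assoc]
    · intro r _ hr
      exact Finset.sum_eq_zero fun k _ => by
        rw [CStarMatrix.conjTranspose_apply, hRa, if_neg (Ne.symm hr), star_zero, mul_zero]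
    · simp
  have hcu : Cuntz (x * scal N Z) (ent (jj j) (N * n) (rho hj a hfr N x)) :=
    cuntz_const Rm (hR2 x)
  have hZs : star (scal N Z) = scal N Z := by
    ext p q
    rw [CStarMatrix.star_apply, scal_apply, scal_apply]
    by_cases h : p = q
    · rw [if_pos h, if_pos h.symm, hZ, star_sum]
      exact Finset.sum_congr rfl fun k _ => by rw [star_mul, star_star]
    · rw [if_neg h, if_neg (Ne.symm h), star_zero]
  have hcom : ∀ y : Mat N A, star y = y → y * scal N Z = scal N Z * y := by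
    intro y hy
    have h1 : star (y * scal N Z) = y * scal N Z := by
      rw [← hR2]
      set r := ent (jj j) (N * n) (rho hj a hfr N y) with hr
      have hrs : star r = r := by rw [hr, ← map_star, ← map_star, hy]
      ext p q
      rw [CStarMatrix.star_apply, CStarMatrix.mul_apply, CStarMatrix.mul_apply, star_sum]
      have h2 : ∀ l, star ((Rm * r) q l * Rm.conjTranspose l p) =
          ∑ l', Rm p l * (r l l' * star (Rm q l')) := by
        intro l
        rw [star_mul, CStarMatrix.conjTranspose_apply, star_star, CStarMatrix.mul_apply, star_sum,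
          Finset.mul_sum]
        refine Finset.sum_congr rfl fun l' _ => ?_
        rw [star_mul, ← CStarMatrix.star_apply, hrs]
      simp only [h2]
      rw [Finset.sum_comm]
      refine Finset.sum_congr rfl fun l' _ => ?_
      rw [CStarMatrix.mul_apply, CStarMatrix.conjTranspose_apply, Finset.sum_mul]
      exact Finset.sum_congr rfl fun l _ => (mul_assoc _ _ _).symm
    have h3 := h1
    rw [star_mul, hZs, hy] at h3
    exact h3.symm
  obtain ⟨C, hC, hCZ⟩ := exists_frame_bound hj a hfr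
  have h1Z : (1 : Mat N A) ≤ C • scal N Z := by
    set q : A := sq (C • Z - 1) with hq
    have h0 : 0 ≤ C • Z - 1 := sub_nonneg.mpr hCZ
    have h1 : C • scal N Z - 1 = star (scal N q) * scal N q := by
      ext p r
      rw [mul_scal, CStarMatrix.star_apply, CStarMatrix.sub_apply, CStarMatrix.smul_apply,
        scal_apply, scal_apply, CStarMatrix.one_apply]
      by_cases h : p = r
      · rw [if_pos h, if_pos h, if_pos h.symm, hq, sq_star, sq_mul_sq h0]
      · rw [if_neg h, if_neg h, if_neg (Ne.symm h), smul_zero, sub_zero, star_zero, zero_mul]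
    rw [← sub_nonneg, h1]
    exact star_mul_self_nonneg _
  have hle : x ≤ C • (x * scal N Z) := by
    have h1 := star_right_conjugate_le_conjugate h1Z (sq x)
    rw [sq_star, mul_one, sq_mul_sq hx, mul_smul_comm, smul_mul_assoc] at h1
    refine h1.trans (le_of_eq ?_)
    rw [hcom (sq x) (sq_star x), mul_assoc, sq_mul_sq hx,
      hcom x (IsSelfAdjoint.of_nonneg hx).star_eq]
  exact cuntz_trans (cuntz_of_cz_same (cz_of_le_smul hx C hC hle)) hcu

/-- `x ≾ ρ(j(x))` in the matrix algebras over `D` -/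
theorem cuntz_rho_j {m : ℕ} {x : Mat m D} (hx : 0 ≤ x) :
    Cuntz x (rho hj a hfr m (ent (jj j) m x)) := by
  set q : ℝ := (Fintype.card G : ℝ) with hq
  set Xm : CStarMatrix (Fin m) (Fin (m * n)) D := CStarMatrix.ofMatrix fun i p =>
    if i = (finProdFinEquiv.symm p).1 then EE hj (a (finProdFinEquiv.symm p).2) else 0 with hXm
  have hXa : ∀ i i' k, Xm i (ix i' k) = if i = i' then EE hj (a k) else 0 := by
    intro i i' k
    simp only [hXm, CStarMatrix.ofMatrix_apply, ix, Equiv.symm_apply_apply]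
  have h1 : ∀ d : D, ∑ k', (∑ k, EE hj (a k) * EE hj (star (a k) * j d * a k')) *
      star (EE hj (a k')) = q • d := by
    intro d
    have e1 : ∀ k, ∑ k', EE hj (star (a k) * j d * a k') * star (EE hj (a k')) =
        EE hj (star (a k)) * d := by
      intro k
      have e2 : ∀ k', EE hj (star (a k) * j d * a k') * star (EE hj (a k')) =
          EE hj (star (a k) * j d * (a k' * j (EE hj (star (a k') * 1)))) := by
        intro k'
        rw [mul_one, ← mul_assoc, EE_mul_j, EE_star]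
      simp only [e2]
      rw [← EE_sum, ← Finset.mul_sum, hfr, mul_one, EE_mul_j]
    have e3 : ∑ k', (∑ k, EE hj (a k) * EE hj (star (a k) * j d * a k')) *
        star (EE hj (a k')) = ∑ k, EE hj (a k) * (EE hj (star (a k)) * d) := by
      simp only [Finset.sum_mul]
      rw [Finset.sum_comm]
      refine Finset.sum_congr rfl fun k _ => ?_
      rw [← e1 k, Finset.mul_sum]
      exact Finset.sum_congr rfl fun k' _ => mul_assoc _ _ _
    have e4 : ∑ k, EE hj (a k) * (EE hj (star (a k)) * d) = EE hj 1 * d := by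
      conv_rhs => rw [← hfr 1]
      rw [EE_sum, Finset.sum_mul]
      refine Finset.sum_congr rfl fun k _ => ?_
      rw [EE_mul_j, mul_one, mul_assoc]
    rw [e3, e4, EE_one, smul_mul_assoc, one_mul]
  have h2 : Xm * rho hj a hfr m (ent (jj j) m x) * Xm.conjTranspose = q • x := by
    ext i i'
    rw [CStarMatrix.mul_apply, ix_sum, CStarMatrix.smul_apply, ← h1 (x i i'),
      Finset.sum_eq_single i']
    · refine Finset.sum_congr rfl fun k' _ => ?_
      rw [CStarMatrix.conjTranspose_apply, hXa, if_pos rfl, CStarMatrix.mul_apply, ix_sum,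
        Finset.sum_eq_single i]
      · congr 1
        refine Finset.sum_congr rfl fun k _ => ?_
        rw [hXa, if_pos rfl, rho_apply, ent_apply, jj_apply]
      · intro r _ hr
        exact Finset.sum_eq_zero fun k _ => by rw [hXa, if_neg (Ne.symm hr), zero_mul]
      · simp
    · intro r _ hr
      exact Finset.sum_eq_zero fun k _ => by
        rw [CStarMatrix.conjTranspose_apply, hXa, if_neg (Ne.symm hr), star_zero, mul_zero]
    · simp
  have hq1 : 0 < q := by
    rw [hq]
    exact_mod_cast Fintype.card_pos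
  have h3 : Cz x (q • x) := cz_smul' x q hq1
  exact cuntz_trans (cuntz_of_cz_same h3) (cuntz_const Xm h2)

end

end Run7.h450

/-!
# Traces and quasitraces on `A` induced by those on the fixed point algebra
-/

set_option autoImplicit false
set_option linter.unusedSectionVars false

namespace Run7.h450

open Filter Topology
open Pool.Agent.H327R4.Pure

universe u v w

theorem IsQuasitrace.scale {R : Type u} [CStarAlgebra R] {τ : R → ℂ} (h : IsQuasitrace τ) (c : ℝ)
    (hc : 0 ≤ c) : IsQuasitrace fun x => (c : ℂ) * τ x where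
  nonneg x := by
    have := h.nonneg x
    rw [Complex.re_ofReal_mul, Complex.im_ofReal_mul, this.2, mul_zero]
    exact ⟨mul_nonneg hc this.1, rfl⟩
  comm x := by rw [h.comm]
  add_I a b ha hb := by
    rw [h.add_I a b ha hb]
    ring
  linear d x y hx hy hxy hxy' := by
    rw [h.linear d x y hx hy hxy hxy']
    ring

section

variable {A : Type u} [CStarAlgebra A] [PartialOrder A] [StarOrderedRing A]

theorem tr_eq_zero (T : Tr A) (h : (T.f 1).re = 0) (x : A) : T.f x = 0 := by
  have h1 := cs T 1 x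
  have h2 : N2 T 1 = 0 := by
    unfold N2
    rw [star_one, mul_one, h]
  rw [h2, zero_mul, star_one, one_mul] at h1
  have : ‖T.f x‖ = 0 := by nlinarith [norm_nonneg (T.f x)]
  exact norm_eq_zero.mp this

theorem rk_scale_le (T' : Tr A) (κ : ℝ) (hκ : (T'.f 1).re ≤ κ) {N : ℕ} {x : Mat N A}
    (hx : 0 ≤ x) (η : ℝ) (hη : 0 ≤ η)
    (h : ∀ S : Tr A, S.f 1 = 1 → rk (trM S (Fin N)) x ≤ η) : rk (trM T' (Fin N)) x ≤ κ * η := by
  obtain ⟨hm0, hmi⟩ := (mt' A T').2.1 1 zero_le_one
  set m : ℝ := (T'.f 1).re with hm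
  have hS1 : T'.f 1 = (m : ℂ) := by
    apply Complex.ext
    · simp [hm]
    · simp [hmi]
  rcases hm0.eq_or_lt with h0 | hmpos
  · have h1 := tr_eq_zero T' h0.symm
    have h2 : rk (trM T' (Fin N)) x = 0 := by
      have := rk_comb (trM T' (Fin N)) (fun i : Empty => trM T' (Fin N)) (fun i => i.elim)
        (fun y => by
          rw [trM_apply]
          simp [h1]) hx
      rw [this]
      simp
    rw [h2]
    exact mul_nonneg (h0.le.trans hκ) hη
  · set S : Tr A := Tr.scale (1 / m) (by positivity) T' with hS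
    have hSf : ∀ x, S.f x = ((1 / m : ℝ) : ℂ) * T'.f x := fun x => rfl
    have hS1' : S.f 1 = 1 := by
      rw [hSf, hS1, ← Complex.ofReal_mul, one_div_mul_cancel hmpos.ne', Complex.ofReal_one]
    have h2 : rk (trM T' (Fin N)) x = m * rk (trM S (Fin N)) x := by
      have := rk_comb (trM T' (Fin N)) (fun _ : Unit => trM S (Fin N)) (fun _ => m)
        (fun y => by
          simp only [Finset.univ_unique, Finset.sum_singleton]
          rw [trM_apply, trM_apply, Finset.mul_sum]
          refine Finset.sum_congr rfl fun i _ => ?_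
          rw [hSf, ← mul_assoc, ← Complex.ofReal_mul, mul_one_div_cancel hmpos.ne',
            Complex.ofReal_one, one_mul]) hx
      rw [this]
      simp
    rw [h2]
    exact (mul_le_mul_of_nonneg_left (h S hS1') hm0).trans (mul_le_mul_of_nonneg_right hκ hη)

theorem rk_le_mass {ι : Type} [Fintype ι] {T : ι → Tr A} (hT : Conv T) (T' : Tr A) (κ : ℝ)
    (hκ : (T'.f 1).re ≤ κ) {N : ℕ} {x : Mat N A} (hx : 0 ≤ x) (η : ℝ) (hη : 0 ≤ η)
    (h : ∀ i, rk (trM (T i) (Fin N)) x ≤ η) : rk (trM T' (Fin N)) x ≤ κ * η :=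
  rk_scale_le T' κ hκ hx η hη fun S hS => rk_conv_le hT S hS hx η h

variable {G : Type v} [Group G] [Fintype G] {α : G →* (A ≃⋆ₐ[ℂ] A)}
variable {D : Type w} [CStarAlgebra D] [PartialOrder D] [StarOrderedRing D]
variable {j : D →⋆ₐ[ℂ] A} (hj : IsFixedPointAlgebra α j)
variable {n : ℕ} (a : Fin n → A) (hfr : ∀ w, ∑ i, a i * j (EE hj (star (a i) * w)) = w)

theorem proj_facts {R : Type u} [CStarAlgebra R] [PartialOrder R] [StarOrderedRing R]
    {R' : Type v} [CStarAlgebra R'] [PartialOrder R'] [StarOrderedRing R'] (φ : R →⋆ₙₐ[ℂ] R') :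
    0 ≤ φ 1 ∧ φ 1 ≤ 1 ∧ φ 1 * φ 1 = φ 1 ∧ star (φ 1) = φ 1 := by
  have h1 : φ 1 * φ 1 = φ 1 := by rw [← map_mul, one_mul]
  have h2 : star (φ 1) = φ 1 := by rw [← map_star, star_one]
  have h3 : 0 ≤ φ 1 := by
    have := star_mul_self_nonneg (φ 1)
    rwa [h2, h1] at this
  have h4 : 0 ≤ 1 - φ 1 := by
    have := star_mul_self_nonneg (1 - φ 1)
    rwa [one_sub_star h2, mul_sub, mul_one, sub_mul, one_mul, h1, sub_self, sub_zero] at this
  exact ⟨h3, sub_nonneg.mp h4, h1, h2⟩

/-- the mass of the induced trace -/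
theorem mass_tr (S : Tr D) (hS : S.f 1 = 1) :
    ((Tr.pull (rho1 hj a hfr) (trM S (Fin n))).f 1).re ≤ n := by
  rw [Tr.pull_apply]
  have h1 := (mt' (Mat n D) (trM S (Fin n))).1 _ _ (proj_facts (rho1 hj a hfr)).2.1
  refine h1.trans (le_of_eq ?_)
  rw [trM_apply]
  have h2 : ∀ i : Fin n, (1 : Mat n D) i i = 1 := fun i => by
    rw [CStarMatrix.one_apply, if_pos rfl]
  simp [h2, hS]

/-- the mass of the induced quasitrace -/
noncomputable def QT.mass (σ : QT D) : ℝ := (σ.val (1 * n) (rho hj a hfr 1 1)).re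

theorem QT.mass_ge (σ : QT D) : 1 ≤ σ.mass hj a hfr := by
  have h1 : σ.d (1 : Mat 1 D) ≤ σ.d (rho hj a hfr 1 (ent (jj j) 1 1)) :=
    σ.d_cuntz zero_le_one (hom_nonneg (rho hj a hfr 1) (ent_nonneg (jj j) 1 zero_le_one))
      (cuntz_rho_j hj a hfr zero_le_one)
  rw [σ.d_one, ent_one (jj j) (jj_one (j := j))] at h1
  obtain ⟨h2, h3, h4, -⟩ := proj_facts (rho hj a hfr 1)
  rw [QT.d_eq_qd, qd_proj (σ.quasi _) h2 h3 h4, Nat.cast_one] at h1
  exact h1

theorem QT.mass_le (σ : QT D) : σ.mass hj a hfr ≤ n := by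
  obtain ⟨h2, h3, h4, h5⟩ := proj_facts (rho hj a hfr 1)
  have hs : IsSelfAdjoint (rho hj a hfr 1 1) := h5
  have h6 := (σ.quasi (1 * n)).add ((IsSelfAdjoint.one _).sub hs) hs
    ((Commute.one_left _).sub_left (Commute.refl _))
  rw [sub_add_cancel, σ.val_one] at h6
  have h7 := (σ.quasi (1 * n)).re_nonneg (sub_nonneg.mpr h3)
  have h8 := congrArg Complex.re h6
  rw [Complex.add_re] at h8
  unfold QT.mass
  simp only [one_mul, Complex.natCast_re] at h8
  linarith

theorem QT.mass_eq (σ : QT D) : σ.val (1 * n) (rho hj a hfr 1 1) = (σ.mass hj a hfr : ℂ) := by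
  obtain ⟨h2, h3, h4, h5⟩ := proj_facts (rho hj a hfr 1)
  have h6 := (σ.quasi (1 * n)).nonneg (rho hj a hfr 1 1)
  rw [h5, h4] at h6
  apply Complex.ext
  · rfl
  · rw [h6.2]
    simp

/-- the induced quasitrace on `A` -/
noncomputable def QT.pullRho (σ : QT D) : QT A where
  val N x := ((1 / σ.mass hj a hfr : ℝ) : ℂ) * σ.val (N * n) (rho hj a hfr N x)
  quasi N := IsQuasitrace.scale ((σ.quasi (N * n)).comp (rho hj a hfr N)) _ (by
    have := σ.mass_ge hj a hfr
    positivity)
  val_pad N x := by rw [rho_pad, σ.val_emb]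
  map_one := by
    have h1 := σ.mass_ge hj a hfr
    rw [σ.mass_eq hj a hfr, ← Complex.ofReal_mul, one_div_mul_cancel (by linarith),
      Complex.ofReal_one]

theorem QT.d_rho (σ : QT D) {N : ℕ} {x : Mat N A} (hx : 0 ≤ x) :
    σ.d (rho hj a hfr N x) = σ.mass hj a hfr * (σ.pullRho hj a hfr).d x := by
  have h1 := σ.mass_ge hj a hfr
  have hρx : 0 ≤ rho hj a hfr N x := hom_nonneg (rho hj a hfr N) hx
  have h2 := (qd_tendsto (σ.quasi (N * n)) hρx).const_mul (1 / σ.mass hj a hfr)
  have h3 : (fun k : ℕ => 1 / σ.mass hj a hfr *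
      (σ.val (N * n) (root k (rho hj a hfr N x))).re) =
      fun k : ℕ => ((σ.pullRho hj a hfr).val N (root k x)).re := by
    funext k
    have h4 : rho hj a hfr N (root k x) = root k (rho hj a hfr N x) :=
      RKSaux.rt_hom (rho hj a hfr N) hx k
    show _ = (((1 / σ.mass hj a hfr : ℝ) : ℂ) *
      σ.val (N * n) (rho hj a hfr N (root k x))).re
    rw [h4, Complex.re_ofReal_mul]
  rw [h3] at h2
  have h5 : (σ.pullRho hj a hfr).d x = 1 / σ.mass hj a hfr * σ.d (rho hj a hfr N x) :=
    h2.limUnder_eq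
  rw [h5, ← mul_assoc, mul_one_div_cancel (by linarith), one_mul]

theorem QT.d_rho_le {ι : Type} [Fintype ι] {T : ι → Tr A} (hQ : QConv T) (σ : QT D) {N : ℕ}
    {x : Mat N A} (hx : 0 ≤ x) (η : ℝ) (hη : 0 ≤ η) (h : ∀ i, rk (trM (T i) (Fin N)) x ≤ η) :
    σ.d (rho hj a hfr N x) ≤ n * η := by
  rw [σ.d_rho hj a hfr hx]
  obtain ⟨c, hc0, hc1, hc⟩ := hQ (σ.pullRho hj a hfr)
  rw [QT.d_eq _ T c hc x hx]
  have h1 : ∑ i, c i * rk (trM (T i) (Fin N)) x ≤ η := by
    calc ∑ i, c i * rk (trM (T i) (Fin N)) x ≤ ∑ i, c i * η :=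
          Finset.sum_le_sum fun i _ => mul_le_mul_of_nonneg_left (h i) (hc0 i)
      _ = η := by rw [← Finset.sum_mul, hc1, one_mul]
  have h2 := σ.mass_ge hj a hfr
  exact (mul_le_mul_of_nonneg_left h1 (by linarith)).trans
    (mul_le_mul_of_nonneg_right (σ.mass_le hj a hfr) hη)

theorem rk_rho_le {ι : Type} [Fintype ι] {T : ι → Tr A} (hT : Conv T) (S : Tr D)
    (hS : S.f 1 = 1) {N : ℕ} {x : Mat N A} (hx : 0 ≤ x) (η : ℝ) (hη : 0 ≤ η)
    (h : ∀ i, rk (trM (T i) (Fin N)) x ≤ η) :
    rk (trM S (Fin (N * n))) (rho hj a hfr N x) ≤ n * η := by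
  rw [rk_rho hj a hfr S hx]
  exact rk_le_mass hT _ n (mass_tr hj a hfr S hS) hx η hη h

end

end Run7.h450

/-!
# Averaging for general traces; exhaustion with a margin; transfer from traces to quasitraces
-/

set_option autoImplicit false
set_option linter.unusedSectionVars false

namespace Run7.h450

open Filter Topology
open Pool.Agent.H327R4.Pure

universe u v w

section

variable {A : Type u} [CStarAlgebra A] [PartialOrder A] [StarOrderedRing A]

/-- averaging `q` over the unitary group -/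
theorem exists_avg (T : Tr A) (p q : A) (hq : 0 ≤ q) (c : ℝ)
    (hcon : ∀ u ∈ unitary A, (T.f (p * (u * q * star u))).re ≤ c) :
    ∃ S : Tr A, S.f 1 = T.f q ∧ (S.f p).re ≤ c := by
  set G : Set A := {y | ∃ u ∈ unitary A, y = u * q * star u} with hG
  set K : Set A := convexHull ℝ G with hK
  have hre : ∀ (a : A) (s t : ℝ) (x y : A), (T.f (a * (s • x + t • y))).re =
      s * (T.f (a * x)).re + t * (T.f (a * y)).re := by
    intro a s t x y
    rw [mul_add, mul_smul_comm, mul_smul_comm, map_add, Complex.add_re]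
    congr 1
    · rw [← Complex.coe_smul s (a * x), map_smul, smul_eq_mul, Complex.re_ofReal_mul]
    · rw [← Complex.coe_smul t (a * y), map_smul, smul_eq_mul, Complex.re_ofReal_mul]
  have hK1 : ∀ y ∈ K, (T.f (p * y)).re ≤ c := by
    have hconv : Convex ℝ {y : A | (T.f (p * y)).re ≤ c} := by
      intro x hx y hy s t hs ht hst
      show (T.f (p * (s • x + t • y))).re ≤ c
      rw [hre]
      have h1 : s * (T.f (p * x)).re ≤ s * c := mul_le_mul_of_nonneg_left hx hs
      have h2 : t * (T.f (p * y)).re ≤ t * c := mul_le_mul_of_nonneg_left hy ht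
      have h3 : s * c + t * c = c := by rw [← add_mul, hst, one_mul]
      linarith
    have hsub : G ⊆ {y : A | (T.f (p * y)).re ≤ c} := by
      rintro y ⟨u, hu, rfl⟩
      exact hcon u hu
    exact fun y hy => convexHull_min hsub hconv hy
  have hqn : q ≤ ‖q‖ • (1 : A) := by
    rw [← Algebra.algebraMap_eq_smul_one]
    exact IsSelfAdjoint.le_algebraMap_norm_self (IsSelfAdjoint.of_nonneg hq)
  have hK2 : ∀ y ∈ K, 0 ≤ y ∧ y ≤ ‖q‖ • (1 : A) := by
    have hconv : Convex ℝ (Set.Icc (0 : A) (‖q‖ • (1 : A))) := convex_Icc _ _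
    have hsub : G ⊆ Set.Icc (0 : A) (‖q‖ • (1 : A)) := by
      rintro y ⟨u, hu, rfl⟩
      refine ⟨star_right_conjugate_nonneg hq u, ?_⟩
      have h1 := star_right_conjugate_le_conjugate hqn u
      have h2 : u * ‖q‖ • (1 : A) * star u = ‖q‖ • (1 : A) := by
        rw [mul_smul_comm, mul_one, smul_mul_assoc, Unitary.mul_star_self_of_mem hu]
      rwa [h2] at h1
    exact fun y hy => convexHull_min hsub hconv hy
  have hK4 : ∀ u ∈ unitary A, ∀ y ∈ K, u * y * star u ∈ K := by
    intro u hu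
    have hconv : Convex ℝ {y : A | u * y * star u ∈ K} := by
      intro x hx y hy s t hs ht hst
      show u * (s • x + t • y) * star u ∈ K
      have : u * (s • x + t • y) * star u = s • (u * x * star u) + t • (u * y * star u) := by
        rw [mul_add, add_mul, mul_smul_comm, mul_smul_comm, smul_mul_assoc, smul_mul_assoc]
      rw [this]
      exact convex_convexHull ℝ G hx hy hs ht hst
    have hsub : G ⊆ {y : A | u * y * star u ∈ K} := by
      rintro y ⟨v, hv, rfl⟩
      refine subset_convexHull ℝ G ⟨u * v, mul_mem hu hv, ?_⟩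
      rw [star_mul]
      simp only [mul_assoc]
    exact fun y hy => convexHull_min hsub hconv hy
  have hK3 : ∀ y ∈ K, T.f y = T.f q := by
    have hconv : Convex ℝ {y : A | T.f y = T.f q} := by
      intro x hx y hy s t hs ht hst
      show T.f (s • x + t • y) = T.f q
      have hx' : T.f x = T.f q := hx
      have hy' : T.f y = T.f q := hy
      rw [map_add, ← Complex.coe_smul s x, ← Complex.coe_smul t y, map_smul, map_smul, hx', hy',
        ← add_smul, ← Complex.ofReal_add, hst, Complex.ofReal_one, one_smul]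
    have hsub : G ⊆ {y : A | T.f y = T.f q} := by
      rintro y ⟨v, hv, rfl⟩
      show T.f (v * q * star v) = T.f q
      rw [T.tr, ← mul_assoc, Unitary.star_mul_self_of_mem hv, one_mul]
    exact fun y hy => convexHull_min hsub hconv hy
  have hqK : q ∈ K := subset_convexHull ℝ G ⟨1, one_mem _, by simp⟩
  set m0 : ℝ := sInf (N2 T '' K) with hm0
  have hbdd : BddBelow (N2 T '' K) := ⟨0, by rintro _ ⟨y, _, rfl⟩; exact N2_nonneg T y⟩
  have hm : ∀ y ∈ K, m0 ≤ N2 T y := fun y hy => csInf_le hbdd ⟨y, hy, rfl⟩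
  have hpar : ∀ y ∈ K, ∀ y' ∈ K, N2 T (y - y') ≤ 2 * N2 T y + 2 * N2 T y' - 4 * m0 := by
    intro y hy y' hy'
    have h1 : (1 / 2 : ℝ) • (y + y') ∈ K := by
      have := convex_convexHull ℝ G hy hy' (a := 1 / 2) (b := 1 / 2) (by norm_num) (by norm_num)
        (by norm_num)
      rwa [← smul_add] at this
    have h2 := hm _ h1
    rw [N2_smul] at h2
    rw [N2_sub]
    nlinarith
  have hex : ∀ n : ℕ, ∃ y ∈ K, N2 T y < m0 + 1 / ((n : ℝ) + 1) := by
    intro n
    have hpos : (0 : ℝ) < 1 / ((n : ℝ) + 1) := by positivity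
    obtain ⟨_, ⟨y, hy, rfl⟩, hlt⟩ := exists_lt_of_csInf_lt (s := N2 T '' K) ⟨_, q, hqK, rfl⟩
      (show sInf (N2 T '' K) < m0 + 1 / ((n : ℝ) + 1) by rw [← hm0]; linarith)
    exact ⟨y, hy, hlt⟩
  choose y hyK hyN using hex
  have hdiff : ∀ n m : ℕ, n ≤ m → N2 T (y n - y m) ≤ 4 / ((n : ℝ) + 1) := by
    intro n m hnm
    have h1 := hpar _ (hyK n) _ (hyK m)
    have h2 := hyN n
    have h3 := hyN m
    have h4 : 1 / ((m : ℝ) + 1) ≤ 1 / ((n : ℝ) + 1) := by
      apply one_div_le_one_div_of_le (by positivity)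
      have : (n : ℝ) ≤ m := by exact_mod_cast hnm
      linarith
    have h5 : 4 / ((n : ℝ) + 1) = 4 * (1 / ((n : ℝ) + 1)) := by ring
    rw [h5]
    linarith
  -- the key estimate
  have hest : ∀ (a z : A) (r : ℝ), N2 T z ≤ r → ‖T.f (a * z)‖ ≤ Real.sqrt (N2 T (star a) * r) := by
    intro a z r hz
    apply Real.le_sqrt_of_sq_le
    have h1 := cs T (star a) z
    rw [star_star] at h1
    exact h1.trans (mul_le_mul_of_nonneg_left hz (N2_nonneg _ _))
  have hlim0 : ∀ C : ℝ, Tendsto (fun n : ℕ => Real.sqrt (C * (4 / ((n : ℝ) + 1)))) atTop (𝓝 0) := by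
    intro C
    have h1 : Tendsto (fun n : ℕ => C * (4 / ((n : ℝ) + 1))) atTop (𝓝 0) := by
      have := (tendsto_one_div_add_atTop_nhds_zero_nat (𝕜 := ℝ)).const_mul (C * 4)
      simp only [mul_zero] at this
      refine this.congr fun n => ?_
      ring
    have h2 := (Real.continuous_sqrt.tendsto 0).comp h1
    rw [Real.sqrt_zero] at h2
    exact h2
  have hCau : ∀ a : A, ∃ l : ℂ, Tendsto (fun n => T.f (a * y n)) atTop (𝓝 l) := by
    intro a
    refine cauchySeq_tendsto_of_complete ?_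
    refine cauchySeq_of_le_tendsto_0 (fun n => Real.sqrt (N2 T (star a) * (4 / ((n : ℝ) + 1))) +
      Real.sqrt (N2 T (star a) * (4 / ((n : ℝ) + 1)))) ?_ ?_
    · intro n m k hkn hkm
      have h1 : ∀ n, k ≤ n → dist (T.f (a * y n)) (T.f (a * y k)) ≤
          Real.sqrt (N2 T (star a) * (4 / ((k : ℝ) + 1))) := by
        intro n hn
        rw [dist_comm, dist_eq_norm, ← map_sub, ← mul_sub]
        exact hest _ _ _ (hdiff k n hn)
      calc dist (T.f (a * y n)) (T.f (a * y m)) ≤ dist (T.f (a * y n)) (T.f (a * y k)) +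
            dist (T.f (a * y k)) (T.f (a * y m)) := dist_triangle _ _ _
        _ ≤ _ := add_le_add (h1 n hkn) (by rw [dist_comm]; exact h1 m hkm)
    · have := (hlim0 (N2 T (star a))).add (hlim0 (N2 T (star a)))
      rwa [add_zero] at this
  choose φ hφ using hCau
  have hbound : ∀ a : A, ‖φ a‖ ≤ ‖T.f‖ * ‖q‖ * ‖a‖ := by
    intro a
    refine le_of_tendsto' (hφ a).norm fun n => ?_
    refine (T.f.le_opNorm _).trans ?_
    rw [mul_assoc]
    refine mul_le_mul_of_nonneg_left ?_ (norm_nonneg _)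
    refine (norm_mul_le _ _).trans ?_
    rw [mul_comm]
    refine mul_le_mul_of_nonneg_right ?_ (norm_nonneg _)
    obtain ⟨h0, h1⟩ := hK2 _ (hyK n)
    have h2 := CStarAlgebra.norm_le_norm_of_nonneg_of_le h0 h1
    refine h2.trans ?_
    rw [norm_smul, norm_norm]
    by_cases hA : Nontrivial A
    · rw [CStarRing.norm_one, mul_one]
    · rw [not_nontrivial_iff_subsingleton] at hA
      rw [Subsingleton.elim (1 : A) 0, norm_zero, mul_zero]
      exact norm_nonneg _
  let L : A →ₗ[ℂ] ℂ :=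
    { toFun := φ
      map_add' := fun a b => by
        refine tendsto_nhds_unique (hφ (a + b)) ?_
        have := (hφ a).add (hφ b)
        refine this.congr fun n => ?_
        rw [add_mul, map_add]
      map_smul' := fun r a => by
        refine tendsto_nhds_unique (hφ (r • a)) ?_
        have := (hφ a).const_mul r
        refine this.congr fun n => ?_
        rw [smul_mul_assoc, map_smul, smul_eq_mul] }
  have hφpos : ∀ x : A, 0 ≤ (φ (star x * x)).re ∧ (φ (star x * x)).im = 0 := by
    intro x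
    have h1 := fun n => re_mul_nonneg T (star_mul_self_nonneg x) (hK2 _ (hyK n)).1
    refine ⟨?_, ?_⟩
    · exact ge_of_tendsto' ((Complex.continuous_re.tendsto _).comp (hφ (star x * x)))
        fun n => (h1 n).1
    · have h2 := (Complex.continuous_im.tendsto _).comp (hφ (star x * x))
      refine tendsto_nhds_unique h2 ?_
      refine tendsto_const_nhds.congr fun n => ?_
      exact ((h1 n).2).symm
  have hu : ∀ u ∈ unitary A, ∀ a, L (a * u) = L (u * a) := by
    intro u hu a
    show φ (a * u) = φ (u * a)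
    have h1 : Tendsto (fun n => T.f (u * a * y n) - T.f (a * u * y n)) atTop
        (𝓝 (φ (u * a) - φ (a * u))) := (hφ _).sub (hφ _)
    have h2 : Tendsto (fun n => T.f (u * a * y n) - T.f (a * u * y n)) atTop (𝓝 0) := by
      refine squeeze_zero_norm (fun n => ?_) (hlim0 (N2 T (star (u * a))))
      have h3 : T.f (a * u * y n) = T.f (u * a * (u * y n * star u)) := by
        have e1 : u * a * (u * y n * star u) = (u * (a * u * y n)) * star u := by
          simp only [mul_assoc]
        rw [e1, T.tr (u * (a * u * y n)) (star u), ← mul_assoc, Unitary.star_mul_self_of_mem hu,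
          one_mul]
      rw [h3, ← map_sub, ← mul_sub]
      refine hest _ _ _ ?_
      have h4 := hpar _ (hyK n) _ (hK4 u hu _ (hyK n))
      have h5 : N2 T (u * y n * star u) = N2 T (y n) := by
        unfold N2
        have e2 : star (u * y n * star u) * (u * y n * star u) =
            u * (star (y n) * (star u * u) * y n) * star u := by
          rw [star_mul, star_mul, star_star]
          simp only [mul_assoc]
        rw [e2, Unitary.star_mul_self_of_mem hu, mul_one, T.tr, ← mul_assoc,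
          Unitary.star_mul_self_of_mem hu, one_mul]
      rw [h5] at h4
      have h6 := hyN n
      have h7 : 4 / ((n : ℝ) + 1) = 4 * (1 / ((n : ℝ) + 1)) := by ring
      rw [h7]
      linarith
    have h3 := tendsto_nhds_unique h1 h2
    exact (sub_eq_zero.mp h3).symm
  have htr : ∀ a b, L (a * b) = L (b * a) := by
    intro a b
    have hb : b ∈ Submodule.span ℂ (unitary A : Set A) := by
      rw [CStarAlgebra.span_unitary]
      trivial
    induction hb using Submodule.span_induction with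
    | mem x hx => exact hu x hx a
    | zero => simp
    | add x z _ _ h1 h2 => rw [mul_add, add_mul, map_add, map_add, h1, h2]
    | smul r x _ h1 => rw [mul_smul_comm, smul_mul_assoc, map_smul, map_smul, h1]
  let S : Tr A :=
    { f := L.mkContinuous (‖T.f‖ * ‖q‖) hbound
      pos := hφpos
      tr := htr }
  have hSφ : ∀ a, S.f a = φ a := fun a => rfl
  have hS1 : S.f 1 = T.f q := by
    refine tendsto_nhds_unique (hφ 1) ?_
    refine tendsto_const_nhds.congr fun n => ?_
    rw [one_mul, hK3 _ (hyK n)]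
  have hfin2 : (S.f p).re ≤ c :=
    le_of_tendsto' ((Complex.continuous_re.tendsto _).comp (hφ p)) fun n => hK1 _ (hyK n)
  exact ⟨S, hS1, hfin2⟩

end

section

variable {R : Type u} [CStarAlgebra R] [PartialOrder R] [StarOrderedRing R]

/-- exhaustion with a margin -/
theorem exh2 {ι : Type} [Finite ι] (T : ι → Tr R) (SS : Set (Tr R)) (m₀ : ℝ)
    (hgain : ∀ η : ℝ, 0 < η → ∃ c : ℝ, 0 < c ∧ ∀ a1 b1 : R, 0 ≤ a1 → 0 ≤ b1 →
      (∀ S ∈ SS, m₀ ≤ rk S b1) → ∀ i, η ≤ rk (T i) a1 →
        ∃ y : R, InL a1 y ∧ InL b1 (star y) ∧ c ≤ rk (T i) (star y * y))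
    (a b : R) (ha : 0 ≤ a) (hb : 0 ≤ b) (hab : ∀ S ∈ SS, rk S a + m₀ ≤ rk S b) (η : ℝ)
    (hη : 0 < η) :
    ∃ x : R, InL a x ∧ InL b (star x) ∧ ∀ i, rk (T i) a - η < rk (T i) (star x * x) := by
  have := Fintype.ofFinite ι
  by_contra hcon
  push Not at hcon
  obtain ⟨c, hcpos, hc⟩ := hgain η hη
  set V : Set ℝ := {v | ∃ x : R, InL a x ∧ InL b (star x) ∧ v = ∑ i, rk (T i) (star x * x)} with hV
  have hbd : BddAbove V := by
    refine ⟨∑ i, rk (T i) a, ?_⟩
    rintro v ⟨x, h1, _, rfl⟩
    exact Finset.sum_le_sum fun i _ => rk_cz _ (star_mul_self_nonneg x) ha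
      (InL.cz ha (star_mul_self_nonneg x) (h1.mul_left _))
  have hne : V.Nonempty := ⟨_, 0, InL.zero a, by rw [star_zero]; exact InL.zero b, rfl⟩
  obtain ⟨v, ⟨x, hxa, hxb, rfl⟩, hxS⟩ := exists_lt_of_lt_csSup hne
    (show sSup V - c / 2 < sSup V by linarith)
  set h : R := star x * x with hh
  have h0 : 0 ≤ h := star_mul_self_nonneg x
  set k : ℝ := (Fintype.card ι : ℝ) with hk
  have hk0 : 0 ≤ k := Nat.cast_nonneg _
  obtain ⟨ε₀, hε₀, hεc⟩ := rk_cut_fin T h0 (c / (2 * (k + 1))) (by positivity)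
  set ε : ℝ := ε₀ / 2 with hε
  have hεpos : 0 < ε := by positivity
  obtain ⟨i, hi⟩ := hcon x hxa hxb
  obtain ⟨a1, p, ha1, hp, hLa1, -, -, -, hrka, horth⟩ := cutdown a x ha hxa ε hεpos
  obtain ⟨b1, p', hb1, hp', hLb1, -, -, -, hrb', horth'⟩ := cutdown b (star x) hb hxb ε hεpos
  rw [star_star] at hrb' horth'
  have hra := hrka (T i)
  have hη1 : η ≤ rk (T i) a1 := by linarith
  have hmb : ∀ S ∈ SS, m₀ ≤ rk S b1 := by
    intro S hS
    have h1 := hrb' S
    have h2 := hab S hS
    have h3 : rk S (x * star x) ≤ rk S a := by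
      rw [← rk_swap]
      exact rk_cz S (star_mul_self_nonneg x) ha
        (InL.cz ha (star_mul_self_nonneg x) (hxa.mul_left _))
    linarith
  obtain ⟨y, hLy, hLy', hyT⟩ := hc a1 b1 ha1 hb1 hmb i hη1
  set z : R := zz (2 * ε) x with hz
  have h2ε : 0 < 2 * ε := by positivity
  have hza1 : z * a1 = 0 := by
    have h3 : a1 * cfcₙ (sf (2 * ε)) h = 0 :=
      horth _ (sf_cont h2ε) (fun t ht => sf_zero t ht)
    have h4 := congrArg star h3
    rw [star_mul, star_zero, (cfcₙ_predicate (sf (2 * ε)) h : IsSelfAdjoint _).star_eq,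
      (IsSelfAdjoint.of_nonneg ha1).star_eq] at h4
    rw [hz]
    unfold zz
    rw [mul_assoc, ← hh, h4, mul_zero]
  have hb1z : b1 * z = 0 := by
    rw [hz, zz_eq h2ε, ← mul_assoc, horth' _ (sf_cont h2ε) (fun t ht => sf_zero t ht), zero_mul]
  have hyz : star y * z = 0 := hLy'.mul_eq_zero hb1z
  have hzy : star z * y = 0 := by
    have := congrArg star hyz
    rwa [star_mul, star_star, star_zero] at this
  have hzys : z * star y = 0 := hLy.zero_mul_star (by
    rw [(IsSelfAdjoint.of_nonneg ha1).star_eq]; exact hza1)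
  have hsum : star (z + y) * (z + y) = star z * z + star y * y := by
    rw [star_add, add_mul, mul_add, mul_add, hzy, hyz, add_zero, zero_add]
  have horth2 : star z * z * (star y * y) = 0 := by
    have e : star z * z * (star y * y) = star z * (z * star y) * y := by
      simp only [mul_assoc]
    rw [e, hzys, mul_zero, zero_mul]
  have hzz : star z * z = cut (2 * ε) h := zz_star_mul h2ε x
  have hmem : ∑ i, rk (T i) (star (z + y) * (z + y)) ∈ V := by
    refine ⟨z + y, ?_, ?_, rfl⟩
    · refine InL.add ?_ (hLa1.trans hLy)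
      rw [hz, zz_eq h2ε]
      exact hxa.mul_left _
    · rw [star_add]
      refine InL.add ?_ (hLb1.trans hLy')
      rw [hz]
      unfold zz
      rw [star_mul]
      exact hxb.mul_left _
  have hle := le_csSup hbd hmem
  have hsumrk : ∀ j, rk (T j) (star (z + y) * (z + y)) = rk (T j) (cut (2 * ε) h) +
      rk (T j) (star y * y) := by
    intro j
    rw [hsum, rk_add_orth (T j) (star_mul_self_nonneg z) (star_mul_self_nonneg y) horth2, hzz]
  have hlow : ∑ j, rk (T j) h - c / 2 ≤ ∑ j, rk (T j) (cut (2 * ε) h) := by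
    have h5 : ∑ j, (rk (T j) h - c / (2 * (k + 1))) ≤ ∑ j, rk (T j) (cut (2 * ε) h) :=
      Finset.sum_le_sum fun j _ => (hεc (2 * ε) h2ε.le (by rw [hε]; linarith) j).le
    rw [Finset.sum_sub_distrib, Finset.sum_const, Finset.card_univ, nsmul_eq_mul, ← hk] at h5
    have h6 : k * (c / (2 * (k + 1))) ≤ c / 2 := by
      have : k * (c / (2 * (k + 1))) = c / 2 * (k / (k + 1)) := by
        field_simp
      rw [this]
      have h7 : k / (k + 1) ≤ 1 := by
        rw [div_le_one (by positivity)]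
        linarith
      have : c / 2 * (k / (k + 1)) ≤ c / 2 * 1 := mul_le_mul_of_nonneg_left h7 (by positivity)
      linarith
    linarith
  have hup : ∑ j, rk (T j) (cut (2 * ε) h) + c ≤ ∑ j, rk (T j) (star (z + y) * (z + y)) := by
    simp only [hsumrk, Finset.sum_add_distrib]
    have h8 : rk (T i) (star y * y) ≤ ∑ j, rk (T j) (star y * y) :=
      Finset.single_le_sum (f := fun j => rk (T j) (star y * y))
        (fun j _ => rk_nonneg (T j) (star_mul_self_nonneg y)) (Finset.mem_univ i)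
    linarith
  linarith

end

end Run7.h450

/-!
# Transfer from traces to quasitraces on the fixed point algebra
-/

set_option autoImplicit false
set_option linter.unusedSectionVars false

namespace Run7.h450

open Filter Topology
open Pool.Agent.H327R4.Pure

universe u v w

section

variable {R : Type u} [CStarAlgebra R] [PartialOrder R] [StarOrderedRing R]

/-- the zero trace -/
noncomputable def Tr.zero : Tr R where
  f := 0
  pos x := by simp
  tr x y := by simp

variable {D : Type w} [CStarAlgebra D] [PartialOrder D] [StarOrderedRing D]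

/-- the inclusion as a diagonal corner -/
noncomputable def sgHom {L : ℕ} (i : Fin L) : D →⋆ₙₐ[ℂ] Mat L D where
  toFun x := sg i i x
  map_smul' c x := sg_smul i i c x
  map_zero' := sg_zero i i
  map_add' x y := sg_add i i x y
  map_mul' x y := (sg_mul i i i x y).symm
  map_star' x := (sg_star i i x).symm

/-- every trace on a matrix algebra comes from a trace on the algebra -/
theorem exists_trM (L : ℕ) (S : Tr (Mat L D)) :
    ∃ S₀ : Tr D, ∀ x, S.f x = (trM S₀ (Fin L)).f x := by
  cases L with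
  | zero =>
    refine ⟨Tr.zero, fun x => ?_⟩
    have : x = 0 := by
      ext i
      exact i.elim0
    rw [this, map_zero, map_zero]
  | succ L =>
    refine ⟨Tr.pull (sgHom 0) S, fun x => ?_⟩
    have hd : ∀ (i k : Fin (L + 1)) (a : D), S.f (sg i i a) = S.f (sg k k a) := by
      intro i k a
      have h1 := S.tr (sg i k a) (sg k i 1)
      rwa [sg_mul, sg_mul, mul_one, one_mul] at h1
    have hoff : ∀ (i k : Fin (L + 1)) (a : D), i ≠ k → S.f (sg i k a) = 0 := by
      intro i k a hik
      have h1 := S.tr (sg i i 1) (sg i k a)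
      rwa [sg_mul, one_mul, sg_mul_ne _ _ _ _ (Ne.symm hik), map_zero] at h1
    conv_lhs => rw [mat_sum x]
    rw [map_sum, trM_apply]
    refine Finset.sum_congr rfl fun i _ => ?_
    rw [map_sum, Finset.sum_eq_single i]
    · exact hd i 0 _
    · intro k _ hk
      exact hoff i k _ (Ne.symm hk)
    · simp

/-- normalised traces on the matrix algebra -/
def SSt (L : ℕ) : Set (Tr (Mat L D)) := {S | ∃ T : Tr D, T.f 1 = 1 ∧ S = trM T (Fin L)}

theorem gain_mat (L : ℕ) {ι : Type} (T : ι → Tr (Mat L D)) (m₀ : ℝ) (hm₀ : 0 < m₀) (η : ℝ)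
    (hη : 0 < η) : ∃ c : ℝ, 0 < c ∧ ∀ a1 b1 : Mat L D, 0 ≤ a1 → 0 ≤ b1 →
      (∀ S ∈ SSt L, m₀ ≤ rk S b1) → ∀ i, η ≤ rk (T i) a1 →
        ∃ y : Mat L D, InL a1 y ∧ InL b1 (star y) ∧ c ≤ rk (T i) (star y * y) := by
  set l : ℝ := (L : ℝ) + 1 with hl
  have hl0 : 0 < l := by positivity
  refine ⟨(m₀ / 2) * (η / 2) / l / 2, by positivity, ?_⟩
  intro a1 b1 ha1 hb1 hmb i hi
  set c : ℝ := (m₀ / 2) * (η / 2) / l / 2 with hc
  have hc0 : 0 < c := by positivity
  -- Dini
  have hdini := dini' D L b1 ((((m₀ / 2 : ℝ)) : ℂ) • (1 : D)) hb1 (fun S => by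
    have h1 := hmb _ ⟨S.1, S.2, rfl⟩
    rw [map_smul, S.2, smul_eq_mul, mul_one, Complex.ofReal_re]
    linarith)
  obtain ⟨δ', hδ', hdi⟩ := hdini
  obtain ⟨δ, hδ, h1⟩ := (rk' (Mat L D) (T i) a1 ha1).2.1 (η / 2) (by positivity)
  have hphi := (ct' (Mat L D) a1 ha1).2.2.2.2.2.2.2.1 δ hδ
  have hphi' := (ct' (Mat L D) b1 hb1).2.2.2.2.2.2.2.1 δ' hδ'
  set P : Mat L D := phi δ a1 with hP
  set Q : Mat L D := phi δ' b1 with hQ
  have hP0 : 0 ≤ P := hphi.1
  have hQ0 : 0 ≤ Q := hphi'.1
  have hP1 : P ≤ 1 := (CStarAlgebra.norm_le_one_iff_of_nonneg _ hP0).mp hphi.2.1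
  have hQ1 : Q ≤ 1 := (CStarAlgebra.norm_le_one_iff_of_nonneg _ hQ0).mp hphi'.2.1
  have hQS : ∀ S : Tr D, S.f 1 = 1 → m₀ / 2 ≤ ((trM S (Fin L)).f Q).re := by
    intro S hS
    have h2 := hdi ⟨S, hS⟩
    have h3 := sand' (Mat L D) (trM S (Fin L)) b1 δ' hb1 hδ'
    rw [map_smul, hS, smul_eq_mul, mul_one, Complex.ofReal_re] at h2
    exact h2.le.trans h3
  -- averaging
  have hex : ∃ u ∈ unitary (Mat L D), c < ((T i).f (Q * (u * P * star u))).re := by
    by_contra hcon
    push Not at hcon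
    obtain ⟨S, hS1, hSQ⟩ := exists_avg (T i) Q P hP0 c hcon
    obtain ⟨S₀, hS₀⟩ := exists_trM L S
    obtain ⟨hm0, hmi⟩ := (mt' D S₀).2.1 1 zero_le_one
    set s : ℝ := (S₀.f 1).re with hs
    have hS₀1 : S₀.f 1 = (s : ℂ) := by
      apply Complex.ext
      · simp [hs]
      · simp [hmi]
    have h2 : (S.f 1).re = L * s := by
      rw [hS₀, trM_apply]
      have h3 : ∀ k : Fin L, (1 : Mat L D) k k = 1 := fun k => by
        rw [CStarMatrix.one_apply, if_pos rfl]
      simp [h3, hS₀1]
    have h3 : η / 2 ≤ L * s := by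
      rw [← h2, hS1]
      linarith
    have hs0 : 0 < s := by
      rcases hm0.eq_or_lt with h4 | h4
      · rw [← h4, mul_zero] at h3
        linarith
      · exact h4
    have h4 : (S.f Q).re = s * ((trM (Tr.scale (1 / s) (by positivity) S₀) (Fin L)).f Q).re := by
      rw [hS₀, trM_apply, trM_apply, Complex.re_sum, Complex.re_sum, Finset.mul_sum]
      refine Finset.sum_congr rfl fun k _ => ?_
      show _ = s * (((1 / s : ℝ) : ℂ) * S₀.f (Q k k)).re
      rw [Complex.re_ofReal_mul, ← mul_assoc, mul_one_div_cancel hs0.ne', one_mul]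
    have h5 := hQS (Tr.scale (1 / s) (by positivity) S₀) (by
      show ((1 / s : ℝ) : ℂ) * S₀.f 1 = 1
      rw [hS₀1, ← Complex.ofReal_mul, one_div_mul_cancel hs0.ne', Complex.ofReal_one])
    have h6 : s * (m₀ / 2) ≤ c := by
      rw [h4] at hSQ
      exact (mul_le_mul_of_nonneg_left h5 hs0.le).trans hSQ
    have h7 : η / 2 ≤ l * s := h3.trans (mul_le_mul_of_nonneg_right (by rw [hl]; linarith) hs0.le)
    have h8 : η / 2 / l ≤ s := by
      rw [div_le_iff₀ hl0]
      linarith
    have h9 : c * 2 ≤ s * (m₀ / 2) := by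
      have : c * 2 = (η / 2 / l) * (m₀ / 2) := by
        rw [hc]
        ring
      rw [this]
      exact mul_le_mul_of_nonneg_right h8 (by positivity)
    linarith
  obtain ⟨u, hu, hcu⟩ := hex
  set y : Mat L D := sq Q * u * sq P with hy
  have hLy : InL a1 y :=
    ((InL.cfcn (IsSelfAdjoint.of_nonneg ha1) _).trans (InL.sq hP0)).mul_left _
  have hLy' : InL b1 (star y) := by
    have e : star y = sq P * star u * sq Q := by
      rw [hy, star_mul, star_mul, sq_star, sq_star, mul_assoc]
    rw [e]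
    exact ((InL.cfcn (IsSelfAdjoint.of_nonneg hb1) _).trans (InL.sq hQ0)).mul_left _
  refine ⟨y, hLy, hLy', ?_⟩
  have hyy : star y * y = sq P * (star u * Q * u) * sq P := by
    have e : star y * y = sq P * (star u * (sq Q * sq Q) * u) * sq P := by
      rw [hy, star_mul, star_mul, sq_star, sq_star]
      simp only [mul_assoc]
    rw [e, sq_mul_sq hQ0]
  have h2 : star y * y ≤ 1 := by
    rw [hyy]
    have h3 : star u * Q * u ≤ 1 := by
      have := star_left_conjugate_le_conjugate hQ1 u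
      rwa [mul_one, Unitary.star_mul_self_of_mem hu] at this
    have h4 := star_right_conjugate_le_conjugate h3 (sq P)
    rw [sq_star, mul_one, sq_mul_sq hP0] at h4
    exact h4.trans hP1
  refine le_trans ?_ (tr_le_rk (T i) (star_mul_self_nonneg y) h2)
  have h5 : (T i).f (star y * y) = (T i).f (Q * (u * P * star u)) := by
    rw [hyy, mul_assoc, (T i).tr, mul_assoc, sq_mul_sq hP0, (T i).tr]
    have e1 : P * (star u * Q * u) = P * star u * (Q * u) := by simp only [mul_assoc]
    rw [e1, (T i).tr]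
    simp only [mul_assoc]
  rw [h5]
  exact hcu.le

/-- comparison up to a small element, with a margin -/
theorem uc2 (L : ℕ) {ι : Type} [Finite ι] (T : ι → Tr (Mat L D)) (m₀ : ℝ) (hm₀ : 0 < m₀)
    (a b : Mat L D) (ha : 0 ≤ a) (hb : 0 ≤ b) (hab : ∀ S ∈ SSt L, rk S a + m₀ ≤ rk S b) (η : ℝ)
    (hη : 0 < η) :
    ∃ v p w : Mat L D, 0 ≤ v ∧ 0 ≤ p ∧ 0 ≤ w ∧ InL a v ∧ InL b w ∧ a ≤ (2 : ℝ) • (p + v) ∧
      Cz p w ∧ ∀ i, rk (T i) v < η := by
  obtain ⟨x, hxa, hxb, hx⟩ := exh2 T (SSt L) m₀ (gain_mat L T m₀ hm₀) a b ha hb hab (η / 2)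
    (by positivity)
  have h0 : 0 ≤ star x * x := star_mul_self_nonneg x
  obtain ⟨ε₀, hε₀, hεc⟩ := rk_cut_fin T h0 (η / 2) (by positivity)
  obtain ⟨a1, p, ha1, hp, hLa1, hle, hcz, hrk, -, -⟩ :=
    cutdown a x ha hxa (ε₀ / 2) (by positivity)
  have hw0 : 0 ≤ x * star x := mul_star_self_nonneg x
  refine ⟨a1, p, cut (ε₀ / 2) (x * star x), ha1, hp, cut_nonneg hw0 _, hLa1, ?_, hle,
    cz_trans hcz (cut_swap (by positivity) x), fun i => ?_⟩
  · exact (hxb.mul_left x).trans (InL.cfcn (IsSelfAdjoint.of_nonneg hw0) _)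
  · have h1 := hrk (T i)
    have h2 := hεc (2 * (ε₀ / 2)) (by positivity) (by linarith) i
    have h3 := hx i
    linarith

end

section

variable {D : Type w} [CStarAlgebra D] [PartialOrder D] [StarOrderedRing D]

theorem rk_one (T : Tr D) (hT : T.f 1 = 1) (m : ℕ) : rk (trM T (Fin m)) (1 : Mat m D) = m := by
  rw [← d_ofTr T hT zero_le_one, QT.d_one]

/-- `k` orthogonal copies of `x` -/
theorem copies {m k L : ℕ} (e : Fin k → Fin m → Fin L) (he : ∀ l, Function.Injective (e l))
    (hd : ∀ l l', l ≠ l' → ∀ i i', e l i ≠ e l' i') {x : Mat m D} (hx : 0 ≤ x) :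
    0 ≤ ∑ l, emb (e l) (he l) x ∧
      (∀ T : Tr D, rk (trM T (Fin L)) (∑ l, emb (e l) (he l) x) = k * rk (trM T (Fin m)) x) ∧
      (∀ σ : QT D, σ.d (∑ l, emb (e l) (he l) x) = k * σ.d x) := by
  have h0 : ∀ l, 0 ≤ emb (e l) (he l) x := fun l =>
    hom_nonneg (R := Mat m D) (R' := Mat L D) _ hx
  have h1 : ∀ l l', l ≠ l' → emb (e l) (he l) x * emb (e l') (he l') x = 0 := fun l l' hl =>
    emb_mul_emb _ _ _ _ (hd l l' hl) x x
  refine ⟨Finset.sum_nonneg fun l _ => h0 l, fun T => ?_, fun σ => ?_⟩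
  · rw [rk_sum_orth Finset.univ _ _ h0 h1]
    simp only [rk_emb T _ _ hx, Finset.sum_const, Finset.card_univ, Fintype.card_fin, nsmul_eq_mul]
  · have h2 := qd_sum_orth (σ.quasi L) Finset.univ _ h0 h1
    rw [QT.d_eq_qd, h2]
    have h3 : ∀ l, qd (σ.val L) (emb (e l) (he l) x) = σ.d x := fun l => σ.d_emb (e l) (he l) hx
    simp only [h3, Finset.sum_const, Finset.card_univ, Fintype.card_fin, nsmul_eq_mul]

variable {A : Type u} [CStarAlgebra A] [PartialOrder A] [StarOrderedRing A]
variable {G : Type v} [Group G] [Fintype G] {α : G →* (A ≃⋆ₐ[ℂ] A)}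
variable {j : D →⋆ₐ[ℂ] A} (hj : IsFixedPointAlgebra α j)
variable {n : ℕ} (a : Fin n → A) (hfr : ∀ w, ∑ i, a i * j (EE hj (star (a i) * w)) = w)

include hfr in
/-- quasitraces of `D` are at least as large as the smallest trace on ranks -/
theorem transfer {ι : Type} [Fintype ι] {T : ι → Tr A} (hQ : QConv T) {m : ℕ} {x : Mat m D}
    (hx : 0 ≤ x) (lam : ℝ) (h : ∀ S : Tr D, S.f 1 = 1 → lam ≤ rk (trM S (Fin m)) x) (σ : QT D) :
    lam ≤ σ.d x := by
  by_contra hcon
  push Not at hcon
  obtain ⟨q, hq1, hq2⟩ := exists_rat_btwn hcon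
  have hdx := σ.d_nonneg hx
  have hq0 : (0 : ℝ) < q := lt_of_le_of_lt hdx hq1
  have hq0' : 0 < q := by exact_mod_cast hq0
  set N' : ℕ := q.den with hN'
  set M' : ℕ := q.num.toNat with hM'
  have hN0 : (0 : ℝ) < N' := by exact_mod_cast q.den_pos
  have hnum : (M' : ℤ) = q.num := Int.toNat_of_nonneg (Rat.num_nonneg.mpr hq0'.le)
  have hqe : (q : ℝ) = M' / N' := by
    have h1 : (q : ℝ) = (q.num : ℝ) / (q.den : ℝ) := by exact_mod_cast (Rat.num_div_den q).symm
    rw [h1, ← hnum]
    push_cast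
    rfl
  have h1 : N' * σ.d x < M' := by
    rw [hqe, lt_div_iff₀ hN0] at hq1
    linarith
  have h2 : (M' : ℝ) < N' * lam := by
    rw [hqe, div_lt_iff₀ hN0] at hq2
    linarith
  set L : ℕ := M' + N' * m with hL
  let e₀ : Fin M' → Fin L := Fin.castAdd (N' * m)
  have he₀ : Function.Injective e₀ := Fin.castAdd_injective _ _
  let e : Fin N' → Fin m → Fin L := fun l i => Fin.natAdd M' (ix l i)
  have he : ∀ l, Function.Injective (e l) := by
    intro l i i' hi
    exact (ix_inj (Fin.natAdd_injective _ _ hi)).2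
  have hd : ∀ l l', l ≠ l' → ∀ i i', e l i ≠ e l' i' := by
    intro l l' hl i i' hi
    exact hl (ix_inj (Fin.natAdd_injective _ _ hi)).1
  obtain ⟨hb0, hbT, hbσ⟩ := copies e he hd hx
  set b : Mat L D := ∑ l, emb (e l) (he l) x with hb
  set a' : Mat L D := emb e₀ he₀ 1 with ha'
  have ha0 : 0 ≤ a' := hom_nonneg (R := Mat M' D) (R' := Mat L D) _ zero_le_one
  have haσ : σ.d a' = M' := by rw [ha', σ.d_emb _ _ zero_le_one, σ.d_one]
  have hm₀ : 0 < N' * lam - M' := by linarith
  set η : ℝ := (M' - N' * σ.d x) / (2 * ((n : ℝ) + 1)) with hη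
  have hη0 : 0 < η := div_pos (by linarith) (by positivity)
  obtain ⟨v, p, w, hv, hp, hw, -, hLw, hle, hcz, hrv⟩ := uc2 L
    (fun i => trM (Tr.pull (jj j) (T i)) (Fin L)) (N' * lam - M') hm₀ a' b ha0 hb0 (by
      rintro S ⟨S', hS', rfl⟩
      rw [ha', rk_emb S' e₀ he₀ (zero_le_one (α := Mat M' D)), rk_one S' hS', hbT]
      have := mul_le_mul_of_nonneg_left (h S' hS') hN0.le
      linarith) η hη0
  have h3 : σ.d a' ≤ σ.d b + σ.d v := by
    refine (σ.d_mono ha0 hle).trans ?_
    refine (qd_smul_le (σ.quasi L) (add_nonneg hp hv) 2 (by norm_num)).trans ?_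
    refine (σ.d_add_le hp hv).trans ?_
    have h4 := σ.d_cz hp hw hcz
    have h5 := σ.d_cz hw hb0 (InL.cz hb0 hw hLw)
    linarith
  have h4 : σ.d v ≤ n * η := by
    have hjv : 0 ≤ ent (jj j) L v := ent_nonneg _ _ hv
    refine (σ.d_cuntz hv (hom_nonneg (rho hj a hfr L) hjv) (cuntz_rho_j hj a hfr hv)).trans ?_
    refine σ.d_rho_le hj a hfr hQ hjv η hη0.le fun i => ?_
    rw [rk_ent (jj j) (T i) L hv]
    exact (hrv i).le
  rw [haσ, hbσ] at h3
  have h5 : (n : ℝ) * η ≤ (M' - N' * σ.d x) / 2 := by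
    have : (n : ℝ) * η = (M' - N' * σ.d x) / 2 * (n / (n + 1)) := by
      rw [hη]
      field_simp
    rw [this]
    have h6 : (n : ℝ) / (n + 1) ≤ 1 := by
      rw [div_le_one (by positivity)]
      linarith
    have h7 : 0 ≤ (M' - N' * σ.d x) / 2 := by linarith
    nlinarith
  linarith

end

end Run7.h450
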