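import Pool.Agent.Run7.h450.Q6

/-!
# Elements over the fixed point algebra with almost constant rank
-/

set_option autoImplicit false
set_option linter.unusedSectionVars false

namespace Run7.h450

open Filter Topology
open Pool.Agent.H327R4.Pure

universe u v w

section

variable {A : Type u} [CStarAlgebra A] [PartialOrder A] [StarOrderedRing A]
variable {G : Type v} [Group G] [Fintype G] {α : G →* (A ≃⋆ₐ[ℂ] A)}
variable {D : Type w} [CStarAlgebra D] [PartialOrder D] [StarOrderedRing D]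
variable {j : D →⋆ₐ[ℂ] A} (hj : IsFixedPointAlgebra α j)
variable {n : ℕ} (a : Fin n → A) (hfr : ∀ w, ∑ i, a i * j (EE hj (star (a i) * w)) = w)

/-- the rank one matrix given by the coordinates of `1` -/
noncomputable def Mc : Mat n D :=
  CStarMatrix.ofMatrix fun k k' => EE hj (star (a k)) * star (EE hj (star (a k')))

theorem Mc_apply (k k' : Fin n) :
    Mc hj a k k' = EE hj (star (a k)) * star (EE hj (star (a k'))) := rfl

theorem Mc_nonneg : 0 ≤ Mc hj a := by
  set Y : Mat n D := CStarMatrix.ofMatrix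
    (fun (i k : Fin n) => if (i : ℕ) = 0 then star (EE hj (star (a k))) else 0) with hY
  have e : Mc hj a = star Y * Y := by
    ext p q
    rw [CStarMatrix.mul_apply]
    have hn : 0 < n := lt_of_le_of_lt (Nat.zero_le _) p.2
    rw [Finset.sum_eq_single (⟨0, hn⟩ : Fin n)]
    · rw [CStarMatrix.star_apply]
      simp only [hY, CStarMatrix.ofMatrix_apply, if_true, star_star, Mc_apply]
    · intro i _ hi
      have hi' : (i : ℕ) ≠ 0 := fun h0 => hi (Fin.ext h0)
      simp only [hY, CStarMatrix.ofMatrix_apply, if_neg hi', mul_zero]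
    · simp
  rw [e]
  exact star_mul_self_nonneg _

include hfr in
theorem Mc_tr (S : Tr D) (hS : S.f 1 = 1) :
    ((trM S (Fin n)).f (Mc hj a * rho1 hj a hfr 1)).re = Fintype.card G := by
  have h1 : (trM S (Fin n)).f (Mc hj a * rho1 hj a hfr 1) = S.f (EE hj 1) := by
    rw [trM_apply]
    have e1 : ∀ k, S.f ((Mc hj a * rho1 hj a hfr 1) k k) =
        ∑ k', S.f (EE hj (a k') * (EE hj (star (a k') * a k) * EE hj (star (a k)))) := by
      intro k
      rw [CStarMatrix.mul_apply, map_sum]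
      refine Finset.sum_congr rfl fun k' _ => ?_
      rw [Mc_apply, rho1_apply, mul_assoc, S.tr, mul_one, ← EE_star, star_star, mul_assoc]
    simp only [e1]
    rw [Finset.sum_comm]
    have e2 : ∀ k', ∑ k, S.f (EE hj (a k') * (EE hj (star (a k') * a k) * EE hj (star (a k)))) =
        S.f (EE hj (a k') * EE hj (star (a k'))) := by
      intro k'
      rw [← map_sum, ← Finset.mul_sum]
      congr 2
      have e3 : ∀ k, EE hj (star (a k') * a k) * EE hj (star (a k)) =
          EE hj (star (a k') * (a k * j (EE hj (star (a k) * 1)))) := by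
        intro k
        rw [mul_one, ← mul_assoc, EE_mul_j]
      simp only [e3]
      rw [← EE_sum, ← Finset.mul_sum, hfr, mul_one]
    simp only [e2]
    rw [← map_sum]
    congr 1
    conv_rhs => rw [← hfr 1]
    rw [EE_sum]
    refine Finset.sum_congr rfl fun k _ => ?_
    rw [EE_mul_j, mul_one]
  rw [h1, EE_one, tr_rsmul, hS, Complex.one_re, mul_one]

include hfr in
theorem exists_unif (hA : SimpleC A) (hinf : ¬ FiniteDimensional ℂ A) (l ε : ℝ) (hl : 0 ≤ l)
    (hε : 0 < ε) : ∃ (m : ℕ) (t : Mat m D), 0 ≤ t ∧ ∀ S : Tr D, S.f 1 = 1 →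
      l - ε ≤ rk (trM S (Fin m)) t ∧ rk (trM S (Fin m)) t ≤ l := by
  obtain ⟨N₀, hN₀⟩ := exists_nat_gt ((n : ℝ) / ε)
  have hN₀' : (0 : ℝ) < N₀ := lt_of_le_of_lt (by positivity) hN₀
  obtain ⟨c₀, hc₀, hc₀', hsm⟩ := small' A hA hinf N₀
  obtain ⟨L, y, hy⟩ := full' A hA c₀ hc₀ hc₀'
  set φ : A →⋆ₙₐ[ℂ] Mat n D := rho1 hj a hfr with hφ
  set r : Fin L → Mat n D := fun i => φ (sq c₀ * y i) with hr
  set q : ℝ := (Fintype.card G : ℝ) with hq
  have hq0 : 0 < q := by
    rw [hq]
    exact_mod_cast Fintype.card_pos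
  set g₁ : Mat n D := ∑ i, r i * Mc hj a * star (r i) with hg₁
  have hg₁0 : 0 ≤ g₁ := Finset.sum_nonneg fun i _ =>
    star_right_conjugate_nonneg (Mc_nonneg hj a) (r i)
  set g : Mat n D := (l / q) • g₁ with hg
  have hlq : 0 ≤ l / q := by positivity
  have hg0 : 0 ≤ g := smul_nonneg hlq hg₁0
  have hrr : ∑ i, star (r i) * r i = φ 1 := by
    rw [← hy, map_sum]
    refine Finset.sum_congr rfl fun i _ => ?_
    rw [hr]
    simp only
    rw [← map_star, ← map_mul, star_mul, sq_star]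
    congr 1
    calc star (y i) * sq c₀ * (sq c₀ * y i) = star (y i) * (sq c₀ * sq c₀) * y i := by
          simp only [mul_assoc]
      _ = _ := by rw [sq_mul_sq hc₀]
  have htr : ∀ S : Tr D, S.f 1 = 1 → ((trM S (Fin n)).f g).re = l := by
    intro S hS
    have h1 : (trM S (Fin n)).f g₁ = (trM S (Fin n)).f (Mc hj a * φ 1) := by
      rw [hg₁, map_sum, ← hrr, Finset.mul_sum, map_sum]
      refine Finset.sum_congr rfl fun i _ => ?_
      rw [mul_assoc, (trM S (Fin n)).tr, mul_assoc]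
    have h2 : ((trM S (Fin n)).f g).re = (l / q) * ((trM S (Fin n)).f g₁).re :=
      tr_rsmul (trM S (Fin n)) _ _
    rw [h2, h1, Mc_tr hj a hfr S hS, ← hq]
    field_simp
  have hL1 : InL (φ c₀) (φ (sq c₀)) := (InL.sq hc₀).map φ
  have hLg : InL (φ c₀) g := by
    refine InL.rsmul (InL.sum _ fun i => ?_) _
    have e : star (r i) = φ (star (y i)) * φ (sq c₀) := by
      rw [hr]
      simp only
      rw [← map_star, star_mul, sq_star, map_mul]
    rw [e]
    exact (hL1.mul_left _).mul_left _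
  have hφc : 0 ≤ φ c₀ := hom_nonneg φ hc₀
  have hrkg : ∀ S : Tr D, S.f 1 = 1 → rk (trM S (Fin n)) g ≤ ε := by
    intro S hS
    refine (rk_cz _ hg0 hφc (InL.cz hφc hg0 hLg)).trans ?_
    rw [← rk_pull φ (trM S (Fin n)) hc₀]
    have h1 := hsm (Tr.pull φ (trM S (Fin n)))
    have h2 := mass_tr hj a hfr S hS
    have h3 : (N₀ : ℝ) * rk (Tr.pull φ (trM S (Fin n))) c₀ ≤ n := h1.trans h2
    rw [div_lt_iff₀ hε] at hN₀
    have h4 : (N₀ : ℝ) * rk (Tr.pull φ (trM S (Fin n))) c₀ ≤ N₀ * ε := h3.trans hN₀.le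
    exact le_of_mul_le_mul_left h4 hN₀'
  obtain ⟨K, hK⟩ := exists_nat_ge ‖g‖
  let e : Fin K → Fin n → Fin (K * n) := fun i k => ix i k
  have he : ∀ i, Function.Injective (e i) := fun i k k' h => (ix_inj h).2
  have hcut : ∀ i : Fin K, 0 ≤ cut (((i : ℕ) : ℝ) + 1) g := fun i => cut_nonneg hg0 _
  have h0 : ∀ i : Fin K, 0 ≤ emb (e i) (he i) (cut (((i : ℕ) : ℝ) + 1) g) := fun i =>
    hom_nonneg (R := Mat n D) (R' := Mat (K * n) D) _ (hcut i)
  have h1 : ∀ i i' : Fin K, i ≠ i' → emb (e i) (he i) (cut (((i : ℕ) : ℝ) + 1) g) *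
      emb (e i') (he i') (cut (((i' : ℕ) : ℝ) + 1) g) = 0 := fun i i' hi =>
    emb_mul_emb _ _ _ _ (fun k k' h => hi (ix_inj h).1) _ _
  refine ⟨K * n, ∑ i, emb (e i) (he i) (cut (((i : ℕ) : ℝ) + 1) g),
    Finset.sum_nonneg fun i _ => h0 i, fun S hS => ?_⟩
  have h2 : rk (trM S (Fin (K * n))) (∑ i, emb (e i) (he i) (cut (((i : ℕ) : ℝ) + 1) g)) =
      ∑ i ∈ Finset.range K, rk (trM S (Fin n)) (cut ((i : ℝ) + 1) g) := by
    rw [rk_sum_orth Finset.univ _ _ h0 h1, Finset.sum_range]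
    exact Finset.sum_congr rfl fun i _ => rk_emb S _ _ (hcut i)
  obtain ⟨h3, h4⟩ := cake' (Mat n D) (trM S (Fin n)) g K hg0 hK
  rw [h2]
  rw [htr S hS] at h3 h4
  have h5 := hrkg S hS
  exact ⟨by linarith, h3⟩

end

end Run7.h450

/-!
# The fixed point algebra inequality
-/

set_option autoImplicit false
set_option linter.unusedSectionVars false

namespace Run7.h450

open Filter Topology
open Pool.Agent.H327R4.Pure
open scoped ENNReal NNReal

universe u v w

section

variable {A : Type u} [CStarAlgebra A] [PartialOrder A] [StarOrderedRing A]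
variable {G : Type v} [Group G] [Fintype G] {α : G →* (A ≃⋆ₐ[ℂ] A)}
variable {D : Type w} [CStarAlgebra D] [PartialOrder D] [StarOrderedRing D]
variable {j : D →⋆ₐ[ℂ] A} (hj : IsFixedPointAlgebra α j)
variable {m N : ℕ} (e : Fin m → Fin N) (he : Function.Injective e)

/-- the inclusion `M_m(D) → M_N(A)` -/
noncomputable def fpsi : Mat m D →⋆ₙₐ[ℂ] Mat N A :=
  NonUnitalStarAlgHom.comp (emb e he) (ent (jj j) m)

theorem fpsi_apply (x : Mat m D) : fpsi (j := j) e he x = emb e he (ent (jj j) m x) := rfl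

theorem fpsi_one : fpsi (j := j) e he 1 = emb e he 1 := by
  rw [fpsi_apply, ent_one (jj j) (jj_one (j := j))]

/-- `v ↦ (E(v_ik))` -/
noncomputable def fF (v : Mat N A) : Mat m D :=
  CStarMatrix.ofMatrix fun i k => EE hj (v (e i) (e k))

theorem ent_fF (v : Mat N A) :
    ent (jj j) m (fF hj e v) = ∑ g, ent (act α g) m (cor e v) := by
  ext i k
  rw [cm_sum_apply]
  show j (EE hj (v (e i) (e k))) = _
  rw [j_EE]
  rfl

include hj in
theorem ent_jj_injective : Function.Injective (ent (jj j) m) := by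
  intro x y hxy
  ext p q
  exact jj_injective hj (congrFun (congrFun hxy p) q)

include he in
theorem fF_nonneg {v : Mat N A} (hv : 0 ≤ v) : 0 ≤ fF hj e v := by
  refine ISO.refl (ent (jj j) m) (ent_jj_injective hj) _ ?_
  rw [ent_fF]
  exact Finset.sum_nonneg fun g _ => ent_nonneg _ _ (cor_nonneg e he hv)

theorem fF_le {v : Mat N A} (hv : 0 ≤ v) (hL : InL (fpsi (j := j) e he 1) v) :
    v ≤ (1 : ℝ) • fpsi (j := j) e he (fF hj e v) := by
  rw [one_smul, fpsi_apply, ent_fF]
  rw [fpsi_one] at hL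
  have hPs : star (emb (A := A) e he 1) = emb e he 1 := emb_one_star e he
  have hPP : emb (A := A) e he 1 * emb e he 1 = emb e he 1 := by rw [← map_mul, one_mul]
  have h1 := inL_proj hPs hPP (IsSelfAdjoint.of_nonneg hv).star_eq hL
  rw [← emb_cor] at h1
  conv_lhs => rw [← h1]
  refine hom_mono _ ?_
  have h2 : cor e v = ent (act α 1) m (cor e v) := by
    ext i k
    rw [ent_apply, act_apply, map_one]
    rfl
  conv_lhs => rw [h2]
  exact Finset.single_le_sum (f := fun g => ent (act α g) m (cor e v))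
    (fun g _ => ent_nonneg _ _ (cor_nonneg e he hv)) (Finset.mem_univ 1)

include he in
theorem ent_fF_rk {ι : Type} [Fintype ι] {T : ι → Tr A} (hT : Conv T)
    (hT1 : ∀ i, (T i).f 1 = 1) {v : Mat N A} (hv : 0 ≤ v) (η : ℝ)
    (h : ∀ i, rk (trM (T i) (Fin N)) v < η) (i : ι) :
    rk (trM (T i) (Fin m)) (ent (jj j) m (fF hj e v)) ≤ Fintype.card G * η := by
  rw [ent_fF]
  refine (rk_sum_le Finset.univ _ _ fun g => ent_nonneg _ _ (cor_nonneg e he hv)).trans ?_
  calc ∑ g, rk (trM (T i) (Fin m)) (ent (act α g) m (cor e v))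
      ≤ ∑ _g : G, η := by
        refine Finset.sum_le_sum fun g _ => ?_
        rw [rk_ent _ _ _ (cor_nonneg e he hv)]
        refine rk_conv_le hT _ (pull_one α _ _ (hT1 i)) (cor_nonneg e he hv) η
          fun k => ?_
        exact (rk_cor_le (T k) _ he hv).trans (h k).le
    _ = Fintype.card G * η := by
        rw [Finset.sum_const, Finset.card_univ, nsmul_eq_mul]

include hj in
theorem fix_comparison {ι : Type} [Fintype ι] (hA : SimpleC A) (hinf : ¬ FiniteDimensional ℂ A)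
    (T : ι → Tr A) (hT1 : ∀ i, (T i).f 1 = 1) (hExt : ∀ i, Ext (T i)) (hQ : QConv T)
    (r : ℝ) (hr : 0 ≤ r) (hD : Comparison D r) (r' : ℝ) (hr' : r < r') : Comparison A r' := by
  obtain ⟨n, fr, hfr⟩ := exists_frame hj hA
  intro n₁ n₂ a b ha hb hab
  set l : ℝ := (r + r') / 2 with hl
  set ε : ℝ := (l - r) / ((n : ℝ) + 4) with hε
  have hlr : r < l := by rw [hl]; linarith
  have hlr' : l < r' := by rw [hl]; linarith
  have hε0 : 0 < ε := div_pos (by linarith) (by positivity)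
  have hεn : (n + 4) * ε = l - r := by
    rw [hε]
    field_simp
  obtain ⟨m, t, ht, htl⟩ := exists_unif hj fr hfr hA hinf l ε (by linarith) hε0
  obtain ⟨δ, hδ0, hδ⟩ := dini' D m t ((((l - 2 * ε : ℝ)) : ℂ) • (1 : D)) ht (fun S => by
    have h1 := (htl S.1 S.2).1
    rw [map_smul, S.2, smul_eq_mul, mul_one, Complex.ofReal_re]
    linarith)
  set N : ℕ := n₁ + n₂ + m with hN
  have hn₁ : n₁ ≤ N := by omega
  have hn₂ : n₂ ≤ N := by omega
  have hm : m ≤ N := by omega
  refine cuntz_of_cz (Fin.castLE hn₁) (Fin.castLE_injective hn₁) (Fin.castLE hn₂)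
    (Fin.castLE_injective hn₂) ?_
  have ha' : 0 ≤ emb (Fin.castLE hn₁) (Fin.castLE_injective hn₁) a :=
    hom_nonneg (R := Mat n₁ A) (R' := Mat N A) _ ha
  have hb' : 0 ≤ emb (Fin.castLE hn₂) (Fin.castLE_injective hn₂) b :=
    hom_nonneg (R := Mat n₂ A) (R' := Mat N A) _ hb
  set e : Fin m → Fin N := Fin.castLE hm with he'
  have he : Function.Injective e := Fin.castLE_injective hm
  refine assemble (R := Mat N A) (C := Mat m D) (fun i => trM (T i) (Fin N))
    (fun i => avg_mat (T i) (hExt i) N) (fpsi (j := j) e he) (fF hj e) 1 zero_le_one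
    (fun v hv => fF_nonneg hj e he hv) (fun v hv hL => fF_le hj e he hv hL)
    (SSt m) (n * Fintype.card G) (by positivity) ?_ _ _ ha' hb' t ht ?_ (r + n * ε) ε δ hε0 hδ0
    ?_ ?_
  · rintro v hv η h S ⟨S', hS', rfl⟩
    have hex : ∃ i : ι, True := by
      obtain ⟨c, hc0, hc1, -⟩ := hQ ((QT.ofTr S' hS').pullRho hj fr hfr)
      by_contra hcon
      push Not at hcon
      have : ∑ i, c i = 0 := Finset.sum_eq_zero fun i _ => (hcon i).elim
      rw [hc1] at this
      exact one_ne_zero this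
    obtain ⟨i₀, -⟩ := hex
    have hη : 0 ≤ η := (rk_nonneg _ hv).trans (h i₀).le
    have hF0 := fF_nonneg hj e he hv
    have hjF : 0 ≤ ent (jj j) m (fF hj e v) := ent_nonneg _ _ hF0
    refine (rk_cuntz S' hF0 (hom_nonneg (rho hj fr hfr m) hjF)
      (cuntz_rho_j hj fr hfr hF0)).trans ?_
    refine (rk_rho_le hj fr hfr hQ.conv S' hS' hjF (Fintype.card G * η) (by positivity)
      fun i => ent_fF_rk hj e he hQ.conv hT1 hv η h i).trans (le_of_eq (by ring))
  · intro i
    have h1 := hab (QT.ofTr (T i) (hT1 i))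
    rw [d_ofTr _ _ ha, d_ofTr _ _ hb] at h1
    have h2 : rk (trM (T i) (Fin N)) (fpsi (j := j) e he t) ≤ l := by
      rw [fpsi_apply, rk_emb _ _ _ (ent_nonneg _ _ ht), rk_ent _ _ _ ht]
      exact (htl (Tr.pull (jj j) (T i)) (by rw [Tr.pull_apply, jj_one, hT1 i])).2
    rw [rk_emb_le hn₁ (T i) ha, rk_emb_le hn₂ (T i) hb]
    linarith
  · rintro S ⟨S', hS', rfl⟩
    have h1 := hδ ⟨S', hS'⟩
    rw [map_smul, hS', smul_eq_mul, mul_one, Complex.ofReal_re] at h1
    have h2 : (r + n * ε) + 2 * ε = l - 2 * ε := by linarith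
    rw [h2]
    exact h1.le
  · intro t1 ht1 hrt1 s hs hrs
    have h1 : Cuntz (rho hj fr hfr N s) t1 := by
      refine hD _ _ _ _ (hom_nonneg (rho hj fr hfr N) hs) ht1 fun σ => ?_
      have h2 : σ.d (rho hj fr hfr N s) ≤ n * ε :=
        σ.d_rho_le hj fr hfr hQ hs ε hε0.le fun i => (hrs i).le
      have h3 : r + n * ε + ε ≤ σ.d t1 :=
        transfer hj fr hfr hQ ht1 _ (fun S hS => hrt1 _ ⟨S, hS, rfl⟩) σ
      linarith
    have h2 : Cuntz s (ent (jj j) m t1) :=
      cuntz_trans (cuntz_rho hj fr hfr hs) (cuntz_map (jj j) h1)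
    rw [fpsi_apply]
    exact cz_of_cuntz_right e he h2

include hj in
/-- `rc(A) ≤ rc(A^α)` -/
theorem fix_final (hA : SimpleCStar A) (hinf : ¬ FiniteDimensional ℂ A)
    (hT : FinitelyManyTraces A) : rc A ≤ rc D := by
  obtain ⟨ι, _, T, hT1, hExt, hQ⟩ := exists_ext hT
  have h1 := rc_le_of (A := A) (B := D) 1 one_ne_zero (fun r hr r' hr' =>
      fix_comparison hj (simpleC_of hA) hinf T hT1 hExt hQ r r.2 hr r' (by
        rw [one_mul] at hr'
        exact_mod_cast hr'))
  simpa using h1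

end

end Run7.h450
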