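import Mathlib

/-!
# Sections over the circle of open sets whose fibres are connected by segments up to a phase
-/

set_option autoImplicit false
set_option linter.unusedSectionVars false

namespace Run7.h450.Dyn

open Filter Topology

universe u v

section

variable {M : Type u} [NormedAddCommGroup M] [NormedSpace ℂ M]

/-- one step of the extension -/
theorem glue_step {Q : ℝ → M → Prop} (hopen : IsOpen {z : ℝ × M | Q z.1 z.2})
    (hseg : ∀ t x y, Q t x → Q t y → ∃ c : ℂ, ‖c‖ = 1 ∧ ∀ s ∈ Set.Icc (0 : ℝ) 1,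
      Q t (((1 - s : ℝ) : ℂ) • x + ((s : ℝ) : ℂ) • c • y))
    {x : ℝ → M} (hx : Continuous x) (y : M) (τ : ℝ) (h1 : Q τ (x τ)) (h2 : Q τ y) (ε₀ : ℝ)
    (hε₀ : 0 < ε₀) :
    ∃ (c : ℂ) (x' : ℝ → M), ‖c‖ = 1 ∧ Continuous x' ∧ (∀ t, t ≤ τ - ε₀ → x' t = x t) ∧
      (∀ t, τ ≤ t → x' t = c • y) ∧
      ∀ t, t ≤ τ → (Q t (x t)) → Q t (x' t) := by
  obtain ⟨c, hc, hseg⟩ := hseg τ (x τ) y h1 h2
  have htube : ∀ᶠ t in 𝓝 τ, ∀ s ∈ Set.Icc (0 : ℝ) 1,
      Q t (((1 - s : ℝ) : ℂ) • x t + ((s : ℝ) : ℂ) • c • y) := by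
    refine isCompact_Icc.eventually_forall_of_forall_eventually
      (P := fun t s => Q t (((1 - s : ℝ) : ℂ) • x t + ((s : ℝ) : ℂ) • c • y)) fun s hs => ?_
    have hcont : Continuous fun z : ℝ × ℝ =>
        ((z.1, ((1 - z.2 : ℝ) : ℂ) • x z.1 + ((z.2 : ℝ) : ℂ) • c • y) : ℝ × M) := by
      fun_prop
    exact (hopen.preimage hcont).mem_nhds (hseg s hs)
  obtain ⟨ε, hε, hball⟩ := Metric.eventually_nhds_iff.mp htube
  set η : ℝ := min ε₀ (ε / 2) with hη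
  have hη0 : 0 < η := lt_min hε₀ (by positivity)
  have hη1 : η ≤ ε₀ := min_le_left _ _
  have hη2 : η ≤ ε / 2 := min_le_right _ _
  set s : ℝ → ℝ := fun t => max 0 (min 1 ((t - τ + η) / η)) with hs
  have hsc : Continuous s := by rw [hs]; fun_prop
  have hs01 : ∀ t, s t ∈ Set.Icc (0 : ℝ) 1 := fun t =>
    ⟨le_max_left _ _, max_le zero_le_one (min_le_left _ _)⟩
  have hs0 : ∀ t, t ≤ τ - η → s t = 0 := by
    intro t ht
    refine max_eq_left ((min_le_right _ _).trans ?_)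
    exact div_nonpos_of_nonpos_of_nonneg (by linarith) hη0.le
  have hs1 : ∀ t, τ ≤ t → s t = 1 := by
    intro t ht
    have h3 : 1 ≤ (t - τ + η) / η := by
      rw [le_div_iff₀ hη0]
      linarith
    show max 0 (min 1 ((t - τ + η) / η)) = 1
    rw [min_eq_left h3]
    exact max_eq_right zero_le_one
  refine ⟨c, fun t => ((1 - s t : ℝ) : ℂ) • x t + ((s t : ℝ) : ℂ) • c • y, hc, by fun_prop,
    fun t ht => ?_, fun t ht => ?_, fun t ht hq => ?_⟩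
  · show ((1 - s t : ℝ) : ℂ) • x t + ((s t : ℝ) : ℂ) • c • y = x t
    rw [hs0 t (by linarith)]
    simp
  · show ((1 - s t : ℝ) : ℂ) • x t + ((s t : ℝ) : ℂ) • c • y = c • y
    rw [hs1 t ht]
    simp
  · by_cases htη : t ≤ τ - η
    · show Q t (((1 - s t : ℝ) : ℂ) • x t + ((s t : ℝ) : ℂ) • c • y)
      rw [hs0 t htη]
      simpa using hq
    · push Not at htη
      refine hball ?_ (s t) (hs01 t)
      rw [Real.dist_eq, abs_lt]
      constructor <;> linarith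

/-- sections over intervals -/
theorem glue_interval {Q : ℝ → M → Prop} (hopen : IsOpen {z : ℝ × M | Q z.1 z.2})
    (hne : ∀ t, ∃ x, Q t x)
    (hseg : ∀ t x y, Q t x → Q t y → ∃ c : ℂ, ‖c‖ = 1 ∧ ∀ s ∈ Set.Icc (0 : ℝ) 1,
      Q t (((1 - s : ℝ) : ℂ) • x + ((s : ℝ) : ℂ) • c • y))
    (hph : ∀ t x (c : ℂ), ‖c‖ = 1 → Q t x → Q t (c • x)) (p : ℝ) :
    ∃ x : ℝ → M, Continuous x ∧ ∀ t ∈ Set.Icc 0 p, Q t (x t) := by
  set S : Set ℝ := {τ | ∃ x : ℝ → M, Continuous x ∧ ∀ t ∈ Set.Icc 0 τ, Q t (x t)} with hS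
  have hdown : ∀ τ τ', τ' ≤ τ → τ ∈ S → τ' ∈ S := by
    rintro τ τ' hle ⟨x, hx, hq⟩
    exact ⟨x, hx, fun t ht => hq t ⟨ht.1, ht.2.trans hle⟩⟩
  have h0 : (0 : ℝ) ∈ S := by
    obtain ⟨x, hx⟩ := hne 0
    refine ⟨fun _ => x, continuous_const, fun t ht => ?_⟩
    have : t = 0 := le_antisymm ht.2 ht.1
    rw [this]
    exact hx
  by_contra hp
  have hbdd : BddAbove S := by
    refine ⟨p, fun τ hτ => ?_⟩
    by_contra hlt
    push Not at hlt
    exact hp (hdown τ p hlt.le hτ)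
  set τ₀ : ℝ := sSup S with hτ₀
  obtain ⟨y, hy⟩ := hne τ₀
  have hyo : ∀ᶠ t in 𝓝 τ₀, Q t y := by
    have hcont : Continuous fun t : ℝ => ((t, y) : ℝ × M) := by fun_prop
    exact (hopen.preimage hcont).mem_nhds hy
  obtain ⟨δ, hδ, hball⟩ := Metric.eventually_nhds_iff.mp hyo
  obtain ⟨τ, hτS, hτ⟩ : ∃ τ ∈ S, max 0 (τ₀ - δ) ≤ τ ∧ τ₀ - δ < τ := by
    by_cases hcase : τ₀ - δ < 0
    · exact ⟨0, h0, by rw [max_eq_left hcase.le], hcase⟩
    · push Not at hcase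
      obtain ⟨τ, hτS, hτ⟩ := exists_lt_of_lt_csSup ⟨0, h0⟩ (show τ₀ - δ < sSup S by
        rw [← hτ₀]
        linarith)
      exact ⟨τ, hτS, by rw [max_eq_right hcase]; exact hτ.le, hτ⟩
  have hττ₀ : τ ≤ τ₀ := le_csSup hbdd hτS
  have hτ0 : 0 ≤ τ := (le_max_left _ _).trans hτ.1
  obtain ⟨x, hx, hq⟩ := hτS
  obtain ⟨c, x', hc, hx', -, hx2, hx3⟩ := glue_step hopen hseg hx y τ (hq τ ⟨hτ0, le_rfl⟩)
    (hball (by rw [Real.dist_eq, abs_lt]; constructor <;> linarith)) 1 one_pos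
  have hmem : τ₀ + δ / 2 ∈ S := by
    refine ⟨x', hx', fun t ht => ?_⟩
    by_cases htτ : t ≤ τ
    · exact hx3 t htτ (hq t ⟨ht.1, htτ⟩)
    · push Not at htτ
      rw [hx2 t htτ.le]
      refine hph t y c hc (hball ?_)
      rw [Real.dist_eq, abs_lt]
      have := ht.2
      constructor <;> linarith
  have := le_csSup hbdd hmem
  linarith

/-- sections over the circle -/
theorem glue_circle (p : ℝ) [hp : Fact (0 < p)] (P : AddCircle p → M → Prop)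
    (hopen : IsOpen {z : AddCircle p × M | P z.1 z.2}) (hne : ∀ t, ∃ x, P t x)
    (hseg : ∀ t x y, P t x → P t y → ∃ c : ℂ, ‖c‖ = 1 ∧ ∀ s ∈ Set.Icc (0 : ℝ) 1,
      P t (((1 - s : ℝ) : ℂ) • x + ((s : ℝ) : ℂ) • c • y))
    (hph : ∀ t x (c : ℂ), ‖c‖ = 1 → P t x → P t (c • x)) :
    ∃ x : C(AddCircle p, M), ∀ t, P t (x t) := by
  have hp0 : 0 < p := hp.out
  set Q : ℝ → M → Prop := fun t x => P (t : AddCircle p) x with hQ
  have hQo : IsOpen {z : ℝ × M | Q z.1 z.2} := by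
    have hcont : Continuous fun z : ℝ × M => (((z.1 : AddCircle p), z.2) : AddCircle p × M) :=
      ((AddCircle.continuous_mk' p).comp continuous_fst).prodMk continuous_snd
    exact hopen.preimage hcont
  have hQseg : ∀ t x y, Q t x → Q t y → ∃ c : ℂ, ‖c‖ = 1 ∧ ∀ s ∈ Set.Icc (0 : ℝ) 1,
      Q t (((1 - s : ℝ) : ℂ) • x + ((s : ℝ) : ℂ) • c • y) := fun t x y => hseg _ x y
  have hQph : ∀ t x (c : ℂ), ‖c‖ = 1 → Q t x → Q t (c • x) := fun t x c => hph _ x c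
  obtain ⟨x, hx, hq⟩ := glue_interval hQo (fun t => hne _) hQseg hQph p
  have hper : ((p : ℝ) : AddCircle p) = ((0 : ℝ) : AddCircle p) := by
    rw [AddCircle.coe_period]
    rfl
  have hq0 : Q 0 (x 0) := hq 0 ⟨le_rfl, hp0.le⟩
  have hqp : Q p (x 0) := by
    show P ((p : ℝ) : AddCircle p) (x 0)
    rw [hper]
    exact hq0
  obtain ⟨c, x', hc, hx', hx1, hx2, hx3⟩ := glue_step hQo hQseg hx (x 0) p
    (hq p ⟨hp0.le, le_rfl⟩) hqp p hp0
  -- untwist the phase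
  obtain ⟨θ, hθ⟩ : ∃ θ : ℝ, Complex.exp (θ * Complex.I) = c :=
    (Complex.norm_eq_one_iff c).mp hc
  set x'' : ℝ → M := fun t => Complex.exp ((-(θ * t / p) : ℝ) * Complex.I) • x' t with hx''
  have hnorm : ∀ t : ℝ, ‖Complex.exp ((-(θ * t / p) : ℝ) * Complex.I)‖ = 1 := fun t =>
    Complex.norm_exp_ofReal_mul_I _
  have hx''c : Continuous x'' := by
    rw [hx'']
    fun_prop
  have hends : x'' 0 = x'' p := by
    rw [hx'']
    show Complex.exp ((-(θ * 0 / p) : ℝ) * Complex.I) • x' 0 =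
      Complex.exp ((-(θ * p / p) : ℝ) * Complex.I) • x' p
    rw [hx1 0 (by linarith), hx2 p le_rfl, smul_smul, ← hθ, ← Complex.exp_add]
    have e1 : (-(θ * p / p) : ℝ) = -θ := by
      rw [mul_div_assoc, div_self hp0.ne', mul_one]
    rw [e1, mul_zero, zero_div, neg_zero]
    have e2 : ((-θ : ℝ) : ℂ) * Complex.I + (θ : ℂ) * Complex.I = 0 := by
      push_cast
      ring
    rw [e2]
    simp
  refine ⟨⟨AddCircle.liftIco p 0 x'',
    AddCircle.liftIco_zero_continuous hends hx''c.continuousOn⟩, fun t => ?_⟩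
  obtain ⟨u, rfl⟩ : ∃ u : Set.Ico (0 : ℝ) (0 + p), ((u : ℝ) : AddCircle p) = t :=
    ⟨AddCircle.equivIco p 0 t, (AddCircle.equivIco p 0).symm_apply_apply t⟩
  have hu : (u : ℝ) ∈ Set.Ico (0 : ℝ) p := ⟨u.2.1, by
    have := u.2.2
    linarith⟩
  show P _ (AddCircle.liftIco p 0 x'' ((u : ℝ) : AddCircle p))
  rw [AddCircle.liftIco_zero_coe_apply hu]
  exact hQph _ _ _ (hnorm _) (hx3 _ hu.2.le (hq _ ⟨hu.1, hu.2.le⟩))

end

end Run7.h450.Dyn
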