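import Pool.Agent.Run7.h450.Z10
import Pool.Agent.Run7.h450.W1

/-!
# Segments of local solutions
-/

set_option autoImplicit false
set_option linter.unusedSectionVars false

namespace Run7.h450.Dyn

open Filter Topology
open Pool.Agent.H327R4.Pure

universe u v w

section

variable {R : Type v} [CStarAlgebra R] [PartialOrder R] [StarOrderedRing R]

theorem unit_of_ge {y : R} {c : ℝ} (hc : 0 < c) (h : c • (1 : R) ≤ y) : IsUnit y := by
  rw [← Algebra.algebraMap_eq_smul_one] at h
  exact CStarAlgebra.isUnit_of_le _ h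

theorem ge_of_unit {y : R} (hy : 0 ≤ y) (hu : IsUnit y) : ∃ c : ℝ, 0 < c ∧ c • (1 : R) ≤ y := by
  rcases subsingleton_or_nontrivial R with hR | hR
  · exact ⟨1, one_pos, le_of_eq (Subsingleton.elim _ _)⟩
  · have h1 : ∀ x ∈ spectrum ℝ y, 0 < x := by
      intro x hx
      refine lt_of_le_of_ne (spectrum_nonneg_of_nonneg hy hx) ?_
      rintro rfl
      exact spectrum.zero_notMem ℝ hu hx
    obtain ⟨r, hr, hle⟩ := (CFC.exists_pos_algebraMap_le_iff
      (ha := IsSelfAdjoint.of_nonneg hy)).mpr h1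
    exact ⟨r, hr, by rwa [Algebra.algebraMap_eq_smul_one] at hle⟩

theorem par_le (p q : R) :
    star (p + q) * (p + q) ≤ (2 : ℝ) • (star p * p + star q * q) := by
  have h0 := star_mul_self_nonneg (p - q)
  rw [← sub_nonneg]
  refine le_trans h0 (le_of_eq ?_)
  rw [two_smul, star_sub, star_add]
  noncomm_ring

theorem infinite_circle : Infinite Circle := by
  have : Infinite (Set.Icc (0 : ℝ) 1) := (Set.Icc_infinite one_pos).to_subtype
  refine Infinite.of_injective (fun x : Set.Icc (0 : ℝ) 1 => Circle.exp x) fun x y hxy => ?_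
  have hpi := Real.pi_gt_three
  have h1 : ∀ x : Set.Icc (0 : ℝ) 1, Complex.arg (Circle.exp x) = x := fun x =>
    Circle.arg_exp (by have := x.2.1; linarith) (by have := x.2.2; linarith)
  have h2 : Circle.exp x = Circle.exp y := hxy
  refine Subtype.ext ?_
  rw [← h1 x, ← h1 y, h2]

/-- a phase which avoids a finite set of rays -/
theorem exists_phase {F : Set ℂ} (hF : F.Finite) :
    ∃ c : ℂ, ‖c‖ = 1 ∧ ∀ r : ℝ, 0 < r → (r : ℂ) * star c ∉ F := by
  classical
  have hG : ((fun z : ℂ => z / ‖z‖) '' F).Finite := hF.image _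
  have hinf : (Set.range fun z : Circle => (z : ℂ)).Infinite :=
    haveI := infinite_circle
    Set.infinite_range_of_injective Circle.coe_injective
  obtain ⟨_, ⟨z, rfl⟩, hz⟩ := (hinf.sdiff hG).nonempty
  refine ⟨star (z : ℂ), by rw [norm_star]; exact Circle.norm_coe z, fun r hr hmem => hz ?_⟩
  rw [star_star] at hmem
  refine ⟨_, hmem, ?_⟩
  show (r : ℂ) * (z : ℂ) / ‖(r : ℂ) * (z : ℂ)‖ = (z : ℂ)
  rw [norm_mul, Circle.norm_coe, mul_one, Complex.norm_real, Real.norm_of_nonneg hr.le]
  have : (r : ℂ) ≠ 0 := by exact_mod_cast hr.ne'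
  field_simp

/-- segments of solutions, up to a phase -/
theorem seg_unit {x y b k : R} (hb : 0 ≤ b) (hk : 0 ≤ k) (hx : IsUnit (x * b * star x + k))
    (hy : IsUnit (y * b * star y + k)) (hfin : ∀ z : R, (spectrum ℂ z).Finite) :
    ∃ c : ℂ, ‖c‖ = 1 ∧ ∀ s ∈ Set.Icc (0 : ℝ) 1,
      IsUnit ((((1 - s : ℝ) : ℂ) • x + ((s : ℝ) : ℂ) • c • y) * b *
        star (((1 - s : ℝ) : ℂ) • x + ((s : ℝ) : ℂ) • c • y) + k) := by
  set D : R := y * b * star y + k with hD
  obtain ⟨Di, hDi⟩ := hy.exists_right_inv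
  have hDi' : Di * D = 1 := by
    obtain ⟨E, hE⟩ := hy.exists_left_inv
    have : E = Di := by
      calc E = E * (D * Di) := by rw [hDi, mul_one]
        _ = Di := by rw [← mul_assoc, hE, one_mul]
    rw [← this]
    exact hE
  obtain ⟨c, hc, hray⟩ := exists_phase (hfin (-(Di * (y * b * star x))))
  refine ⟨c, hc, fun s hs => ?_⟩
  by_cases hs0 : s = 0
  · rw [hs0]
    simpa using hx
  by_cases hs1 : s = 1
  · rw [hs1]
    have e : (((1 - (1 : ℝ) : ℝ) : ℂ) • x + (((1 : ℝ) : ℝ) : ℂ) • c • y) = c • y := by simp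
    rw [e]
    have e2 : c • y * b * star (c • y) = y * b * star y := by
      rw [star_smul, smul_mul_assoc, smul_mul_assoc, mul_smul_comm, smul_smul]
      have : c * star c = 1 := by
        rw [Complex.star_def, Complex.mul_conj, Complex.normSq_eq_norm_sq, hc]
        simp
      rw [this, one_smul]
    rw [e2]
    exact hy
  have hs0' : 0 < s := lt_of_le_of_ne hs.1 (Ne.symm hs0)
  have hs1' : 0 < 1 - s := by
    have := lt_of_le_of_ne hs.2 hs1
    linarith
  set r : ℝ := s / (1 - s) with hr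
  have hr0 : 0 < r := div_pos hs0' hs1'
  set ζ : ℂ := (r : ℂ) * star c with hζ
  -- the element `M`
  have hM : IsUnit (D * (algebraMap ℂ R ζ - -(Di * (y * b * star x)))) :=
    (hy).mul (spectrum.notMem_iff.mp (hray r hr0))
  set u : R := x + star ζ • y with hu
  have hsu : star u = star x + ζ • star y := by
    rw [hu, star_add, star_smul, star_star]
  have hMeq : D * (algebraMap ℂ R ζ - -(Di * (y * b * star x))) = y * b * star u + ζ • k := by
    rw [sub_neg_eq_add, mul_add, ← mul_assoc D Di, hDi, one_mul, Algebra.algebraMap_eq_smul_one,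
      mul_smul_comm, mul_one, hsu, mul_add, mul_smul_comm, hD, smul_add]
    abel
  rw [hMeq] at hM
  -- `c₀ ≤ M^* M`
  set Mm : R := y * b * star u + ζ • k with hMm
  obtain ⟨c₀, hc₀, hle⟩ := ge_of_unit (star_mul_self_nonneg Mm) (hM.star.mul hM)
  have hks : star k = k := (IsSelfAdjoint.of_nonneg hk).star_eq
  have hbs : star b = b := (IsSelfAdjoint.of_nonneg hb).star_eq
  set sb : R := Run7.h450.sq b with hsb
  have hsbs : star sb = sb := sq_star b
  have hsbm : sb * sb = b := sq_mul_sq hb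
  set C₁ : ℝ := ‖sb * star y * (y * sb)‖ with hC₁
  set C₂ : ℝ := ‖ζ‖ ^ 2 * ‖k‖ with hC₂
  have hub : 0 ≤ u * b * star u := star_right_conjugate_nonneg hb u
  have h1 : star (y * b * star u) * (y * b * star u) ≤ C₁ • (u * b * star u) := by
    have e1 : star (y * b * star u) * (y * b * star u) =
        (u * sb) * (sb * star y * (y * sb)) * star (u * sb) := by
      rw [star_mul, star_mul, star_mul, star_star, hbs, hsbs, ← hsbm]
      simp only [mul_assoc]
    have e2 : C₁ • (u * b * star u) = C₁ • ((u * sb) * star (u * sb)) := by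
      rw [star_mul, hsbs, ← hsbm]
      simp only [mul_assoc]
    rw [e1, e2]
    have hsa : IsSelfAdjoint (sb * star y * (y * sb)) := by
      have : sb * star y * (y * sb) = star (y * sb) * (y * sb) := by rw [star_mul, hsbs]
      rw [this]
      exact IsSelfAdjoint.star_mul_self _
    exact CStarAlgebra.star_right_conjugate_le_norm_smul hsa
  have h2 : star (ζ • k) * (ζ • k) ≤ C₂ • k := by
    have e1 : star (ζ • k) * (ζ • k) = (‖ζ‖ ^ 2 : ℝ) • (k * k) := by
      rw [star_smul, hks, smul_mul_assoc, mul_smul_comm, smul_smul, ← Complex.coe_smul]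
      congr 1
      have h4 : star ζ * ζ = (Complex.normSq ζ : ℂ) := by
        rw [mul_comm, Complex.star_def, Complex.mul_conj]
      rw [h4, Complex.normSq_eq_norm_sq]
    have e2 : k * k ≤ ‖k‖ • k := by
      have h3 := CStarAlgebra.star_right_conjugate_le_norm_smul (a := Run7.h450.sq k) (b := k)
        (IsSelfAdjoint.of_nonneg hk)
      rw [sq_star, sq_mul_sq hk] at h3
      refine le_trans (le_of_eq ?_) h3
      have e3 : Run7.h450.sq k * k = k * Run7.h450.sq k := by
        calc Run7.h450.sq k * k = Run7.h450.sq k * (Run7.h450.sq k * Run7.h450.sq k) := by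
              rw [sq_mul_sq hk]
          _ = Run7.h450.sq k * Run7.h450.sq k * Run7.h450.sq k := by rw [mul_assoc]
          _ = k * Run7.h450.sq k := by rw [sq_mul_sq hk]
      rw [e3, mul_assoc, sq_mul_sq hk]
    rw [e1, hC₂, mul_smul]
    exact smul_le_smul_of_nonneg_left e2 (by positivity)
  have h3 : star Mm * Mm ≤ (2 : ℝ) • (star (y * b * star u) * (y * b * star u) +
      star (ζ • k) * (ζ • k)) := par_le _ _
  set C : ℝ := 2 * (C₁ + C₂) + 1 with hC
  have hC₁0 : 0 ≤ C₁ := norm_nonneg _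
  have hC₂0 : 0 ≤ C₂ := by positivity
  have hC0 : 0 < C := by rw [hC]; positivity
  have h4 : c₀ • (1 : R) ≤ C • (u * b * star u + k) := by
    refine hle.trans (h3.trans ?_)
    have e1 : (2 : ℝ) • (star (y * b * star u) * (y * b * star u) + star (ζ • k) * (ζ • k)) ≤
        (2 : ℝ) • (C₁ • (u * b * star u) + C₂ • k) :=
      smul_le_smul_of_nonneg_left (add_le_add h1 h2) (by norm_num)
    refine e1.trans ?_
    rw [smul_add, smul_smul, smul_smul, smul_add]
    exact add_le_add (smul_le_smul_of_nonneg_right (by rw [hC]; linarith) hub)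
      (smul_le_smul_of_nonneg_right (by rw [hC]; linarith) hk)
  have h5 : (c₀ / C) • (1 : R) ≤ u * b * star u + k := by
    have e1 := smul_le_smul_of_nonneg_left h4 (by positivity : 0 ≤ 1 / C)
    rw [smul_smul, smul_smul] at e1
    have e2 : 1 / C * C = 1 := by field_simp
    rw [e2, one_smul] at e1
    have e3 : 1 / C * c₀ = c₀ / C := by ring
    rwa [e3] at e1
  -- scaling
  have hw : ((1 - s : ℝ) : ℂ) • x + ((s : ℝ) : ℂ) • c • y = ((1 - s : ℝ) : ℂ) • u := by
    rw [hu, smul_add, smul_smul, smul_smul]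
    congr 2
    rw [hζ, star_mul', star_star]
    have e1 : star (r : ℂ) = (r : ℂ) := Complex.conj_ofReal r
    rw [e1, ← mul_assoc]
    congr 1
    rw [← Complex.ofReal_mul]
    congr 1
    rw [hr]
    field_simp
  rw [hw]
  have e4 : ((1 - s : ℝ) : ℂ) • u * b * star (((1 - s : ℝ) : ℂ) • u) =
      ((1 - s) ^ 2 : ℝ) • (u * b * star u) := by
    rw [star_smul, smul_mul_assoc, smul_mul_assoc, mul_smul_comm, smul_smul, ← Complex.coe_smul]
    congr 1
    have e1 : star ((1 - s : ℝ) : ℂ) = ((1 - s : ℝ) : ℂ) := Complex.conj_ofReal _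
    rw [e1]
    push_cast
    ring
  rw [e4]
  have h6 : ((1 - s) ^ 2 * (c₀ / C)) • (1 : R) ≤ ((1 - s) ^ 2 : ℝ) • (u * b * star u) + k := by
    have e1 := smul_le_smul_of_nonneg_left h5 (by positivity : 0 ≤ (1 - s) ^ 2)
    rw [smul_smul, smul_add] at e1
    refine e1.trans (add_le_add le_rfl ?_)
    have e2 : ((1 - s) ^ 2 : ℝ) • k ≤ (1 : ℝ) • k := by
      refine smul_le_smul_of_nonneg_right ?_ hk
      have := hs0'
      nlinarith
    rwa [one_smul] at e2
  exact unit_of_ge (by positivity) h6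

end

end Run7.h450.Dyn
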