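import Pool.Agent.Run7.h450.W2

/-!
# Cuntz comparison of matrices
-/

set_option autoImplicit false
set_option linter.unusedSectionVars false

namespace Run7.h450.Dyn

open Filter Topology
open Pool.Agent.H327R4.Pure
open scoped ComplexOrder

universe u v w

/-- the identity as a trace of `ℂ` -/
noncomputable def idTr : Tr ℂ where
  f := ContinuousLinearMap.id ℂ ℂ
  pos x := by
    have h1 : (ContinuousLinearMap.id ℂ ℂ) (star x * x) = ((Complex.normSq x : ℝ) : ℂ) := by
      show star x * x = _
      rw [mul_comm, Complex.star_def, Complex.mul_conj]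
    rw [h1, Complex.ofReal_re, Complex.ofReal_im]
    exact ⟨Complex.normSq_nonneg x, rfl⟩
  tr x y := by
    show x * y = y * x
    exact mul_comm x y

theorem idTr_apply (x : ℂ) : idTr.f x = x := rfl

theorem cz_smul_pos {R : Type v} [CStarAlgebra R] [PartialOrder R] [StarOrderedRing R] {a : R}
    (ha : 0 ≤ a) (c : ℝ) (hc : 0 < c) : Cz a (c • a) := by
  refine cz_of_le_smul ha (1 / c) (by positivity) (le_of_eq ?_)
  rw [smul_smul]
  have : 1 / c * c = 1 := by field_simp
  rw [this, one_smul]

section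

variable {K : ℕ}

theorem sum_sg_one : ∑ i : Fin K, sg i i (1 : ℂ) = (1 : Mat K ℂ) := by
  rw [sum_sg, scalHom_one]

theorem exists_diag {α : Mat K ℂ} (hα : 0 ≤ α) : ∃ (U : Mat K ℂ) (lam : Fin K → ℝ),
    star U * U = 1 ∧ U * star U = 1 ∧ (∀ i, 0 ≤ lam i) ∧
      α = ∑ i, lam i • (U * sg i i 1 * star U) := by
  have hsa : star α = α := (IsSelfAdjoint.of_nonneg hα).star_eq
  have hA : Matrix.IsHermitian (CStarMatrix.ofMatrix.symm α) := hsa
  set V : Matrix.unitaryGroup (Fin K) ℂ := hA.eigenvectorUnitary with hV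
  set U : Mat K ℂ := CStarMatrix.ofMatrix (V : Matrix (Fin K) (Fin K) ℂ) with hU
  have h1 : star U * U = 1 := by
    have := Unitary.coe_star_mul_self V
    exact congrArg CStarMatrix.ofMatrix this
  have h2 : U * star U = 1 := by
    have := Unitary.coe_mul_star_self V
    exact congrArg CStarMatrix.ofMatrix this
  have h3 : α = U * CStarMatrix.ofMatrix (Matrix.diagonal (RCLike.ofReal ∘ hA.eigenvalues)) *
      star U := by
    have := hA.spectral_theorem
    rw [Unitary.conjStarAlgAut_apply] at this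
    exact congrArg CStarMatrix.ofMatrix this
  have h4 : (CStarMatrix.ofMatrix (Matrix.diagonal (RCLike.ofReal ∘ hA.eigenvalues)) : Mat K ℂ) =
      ∑ i, hA.eigenvalues i • sg i i (1 : ℂ) := by
    ext p q
    rw [cm_sum_apply]
    show Matrix.diagonal (RCLike.ofReal ∘ hA.eigenvalues) p q =
      ∑ i, hA.eigenvalues i • (sg i i (1 : ℂ) p q)
    rw [Matrix.diagonal_apply]
    rw [Finset.sum_congr rfl fun i _ => by rw [sg_apply]]
    by_cases hpq : p = q
    · subst hpq
      rw [if_pos rfl, Finset.sum_eq_single p]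
      · rw [if_pos ⟨rfl, rfl⟩]
        show ((hA.eigenvalues p : ℝ) : ℂ) = hA.eigenvalues p • (1 : ℂ)
        rw [Complex.real_smul, mul_one]
      · intro i _ hi
        rw [if_neg fun h => hi h.1, smul_zero]
      · intro h
        exact absurd (Finset.mem_univ p) h
    · rw [if_neg hpq]
      symm
      refine Finset.sum_eq_zero fun i _ => ?_
      rw [if_neg fun h => hpq (h.1.symm.trans h.2), smul_zero]
  have h5 : α = ∑ i, hA.eigenvalues i • (U * sg i i 1 * star U) := by
    conv_lhs => rw [h3, h4]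
    rw [Finset.mul_sum, Finset.sum_mul]
    refine Finset.sum_congr rfl fun i _ => ?_
    rw [mul_smul_comm, smul_mul_assoc]
  refine ⟨U, hA.eigenvalues, h1, h2, fun i => ?_, h5⟩
  have h6' : ∀ z : Mat K ℂ, star U * (U * z * star U) * U = z := by
    intro z
    calc star U * (U * z * star U) * U = (star U * U) * z * (star U * U) := by
          simp only [mul_assoc]
      _ = _ := by rw [h1, one_mul, mul_one]
  have h6 : star U * α * U =
      CStarMatrix.ofMatrix (Matrix.diagonal (RCLike.ofReal ∘ hA.eigenvalues)) :=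
    (congrArg (fun z => star U * z * U) h3).trans (h6' _)
  have h7 : 0 ≤ star U * α * U := by
    have := star_right_conjugate_nonneg hα (star U)
    rwa [star_star] at this
  have h8 := entry_nonneg h7 i
  rw [h6] at h8
  have h9 : (CStarMatrix.ofMatrix (Matrix.diagonal (RCLike.ofReal ∘ hA.eigenvalues)) : Mat K ℂ)
      i i = ((hA.eigenvalues i : ℝ) : ℂ) := by
    show Matrix.diagonal (RCLike.ofReal ∘ hA.eigenvalues) i i = _
    rw [Matrix.diagonal_apply_eq]
    rfl
  rw [h9] at h8
  exact_mod_cast h8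

variable {U V : Mat K ℂ}

theorem pp_nonneg (U : Mat K ℂ) (i : Fin K) : 0 ≤ U * sg i i 1 * star U :=
  star_right_conjugate_nonneg
    (hom_nonneg (R := ℂ) (R' := Mat K ℂ) (sgHom i) (zero_le_one)) U

theorem pp_orth (h1 : star U * U = 1) (i j : Fin K) (hij : i ≠ j) :
    (U * sg i i 1 * star U) * (U * sg j j 1 * star U) = 0 := by
  calc (U * sg i i 1 * star U) * (U * sg j j 1 * star U) =
        U * (sg i i 1 * (star U * U) * sg j j 1) * star U := by simp only [mul_assoc]
    _ = 0 := by rw [h1, mul_one, sg_mul_ne _ _ _ _ hij, mul_zero, zero_mul]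

theorem pp_cz (h2 : star V * V = 1) (i j : Fin K) :
    Cz (U * sg i i 1 * star U) (V * sg j j 1 * star V) := by
  have h3 := cz_conj (U * sg i j 1 * star V) (V * sg j j 1 * star V)
  have h4 : U * sg i j 1 * star V * (V * sg j j 1 * star V) * star (U * sg i j 1 * star V) =
      U * sg i i 1 * star U := by
    rw [star_mul, star_mul, star_star, sg_star, star_one]
    calc U * sg i j 1 * star V * (V * sg j j 1 * star V) * (V * (sg j i 1 * star U)) =
          U * (sg i j 1 * (star V * V) * sg j j 1 * (star V * V) * sg j i 1) * star U := by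
          simp only [mul_assoc]
      _ = _ := by rw [h2, mul_one, mul_one, sg_mul, sg_mul, mul_one, mul_one]
  rwa [h4] at h3

theorem rk_pp (h1 : star U * U = 1) (h2 : U * star U = 1) (i : Fin K) :
    rk (trM idTr (Fin K)) (U * sg i i 1 * star U) = 1 := by
  have h3 := rk_sum_orth Finset.univ (trM idTr (Fin K)) (fun i => U * sg i i 1 * star U)
    (pp_nonneg U) (pp_orth h1)
  have h4 : ∑ j : Fin K, U * sg j j 1 * star U = 1 := by
    rw [← Finset.sum_mul, ← Finset.mul_sum, sum_sg_one, mul_one, h2]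
  rw [h4, rk_one idTr (idTr_apply 1)] at h3
  have h5 : ∀ j : Fin K, rk (trM idTr (Fin K)) (U * sg j j 1 * star U) =
      rk (trM idTr (Fin K)) (U * sg i i 1 * star U) := fun j =>
    le_antisymm (rk_cz _ (pp_nonneg U j) (pp_nonneg U i) (pp_cz h1 j i))
      (rk_cz _ (pp_nonneg U i) (pp_nonneg U j) (pp_cz h1 i j))
  rw [Finset.sum_congr rfl fun j _ => h5 j, Finset.sum_const, Finset.card_univ, Fintype.card_fin,
    nsmul_eq_mul] at h3
  have hK : (K : ℝ) ≠ 0 := by
    have := i.pos
    exact_mod_cast this.ne'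
  have h6 : (K : ℝ) * rk (trM idTr (Fin K)) (U * sg i i 1 * star U) = K * 1 := by
    rw [← h3, mul_one]
  exact mul_left_cancel₀ hK h6

theorem rk_diag (h1 : star U * U = 1) (h2 : U * star U = 1) (lam : Fin K → ℝ)
    (hlam : ∀ i, 0 ≤ lam i) :
    rk (trM idTr (Fin K)) (∑ i, lam i • (U * sg i i 1 * star U)) =
      Fintype.card {i // lam i ≠ 0} := by
  classical
  have h3 := rk_sum_orth Finset.univ (trM idTr (Fin K))
    (fun i => lam i • (U * sg i i 1 * star U))
    (fun i => smul_nonneg (hlam i) (pp_nonneg U i)) (fun i j hij => by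
      rw [smul_mul_smul_comm, pp_orth h1 i j hij, smul_zero])
  rw [h3]
  have h4 : ∀ i, rk (trM idTr (Fin K)) (lam i • (U * sg i i 1 * star U)) =
      if lam i ≠ 0 then 1 else 0 := by
    intro i
    by_cases hi : lam i = 0
    · rw [if_neg (not_not.mpr hi), hi, zero_smul, AD.rk_zero]
    · rw [if_pos hi]
      have hpos : 0 < lam i := lt_of_le_of_ne (hlam i) (Ne.symm hi)
      rw [← rk_pp h1 h2 i]
      refine le_antisymm (rk_smul_le _ (pp_nonneg U i) _ (hlam i)) ?_
      refine rk_cz _ (pp_nonneg U i) (smul_nonneg (hlam i) (pp_nonneg U i)) ?_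
      exact cz_smul_pos (pp_nonneg U i) _ hpos
  rw [Finset.sum_congr rfl fun i _ => h4 i, Finset.sum_ite, Finset.sum_const_zero, add_zero,
    Finset.sum_const, nsmul_eq_mul, mul_one, Fintype.card_subtype]

/-- comparison of positive matrices by the rank -/
theorem mat_cz {α β : Mat K ℂ} (hα : 0 ≤ α) (hβ : 0 ≤ β)
    (h : rk (trM idTr (Fin K)) α ≤ rk (trM idTr (Fin K)) β) : Cz α β := by
  classical
  obtain ⟨U, lam, hU1, hU2, hlam, hα'⟩ := exists_diag hα
  obtain ⟨V, mu, hV1, hV2, hmu, hβ'⟩ := exists_diag hβ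
  rw [hα', hβ', rk_diag hU1 hU2 lam hlam, rk_diag hV1 hV2 mu hmu] at h
  have hcard : Fintype.card {i // lam i ≠ 0} ≤ Fintype.card {j // mu j ≠ 0} := by exact_mod_cast h
  obtain ⟨f⟩ := Function.Embedding.nonempty_of_card_le hcard
  have hA : α = ∑ i : {i // lam i ≠ 0}, lam i • (U * sg (i : Fin K) i 1 * star U) := by
    rw [hα']
    symm
    have h1 := Finset.sum_subtype (F := inferInstance) (Finset.univ.filter fun i => lam i ≠ 0)
      (p := fun i => lam i ≠ 0) (fun i => by simp) (fun i => lam i • (U * sg i i 1 * star U))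
    rw [← h1, Finset.sum_filter]
    refine Finset.sum_congr rfl fun i _ => ?_
    by_cases hi : lam i = 0
    · rw [if_neg (not_not.mpr hi), hi, zero_smul]
    · rw [if_pos hi]
  have hY : ∑ i : {i // lam i ≠ 0}, mu (f i) • (V * sg (f i : Fin K) (f i : Fin K) 1 * star V) ≤
      β := by
    rw [hβ']
    let g : {i // lam i ≠ 0} ↪ Fin K := f.trans (Function.Embedding.subtype _)
    have h1 := Finset.sum_map (Finset.univ : Finset {i // lam i ≠ 0}) g
      (fun j => mu j • (V * sg j j 1 * star V))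
    have h2 : ∑ i : {i // lam i ≠ 0}, mu (f i) • (V * sg (f i : Fin K) (f i : Fin K) 1 * star V) =
        ∑ j ∈ Finset.univ.map g, mu j • (V * sg j j 1 * star V) := h1.symm
    rw [h2]
    exact Finset.sum_le_sum_of_subset_of_nonneg (Finset.subset_univ _)
      fun j _ _ => smul_nonneg (hmu j) (pp_nonneg V j)
  have h0 : Cz (∑ i : {i // lam i ≠ 0}, lam i • (U * sg (i : Fin K) i 1 * star U))
      (∑ i : {i // lam i ≠ 0}, mu (f i) • (V * sg (f i : Fin K) (f i : Fin K) 1 * star V)) := by
    refine cz_sum Finset.univ _ _ (fun i _ => smul_nonneg (hlam i) (pp_nonneg U i))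
      (fun i _ => smul_nonneg (hmu _) (pp_nonneg V _)) (fun i _ j _ hij => ?_) (fun i _ => ?_)
    · have hne : (f i : Fin K) ≠ f j := fun h' => hij (f.injective (Subtype.ext h'))
      rw [smul_mul_smul_comm, pp_orth hV1 _ _ hne, smul_zero]
    · refine cz_trans (cz_smul _ (hlam i)) (cz_trans (pp_cz (U := U) hV1 i (f i)) ?_)
      have hpos : 0 < mu (f i) := lt_of_le_of_ne (hmu _) (Ne.symm (f i).2)
      exact cz_smul_pos (pp_nonneg V _) _ hpos
  rw [hA]
  refine cz_trans h0 (cz_of_le ?_ hY)
  exact Finset.sum_nonneg fun i _ => smul_nonneg (hmu _) (pp_nonneg V _)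

end

end Run7.h450.Dyn
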