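import Pool.Agent.Run7.h450.W3

/-!
# Comparison in matrix algebras over the continuous functions on the circle
-/

set_option autoImplicit false
set_option linter.unusedSectionVars false

namespace Run7.h450.Dyn

open Filter Topology
open Pool.Agent.H327R4.Pure
open scoped ComplexOrder

universe u v w

section

variable {R : Type v} [CStarAlgebra R] [PartialOrder R] [StarOrderedRing R]

theorem phi_le_one {a : R} (ha : 0 ≤ a) {ε : ℝ} (hε : 0 < ε) : phi ε a ≤ 1 := by
  have h1 := (ct' R a ha).2.2.2.2.2.2.2.1 ε hε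
  rw [← CStarAlgebra.norm_le_one_iff_of_nonneg _ h1.1]
  exact h1.2.1

theorem half_le {a : R} (ha : 0 ≤ a) {ε : ℝ} (hε : 0 < ε) :
    (1 / 2 : ℝ) • (1 : R) ≤ rf (ε / 2) a + (1 - phi ε a) := by
  have hε2 : 0 < ε / 2 := by positivity
  have hsub : phi ε a - rf (ε / 2) a =
      cfcₙ (fun t : ℝ => min 1 (t / ε) - min 1 (max 0 ((t - ε / 2) / (ε / 2)))) a := by
    unfold phi rf
    rw [cfcₙ_sub (fun t : ℝ => min 1 (t / ε)) (fun t : ℝ => min 1 (max 0 ((t - ε / 2) / (ε / 2)))) a
      (by fun_prop) (by simp) (by fun_prop) (rf_zero hε2)]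
  have hsa : IsSelfAdjoint (phi ε a - rf (ε / 2) a) := by
    rw [hsub]
    exact cfcₙ_predicate _ a
  have hnorm : ‖phi ε a - rf (ε / 2) a‖ ≤ 1 / 2 := by
    rw [hsub]
    refine norm_cfcₙ_le fun t ht => ?_
    have ht0 : 0 ≤ t := quasispectrum_nonneg_of_nonneg a ha t ht
    rw [Real.norm_eq_abs, abs_le]
    have e1 : (t - ε / 2) / (ε / 2) = 2 * (t / ε) - 1 := by field_simp
    rw [e1]
    have h0 : 0 ≤ t / ε := by positivity
    set r : ℝ := t / ε
    rcases le_total r 1 with hr | hr
    · rw [min_eq_right hr]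
      rcases le_total r (1 / 2) with hr2 | hr2
      · rw [max_eq_left (by linarith), min_eq_right zero_le_one]
        constructor <;> linarith
      · rw [max_eq_right (by linarith), min_eq_right (by linarith)]
        constructor <;> linarith
    · rw [min_eq_left hr, max_eq_right (by linarith), min_eq_left (by linarith)]
      constructor <;> linarith
  have h1 := le_of_norm_sub_le hsa hnorm
  have h2 : (1 / 2 : ℝ) • (1 : R) = 1 - (1 / 2 : ℝ) • (1 : R) := by
    rw [eq_sub_iff_add_eq, ← add_smul]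
    norm_num
  rw [h2]
  have h3 : rf (ε / 2) a + (1 - phi ε a) = 1 - (phi ε a - rf (ε / 2) a) := by abel
  rw [h3]
  exact sub_le_sub_left h1 1

theorem phi_mul_cut (a : R) {ε : ℝ} (hε : 0 < ε) : phi ε a * cut ε a = cut ε a := by
  unfold phi cut
  rw [← cfcₙ_mul (fun t : ℝ => min 1 (t / ε)) (fun t : ℝ => max (t - ε) 0) a (by fun_prop)
    (by simp) (by fun_prop) (by simp [hε.le])]
  congr 1
  funext t
  by_cases ht : t ≤ ε
  · rw [max_eq_right (by linarith), mul_zero]
  · push Not at ht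
    have : 1 ≤ t / ε := by
      rw [le_div_iff₀ hε]
      linarith
    rw [min_eq_left this, one_mul]

/-- invertibility gives comparison -/
theorem cut_cz {a b x : R} (ha : 0 ≤ a) (hb : 0 ≤ b) {ε : ℝ} (hε : 0 < ε)
    (hu : IsUnit (x * b * star x + (1 - phi ε a))) : Cz (cut ε a) b := by
  have hz : 0 ≤ x * b * star x + (1 - phi ε a) :=
    add_nonneg (star_right_conjugate_nonneg hb x) (sub_nonneg.mpr (phi_le_one ha hε))
  obtain ⟨c, hc, hle⟩ := ge_of_unit hz hu
  set G : R := cut ε a with hG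
  have hG0 : 0 ≤ G := cut_nonneg ha ε
  have hGs : star G = G := (IsSelfAdjoint.of_nonneg hG0).star_eq
  have h1 := star_right_conjugate_le_conjugate hle G
  rw [hGs, mul_smul_comm, mul_one, smul_mul_assoc] at h1
  have h2 : G * (x * b * star x + (1 - phi ε a)) * G = (G * x) * b * star (G * x) := by
    have h3 : (1 - phi ε a) * G = 0 := by rw [sub_mul, one_mul, hG, phi_mul_cut a hε, sub_self]
    rw [mul_add, add_mul, mul_assoc G (1 - phi ε a), h3, mul_zero, add_zero, star_mul, hGs]
    simp only [mul_assoc]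
  rw [h2] at h1
  have hGG : 0 ≤ G * G := (IsSelfAdjoint.of_nonneg hG0).mul_self_nonneg
  have h4 : G * G ≤ (1 / c) • ((G * x) * b * star (G * x)) := by
    have e1 := smul_le_smul_of_nonneg_left h1 (by positivity : 0 ≤ 1 / c)
    rw [smul_smul] at e1
    have e2 : 1 / c * c = 1 := by field_simp
    rwa [e2, one_smul] at e1
  exact cz_trans (cz_sq hG0) (cz_trans (cz_of_le_smul hGG (1 / c) (by positivity) h4)
    (cz_conj _ _))

/-- comparison gives invertibility -/
theorem exists_unit_of_cz {a b : R} (ha : 0 ≤ a) (hb : 0 ≤ b) {ε : ℝ} (hε : 0 < ε)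
    (h : Cz a b) : ∃ x : R, IsUnit (x * b * star x + (1 - phi ε a)) := by
  obtain ⟨δ, x, hδ, hx⟩ := exa' _ _ _ (ε / 2) ha hb h (by positivity)
  have hε2 : 0 < ε / 2 := by positivity
  set C : ℝ := 1 / (ε / 2) with hC
  have hC0 : 0 ≤ C := by positivity
  refine ⟨((Real.sqrt C : ℝ) : ℂ) • x, unit_of_ge (c := 1 / 2) (by norm_num) ?_⟩
  have e1 : ((Real.sqrt C : ℝ) : ℂ) • x * b * star (((Real.sqrt C : ℝ) : ℂ) • x) =
      C • (x * b * star x) := by
    rw [star_smul, smul_mul_assoc, smul_mul_assoc, mul_smul_comm, smul_smul]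
    have : ((Real.sqrt C : ℝ) : ℂ) * star ((Real.sqrt C : ℝ) : ℂ) = ((C : ℝ) : ℂ) := by
      rw [Complex.star_def, Complex.conj_ofReal, ← Complex.ofReal_mul, Real.mul_self_sqrt hC0]
    rw [this, Complex.coe_smul]
  rw [e1]
  refine (half_le ha hε).trans (add_le_add ?_ le_rfl)
  refine (rf_le hε2 a).trans (smul_le_smul_of_nonneg_left ?_ hC0)
  rw [hx]
  exact star_right_conjugate_le_conjugate (cut_le hb hδ.le) x

end

section

instance factPi : Fact (0 < 2 * Real.pi) := ⟨by positivity⟩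

/-- the circle, in any universe -/
abbrev Tc : Type v := ULift.{v} (AddCircle (2 * Real.pi))

/-- the continuous functions on the circle -/
abbrev DT : Type v := C(Tc.{v}, ℂ)

/-- evaluation -/
noncomputable def ev (t : Tc.{v}) : DT.{v} →⋆ₙₐ[ℂ] ℂ :=
  ((ContinuousMap.evalStarAlgHom ℂ ℂ t : C(Tc.{v}, ℂ) →⋆ₐ[ℂ] ℂ) : C(Tc.{v}, ℂ) →⋆ₙₐ[ℂ] ℂ)

theorem ev_apply (t : Tc.{v}) (f : DT.{v}) : ev t f = f t := rfl

variable {K : ℕ}

theorem continuous_cm {Y : Type w} [TopologicalSpace Y] {f : Y → Mat K ℂ}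
    (h : ∀ p q, Continuous fun y => f y p q) : Continuous f :=
  continuous_pi fun p => continuous_pi fun q => h p q

theorem continuous_entry (p q : Fin K) : Continuous fun M : Mat K ℂ => M p q :=
  (continuous_apply q).comp (continuous_apply p)

theorem ent_ev_one (t : Tc.{v}) : ent (ev t) K 1 = 1 := by
  ext p q
  rw [ent_apply, CStarMatrix.one_apply, CStarMatrix.one_apply]
  split_ifs
  · rfl
  · exact map_zero _

theorem ent_ev_cont (M : Mat K DT.{v}) : Continuous fun t : Tc.{v} => ent (ev t) K M :=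
  continuous_cm fun p q => (M p q).continuous

theorem ext_ev {M N : Mat K DT.{v}} (h : ∀ t, ent (ev t) K M = ent (ev t) K N) : M = N := by
  ext p q t
  exact congrFun (congrFun (h t) p) q

/-- pointwise invertible matrices are invertible -/
theorem isUnit_of_ev {z : Mat K DT.{v}} (h : ∀ t, IsUnit (ent (ev t) K z)) : IsUnit z := by
  have hc : Continuous fun t : Tc.{v} => Ring.inverse (ent (ev t) K z) := by
    rw [continuous_iff_continuousAt]
    intro t
    obtain ⟨y, hy⟩ := h t
    have h1 := NormedRing.inverse_continuousAt y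
    rw [hy] at h1
    exact ContinuousAt.comp (f := fun t : Tc.{v} => ent (ev t) K z) h1
      (ent_ev_cont z).continuousAt
  set zi : Mat K DT.{v} := CStarMatrix.ofMatrix fun p q =>
    ⟨fun t => Ring.inverse (ent (ev t) K z) p q, (continuous_entry p q).comp hc⟩ with hzi
  have hziev : ∀ t, ent (ev t) K zi = Ring.inverse (ent (ev t) K z) := fun t => by
    ext p q
    rfl
  have h1 : z * zi = 1 := by
    refine ext_ev fun t => ?_
    rw [map_mul, hziev, ent_ev_one, Ring.mul_inverse_cancel _ (h t)]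
  have h2 : zi * z = 1 := by
    refine ext_ev fun t => ?_
    rw [map_mul, hziev, ent_ev_one, Ring.inverse_mul_cancel _ (h t)]
  exact ⟨⟨z, zi, h1, h2⟩, rfl⟩

theorem finite_spec (z : Mat K ℂ) : (spectrum ℂ z).Finite :=
  Matrix.finite_spectrum (CStarMatrix.ofMatrix.symm z)

/-- comparison by the ranks at all points -/
theorem ct_cz {a b : Mat K DT.{v}} (ha : 0 ≤ a) (hb : 0 ≤ b)
    (h : ∀ t : Tc.{v}, rk (trM idTr (Fin K)) (ent (ev t) K a) ≤
      rk (trM idTr (Fin K)) (ent (ev t) K b)) : Cz a b := by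
  refine clo' _ _ _ ha fun ε hε => ?_
  have hat : ∀ t : Tc.{v}, 0 ≤ ent (ev t) K a := fun t => ent_nonneg _ _ ha
  have hbt : ∀ t : Tc.{v}, 0 ≤ ent (ev t) K b := fun t => ent_nonneg _ _ hb
  have hphi : ∀ t : Tc.{v}, ent (ev t) K (1 - phi ε a) = 1 - phi ε (ent (ev t) K a) := by
    intro t
    rw [map_sub, ent_ev_one, (hom' (Mat K DT.{v}) (Mat K ℂ) (ent (ev t) K) a ha).2.2.1 ε hε]
  have hk : ∀ t : Tc.{v}, 0 ≤ ent (ev t) K (1 - phi ε a) := fun t => by
    rw [hphi]
    exact sub_nonneg.mpr (phi_le_one (hat t) hε)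
  let P : AddCircle (2 * Real.pi) → Mat K ℂ → Prop := fun t x =>
    IsUnit (x * ent (ev (ULift.up.{v} t)) K b * star x +
      ent (ev (ULift.up.{v} t)) K (1 - phi ε a))
  have hopen : IsOpen {z : AddCircle (2 * Real.pi) × Mat K ℂ | P z.1 z.2} := by
    have h1 : Continuous fun z : AddCircle (2 * Real.pi) × Mat K ℂ =>
        ent (ev (ULift.up.{v} z.1)) K b :=
      (ent_ev_cont b).comp (continuous_uliftUp.comp continuous_fst)
    have h2 : Continuous fun z : AddCircle (2 * Real.pi) × Mat K ℂ =>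
        ent (ev (ULift.up.{v} z.1)) K (1 - phi ε a) :=
      (ent_ev_cont _).comp (continuous_uliftUp.comp continuous_fst)
    have h3 : Continuous fun z : AddCircle (2 * Real.pi) × Mat K ℂ =>
        z.2 * ent (ev (ULift.up.{v} z.1)) K b * star z.2 +
          ent (ev (ULift.up.{v} z.1)) K (1 - phi ε a) :=
      ((continuous_snd.mul h1).mul (continuous_star.comp continuous_snd)).add h2
    exact Units.isOpen.preimage h3
  have hne : ∀ t, ∃ x, P t x := by
    intro t
    obtain ⟨y, hy⟩ := exists_unit_of_cz (hat (ULift.up t)) (hbt _) hε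
      (mat_cz (hat (ULift.up t)) (hbt _) (h _))
    refine ⟨y, ?_⟩
    show IsUnit _
    rw [hphi]
    exact hy
  have hseg : ∀ t x y, P t x → P t y → ∃ c : ℂ, ‖c‖ = 1 ∧ ∀ s ∈ Set.Icc (0 : ℝ) 1,
      P t (((1 - s : ℝ) : ℂ) • x + ((s : ℝ) : ℂ) • c • y) := by
    intro t x y hx hy
    exact seg_unit (hbt _) (hk _) hx hy finite_spec
  have hph : ∀ t x (c : ℂ), ‖c‖ = 1 → P t x → P t (c • x) := by
    intro t x c hc hx
    show IsUnit _
    have e2 : c • x * ent (ev (ULift.up.{v} t)) K b * star (c • x) =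
        x * ent (ev (ULift.up.{v} t)) K b * star x := by
      rw [star_smul, smul_mul_assoc, smul_mul_assoc, mul_smul_comm, smul_smul]
      have : c * star c = 1 := by
        rw [Complex.star_def, Complex.mul_conj, Complex.normSq_eq_norm_sq, hc]
        simp
      rw [this, one_smul]
    rw [e2]
    exact hx
  obtain ⟨x, hx⟩ := glue_circle (2 * Real.pi) P hopen hne hseg hph
  set xx : Mat K DT.{v} := CStarMatrix.ofMatrix fun p q =>
    ⟨fun t => x t.down p q, (continuous_entry p q).comp (x.continuous.comp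
      continuous_uliftDown)⟩ with hxx
  have hxt : ∀ t : Tc.{v}, ent (ev t) K xx = x t.down := fun t => by
    ext p q
    rfl
  refine cut_cz (x := xx) ha hb hε (isUnit_of_ev fun t => ?_)
  rw [map_add, map_mul, map_mul, map_star, hxt]
  exact hx t.down

end

end Run7.h450.Dyn
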