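import Pool.Agent.Run7.h450.Z9

/-!
# Making room inside a positive element of a crossed product
-/

set_option autoImplicit false
set_option linter.unusedSectionVars false

namespace Run7.h450.Dyn

open Filter Topology
open Pool.Agent.H327R4.Pure

universe u v w

section

variable {B : Type v} [CStarAlgebra B] [PartialOrder B] [StarOrderedRing B]

/-- a nonzero positive matrix has a nonzero diagonal entry -/
theorem exists_entry {N : ℕ} {b : Mat N B} (hb : 0 ≤ b) (hb0 : b ≠ 0) : ∃ i, b i i ≠ 0 := by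
  by_contra hcon
  push Not at hcon
  obtain ⟨x, rfl⟩ := lowm_sq (B := Mat N B) hb
  refine hb0 ?_
  have h1 : ∀ i j, x j i = 0 := by
    intro i j
    have h2 := hcon i
    rw [CStarMatrix.mul_apply] at h2
    have h3 := (Finset.sum_eq_zero_iff_of_nonneg (fun j _ => by
      rw [CStarMatrix.star_apply]
      exact star_mul_self_nonneg _)).mp h2 j (Finset.mem_univ j)
    rw [CStarMatrix.star_apply] at h3
    exact (CStarRing.star_mul_self_eq_zero_iff _).mp h3
  have h2 : x = 0 := by
    ext p q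
    exact h1 q p
  rw [h2, mul_zero]

variable {X : Type u} [TopologicalSpace X] [CompactSpace X] [T2Space X]

/-- functions below a positive element up to a constant -/
theorem fun_cz (κ : C(X, ℂ) →⋆ₙₐ[ℂ] B) (u : C(X, ℝ)) (c : ℝ) {y : B} (hy : 0 ≤ y) (hc : 0 ≤ c)
    (h : κ (cx u) ≤ y + c • (1 : B)) :
    Cz (κ (cx ⟨fun x => (max 0 (u x - c)) ^ 2, by fun_prop⟩)) y := by
  set k : C(X, ℝ) := ⟨fun x => Real.sqrt (max 0 (u x - c)), by fun_prop⟩ with hk
  have hks : star (κ (cx k)) = κ (cx k) := by rw [← map_star, star_cx]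
  have h1 := star_right_conjugate_le_conjugate h (κ (cx k))
  rw [hks, mul_add, add_mul, mul_smul_comm, mul_one, smul_mul_assoc] at h1
  have hkk : ∀ x, k x * k x = max 0 (u x - c) := fun x => Real.mul_self_sqrt (le_max_left _ _)
  have h2 : κ (cx ⟨fun x => (max 0 (u x - c)) ^ 2, by fun_prop⟩) + c • (κ (cx k) * κ (cx k)) =
      κ (cx k) * κ (cx u) * κ (cx k) := by
    rw [← map_mul, ← map_mul, ← map_mul, ← cx_mul, ← cx_mul, ← cx_mul, ← kap_rsmul, ← map_add,
      ← cx_add]
    congr 2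
    ext x
    show (max 0 (u x - c)) ^ 2 + c * (k x * k x) = k x * u x * k x
    have h3 : k x * u x * k x = (k x * k x) * u x := by ring
    rw [h3, hkk]
    by_cases hx : u x - c ≤ 0
    · rw [max_eq_left hx]
      ring
    · push Not at hx
      rw [max_eq_right hx.le]
      ring
  rw [← h2] at h1
  have h3 : κ (cx ⟨fun x => (max 0 (u x - c)) ^ 2, by fun_prop⟩) ≤
      κ (cx k) * y * κ (cx k) := le_of_add_le_add_right h1
  refine cz_trans (cz_of_le (kap_nonneg κ fun x => ?_) h3) ?_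
  · exact pow_nonneg (le_max_left _ _) 2
  · have := cz_conj (κ (cx k)) y
    rwa [hks] at this

end

section

variable {X : Type u} [TopologicalSpace X] [CompactSpace X] [T2Space X] {h : X ≃ₜ X} {B : Type v}
  [CStarAlgebra B] [PartialOrder B] [StarOrderedRing B]

/-- functions with small support have small rank -/
theorem Crossed.rk_small (C : Crossed h B) {N : ℕ} (i : Fin N) {g : C(X, ℝ)}
    (hg0 : ∀ x, 0 ≤ g x) {V : Set X} (hgV : ∀ y, g y ≠ 0 → y ∈ V) (R : ℕ)
    (hV : ∀ k : ℤ, k ≠ 0 → |k| ≤ R → ∀ y ∈ V, (h ^ k) y ∉ V) (T : Tr B) (hT : T.f 1 = 1) :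
    R * rk (trM T (Fin N)) (sg i i (C.ι (cx g))) ≤ N := by
  classical
  -- the translates
  set y : ℕ → Mat N B := fun j => sg i i (C.ι (sh h j (cx g))) with hy
  have hy0 : ∀ j, 0 ≤ y j := fun j =>
    kap_nonneg ((sgHom i).comp C.κ) (f := shr h j g) fun x => hg0 _
  have hyy : ∀ j l : Fin R, j ≠ l → y j * y l = 0 := by
    intro j l hjl
    show sg i i _ * sg i i _ = 0
    rw [sg_mul, ← map_mul]
    have h0 : sh h (j : ℕ) (cx g) * sh h (l : ℕ) (cx g) = 0 := by
      ext x
      show ((g ((h ^ (-((j : ℕ) : ℤ))) x) : ℝ) : ℂ) * ((g ((h ^ (-((l : ℕ) : ℤ))) x) : ℝ) : ℂ) = 0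
      rw [← Complex.ofReal_mul, Complex.ofReal_eq_zero]
      by_contra hne
      have m1 := hgV _ (left_ne_zero_of_mul hne)
      have m2 := hgV _ (right_ne_zero_of_mul hne)
      have hne' : (j : ℕ) ≠ (l : ℕ) := fun h' => hjl (Fin.ext h')
      have hj := j.2
      have hl := l.2
      refine hV (((j : ℕ) : ℤ) - ((l : ℕ) : ℤ)) (by omega) ?_ _ m1 ?_
      · rw [abs_le]
        constructor <;> omega
      · rw [← zpa]
        have : ((j : ℕ) : ℤ) - ((l : ℕ) : ℤ) + -((j : ℕ) : ℤ) = -((l : ℕ) : ℤ) := by ring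
        rw [this]
        exact m2
    rw [h0, map_zero, sg_zero]
  have h1 := rk_sum_orth (Finset.univ : Finset (Fin R)) (trM T (Fin N)) (fun j => y j)
    (fun j => hy0 j) hyy
  have h2 : ∀ j : ℕ, rk (trM T (Fin N)) (sg i i (C.ι (cx g))) ≤ rk (trM T (Fin N)) (y j) := by
    intro j
    have h3 := C.sg_conj_up i i 0 j (cx g)
    rw [sh_zero] at h3
    exact rk_cz _ (kap_nonneg ((sgHom i).comp C.κ) (f := g) hg0) (hy0 j) h3
  have h3 : rk (trM T (Fin N)) (∑ j : Fin R, y j) ≤ N := by
    have h4 : ∑ j : Fin R, y j = (sgHom i).comp C.κ (cx (∑ j : Fin R, shr h (j : ℕ) g)) := by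
      rw [cx_sum, map_sum]
      rfl
    have h5 : Cz (∑ j : Fin R, y j) (1 : Mat N B) := by
      have h6 := kap_cz ((sgHom i).comp C.κ) (f := ∑ j : Fin R, shr h (j : ℕ) g) (g := 1)
        (fun x => by
          rw [ContinuousMap.sum_apply]
          exact Finset.sum_nonneg fun j _ => hg0 _) (fun x => zero_le_one) (fun x _ => one_pos)
      rw [← h4] at h6
      exact cz_trans h6 (cz_of_le (kap_nonneg _ fun x => zero_le_one) (kap_le_one _))
    have h6 := rk_cz (trM T (Fin N)) (Finset.sum_nonneg fun j _ => hy0 _) zero_le_one h5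
    rwa [rk_one T hT] at h6
  rw [h1] at h3
  refine le_trans ?_ h3
  calc (R : ℝ) * rk (trM T (Fin N)) (sg i i (C.ι (cx g))) =
        ∑ _j : Fin R, rk (trM T (Fin N)) (sg i i (C.ι (cx g))) := by
        rw [Finset.sum_const, Finset.card_univ, Fintype.card_fin, nsmul_eq_mul]
    _ ≤ _ := Finset.sum_le_sum fun j _ => h2 j

/-- room for a function -/
theorem Crossed.slack [Infinite X] (C : Crossed h B) (hm : Minimal h) {N : ℕ} {b : Mat N B}
    (hb : 0 ≤ b) (hb0 : b ≠ 0) (κ₀ : ℝ) (hκ : 0 < κ₀) :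
    ∃ (b' c' : Mat N B) (i : Fin N) (χ : C(X, ℝ)) (x₁ : X), 0 ≤ b' ∧ 0 ≤ c' ∧ b' * c' = 0 ∧
      Cz (b' + c') b ∧
      (∀ T : Tr B, T.f 1 = 1 → rk (trM T (Fin N)) b ≤ rk (trM T (Fin N)) b' + κ₀) ∧
      (∀ x, 0 ≤ χ x) ∧ χ x₁ ≠ 0 ∧ Cz (sg i i (C.ι (cx χ))) c' := by
  classical
  obtain ⟨i, hi⟩ := exists_entry hb hb0
  have hbi := entry_nonneg hb i
  obtain ⟨c, hc, hfaith⟩ := C.faith hbi hi
  obtain ⟨F, hF⟩ := C.exists_fs (b i i) (c / 4) (by positivity)
  obtain ⟨x₁, hx₁⟩ := hfaith F (hF.le.trans (by linarith))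
  obtain ⟨R, hR⟩ := exists_nat_gt ((N : ℝ) / κ₀)
  set S : Finset ℤ := (F.support ∪ Finset.Icc (-(R : ℤ)) R).erase 0 with hS
  obtain ⟨V₁, hV₁o, hx₁V₁, hV₁⟩ := exists_nhd (aper_of hm) S (Finset.notMem_erase _ _) x₁
  have hV₁' : ∀ k : ℤ, k ≠ 0 → k ∈ F.support ∪ Finset.Icc (-(R : ℤ)) R → ∀ y ∈ V₁,
      (h ^ k) y ∉ V₁ := fun k hk hk' => hV₁ k (Finset.mem_erase.mpr ⟨hk, hk'⟩)
  set V : Set X := V₁ ∩ {x | c / 2 < (F 0 x).re} with hV
  have hVo : IsOpen V := hV₁o.inter
    (isOpen_lt continuous_const (Complex.continuous_re.comp (F 0).continuous))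
  have hx₁V : x₁ ∈ V := ⟨hx₁V₁, by
    show c / 2 < (F 0 x₁).re
    linarith⟩
  obtain ⟨g, hg0, hg1, hgV, U, hUo, hx₁U, hgU⟩ := exists_bump x₁ hVo hx₁V
  set G : B := C.ι (cx g) with hG
  have hGs : star G = G := by rw [hG, ← map_star, star_cx]
  -- the lower bound
  have hlow : (c / 4) • (G * G) ≤ G * b i i * G := by
    have hcomp : G * C.fs F * G = C.ι (cx g * cx g * F 0) := by
      refine C.compress F g fun k hk hk0 x => ?_
      by_contra hne
      have m1 := hgV _ (left_ne_zero_of_mul hne)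
      have m2 := hgV _ (right_ne_zero_of_mul hne)
      refine hV₁' k hk0 (Finset.mem_union_left _ hk) _ m2.1 ?_
      rw [← zpa, add_neg_cancel, zpow_zero]
      exact m1.1
    set e : B := b i i - C.fs F with he
    have hbs : star (b i i) = b i i := (IsSelfAdjoint.of_nonneg hbi).star_eq
    have h1 : G * b i i * G = (1 / 2 : ℝ) • (G * (e + star e) * G) +
        (1 / 2 : ℝ) • (C.ι (cx g * cx g * F 0) + star (C.ι (cx g * cx g * F 0))) := by
      rw [← hcomp, ← smul_add, star_mul, star_mul, hGs, he, star_sub, hbs]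
      have : G * (b i i - C.fs F + (b i i - star (C.fs F))) * G +
          (G * C.fs F * G + G * (star (C.fs F) * G)) = (2 : ℝ) • (G * b i i * G) := by
        rw [two_smul]
        noncomm_ring
      rw [this, smul_smul]
      norm_num
    have h2 : -((c / 4) • (G * G)) ≤ (1 / 2 : ℝ) • (G * (e + star e) * G) := by
      have hsa : IsSelfAdjoint (-(1 / 2 : ℝ) • (e + star e)) :=
        IsSelfAdjoint.smul (by rfl) (IsSelfAdjoint.add_star_self e)
      have h3 : -(1 / 2 : ℝ) • (e + star e) ≤ (c / 4) • (1 : B) := by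
        refine le_of_norm_sub_le hsa ?_
        rw [norm_smul]
        have h5 := norm_add_le e (star e)
        rw [norm_star] at h5
        have h6 : ‖(-(1 / 2) : ℝ)‖ = 1 / 2 := by norm_num
        rw [h6]
        linarith [hF.le]
      have h4 := star_right_conjugate_le_conjugate h3 G
      rw [hGs, mul_smul_comm, smul_mul_assoc, mul_smul_comm, mul_one, smul_mul_assoc] at h4
      rw [neg_smul] at h4
      have := neg_le_neg h4
      rwa [neg_neg] at this
    have h3 : (c / 2) • (G * G) ≤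
        (1 / 2 : ℝ) • (C.ι (cx g * cx g * F 0) + star (C.ι (cx g * cx g * F 0))) := by
      set w : C(X, ℝ) := ⟨fun x => g x * g x * (F 0 x).re, by
        have := Complex.continuous_re.comp (F 0).continuous
        exact (g.continuous.mul g.continuous).mul this⟩ with hw
      have h4 : (1 / 2 : ℝ) • (C.ι (cx g * cx g * F 0) + star (C.ι (cx g * cx g * F 0))) =
          C.κ (cx w) := by
        rw [← map_star, ← map_add, ← Complex.coe_smul, ← map_smul, C.κ_apply]
        congr 1
        ext x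
        show ((1 / 2 : ℝ) : ℂ) * (((g x : ℝ) : ℂ) * ((g x : ℝ) : ℂ) * F 0 x +
          star (((g x : ℝ) : ℂ) * ((g x : ℝ) : ℂ) * F 0 x)) = ((g x * g x * (F 0 x).re : ℝ) : ℂ)
        rw [star_mul', star_mul']
        have h7 : star ((g x : ℝ) : ℂ) = ((g x : ℝ) : ℂ) := Complex.conj_ofReal _
        have h8 : F 0 x + star (F 0 x) = ((2 * (F 0 x).re : ℝ) : ℂ) := by
          have := Complex.add_conj (F 0 x)
          simpa using this
        rw [h7, ← mul_add, h8]
        push_cast
        ring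
      have h5 : (c / 2) • (G * G) = C.κ (cx ((c / 2) • (g * g))) := by
        rw [kap_rsmul, C.κ_apply, cx_mul, map_mul]
      rw [h4, h5]
      refine kap_mono C.κ fun x => ?_
      show c / 2 * (g x * g x) ≤ g x * g x * (F 0 x).re
      by_cases hx : g x = 0
      · rw [hx]
        simp
      · have hV' : c / 2 < (F 0 x).re := (hgV x hx).2
        have : 0 ≤ g x * g x := mul_self_nonneg _
        nlinarith
    rw [h1]
    have h6 := add_le_add h2 h3
    refine le_trans (le_of_eq ?_) h6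
    rw [← neg_smul, ← add_smul]
    congr 1
    ring
  -- the compressed element
  set x : Mat N B := sg i i G * Run7.h450.sq b with hx
  have hxs : star x = Run7.h450.sq b * sg i i G := by
    rw [hx, star_mul, sq_star, sg_star, hGs]
  have hxx : x * star x = sg i i (G * b i i * G) := by
    rw [hxs, hx]
    calc sg i i G * Run7.h450.sq b * (Run7.h450.sq b * sg i i G) =
          sg i i G * (Run7.h450.sq b * Run7.h450.sq b) * sg i i G := by simp only [mul_assoc]
      _ = sg i i G * b * sg i i G := by rw [sq_mul_sq hb]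
      _ = _ := sg_conj i i G G b
  have hInL : InL b x := (InL.sq hb).mul_left _
  set δ₁ : ℝ := c / 16 with hδ₁
  have hδ₁0 : 0 < δ₁ := by rw [hδ₁]; positivity
  obtain ⟨a1, p, ha1, -, hLa1, -, -, -, hrk, horth⟩ := cutdown b x hb hInL δ₁ hδ₁0
  have hxx0 : 0 ≤ star x * x := star_mul_self_nonneg x
  have hxx0' : 0 ≤ x * star x := mul_star_self_nonneg x
  set u : C(X, ℝ) := (c / 4) • (g * g) with hu
  refine ⟨a1, cut (2 * δ₁) (star x * x), i, ⟨fun x => (max 0 (u x - 2 * δ₁)) ^ 2, by fun_prop⟩, x₁,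
    ha1, cut_nonneg hxx0 _, ?_, ?_, ?_, fun x => pow_nonneg (le_max_left _ _) 2, ?_, ?_⟩
  · exact horth (fun t => max (t - 2 * δ₁) 0) (by fun_prop) (fun t ht => max_eq_right (by linarith))
  · have hLc : InL b (cut (2 * δ₁) (star x * x)) :=
      (hInL.mul_left _).trans (InL.cfcn (IsSelfAdjoint.of_nonneg hxx0) _)
    exact InL.cz hb (add_nonneg ha1 (cut_nonneg hxx0 _)) (hLa1.add hLc)
  · intro T hT
    refine (hrk (trM T (Fin N))).trans ?_
    have h1 : rk (trM T (Fin N)) (star x * x) ≤ κ₀ := by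
      rw [rk_swap, hxx]
      have h2 : sg i i (G * b i i * G) ≤ ‖b i i‖ • sg i i (C.ι (cx (g * g))) := by
        have h3 := CStarAlgebra.star_left_conjugate_le_norm_smul (a := G) (b := b i i)
          (IsSelfAdjoint.of_nonneg hbi)
        rw [hGs] at h3
        have h4 := hom_mono (sgHom (D := B) i) h3
        have h5 : (sgHom (D := B) i) (‖b i i‖ • (G * G)) =
            ‖b i i‖ • sg i i (C.ι (cx (g * g))) := by
          rw [cx_mul, map_mul, ← Complex.coe_smul, map_smul, Complex.coe_smul]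
          rfl
        rw [h5] at h4
        exact h4
      have h3 : 0 ≤ sg i i (G * b i i * G) := by
        rw [← hxx]
        exact hxx0'
      have hgg0 : ∀ x, 0 ≤ (g * g) x := fun x => mul_nonneg (hg0 x) (hg0 x)
      have h4 := (rk_mono (trM T (Fin N)) h3 h2).trans
        (rk_smul_le (trM T (Fin N)) (kap_nonneg ((sgHom i).comp C.κ) hgg0) _ (norm_nonneg _))
      have h5 := C.rk_small i (g := g * g) hgg0 (V := V) (fun y hy => hgV y fun h0 => hy (by
        show g y * g y = 0
        rw [h0, mul_zero])) R (fun k hk hkR y hy hy' => hV₁' k hk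
          (Finset.mem_union_right _ (Finset.mem_Icc.mpr (abs_le.mp hkR))) y hy.1 hy'.1) T hT
      have hN : (0 : ℝ) ≤ N := Nat.cast_nonneg N
      have hR0 : (0 : ℝ) < R := lt_of_le_of_lt (by positivity) hR
      rw [div_lt_iff₀ hκ] at hR
      have h6 : rk (trM T (Fin N)) (sg i i (C.ι (cx (g * g)))) ≤ κ₀ := by
        by_contra hcon
        push Not at hcon
        nlinarith
      exact h4.trans h6
    linarith
  · show (max 0 (u x₁ - 2 * δ₁)) ^ 2 ≠ 0
    have h1 : u x₁ = c / 4 := by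
      show c / 4 * (g x₁ * g x₁) = c / 4
      rw [hgU x₁ hx₁U]
      ring
    have h2 : 0 < u x₁ - 2 * δ₁ := by
      rw [h1, hδ₁]
      linarith
    rw [max_eq_right h2.le]
    positivity
  · have h1 : (sgHom i).comp C.κ (cx u) ≤ cut (2 * δ₁) (x * star x) + (2 * δ₁) • (1 : Mat N B) := by
      refine le_trans ?_ (le_cut_add hxx0' (2 * δ₁) (by positivity))
      rw [hxx]
      have h2 := hom_mono (sgHom (D := B) i) hlow
      refine le_trans (le_of_eq ?_) h2
      rw [kap_rsmul, ← Complex.coe_smul, ← Complex.coe_smul, map_smul]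
      congr 1
      show sg i i (C.ι (cx (g * g))) = sg i i (G * G)
      rw [cx_mul, map_mul]
    have h2 := fun_cz ((sgHom i).comp C.κ) u (2 * δ₁) (cut_nonneg hxx0' _) (by positivity) h1
    refine cz_trans h2 ?_
    have h3 := cut_swap (δ := 2 * δ₁) (by positivity) (star x)
    rwa [star_star] at h3

end

end Run7.h450.Dyn
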