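import Pool.Agent.Run7.h450.Z6

/-!
# Finite index inclusions and asymptotically central towers
-/

set_option autoImplicit false
set_option linter.unusedSectionVars false

namespace Run7.h450.Dyn

open Filter Topology
open Pool.Agent.H327R4.Pure

universe u v w

section

variable {R : Type v} [CStarAlgebra R]

/-- asymptotically equal sequences -/
def Ae (u v : ℕ → R) : Prop := Tendsto (fun s => u s - v s) atTop (𝓝 0)

/-- bounded sequences -/
def Bs (c : ℕ → R) : Prop := ∃ M : ℝ, ∀ k, ‖c k‖ ≤ M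

theorem Bs.const (x : R) : Bs (fun _ => x) := ⟨‖x‖, fun _ => le_rfl⟩

theorem Bs.mul {c d : ℕ → R} (hc : Bs c) (hd : Bs d) : Bs (fun k => c k * d k) := by
  obtain ⟨M, hM⟩ := hc
  obtain ⟨M', hM'⟩ := hd
  refine ⟨M * M', fun k => (norm_mul_le _ _).trans ?_⟩
  exact mul_le_mul (hM k) (hM' k) (norm_nonneg _) ((norm_nonneg _).trans (hM k))

theorem Ae.refl (u : ℕ → R) : Ae u u := by
  unfold Ae
  simp only [sub_self]
  exact tendsto_const_nhds

theorem Ae.symm {u v : ℕ → R} (h : Ae u v) : Ae v u := by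
  have h1 := Filter.Tendsto.neg h
  rw [neg_zero] at h1
  exact h1.congr fun s => neg_sub _ _

theorem Ae.trans {u v w : ℕ → R} (h : Ae u v) (h' : Ae v w) : Ae u w := by
  have h1 := Filter.Tendsto.add h h'
  rw [add_zero] at h1
  exact h1.congr fun s => sub_add_sub_cancel _ _ _

theorem Ae.sum {ι : Type w} (S : Finset ι) {u v : ι → ℕ → R} (h : ∀ i ∈ S, Ae (u i) (v i)) :
    Ae (fun s => ∑ i ∈ S, u i s) (fun s => ∑ i ∈ S, v i s) := by
  have h1 := tendsto_finsetSum S h
  rw [Finset.sum_const_zero] at h1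
  exact h1.congr fun s => Finset.sum_sub_distrib _ _

theorem Ae.mul_left {c u v : ℕ → R} (h : Ae u v) (hc : Bs c) :
    Ae (fun s => c s * u s) (fun s => c s * v s) := by
  obtain ⟨M, hM⟩ := hc
  have h1 : Tendsto (fun s => M * ‖u s - v s‖) atTop (𝓝 0) := by
    have := (tendsto_zero_iff_norm_tendsto_zero.mp h).const_mul M
    rwa [mul_zero] at this
  refine squeeze_zero_norm (fun s => ?_) h1
  rw [← mul_sub]
  exact (norm_mul_le _ _).trans (mul_le_mul_of_nonneg_right (hM s) (norm_nonneg _))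

theorem Ae.mul_right {c u v : ℕ → R} (h : Ae u v) (hc : Bs c) :
    Ae (fun s => u s * c s) (fun s => v s * c s) := by
  obtain ⟨M, hM⟩ := hc
  have h1 : Tendsto (fun s => ‖u s - v s‖ * M) atTop (𝓝 0) := by
    have := (tendsto_zero_iff_norm_tendsto_zero.mp h).mul_const M
    rwa [zero_mul] at this
  refine squeeze_zero_norm (fun s => ?_) h1
  rw [← sub_mul]
  exact (norm_mul_le _ _).trans (mul_le_mul_of_nonneg_left (hM s) (norm_nonneg _))

theorem Ae.congr {u v u' v' : ℕ → R} (h : Ae u v) (h1 : ∀ s, u s = u' s) (h2 : ∀ s, v s = v' s) :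
    Ae u' v' := by
  have e1 : u = u' := funext h1
  have e2 : v = v' := funext h2
  rw [← e1, ← e2]
  exact h

end

/-- a unital inclusion of index `n` with a conditional expectation -/
structure Ex (n : ℕ) (D : Type v) (D' : Type w) [CStarAlgebra D] [CStarAlgebra D'] where
  /-- the inclusion -/
  Φ : D →⋆ₙₐ[ℂ] D'
  /-- the expectation -/
  E : D' →ₗ[ℂ] D
  /-- the unitaries -/
  U : ℤ → D'
  U_zero : U 0 = 1
  U_add : ∀ k l, U (k + l) = U k * U l
  star_U : ∀ k, star (U k) = U (-k)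
  E_star : ∀ x, E (star x) = star (E x)
  E_left : ∀ a x, E (Φ a * x) = a * E x
  E_right : ∀ a x, E (x * Φ a) = E x * a
  E_U : ∀ k : ℤ, ¬ (n : ℤ) ∣ k → E (U k) = 0
  E_one : E 1 = 1
  decomp : ∀ x, ∑ l : Fin n, Φ (E (x * U (-((l : ℕ) : ℤ)))) * U ((l : ℕ) : ℤ) = x

section

variable {n : ℕ} {D : Type v} {D' : Type w} [CStarAlgebra D] [CStarAlgebra D'] (I : Ex n D D')

theorem Ex.decomp' (x : D') :
    ∑ l : Fin n, I.U (-((l : ℕ) : ℤ)) * I.Φ (I.E (I.U ((l : ℕ) : ℤ) * x)) = x := by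
  have h1 := congrArg star (I.decomp (star x))
  rw [star_star, star_sum] at h1
  conv_rhs => rw [← h1]
  refine Finset.sum_congr rfl fun l _ => ?_
  rw [star_mul, I.star_U, ← map_star, ← I.E_star, star_mul, I.star_U, neg_neg, star_star]

theorem Ex.U_mul_neg (k : ℤ) : I.U k * I.U (-k) = 1 := by
  rw [← I.U_add, add_neg_cancel, I.U_zero]

theorem Ex.U_neg_mul (k : ℤ) : I.U (-k) * I.U k = 1 := by
  rw [← I.U_add, neg_add_cancel, I.U_zero]

/-- the representation on the basis given by the unitaries -/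
noncomputable def Ex.θ : D' →⋆ₙₐ[ℂ] Mat n D where
  toFun b := CStarMatrix.ofMatrix fun i j =>
    I.E (I.U ((i : ℕ) : ℤ) * b * I.U (-((j : ℕ) : ℤ)))
  map_smul' c b := by
    ext i j
    show I.E (I.U _ * (c • b) * I.U _) = c • I.E (I.U _ * b * I.U _)
    rw [mul_smul_comm, smul_mul_assoc, map_smul]
  map_zero' := by
    ext i j
    show I.E (I.U _ * 0 * I.U _) = 0
    rw [mul_zero, zero_mul, map_zero]
  map_add' b c := by
    ext i j
    show I.E (I.U _ * (b + c) * I.U _) = I.E (I.U _ * b * I.U _) + I.E (I.U _ * c * I.U _)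
    rw [mul_add, add_mul, map_add]
  map_mul' b c := by
    ext i j
    rw [CStarMatrix.mul_apply]
    show I.E (I.U ((i : ℕ) : ℤ) * (b * c) * I.U (-((j : ℕ) : ℤ))) =
      ∑ k : Fin n, I.E (I.U ((i : ℕ) : ℤ) * b * I.U (-((k : ℕ) : ℤ))) *
        I.E (I.U ((k : ℕ) : ℤ) * c * I.U (-((j : ℕ) : ℤ)))
    have h1 := I.decomp' (c * I.U (-((j : ℕ) : ℤ)))
    have h2 : I.U ((i : ℕ) : ℤ) * (b * c) * I.U (-((j : ℕ) : ℤ)) =
        I.U ((i : ℕ) : ℤ) * b * (c * I.U (-((j : ℕ) : ℤ))) := by simp only [mul_assoc]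
    rw [h2, ← h1, Finset.mul_sum, map_sum]
    refine Finset.sum_congr rfl fun k _ => ?_
    rw [← I.E_right, ← mul_assoc, mul_assoc (I.U ((k : ℕ) : ℤ)) c]
  map_star' b := by
    ext i j
    rw [CStarMatrix.star_apply]
    show I.E (I.U _ * star b * I.U _) = star (I.E (I.U _ * b * I.U _))
    rw [← I.E_star, star_mul, star_mul, I.star_U, I.star_U, neg_neg, mul_assoc]

theorem Ex.θ_apply (b : D') (i j : Fin n) :
    I.θ b i j = I.E (I.U ((i : ℕ) : ℤ) * b * I.U (-((j : ℕ) : ℤ))) := rfl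

theorem Ex.θ_one : I.θ 1 = 1 := by
  ext i j
  rw [I.θ_apply, mul_one, ← I.U_add, CStarMatrix.one_apply]
  by_cases hij : i = j
  · rw [if_pos hij, hij, add_neg_cancel, I.U_zero, I.E_one]
  · rw [if_neg hij]
    refine I.E_U _ fun hd => ?_
    have h1 := i.2
    have h2 := j.2
    have h3 : ((i : ℕ) : ℤ) + -((j : ℕ) : ℤ) = 0 := by
      refine Int.eq_zero_of_abs_lt_dvd hd ?_
      rw [abs_lt]
      constructor <;> omega
    exact hij (Fin.ext (by omega))

/-- asymptotically central sequences which are orthogonal to their translates -/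
structure Ex.Cen (F : ℕ → D') : Prop where
  sa : ∀ s, star (F s) = F s
  bdd : Bs F
  comm : ∀ a, Ae (fun s => F s * I.Φ a) (fun s => I.Φ a * F s)
  zero : ∀ l : ℤ, ¬ (n : ℤ) ∣ l → Ae (fun s => F s * I.U l * F s) (fun _ => 0)

variable {I} {F : ℕ → D'}

theorem Ex.Cen.compress (hn : n ≠ 0) (hF : I.Cen F) (z : D') :
    Ae (fun s => F s * z * F s) (fun s => F s * F s * I.Φ (I.E z)) := by
  have h1 : ∀ l ∈ (Finset.univ : Finset (Fin n)),
      Ae (fun s => F s * (I.Φ (I.E (z * I.U (-((l : ℕ) : ℤ)))) * I.U ((l : ℕ) : ℤ)) * F s)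
        (fun s => if l = ⟨0, Nat.pos_of_ne_zero hn⟩ then F s * F s * I.Φ (I.E z) else 0) := by
    intro l _
    by_cases hl : l = ⟨0, Nat.pos_of_ne_zero hn⟩
    · have hl' : ((l : ℕ) : ℤ) = 0 := by rw [hl]; rfl
      refine ((hF.comm (I.E z)).symm.mul_left hF.bdd).congr (fun s => ?_) (fun s => ?_)
      · rw [hl', neg_zero, I.U_zero, mul_one, mul_one, mul_assoc]
      · rw [if_pos hl, mul_assoc]
    · have hd : ¬ (n : ℤ) ∣ ((l : ℕ) : ℤ) := by
        intro hd
        have h2 := Int.natCast_dvd_natCast.mp hd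
        have h3 : (l : ℕ) ≠ 0 := fun h3 => hl (Fin.ext h3)
        have := Nat.le_of_dvd (Nat.pos_of_ne_zero h3) h2
        have := l.2
        omega
      have e1 := (hF.comm (I.E (z * I.U (-((l : ℕ) : ℤ))))).mul_right
        ((Bs.const (I.U ((l : ℕ) : ℤ))).mul hF.bdd)
      have e2 := (hF.zero _ hd).mul_left (Bs.const (I.Φ (I.E (z * I.U (-((l : ℕ) : ℤ))))))
      have e3 : Ae (fun s => I.Φ (I.E (z * I.U (-((l : ℕ) : ℤ)))) * F s *
          (I.U ((l : ℕ) : ℤ) * F s)) (fun _ => 0) :=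
        e2.congr (fun s => by simp only [mul_assoc]) (fun s => by rw [mul_zero])
      refine (e1.trans e3).congr (fun s => by simp only [mul_assoc]) (fun s => ?_)
      rw [if_neg hl]
  refine (Ae.sum Finset.univ h1).congr (fun s => ?_) (fun s => ?_)
  · rw [← Finset.sum_mul, ← Finset.mul_sum, I.decomp]
  · rw [Finset.sum_ite_eq' Finset.univ, if_pos (Finset.mem_univ _)]

/-- one term of the product -/
theorem Ex.Cen.term (hn : n ≠ 0) (hF : I.Cen F) (z : D') (x y : D) :
    Ae (fun s => F s * I.Φ x * F s * z * (F s * I.Φ y * F s))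
      (fun s => F s * F s * F s * F s * I.Φ (x * I.E z * y)) := by
  have hB := hF.bdd
  have hc : ∀ d : D', Bs (fun _ : ℕ => d) := Bs.const
  have e1 : Ae (fun s => F s * I.Φ x * F s * z * (F s * I.Φ y * F s))
      (fun s => F s * I.Φ x * (F s * F s * I.Φ (I.E z)) * (I.Φ y * F s)) :=
    (((hF.compress hn z).mul_left (hB.mul (hc (I.Φ x)))).mul_right ((hc (I.Φ y)).mul hB)).congr
      (fun s => by simp only [mul_assoc]) (fun s => rfl)
  have e2 : Ae (fun s => F s * I.Φ x * (F s * F s * I.Φ (I.E z)) * (I.Φ y * F s))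
      (fun s => F s * (F s * I.Φ x) * (F s * I.Φ (I.E z) * (I.Φ y * F s))) :=
    (((hF.comm x).symm.mul_left hB).mul_right
      ((hB.mul (hc (I.Φ (I.E z)))).mul ((hc (I.Φ y)).mul hB))).congr
      (fun s => by simp only [mul_assoc]) (fun s => rfl)
  have e3 : Ae (fun s => F s * (F s * I.Φ x) * (F s * I.Φ (I.E z) * (I.Φ y * F s)))
      (fun s => F s * F s * (F s * I.Φ x) * (I.Φ (I.E z) * (I.Φ y * F s))) :=
    (((hF.comm x).symm.mul_left (hB.mul hB)).mul_right
      ((hc (I.Φ (I.E z))).mul ((hc (I.Φ y)).mul hB))).congr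
      (fun s => by simp only [mul_assoc]) (fun s => rfl)
  have e4 : Ae (fun s => F s * F s * (F s * I.Φ x) * (I.Φ (I.E z) * (I.Φ y * F s)))
      (fun s => F s * F s * F s * (F s * I.Φ (x * I.E z * y))) :=
    (((hF.comm (x * I.E z * y)).symm.mul_left ((hB.mul hB).mul hB))).congr
      (fun s => by
        rw [map_mul, map_mul]
        simp only [mul_assoc]) (fun s => rfl)
  exact (((e1.trans e2).trans e3).trans e4).congr (fun s => rfl) (fun s => by
    simp only [mul_assoc])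

/-- the elements implementing the comparison -/
noncomputable def Ex.ww (I : Ex n D D') (x : Mat n D) (f : D') : D' :=
  ∑ z : Fin n × Fin n, I.U (-((z.1 : ℕ) : ℤ)) * f * I.Φ (x z.1 z.2) * f * I.U ((z.2 : ℕ) : ℤ)

/-- the main asymptotic formula -/
theorem Ex.Cen.main (hn : n ≠ 0) (hF : I.Cen F) (a b : D') (x : Mat n D)
    (hx : x * I.θ b * star x = I.θ a) :
    Ae (fun s => I.ww x (F s) * b * star (I.ww x (F s)))
      (fun s => (∑ i : Fin n, I.U (-((i : ℕ) : ℤ)) * (F s * F s * F s * F s) *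
        I.U ((i : ℕ) : ℤ)) * a) := by
  have h1 : ∀ z ∈ (Finset.univ : Finset (Fin n × Fin n)),
      Ae (fun s => ∑ z' : Fin n × Fin n,
        (I.U (-((z.1 : ℕ) : ℤ)) * F s * I.Φ (x z.1 z.2) * F s * I.U ((z.2 : ℕ) : ℤ)) * b *
          star (I.U (-((z'.1 : ℕ) : ℤ)) * F s * I.Φ (x z'.1 z'.2) * F s * I.U ((z'.2 : ℕ) : ℤ)))
        (fun s => ∑ z' : Fin n × Fin n,
          I.U (-((z.1 : ℕ) : ℤ)) * (F s * F s * F s * F s *
            I.Φ (x z.1 z.2 * I.θ b z.2 z'.2 * star (x z'.1 z'.2))) * I.U ((z'.1 : ℕ) : ℤ)) := by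
    intro z _
    refine Ae.sum Finset.univ fun z' _ => ?_
    have e1 := hF.term hn (I.U ((z.2 : ℕ) : ℤ) * b * I.U (-((z'.2 : ℕ) : ℤ))) (x z.1 z.2)
      (star (x z'.1 z'.2))
    refine ((e1.mul_left (Bs.const (I.U (-((z.1 : ℕ) : ℤ))))).mul_right
      (Bs.const (I.U ((z'.1 : ℕ) : ℤ)))).congr (fun s => ?_) (fun s => ?_)
    · rw [star_mul, star_mul, star_mul, star_mul, I.star_U, I.star_U, neg_neg, hF.sa, map_star]
      simp only [mul_assoc]
    · rfl
  refine (Ae.sum Finset.univ h1).congr (fun s => ?_) (fun s => ?_)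
  · unfold Ex.ww
    rw [star_sum, Finset.sum_mul, Finset.sum_mul]
    refine Finset.sum_congr rfl fun z _ => ?_
    rw [Finset.mul_sum]
  · rw [Fintype.sum_prod_type, Finset.sum_mul]
    refine Finset.sum_congr rfl fun i _ => ?_
    have h2 : ∑ j : Fin n, ∑ z' : Fin n × Fin n,
        I.U (-((i : ℕ) : ℤ)) * (F s * F s * F s * F s *
          I.Φ (x i j * I.θ b j z'.2 * star (x z'.1 z'.2))) * I.U ((z'.1 : ℕ) : ℤ) =
        ∑ i' : Fin n, I.U (-((i : ℕ) : ℤ)) * (F s * F s * F s * F s) *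
          (I.Φ (I.θ a i i') * I.U ((i' : ℕ) : ℤ)) := by
      rw [Finset.sum_comm, Fintype.sum_prod_type]
      refine Finset.sum_congr rfl fun i' _ => ?_
      rw [← hx, CStarMatrix.mul_apply, map_sum, Finset.sum_mul, Finset.mul_sum]
      refine Finset.sum_congr rfl fun j' _ => ?_
      rw [CStarMatrix.mul_apply, Finset.sum_mul, map_sum, Finset.sum_mul, Finset.mul_sum]
      refine Finset.sum_congr rfl fun j _ => ?_
      rw [CStarMatrix.star_apply]
      simp only [mul_assoc]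
    refine h2.trans ?_
    rw [← Finset.mul_sum]
    have h3 : ∑ i' : Fin n, I.Φ (I.θ a i i') * I.U ((i' : ℕ) : ℤ) = I.U ((i : ℕ) : ℤ) * a :=
      I.decomp _
    rw [h3]
    simp only [mul_assoc]

end

end Run7.h450.Dyn
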