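import Pool.Agent.Run7.h450.Z7
import Pool.Agent.Run7.h450.Z10
import Pool.Agent.Run7.h450.Z11

/-!
# The reverse inequality: `n rc(C*(Z, X, h)) ≤ rc(C*(Z, X, h^n))`
-/

set_option autoImplicit false
set_option linter.unusedSectionVars false

namespace Run7.h450.Dyn

open Filter Topology
open Pool.Agent.H327R4.Pure
open scoped ENNReal NNReal

universe u v w

section

variable {X : Type u} [TopologicalSpace X] [CompactSpace X] [T2Space X] [Infinite X]
  {h : X ≃ₜ X} {n : ℕ} {A B : Type v} [CStarAlgebra A] [PartialOrder A] [StarOrderedRing A]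
  [CStarAlgebra B] [PartialOrder B] [StarOrderedRing B]
  {CA : Crossed (h ^ n) A} {CB : Crossed h B}

theorem Incl.E_star (I : Incl CA CB) (b : B) : I.E (star b) = star (I.E b) := by
  refine I.inj ?_
  rw [I.avg, map_star, I.avg]
  unfold Crossed.avg
  have h1 : star ((n : ℝ)⁻¹) = (n : ℝ)⁻¹ := star_trivial _
  rw [star_smul, star_sum, h1]
  congr 1
  exact Finset.sum_congr rfl fun j _ => map_star _ _

theorem Incl.E_one (I : Incl CA CB) (hn : n ≠ 0) : I.E 1 = 1 := by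
  have h1 := I.E_Φ hn 1
  rwa [map_one] at h1

/-- the inclusion of matrix algebras -/
noncomputable def Incl.ex (I : Incl CA CB) (hn : n ≠ 0) (N : ℕ) : Ex n (Mat N A) (Mat N B) where
  Φ := ent I.inc N
  E :=
    { toFun := fun x => CStarMatrix.ofMatrix fun p q => I.E (x p q)
      map_add' := fun x y => by
        ext p q
        exact map_add I.E _ _
      map_smul' := fun c x => by
        ext p q
        exact map_smul I.E _ _ }
  U := fun k => CB.uN N k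
  U_zero := CB.uN_zero N
  U_add := CB.uN_add N
  star_U := CB.star_uN N
  E_star x := by
    ext p q
    show I.E ((star x) p q) = star (CStarMatrix.ofMatrix (fun p q => I.E (x p q))) p q
    rw [CStarMatrix.star_apply, CStarMatrix.star_apply, I.E_star]
    rfl
  E_left a x := by
    ext p q
    show I.E ((ent I.inc N a * x) p q) = (a * CStarMatrix.ofMatrix (fun p q => I.E (x p q))) p q
    rw [CStarMatrix.mul_apply, CStarMatrix.mul_apply, map_sum]
    exact Finset.sum_congr rfl fun r _ => I.E_left hn _ _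
  E_right a x := by
    ext p q
    show I.E ((x * ent I.inc N a) p q) = (CStarMatrix.ofMatrix (fun p q => I.E (x p q)) * a) p q
    rw [CStarMatrix.mul_apply, CStarMatrix.mul_apply, map_sum]
    exact Finset.sum_congr rfl fun r _ => I.E_right hn _ _
  E_U k hk := by
    ext p q
    show I.E (scalHom N (CB.up k) p q) = 0
    rw [scalHom_apply, scal_apply]
    split_ifs
    · rw [I.E_up hn, if_neg hk]
    · exact map_zero _
  E_one := by
    ext p q
    show I.E ((1 : Mat N B) p q) = (1 : Mat N A) p q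
    rw [CStarMatrix.one_apply, CStarMatrix.one_apply]
    split_ifs
    · exact I.E_one hn
    · exact map_zero _
  decomp x := by
    ext p q
    rw [cm_sum_apply]
    have h1 : ∀ l : Fin n, (ent I.inc N (CStarMatrix.ofMatrix fun p q =>
        I.E ((x * CB.uN N (-((l : ℕ) : ℤ))) p q)) * CB.uN N ((l : ℕ) : ℤ)) p q =
        I.Φ (I.E (x p q * CB.up (-((l : ℕ) : ℤ)))) * CB.up ((l : ℕ) : ℤ) := by
      intro l
      have h2 : (ent I.inc N (CStarMatrix.ofMatrix fun p q =>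
        I.E ((x * CB.uN N (-((l : ℕ) : ℤ))) p q)) * CB.uN N ((l : ℕ) : ℤ)) p q =
        (ent I.inc N (CStarMatrix.ofMatrix fun p q =>
        I.E ((x * CB.uN N (-((l : ℕ) : ℤ))) p q))) p q * CB.up ((l : ℕ) : ℤ) := mul_scal _ _ _ _
      rw [h2]
      have h3 : (x * CB.uN N (-((l : ℕ) : ℤ))) p q = x p q * CB.up (-((l : ℕ) : ℤ)) :=
        mul_scal _ _ _ _
      rw [← h3]
      rfl
    refine (Finset.sum_congr rfl fun l _ => h1 l).trans ?_
    have h4 := I.decomp hn (x p q)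
    rw [Finset.sum_range] at h4
    exact h4

end

section

variable {D : Type w} [CStarAlgebra D] [PartialOrder D] [StarOrderedRing D]

/-- the inverse of `flat` -/
def unflat {n N : ℕ} (Y : Mat (n * N) D) : Mat n (Mat N D) :=
  CStarMatrix.ofMatrix fun i i' => CStarMatrix.ofMatrix fun k k' => Y (ix i k) (ix i' k')

theorem flat_unflat {n N : ℕ} (Y : Mat (n * N) D) : flat n N (unflat Y) = Y := by
  ext p q
  obtain ⟨i, k, rfl⟩ := ix_surj p
  obtain ⟨i', k', rfl⟩ := ix_surj q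
  rw [flat_apply]
  rfl

theorem cz_of_flat {n N : ℕ} {a b : Mat n (Mat N D)} (h : Cz (flat n N a) (flat n N b)) :
    Cz a b := by
  obtain ⟨x, hx⟩ := h
  refine ⟨fun s => unflat (x s), ?_⟩
  rw [tendsto_cm] at hx ⊢
  intro i i'
  rw [tendsto_cm]
  intro k k'
  have h1 := hx (ix i k) (ix i' k')
  rw [flat_apply] at h1
  refine h1.congr fun s => ?_
  conv_lhs => rw [← flat_unflat (x s)]
  rw [← map_star, ← map_mul, ← map_mul, flat_apply]

theorem rk_flat (T : Tr D) {n N : ℕ} {x : Mat n (Mat N D)} (hx : 0 ≤ x) :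
    rk (trM T (Fin (n * N))) (flat n N x) = rk (trM (trM T (Fin N)) (Fin n)) x := by
  rw [← rk_pull (flat n N) _ hx]
  exact rk_congr (fun y => trM_flat T y) x

end

section

variable {R : Type v} [CStarAlgebra R] [PartialOrder R] [StarOrderedRing R]

theorem fin_le {a W Q : R} (ha : 0 ≤ a) (hW : star W = W) (hQ : star Q = Q) {η : ℝ}
    (h : ‖W - Q * a‖ ≤ η) :
    a ≤ (2 : ℝ) • W + ‖a‖ • ((1 - Q) * (1 - Q)) + (2 * η) • (1 : R) := by
  have hsa : star a = a := (IsSelfAdjoint.of_nonneg ha).star_eq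
  set e : R := Q * a - W with he
  have hee : e + star e = Q * a + a * Q - (2 : ℝ) • W := by
    rw [he, star_sub, star_mul, hsa, hQ, hW, two_smul]
    abel
  have h1 : e + star e ≤ (2 * η) • (1 : R) := by
    refine le_of_norm_sub_le (IsSelfAdjoint.add_star_self e) ?_
    have h5 := norm_add_le e (star e)
    rw [norm_star] at h5
    rw [norm_sub_rev] at h
    linarith
  have h2 : 0 ≤ Q * a * Q := conj_nonneg ha hQ
  have h3 : (1 - Q) * a * (1 - Q) ≤ ‖a‖ • ((1 - Q) * (1 - Q)) := by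
    have h4 := CStarAlgebra.star_left_conjugate_le_norm_smul (a := 1 - Q) (b := a)
      (IsSelfAdjoint.of_nonneg ha)
    rwa [one_sub_star hQ] at h4
  have h4 : a = (2 : ℝ) • W + (e + star e) - Q * a * Q + (1 - Q) * a * (1 - Q) := by
    rw [hee]
    noncomm_ring
  calc a = (2 : ℝ) • W + (e + star e) - Q * a * Q + (1 - Q) * a * (1 - Q) := h4
    _ ≤ (2 : ℝ) • W + (2 * η) • (1 : R) - 0 + ‖a‖ • ((1 - Q) * (1 - Q)) := by
        refine add_le_add (sub_le_sub (add_le_add le_rfl h1) h2) h3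
    _ = _ := by
        rw [sub_zero]
        abel

end

section

variable {X : Type u} [TopologicalSpace X] [CompactSpace X] [T2Space X] [Infinite X]
  {h : X ≃ₜ X} {n : ℕ} {A B : Type v} [CStarAlgebra A] [PartialOrder A] [StarOrderedRing A]
  [CStarAlgebra B] [PartialOrder B] [StarOrderedRing B]
  {CA : Crossed (h ^ n) A} {CB : Crossed h B}

theorem Crossed.kN_norm_le (C : Crossed h B) (N : ℕ) (g : C(X, ℝ)) (c : ℝ) (hc : 0 ≤ c)
    (hg : ∀ x, |g x| ≤ c) : ‖C.kN N (cx g)‖ ≤ c := by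
  refine (NonUnitalStarAlgHom.norm_apply_le _ _).trans ((ContinuousMap.norm_le _ hc).mpr fun x => ?_)
  rw [cx_apply, Complex.norm_real]
  exact hg x

theorem tendsto_div_succ (c : ℝ) : Tendsto (fun s : ℕ => c / ((s + 1 : ℕ) : ℝ)) atTop (𝓝 0) :=
  (tendsto_const_div_atTop_nhds_zero_nat c).comp (tendsto_add_atTop_nat 1)

/-- traces of the subalgebra induce traces -/
theorem Incl.trace (I : Incl CA CB) (hn : n ≠ 0) {N : ℕ} (hN : N ≠ 0) (T : Tr A)
    (hT : T.f 1 = 1) : ∃ S : Tr B, S.f 1 = 1 ∧ ∀ b : Mat N B, 0 ≤ b →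
      rk (trM (trM T (Fin N)) (Fin n)) ((I.ex hn N).θ b) = n * rk (trM S (Fin N)) b := by
  obtain ⟨S₀, hS₀⟩ := exists_trM N (Tr.pull (I.ex hn N).θ (trM (trM T (Fin N)) (Fin n)))
  have hone : ∀ (M : ℕ) {R : Type v} [CStarAlgebra R] [PartialOrder R] [StarOrderedRing R]
      (T : Tr R), (trM T (Fin M)).f 1 = M * T.f 1 := by
    intro M R _ _ _ T
    rw [trM_apply]
    have h2 : ∀ i : Fin M, (1 : Mat M R) i i = 1 := fun i => by
      rw [CStarMatrix.one_apply, if_pos rfl]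
    simp [h2]
  have h1 : S₀.f 1 = n := by
    have h2 := hS₀ 1
    rw [Tr.pull_apply, Ex.θ_one, hone, hone, hone, hT] at h2
    have hN' : (N : ℂ) ≠ 0 := by exact_mod_cast hN
    have h3 : (N : ℂ) * S₀.f 1 = N * n := by
      rw [← h2]
      ring
    exact mul_left_cancel₀ hN' h3
  have hn' : (n : ℝ) ≠ 0 := by exact_mod_cast hn
  refine ⟨Tr.scale (1 / n) (by positivity) S₀, ?_, fun b hb => ?_⟩
  · show ((1 / n : ℝ) : ℂ) * S₀.f 1 = 1
    rw [h1]
    push_cast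
    have hn'' : (n : ℂ) ≠ 0 := by exact_mod_cast hn
    field_simp
  · rw [← rk_pull (I.ex hn N).θ _ hb, rk_congr hS₀]
    have h2 := rk_comb (ι := Fin 1) (trM (Tr.scale (1 / n) (by positivity) S₀) (Fin N))
      (fun _ => trM S₀ (Fin N)) (fun _ => (1 / n : ℝ)) (fun x => by
        rw [Fin.sum_univ_one, trM_apply, trM_apply, Finset.mul_sum]
        rfl) hb
    rw [h2, Fin.sum_univ_one]
    field_simp

/-- the tower functions are asymptotically central -/
theorem Incl.cen (I : Incl CA CB) (hn : n ≠ 0) (N : ℕ) (f : ℕ → C(X, ℝ))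
    (hf0 : ∀ s x, 0 ≤ f s x) (hf1 : ∀ s x, f s x ≤ 1)
    (h1 : ∀ (s : ℕ) (k : ℤ), (n : ℤ) ∣ k → ∀ x,
      |f s ((h ^ k) x) - f s x| ≤ |(k : ℝ)| / ((s + 1 : ℕ) : ℝ))
    (h2 : ∀ (s : ℕ) (k : ℤ), ¬ (n : ℤ) ∣ k → ∀ x,
      f s x * f s ((h ^ k) x) ≤ |(k : ℝ)| / ((s + 1 : ℕ) : ℝ)) :
    (I.ex hn N).Cen (fun s => CB.kN N (cx (f s))) := by
  have hnorm : ∀ s, ‖CB.kN N (cx (f s))‖ ≤ 1 := fun s =>
    CB.kN_norm_le N (f s) 1 zero_le_one fun x => by
      rw [abs_of_nonneg (hf0 s x)]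
      exact hf1 s x
  have hshift : ∀ k : ℤ, (n : ℤ) ∣ k →
      Ae (fun s => CB.kN N (cx (f s))) (fun s => CB.kN N (sh h k (cx (f s)))) := by
    intro k hk
    refine squeeze_zero_norm (fun s => ?_) (tendsto_div_succ |(k : ℝ)|)
    rw [← map_sub, sh_cx, ← cx_sub]
    refine CB.kN_norm_le N _ _ (by positivity) fun x => ?_
    have h3 := h1 s (-k) (dvd_neg.mpr hk) x
    rw [abs_sub_comm, Int.cast_neg, abs_neg] at h3
    exact h3
  refine ⟨fun s => ?_, ⟨1, hnorm⟩, fun a => ?_, fun l hl => ?_⟩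
  · rw [← map_star, star_cx]
  · -- a dense subset suffices
    have hdense : ∀ (S : Finset ℤ) (g : ℤ → Fin N → Fin N → C(X, ℂ)),
        Ae (fun s => CB.kN N (cx (f s)) * (I.ex hn N).Φ (∑ k ∈ S, CA.mN (g k) * CA.uN N k))
          (fun s => (I.ex hn N).Φ (∑ k ∈ S, CA.mN (g k) * CA.uN N k) * CB.kN N (cx (f s))) := by
      intro S g
      have e1 : (I.ex hn N).Φ (∑ k ∈ S, CA.mN (g k) * CA.uN N k) =
          ∑ k ∈ S, CB.mN (g k) * CB.uN N (n * k) := by
        rw [map_sum]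
        refine Finset.sum_congr rfl fun k _ => ?_
        rw [map_mul]
        congr 1
        · ext p q
          exact I.ι _
        · ext p q
          show I.Φ (scalHom N (CA.up k) p q) = scalHom N (CB.up (n * k)) p q
          rw [scalHom_apply, scalHom_apply, scal_apply, scal_apply]
          split_ifs
          · exact I.up k
          · exact map_zero _
      rw [e1]
      have e2 : ∀ k ∈ S, Ae (fun s => CB.kN N (cx (f s)) * (CB.mN (g k) * CB.uN N (n * k)))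
          (fun s => CB.mN (g k) * CB.uN N (n * k) * CB.kN N (cx (f s))) := by
        intro k _
        have e3 := ((hshift (n * k) (dvd_mul_right _ _)).mul_left
          (Bs.const (CB.mN (g k)))).mul_right (Bs.const (CB.uN N (n * k)))
        refine e3.congr (fun s => ?_) (fun s => ?_)
        · rw [CB.mN_kN, mul_assoc]
        · rw [mul_assoc, ← CB.uN_kN, ← mul_assoc]
      refine (Ae.sum S e2).congr (fun s => ?_) (fun s => ?_)
      · rw [Finset.mul_sum]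
      · rw [Finset.sum_mul]
    show Tendsto _ _ _
    rw [Metric.tendsto_atTop]
    intro ε hε
    obtain ⟨S, g, hSg⟩ := CA.exists_sum a (ε / 4) (by positivity)
    set a' : Mat N A := ∑ k ∈ S, CA.mN (g k) * CA.uN N k with ha'
    obtain ⟨s₀, hs₀⟩ := (Metric.tendsto_atTop.mp (hdense S g)) (ε / 2) (by positivity)
    refine ⟨s₀, fun s hs => ?_⟩
    have e1 := hs₀ s hs
    rw [dist_eq_norm, sub_zero] at e1 ⊢
    set Fs : Mat N B := CB.kN N (cx (f s)) with hFs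
    have e2 : Fs * (I.ex hn N).Φ a - (I.ex hn N).Φ a * Fs =
        (Fs * (I.ex hn N).Φ a' - (I.ex hn N).Φ a' * Fs) +
        (Fs * (I.ex hn N).Φ (a - a') - (I.ex hn N).Φ (a - a') * Fs) := by
      rw [map_sub]
      noncomm_ring
    have e3 : ‖(I.ex hn N).Φ (a - a')‖ ≤ ε / 4 :=
      (NonUnitalStarAlgHom.norm_apply_le _ _).trans hSg.le
    have e4 : ‖Fs * (I.ex hn N).Φ (a - a')‖ ≤ ε / 4 := by
      refine (norm_mul_le _ _).trans ?_
      calc ‖Fs‖ * ‖(I.ex hn N).Φ (a - a')‖ ≤ 1 * (ε / 4) :=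
            mul_le_mul (hnorm s) e3 (norm_nonneg _) zero_le_one
        _ = _ := one_mul _
    have e5 : ‖(I.ex hn N).Φ (a - a') * Fs‖ ≤ ε / 4 := by
      refine (norm_mul_le _ _).trans ?_
      calc ‖(I.ex hn N).Φ (a - a')‖ * ‖Fs‖ ≤ (ε / 4) * 1 :=
            mul_le_mul e3 (hnorm s) (norm_nonneg _) (by positivity)
        _ = _ := mul_one _
    rw [e2]
    have e6 := norm_add_le (Fs * (I.ex hn N).Φ a' - (I.ex hn N).Φ a' * Fs)
      (Fs * (I.ex hn N).Φ (a - a') - (I.ex hn N).Φ (a - a') * Fs)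
    have e7 := norm_sub_le (Fs * (I.ex hn N).Φ (a - a')) ((I.ex hn N).Φ (a - a') * Fs)
    linarith
  · have e1 : Ae (fun s => CB.kN N (cx (f s * shr h l (f s)))) (fun _ => 0) := by
      refine squeeze_zero_norm (fun s => ?_) (tendsto_div_succ |(l : ℝ)|)
      rw [sub_zero]
      refine CB.kN_norm_le N _ _ (by positivity) fun x => ?_
      show |f s x * f s ((h ^ (-l)) x)| ≤ _
      rw [abs_of_nonneg (mul_nonneg (hf0 s _) (hf0 s _))]
      have h3 := h2 s (-l) (fun hd => hl (dvd_neg.mp hd)) x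
      rwa [Int.cast_neg, abs_neg] at h3
    refine (e1.mul_right (Bs.const (CB.uN N l))).congr (fun s => ?_) (fun s => ?_)
    · show _ = CB.kN N (cx (f s)) * CB.uN N l * CB.kN N (cx (f s))
      rw [mul_assoc, CB.uN_kN, ← mul_assoc, ← map_mul, sh_cx, ← cx_mul]
    · rw [zero_mul]

theorem Incl.qsum (I : Incl CA CB) (hn : n ≠ 0) (N : ℕ) (f : C(X, ℝ)) :
    ∑ i : Fin n, (I.ex hn N).U (-((i : ℕ) : ℤ)) * (CB.kN N (cx f) * CB.kN N (cx f) *
      CB.kN N (cx f) * CB.kN N (cx f)) * (I.ex hn N).U ((i : ℕ) : ℤ) =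
    CB.kN N (cx ⟨fun x => ∑ k ∈ Finset.range n, (f ((h ^ (k : ℤ)) x)) ^ 4, by
      refine continuous_finsetSum _ fun k _ => ?_
      exact (f.continuous.comp (h ^ (k : ℤ)).continuous).pow 4⟩) := by
  have h1 : ∀ i : Fin n, (I.ex hn N).U (-((i : ℕ) : ℤ)) * (CB.kN N (cx f) * CB.kN N (cx f) *
      CB.kN N (cx f) * CB.kN N (cx f)) * (I.ex hn N).U ((i : ℕ) : ℤ) =
      CB.kN N (cx (shr h (-((i : ℕ) : ℤ)) (f * f * f * f))) := by
    intro i
    show CB.uN N (-((i : ℕ) : ℤ)) * _ * CB.uN N ((i : ℕ) : ℤ) = _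
    rw [← map_mul, ← map_mul, ← map_mul, ← cx_mul, ← cx_mul, ← cx_mul, CB.uN_kN, mul_assoc,
      ← CB.uN_add, neg_add_cancel, CB.uN_zero, mul_one, sh_cx]
  rw [Finset.sum_congr rfl fun i _ => h1 i, ← map_sum, ← cx_sum]
  congr 2
  ext x
  rw [ContinuousMap.sum_apply]
  show ∑ i : Fin n, shr h (-((i : ℕ) : ℤ)) (f * f * f * f) x =
    ∑ k ∈ Finset.range n, (f ((h ^ (k : ℤ)) x)) ^ 4
  rw [Finset.sum_range]
  refine Finset.sum_congr rfl fun i _ => ?_
  rw [shr_apply, neg_neg]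
  show f _ * f _ * f _ * f _ = f _ ^ 4
  ring

end

section

variable {X : Type u} [TopologicalSpace X] [CompactSpace X] [T2Space X] [Infinite X]
  {h : X ≃ₜ X} {n : ℕ} {A B : Type v} [CStarAlgebra A] [PartialOrder A] [StarOrderedRing A]
  [CStarAlgebra B] [PartialOrder B] [StarOrderedRing B]
  {CA : Crossed (h ^ n) A} {CB : Crossed h B}

theorem minimal_of_pow (hm : Minimal (h ^ n)) : Minimal h := by
  intro x
  refine (hm x).mono ?_
  rintro _ ⟨k, rfl⟩
  refine ⟨n * k, ?_⟩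
  show (h ^ ((n : ℤ) * k)) x = ((h ^ n) ^ k) x
  rw [zpow_mul, zpow_natCast]

/-- the transfer of comparison from `Mat n (Mat N A)` to `Mat N B` -/
theorem Incl.transfer (I : Incl CA CB) (hn : n ≠ 0) (hm : Minimal h) {N : ℕ} {a b b' c' : Mat N B}
    (ha : 0 ≤ a) (hb' : 0 ≤ b') (hc' : 0 ≤ c') (hbc : b' * c' = 0) (hbcb : Cz (b' + c') b)
    {i : Fin N} {χ : C(X, ℝ)} (hχ0 : ∀ x, 0 ≤ χ x) {x₁ : X} (hχ : χ x₁ ≠ 0)
    (hχc : Cz (sg i i (CB.ι (cx χ))) c')
    (hcz : Cz ((I.ex hn N).θ a) ((I.ex hn N).θ b')) : Cz a b := by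
  have hθa : 0 ≤ (I.ex hn N).θ a := hom_nonneg (R := Mat N B) (R' := Mat n (Mat N A)) _ ha
  have hθb : 0 ≤ (I.ex hn N).θ b' := hom_nonneg (R := Mat N B) (R' := Mat n (Mat N A)) _ hb'
  refine clo' _ _ _ ha fun ε hε => ?_
  -- the exact comparison
  obtain ⟨δ, x, hδ, hx⟩ := exa' _ _ _ ε hθa hθb hcz hε
  have hx' : x * (I.ex hn N).θ (cut δ b') * star x = (I.ex hn N).θ (cut ε a) := by
    rw [(hom' (Mat N B) (Mat n (Mat N A)) (I.ex hn N).θ b' hb').2.1 δ hδ.le,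
      (hom' (Mat N B) (Mat n (Mat N A)) (I.ex hn N).θ a ha).2.1 ε hε.le]
    exact hx.symm
  set a₁ : Mat N B := cut ε a with ha₁
  set b₁ : Mat N B := cut δ b' with hb₁
  have ha₁0 : 0 ≤ a₁ := cut_nonneg ha ε
  have hb₁0 : 0 ≤ b₁ := cut_nonneg hb' δ
  have hb₁b : Cz b₁ b' := cz_of_le hb₁0 (cut_le hb' hδ.le)
  -- the towers
  have htow := fun s : ℕ => CB.tower hm i hχ0 x₁ hχ n (s + 1) hn (Nat.succ_pos s)
  choose f ψ hf0 hf1 hf2 hf3 hψ0 hψ1 hψ2 using htow
  have hcen := I.cen hn N f hf0 hf1 hf2 hf3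
  have hmain := hcen.main hn a₁ b₁ x hx'
  set F : ℕ → Mat N B := fun s => CB.kN N (cx (f s)) with hF
  set w : ℕ → Mat N B := fun s => (I.ex hn N).ww x (F s) with hw
  set q : ℕ → C(X, ℝ) := fun s => ⟨fun x => ∑ k ∈ Finset.range n, (f s ((h ^ (k : ℤ)) x)) ^ 4, by
      refine continuous_finsetSum _ fun k _ => ?_
      exact ((f s).continuous.comp (h ^ (k : ℤ)).continuous).pow 4⟩ with hq
  have hmain' : Tendsto (fun s => w s * b₁ * star (w s) - CB.kN N (cx (q s)) * a₁) atTop (𝓝 0) :=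
    hmain.congr (fun s => rfl) (fun s => by
      show (∑ i : Fin n, (I.ex hn N).U (-((i : ℕ) : ℤ)) * (F s * F s * F s * F s) *
        (I.ex hn N).U ((i : ℕ) : ℤ)) * a₁ = _
      rw [hF, I.qsum hn N (f s)])
  refine clo' _ _ _ ha₁0 fun ε' hε' => ?_
  -- choose `s`
  have hlim : Tendsto (fun s : ℕ => 2 * ‖w s * b₁ * star (w s) - CB.kN N (cx (q s)) * a₁‖ +
      ‖a₁‖ * (5 * (n : ℝ) ^ 2 / ((s + 1 : ℕ) : ℝ)) ^ 2) atTop (𝓝 0) := by
    have h1 := (tendsto_zero_iff_norm_tendsto_zero.mp hmain').const_mul 2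
    have h2 := ((tendsto_div_succ (5 * (n : ℝ) ^ 2)).pow 2).const_mul ‖a₁‖
    have h3 := h1.add h2
    simpa using h3
  obtain ⟨s, hs⟩ := (hlim.eventually (gt_mem_nhds hε')).exists
  set η : ℝ := ‖w s * b₁ * star (w s) - CB.kN N (cx (q s)) * a₁‖ with hη
  set d : ℝ := (5 * (n : ℝ) ^ 2 / ((s + 1 : ℕ) : ℝ)) ^ 2 with hd
  set W : Mat N B := w s * b₁ * star (w s) with hW
  have hW0 : 0 ≤ W := star_right_conjugate_nonneg hb₁0 (w s)
  have hQs : star (CB.kN N (cx (q s))) = CB.kN N (cx (q s)) := by rw [← map_star, star_cx]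
  have h1 := fin_le (W := W) (Q := CB.kN N (cx (q s))) ha₁0 (IsSelfAdjoint.of_nonneg hW0).star_eq
    hQs (η := η) le_rfl
  set θs : C(X, ℝ) := ⟨fun x => max 0 ((1 - q s x) * (1 - q s x) - d), by fun_prop⟩ with hθs
  have hθ0 : ∀ x, 0 ≤ θs x := fun x => le_max_left _ _
  have hone : CB.kN N (cx 1) = 1 := by
    rw [cx_one, CB.kN_apply, map_one, scalHom_one]
  have h2 : (1 - CB.kN N (cx (q s))) * (1 - CB.kN N (cx (q s))) ≤
      CB.kN N (cx θs) + d • (1 : Mat N B) := by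
    have e1 : (1 - CB.kN N (cx (q s))) * (1 - CB.kN N (cx (q s))) =
        CB.kN N (cx ((1 - q s) * (1 - q s))) := by
      rw [cx_mul, map_mul, cx_sub, map_sub, hone]
    have e2 : CB.kN N (cx θs) + d • (1 : Mat N B) = CB.kN N (cx (θs + d • 1)) := by
      rw [cx_add, map_add, kap_rsmul, hone]
      rfl
    rw [e1, e2]
    refine kap_mono _ fun x => ?_
    show (1 - q s x) * (1 - q s x) ≤ max 0 ((1 - q s x) * (1 - q s x) - d) + d * 1
    have := le_max_right 0 ((1 - q s x) * (1 - q s x) - d)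
    linarith
  have h3 : a₁ ≤ (2 : ℝ) • W + ‖a₁‖ • CB.kN N (cx θs) + ε' • (1 : Mat N B) := by
    refine h1.trans ?_
    have e1 := smul_le_smul_of_nonneg_left h2 (norm_nonneg a₁)
    have e2 : (2 * η + ‖a₁‖ * d) • (1 : Mat N B) ≤ ε' • (1 : Mat N B) :=
      smul_le_smul_of_nonneg_right hs.le zero_le_one
    calc (2 : ℝ) • W + ‖a₁‖ • ((1 - CB.kN N (cx (q s))) * (1 - CB.kN N (cx (q s)))) +
          (2 * η) • (1 : Mat N B) ≤ (2 : ℝ) • W + ‖a₁‖ • (CB.kN N (cx θs) + d • (1 : Mat N B)) +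
          (2 * η) • (1 : Mat N B) := add_le_add (add_le_add le_rfl e1) le_rfl
      _ = (2 : ℝ) • W + ‖a₁‖ • CB.kN N (cx θs) + (2 * η + ‖a₁‖ * d) • (1 : Mat N B) := by
          rw [smul_add, add_smul, smul_smul]
          abel
      _ ≤ _ := add_le_add le_rfl e2
  have hK0 : 0 ≤ CB.kN N (cx θs) := kap_nonneg _ hθ0
  have hWn : 0 ≤ (2 : ℝ) • W := smul_nonneg (by norm_num) hW0
  have hKn : 0 ≤ ‖a₁‖ • CB.kN N (cx θs) := smul_nonneg (norm_nonneg _) hK0
  have h4 := cz_cut_of_le ha₁0 (add_nonneg hWn hKn) ε' hε'.le h3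
  refine cz_trans h4 (cz_trans (cz_add hWn hKn hb' hc' hbc ?_ ?_) hbcb)
  · exact cz_trans (cz_smul 2 (by norm_num)) (cz_trans (cz_conj (w s) b₁) hb₁b)
  · refine cz_trans (cz_smul _ (norm_nonneg _)) ?_
    have e1 : Cz (CB.kN N (cx θs)) (CB.kN N (cx (ψ s))) := by
      refine kap_cz _ hθ0 (hψ0 s) fun x hne => ?_
      refine lt_of_le_of_ne (hψ0 s x) fun h0 => hne ?_
      have e2 := hψ1 s x h0.symm
      show max 0 ((1 - q s x) * (1 - q s x) - d) = 0
      refine max_eq_left ?_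
      have e3 : |1 - q s x| ≤ 5 * (n : ℝ) ^ 2 / ((s + 1 : ℕ) : ℝ) := e2
      have e4 : (1 - q s x) * (1 - q s x) ≤ d := by
        rw [hd, ← pow_two, ← sq_abs]
        exact pow_le_pow_left₀ (abs_nonneg _) e3 2
      linarith
    exact cz_trans e1 (cz_trans (hψ2 s) hχc)

/-- comparison in `C*(Z, X, h^n)` gives comparison in `C*(Z, X, h)` -/
theorem ge_comparison (hn : n ≠ 0) (hm : Minimal (h ^ n)) (I : Incl CA CB) (r : ℝ) (hr : 0 ≤ r)
    (hA : Comparison A r) (r' : ℝ) (hr' : r < n * r') : Comparison B r' := by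
  have hmh : Minimal h := minimal_of_pow hm
  have hn0 : (0 : ℝ) < n := by exact_mod_cast Nat.pos_of_ne_zero hn
  have hr'0 : 0 < r' := by
    by_contra hcon
    push Not at hcon
    have : (n : ℝ) * r' ≤ 0 := mul_nonpos_of_nonneg_of_nonpos hn0.le hcon
    linarith
  -- there is a tracial state on `A`
  have hne : Nonempty (TState A) := by
    by_contra hne
    have := CA.nontrivial
    obtain ⟨x, hx⟩ := hA 1 1 (1 : Mat 1 A) (0 : Mat 1 A) zero_le_one le_rfl
      (fun τ => (hne ⟨τ⟩).elim)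
    have h1 : (fun k => x k * (0 : Mat 1 A) * (x k).conjTranspose) = fun _ => (0 : Mat 1 A) := by
      funext k
      rw [mul_zero, zero_mul]
    rw [h1] at hx
    have h2 := tendsto_nhds_unique hx tendsto_const_nhds
    have h3 := congrArg (fun M : Mat 1 A => M 0 0) h2
    simp only [CStarMatrix.one_apply, CStarMatrix.zero_apply, if_true] at h3
    exact one_ne_zero h3
  obtain ⟨τA⟩ := hne
  intro n₁ n' a b ha hb hab
  set N : ℕ := n₁ + n' + 1 with hN
  have hN0 : N ≠ 0 := by omega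
  have hn₁ : n₁ ≤ N := by omega
  have hn' : n' ≤ N := by omega
  refine cuntz_of_cz (Fin.castLE hn₁) (Fin.castLE_injective hn₁) (Fin.castLE hn')
    (Fin.castLE_injective hn') ?_
  set ea : Mat N B := emb (Fin.castLE hn₁) (Fin.castLE_injective hn₁) a with hea
  set eb : Mat N B := emb (Fin.castLE hn') (Fin.castLE_injective hn') b with heb
  have ha' : 0 ≤ ea := hom_nonneg (R := Mat n₁ B) (R' := Mat N B) _ ha
  have hb' : 0 ≤ eb := hom_nonneg (R := Mat n' B) (R' := Mat N B) _ hb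
  have hrk : ∀ T : Tr B, T.f 1 = 1 →
      rk (trM T (Fin N)) ea + r' < rk (trM T (Fin N)) eb := by
    intro T hT
    have h1 := hab (TState.ofTr T hT)
    rw [TState.d_ofTr _ _ ha, TState.d_ofTr _ _ hb] at h1
    rw [rk_emb_le hn₁ T ha, rk_emb_le hn' T hb]
    exact h1
  have heb0 : eb ≠ 0 := by
    intro h0
    obtain ⟨S, hS, -⟩ := I.trace hn hN0 τA.toTr τA.toTr_one
    have h1 := hrk S hS
    have h2 := rk_nonneg (trM S (Fin N)) ha'
    rw [h0, AD.rk_zero] at h1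
    linarith
  set κ₀ : ℝ := (n * r' - r) / (2 * n) with hκ₀
  have hκ0 : 0 < κ₀ := by
    rw [hκ₀]
    exact div_pos (by linarith) (by positivity)
  obtain ⟨b', c', i, χ, x₁, hb1, hc1, hbc, hbcb, hrkb, hχ0, hχ1, hχc⟩ :=
    CB.slack hmh hb' heb0 κ₀ hκ0
  refine I.transfer hn hmh ha' hb1 hc1 hbc hbcb hχ0 hχ1 hχc ?_
  have hθa : 0 ≤ (I.ex hn N).θ ea := hom_nonneg (R := Mat N B) (R' := Mat n (Mat N A)) _ ha'
  have hθb : 0 ≤ (I.ex hn N).θ b' := hom_nonneg (R := Mat N B) (R' := Mat n (Mat N A)) _ hb1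
  have hfa : 0 ≤ flat n N ((I.ex hn N).θ ea) :=
    hom_nonneg (R := Mat n (Mat N A)) (R' := Mat (n * N) A) _ hθa
  have hfb : 0 ≤ flat n N ((I.ex hn N).θ b') :=
    hom_nonneg (R := Mat n (Mat N A)) (R' := Mat (n * N) A) _ hθb
  refine cz_of_flat ?_
  refine hA (n * N) (n * N) _ _ hfa hfb fun τ => ?_
  rw [τ.d_eq hfa, τ.d_eq hfb, rk_flat _ hθa, rk_flat _ hθb]
  obtain ⟨S, hS, hSrk⟩ := I.trace hn hN0 τ.toTr τ.toTr_one
  rw [hSrk ea ha', hSrk b' hb1]
  have h1 := hrk S hS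
  have h2 := hrkb S hS
  have h3 : rk (trM S (Fin N)) ea + (r' - κ₀) < rk (trM S (Fin N)) b' := by linarith
  have h4 : n * (rk (trM S (Fin N)) ea + (r' - κ₀)) < n * rk (trM S (Fin N)) b' :=
    mul_lt_mul_of_pos_left h3 hn0
  have h5 : (n : ℝ) * κ₀ = (n * r' - r) / 2 := by
    rw [hκ₀]
    field_simp
  rw [mul_add, mul_sub, h5] at h4
  linarith

/-- `n rc(C*(Z, X, h)) ≤ rc(C*(Z, X, h^n))` -/
theorem le_rc_pow (hn : n ≠ 0) (hm : Minimal (h ^ n)) (CA : Crossed (h ^ n) A)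
    (CB : Crossed h B) : n * rc B ≤ rc A := by
  obtain ⟨I⟩ := exists_Incl hn CA CB (CA.simple hm)
  have hn0 : (0 : ℝ) < n := by exact_mod_cast Nat.pos_of_ne_zero hn
  have hnn : (n : ℝ≥0) ≠ 0 := by exact_mod_cast hn
  have h1 := rc_le_of' (A := B) (B := A) ((n : ℝ≥0)⁻¹) (inv_ne_zero hnn)
    (fun r hr r' hr' => ge_comparison hn hm I r r.2 hr r' (by
      have h2 : (((n : ℝ≥0)⁻¹ * r : ℝ≥0) : ℝ) < r' := by exact_mod_cast hr'
      push_cast at h2
      rwa [inv_mul_lt_iff₀ hn0] at h2))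
  have h2 : (n : ℝ≥0∞) * rc B ≤ n * (((n : ℝ≥0)⁻¹ : ℝ≥0) * rc A) := mul_le_mul_right h1 _
  refine h2.trans (le_of_eq ?_)
  rw [← mul_assoc]
  have h3 : (n : ℝ≥0∞) * (((n : ℝ≥0)⁻¹ : ℝ≥0) : ℝ≥0∞) = 1 := by
    rw [← ENNReal.coe_natCast, ← ENNReal.coe_mul, mul_inv_cancel₀ hnn, ENNReal.coe_one]
  rw [h3, one_mul]

/-- `rc(C*(Z, X, h^n)) = n rc(C*(Z, X, h))` -/
theorem rc_pow (hn : n ≠ 0) (hm : Minimal (h ^ n)) (CA : Crossed (h ^ n) A)
    (CB : Crossed h B) : rc A = n * rc B :=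
  le_antisymm (rc_pow_le hn hm CA CB) (le_rc_pow hn hm CA CB)

end

end Run7.h450.Dyn
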