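import Pool.Agent.Run7.h450.W4
import Pool.Agent.Run7.h450.Z12

/-!
# The crossed product of a finite minimal system
-/

set_option autoImplicit false
set_option linter.unusedSectionVars false

namespace Run7.h450.Dyn

open Filter Topology
open Pool.Agent.H327R4.Pure
open scoped ComplexOrder

universe u v w

section

variable {X : Type u} [TopologicalSpace X] [T2Space X] [Finite X] {h : X ≃ₜ X}

/-- a finite minimal system is a cycle -/
theorem exists_cycle [Nonempty X] (hm : Minimal h) :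
    ∃ (x₀ : X) (m : ℕ) (σ : Fin m ≃ X), 0 < m ∧ (∀ i : Fin m, σ i = (h ^ ((i : ℕ) : ℤ)) x₀) ∧
      (h ^ (m : ℤ)) x₀ = x₀ := by
  classical
  obtain ⟨x₀⟩ := (inferInstance : Nonempty X)
  have hex : ∃ k : ℕ, 0 < k ∧ (h ^ (k : ℤ)) x₀ = x₀ := by
    obtain ⟨i, j, hij, he⟩ := Finite.exists_ne_map_eq_of_infinite
      (fun k : ℕ => (h ^ (k : ℤ)) x₀)
    wlog hlt : i < j generalizing i j
    · exact this j i (Ne.symm hij) he.symm (by omega)
    refine ⟨j - i, by omega, ?_⟩
    have h1 : ((j - i : ℕ) : ℤ) = -(i : ℤ) + j := by omega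
    have h2 : (h ^ (i : ℤ)) x₀ = (h ^ (j : ℤ)) x₀ := he
    rw [h1, zpa, ← h2, ← zpa, neg_add_cancel, zpow_zero]
    rfl
  set m : ℕ := Nat.find hex with hmdef
  obtain ⟨hm0, hmx⟩ := Nat.find_spec hex
  have hmin : ∀ k : ℕ, 0 < k → (h ^ (k : ℤ)) x₀ = x₀ → m ≤ k := fun k h1 h2 =>
    Nat.find_min' hex ⟨h1, h2⟩
  have hmul : ∀ j : ℤ, (h ^ ((m : ℤ) * j)) x₀ = x₀ := by
    intro j
    rw [zpow_mul]
    induction j using Int.induction_on with
    | zero => rw [zpow_zero]; rfl
    | succ j ih => rw [zpow_add_one]; exact (congrArg _ hmx).trans ih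
    | pred j ih =>
      rw [zpow_sub_one]
      have h1 : ((h ^ (m : ℤ))⁻¹ : X ≃ₜ X) x₀ = x₀ := by
        rw [Homeomorph.inv_apply, Homeomorph.symm_apply_eq]
        exact hmx.symm
      exact (congrArg _ h1).trans ih
  have hinj : Function.Injective fun i : Fin m => (h ^ ((i : ℕ) : ℤ)) x₀ := by
    intro i j he
    have h2 : (h ^ ((i : ℕ) : ℤ)) x₀ = (h ^ ((j : ℕ) : ℤ)) x₀ := he
    by_contra hne
    have hne' : (i : ℕ) ≠ j := fun h' => hne (Fin.ext h')
    rcases lt_or_gt_of_ne hne' with hlt | hlt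
    · have h3 := hmin ((j : ℕ) - i) (by omega) (by
        have h1 : (((j : ℕ) - i : ℕ) : ℤ) = -((i : ℕ) : ℤ) + ((j : ℕ) : ℤ) := by omega
        rw [h1, zpa, ← h2, ← zpa, neg_add_cancel, zpow_zero]
        rfl)
      have := j.2
      omega
    · have h3 := hmin ((i : ℕ) - j) (by omega) (by
        have h1 : (((i : ℕ) - j : ℕ) : ℤ) = -((j : ℕ) : ℤ) + ((i : ℕ) : ℤ) := by omega
        rw [h1, zpa, h2, ← zpa, neg_add_cancel, zpow_zero]
        rfl)
      have := i.2
      omega
  have hsurj : Function.Surjective fun i : Fin m => (h ^ ((i : ℕ) : ℤ)) x₀ := by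
    intro x
    have h1 : x ∈ Set.range fun k : ℤ => (h ^ k) x₀ := by
      have h2 := (hm x₀).closure_eq
      rw [(Set.toFinite _).isClosed.closure_eq] at h2
      rw [h2]
      exact Set.mem_univ x
    obtain ⟨k, rfl⟩ := h1
    have hm0' : (0 : ℤ) < m := by exact_mod_cast hm0
    have h3 := Int.emod_nonneg k hm0'.ne'
    have h4 := Int.emod_lt_of_pos k hm0'
    have h5 := Int.toNat_of_nonneg h3
    refine ⟨⟨(k % m).toNat, by omega⟩, ?_⟩
    show (h ^ (((k % m).toNat : ℕ) : ℤ)) x₀ = (h ^ k) x₀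
    rw [h5]
    conv_rhs => rw [← Int.emod_add_mul_ediv k m]
    rw [zpa, hmul]
  exact ⟨x₀, m, Equiv.ofBijective _ ⟨hinj, hsurj⟩, hm0, fun i => rfl, hmx⟩

end

section

variable {X : Type u} [TopologicalSpace X] [CompactSpace X] [T2Space X] [Finite X] {h : X ≃ₜ X}
  {B : Type v} [CStarAlgebra B]

open Classical in
/-- the indicator function of a point -/
noncomputable def dl (x : X) : C(X, ℂ) := ⟨fun y => if y = x then 1 else 0,
  continuous_of_discreteTopology⟩

open Classical in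
theorem dl_apply (x y : X) : dl x y = if y = x then 1 else 0 := rfl

theorem sh_dl (k : ℤ) (x : X) : sh h k (dl x) = dl ((h ^ k) x) := by
  classical
  ext y
  rw [sh_apply, dl_apply, dl_apply]
  by_cases hy : y = (h ^ k) x
  · rw [if_pos hy, if_pos]
    rw [hy, ← zpa, neg_add_cancel, zpow_zero]
    rfl
  · rw [if_neg hy, if_neg]
    intro h'
    refine hy ?_
    rw [← h', ← zpa, add_neg_cancel, zpow_zero]
    rfl

theorem dl_mul (x y : X) (hxy : x ≠ y) : dl x * dl y = 0 := by
  classical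
  ext z
  show dl x z * dl y z = 0
  rw [dl_apply, dl_apply]
  by_cases h1 : z = x
  · rw [if_neg (fun h2 => hxy (h1.symm.trans h2)), mul_zero]
  · rw [if_neg h1, zero_mul]

theorem dl_self (x : X) : dl x * dl x = dl x := by
  classical
  ext z
  show dl x z * dl x z = dl x z
  rw [dl_apply]
  split_ifs <;> simp

theorem dl_star (x : X) : star (dl x) = dl x := by
  classical
  ext z
  show star (dl x z) = dl x z
  rw [dl_apply]
  split_ifs <;> simp

/-- the data of a cycle -/
structure Cyc (h : X ≃ₜ X) where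
  /-- the base point -/
  x₀ : X
  /-- the length -/
  m : ℕ
  /-- the enumeration -/
  σ : Fin m ≃ X
  pos : 0 < m
  apply : ∀ i : Fin m, σ i = (h ^ ((i : ℕ) : ℤ)) x₀
  per : (h ^ (m : ℤ)) x₀ = x₀

variable (c : Cyc h) (C : Crossed h B)

theorem Cyc.pow_m (x : X) : (h ^ (c.m : ℤ)) x = x := by
  obtain ⟨i, rfl⟩ := c.σ.surjective x
  rw [c.apply, ← zpa, add_comm, zpa, c.per]

/-- the matrix units -/
noncomputable def Cyc.f (i j : Fin c.m) : B :=
  C.up ((i : ℕ) : ℤ) * C.ι (dl c.x₀) * C.up (-((j : ℕ) : ℤ))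

theorem Cyc.f_self (i : Fin c.m) : c.f C i i = C.ι (dl (c.σ i)) := by
  unfold Cyc.f
  rw [C.up_comm, sh_dl, mul_assoc, C.up_mul_neg, mul_one, c.apply]

theorem Cyc.f_mul (i j k l : Fin c.m) :
    c.f C i j * c.f C k l = if j = k then c.f C i l else 0 := by
  have h1 : c.f C i j * c.f C k l = C.up ((i : ℕ) : ℤ) * (C.ι (dl c.x₀) *
      (C.up (-((j : ℕ) : ℤ)) * C.up ((k : ℕ) : ℤ) * C.ι (dl c.x₀))) * C.up (-((l : ℕ) : ℤ)) := by
    unfold Cyc.f
    simp only [mul_assoc]
  rw [h1, ← C.up_add, C.up_comm, sh_dl, ← mul_assoc (C.ι (dl c.x₀)), ← map_mul]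
  by_cases hjk : j = k
  · subst hjk
    rw [if_pos rfl, neg_add_cancel]
    have h2 : (h ^ (0 : ℤ)) c.x₀ = c.x₀ := by
      rw [zpow_zero]
      rfl
    rw [h2, dl_self, C.up_zero, mul_one]
    rfl
  · rw [if_neg hjk]
    have h2 : c.x₀ ≠ (h ^ (-((j : ℕ) : ℤ) + ((k : ℕ) : ℤ))) c.x₀ := by
      intro h3
      refine hjk (c.σ.injective ?_)
      rw [c.apply, c.apply]
      conv_lhs => rw [h3]
      rw [← zpa, add_neg_cancel_left]
    rw [dl_mul _ _ h2, map_zero, zero_mul, mul_zero, zero_mul]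

theorem Cyc.f_star (i j : Fin c.m) : star (c.f C i j) = c.f C j i := by
  unfold Cyc.f
  rw [star_mul, star_mul, C.star_up, C.star_up, neg_neg, ← map_star, dl_star, mul_assoc]

theorem Cyc.sum_dl (g : C(X, ℂ)) : ∑ i : Fin c.m, g (c.σ i) • dl (c.σ i) = g := by
  classical
  ext x
  obtain ⟨j, rfl⟩ := c.σ.surjective x
  rw [ContinuousMap.sum_apply, Finset.sum_eq_single j]
  · show g (c.σ j) * dl (c.σ j) (c.σ j) = _
    rw [dl_apply, if_pos rfl, mul_one]
  · intro i _ hi
    show g (c.σ i) * dl (c.σ i) (c.σ j) = 0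
    rw [dl_apply, if_neg (fun h' => hi (c.σ.injective h').symm), mul_zero]
  · intro h'
    exact absurd (Finset.mem_univ j) h'

theorem Cyc.f_sum : ∑ i : Fin c.m, c.f C i i = 1 := by
  have h1 := c.sum_dl (1 : C(X, ℂ))
  rw [Finset.sum_congr rfl fun i _ => c.f_self C i, ← map_sum]
  have h2 : ∑ i : Fin c.m, dl (c.σ i) = (1 : C(X, ℂ)) := by
    conv_rhs => rw [← h1]
    exact Finset.sum_congr rfl fun i _ => (one_smul ℂ _).symm
  rw [h2, map_one]

/-- the central unitary -/
noncomputable def Cyc.v : B := C.up (c.m : ℤ)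

theorem Cyc.v_unitary : c.v C ∈ unitary B := by
  unfold Cyc.v
  exact ((C.u ^ (c.m : ℤ) : unitary B)).2

theorem Cyc.v_comm (g : C(X, ℂ)) : c.v C * C.ι g = C.ι g * c.v C := by
  unfold Cyc.v
  rw [C.up_comm]
  congr 2
  ext x
  rw [sh_apply]
  congr 1
  have h1 := c.pow_m ((h ^ (-(c.m : ℤ))) x)
  rw [← zpa, add_neg_cancel, zpow_zero] at h1
  exact h1.symm

theorem Cyc.v_up (k : ℤ) : c.v C * C.up k = C.up k * c.v C := by
  unfold Cyc.v
  rw [← C.up_add, ← C.up_add, add_comm]

theorem Cyc.v_f (i j : Fin c.m) : Commute (c.v C) (c.f C i j) := by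
  unfold Cyc.f
  exact ((Commute.mul_right (c.v_up C _) (c.v_comm C _)).mul_right (c.v_up C _))

theorem Cyc.v_f' (i j : Fin c.m) : Commute (star (c.v C)) (c.f C i j) := by
  have h1 := (c.v_f C j i).star_star
  rwa [c.f_star] at h1

instance Cyc.v_normal : IsStarNormal (c.v C) :=
  ⟨by
    have h1 := Unitary.star_mul_self_of_mem (c.v_unitary C)
    have h2 := Unitary.mul_star_self_of_mem (c.v_unitary C)
    exact h1.trans h2.symm⟩

/-- the spectrum as a subset of the circle -/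
noncomputable def Cyc.pt : C(spectrum ℂ (c.v C), Tc.{v}) :=
  ⟨fun s => ULift.up (AddCircle.homeomorphCircle'.symm
      (⟨(s : ℂ), mem_sphere_zero_iff_norm.mpr (by
        have := spectrum.subset_circle_of_unitary (c.v_unitary C) s.2
        rwa [mem_sphere_zero_iff_norm] at this)⟩ : Circle)), by
    refine continuous_uliftUp.comp ((Homeomorph.continuous _).comp ?_)
    exact Continuous.subtype_mk continuous_subtype_val _⟩

/-- the functional calculus of the central unitary -/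
noncomputable def Cyc.Z : DT.{v} →⋆ₐ[ℂ] B :=
  (cfcHom (R := ℂ) (a := c.v C) (p := IsStarNormal) (c.v_normal C)).comp (ContinuousMap.compStarAlgHom' ℂ ℂ (c.pt C))

/-- the generator of the continuous functions on the circle -/
noncomputable def zf : DT.{v} :=
  ⟨fun t => ((AddCircle.homeomorphCircle' t.down : Circle) : ℂ), by
    exact continuous_subtype_val.comp ((Homeomorph.continuous _).comp continuous_uliftDown)⟩

theorem Cyc.Z_zf : c.Z C zf = c.v C := by
  show cfcHom (R := ℂ) (a := c.v C) (p := IsStarNormal) (c.v_normal C) (zf.comp (c.pt C)) = c.v C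
  have h1 : zf.comp (c.pt C) = (ContinuousMap.id ℂ).restrict (spectrum ℂ (c.v C)) := by
    ext s
    show ((AddCircle.homeomorphCircle' (AddCircle.homeomorphCircle'.symm _) : Circle) : ℂ) = s
    rw [Homeomorph.apply_symm_apply]
  rw [h1]
  exact cfcHom_id _

theorem Cyc.Z_comm (g : DT.{v}) (i j : Fin c.m) : Commute (c.Z C g) (c.f C i j) :=
  Commute.cfcHom _ (c.v_f C i j) (c.v_f' C i j) _

theorem star_zf_mul : star zf.{v} * zf = 1 := by
  ext t
  show star ((AddCircle.homeomorphCircle' t.down : Circle) : ℂ) *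
    ((AddCircle.homeomorphCircle' t.down : Circle) : ℂ) = 1
  rw [mul_comm, Complex.star_def, Complex.mul_conj, Circle.normSq_coe, Complex.ofReal_one]

end

end Run7.h450.Dyn
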