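import Pool.Agent.Run7.h450.W5

/-!
# The crossed product of a finite minimal system is a matrix algebra over the circle
-/

set_option autoImplicit false
set_option linter.unusedSectionVars false

namespace Run7.h450.Dyn

open Filter Topology
open Pool.Agent.H327R4.Pure
open scoped ComplexOrder ENNReal NNReal

universe u v w

section

variable {X : Type u} [TopologicalSpace X] [CompactSpace X] [T2Space X] [Finite X] {h : X ≃ₜ X}
  {B : Type v} [CStarAlgebra B] (c : Cyc h) (C : Crossed h B)

/-- the underlying function of `Θ` -/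
noncomputable def Cyc.th (F : Mat c.m DT.{v}) : B := ∑ i, ∑ j, c.Z C (F i j) * c.f C i j

theorem Cyc.th_add (F G : Mat c.m DT.{v}) : c.th C (F + G) = c.th C F + c.th C G := by
  unfold Cyc.th
  rw [← Finset.sum_add_distrib]
  refine Finset.sum_congr rfl fun i _ => ?_
  rw [← Finset.sum_add_distrib]
  refine Finset.sum_congr rfl fun j _ => ?_
  rw [← add_mul, ← map_add]
  rfl

theorem Cyc.th_smul (z : ℂ) (F : Mat c.m DT.{v}) : c.th C (z • F) = z • c.th C F := by
  unfold Cyc.th
  rw [Finset.smul_sum]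
  refine Finset.sum_congr rfl fun i _ => ?_
  rw [Finset.smul_sum]
  refine Finset.sum_congr rfl fun j _ => ?_
  rw [← smul_mul_assoc, ← map_smul]
  rfl

theorem Cyc.th_one : c.th C 1 = 1 := by
  unfold Cyc.th
  rw [← c.f_sum C]
  refine Finset.sum_congr rfl fun i _ => ?_
  rw [Finset.sum_eq_single i]
  · rw [CStarMatrix.one_apply, if_pos rfl, map_one, one_mul]
  · intro j _ hj
    rw [CStarMatrix.one_apply, if_neg (Ne.symm hj), map_zero, zero_mul]
  · intro h'
    exact absurd (Finset.mem_univ i) h'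

theorem Cyc.th_mul (F G : Mat c.m DT.{v}) : c.th C (F * G) = c.th C F * c.th C G := by
  unfold Cyc.th
  rw [Finset.sum_mul]
  refine Finset.sum_congr rfl fun i _ => ?_
  rw [Finset.sum_mul]
  have h1 : ∀ j : Fin c.m, c.Z C (F i j) * c.f C i j * ∑ k, ∑ l, c.Z C (G k l) * c.f C k l =
      ∑ l, c.Z C (F i j) * c.Z C (G j l) * c.f C i l := by
    intro j
    rw [Finset.mul_sum, Finset.sum_eq_single j]
    · rw [Finset.mul_sum]
      refine Finset.sum_congr rfl fun l _ => ?_
      have h2 := (c.Z_comm C (G j l) i j).eq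
      calc c.Z C (F i j) * c.f C i j * (c.Z C (G j l) * c.f C j l) =
            c.Z C (F i j) * (c.f C i j * c.Z C (G j l)) * c.f C j l := by simp only [mul_assoc]
        _ = c.Z C (F i j) * (c.Z C (G j l) * c.f C i j) * c.f C j l := by rw [h2]
        _ = c.Z C (F i j) * c.Z C (G j l) * (c.f C i j * c.f C j l) := by simp only [mul_assoc]
        _ = _ := by rw [c.f_mul, if_pos rfl]
    · intro k _ hk
      rw [Finset.mul_sum]
      refine Finset.sum_eq_zero fun l _ => ?_
      have h2 := (c.Z_comm C (G k l) i j).eq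
      calc c.Z C (F i j) * c.f C i j * (c.Z C (G k l) * c.f C k l) =
            c.Z C (F i j) * (c.f C i j * c.Z C (G k l)) * c.f C k l := by simp only [mul_assoc]
        _ = c.Z C (F i j) * (c.Z C (G k l) * c.f C i j) * c.f C k l := by rw [h2]
        _ = c.Z C (F i j) * c.Z C (G k l) * (c.f C i j * c.f C k l) := by simp only [mul_assoc]
        _ = 0 := by rw [c.f_mul, if_neg (Ne.symm hk), mul_zero]
    · intro h'
      exact absurd (Finset.mem_univ j) h'
  rw [Finset.sum_congr rfl fun j _ => h1 j, Finset.sum_comm]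
  refine Finset.sum_congr rfl fun l _ => ?_
  rw [CStarMatrix.mul_apply, map_sum, Finset.sum_mul]
  refine Finset.sum_congr rfl fun j _ => ?_
  rw [map_mul]

theorem Cyc.th_star (F : Mat c.m DT.{v}) : c.th C (star F) = star (c.th C F) := by
  unfold Cyc.th
  rw [star_sum, Finset.sum_congr rfl fun i _ => star_sum _ _, Finset.sum_comm]
  refine Finset.sum_congr rfl fun i _ => Finset.sum_congr rfl fun j _ => ?_
  rw [star_mul, c.f_star, ← map_star, CStarMatrix.star_apply]
  exact (c.Z_comm C _ _ _).eq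

/-- the homomorphism from the matrix algebra -/
noncomputable def Cyc.Th : Mat c.m DT.{v} →⋆ₐ[ℂ] B where
  toFun := c.th C
  map_one' := c.th_one C
  map_mul' := c.th_mul C
  map_zero' := by
    have h1 := c.th_smul C 0 0
    rwa [zero_smul, zero_smul] at h1
  map_add' := c.th_add C
  commutes' z := by
    rw [Algebra.algebraMap_eq_smul_one, c.th_smul, c.th_one, Algebra.algebraMap_eq_smul_one]
  map_star' := c.th_star C

theorem Cyc.Th_sg (i j : Fin c.m) (d : DT.{v}) : c.Th C (sg i j d) = c.Z C d * c.f C i j := by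
  show ∑ p, ∑ q, c.Z C (sg i j d p q) * c.f C p q = _
  rw [Finset.sum_eq_single i]
  · rw [Finset.sum_eq_single j]
    · rw [sg_apply, if_pos ⟨rfl, rfl⟩]
    · intro q _ hq
      rw [sg_apply, if_neg (fun h' => hq h'.2.symm), map_zero, zero_mul]
    · intro h'
      exact absurd (Finset.mem_univ j) h'
  · intro p _ hp
    refine Finset.sum_eq_zero fun q _ => ?_
    rw [sg_apply, if_neg (fun h' => hp h'.1.symm), map_zero, zero_mul]
  · intro h'
    exact absurd (Finset.mem_univ i) h'

/-- the permutation of the indices -/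
noncomputable def Cyc.s : Equiv.Perm (Fin c.m) := (c.σ.trans h.toEquiv).trans c.σ.symm

theorem Cyc.s_apply (j : Fin c.m) : c.σ (c.s j) = h (c.σ j) := by
  show c.σ (c.σ.symm (h (c.σ j))) = _
  rw [Equiv.apply_symm_apply]

/-- diagonal matrices -/
noncomputable def Cyc.pi : C(X, ℂ) →⋆ₐ[ℂ] Mat c.m DT.{v} where
  toFun g := ∑ i, sg i i (algebraMap ℂ DT.{v} (g (c.σ i)))
  map_one' := by
    have h1 : ∀ i : Fin c.m, sg i i (algebraMap ℂ DT.{v} ((1 : C(X, ℂ)) (c.σ i))) =
        sg i i (1 : DT.{v}) := fun i => by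
      rw [ContinuousMap.one_apply, map_one]
    rw [Finset.sum_congr rfl fun i _ => h1 i, sum_sg, scalHom_one]
  map_mul' f g := by
    rw [Finset.sum_mul_sum]
    refine Finset.sum_congr rfl fun i _ => ?_
    rw [Finset.sum_eq_single i]
    · rw [sg_mul, ← map_mul]
      rfl
    · intro j _ hj
      exact sg_mul_ne _ _ _ _ (Ne.symm hj) _ _
    · intro h'
      exact absurd (Finset.mem_univ i) h'
  map_zero' := by
    refine Finset.sum_eq_zero fun i _ => ?_
    rw [ContinuousMap.zero_apply, map_zero, sg_zero]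
  map_add' f g := by
    rw [← Finset.sum_add_distrib]
    refine Finset.sum_congr rfl fun i _ => ?_
    rw [← sg_add, ← map_add]
    rfl
  commutes' z := by
    have h1 : ∀ i : Fin c.m, sg i i (algebraMap ℂ DT.{v} ((algebraMap ℂ C(X, ℂ) z) (c.σ i))) =
        sg i i (algebraMap ℂ DT.{v} z) := fun i => rfl
    rw [Finset.sum_congr rfl fun i _ => h1 i, sum_sg, Algebra.algebraMap_eq_smul_one,
      Algebra.algebraMap_eq_smul_one, map_smul, scalHom_one]
  map_star' f := by
    rw [star_sum]
    refine Finset.sum_congr rfl fun i _ => ?_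
    rw [sg_star]
    rfl

theorem Cyc.pi_apply (g : C(X, ℂ)) :
    c.pi g = ∑ i, sg i i (algebraMap ℂ DT.{v} (g (c.σ i))) := rfl

/-- the weights -/
noncomputable def Cyc.wt (j : Fin c.m) : DT.{v} := if (c.s j : ℕ) = 0 then zf else 1

theorem Cyc.star_wt_mul (j : Fin c.m) : star (c.wt.{u, v} j) * c.wt j = 1 := by
  unfold Cyc.wt
  split_ifs
  · exact star_zf_mul
  · rw [star_one, one_mul]

/-- the weighted shift -/
noncomputable def Cyc.ww : Mat c.m DT.{v} := ∑ j, sg (c.s j) j (c.wt j)

theorem Cyc.star_ww : star c.ww.{u, v} = ∑ j, sg j (c.s j) (star (c.wt j)) := by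
  unfold Cyc.ww
  rw [star_sum]
  exact Finset.sum_congr rfl fun j _ => sg_star _ _ _

theorem Cyc.star_ww_mul : star c.ww.{u, v} * c.ww = 1 := by
  rw [c.star_ww]
  unfold Cyc.ww
  rw [Finset.sum_mul_sum, ← scalHom_one (A := DT.{v}) c.m, ← sum_sg]
  refine Finset.sum_congr rfl fun i _ => ?_
  rw [Finset.sum_eq_single i]
  · rw [sg_mul, c.star_wt_mul]
  · intro j _ hj
    exact sg_mul_ne _ _ _ _ (fun h' => hj (c.s.injective h').symm) _ _
  · intro h'
    exact absurd (Finset.mem_univ i) h'

theorem Cyc.ww_conj (g : C(X, ℂ)) :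
    c.ww.{u, v} * c.pi g * star c.ww = c.pi (g.comp (h.symm : C(X, X))) := by
  rw [c.star_ww, c.pi_apply, c.pi_apply]
  unfold Cyc.ww
  have h1 : (∑ j, sg (c.s j) j (c.wt.{u, v} j)) * (∑ i, sg i i (algebraMap ℂ DT.{v} (g (c.σ i)))) =
      ∑ j, sg (c.s j) j (c.wt j * algebraMap ℂ DT.{v} (g (c.σ j))) := by
    rw [Finset.sum_mul_sum]
    refine Finset.sum_congr rfl fun j _ => ?_
    rw [Finset.sum_eq_single j]
    · rw [sg_mul]
    · intro i _ hi
      exact sg_mul_ne _ _ _ _ (Ne.symm hi) _ _
    · intro h'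
      exact absurd (Finset.mem_univ j) h'
  rw [h1, Finset.sum_mul_sum]
  have h2 : ∀ j, ∑ i, sg (c.s j) j (c.wt j * algebraMap ℂ DT.{v} (g (c.σ j))) *
      sg i (c.s i) (star (c.wt.{u, v} i)) =
      sg (c.s j) (c.s j) (algebraMap ℂ DT.{v} (g (h.symm (c.σ (c.s j))))) := by
    intro j
    rw [Finset.sum_eq_single j]
    · rw [sg_mul, c.s_apply, Homeomorph.symm_apply_apply]
      congr 1
      rw [mul_comm (c.wt j), mul_assoc, mul_comm (c.wt j), c.star_wt_mul, mul_one]
    · intro i _ hi
      exact sg_mul_ne _ _ _ _ (Ne.symm hi) _ _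
    · intro h'
      exact absurd (Finset.mem_univ j) h'
  rw [Finset.sum_congr rfl fun j _ => h2 j]
  exact Equiv.sum_comp c.s (fun i => sg i i (algebraMap ℂ DT.{v} (g (h.symm (c.σ i)))))

theorem Cyc.ww_mul_star : c.ww.{u, v} * star c.ww = 1 := by
  have h1 := c.ww_conj.{u, v} 1
  rw [map_one, mul_one] at h1
  rw [h1]
  have h2 : ((1 : C(X, ℂ)).comp (h.symm : C(X, X))) = 1 := rfl
  rw [h2, map_one]

/-- the homomorphism to the matrix algebra -/
theorem Cyc.exists_Psi : ∃ Ψ : B →⋆ₐ[ℂ] Mat c.m DT.{v}, ∀ b, c.Th C (Ψ b) = b := by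
  obtain ⟨Ψ, h1, h2⟩ := C.lift (Mat c.m DT.{v}) c.pi
    ⟨c.ww, Unitary.mem_iff.mpr ⟨c.star_ww_mul, c.ww_mul_star⟩⟩ (fun g => c.ww_conj g)
  refine ⟨Ψ, fun b => ?_⟩
  have hι : ∀ g, c.Th C (Ψ (C.ι g)) = C.ι g := by
    intro g
    rw [h1, c.pi_apply, map_sum]
    conv_rhs => rw [← c.sum_dl g, map_sum]
    refine Finset.sum_congr rfl fun i _ => ?_
    rw [c.Th_sg, c.f_self, map_smul, Algebra.algebraMap_eq_smul_one, map_smul, map_one,
      smul_mul_assoc, one_mul]
  have hu1 : c.Th C (Ψ (C.up 1)) = C.up 1 := by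
    have h3 : Ψ (C.up 1) = c.ww := by
      rw [C.up_one]
      exact h2
    rw [h3]
    unfold Cyc.ww
    rw [map_sum]
    have h4 : ∀ j : Fin c.m, c.Th C (sg (c.s j) j (c.wt j)) = C.up 1 * c.f C j j := by
      intro j
      rw [c.Th_sg]
      have h5 : c.σ (c.s j) = (h ^ (((j : ℕ) : ℤ) + 1)) c.x₀ := by
        rw [c.s_apply, c.apply, add_comm, zpa, zpow_one]
      unfold Cyc.wt
      by_cases h0 : (c.s j : ℕ) = 0
      · rw [if_pos h0, c.Z_zf]
        have h6 : (j : ℕ) + 1 = c.m := by
          by_contra hne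
          have hlt : (j : ℕ) + 1 < c.m := by
            have := j.2
            omega
          have h7 : c.σ ⟨(j : ℕ) + 1, hlt⟩ = c.σ (c.s j) := by
            rw [h5, c.apply]
            congr 2
          have h8 := c.σ.injective h7
          have h9 : (j : ℕ) + 1 = (c.s j : ℕ) := congrArg Fin.val h8
          omega
        unfold Cyc.v Cyc.f
        rw [h0]
        rw [Nat.cast_zero, C.up_zero, one_mul, ← mul_assoc, ← mul_assoc, ← mul_assoc, ← C.up_add]
        congr 3
        omega
      · rw [if_neg h0, map_one, one_mul]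
        have h6 : (c.s j : ℕ) = (j : ℕ) + 1 := by
          have hlt : (j : ℕ) + 1 < c.m := by
            by_contra hge
            have hjm : (j : ℕ) + 1 = c.m := by
              have := j.2
              omega
            have h7 : c.σ (c.s j) = c.σ ⟨0, c.pos⟩ := by
              rw [h5, c.apply]
              have h8 : (((j : ℕ) : ℤ) + 1) = (c.m : ℤ) := by omega
              rw [h8, c.per]
              show c.x₀ = (h ^ ((0 : ℕ) : ℤ)) c.x₀
              rw [Nat.cast_zero, zpow_zero]
              rfl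
            have h9 : (c.s j : ℕ) = 0 := congrArg Fin.val (c.σ.injective h7)
            exact h0 h9
          have h7 : c.σ ⟨(j : ℕ) + 1, hlt⟩ = c.σ (c.s j) := by
            rw [h5, c.apply]
            congr 2
          exact (congrArg Fin.val (c.σ.injective h7)).symm
        unfold Cyc.f
        rw [h6, ← mul_assoc, ← mul_assoc, ← C.up_add]
        congr 3
        push_cast
        ring
    rw [Finset.sum_congr rfl fun j _ => h4 j, ← Finset.mul_sum, c.f_sum, mul_one]
  have hum : c.Th C (Ψ (C.up (-1))) = C.up (-1) := by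
    rw [← C.star_up, map_star, map_star, hu1]
  have hu : ∀ k : ℤ, c.Th C (Ψ (C.up k)) = C.up k := by
    intro k
    induction k using Int.induction_on with
    | zero => rw [C.up_zero, map_one, map_one]
    | succ k ih => rw [C.up_add, map_mul, map_mul, ih, hu1]
    | pred k ih => rw [sub_eq_add_neg, C.up_add, map_mul, map_mul, ih, hum]
  exact C.hom_ext ((c.Th C).comp Ψ) (StarAlgHom.id ℂ B) hι hu b

end

end Run7.h450.Dyn
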