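import Pool.Agent.Run7.h450.Q10
import Pool.Agent.Run7.h450.Defs5

/-!
# Crossed products by homeomorphisms: gauge automorphisms, faithfulness
-/

set_option autoImplicit false
set_option linter.unusedSectionVars false

namespace Run7.h450.Dyn

open Filter Topology
open Pool.Agent.H327R4.Pure

universe u v w

section

variable {X : Type u} [TopologicalSpace X] [CompactSpace X]

/-- `f ∘ h^(-k)` -/
noncomputable def sh (h : X ≃ₜ X) (k : ℤ) (f : C(X, ℂ)) : C(X, ℂ) := f.comp ((h ^ (-k) : X ≃ₜ X) : C(X, X))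

theorem sh_apply (h : X ≃ₜ X) (k : ℤ) (f : C(X, ℂ)) (x : X) : sh h k f x = f ((h ^ (-k)) x) := rfl

theorem sh_zero (h : X ≃ₜ X) (f : C(X, ℂ)) : sh h 0 f = f := by
  ext x
  rw [sh_apply, neg_zero, zpow_zero]
  rfl

theorem sh_sh (h : X ≃ₜ X) (k l : ℤ) (f : C(X, ℂ)) : sh h k (sh h l f) = sh h (k + l) f := by
  ext x
  rw [sh_apply, sh_apply, sh_apply, neg_add_rev, zpow_add]
  rfl

theorem sh_one (h : X ≃ₜ X) (f : C(X, ℂ)) : sh h 1 f = f.comp (h.symm : C(X, X)) := by
  ext x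
  rw [sh_apply, zpow_neg, zpow_one]
  rfl

theorem sh_mul (h : X ≃ₜ X) (k : ℤ) (f g : C(X, ℂ)) : sh h k (f * g) = sh h k f * sh h k g := rfl

theorem cov_zpow {R : Type v} [CStarAlgebra R] {h : X ≃ₜ X} {κ : C(X, ℂ) → R} {U : unitary R}
    (hU : ∀ f, (U : R) * κ f = κ (sh h 1 f) * (U : R)) (k : ℤ) :
    ∀ f, ((U ^ k : unitary R) : R) * κ f = κ (sh h k f) * ((U ^ k : unitary R) : R) := by
  have hU' : ∀ f, ((U⁻¹ : unitary R) : R) * κ f = κ (sh h (-1) f) * ((U⁻¹ : unitary R) : R) := by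
    intro f
    have h1 := hU (sh h (-1) f)
    rw [sh_sh, add_neg_cancel, sh_zero] at h1
    have h2 : ((U⁻¹ : unitary R) : R) * (U : R) = 1 := by
      rw [← Submonoid.coe_mul, inv_mul_cancel]
      rfl
    have h3 : (U : R) * ((U⁻¹ : unitary R) : R) = 1 := by
      rw [← Submonoid.coe_mul, mul_inv_cancel]
      rfl
    calc ((U⁻¹ : unitary R) : R) * κ f = ((U⁻¹ : unitary R) : R) * (κ f * (U : R)) *
          ((U⁻¹ : unitary R) : R) := by rw [mul_assoc, mul_assoc (κ f), h3, mul_one]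
      _ = (((U⁻¹ : unitary R) : R) * (U : R)) * κ (sh h (-1) f) * ((U⁻¹ : unitary R) : R) := by
          rw [← h1]
          simp only [mul_assoc]
      _ = _ := by rw [h2, one_mul]
  induction k using Int.induction_on with
  | zero =>
    intro f
    rw [zpow_zero, sh_zero]
    show (1 : R) * κ f = κ f * 1
    rw [one_mul, mul_one]
  | succ k ih =>
    intro f
    rw [zpow_add_one, Submonoid.coe_mul, mul_assoc, hU, ← mul_assoc, ih, sh_sh, mul_assoc]
  | pred k ih =>
    intro f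
    rw [zpow_sub_one, Submonoid.coe_mul, mul_assoc, hU', ← mul_assoc, ih, sh_sh, mul_assoc,
      sub_eq_add_neg]

variable {h : X ≃ₜ X} {B : Type v} [CStarAlgebra B]

/-- the powers of the canonical unitary -/
def Crossed.up (C : Crossed h B) (k : ℤ) : B := ((C.u ^ k : unitary B) : B)

theorem Crossed.up_zero (C : Crossed h B) : C.up 0 = 1 := by
  unfold Crossed.up
  rw [zpow_zero]
  rfl

theorem Crossed.up_add (C : Crossed h B) (k l : ℤ) : C.up (k + l) = C.up k * C.up l := by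
  unfold Crossed.up
  rw [zpow_add]
  rfl

theorem Crossed.up_one (C : Crossed h B) : C.up 1 = C.u := by
  unfold Crossed.up
  rw [zpow_one]

theorem Crossed.star_up (C : Crossed h B) (k : ℤ) : star (C.up k) = C.up (-k) := by
  unfold Crossed.up
  rw [zpow_neg]
  rfl

theorem Crossed.up_mul_neg (C : Crossed h B) (k : ℤ) : C.up k * C.up (-k) = 1 := by
  rw [← C.up_add, add_neg_cancel, C.up_zero]

theorem Crossed.up_neg_mul (C : Crossed h B) (k : ℤ) : C.up (-k) * C.up k = 1 := by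
  rw [← C.up_add, neg_add_cancel, C.up_zero]

theorem Crossed.up_comm (C : Crossed h B) (k : ℤ) (f : C(X, ℂ)) :
    C.up k * C.ι f = C.ι (sh h k f) * C.up k := by
  refine cov_zpow (κ := C.ι) (U := C.u) (fun f => ?_) k f
  have h1 := C.cov f
  rw [sh_one, ← h1, mul_assoc _ (star (C.u : B)), Unitary.coe_star_mul_self, mul_one]

/-- finite sums `∑ ι(f_k) u^k` -/
noncomputable def Crossed.fs (C : Crossed h B) (F : ℤ →₀ C(X, ℂ)) : B :=
  F.sum fun k f => C.ι f * C.up k

theorem Crossed.fs_add (C : Crossed h B) (F G : ℤ →₀ C(X, ℂ)) :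
    C.fs (F + G) = C.fs F + C.fs G :=
  Finsupp.sum_add_index' (fun k => by simp) (fun k f g => by simp [add_mul])

theorem Crossed.fs_single (C : Crossed h B) (k : ℤ) (f : C(X, ℂ)) :
    C.fs (Finsupp.single k f) = C.ι f * C.up k :=
  Finsupp.sum_single_index (by simp)

theorem Crossed.fs_smul (C : Crossed h B) (c : ℂ) (F : ℤ →₀ C(X, ℂ)) :
    C.fs (c • F) = c • C.fs F := by
  unfold Crossed.fs
  rw [Finsupp.sum_smul_index' (fun k => by simp), Finsupp.smul_sum]
  exact Finsupp.sum_congr fun k _ => by simp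

theorem Crossed.exists_fs (C : Crossed h B) (b : B) (ε : ℝ) (hε : 0 < ε) :
    ∃ F : ℤ →₀ C(X, ℂ), ‖b - C.fs F‖ < ε := by
  have hb : b ∈ closure (Submodule.span ℂ {x : B | ∃ (f : C(X, ℂ)) (k : ℤ),
      x = C.ι f * ((C.u ^ k : unitary B) : B)} : Set B) := by
    rw [C.dense]
    exact Set.mem_univ b
  obtain ⟨s, hs, hbs⟩ := Metric.mem_closure_iff.mp hb ε hε
  have : ∃ F : ℤ →₀ C(X, ℂ), C.fs F = s := by
    refine Submodule.span_induction (p := fun s _ => ∃ F : ℤ →₀ C(X, ℂ), C.fs F = s) ?_ ?_ ?_ ?_ hs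
    · rintro _ ⟨f, k, rfl⟩
      exact ⟨Finsupp.single k f, C.fs_single k f⟩
    · exact ⟨0, by simp [Crossed.fs]⟩
    · rintro _ _ _ _ ⟨F, rfl⟩ ⟨G, rfl⟩
      exact ⟨F + G, C.fs_add F G⟩
    · rintro c _ _ ⟨F, rfl⟩
      exact ⟨c • F, C.fs_smul c F⟩
  obtain ⟨F, rfl⟩ := this
  exact ⟨F, by rwa [← dist_eq_norm]⟩

/-- the gauge automorphisms -/
theorem Crossed.exists_gauge (C : Crossed h B) (z : Circle) : ∃ θ : B →⋆ₐ[ℂ] B,
    (∀ f, θ (C.ι f) = C.ι f) ∧ ∀ k : ℤ, θ (C.up k) = ((z ^ k : Circle) : ℂ) • C.up k := by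
  have hz : star (z : ℂ) * (z : ℂ) = 1 := by
    have := Circle.coe_inv_eq_conj z
    show (starRingEnd ℂ) (z : ℂ) * (z : ℂ) = 1
    rw [← this, ← Circle.coe_mul, inv_mul_cancel, Circle.coe_one]
  have hz' : (z : ℂ) * star (z : ℂ) = 1 := by rw [mul_comm]; exact hz
  let w : unitary B := ⟨(z : ℂ) • (C.u : B), by
    rw [Unitary.mem_iff, star_smul, smul_mul_smul_comm, smul_mul_smul_comm, hz, hz',
      one_smul, one_smul]
    exact ⟨Unitary.coe_star_mul_self _, Unitary.coe_mul_star_self _⟩⟩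
  obtain ⟨θ, h1, h2⟩ := C.lift B C.ι w (fun f => by
    show (z : ℂ) • (C.u : B) * C.ι f * star ((z : ℂ) • (C.u : B)) = _
    rw [star_smul, smul_mul_assoc, smul_mul_smul_comm, hz', one_smul]
    exact C.cov f)
  refine ⟨θ, h1, fun k => ?_⟩
  have hU : θ (C.up 1) = (z : ℂ) • C.up 1 := by
    rw [C.up_one]
    exact h2
  have hU' : θ (C.up (-1)) = ((z⁻¹ : Circle) : ℂ) • C.up (-1) := by
    rw [← C.star_up, map_star, hU, star_smul, Circle.coe_inv_eq_conj]
    rfl
  induction k using Int.induction_on with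
  | zero => rw [C.up_zero, map_one, zpow_zero, Circle.coe_one, one_smul]
  | succ k ih =>
    rw [C.up_add, map_mul, ih, hU, smul_mul_smul_comm, zpow_add_one, Circle.coe_mul]
  | pred k ih =>
    rw [sub_eq_add_neg, C.up_add, map_mul, ih, hU', smul_mul_smul_comm, ← sub_eq_add_neg,
      zpow_sub_one, Circle.coe_mul]

end

section

variable {X : Type u} [TopologicalSpace X] [CompactSpace X] {h : X ≃ₜ X} {B : Type v}
  [CStarAlgebra B]

noncomputable def Crossed.gauge (C : Crossed h B) (z : Circle) : B →⋆ₐ[ℂ] B :=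
  Classical.choose (C.exists_gauge z)

theorem Crossed.gauge_ι (C : Crossed h B) (z : Circle) (f : C(X, ℂ)) :
    C.gauge z (C.ι f) = C.ι f := (Classical.choose_spec (C.exists_gauge z)).1 f

theorem Crossed.gauge_up (C : Crossed h B) (z : Circle) (k : ℤ) :
    C.gauge z (C.up k) = ((z ^ k : Circle) : ℂ) • C.up k :=
  (Classical.choose_spec (C.exists_gauge z)).2 k

/-- the roots of unity -/
noncomputable def rou (M j : ℕ) : Circle := Circle.exp (2 * Real.pi / M * j)

theorem rou_zpow (M : ℕ) (k : ℤ) (j : ℕ) :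
    (((rou M j) ^ k : Circle) : ℂ) =
      ((Complex.exp (2 * Real.pi * Complex.I / M)) ^ k) ^ j := by
  have h1 : ((rou M j : Circle) : ℂ) = (Complex.exp (2 * Real.pi * Complex.I / M)) ^ j := by
    unfold rou
    rw [Circle.coe_exp, ← Complex.exp_nat_mul]
    congr 1
    push_cast
    ring
  rw [Circle.coe_zpow, h1, ← zpow_natCast, ← zpow_natCast, ← zpow_mul, ← zpow_mul,
    mul_comm (j : ℤ) k]

theorem rou_sum (M : ℕ) (hM : M ≠ 0) (k : ℤ) :
    ∑ j ∈ Finset.range M, (((rou M j) ^ k : Circle) : ℂ) = if (M : ℤ) ∣ k then (M : ℂ) else 0 := by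
  have hζ := Complex.isPrimitiveRoot_exp M hM
  rw [Finset.sum_congr rfl fun j _ => rou_zpow M k j]
  set w : ℂ := (Complex.exp (2 * Real.pi * Complex.I / M)) ^ k with hw
  by_cases hd : (M : ℤ) ∣ k
  · rw [if_pos hd]
    have : w = 1 := (hζ.zpow_eq_one_iff_dvd k).mpr hd
    rw [this]
    simp
  · rw [if_neg hd]
    have hne : w ≠ 1 := fun h => hd ((hζ.zpow_eq_one_iff_dvd k).mp h)
    have h1 : w ^ M = 1 := by
      rw [hw, ← zpow_natCast, ← zpow_mul, mul_comm k, zpow_mul, zpow_natCast, hζ.pow_eq_one,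
        one_zpow]
    rw [geom_sum_eq hne, h1, sub_self, zero_div]

/-- the average over the `M`-th roots of unity -/
noncomputable def Crossed.avg (C : Crossed h B) (M : ℕ) (b : B) : B :=
  (M : ℝ)⁻¹ • ∑ j ∈ Finset.range M, C.gauge (rou M j) b

theorem Crossed.avg_add (C : Crossed h B) (M : ℕ) (a b : B) :
    C.avg M (a + b) = C.avg M a + C.avg M b := by
  unfold Crossed.avg
  simp only [map_add, Finset.sum_add_distrib, smul_add]

theorem Crossed.avg_sub (C : Crossed h B) (M : ℕ) (a b : B) :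
    C.avg M (a - b) = C.avg M a - C.avg M b := by
  unfold Crossed.avg
  simp only [map_sub, Finset.sum_sub_distrib, smul_sub]

theorem Crossed.norm_avg (C : Crossed h B) (M : ℕ) (b : B) : ‖C.avg M b‖ ≤ ‖b‖ := by
  unfold Crossed.avg
  rw [norm_smul, norm_inv, Real.norm_natCast]
  have h1 : ‖∑ j ∈ Finset.range M, C.gauge (rou M j) b‖ ≤ M * ‖b‖ := by
    refine (norm_sum_le_of_le _ fun j _ => NonUnitalStarAlgHom.norm_apply_le (C.gauge _) b).trans ?_
    rw [Finset.sum_const, Finset.card_range, nsmul_eq_mul]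
  by_cases hM : (M : ℝ) = 0
  · rw [hM, inv_zero, zero_mul]
    exact norm_nonneg _
  · calc (M : ℝ)⁻¹ * ‖∑ j ∈ Finset.range M, C.gauge (rou M j) b‖ ≤ (M : ℝ)⁻¹ * (M * ‖b‖) :=
          mul_le_mul_of_nonneg_left h1 (by positivity)
      _ = ‖b‖ := by rw [← mul_assoc, inv_mul_cancel₀ hM, one_mul]

theorem Crossed.avg_term (C : Crossed h B) (M : ℕ) (hM : M ≠ 0) (f : C(X, ℂ)) (k : ℤ) :
    C.avg M (C.ι f * C.up k) = if (M : ℤ) ∣ k then C.ι f * C.up k else 0 := by
  unfold Crossed.avg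
  have h1 : ∀ j ∈ Finset.range M, C.gauge (rou M j) (C.ι f * C.up k) =
      (((rou M j) ^ k : Circle) : ℂ) • (C.ι f * C.up k) := by
    intro j _
    rw [map_mul, C.gauge_ι, C.gauge_up, mul_smul_comm]
  rw [Finset.sum_congr rfl h1, ← Finset.sum_smul, rou_sum M hM]
  split_ifs
  · have : ((M : ℂ)) • (C.ι f * C.up k) = (M : ℝ) • (C.ι f * C.up k) := by
      rw [← Complex.coe_smul, Complex.ofReal_natCast]
    rw [this, smul_smul, inv_mul_cancel₀ (by exact_mod_cast hM), one_smul]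
  · rw [zero_smul, smul_zero]

/-- large averages pick the coefficient at `0` -/
theorem Crossed.avg_fs (C : Crossed h B) (F : ℤ →₀ C(X, ℂ)) (M : ℕ) (hM : M ≠ 0)
    (hF : ∀ k ∈ F.support, |k| < M) : C.avg M (C.fs F) = C.ι (F 0) := by
  have hsum : C.avg M (C.fs F) = F.sum fun k f => C.avg M (C.ι f * C.up k) := by
    let L : B →+ B := { toFun := C.avg M, map_zero' := by simp [Crossed.avg], map_add' := C.avg_add M }
    exact map_finsuppSum L F _
  rw [hsum]
  unfold Finsupp.sum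
  rw [Finset.sum_eq_single (0 : ℤ)]
  · show C.avg M (C.ι (F 0) * C.up 0) = _
    rw [C.avg_term M hM, if_pos (dvd_zero _), C.up_zero, mul_one]
  · intro k hk hk0
    show C.avg M (C.ι (F k) * C.up k) = _
    rw [C.avg_term M hM, if_neg]
    intro hd
    have h1 := Int.le_of_dvd (abs_pos.mpr hk0) ((dvd_abs _ _).mpr hd)
    exact absurd (hF k hk) (not_lt.mpr h1)
  · intro h0
    show C.avg M (C.ι (F 0) * C.up 0) = _
    rw [Finsupp.notMem_support_iff.mp h0, map_zero, zero_mul]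
    unfold Crossed.avg
    simp

theorem exists_support_bound (F : ℤ →₀ C(X, ℂ)) : ∃ M : ℕ, M ≠ 0 ∧ ∀ k ∈ F.support, |k| < M := by
  refine ⟨(∑ k ∈ F.support, k.natAbs) + 1, by omega, fun k hk => ?_⟩
  have h1 := Finset.single_le_sum (f := fun k : ℤ => k.natAbs) (fun _ _ => Nat.zero_le _) hk
  have h2 : |k| = (k.natAbs : ℤ) := Int.abs_eq_natAbs k
  rw [h2]
  exact_mod_cast Nat.lt_succ_of_le h1

variable [PartialOrder B] [StarOrderedRing B]

theorem Crossed.gauge_nonneg (C : Crossed h B) (z : Circle) {b : B} (hb : 0 ≤ b) :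
    0 ≤ C.gauge z b := hom_nonneg ((C.gauge z : B →⋆ₐ[ℂ] B) : B →⋆ₙₐ[ℂ] B) hb

theorem Crossed.gauge_fs_cont (C : Crossed h B) (F : ℤ →₀ C(X, ℂ)) :
    Continuous fun z : Circle => C.gauge z (C.fs F) := by
  have : (fun z : Circle => C.gauge z (C.fs F)) = fun z : Circle =>
      ∑ k ∈ F.support, ((z ^ k : Circle) : ℂ) • (C.ι (F k) * C.up k) := by
    funext z
    unfold Crossed.fs Finsupp.sum
    rw [map_sum]
    refine Finset.sum_congr rfl fun k _ => ?_
    rw [map_mul, C.gauge_ι, C.gauge_up, mul_smul_comm]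
  rw [this]
  refine continuous_finsetSum _ fun k _ => ?_
  have h1 : Continuous fun z : Circle => z ^ k := continuous_zpow k
  have h2 : Continuous fun z : Circle => (z : ℂ) := by fun_prop
  exact (h2.comp h1).smul continuous_const

/-- the coefficient at `0` of an approximation of a positive element `b ≠ 0` is not small -/
theorem Crossed.faith (C : Crossed h B) {b : B} (hb : 0 ≤ b) (hb0 : b ≠ 0) :
    ∃ c : ℝ, 0 < c ∧ ∀ F : ℤ →₀ C(X, ℂ), ‖b - C.fs F‖ ≤ c → ∃ x, c ≤ (F 0 x).re := by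
  set η : ℝ := ‖b‖ with hη
  have hη0 : 0 < η := norm_pos_iff.mpr hb0
  obtain ⟨G, hG⟩ := C.exists_fs b (η / 8) (by positivity)
  have hcont : Continuous fun t : ℝ => C.gauge (Circle.exp t) (C.fs G) :=
    (C.gauge_fs_cont G).comp Circle.exp.continuous
  have hone : C.gauge (Circle.exp 0) (C.fs G) = C.fs G := by
    rw [Circle.exp_zero]
    unfold Crossed.fs Finsupp.sum
    rw [map_sum]
    refine Finset.sum_congr rfl fun k _ => ?_
    rw [map_mul, C.gauge_ι, C.gauge_up, one_zpow, Circle.coe_one, one_smul]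
  obtain ⟨δ, hδ0, hδ⟩ := Metric.continuous_iff.mp hcont 0 (η / 8) (by positivity)
  have hclose : ∀ t : ℝ, |t| < δ → ‖C.gauge (Circle.exp t) b - b‖ ≤ 3 / 8 * η := by
    intro t ht
    have h1 := hδ t (by rwa [Real.dist_eq, sub_zero])
    rw [hone, dist_eq_norm] at h1
    have h2 : C.gauge (Circle.exp t) b - b = C.gauge (Circle.exp t) (b - C.fs G) +
        (C.gauge (Circle.exp t) (C.fs G) - C.fs G) - (b - C.fs G) := by
      rw [map_sub]
      abel
    rw [h2]
    refine (norm_sub_le _ _).trans ?_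
    have h3 := norm_add_le (C.gauge (Circle.exp t) (b - C.fs G))
      (C.gauge (Circle.exp t) (C.fs G) - C.fs G)
    have h4 := NonUnitalStarAlgHom.norm_apply_le (C.gauge (Circle.exp t)) (b - C.fs G)
    linarith
  set δ' : ℝ := min δ 1 with hδ'
  have hδ'0 : 0 < δ' := lt_min hδ0 one_pos
  set c : ℝ := δ' / (4 * Real.pi) * (5 / 8 * η) / 3 with hc
  have hπ := Real.pi_pos
  have hc0 : 0 < c := by positivity
  refine ⟨c, hc0, fun F hF => ?_⟩
  by_contra hcon
  push Not at hcon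
  obtain ⟨M₀, hM₀, hM₀F⟩ := exists_support_bound F
  obtain ⟨M₁, hM₁⟩ := exists_nat_gt (4 * Real.pi / δ')
  set M : ℕ := M₀ + M₁ with hM
  have hMne : M ≠ 0 := by omega
  have hMpos : (0 : ℝ) < M := by exact_mod_cast Nat.pos_of_ne_zero hMne
  have hMF : ∀ k ∈ F.support, |k| < M := fun k hk => (hM₀F k hk).trans_le (by
    rw [hM]
    push_cast
    omega)
  have hMlarge : 4 * Real.pi ≤ δ' * M := by
    rw [div_lt_iff₀ hδ'0] at hM₁
    have : (M₁ : ℝ) ≤ M := by
      rw [hM]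
      push_cast
      have : (0 : ℝ) ≤ M₀ := Nat.cast_nonneg _
      linarith
    nlinarith
  -- the number of small roots of unity
  set m : ℕ := ⌊δ' * M / (4 * Real.pi)⌋₊ with hm
  have hm1 : (m : ℝ) ≤ δ' * M / (4 * Real.pi) := Nat.floor_le (by positivity)
  have hm2 : δ' * M / (4 * Real.pi) < m + 1 := Nat.lt_floor_add_one _
  have hmM : m + 1 ≤ M := by
    have h1 : (m : ℝ) + 1 ≤ M := by
      have h2 : δ' * M / (4 * Real.pi) ≤ M / 4 := by
        rw [div_le_iff₀ (by positivity)]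
        have h3 : δ' ≤ 1 := min_le_right _ _
        have h4 : 1 ≤ Real.pi := by linarith [Real.pi_gt_three]
        nlinarith
      have h3 : (4 : ℝ) * 3 ≤ M := by
        have : δ' ≤ 1 := min_le_right _ _
        nlinarith [Real.pi_gt_three]
      linarith
    exact_mod_cast h1
  have hsmall : ∀ j ∈ Finset.range (m + 1), b - (3 / 8 * η) • (1 : B) ≤ C.gauge (rou M j) b := by
    intro j hj
    have hj' : (j : ℝ) ≤ m := by
      exact_mod_cast Nat.lt_succ_iff.mp (Finset.mem_range.mp hj)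
    have ht : |2 * Real.pi / M * j| < δ := by
      rw [abs_of_nonneg (by positivity)]
      have h1 : 2 * Real.pi / M * j ≤ 2 * Real.pi / M * (δ' * M / (4 * Real.pi)) :=
        mul_le_mul_of_nonneg_left (hj'.trans hm1) (by positivity)
      have h2 : 2 * Real.pi / M * (δ' * M / (4 * Real.pi)) = δ' / 2 := by
        field_simp
        ring
      have h3 : δ' ≤ δ := min_le_left _ _
      linarith
    have h1 := hclose _ ht
    have hsa : IsSelfAdjoint (C.gauge (rou M j) b - b) :=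
      (IsSelfAdjoint.of_nonneg (C.gauge_nonneg _ hb)).sub (IsSelfAdjoint.of_nonneg hb)
    have h2 := IsSelfAdjoint.neg_algebraMap_norm_le_self hsa
    rw [Algebra.algebraMap_eq_smul_one] at h2
    have h3 : (‖C.gauge (rou M j) b - b‖ : ℝ) • (1 : B) ≤ (3 / 8 * η) • (1 : B) :=
      smul_le_smul_of_nonneg_right h1 zero_le_one
    have h4 : b - (3 / 8 * η) • (1 : B) ≤ b - ‖C.gauge (rou M j) b - b‖ • (1 : B) :=
      sub_le_sub_left h3 b
    refine h4.trans ?_
    have h5 := add_le_add_right h2 b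
    rw [sub_eq_add_neg]
    refine h5.trans (le_of_eq ?_)
    abel
  have hlow : ((m + 1 : ℕ) : ℝ) • (b - (3 / 8 * η) • (1 : B)) ≤
      ∑ j ∈ Finset.range M, C.gauge (rou M j) b := by
    calc ((m + 1 : ℕ) : ℝ) • (b - (3 / 8 * η) • (1 : B))
        = ∑ _j ∈ Finset.range (m + 1), (b - (3 / 8 * η) • (1 : B)) := by
          rw [Finset.sum_const, Finset.card_range, Nat.cast_smul_eq_nsmul]
      _ ≤ ∑ j ∈ Finset.range (m + 1), C.gauge (rou M j) b := Finset.sum_le_sum hsmall
      _ ≤ ∑ j ∈ Finset.range M, C.gauge (rou M j) b :=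
          Finset.sum_le_sum_of_subset_of_nonneg (Finset.range_mono hmM)
            fun j _ _ => C.gauge_nonneg _ hb
  -- `avg M b ≤ 2 c`
  have hup : C.avg M b ≤ (2 * c) • (1 : B) := by
    have h1 : ‖C.avg M b - C.ι (F 0)‖ ≤ c := by
      rw [← C.avg_fs F M hMne hMF, ← C.avg_sub]
      exact (C.norm_avg _ _).trans hF
    have havg0 : 0 ≤ C.avg M b := smul_nonneg (by positivity)
      (Finset.sum_nonneg fun j _ => C.gauge_nonneg _ hb)
    have hsaA : IsSelfAdjoint (C.avg M b) := IsSelfAdjoint.of_nonneg havg0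
    set e : B := C.avg M b - C.ι (F 0) with he
    -- real parts
    have h2 : C.avg M b = (1 / 2 : ℝ) • (C.ι (F 0) + star (C.ι (F 0))) +
        (1 / 2 : ℝ) • (e + star e) := by
      rw [he, star_sub, hsaA.star_eq, ← smul_add]
      have : C.ι (F 0) + star (C.ι (F 0)) + (C.avg M b - C.ι (F 0) +
        (C.avg M b - star (C.ι (F 0)))) = (2 : ℝ) • C.avg M b := by
        rw [two_smul]
        abel
      rw [this, smul_smul]
      norm_num
    have h3 : (1 / 2 : ℝ) • (e + star e) ≤ c • (1 : B) := by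
      have hsa : IsSelfAdjoint ((1 / 2 : ℝ) • (e + star e)) :=
        IsSelfAdjoint.smul (by rfl) (IsSelfAdjoint.add_star_self e)
      have h4 := IsSelfAdjoint.le_algebraMap_norm_self hsa
      rw [Algebra.algebraMap_eq_smul_one] at h4
      refine h4.trans (smul_le_smul_of_nonneg_right ?_ zero_le_one)
      rw [norm_smul]
      have h5 := norm_add_le e (star e)
      rw [norm_star] at h5
      have : ‖(1 / 2 : ℝ)‖ = 1 / 2 := by norm_num
      rw [this]
      linarith
    have h4 : (1 / 2 : ℝ) • (C.ι (F 0) + star (C.ι (F 0))) ≤ c • (1 : B) := by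
      set ψ : C(X, ℂ) := ⟨fun x => ((Real.sqrt (c - (F 0 x).re) : ℝ) : ℂ), by fun_prop⟩ with hψ
      have h5 : star ψ * ψ = c • (1 : C(X, ℂ)) - (1 / 2 : ℝ) • (F 0 + star (F 0)) := by
        ext x
        have h6 : 0 ≤ c - (F 0 x).re := by linarith [hcon x]
        show star ((Real.sqrt (c - (F 0 x).re) : ℝ) : ℂ) * ((Real.sqrt (c - (F 0 x).re) : ℝ) : ℂ) =
          c • (1 : ℂ) - (1 / 2 : ℝ) • (F 0 x + star (F 0 x))
        have h7 : star ((Real.sqrt (c - (F 0 x).re) : ℝ) : ℂ) =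
            ((Real.sqrt (c - (F 0 x).re) : ℝ) : ℂ) := Complex.conj_ofReal _
        have h8 : F 0 x + star (F 0 x) = ((2 * (F 0 x).re : ℝ) : ℂ) := by
          have := Complex.add_conj (F 0 x)
          simpa using this
        rw [h7, ← Complex.ofReal_mul, Real.mul_self_sqrt h6, h8, Complex.real_smul,
          Complex.real_smul]
        push_cast
        ring
      have h6 : 0 ≤ C.ι (star ψ * ψ) := by
        rw [map_mul, map_star]
        exact star_mul_self_nonneg _
      rw [h5, map_sub] at h6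
      have h7 : C.ι (c • (1 : C(X, ℂ))) = c • (1 : B) := by
        rw [← Complex.coe_smul, map_smul, map_one, Complex.coe_smul]
      have h8 : C.ι ((1 / 2 : ℝ) • (F 0 + star (F 0))) =
          (1 / 2 : ℝ) • (C.ι (F 0) + star (C.ι (F 0))) := by
        rw [← Complex.coe_smul, map_smul, map_add, map_star, Complex.coe_smul]
      rw [h7, h8] at h6
      exact sub_nonneg.mp h6
    rw [h2, mul_smul]
    refine (add_le_add h4 h3).trans (le_of_eq ?_)
    rw [two_smul]
  -- contradiction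
  have h1 : ((m + 1 : ℕ) : ℝ) • (b - (3 / 8 * η) • (1 : B)) ≤ (M * (2 * c)) • (1 : B) := by
    refine hlow.trans ?_
    have h2 : ∑ j ∈ Finset.range M, C.gauge (rou M j) b = (M : ℝ) • C.avg M b := by
      unfold Crossed.avg
      rw [smul_smul, mul_inv_cancel₀ hMpos.ne', one_smul]
    rw [h2, mul_smul]
    exact smul_le_smul_of_nonneg_left hup hMpos.le
  set p : ℝ := ((m + 1 : ℕ) : ℝ) with hp
  have hp0 : 0 < p := by
    rw [hp]
    positivity
  have h2 : p • b ≤ (M * (2 * c) + p * (3 / 8 * η)) • (1 : B) := by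
    rw [smul_sub, smul_smul, sub_le_iff_le_add] at h1
    rw [add_smul]
    exact h1
  have h3 : ‖p • b‖ ≤ M * (2 * c) + p * (3 / 8 * η) := by
    have h4 := CStarAlgebra.norm_le_norm_of_nonneg_of_le (smul_nonneg hp0.le hb) h2
    refine h4.trans ?_
    rw [norm_smul, Real.norm_of_nonneg (by positivity)]
    by_cases hsub : Nontrivial B
    · rw [norm_one, mul_one]
    · rw [not_nontrivial_iff_subsingleton] at hsub
      exact absurd (Subsingleton.elim b 0) hb0
  rw [norm_smul, Real.norm_of_nonneg hp0.le, ← hη] at h3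
  have h4 : δ' * M / (4 * Real.pi) < p := by
    rw [hp]
    push_cast
    exact hm2
  have h5 : M * (2 * c) = 2 / 3 * (δ' * M / (4 * Real.pi)) * (5 / 8 * η) := by
    rw [hc]
    ring
  rw [h5] at h3
  nlinarith

end

section

variable {X : Type u} [TopologicalSpace X] [CompactSpace X] [T2Space X] {h : X ≃ₜ X}

/-- no periodic points -/
def Aper (h : X ≃ₜ X) : Prop := ∀ (k : ℤ), k ≠ 0 → ∀ x : X, (h ^ k) x ≠ x

theorem zpow_add_apply (h : X ≃ₜ X) (k l : ℤ) (x : X) : (h ^ (k + l)) x = (h ^ k) ((h ^ l) x) := by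
  rw [zpow_add]
  rfl

theorem aper_of [Infinite X] (hm : Minimal h) : Aper h := by
  intro k hk x hx
  have hfin : (Set.range fun j : ℤ => (h ^ j) x).Finite := by
    have hmul : ∀ j : ℤ, (h ^ (k * j)) x = x := by
      intro j
      rw [zpow_mul]
      induction j using Int.induction_on with
      | zero => rw [zpow_zero]; rfl
      | succ j ih => rw [zpow_add_one]; exact (congrArg _ hx).trans ih
      | pred j ih =>
        rw [zpow_sub_one]
        have h1 : ((h ^ k)⁻¹ : X ≃ₜ X) x = x := by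
          rw [Homeomorph.inv_apply, Homeomorph.symm_apply_eq]
          exact hx.symm
        exact (congrArg _ h1).trans ih
    refine ((Finset.range k.natAbs).finite_toSet.image fun j : ℕ => (h ^ (j : ℤ)) x).subset ?_
    rintro _ ⟨j, rfl⟩
    refine ⟨(j % k).toNat, ?_, ?_⟩
    · have h1 := Int.emod_nonneg j hk
      have h2 := Int.emod_lt_abs j hk
      rw [Int.abs_eq_natAbs] at h2
      rw [Finset.coe_range, Set.mem_Iio]
      omega
    · have h1 := Int.emod_nonneg j hk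
      have h2 : ((j % k).toNat : ℤ) = j % k := Int.toNat_of_nonneg h1
      show (h ^ (((j % k).toNat : ℤ))) x = (h ^ j) x
      rw [h2]
      conv_rhs => rw [← Int.emod_add_mul_ediv j k]
      rw [zpow_add_apply, hmul]
  have h1 := (hm x).closure_eq
  rw [hfin.isClosed.closure_eq] at h1
  rw [h1] at hfin
  exact Set.infinite_univ hfin

/-- small neighbourhoods are disjoint from finitely many translates -/
theorem exists_nhd (ha : Aper h) (S : Finset ℤ) (hS : (0 : ℤ) ∉ S) (x : X) :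
    ∃ V : Set X, IsOpen V ∧ x ∈ V ∧ ∀ k ∈ S, ∀ y ∈ V, (h ^ k) y ∉ V := by
  classical
  induction S using Finset.induction_on with
  | empty => exact ⟨Set.univ, isOpen_univ, Set.mem_univ x, by simp⟩
  | insert k S hk ih =>
    obtain ⟨V, hV, hxV, hV'⟩ := ih (fun h => hS (Finset.mem_insert_of_mem h))
    have hk0 : k ≠ 0 := fun h => hS (h ▸ Finset.mem_insert_self k S)
    obtain ⟨P, Q, hP, hQ, hxP, hxQ, hPQ⟩ := t2_separation (ha k hk0 x).symm
    refine ⟨V ∩ (P ∩ (h ^ k) ⁻¹' Q), hV.inter (hP.inter (hQ.preimage (h ^ k).continuous)),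
      ⟨hxV, hxP, hxQ⟩, fun l hl y hy hy' => ?_⟩
    rcases Finset.mem_insert.mp hl with rfl | hl
    · exact Set.disjoint_left.mp hPQ hy'.2.1 hy.2.2
    · exact hV' l hl y hy.1 hy'.1

/-- finitely many translates of a nonempty open set cover -/
theorem exists_cover (hm : Minimal h) {W : Set X} (hW : IsOpen W) (hne : W.Nonempty) :
    ∃ J : ℕ, ∀ x : X, ∃ k : ℤ, |k| ≤ J ∧ (h ^ k) x ∈ W := by
  obtain ⟨t, ht⟩ := isCompact_univ.elim_finite_subcover (fun k : ℤ => (h ^ k) ⁻¹' W)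
    (fun k => hW.preimage (h ^ k).continuous) (fun x _ => by
      obtain ⟨y, hy1, k, rfl⟩ := (hm x).inter_open_nonempty W hW hne
      exact Set.mem_iUnion.mpr ⟨k, hy1⟩)
  refine ⟨∑ k ∈ t, k.natAbs, fun x => ?_⟩
  obtain ⟨k, hk⟩ := Set.mem_iUnion.mp (ht (Set.mem_univ x))
  obtain ⟨hkt, hk'⟩ := Set.mem_iUnion.mp hk
  refine ⟨k, ?_, hk'⟩
  have h1 := Finset.single_le_sum (f := fun k : ℤ => k.natAbs) (fun _ _ => Nat.zero_le _) hkt
  have h2 : |k| = (k.natAbs : ℤ) := Int.abs_eq_natAbs k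
  rw [h2]
  exact_mod_cast h1

/-- real functions as elements of `C(X)` -/
noncomputable def cx (f : C(X, ℝ)) : C(X, ℂ) := ⟨fun x => ((f x : ℝ) : ℂ), by fun_prop⟩

theorem cx_apply (f : C(X, ℝ)) (x : X) : cx f x = ((f x : ℝ) : ℂ) := rfl

theorem cx_mul (f g : C(X, ℝ)) : cx (f * g) = cx f * cx g := by
  ext x
  show ((f x * g x : ℝ) : ℂ) = _
  push_cast
  rfl

theorem cx_add (f g : C(X, ℝ)) : cx (f + g) = cx f + cx g := by
  ext x
  show ((f x + g x : ℝ) : ℂ) = _
  push_cast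
  rfl

theorem cx_sub (f g : C(X, ℝ)) : cx (f - g) = cx f - cx g := by
  ext x
  show ((f x - g x : ℝ) : ℂ) = _
  push_cast
  rfl

theorem cx_one : cx (1 : C(X, ℝ)) = 1 := by
  ext x
  show ((1 : ℝ) : ℂ) = 1
  norm_num

theorem cx_zero : cx (0 : C(X, ℝ)) = 0 := by
  ext x
  show ((0 : ℝ) : ℂ) = 0
  norm_num

theorem cx_smul (c : ℝ) (f : C(X, ℝ)) : cx (c • f) = c • cx f := by
  ext x
  show ((c * f x : ℝ) : ℂ) = c • ((f x : ℝ) : ℂ)
  rw [Complex.real_smul]
  push_cast
  rfl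

theorem cx_sum {ι : Type w} (s : Finset ι) (f : ι → C(X, ℝ)) :
    cx (∑ i ∈ s, f i) = ∑ i ∈ s, cx (f i) := by
  classical
  induction s using Finset.induction_on with
  | empty => simp [cx_zero]
  | insert i s hi ih => rw [Finset.sum_insert hi, Finset.sum_insert hi, cx_add, ih]

theorem star_cx (f : C(X, ℝ)) : star (cx f) = cx f := by
  ext x
  exact Complex.conj_ofReal _

/-- `f ∘ h^(-k)` for real functions -/
def shr (h : X ≃ₜ X) (k : ℤ) (f : C(X, ℝ)) : C(X, ℝ) := f.comp ((h ^ (-k) : X ≃ₜ X) : C(X, X))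

theorem shr_apply (h : X ≃ₜ X) (k : ℤ) (f : C(X, ℝ)) (x : X) :
    shr h k f x = f ((h ^ (-k)) x) := rfl

theorem sh_cx (k : ℤ) (f : C(X, ℝ)) : sh h k (cx f) = cx (shr h k f) := rfl

theorem kap_mono {R : Type v} [CStarAlgebra R] [PartialOrder R] [StarOrderedRing R]
    (κ : C(X, ℂ) →⋆ₙₐ[ℂ] R) {f g : C(X, ℝ)} (hfg : ∀ x, f x ≤ g x) : κ (cx f) ≤ κ (cx g) := by
  rw [← sub_nonneg, ← map_sub, ← cx_sub]
  set r : C(X, ℝ) := ⟨fun x => Real.sqrt (g x - f x), by fun_prop⟩ with hr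
  have e : g - f = r * r := by
    ext x
    show g x - f x = Real.sqrt (g x - f x) * Real.sqrt (g x - f x)
    rw [Real.mul_self_sqrt (sub_nonneg.mpr (hfg x))]
  rw [e, cx_mul, map_mul]
  have h1 := star_mul_self_nonneg (κ (cx r))
  rwa [← map_star, star_cx] at h1

theorem kap_nonneg {R : Type v} [CStarAlgebra R] [PartialOrder R] [StarOrderedRing R]
    (κ : C(X, ℂ) →⋆ₙₐ[ℂ] R) {f : C(X, ℝ)} (hf : ∀ x, 0 ≤ f x) : 0 ≤ κ (cx f) := by
  have h1 := kap_mono κ (f := 0) (g := f) hf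
  rwa [cx_zero, map_zero] at h1

/-- a partition of unity by squares of functions which are orthogonal to their translates -/
theorem exists_pou (ha : Aper h) (S : Finset ℤ) (hS : (0 : ℤ) ∉ S) :
    ∃ (m : ℕ) (g : Fin m → C(X, ℝ)), (∀ i x, 0 ≤ g i x) ∧ (∀ x, ∑ i, g i x * g i x = 1) ∧
      ∀ i, ∀ k ∈ S, ∀ x, g i x * g i ((h ^ (-k)) x) = 0 := by
  classical
  choose V hVo hxV hV using exists_nhd (h := h) ha S hS
  obtain ⟨t, ht⟩ := isCompact_univ.elim_finite_subcover V hVo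
    (fun x _ => Set.mem_iUnion.mpr ⟨x, hxV x⟩)
  let σ : Fin t.card ≃ {x // x ∈ t} := t.equivFin.symm
  obtain ⟨ρ, hρ⟩ := PartitionOfUnity.exists_isSubordinate (s := (Set.univ : Set X)) isClosed_univ
    (fun i : Fin t.card => V (σ i).1) (fun i => hVo _) (fun x hx => by
      obtain ⟨y, hy⟩ := Set.mem_iUnion.mp (ht hx)
      obtain ⟨hyt, hy'⟩ := Set.mem_iUnion.mp hy
      refine Set.mem_iUnion.mpr ⟨σ.symm ⟨y, hyt⟩, ?_⟩
      rwa [Equiv.apply_symm_apply])
  refine ⟨t.card, fun i => ⟨fun x => Real.sqrt (ρ i x), by fun_prop⟩, fun i x => Real.sqrt_nonneg _,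
    fun x => ?_, fun i k hk x => ?_⟩
  · have h1 := ρ.sum_eq_one (Set.mem_univ x)
    rw [finsum_eq_sum_of_fintype] at h1
    rw [← h1]
    exact Finset.sum_congr rfl fun i _ => Real.mul_self_sqrt (ρ.nonneg i x)
  · show Real.sqrt (ρ i x) * Real.sqrt (ρ i ((h ^ (-k)) x)) = 0
    by_cases h1 : ρ i x = 0
    · rw [h1, Real.sqrt_zero, zero_mul]
    by_cases h2 : ρ i ((h ^ (-k)) x) = 0
    · rw [h2, Real.sqrt_zero, mul_zero]
    exfalso
    have m1 : x ∈ V (σ i).1 := hρ i (subset_tsupport _ h1)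
    have m2 : (h ^ (-k)) x ∈ V (σ i).1 := hρ i (subset_tsupport _ h2)
    refine hV (σ i).1 k hk _ m2 ?_
    rw [← zpow_add_apply, add_neg_cancel, zpow_zero]
    exact m1

end

section

variable {X : Type u} [TopologicalSpace X] [CompactSpace X] [T2Space X] {h : X ≃ₜ X} {B : Type v}
  [CStarAlgebra B] [PartialOrder B] [StarOrderedRing B]

/-- the inclusion as a non-unital homomorphism -/
noncomputable def Crossed.κ (C : Crossed h B) : C(X, ℂ) →⋆ₙₐ[ℂ] B := (C.ι : C(X, ℂ) →⋆ₙₐ[ℂ] B)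

theorem Crossed.κ_apply (C : Crossed h B) (f : C(X, ℂ)) : C.κ f = C.ι f := rfl

/-- compressing by a function orthogonal to its translates -/
theorem Crossed.compress (C : Crossed h B) (F : ℤ →₀ C(X, ℂ)) (g : C(X, ℝ))
    (hg : ∀ k ∈ F.support, k ≠ 0 → ∀ x, g x * g ((h ^ (-k)) x) = 0) :
    C.ι (cx g) * C.fs F * C.ι (cx g) = C.ι (cx g * cx g * F 0) := by
  unfold Crossed.fs Finsupp.sum
  rw [Finset.mul_sum, Finset.sum_mul]
  have hterm : ∀ k, C.ι (cx g) * (C.ι (F k) * C.up k) * C.ι (cx g) =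
      C.ι (cx g * sh h k (cx g) * F k) * C.up k := by
    intro k
    rw [← mul_assoc, mul_assoc _ (C.up k), C.up_comm, ← mul_assoc, ← map_mul, ← map_mul]
    congr 2
    ring
  rw [Finset.sum_congr rfl fun k _ => hterm k, Finset.sum_eq_single (0 : ℤ)]
  · rw [C.up_zero, mul_one, sh_zero]
  · intro k hk hk0
    have : cx g * sh h k (cx g) = 0 := by
      ext x
      show ((g x : ℝ) : ℂ) * ((g ((h ^ (-k)) x) : ℝ) : ℂ) = 0
      rw [← Complex.ofReal_mul, hg k hk hk0 x, Complex.ofReal_zero]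
    rw [this, zero_mul, map_zero, zero_mul]
  · intro h0
    rw [Finsupp.notMem_support_iff.mp h0, mul_zero, map_zero, zero_mul]

theorem le_of_norm_sub_le {e : B} (he : IsSelfAdjoint e) {c : ℝ} (hc : ‖e‖ ≤ c) :
    e ≤ c • (1 : B) := by
  have h4 := IsSelfAdjoint.le_algebraMap_norm_self he
  rw [Algebra.algebraMap_eq_smul_one] at h4
  exact h4.trans (smul_le_smul_of_nonneg_right hc zero_le_one)

end

end Run7.h450.Dyn
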