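import Pool.Agent.Run7.h450.Z1

/-!
# Simplicity of crossed products by minimal homeomorphisms
-/

set_option autoImplicit false
set_option linter.unusedSectionVars false

namespace Run7.h450.Dyn

open Filter Topology
open Pool.Agent.H327R4.Pure

universe u v w

section

variable {X : Type u} [TopologicalSpace X] [CompactSpace X] [T2Space X] {h : X ≃ₜ X} {B : Type v}
  [CStarAlgebra B] [PartialOrder B] [StarOrderedRing B]

theorem Crossed.simple [Infinite X] (C : Crossed h B) (hm : Minimal h) : SimpleC B := by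
  classical
  have hne : Nonempty X := inferInstance
  have hnt : Nontrivial B := by
    refine ⟨⟨1, 0, fun h1 => ?_⟩⟩
    have h2 : C.ι 1 = C.ι 0 := by rw [map_one, map_zero, h1]
    have h3 := C.injective h2
    have h4 := congrArg (fun f : C(X, ℂ) => f hne.some) h3
    simp at h4
  refine ⟨hnt, fun I hI => ?_⟩
  by_cases hbot : I = ⊥
  · exact Or.inl hbot
  right
  obtain ⟨x, hxI, hx0⟩ : ∃ x, x ∈ I ∧ x ≠ 0 := by
    by_contra hcon
    push Not at hcon
    refine hbot ?_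
    rw [eq_bot_iff]
    intro x hx
    rw [hcon x hx]
    exact zero_mem _
  set b : B := star x * x with hb
  have hbI : b ∈ I := I.mul_mem_left _ _ hxI
  have hb0 : 0 ≤ b := star_mul_self_nonneg x
  have hbne : b ≠ 0 := fun h1 => hx0 (CStarRing.star_mul_self_eq_zero_iff x |>.mp h1)
  obtain ⟨c, hc0, hc⟩ := C.faith hb0 hbne
  obtain ⟨F, hF⟩ := C.exists_fs b (c / 8) (by positivity)
  obtain ⟨x₁, hx₁⟩ := hc F (hF.le.trans (by linarith))
  obtain ⟨m, g, hg0, hg1, hg2⟩ := exists_pou (aper_of hm) (F.support.erase 0)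
    (Finset.notMem_erase 0 _)
  -- the real part of the zeroth coefficient
  set φ : C(X, ℝ) := ⟨fun x => (F 0 x).re, by fun_prop⟩ with hφ
  set W : Set X := {x | c / 2 < φ x} with hW
  have hWo : IsOpen W := isOpen_lt continuous_const φ.continuous
  have hx₁W : x₁ ∈ W := by
    show c / 2 < (F 0 x₁).re
    linarith
  obtain ⟨t, ht⟩ := isCompact_univ.elim_finite_subcover (fun k : ℤ => (h ^ (-k)) ⁻¹' W)
    (fun k => hWo.preimage (h ^ (-k)).continuous) (fun x _ => by
      obtain ⟨y, hy1, k, rfl⟩ := (hm x).inter_open_nonempty W hWo ⟨x₁, hx₁W⟩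
      exact Set.mem_iUnion.mpr ⟨-k, by simpa using hy1⟩)
  let σ : Fin t.card ≃ {k // k ∈ t} := t.equivFin.symm
  obtain ⟨ρ, hρ⟩ := PartitionOfUnity.exists_isSubordinate (s := (Set.univ : Set X)) isClosed_univ
    (fun i : Fin t.card => (h ^ (-(σ i).1)) ⁻¹' W)
    (fun i => hWo.preimage (h ^ (-(σ i).1)).continuous) (fun x hx => by
      obtain ⟨y, hy⟩ := Set.mem_iUnion.mp (ht hx)
      obtain ⟨hyt, hy'⟩ := Set.mem_iUnion.mp hy
      refine Set.mem_iUnion.mpr ⟨σ.symm ⟨y, hyt⟩, ?_⟩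
      rwa [Equiv.apply_symm_apply])
  -- `s i` and `r i = s i ∘ h^(-k i)`
  let r : Fin t.card → C(X, ℝ) := fun i =>
    ⟨fun x => Real.sqrt (ρ i x / max (φ ((h ^ (-(σ i).1)) x)) (c / 2)), by
      have : ∀ x, max (φ ((h ^ (-(σ i).1)) x)) (c / 2) ≠ 0 := fun x =>
        (lt_max_of_lt_right (by positivity)).ne'
      fun_prop (disch := assumption)⟩
  have hr1 : ∀ i x, r i x * r i x * φ ((h ^ (-(σ i).1)) x) = ρ i x := by
    intro i x
    have hpos : 0 < max (φ ((h ^ (-(σ i).1)) x)) (c / 2) := lt_max_of_lt_right (by positivity)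
    have h1 : r i x * r i x = ρ i x / max (φ ((h ^ (-(σ i).1)) x)) (c / 2) :=
      Real.mul_self_sqrt (div_nonneg (ρ.nonneg i x) hpos.le)
    rw [h1]
    by_cases h2 : ρ i x = 0
    · rw [h2, zero_div, zero_mul]
    · have m1 : (h ^ (-(σ i).1)) x ∈ W := hρ i (subset_tsupport _ h2)
      have m2 : c / 2 < φ ((h ^ (-(σ i).1)) x) := m1
      rw [max_eq_left m2.le, div_mul_cancel₀]
      have : 0 < c / 2 := by positivity
      exact (this.trans m2).ne'
  have hr2 : ∀ i x, r i x * r i x ≤ (2 / c) * ρ i x := by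
    intro i x
    have hpos : 0 < max (φ ((h ^ (-(σ i).1)) x)) (c / 2) := lt_max_of_lt_right (by positivity)
    have h1 : r i x * r i x = ρ i x / max (φ ((h ^ (-(σ i).1)) x)) (c / 2) :=
      Real.mul_self_sqrt (div_nonneg (ρ.nonneg i x) hpos.le)
    rw [h1, div_le_iff₀ hpos]
    have h2 : c / 2 ≤ max (φ ((h ^ (-(σ i).1)) x)) (c / 2) := le_max_right _ _
    have h3 := ρ.nonneg i x
    calc ρ i x = (2 / c) * ρ i x * (c / 2) := by field_simp
      _ ≤ (2 / c) * ρ i x * max (φ ((h ^ (-(σ i).1)) x)) (c / 2) :=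
          mul_le_mul_of_nonneg_left h2 (by positivity)
  have hρ1 : ∀ x, ∑ i, ρ i x = 1 := by
    intro x
    have h1 := ρ.sum_eq_one (Set.mem_univ x)
    rwa [finsum_eq_sum_of_fintype] at h1
  -- the map `Ψ`
  set Ψ : B → B := fun y => ∑ i : Fin t.card, ∑ l : Fin m,
    (C.ι (cx (r i)) * C.up (σ i).1 * C.ι (cx (g l))) * y *
      (C.ι (cx (g l)) * C.up (-(σ i).1) * C.ι (cx (r i))) with hΨ
  have hstar : ∀ i l, star (C.ι (cx (r i)) * C.up (σ i).1 * C.ι (cx (g l))) =
      C.ι (cx (g l)) * C.up (-(σ i).1) * C.ι (cx (r i)) := by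
    intro i l
    rw [star_mul, star_mul, C.star_up, ← map_star, ← map_star, star_cx, star_cx, mul_assoc]
  have hΨmono : ∀ y y' : B, y ≤ y' → Ψ y ≤ Ψ y' := by
    intro y y' hy
    refine Finset.sum_le_sum fun i _ => Finset.sum_le_sum fun l _ => ?_
    rw [← hstar]
    exact star_right_conjugate_le_conjugate hy _
  have hΨsub : ∀ y y', Ψ (y - y') = Ψ y - Ψ y' := by
    intro y y'
    simp only [hΨ, mul_sub, sub_mul, Finset.sum_sub_distrib]
  have hinner : ∀ i (f : C(X, ℂ)), ∑ l : Fin m,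
      (C.ι (cx (r i)) * C.up (σ i).1 * C.ι (cx (g l))) * C.ι f *
      (C.ι (cx (g l)) * C.up (-(σ i).1) * C.ι (cx (r i))) =
      C.ι (cx (r i) * sh h (σ i).1 f * cx (r i)) := by
    intro i f
    have h1 : ∀ l, (C.ι (cx (r i)) * C.up (σ i).1 * C.ι (cx (g l))) * C.ι f *
      (C.ι (cx (g l)) * C.up (-(σ i).1) * C.ι (cx (r i))) =
      C.ι (cx (r i)) * C.up (σ i).1 * C.ι (cx (g l) * f * cx (g l)) * C.up (-(σ i).1) *
        C.ι (cx (r i)) := by
      intro l
      rw [map_mul, map_mul]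
      simp only [mul_assoc]
    rw [Finset.sum_congr rfl fun l _ => h1 l, ← Finset.sum_mul, ← Finset.sum_mul,
      ← Finset.mul_sum, ← map_sum]
    have h2 : ∑ l, cx (g l) * f * cx (g l) = f := by
      ext x
      rw [ContinuousMap.sum_apply]
      have : ∀ l, (cx (g l) * f * cx (g l)) x = ((g l x * g l x : ℝ) : ℂ) * f x := by
        intro l
        show ((g l x : ℝ) : ℂ) * f x * ((g l x : ℝ) : ℂ) = _
        push_cast
        ring
      rw [Finset.sum_congr rfl fun l _ => this l, ← Finset.sum_mul, ← Complex.ofReal_sum, hg1 x,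
        Complex.ofReal_one, one_mul]
    rw [h2, mul_assoc (C.ι (cx (r i))) (C.up _) (C.ι f), C.up_comm, ← mul_assoc, mul_assoc _ (C.up _)
      (C.up (-(σ i).1)), C.up_mul_neg, mul_one, map_mul, map_mul]
  -- values of `Ψ`
  have hΨφ : Ψ (C.ι (cx φ)) = 1 := by
    simp only [hΨ]
    rw [Finset.sum_congr rfl fun i _ => hinner i (cx φ), ← map_sum]
    have : ∑ i, cx (r i) * sh h (σ i).1 (cx φ) * cx (r i) = 1 := by
      ext x
      rw [ContinuousMap.sum_apply]
      have h1 : ∀ i, (cx (r i) * sh h (σ i).1 (cx φ) * cx (r i)) x = ((ρ i x : ℝ) : ℂ) := by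
        intro i
        rw [← hr1 i x]
        show ((r i x : ℝ) : ℂ) * ((φ ((h ^ (-(σ i).1)) x) : ℝ) : ℂ) * ((r i x : ℝ) : ℂ) = _
        push_cast
        ring
      rw [Finset.sum_congr rfl fun i _ => h1 i, ← Complex.ofReal_sum, hρ1 x, Complex.ofReal_one]
      rfl
    rw [this, map_one]
  have hΨ1 : Ψ 1 ≤ (2 / c) • (1 : B) := by
    have h0 : (1 : B) = C.ι 1 := (map_one C.ι).symm
    rw [h0]
    simp only [hΨ]
    rw [Finset.sum_congr rfl fun i _ => hinner i 1, ← map_sum, ← h0]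
    have e1 : ∑ i, cx (r i) * sh h (σ i).1 1 * cx (r i) = cx (∑ i, r i * r i) := by
      rw [cx_sum]
      refine Finset.sum_congr rfl fun i _ => ?_
      rw [cx_mul]
      ext x
      show ((r i x : ℝ) : ℂ) * 1 * ((r i x : ℝ) : ℂ) = ((r i x : ℝ) : ℂ) * ((r i x : ℝ) : ℂ)
      ring
    rw [e1]
    have h2 := kap_mono C.κ (f := ∑ i, r i * r i) (g := (2 / c) • (1 : C(X, ℝ))) (fun x => by
      rw [ContinuousMap.sum_apply]
      show ∑ i, r i x * r i x ≤ (2 / c) * 1
      rw [← hρ1 x, Finset.mul_sum]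
      exact Finset.sum_le_sum fun i _ => hr2 i x)
    refine h2.trans (le_of_eq ?_)
    rw [cx_smul, cx_one, C.κ_apply, ← Complex.coe_smul, map_smul, map_one, Complex.coe_smul]
  -- `Ψ b` is close to `Ψ (ι φ) = 1`
  have hΨfs : ∑ l, C.ι (cx (g l)) * C.fs F * C.ι (cx (g l)) = C.ι (F 0) := by
    rw [Finset.sum_congr rfl fun l _ => C.compress F (g l) fun k hk hk0 x =>
      hg2 l k (Finset.mem_erase.mpr ⟨hk0, hk⟩) x, ← map_sum]
    congr 1
    ext x
    rw [ContinuousMap.sum_apply]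
    have : ∀ l, (cx (g l) * cx (g l) * F 0) x = ((g l x * g l x : ℝ) : ℂ) * F 0 x := by
      intro l
      show ((g l x : ℝ) : ℂ) * ((g l x : ℝ) : ℂ) * F 0 x = _
      push_cast
      ring
    rw [Finset.sum_congr rfl fun l _ => this l, ← Finset.sum_mul, ← Complex.ofReal_sum, hg1 x,
      Complex.ofReal_one, one_mul]
  have hΨF : ∀ y, Ψ y = ∑ i : Fin t.card, C.ι (cx (r i)) * C.up (σ i).1 *
      (∑ l : Fin m, C.ι (cx (g l)) * y * C.ι (cx (g l))) * (C.up (-(σ i).1) * C.ι (cx (r i))) := by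
    intro y
    simp only [hΨ]
    refine Finset.sum_congr rfl fun i _ => ?_
    rw [Finset.mul_sum, Finset.sum_mul]
    refine Finset.sum_congr rfl fun l _ => ?_
    simp only [mul_assoc]
  have hstarfs : star (C.fs F) = star (C.fs F) := rfl
  set q : B := (1 / 2 : ℝ) • (C.fs F + star (C.fs F)) with hq
  have hqsa : IsSelfAdjoint q := IsSelfAdjoint.smul (by rfl) (IsSelfAdjoint.add_star_self _)
  have hinq : ∑ l, C.ι (cx (g l)) * q * C.ι (cx (g l)) = C.ι (cx φ) := by
    have h1 : ∑ l, C.ι (cx (g l)) * star (C.fs F) * C.ι (cx (g l)) = star (C.ι (F 0)) := by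
      rw [← hΨfs, star_sum]
      refine Finset.sum_congr rfl fun l _ => ?_
      rw [star_mul, star_mul, ← map_star, star_cx, mul_assoc]
    have h2 : ∀ l, C.ι (cx (g l)) * q * C.ι (cx (g l)) =
        (1 / 2 : ℝ) • (C.ι (cx (g l)) * C.fs F * C.ι (cx (g l)) +
          C.ι (cx (g l)) * star (C.fs F) * C.ι (cx (g l))) := by
      intro l
      rw [hq, mul_smul_comm, smul_mul_assoc, mul_add, add_mul]
    rw [Finset.sum_congr rfl fun l _ => h2 l, ← Finset.smul_sum, Finset.sum_add_distrib, hΨfs, h1,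
      ← map_star, ← map_add, ← Complex.coe_smul, ← map_smul]
    congr 1
    ext x
    show ((1 / 2 : ℝ) : ℂ) * (F 0 x + star (F 0 x)) = (((F 0 x).re : ℝ) : ℂ)
    have h8 : F 0 x + star (F 0 x) = ((2 * (F 0 x).re : ℝ) : ℂ) := by
      have := Complex.add_conj (F 0 x)
      simpa using this
    rw [h8]
    push_cast
    ring
  have hΨq : Ψ q = 1 := by
    rw [hΨF, hinq, ← hΨφ, hΨF]
    refine Finset.sum_congr rfl fun i _ => ?_
    congr 2
    have : ∀ l, C.ι (cx (g l)) * C.ι (cx φ) * C.ι (cx (g l)) =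
        C.ι (cx (g l) * cx (g l) * cx φ) := by
      intro l
      rw [← map_mul, ← map_mul]
      congr 1
      ring
    rw [Finset.sum_congr rfl fun l _ => this l, ← map_sum]
    congr 1
    ext x
    rw [ContinuousMap.sum_apply]
    have h3 : ∀ l, (cx (g l) * cx (g l) * cx φ) x = ((g l x * g l x : ℝ) : ℂ) * cx φ x := by
      intro l
      show ((g l x : ℝ) : ℂ) * ((g l x : ℝ) : ℂ) * cx φ x = _
      push_cast
      ring
    rw [Finset.sum_congr rfl fun l _ => h3 l, ← Finset.sum_mul, ← Complex.ofReal_sum, hg1 x,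
      Complex.ofReal_one, one_mul]
  have hbq : ‖q - b‖ ≤ c / 8 := by
    have h1 : q - b = (1 / 2 : ℝ) • (-(b - C.fs F) + -(star (b - C.fs F))) := by
      rw [hq, star_sub, (IsSelfAdjoint.of_nonneg hb0).star_eq]
      have : -(b - C.fs F) + -(b - star (C.fs F)) = (C.fs F + star (C.fs F)) - (2 : ℝ) • b := by
        rw [two_smul]
        abel
      rw [this, smul_sub, smul_smul]
      norm_num
    rw [h1, norm_smul]
    have h2 := norm_add_le (-(b - C.fs F)) (-(star (b - C.fs F)))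
    rw [norm_neg, norm_neg, norm_star] at h2
    have : ‖(1 / 2 : ℝ)‖ = 1 / 2 := by norm_num
    rw [this]
    linarith
  have hΨb : (3 / 4 : ℝ) • (1 : B) ≤ Ψ b := by
    have h1 := le_of_norm_sub_le (hqsa.sub (IsSelfAdjoint.of_nonneg hb0)) hbq
    have h2 := hΨmono _ _ h1
    have h3 : Ψ ((c / 8) • (1 : B)) = (c / 8) • Ψ 1 := by
      simp only [hΨ, mul_smul_comm, smul_mul_assoc, ← Finset.smul_sum]
    rw [h3, hΨsub, hΨq] at h2
    have h4 := smul_le_smul_of_nonneg_left hΨ1 (by positivity : 0 ≤ c / 8)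
    have h5 : (c / 8) • ((2 / c) • (1 : B)) = (1 / 4 : ℝ) • (1 : B) := by
      rw [smul_smul]
      congr 1
      field_simp
      norm_num
    rw [h5] at h4
    have h6 := h2.trans h4
    have h7 : (3 / 4 : ℝ) • (1 : B) = 1 - (1 / 4 : ℝ) • (1 : B) := by
      rw [eq_sub_iff_add_eq, ← add_smul]
      norm_num
    rw [h7, sub_le_comm]
    exact h6
  have hΨbI : Ψ b ∈ I := by
    simp only [hΨ]
    refine sum_mem fun i _ => sum_mem fun l _ => ?_
    exact I.mul_mem_right _ _ (I.mul_mem_left _ _ hbI)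
  have hu : IsUnit ((3 / 4 : ℝ) • (1 : B)) := by
    rw [← Algebra.algebraMap_eq_smul_one]
    exact (IsUnit.mk0 (3 / 4 : ℝ) (by norm_num)).map (algebraMap ℝ B)
  have hunit : IsUnit (Ψ b) := CStarAlgebra.isUnit_of_le ((3 / 4 : ℝ) • (1 : B)) hΨb
    ⟨smul_nonneg (by norm_num) zero_le_one, hu⟩
  obtain ⟨v, hv⟩ := hunit.exists_left_inv
  rw [eq_top_iff]
  intro y _
  have h1 : y * (v * Ψ b) ∈ I := I.mul_mem_left _ _ (I.mul_mem_left _ _ hΨbI)
  rwa [hv, mul_one] at h1

end

end Run7.h450.Dyn
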