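import Pool.Agent.Run7.h450.Z1

/-!
# The crossed product by a power of a homeomorphism inside the crossed product
-/

set_option autoImplicit false
set_option linter.unusedSectionVars false

namespace Run7.h450.Dyn

open Filter Topology
open Pool.Agent.H327R4.Pure

universe u v w

section

variable {X : Type u} [TopologicalSpace X] [CompactSpace X] {h : X ≃ₜ X} {B : Type v}
  [CStarAlgebra B]

theorem Crossed.hom_ext (C : Crossed h B) {D : Type w} [CStarAlgebra D] (φ ψ : B →⋆ₐ[ℂ] D)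
    (h1 : ∀ f, φ (C.ι f) = ψ (C.ι f)) (h2 : ∀ k, φ (C.up k) = ψ (C.up k)) (b : B) :
    φ b = ψ b := by
  have hfs : ∀ F, φ (C.fs F) = ψ (C.fs F) := by
    intro F
    unfold Crossed.fs Finsupp.sum
    rw [map_sum, map_sum]
    refine Finset.sum_congr rfl fun k _ => ?_
    rw [map_mul, map_mul, h1, h2]
  by_contra hne
  have hpos : 0 < ‖φ b - ψ b‖ := norm_pos_iff.mpr (sub_ne_zero.mpr hne)
  obtain ⟨F, hF⟩ := C.exists_fs b (‖φ b - ψ b‖ / 2) (by positivity)
  have e : φ b - ψ b = φ (b - C.fs F) - ψ (b - C.fs F) := by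
    rw [map_sub, map_sub, hfs]
    abel
  have h3 := norm_sub_le (φ (b - C.fs F)) (ψ (b - C.fs F))
  rw [← e] at h3
  have h4 := NonUnitalStarAlgHom.norm_apply_le φ (b - C.fs F)
  have h5 := NonUnitalStarAlgHom.norm_apply_le ψ (b - C.fs F)
  linarith

theorem Crossed.gauge_one (C : Crossed h B) (b : B) : C.gauge 1 b = b := by
  refine C.hom_ext (C.gauge 1) (StarAlgHom.id ℂ B) (fun f => C.gauge_ι 1 f) (fun k => ?_) b
  rw [C.gauge_up, one_zpow, Circle.coe_one, one_smul]
  rfl

theorem rou_zero (M : ℕ) : rou M 0 = 1 := by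
  unfold rou
  rw [Nat.cast_zero, mul_zero, Circle.exp_zero]

theorem rou_sum' (M : ℕ) (hM : M ≠ 0) (j : ℕ) (hj : j < M) :
    ∑ l ∈ Finset.range M, (((rou M j) ^ (-(l : ℤ)) : Circle) : ℂ) = if j = 0 then (M : ℂ) else 0 := by
  have h1 : ∀ l ∈ Finset.range M, (((rou M j) ^ (-(l : ℤ)) : Circle) : ℂ) =
      (((rou M l) ^ (-(j : ℤ)) : Circle) : ℂ) := by
    intro l _
    rw [rou_zpow, rou_zpow, ← zpow_natCast, ← zpow_natCast, ← zpow_mul, ← zpow_mul]
    congr 1
    ring
  rw [Finset.sum_congr rfl h1, rou_sum M hM]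
  by_cases h0 : j = 0
  · rw [if_pos h0, if_pos (by rw [h0]; simp)]
  · rw [if_neg h0, if_neg]
    intro hd
    rw [dvd_neg] at hd
    have := Nat.le_of_dvd (Nat.pos_of_ne_zero h0) (Int.natCast_dvd_natCast.mp hd)
    omega

/-- the decomposition of `b` into its components -/
theorem Crossed.decomp (C : Crossed h B) (n : ℕ) (hn : n ≠ 0) (b : B) :
    ∑ l ∈ Finset.range n, C.avg n (b * C.up (-(l : ℤ))) * C.up l = b := by
  have h1 : ∀ l ∈ Finset.range n, C.avg n (b * C.up (-(l : ℤ))) * C.up l =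
      (n : ℝ)⁻¹ • ∑ j ∈ Finset.range n,
        (((rou n j) ^ (-(l : ℤ)) : Circle) : ℂ) • C.gauge (rou n j) b := by
    intro l _
    unfold Crossed.avg
    rw [smul_mul_assoc, Finset.sum_mul]
    congr 1
    refine Finset.sum_congr rfl fun j _ => ?_
    rw [map_mul, C.gauge_up, mul_smul_comm, smul_mul_assoc, mul_assoc, C.up_neg_mul, mul_one]
  rw [Finset.sum_congr rfl h1, ← Finset.smul_sum, Finset.sum_comm]
  have h2 : ∀ j ∈ Finset.range n, ∑ l ∈ Finset.range n,
      (((rou n j) ^ (-(l : ℤ)) : Circle) : ℂ) • C.gauge (rou n j) b =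
      if j = 0 then (n : ℂ) • b else 0 := by
    intro j hj
    rw [← Finset.sum_smul, rou_sum' n hn j (Finset.mem_range.mp hj)]
    split_ifs with h0
    · rw [h0, rou_zero, C.gauge_one]
    · rw [zero_smul]
  rw [Finset.sum_congr rfl h2, Finset.sum_ite_eq' (Finset.range n) 0,
    if_pos (Finset.mem_range.mpr (Nat.pos_of_ne_zero hn))]
  have : ((n : ℂ)) • b = (n : ℝ) • b := by
    rw [← Complex.coe_smul, Complex.ofReal_natCast]
  rw [this, smul_smul, inv_mul_cancel₀ (by exact_mod_cast hn), one_smul]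

end

section

variable {X : Type u} [TopologicalSpace X] [CompactSpace X] [T2Space X] [Infinite X]
  {h : X ≃ₜ X} {n : ℕ} {A B : Type v} [CStarAlgebra A] [PartialOrder A] [StarOrderedRing A]
  [CStarAlgebra B] [PartialOrder B] [StarOrderedRing B]

theorem sh_pow (n : ℕ) (f : C(X, ℂ)) (k : ℤ) : sh (h ^ n) k f = sh h (n * k) f := by
  ext x
  rw [sh_apply, sh_apply, ← zpow_natCast h n, ← zpow_mul]
  congr 2
  ring_nf

theorem exists_incl (CA : Crossed (h ^ n) A) (CB : Crossed h B) :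
    ∃ Φ : A →⋆ₐ[ℂ] B, (∀ f, Φ (CA.ι f) = CB.ι f) ∧ ∀ k : ℤ, Φ (CA.up k) = CB.up (n * k) := by
  obtain ⟨Φ, h1, h2⟩ := CA.lift B CB.ι (CB.u ^ n) (fun f => by
    have h1 := CB.up_comm n f
    have h2 : ((CB.u ^ n : unitary B) : B) = CB.up n := by
      unfold Crossed.up
      rw [zpow_natCast]
    have h3 : star (CB.up (n : ℤ)) = CB.up (-n) := CB.star_up n
    rw [h2, h1, h3, mul_assoc, CB.up_mul_neg, mul_one]
    congr 1
    have h4 := sh_pow (h := h) n f 1
    rw [mul_one] at h4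
    rw [← h4, sh_one])
  refine ⟨Φ, h1, fun k => ?_⟩
  have hU : Φ (CA.up 1) = CB.up n := by
    rw [CA.up_one, h2]
    unfold Crossed.up
    rw [zpow_natCast]
  have hU' : Φ (CA.up (-1)) = CB.up (-n) := by
    rw [← CA.star_up, map_star, hU, CB.star_up]
  induction k using Int.induction_on with
  | zero => rw [CA.up_zero, map_one, mul_zero, CB.up_zero]
  | succ k ih => rw [CA.up_add, map_mul, ih, hU, ← CB.up_add, mul_add, mul_one]
  | pred k ih =>
    rw [sub_eq_add_neg, CA.up_add, map_mul, ih, hU', ← CB.up_add]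
    congr 1
    ring

/-- the crossed product by `h^n` inside the crossed product by `h` -/
structure Incl (CA : Crossed (h ^ n) A) (CB : Crossed h B) where
  /-- the inclusion -/
  Φ : A →⋆ₐ[ℂ] B
  ι : ∀ f, Φ (CA.ι f) = CB.ι f
  up : ∀ k : ℤ, Φ (CA.up k) = CB.up (n * k)
  inj : Function.Injective Φ
  /-- the conditional expectation -/
  E : B →L[ℂ] A
  avg : ∀ b, Φ (E b) = CB.avg n b

theorem Crossed.nontrivial {h : X ≃ₜ X} (C : Crossed h B) : Nontrivial B := by
  have hne : Nonempty X := inferInstance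
  refine ⟨⟨1, 0, fun h1 => ?_⟩⟩
  have h2 : C.ι 1 = C.ι 0 := by rw [map_one, map_zero, h1]
  have h3 := C.injective h2
  have h4 := congrArg (fun f : C(X, ℂ) => f hne.some) h3
  simp at h4

theorem inj_of_simple (hA : SimpleC A) [Nontrivial B] (Φ : A →⋆ₐ[ℂ] B) :
    Function.Injective Φ := by
  have hcont : Continuous Φ := AddMonoidHomClass.continuous_of_bound Φ 1 fun x => by
    rw [one_mul]
    exact NonUnitalStarAlgHom.norm_apply_le Φ x
  rcases hA.2 (TwoSidedIdeal.ker Φ) (by
    have : ((TwoSidedIdeal.ker Φ : TwoSidedIdeal A) : Set A) = Φ ⁻¹' {0} := by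
      ext x
      simp [TwoSidedIdeal.mem_ker]
    rw [this]
    exact isClosed_singleton.preimage hcont) with h1 | h1
  · intro x y hxy
    have h2 : x - y ∈ TwoSidedIdeal.ker Φ := by
      rw [TwoSidedIdeal.mem_ker, map_sub, hxy, sub_self]
    rw [h1] at h2
    exact sub_eq_zero.mp (by simpa using h2)
  · exfalso
    have h2 : (1 : A) ∈ TwoSidedIdeal.ker Φ := by
      rw [h1]
      trivial
    rw [TwoSidedIdeal.mem_ker, map_one] at h2
    exact one_ne_zero h2

theorem exists_Incl (hn : n ≠ 0) (CA : Crossed (h ^ n) A) (CB : Crossed h B) (hA : SimpleC A) :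
    Nonempty (Incl CA CB) := by
  obtain ⟨Φ, hι, hup⟩ := exists_incl CA CB
  have := CB.nontrivial
  have hinj := inj_of_simple hA Φ
  have hnorm : ∀ a, ‖Φ a‖ = ‖a‖ := NonUnitalStarAlgHom.norm_map Φ hinj
  have hiso : Isometry Φ := AddMonoidHomClass.isometry_of_norm Φ hnorm
  have hclosed : IsClosed (Set.range Φ) := hiso.isClosedEmbedding.isClosed_range
  have hfs : ∀ F, CB.avg n (CB.fs F) ∈ Set.range Φ := by
    intro F
    have hsum : CB.avg n (CB.fs F) = F.sum fun k f => CB.avg n (CB.ι f * CB.up k) := by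
      let L : B →+ B :=
        { toFun := CB.avg n, map_zero' := by simp [Crossed.avg], map_add' := CB.avg_add n }
      exact map_finsuppSum L F _
    rw [hsum]
    have hmem : ∀ k, CB.avg n (CB.ι (F k) * CB.up k) ∈ Φ.range := by
      intro k
      rw [CB.avg_term n hn]
      split_ifs with hd
      · obtain ⟨l, rfl⟩ := hd
        exact ⟨CA.ι (F _) * CA.up l, by
          show Φ _ = _
          rw [map_mul, hι, hup]⟩
      · exact zero_mem _
    exact sum_mem (S := Φ.range) fun k _ => hmem k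
  have hrange : ∀ b, CB.avg n b ∈ Set.range Φ := by
    intro b
    rw [← hclosed.closure_eq, Metric.mem_closure_iff]
    intro ε hε
    obtain ⟨F, hF⟩ := CB.exists_fs b ε hε
    refine ⟨_, hfs F, ?_⟩
    rw [dist_eq_norm, ← CB.avg_sub]
    exact (CB.norm_avg _ _).trans_lt hF
  choose e he using hrange
  let L : B →ₗ[ℂ] A :=
    { toFun := e
      map_add' := fun a b => hinj (by rw [map_add, he, he, he, CB.avg_add])
      map_smul' := fun c b => hinj (by
        rw [RingHom.id_apply, map_smul, he, he]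
        unfold Crossed.avg
        simp only [map_smul, ← Finset.smul_sum]
        rw [smul_comm]) }
  exact ⟨{ Φ := Φ
           ι := hι
           up := hup
           inj := hinj
           E := L.mkContinuous 1 (fun b => by
             show ‖e b‖ ≤ 1 * ‖b‖
             rw [← hnorm, he, one_mul]
             exact CB.norm_avg n b)
           avg := he }⟩

variable {CA : Crossed (h ^ n) A} {CB : Crossed h B} (I : Incl CA CB) (hn : n ≠ 0)

include hn in
theorem Incl.gauge_Φ (j : ℕ) (a : A) : CB.gauge (rou n j) (I.Φ a) = I.Φ a := by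
  refine CA.hom_ext ((CB.gauge (rou n j)).comp I.Φ) I.Φ (fun f => ?_) (fun k => ?_) a
  · show CB.gauge (rou n j) (I.Φ (CA.ι f)) = I.Φ (CA.ι f)
    rw [I.ι, CB.gauge_ι]
  · show CB.gauge (rou n j) (I.Φ (CA.up k)) = I.Φ (CA.up k)
    rw [I.up, CB.gauge_up, rou_zpow]
    have hζ := Complex.isPrimitiveRoot_exp n hn
    rw [(hζ.zpow_eq_one_iff_dvd _).mpr (dvd_mul_right _ _), one_pow, one_smul]

/-- elements fixed by the gauge automorphisms are in the image -/
theorem Incl.Φ_E_of (b : B) (hb : ∀ j ∈ Finset.range n, CB.gauge (rou n j) b = b) (hn : n ≠ 0) :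
    I.Φ (I.E b) = b := by
  rw [I.avg]
  unfold Crossed.avg
  rw [Finset.sum_congr rfl hb, Finset.sum_const, Finset.card_range, ← Nat.cast_smul_eq_nsmul ℝ,
    smul_smul, inv_mul_cancel₀ (by exact_mod_cast hn), one_smul]

include hn in
theorem Incl.E_Φ (a : A) : I.E (I.Φ a) = a :=
  I.inj (I.Φ_E_of _ (fun j _ => I.gauge_Φ hn j a) hn)

include hn in
theorem Incl.E_left (a : A) (b : B) : I.E (I.Φ a * b) = a * I.E b := by
  refine I.inj ?_
  rw [map_mul I.Φ, I.avg, I.avg]
  unfold Crossed.avg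
  rw [mul_smul_comm, Finset.mul_sum]
  congr 1
  exact Finset.sum_congr rfl fun j _ => by rw [map_mul, I.gauge_Φ hn]

include hn in
theorem Incl.E_right (a : A) (b : B) : I.E (b * I.Φ a) = I.E b * a := by
  refine I.inj ?_
  rw [map_mul I.Φ, I.avg, I.avg]
  unfold Crossed.avg
  rw [smul_mul_assoc, Finset.sum_mul]
  congr 1
  exact Finset.sum_congr rfl fun j _ => by rw [map_mul, I.gauge_Φ hn]

include hn in
theorem Incl.E_up (k : ℤ) : I.E (CB.up k) = if (n : ℤ) ∣ k then CA.up (k / n) else 0 := by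
  refine I.inj ?_
  have h1 := CB.avg_term n hn 1 k
  rw [map_one, one_mul] at h1
  rw [I.avg, h1]
  split_ifs with hd
  · rw [I.up, Int.mul_ediv_cancel' hd]
  · rw [map_zero]

theorem Incl.decomp (hn : n ≠ 0) (b : B) :
    ∑ l ∈ Finset.range n, I.Φ (I.E (b * CB.up (-(l : ℤ)))) * CB.up l = b := by
  conv_rhs => rw [← CB.decomp n hn b]
  exact Finset.sum_congr rfl fun l _ => by rw [I.avg]

theorem Incl.Φ_E_conj (hn : n ≠ 0) (k : ℤ) (a : A) :
    I.Φ (I.E (CB.up k * I.Φ a * CB.up (-k))) = CB.up k * I.Φ a * CB.up (-k) := by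
  refine I.Φ_E_of _ (fun j _ => ?_) hn
  rw [map_mul, map_mul, I.gauge_Φ hn, CB.gauge_up, CB.gauge_up, smul_mul_assoc, smul_mul_assoc,
    mul_smul_comm, smul_smul, ← Circle.coe_mul, ← zpow_add, add_neg_cancel, zpow_zero,
    Circle.coe_one, one_smul]

/-- the automorphism `Ad u^k` of `A` -/
noncomputable def Incl.act (I : Incl CA CB) (hn : n ≠ 0) (k : ℤ) : A →⋆ₙₐ[ℂ] A where
  toFun a := I.E (CB.up k * I.Φ a * CB.up (-k))
  map_smul' c a := by
    simp only [map_smul, mul_smul_comm, smul_mul_assoc]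
    rfl
  map_zero' := by simp
  map_add' a b := by
    simp only [map_add, mul_add, add_mul]
  map_mul' a b := I.inj (by
    rw [I.Φ_E_conj hn k (a * b), map_mul I.Φ (I.E _) (I.E _), I.Φ_E_conj hn, I.Φ_E_conj hn,
      map_mul I.Φ a b]
    have h1 := CB.up_neg_mul k
    calc CB.up k * (I.Φ a * I.Φ b) * CB.up (-k)
        = CB.up k * I.Φ a * (CB.up (-k) * CB.up k) * I.Φ b * CB.up (-k) := by
          rw [h1, mul_one]
          simp only [mul_assoc]
      _ = _ := by simp only [mul_assoc])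
  map_star' a := I.inj (by
    rw [map_star I.Φ (I.E _), I.Φ_E_conj hn, I.Φ_E_conj hn, map_star, star_mul, star_mul,
      CB.star_up, CB.star_up, neg_neg, mul_assoc])

theorem Incl.Φ_act (k : ℤ) (a : A) :
    I.Φ (I.act hn k a) = CB.up k * I.Φ a * CB.up (-k) := I.Φ_E_conj hn k a

theorem Incl.act_one (k : ℤ) : I.act hn k 1 = 1 := by
  refine I.inj ?_
  rw [I.Φ_act, map_one, mul_one, CB.up_mul_neg]

theorem Incl.act_act (k l : ℤ) (a : A) : I.act hn k (I.act hn l a) = I.act hn (k + l) a := by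
  refine I.inj ?_
  rw [I.Φ_act, I.Φ_act, I.Φ_act, CB.up_add, neg_add_rev, CB.up_add]
  simp only [mul_assoc]

theorem Incl.act_zero (a : A) : I.act hn 0 a = a := by
  refine I.inj ?_
  rw [I.Φ_act, neg_zero, CB.up_zero, one_mul, mul_one]

theorem Incl.up_Φ (k : ℤ) (a : A) : CB.up k * I.Φ a = I.Φ (I.act hn k a) * CB.up k := by
  rw [I.Φ_act, mul_assoc, CB.up_neg_mul, mul_one]

end

end Run7.h450.Dyn
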