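import Pool.Agent.Run7.h450.Q10

/-!
# Uniform comparison from tracial density of the invertible elements
-/

set_option autoImplicit false
set_option linter.unusedSectionVars false

namespace Run7.h450

open Filter Topology
open Pool.Agent.H327R4.Pure

universe u v w

section

variable {R : Type u} [CStarAlgebra R] [PartialOrder R] [StarOrderedRing R]

/-- the invertible elements are dense in the seminorms given by the traces in `S`, uniformly -/
def DUT (S : Set (Tr R)) : Prop :=
  ∀ (x : R) (ε : ℝ), 0 < ε → ∃ u : R, IsUnit u ∧ ∀ T ∈ S, N2 T (u - x) ≤ ε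

theorem norm_conj_rf_le {D : R} (hD : 0 ≤ D) (δ : ℝ) (hδ : 0 < δ) :
    ‖(1 - rf δ D) * D * (1 - rf δ D)‖ ≤ 2 * δ := by
  have hsa : IsSelfAdjoint D := IsSelfAdjoint.of_nonneg hD
  have h0 : 0 ≤ 1 - rf δ D := sub_nonneg.mpr (rf_le_one _ _)
  have h1 : 1 - rf δ D ≤ 1 := sub_le_self _ (rf_nonneg _ _)
  have h2 : ‖1 - rf δ D‖ ≤ 1 := (CStarAlgebra.norm_le_one_iff_of_nonneg _ h0).mpr h1
  set f : ℝ → ℝ := fun t => min 1 (max 0 ((t - δ) / δ)) with hf
  have hfc : Continuous f := rf_cont δ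
  have hf0 : f 0 = 0 := rf_zero hδ
  have hfn : ∀ t, 0 ≤ f t := fun t => le_min zero_le_one (le_max_left _ _)
  have hf1 : ∀ t, f t ≤ 1 := fun t => min_le_left _ _
  have e : (1 - rf δ D) * D = cfcₙ (fun t => t - f t * t) D := by
    rw [cfcₙ_sub (fun t : ℝ => t) (fun t => f t * t) D (by fun_prop) rfl (by fun_prop)
      (by simp), cfcₙ_mul f (fun t : ℝ => t) D hfc.continuousOn hf0 (by fun_prop) rfl,
      cfcₙ_id' ℝ D hsa, sub_mul, one_mul]
    rfl
  have h3 : ‖(1 - rf δ D) * D‖ ≤ 2 * δ := by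
    rw [e]
    refine norm_cfcₙ_le fun t ht => ?_
    have ht0 : 0 ≤ t := quasispectrum_nonneg_of_nonneg D hD t ht
    have h4 : t - f t * t = t * (1 - f t) := by ring
    rw [Real.norm_eq_abs, h4, abs_of_nonneg (mul_nonneg ht0 (by linarith [hf1 t]))]
    by_cases h5 : t ≤ 2 * δ
    · have := hfn t
      nlinarith
    · push Not at h5
      have h6 : 1 ≤ (t - δ) / δ := by
        rw [le_div_iff₀ hδ]
        linarith
      have h7 : f t = 1 := by
        simp only [hf]
        rw [max_eq_right (zero_le_one.trans h6), min_eq_left h6]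
      rw [h7, sub_self, mul_zero]
      positivity
  calc ‖(1 - rf δ D) * D * (1 - rf δ D)‖ ≤ ‖(1 - rf δ D) * D‖ * ‖1 - rf δ D‖ := norm_mul_le _ _
    _ ≤ 2 * δ * 1 := mul_le_mul h3 h2 (norm_nonneg _) (by positivity)
    _ = 2 * δ := mul_one _

/-- gluing two elements, using the density of the invertible elements -/
theorem glue_two_t {S : Set (Tr R)} (hR : DUT S) {b c : R} (hc : 0 ≤ c) (y₁ y₂ : R)
    (hb1 : InL b (star y₁)) (hb2 : InL b (star y₂)) (ε₁ ε₂ : ℝ) (hε₁ : 0 < ε₁) (hε₂ : 0 < ε₂)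
    (η : ℝ) (hη : 0 < η) :
    ∃ y : R, InL b (star y) ∧
      (∀ T ∈ S, rk T (cut ε₁ (star y₁ * y₁ + c)) ≤ rk T (star y * y + c) + η) ∧
      Cz (cut ε₂ (star y₂ * y₂ + c)) (star y * y + c) := by
  have hcs : star c = c := (IsSelfAdjoint.of_nonneg hc).star_eq
  set ε : ℝ := ε₁ / 2 with hε
  have hε0 : 0 < ε := by positivity
  have hε2 : 0 < ε / 2 := by positivity
  set h₁ : R := star y₁ * y₁ + c with hh₁
  have h₁0 : 0 ≤ h₁ := add_nonneg (star_mul_self_nonneg _) hc
  have h₁sa : IsSelfAdjoint h₁ := IsSelfAdjoint.of_nonneg h₁0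
  set h₂ : R := star y₂ * y₂ + c with hh₂
  have h₂0 : 0 ≤ h₂ := add_nonneg (star_mul_self_nonneg _) hc
  set g : R := star y₁ * y₂ + c with hg
  set f : ℝ → ℝ := fun t => min 1 (max 0 ((t - ε / 2) / (ε / 2))) with hf
  have hfc : Continuous f := rf_cont (ε / 2)
  have hfz : ∀ t, t ≤ ε / 2 → f t = 0 := fun t ht => by
    have h2 : (t - ε / 2) / (ε / 2) ≤ 0 := div_nonpos_of_nonpos_of_nonneg (by linarith) hε2.le
    simp only [hf]
    rw [max_eq_left h2, min_eq_right zero_le_one]
  set F : ℝ → ℝ := DDAx.kd (ε / 2) f with hF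
  have hFc : Continuous F := DDAx.kd_cont hε2 hfc
  have hF0 : F 0 = 0 := DDAx.kd_zero hε2 hfz
  set s : R := cfcₙ F h₁ * g with hs
  have hhs : h₁ * s = rf (ε / 2) h₁ * g := by
    rw [hs, ← mul_assoc]
    congr 1
    have e1 : h₁ * cfcₙ F h₁ = cfcₙ (fun t => t * F t) h₁ := by
      rw [cfcₙ_mul (fun t : ℝ => t) F h₁ (by fun_prop) rfl hFc.continuousOn hF0,
        cfcₙ_id' ℝ h₁ h₁sa]
    rw [e1]
    unfold rf
    congr 1
    funext t
    rw [mul_comm]
    exact DDAx.kd_mul hε2 hfz t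
  -- the invertible element
  set δ : ℝ := min (1 / 2) (ε₂ / (2 * ‖g‖ + ‖h₁‖ + 1)) with hδ
  have hδ0 : 0 < δ := lt_min (by norm_num) (by positivity)
  set δ₀ : ℝ := δ ^ 2 / 4 with hδ₀
  have hδ₀0 : 0 < δ₀ := by positivity
  have hδ₀2 : 0 < δ₀ / 2 := by positivity
  obtain ⟨k, ⟨K, rfl⟩, hKT⟩ := hR s (η * (δ₀ / 2)) (by positivity)
  set d₀ : R := (K : R) - s with hd₀
  set D : R := star d₀ * d₀ with hD
  have hD0 : 0 ≤ D := star_mul_self_nonneg _
  set p : R := rf δ₀ D with hp
  set p' : R := rf (δ₀ / 2) D with hp'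
  have hp0 : 0 ≤ p := rf_nonneg _ _
  have hp'0 : 0 ≤ p' := rf_nonneg _ _
  have hp'1 : p' ≤ 1 := rf_le_one _ _
  have hpp : p * p' = p := by
    rw [hp, hp']
    exact rf_mul' hδ₀2 D (fun t => min 1 (max 0 ((t - δ₀) / δ₀))) (rf_cont δ₀) (fun t ht => by
      have h2 : (t - δ₀) / δ₀ ≤ 0 := div_nonpos_of_nonpos_of_nonneg (by linarith) hδ₀0.le
      rw [max_eq_left h2, min_eq_right zero_le_one])
  set d : R := d₀ * (1 - p) with hd
  have hks : ‖d‖ < δ := by
    have h1 : ‖d‖ ^ 2 ≤ 2 * δ₀ := by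
      have h2 : ‖d‖ ^ 2 = ‖star d * d‖ := by rw [CStarRing.norm_star_mul_self, pow_two]
      have h3 : star d * d = (1 - p) * D * (1 - p) := by
        have hps : star (1 - p) = 1 - p := one_sub_star (rf_star _ _)
        rw [hd, star_mul, hps]
        simp only [hD, mul_assoc]
      rw [h2, h3]
      exact norm_conj_rf_le hD0 δ₀ hδ₀0
    have h2 : 2 * δ₀ < δ ^ 2 := by
      rw [hδ₀]
      nlinarith
    exact lt_of_pow_lt_pow_left₀ 2 hδ0.le (h1.trans_lt h2)
  have hd1 : ‖d‖ < 1 := hks.trans_le ((min_le_left _ _).trans (by norm_num))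
  obtain ⟨V, hV⟩ : ∃ V : Rˣ, (V : R) = 1 + d :=
    ⟨Units.oneSub (-d) (by rwa [norm_neg]), by simp⟩
  set z₁ : R := y₂ + y₁ * d with hz₁
  set Vi : R := ((V⁻¹ : Rˣ) : R) with hVi
  have hViV : Vi * (V : R) = 1 := Units.inv_mul V
  have hVVi : (V : R) * Vi = 1 := Units.mul_inv V
  set H : R := star z₁ * z₁ + star (V : R) * c * (V : R) with hH
  have hH0 : 0 ≤ H :=
    add_nonneg (star_mul_self_nonneg _) (star_left_conjugate_nonneg hc _)
  have hconj : star (V : R) * (star (z₁ * Vi) * (z₁ * Vi) + c) * (V : R) = H := by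
    have e1 : star (V : R) * (star (z₁ * Vi) * (z₁ * Vi) + c) * (V : R) =
        (star (V : R) * star Vi) * (star z₁ * z₁) * (Vi * (V : R)) +
          star (V : R) * c * (V : R) := by
      rw [star_mul]
      noncomm_ring
    have e2 : star (V : R) * star Vi = 1 := by rw [← star_mul, hViV, star_one]
    rw [e1, e2, hViV, one_mul, mul_one]
  have hczH : Cz H (star (z₁ * Vi) * (z₁ * Vi) + c) := by
    have := cz_conj (star (V : R)) (star (z₁ * Vi) * (z₁ * Vi) + c)
    rwa [star_star, hconj] at this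
  refine ⟨z₁ * Vi, ?_, ?_, ?_⟩
  · have e : star (z₁ * Vi) = star Vi * (star y₂ + star d * star y₁) := by
      rw [star_mul, hz₁, star_add, star_mul]
    rw [e]
    exact (hb2.add (hb1.mul_left _)).mul_left _
  · intro T hTS
    set e₁ : R := rf ε h₁ with he₁
    have he₁s : star e₁ = e₁ := rf_star _ _
    have hee : e₁ * rf (ε / 2) h₁ = e₁ := by
      rw [he₁]
      exact rf_mul' hε2 h₁ (fun t => min 1 (max 0 ((t - ε) / ε))) (rf_cont ε) (fun t ht => by
        have h2 : (t - ε) / ε ≤ 0 := div_nonpos_of_nonpos_of_nonneg (by linarith) hε0.le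
        rw [max_eq_left h2, min_eq_right zero_le_one])
    set m : R := g + h₁ * d with hm
    have hem : e₁ * m * (1 - p') = e₁ * h₁ * (K : R) * (1 - p') := by
      have e0 : h₁ * d = (h₁ * (K : R) - rf (ε / 2) h₁ * g) * (1 - p) := by
        rw [hd, hd₀, ← mul_assoc, mul_sub h₁, hhs]
      have e2 : (1 - p) * (1 - p') = 1 - p' := by
        have : (1 - p) * (1 - p') = 1 - p' - (p - p * p') := by noncomm_ring
        rw [this, hpp, sub_self, sub_zero]
      rw [hm, mul_add, e0]
      have e1 : (e₁ * g + e₁ * ((h₁ * (K : R) - rf (ε / 2) h₁ * g) * (1 - p))) * (1 - p') =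
          e₁ * g * (1 - p') + (e₁ * h₁ * (K : R) - (e₁ * rf (ε / 2) h₁) * g) *
            ((1 - p) * (1 - p')) := by noncomm_ring
      rw [e1, hee, e2]
      noncomm_ring
    have hmz : m = star y₁ * z₁ + c * (V : R) := by
      rw [hm, hg, hh₁, hz₁, hV]
      noncomm_ring
    obtain ⟨C, hC0, hC⟩ := unit_bdd_below K
    -- `cut ε₁ h₁ ≾ e₁ h₁ h₁ e₁`
    have hpos1 : 0 ≤ e₁ * h₁ * h₁ * e₁ := by
      have e1 : e₁ * h₁ * h₁ * e₁ = star (h₁ * e₁) * (h₁ * e₁) := by
        rw [star_mul, he₁s, h₁sa.star_eq]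
        simp only [mul_assoc]
      rw [e1]
      exact star_mul_self_nonneg _
    have s1 : Cz (cut ε₁ h₁) (e₁ * h₁ * h₁ * e₁) := by
      have h2 := cut_two_le h₁0 hε0
      have h3 : 2 * ε = ε₁ := by rw [hε]; ring
      rw [h3] at h2
      exact cz_of_le_smul (cut_nonneg h₁0 _) _ (by positivity) h2
    -- `e₁ h₁ h₁ e₁ ≾ w w^*`
    set w : R := e₁ * h₁ * (K : R) with hw
    have s2 : Cz (e₁ * h₁ * h₁ * e₁) (w * star w) := by
      refine cz_of_le_smul hpos1 C hC0 ?_
      have h2 := star_right_conjugate_le_conjugate hC (e₁ * h₁)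
      have h3 : star (e₁ * h₁) = h₁ * e₁ := by rw [star_mul, he₁s, h₁sa.star_eq]
      rw [h3, mul_one, mul_smul_comm, smul_mul_assoc] at h2
      have h4 : e₁ * h₁ * ((K : R) * star (K : R)) * (h₁ * e₁) = w * star w := by
        rw [hw, star_mul, h3]
        simp only [mul_assoc]
      rw [h4] at h2
      refine le_trans (le_of_eq ?_) h2
      simp only [mul_assoc]
    have hp's : star (1 - p') = 1 - p' := one_sub_star (rf_star _ _)
    have hq0 : 0 ≤ 1 - p' := sub_nonneg.mpr hp'1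
    have s3 : rk T (w * star w) ≤ rk T (m * star m) + rk T p' := by
      have h2 := two_pinch (star (w * (1 - p'))) (star (w * p'))
      have h3 : star (w * (1 - p')) + star (w * p') = star w := by
        rw [← star_add, ← mul_add, sub_add_cancel, mul_one]
      rw [h3] at h2
      simp only [star_star] at h2
      have h4 : 0 ≤ w * (1 - p') * star (w * (1 - p')) := mul_star_self_nonneg _
      have h5 : 0 ≤ w * p' * star (w * p') := mul_star_self_nonneg _
      have h6 : rk T (w * star w) ≤ rk T (w * (1 - p') * star (w * (1 - p')) +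
          w * p' * star (w * p')) :=
        rk_cz T (mul_star_self_nonneg _) (add_nonneg h4 h5)
          (cz_of_le_smul (mul_star_self_nonneg _) 2 (by norm_num) h2)
      refine h6.trans ((rk_add_le T h4 h5).trans (add_le_add ?_ ?_))
      · rw [hw, ← hem]
        have h7 : e₁ * m * (1 - p') * star (e₁ * m * (1 - p')) =
            e₁ * (m * ((1 - p') * (1 - p')) * star m) * star e₁ := by
          rw [star_mul, star_mul, hp's]
          simp only [mul_assoc]
        rw [h7]
        have h8 : 0 ≤ m * ((1 - p') * (1 - p')) * star m := by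
          have : m * ((1 - p') * (1 - p')) * star m = (m * (1 - p')) * star (m * (1 - p')) := by
            rw [star_mul, hp's]
            simp only [mul_assoc]
          rw [this]
          exact mul_star_self_nonneg _
        have h9 : m * ((1 - p') * (1 - p')) * star m ≤ m * star m := by
          have h10 : (1 - p') * (1 - p') ≤ 1 :=
            (mul_self_le hq0 (sub_le_self _ hp'0)).trans (sub_le_self _ hp'0)
          have := star_right_conjugate_le_conjugate h10 m
          rwa [mul_one] at this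
        refine (rk_cz T ?_ h8 (cz_conj _ _)).trans (rk_mono T h8 h9)
        have := star_right_conjugate_nonneg h8 e₁
        exact this
      · have h7 : w * p' * star (w * p') = w * (p' * p') * star w := by
          have h8 : star p' = p' := rf_star _ _
          rw [star_mul, h8]
          simp only [mul_assoc]
        rw [h7]
        have h8 : 0 ≤ p' * p' := (IsSelfAdjoint.of_nonneg hp'0).mul_self_nonneg
        refine (rk_cz T (star_right_conjugate_nonneg h8 w) h8 (cz_conj _ _)).trans ?_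
        exact rk_mono T h8 (mul_self_le hp'0 hp'1)
    have s5 : rk T p' ≤ η := by
      have h2 : Cz p' (cut (δ₀ / 2) D) :=
        cz_of_le_smul hp'0 _ (by positivity) (rf_le hδ₀2 D)
      have h3 := rk_cz T hp'0 (cut_nonneg hD0 _) h2
      have h4 := sand' R T D (δ₀ / 2) hD0 hδ₀2
      have h5 := (mt' R T).1 _ _ (phi_le_smul hD0 (δ₀ / 2) hδ₀2)
      rw [tr_rsmul] at h5
      have h6 : (T.f D).re ≤ η * (δ₀ / 2) := hKT T hTS
      have h7 : 1 / (δ₀ / 2) * (T.f D).re ≤ η := by
        calc 1 / (δ₀ / 2) * (T.f D).re ≤ 1 / (δ₀ / 2) * (η * (δ₀ / 2)) :=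
              mul_le_mul_of_nonneg_left h6 (by positivity)
          _ = η := by field_simp
      linarith
    -- `m^* m ≤ const H`
    have s4 : Cz (star m * m) H := by
      set C₁ : ℝ := ‖y₁ * star y₁‖ + ‖c‖ with hC₁
      have hC₁0 : 0 ≤ C₁ := by positivity
      refine cz_of_le_smul (star_mul_self_nonneg m) (2 * C₁) (by positivity) ?_
      rw [hmz]
      refine (two_pinch (star y₁ * z₁) (c * (V : R))).trans ?_
      rw [← smul_smul]
      refine rsmul_mono' 2 (by norm_num) ?_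
      rw [hH, smul_add]
      refine add_le_add ?_ ?_
      · have e1 : star (star y₁ * z₁) * (star y₁ * z₁) = star z₁ * (y₁ * star y₁) * z₁ := by
          rw [star_mul, star_star]
          simp only [mul_assoc]
        rw [e1]
        have h2 := CStarAlgebra.star_left_conjugate_le_norm_smul (a := z₁) (b := y₁ * star y₁)
          (IsSelfAdjoint.mul_star_self y₁)
        refine h2.trans (smul_le_smul_of_nonneg_right ?_ (star_mul_self_nonneg z₁))
        rw [hC₁]
        linarith [norm_nonneg c]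
      · have e1 : star (c * (V : R)) * (c * (V : R)) = star (V : R) * (c * c) * (V : R) := by
          rw [star_mul, hcs]
          simp only [mul_assoc]
        rw [e1]
        have h2 : c * c ≤ ‖c‖ • c := by
          have h3 := CStarAlgebra.star_left_conjugate_le_norm_smul (a := sq c) (b := c)
            (IsSelfAdjoint.of_nonneg hc)
          rw [sq_star, sq_mul_sq hc] at h3
          refine le_trans (le_of_eq ?_) h3
          calc c * c = (sq c * sq c) * (sq c * sq c) := by rw [sq_mul_sq hc]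
            _ = sq c * (sq c * sq c) * sq c := by simp only [mul_assoc]
            _ = sq c * c * sq c := by rw [sq_mul_sq hc]
        have h3 := star_left_conjugate_le_conjugate h2 (V : R)
        rw [mul_smul_comm, smul_mul_assoc] at h3
        refine h3.trans (smul_le_smul_of_nonneg_right ?_ (star_left_conjugate_nonneg hc _))
        rw [hC₁]
        linarith [norm_nonneg (y₁ * star y₁)]
    have hyy : 0 ≤ star (z₁ * Vi) * (z₁ * Vi) + c := add_nonneg (star_mul_self_nonneg _) hc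
    have t1 := rk_cz T (cut_nonneg h₁0 ε₁) (mul_star_self_nonneg w) (cz_trans s1 s2)
    have t2 := rk_cz T (mul_star_self_nonneg m) hyy
      (cz_trans (mul_star_self_cz m) (cz_trans s4 hczH))
    linarith
  · refine cz_trans ?_ hczH
    have hHh : H - h₂ = star d * g + star g * d + star d * h₁ * d := by
      rw [hH, hh₂, hz₁, hV, hg, hh₁]
      simp only [star_add, star_mul, star_star, star_one, hcs]
      noncomm_ring
    have hn : ‖h₂ - H‖ ≤ ε₂ := by
      rw [norm_sub_rev, hHh]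
      have n1 : ‖star d * g‖ ≤ δ * ‖g‖ := by
        refine (norm_mul_le _ _).trans ?_
        rw [norm_star]
        exact mul_le_mul_of_nonneg_right hks.le (norm_nonneg _)
      have n2 : ‖star g * d‖ ≤ δ * ‖g‖ := by
        refine (norm_mul_le _ _).trans ?_
        rw [norm_star, mul_comm]
        exact mul_le_mul_of_nonneg_right hks.le (norm_nonneg _)
      have n3 : ‖star d * h₁ * d‖ ≤ δ * ‖h₁‖ := by
        refine (norm_mul_le _ _).trans ?_
        have n4 : ‖star d * h₁‖ ≤ ‖d‖ * ‖h₁‖ := by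
          refine (norm_mul_le _ _).trans ?_
          rw [norm_star]
        calc ‖star d * h₁‖ * ‖d‖ ≤ (‖d‖ * ‖h₁‖) * 1 :=
              mul_le_mul n4 hd1.le (norm_nonneg _) (by positivity)
          _ ≤ δ * ‖h₁‖ := by
              rw [mul_one]
              exact mul_le_mul_of_nonneg_right hks.le (norm_nonneg _)
      have n5 : δ * (2 * ‖g‖ + ‖h₁‖) ≤ ε₂ := by
        have h2 : δ ≤ ε₂ / (2 * ‖g‖ + ‖h₁‖ + 1) := min_le_right _ _
        have h3 : 0 ≤ 2 * ‖g‖ + ‖h₁‖ := by positivity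
        calc δ * (2 * ‖g‖ + ‖h₁‖) ≤ ε₂ / (2 * ‖g‖ + ‖h₁‖ + 1) * (2 * ‖g‖ + ‖h₁‖) :=
              mul_le_mul_of_nonneg_right h2 h3
          _ = ε₂ * ((2 * ‖g‖ + ‖h₁‖) / (2 * ‖g‖ + ‖h₁‖ + 1)) := by ring
          _ ≤ ε₂ * 1 := by
              refine mul_le_mul_of_nonneg_left ?_ hε₂.le
              rw [div_le_one (by positivity)]
              linarith
          _ = ε₂ := mul_one _
      calc ‖star d * g + star g * d + star d * h₁ * d‖
          ≤ ‖star d * g‖ + ‖star g * d‖ + ‖star d * h₁ * d‖ := norm_add₃_le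
        _ ≤ ε₂ := by linarith
    have h4 := kr' R h₂ H ε₂ 0 h₂0 hH0 hn le_rfl
    rwa [add_zero, (ct' R H hH0).2.2.2.2.1] at h4

end

section

variable {A : Type u} [CStarAlgebra A] [PartialOrder A] [StarOrderedRing A]

theorem glue_fin_t (N : ℕ) (hR : DUT (SSt (D := A) N)) {b c : Mat N A} (hc : 0 ≤ c) (k : ℕ) :
    ∀ (y : Fin k → Mat N A), (∀ i, InL b (star (y i))) → ∀ ε : Fin k → ℝ, (∀ i, 0 < ε i) →
    ∀ η : ℝ, 0 < η → ∃ z : Mat N A, InL b (star z) ∧ ∀ i, ∀ T : TS A,
      ((trM T.1 (Fin N)).f (rf (ε i) (star (y i) * y i + c))).re <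
        rk (trM T.1 (Fin N)) (star z * z + c) + η := by
  induction k with
  | zero =>
    intro y _ ε _ η _
    exact ⟨0, by rw [star_zero]; exact InL.zero b, fun i => i.elim0⟩
  | succ k ih =>
    intro y hy ε hε η hη
    have hpos : ∀ x : Mat N A, 0 ≤ star x * x + c := fun x =>
      add_nonneg (star_mul_self_nonneg _) hc
    obtain ⟨z', hz', hcz⟩ := ih (fun i => y i.castSucc) (fun i => hy _)
      (fun i => ε i.castSucc) (fun i => hε _) (η / 3) (by positivity)
    have hN : ∀ T : TS A, (T.1.f 1) = 1 := fun T => T.2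
    have hr : ∀ i : Fin k, ∃ δ : ℝ, 0 < δ ∧ ∀ T : TS A,
        ((trM T.1 (Fin N)).f (rf (ε i.castSucc) (star (y i.castSucc) * y i.castSucc + c))).re <
          rk (trM T.1 (Fin N)) (cut δ (star z' * z' + c)) + η / 3 := by
      intro i
      set X : Mat N A := rf (ε i.castSucc) (star (y i.castSucc) * y i.castSucc + c) with hX
      have htr : ∀ T : TS A, T.1.f (∑ l, X l l - (((η / 3 : ℝ)) : ℂ) • (1 : A)) =
          (trM T.1 (Fin N)).f X - ((η / 3 : ℝ) : ℂ) := by
        intro T
        rw [map_sub, map_smul, T.2, trM_apply, map_sum, smul_eq_mul, mul_one]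
      obtain ⟨δ, hδ, hδT⟩ := dini' A N (star z' * z' + c)
        (∑ l, X l l - (((η / 3 : ℝ)) : ℂ) • (1 : A)) (hpos z') (fun T => by
        have h1 := hcz i T
        rw [htr, Complex.sub_re, Complex.ofReal_re]
        linarith)
      refine ⟨δ, hδ, fun T => ?_⟩
      have h1 := hδT T
      rw [htr, Complex.sub_re, Complex.ofReal_re] at h1
      linarith
    choose δ hδ0 hδ using hr
    obtain ⟨δ', hδ'0, hδ'⟩ := TDINI.exists_min Finset.univ δ hδ0
    obtain ⟨z, hz, h1, h2⟩ := glue_two_t hR hc z' (y (Fin.last k)) hz' (hy _) δ' (ε (Fin.last k))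
      hδ'0 (hε _) (η / 3) (by positivity)
    refine ⟨z, hz, fun i => ?_⟩
    refine Fin.lastCases (fun T => ?_) (fun i T => ?_) i
    · have h3 := rk_cz (trM T.1 (Fin N)) (cut_nonneg (hpos _) _) (hpos z) h2
      have h7 : ((trM T.1 (Fin N)).f (rf (ε (Fin.last k)) (star (y (Fin.last k)) *
          y (Fin.last k) + c))).re ≤ rk (trM T.1 (Fin N)) (cut (ε (Fin.last k))
            (star (y (Fin.last k)) * y (Fin.last k) + c)) := by
        refine (tr_le_rk _ (rf_nonneg _ _) (rf_le_one _ _)).trans ?_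
        refine rk_cz _ (rf_nonneg _ _) (cut_nonneg (hpos _) _) ?_
        exact cz_of_le_smul (rf_nonneg _ _) _ (by have := hε (Fin.last k); positivity)
          (rf_le (hε _) _)
      linarith
    · have h3 : rk (trM T.1 (Fin N)) (cut (δ i) (star z' * z' + c)) ≤
          rk (trM T.1 (Fin N)) (cut δ' (star z' * z' + c)) :=
        rk_mono _ (cut_nonneg (hpos _) _)
          ((ct' (Mat N A) _ (hpos z')).2.2.1 δ' (δ i) hδ'0.le (hδ' i (Finset.mem_univ i)))
      have h4 := h1 (trM T.1 (Fin N)) ⟨T.1, T.2, rfl⟩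
      have h5 := hδ i T
      linarith

theorem uc_tsr (N : ℕ) (hR : DUT (SSt (D := A) N)) : UC (SSt (D := A) N) := by
  classical
  intro a b ha hb m₀ hm₀ hab η hη
  set η₁ : ℝ := η / (8 * (‖a‖ + 1)) with hη₁
  have hη₁0 : 0 < η₁ := by positivity
  set ε₀ : ℝ := η / (8 * ((N : ℝ) + 1)) with hε₀
  have hε₀0 : 0 < ε₀ := by positivity
  set p : Mat N A := rf ε₀ a with hp
  have hp0 : 0 ≤ p := rf_nonneg _ _
  have hp1 : p ≤ 1 := rf_le_one _ _
  have habp : ∀ S ∈ SSt N, rk S p + m₀ ≤ rk S b := by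
    intro S hS
    have h1 := rk_cz S hp0 ha (InL.cz ha hp0 (inL_rf ε₀ ha))
    have h2 := hab S hS
    linarith
  have hN0 : (0 : ℝ) ≤ N := Nat.cast_nonneg N
  choose y ε hε hyb hy using fun T : TS A => local_h N hp0 hp1 hb m₀ hm₀ habp
    (trM T.1 (Fin N)) N hN0 (trM_one_re T.1 T.2 N).le η₁ hη₁0
  have hpos : ∀ x : Mat N A, 0 ≤ star x * x + (1 - p) := fun x =>
    add_nonneg (star_mul_self_nonneg _) (sub_nonneg.mpr hp1)
  set X : TS A → Mat N A := fun T => 1 - rf (ε T) (star (y T) * y T + (1 - p)) with hX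
  have htr : ∀ (T' : Tr A) (T : TS A), T'.f (∑ i, X T i i) = (trM T' (Fin N)).f (X T) := by
    intro T' T
    rw [trM_apply, map_sum]
  have := cpt' A
  obtain ⟨t, ht⟩ := isCompact_univ.elim_finite_subcover
    (fun T : TS A => {T' : TS A | (T'.1.f (∑ i, X T i i)).re < η₁})
    (fun T => isOpen_lt (ts_continuous _) continuous_const)
    (fun T _ => Set.mem_iUnion.mpr ⟨T, by
      show (T.1.f (∑ i, X T i i)).re < η₁
      rw [htr]
      exact hy T⟩)
  let σ : Fin t.card ≃ {T // T ∈ t} := t.equivFin.symm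
  obtain ⟨z, hzb, hz⟩ := glue_fin_t N hR (c := 1 - p) (sub_nonneg.mpr hp1) t.card
    (fun i => y (σ i).1) (fun i => hyb _) (fun i => ε (σ i).1) (fun i => hε _) η₁ hη₁0
  set h : Mat N A := star z * z + (1 - p) with hh
  have hrk : ∀ T : TS A, (N : ℝ) - 2 * η₁ < rk (trM T.1 (Fin N)) h := by
    intro T
    obtain ⟨T', hT'⟩ := Set.mem_iUnion.mp (ht (Set.mem_univ T))
    obtain ⟨hT't, h2⟩ := Set.mem_iUnion.mp hT'
    have h3 : ((trM T.1 (Fin N)).f (X T')).re < η₁ := by
      rw [← htr]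
      exact h2
    have h4 := hz (σ.symm ⟨T', hT't⟩) T
    rw [Equiv.apply_symm_apply] at h4
    have h8 : ((trM T.1 (Fin N)).f (X T')).re =
        N - ((trM T.1 (Fin N)).f (rf (ε T') (star (y T') * y T' + (1 - p)))).re := by
      show ((trM T.1 (Fin N)).f (1 - rf (ε T') (star (y T') * y T' + (1 - p)))).re = _
      rw [map_sub, Complex.sub_re, trM_one_re T.1 T.2 N]
    have h9 : ((trM T.1 (Fin N)).f (rf (ε T') (star (y T') * y T' + (1 - p)))).re <
        rk (trM T.1 (Fin N)) h + η₁ := h4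
    linarith
  obtain ⟨δ, hδ, hδT⟩ := dini' A N h ((((N : ℝ) - 2 * η₁ : ℝ) : ℂ) • (1 : A)) (hpos z) (fun T => by
    have h1 := hrk T
    rw [map_smul, T.2, smul_eq_mul, mul_one, Complex.ofReal_re]
    exact h1)
  obtain ⟨x, hx1, hx2, hx3, hx4⟩ := final_sr (S := SSt N) (N : ℝ) hN0 (by
      rintro _ ⟨T, hT, rfl⟩
      exact (trM_one_re T hT N).le) ha hzb ε₀ hε₀0 δ hδ (2 * η₁) (by positivity) (by
      rintro _ ⟨T, hT, rfl⟩
      have h1 := hδT ⟨T, hT⟩
      rw [map_smul, hT, smul_eq_mul, mul_one, Complex.ofReal_re] at h1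
      have h2 := sand' (Mat N A) (trM T (Fin N)) h δ (hpos z) hδ
      have h3 : ((trM T (Fin N)).f (1 - phi δ h)).re = N - ((trM T (Fin N)).f (phi δ h)).re := by
        rw [map_sub, Complex.sub_re, trM_one_re T hT N]
      have h4 : (N : ℝ) - 2 * η₁ < rk (trM T (Fin N)) (cut δ h) := h1
      rw [h3]
      linarith)
  refine ⟨x, hx1, hx2, hx3, fun T hT => (hx4 T hT).trans ?_⟩
  have h1 : 4 * ε₀ * N ≤ η / 2 := by
    have : 4 * ε₀ * N = η / 2 * (N / (N + 1)) := by
      rw [hε₀]
      field_simp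
      ring
    rw [this]
    have h6 : (N : ℝ) / (N + 1) ≤ 1 := by
      rw [div_le_one (by positivity)]
      linarith
    nlinarith
  have h2 : ‖a‖ * (2 * (2 * η₁)) ≤ η / 2 := by
    have : ‖a‖ * (2 * (2 * η₁)) = η / 2 * (‖a‖ / (‖a‖ + 1)) := by
      rw [hη₁]
      field_simp
      ring
    rw [this]
    have h6 : ‖a‖ / (‖a‖ + 1) ≤ 1 := by
      rw [div_le_one (by positivity)]
      linarith
    nlinarith
  linarith

end

end Run7.h450
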