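import Pool.Agent.Run7.h450.Z2
import Pool.Agent.Run7.h450.Z4

/-!
# Tracial density of the invertible elements in crossed products by minimal homeomorphisms
-/

set_option autoImplicit false
set_option linter.unusedSectionVars false

namespace Run7.h450.Dyn

open Filter Topology
open Pool.Agent.H327R4.Pure

universe u v w

section

variable {X : Type u} [TopologicalSpace X] [CompactSpace X] [T2Space X] {h : X ≃ₜ X}

theorem exists_bump (x : X) {V : Set X} (hV : IsOpen V) (hx : x ∈ V) :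
    ∃ φ : C(X, ℝ), (∀ y, 0 ≤ φ y) ∧ (∀ y, φ y ≤ 1) ∧ (∀ y, φ y ≠ 0 → y ∈ V) ∧
      ∃ U : Set X, IsOpen U ∧ x ∈ U ∧ ∀ y ∈ U, φ y = 1 := by
  obtain ⟨f, hf0, hf1, hf⟩ := exists_continuous_zero_one_of_isClosed (s := Vᶜ) (t := {x})
    hV.isClosed_compl isClosed_singleton (Set.disjoint_singleton_right.mpr (by simpa using hx))
  refine ⟨⟨fun y => min 1 (2 * f y), by fun_prop⟩, fun y => le_min zero_le_one
    (by have := (hf y).1; positivity), fun y => min_le_left _ _, fun y hy => ?_,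
    {y | 1 / 2 < f y}, isOpen_lt continuous_const f.continuous, ?_, fun y hy => ?_⟩
  · by_contra hyV
    refine hy ?_
    show min 1 (2 * f y) = 0
    rw [hf0 hyV, Pi.zero_apply, mul_zero, min_eq_right zero_le_one]
  · show 1 / 2 < f x
    rw [hf1 (Set.mem_singleton x), Pi.one_apply]
    norm_num
  · have hy' : 1 / 2 < f y := hy
    show min 1 (2 * f y) = 1
    exact min_eq_left (by linarith)

/-- at most one translate of a function with small support is nonzero -/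
theorem sum_translates_le {φ : C(X, ℝ)} (hφ1 : ∀ y, φ y ≤ 1) {V : Set X}
    (hφV : ∀ y, φ y ≠ 0 → y ∈ V) (R : ℕ)
    (hV : ∀ k : ℤ, 1 ≤ k → k < R → ∀ y ∈ V, (h ^ k) y ∉ V) (x : X) :
    ∑ j ∈ Finset.range R, φ ((h ^ (-(j : ℤ))) x) ≤ 1 := by
  by_cases hall : ∀ j ∈ Finset.range R, φ ((h ^ (-(j : ℤ))) x) = 0
  · rw [Finset.sum_eq_zero hall]
    exact zero_le_one
  · push Not at hall
    obtain ⟨j, hj, hjne⟩ := hall
    rw [Finset.sum_eq_single_of_mem j hj]
    · exact hφ1 _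
    · intro i hi hij
      by_contra hine
      have m1 := hφV _ hjne
      have m2 := hφV _ hine
      rcases lt_or_gt_of_ne hij with hlt | hlt
      · refine hV ((j : ℤ) - i) (by omega) (by
          have := Finset.mem_range.mp hj
          omega) _ m1 ?_
        rw [← zpow_add_apply]
        have : (j : ℤ) - i + -(j : ℤ) = -(i : ℤ) := by ring
        rw [this]
        exact m2
      · refine hV ((i : ℤ) - j) (by omega) (by
          have := Finset.mem_range.mp hi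
          omega) _ m2 ?_
        rw [← zpow_add_apply]
        have : (i : ℤ) - j + -(i : ℤ) = -(j : ℤ) := by ring
        rw [this]
        exact m1

end

section

variable {X : Type u} [TopologicalSpace X] [CompactSpace X] [T2Space X] {h : X ≃ₜ X}
  {R : Type v} [CStarAlgebra R]

/-- banded elements which vanish on long enough stretches are nilpotent after a shift -/
theorem nilp {κ : C(X, ℂ) →⋆ₙₐ[ℂ] R} (hκ1 : κ 1 = 1) {U : ℤ → R}
    (hU : ∀ k f, U k * κ f = κ (sh h k f) * U k) (k₀ : ℕ) (S : Finset ℤ)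
    (hS : ∀ k ∈ S, |k| ≤ k₀) (F : ℤ → R) (hF : ∀ k f, F k * κ f = κ f * F k) (g : C(X, ℂ))
    (U₀ : Set X) (hg : ∀ j : ℕ, j ≤ 2 * k₀ + 1 → ∀ x, (h ^ (-(j : ℤ))) x ∈ U₀ → g x = 0)
    (J : ℕ) (hJ : ∀ x : X, ∃ j : ℕ, j ≤ J ∧ (h ^ (j : ℤ)) x ∈ U₀) :
    (U (k₀ + 1) * κ g * (∑ k ∈ S, F k * U k) * κ g) ^ (J + 1) = 0 := by
  set y : R := U (k₀ + 1) * κ g * (∑ k ∈ S, F k * U k) * κ g with hy
  have hyf : ∀ f, y * κ f = ∑ k ∈ S, κ (sh h (k₀ + 1) (sh h k (g * f))) *
      (U (k₀ + 1) * κ g * (F k * U k)) := by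
    intro f
    have e1 : y * κ f = ∑ k ∈ S, U (k₀ + 1) * κ g * (F k * U k) * κ (g * f) := by
      rw [hy, mul_assoc _ (κ g) (κ f), ← map_mul, Finset.mul_sum, Finset.sum_mul]
    rw [e1]
    refine Finset.sum_congr rfl fun k _ => ?_
    calc U (k₀ + 1) * κ g * (F k * U k) * κ (g * f)
        = U (k₀ + 1) * κ g * (F k * (U k * κ (g * f))) := by simp only [mul_assoc]
      _ = U (k₀ + 1) * κ g * ((F k * κ (sh h k (g * f))) * U k) := by
          rw [hU k (g * f)]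
          simp only [mul_assoc]
      _ = U (k₀ + 1) * (κ g * κ (sh h k (g * f))) * (F k * U k) := by
          rw [hF]
          simp only [mul_assoc]
      _ = (U (k₀ + 1) * κ (sh h k (g * f))) * κ g * (F k * U k) := by
          rw [← map_mul, mul_comm g, map_mul]
          simp only [mul_assoc]
      _ = _ := by
          rw [hU]
          simp only [mul_assoc]
  have key : ∀ i : ℕ, ∀ f : C(X, ℂ), (∀ x, f x ≠ 0 →
      (∃ j : ℕ, j ≤ i ∧ (h ^ (j : ℤ)) x ∈ U₀) ∨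
      ∃ j : ℕ, j ≤ 2 * k₀ + 1 ∧ (h ^ (-(j : ℤ))) x ∈ U₀) → y ^ (i + 1) * κ f = 0 := by
    intro i
    induction i with
    | zero =>
      intro f hf
      have h0 : g * f = 0 := by
        ext x
        show g x * f x = 0
        by_cases hfx : f x = 0
        · rw [hfx, mul_zero]
        · rcases hf x hfx with ⟨j, hj, hjx⟩ | ⟨j, hj, hjx⟩
          · have hj0 : j = 0 := by omega
            subst hj0
            rw [hg 0 (by omega) x (by simpa using hjx), zero_mul]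
          · rw [hg j hj x hjx, zero_mul]
      rw [zero_add, pow_one, hyf, h0]
      refine Finset.sum_eq_zero fun k _ => ?_
      have : sh h (k₀ + 1) (sh h k (0 : C(X, ℂ))) = 0 := rfl
      rw [this, map_zero, zero_mul]
    | succ i ih =>
      intro f hf
      rw [pow_succ, mul_assoc, hyf, Finset.mul_sum]
      refine Finset.sum_eq_zero fun k hk => ?_
      rw [← mul_assoc]
      have hkb := abs_le.mp (hS k hk)
      rw [ih, zero_mul]
      intro x hx
      rw [sh_sh] at hx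
      obtain ⟨p, hp⟩ : ∃ p : ℕ, (p : ℤ) = k₀ + 1 + k :=
        ⟨(k₀ + 1 + k).toNat, Int.toNat_of_nonneg (by omega)⟩
      rw [← hp] at hx
      set z : X := (h ^ (-(p : ℤ))) x with hz
      have hgf : g z * f z ≠ 0 := hx
      have hgz : g z ≠ 0 := left_ne_zero_of_mul hgf
      have hfz : f z ≠ 0 := right_ne_zero_of_mul hgf
      rcases hf z hfz with ⟨j, hj, hjz⟩ | ⟨j, hj, hjz⟩
      · by_cases hjp : p ≤ j
        · left
          refine ⟨j - p, by omega, ?_⟩
          rw [hz, ← zpow_add_apply] at hjz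
          have : ((j - p : ℕ) : ℤ) = (j : ℤ) + -(p : ℤ) := by
            rw [Nat.cast_sub hjp]
            ring
          rw [this]
          exact hjz
        · right
          refine ⟨p - j, by omega, ?_⟩
          rw [hz, ← zpow_add_apply] at hjz
          have : -((p - j : ℕ) : ℤ) = (j : ℤ) + -(p : ℤ) := by
            rw [Nat.cast_sub (by omega)]
            ring
          rw [this]
          exact hjz
      · exact absurd (hg j hj z hjz) hgz
  have h1 := key J 1 (fun x _ => Or.inl (hJ x))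
  rwa [hκ1, mul_one] at h1

end

section

variable {X : Type u} [TopologicalSpace X] [CompactSpace X] [T2Space X] [Infinite X] {h : X ≃ₜ X}
  {A : Type v} [CStarAlgebra A] [PartialOrder A] [StarOrderedRing A]

/-- functions as scalar matrices -/
noncomputable def Crossed.kN (C : Crossed h A) (N : ℕ) : C(X, ℂ) →⋆ₙₐ[ℂ] Mat N A :=
  (scalHom N).comp C.κ

theorem Crossed.kN_apply (C : Crossed h A) (N : ℕ) (f : C(X, ℂ)) :
    C.kN N f = scalHom N (C.ι f) := rfl

theorem scalHom_one (N : ℕ) : scalHom (A := A) N 1 = 1 := by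
  ext p q
  show (if p = q then (1 : A) else 0) = _
  rw [CStarMatrix.one_apply]

/-- the powers of the unitary as scalar matrices -/
noncomputable def Crossed.uN (C : Crossed h A) (N : ℕ) (k : ℤ) : Mat N A := scalHom N (C.up k)

theorem Crossed.uN_add (C : Crossed h A) (N : ℕ) (k l : ℤ) :
    C.uN N (k + l) = C.uN N k * C.uN N l := by
  unfold Crossed.uN
  rw [C.up_add, map_mul]

theorem Crossed.uN_zero (C : Crossed h A) (N : ℕ) : C.uN N 0 = 1 := by
  unfold Crossed.uN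
  rw [C.up_zero, scalHom_one]

theorem Crossed.star_uN (C : Crossed h A) (N : ℕ) (k : ℤ) : star (C.uN N k) = C.uN N (-k) := by
  unfold Crossed.uN
  rw [← map_star, C.star_up]

theorem Crossed.uN_kN (C : Crossed h A) (N : ℕ) (k : ℤ) (f : C(X, ℂ)) :
    C.uN N k * C.kN N f = C.kN N (sh h k f) * C.uN N k := by
  rw [C.kN_apply, C.kN_apply]
  unfold Crossed.uN
  rw [← map_mul, ← map_mul, C.up_comm]

/-- matrices of functions -/
noncomputable def Crossed.mN (C : Crossed h A) {N : ℕ} (f : Fin N → Fin N → C(X, ℂ)) : Mat N A :=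
  CStarMatrix.ofMatrix fun p q => C.ι (f p q)

theorem Crossed.mN_kN (C : Crossed h A) {N : ℕ} (f : Fin N → Fin N → C(X, ℂ)) (φ : C(X, ℂ)) :
    C.mN f * C.kN N φ = C.kN N φ * C.mN f := by
  ext p q
  have h1 : (C.mN f * C.kN N φ) p q = C.ι (f p q) * C.ι φ := mul_scal _ _ _ _
  have h2 : (C.kN N φ * C.mN f) p q = C.ι φ * C.ι (f p q) := scal_mul _ _ _ _
  rw [h1, h2, ← map_mul, ← map_mul, mul_comm]

theorem Crossed.exists_sum (C : Crossed h A) {N : ℕ} (s : Mat N A) (ε : ℝ) (hε : 0 < ε) :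
    ∃ (S : Finset ℤ) (f : ℤ → Fin N → Fin N → C(X, ℂ)),
      ‖s - ∑ k ∈ S, C.mN (f k) * C.uN N k‖ < ε := by
  classical
  have hex : ∀ (n : ℕ) (p q : Fin N), ∃ F : ℤ →₀ C(X, ℂ), ‖s p q - C.fs F‖ < 1 / ((n : ℝ) + 1) :=
    fun n p q => C.exists_fs _ _ (by positivity)
  choose F hF using hex
  set S : ℕ → Finset ℤ := fun n => Finset.univ.biUnion fun z : Fin N × Fin N =>
    (F n z.1 z.2).support with hS
  set e : ℕ → Mat N A := fun n => ∑ k ∈ S n, C.mN (fun p q => F n p q k) * C.uN N k with he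
  have hentry : ∀ n p q, e n p q = C.fs (F n p q) := by
    intro n p q
    simp only [he]
    rw [cm_sum_apply]
    have h1 : ∀ k, (C.mN (fun p q => F n p q k) * C.uN N k) p q =
        C.ι (F n p q k) * C.up k := fun k => mul_scal _ _ _ _
    rw [Finset.sum_congr rfl fun k _ => h1 k]
    unfold Crossed.fs Finsupp.sum
    symm
    refine Finset.sum_subset (fun k hk => ?_) (fun k _ hk => ?_)
    · exact Finset.mem_biUnion.mpr ⟨(p, q), Finset.mem_univ _, hk⟩
    · show C.ι (F n p q k) * C.up k = 0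
      rw [Finsupp.notMem_support_iff.mp hk, map_zero, zero_mul]
  have hlim : Tendsto e atTop (𝓝 s) := by
    rw [tendsto_cm]
    intro p q
    rw [tendsto_iff_norm_sub_tendsto_zero]
    have h1 : Tendsto (fun n : ℕ => 1 / ((n : ℝ) + 1)) atTop (𝓝 0) :=
      tendsto_one_div_add_atTop_nhds_zero_nat
    refine squeeze_zero (fun n => norm_nonneg _) (fun n => ?_) h1
    rw [hentry, norm_sub_rev]
    exact (hF n p q).le
  obtain ⟨n, hn⟩ := (Metric.tendsto_atTop.mp hlim ε hε)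
  refine ⟨S n, fun k p q => F n p q k, ?_⟩
  have h1 := hn n le_rfl
  rw [dist_eq_norm, norm_sub_rev] at h1
  exact h1

theorem N2_le_norm {R : Type v} [CStarAlgebra R] [PartialOrder R] [StarOrderedRing R] (T : Tr R)
    (x : R) : N2 T x ≤ ‖x‖ ^ 2 * (T.f 1).re := by
  have h2 := N2_mul_left T x 1
  rw [mul_one] at h2
  have h3 : N2 T (1 : R) = (T.f 1).re := by
    unfold N2
    rw [star_one, mul_one]
  rwa [h3] at h2

theorem Crossed.tr_shift (C : Crossed h A) (T : Tr A) (k : ℤ) (f : C(X, ℂ)) :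
    T.f (C.ι (sh h k f)) = T.f (C.ι f) := by
  have h1 : C.ι (sh h k f) = C.up k * C.ι f * C.up (-k) := by
    rw [C.up_comm, mul_assoc, C.up_mul_neg, mul_one]
  rw [h1, T.tr, ← mul_assoc, C.up_neg_mul, one_mul]

/-- a function with small support has small trace -/
theorem Crossed.tr_small (C : Crossed h A) (T : Tr A) (hT : T.f 1 = 1) {φ : C(X, ℝ)}
    (hφ1 : ∀ y, φ y ≤ 1) {V : Set X} (hφV : ∀ y, φ y ≠ 0 → y ∈ V) (R : ℕ)
    (hV : ∀ k : ℤ, 1 ≤ k → k < R → ∀ y ∈ V, (h ^ k) y ∉ V) :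
    R * (T.f (C.ι (cx φ))).re ≤ 1 := by
  have h1 := kap_mono C.κ (f := ∑ j ∈ Finset.range R, shr h j φ) (g := 1) (fun x => by
    rw [ContinuousMap.sum_apply]
    exact sum_translates_le hφ1 hφV R hV x)
  have h2 := (mt' A T).1 _ _ h1
  rw [cx_sum, map_sum, map_sum, Complex.re_sum, cx_one] at h2
  have h3 : ∀ j ∈ Finset.range R, (T.f (C.κ (cx (shr h j φ)))).re = (T.f (C.ι (cx φ))).re := by
    intro j _
    rw [← sh_cx, C.κ_apply, C.tr_shift]
  rw [Finset.sum_congr rfl h3, Finset.sum_const, Finset.card_range, nsmul_eq_mul] at h2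
  have h4 : C.κ 1 = 1 := map_one C.ι
  rw [h4, hT, Complex.one_re] at h2
  exact h2

theorem Crossed.dut (C : Crossed h A) (hm : Minimal h) (N : ℕ) :
    DUT (SSt (D := A) N) := by
  classical
  intro s ε hε
  have hne : Nonempty X := inferInstance
  have hNn : (0 : ℝ) ≤ N := Nat.cast_nonneg N
  set η : ℝ := min 1 (ε / (16 * ((N : ℝ) + 1))) with hη
  have hη0 : 0 < η := lt_min one_pos (by positivity)
  have hη1 : η ≤ 1 := min_le_left _ _
  have hηε : η * N ≤ ε / 16 := by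
    have h1 : η ≤ ε / (16 * ((N : ℝ) + 1)) := min_le_right _ _
    rw [le_div_iff₀ (by positivity)] at h1
    nlinarith
  obtain ⟨S, f, hsf⟩ := C.exists_sum s η hη0
  set s₀ : Mat N A := ∑ k ∈ S, C.mN (f k) * C.uN N k with hs₀
  set k₀ : ℕ := ∑ k ∈ S, k.natAbs with hk₀
  have hS : ∀ k ∈ S, |k| ≤ k₀ := by
    intro k hk
    have h1 := Finset.single_le_sum (f := fun k : ℤ => k.natAbs) (fun _ _ => Nat.zero_le _) hk
    rw [Int.abs_eq_natAbs k]
    exact_mod_cast h1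
  -- the number `R` and the bump function
  obtain ⟨R, hR⟩ := exists_nat_gt (8 * 4 * ‖s₀‖ ^ 2 * N * (2 * k₀ + 2) / ε)
  have hR' : 8 * 4 * ‖s₀‖ ^ 2 * N * (2 * k₀ + 2) ≤ ε * R := by
    rw [div_lt_iff₀ hε] at hR
    linarith
  obtain ⟨V, hVo, hxV, hV⟩ := exists_nhd (h := h) (aper_of hm) (Finset.Ico 1 (R : ℤ))
    (by simp) hne.some
  have hV' : ∀ k : ℤ, 1 ≤ k → k < R → ∀ y ∈ V, (h ^ k) y ∉ V := fun k h1 h2 =>
    hV k (Finset.mem_Ico.mpr ⟨h1, h2⟩)
  obtain ⟨φ, hφ0, hφ1, hφV, U₀, hU₀, hxU₀, hφU⟩ := exists_bump hne.some hVo hxV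
  obtain ⟨J, hJ⟩ := exists_cover hm hU₀ ⟨_, hxU₀⟩
  set G : C(X, ℝ) := ∑ j ∈ Finset.range (2 * k₀ + 2), shr h j φ with hG
  have hG0 : ∀ x, 0 ≤ G x := fun x => by
    rw [hG, ContinuousMap.sum_apply]
    exact Finset.sum_nonneg fun j _ => hφ0 _
  set g : C(X, ℝ) := ⟨fun x => max 0 (1 - G x), by fun_prop⟩ with hg
  have hg0 : ∀ x, 0 ≤ g x := fun x => le_max_left _ _
  have hg1 : ∀ x, g x ≤ 1 := fun x => max_le zero_le_one (by linarith [hG0 x])
  have hgz : ∀ j : ℕ, j ≤ 2 * k₀ + 1 → ∀ x, (h ^ (-(j : ℤ))) x ∈ U₀ → cx g x = 0 := by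
    intro j hj x hx
    have h1 : 1 ≤ G x := by
      rw [hG, ContinuousMap.sum_apply]
      have h2 : φ ((h ^ (-(j : ℤ))) x) = 1 := hφU _ hx
      rw [← h2]
      exact Finset.single_le_sum (f := fun i : ℕ => (shr h i φ) x) (fun i _ => hφ0 _)
        (Finset.mem_range.mpr (by omega))
    show ((max 0 (1 - G x) : ℝ) : ℂ) = 0
    rw [max_eq_left (by linarith), Complex.ofReal_zero]
  have hJ' : ∀ x : X, ∃ j : ℕ, j ≤ 2 * J ∧ (h ^ (j : ℤ)) x ∈ U₀ := by
    intro x
    obtain ⟨k, hk, hkx⟩ := hJ ((h ^ (J : ℤ)) x)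
    rw [← zpow_add_apply] at hkx
    have hb := abs_le.mp hk
    refine ⟨(k + J).toNat, by omega, ?_⟩
    rw [Int.toNat_of_nonneg (by omega)]
    exact hkx
  have hnil := nilp (h := h) (κ := C.kN N) (by rw [C.kN_apply, map_one, scalHom_one])
    (U := C.uN N) (C.uN_kN N) k₀ S hS (fun k => C.mN (f k)) (fun k φ => C.mN_kN (f k) φ) (cx g)
    U₀ hgz (2 * J) hJ'
  set y : Mat N A := C.uN N (k₀ + 1) * C.kN N (cx g) * (∑ k ∈ S, C.mN (f k) * C.uN N k) *
    C.kN N (cx g) with hy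
  have hunit1 : IsUnit (((η : ℝ) : ℂ) • (1 : Mat N A) + y) := by
    have h1 : IsNilpotent y := ⟨_, hnil⟩
    have h2 : IsUnit (((η : ℝ) : ℂ) • (1 : Mat N A)) := by
      rw [← Algebra.algebraMap_eq_smul_one]
      exact (IsUnit.mk0 ((η : ℝ) : ℂ) (by exact_mod_cast hη0.ne')).map (algebraMap ℂ (Mat N A))
    have h3 : Commute y (((η : ℝ) : ℂ) • (1 : Mat N A)) := (Commute.one_right y).smul_right _
    exact h1.isUnit_add_left_of_commute h2 h3
  have hunit2 : IsUnit (C.uN N (-(k₀ + 1))) := by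
    refine ⟨⟨C.uN N (-(k₀ + 1)), C.uN N (k₀ + 1), ?_, ?_⟩, rfl⟩
    · rw [← C.uN_add, neg_add_cancel, C.uN_zero]
    · rw [← C.uN_add, add_neg_cancel, C.uN_zero]
  refine ⟨C.uN N (-(k₀ + 1)) * (((η : ℝ) : ℂ) • (1 : Mat N A) + y), hunit2.mul hunit1, ?_⟩
  rintro _ ⟨T, hT, rfl⟩
  set e : Mat N A := 1 - C.kN N (cx g) with he
  set κg : Mat N A := C.kN N (cx g) with hκg
  have hsplit : C.uN N (-(k₀ + 1)) * (((η : ℝ) : ℂ) • (1 : Mat N A) + y) - s =
      (((η : ℝ) : ℂ) • C.uN N (-(k₀ + 1)) - (s - s₀)) - (e * s₀ + κg * s₀ * e) := by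
    have h1 : C.uN N (-(k₀ + 1)) * y = κg * s₀ * κg := by
      rw [hy, ← hs₀]
      have : C.uN N (-(k₀ + 1)) * (C.uN N (k₀ + 1) * κg * s₀ * κg) =
          (C.uN N (-(k₀ + 1)) * C.uN N (k₀ + 1)) * (κg * s₀ * κg) := by
        simp only [mul_assoc]
      rw [this, ← C.uN_add, neg_add_cancel, C.uN_zero, one_mul]
    rw [mul_add, h1, mul_smul_comm, mul_one, he]
    noncomm_ring
  have hN1 : ((trM T (Fin N)).f 1).re = N := trM_one_re T hT N
  have hκ1 : C.kN N (cx (1 : C(X, ℝ))) = 1 := by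
    rw [cx_one, C.kN_apply, map_one, scalHom_one]
  have hκg1 : κg ≤ 1 := by
    rw [← hκ1]
    exact kap_mono (C.kN N) (fun x => by
      show g x ≤ 1
      exact hg1 x)
  have hκg0 : 0 ≤ κg := kap_nonneg (C.kN N) hg0
  have hκgn : ‖κg‖ ≤ 1 := (CStarAlgebra.norm_le_one_iff_of_nonneg _ hκg0).mpr hκg1
  have he0 : 0 ≤ e := sub_nonneg.mpr hκg1
  have he1 : e ≤ 1 := sub_le_self _ hκg0
  have hTe : ((trM T (Fin N)).f e).re ≤ N * ((2 * k₀ + 2) * (T.f (C.ι (cx φ))).re) := by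
    have h1 : e ≤ C.kN N (cx G) := by
      rw [he, hκg, ← hκ1, ← map_sub, ← cx_sub]
      refine kap_mono (C.kN N) (fun x => ?_)
      show 1 - max 0 (1 - G x) ≤ G x
      have := le_max_right 0 (1 - G x)
      linarith
    refine ((mt' (Mat N A) (trM T (Fin N))).1 _ _ h1).trans (le_of_eq ?_)
    have h2 : (trM T (Fin N)).f (C.kN N (cx G)) = N * T.f (C.ι (cx G)) := by
      rw [trM_apply]
      have : ∀ i : Fin N, (C.kN N (cx G)) i i = C.ι (cx G) := fun i => if_pos rfl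
      rw [Finset.sum_congr rfl fun i _ => by rw [this i], Finset.sum_const, Finset.card_univ,
        Fintype.card_fin, nsmul_eq_mul]
    have h3 : (T.f (C.ι (cx G))) = (2 * k₀ + 2 : ℕ) * (T.f (C.ι (cx φ))) := by
      rw [hG, cx_sum, map_sum, map_sum]
      have : ∀ j ∈ Finset.range (2 * k₀ + 2), T.f (C.ι (cx (shr h j φ))) = T.f (C.ι (cx φ)) := by
        intro j _
        rw [← sh_cx, C.tr_shift]
      rw [Finset.sum_congr rfl this, Finset.sum_const, Finset.card_range, nsmul_eq_mul]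
    have hre : ∀ (n : ℕ) (z : ℂ), ((n : ℂ) * z).re = n * z.re := fun n z => by simp
    rw [h2, h3, hre, hre]
    push_cast
    ring
  have hN2e : N2 (trM T (Fin N)) e ≤ N * ((2 * k₀ + 2) * (T.f (C.ι (cx φ))).re) := by
    refine le_trans ?_ hTe
    unfold N2
    rw [(IsSelfAdjoint.of_nonneg he0).star_eq]
    exact (mt' (Mat N A) (trM T (Fin N))).1 _ _ (mul_self_le he0 he1)
  have hRφ := C.tr_small T hT hφ1 hφV R hV'
  have hbound : 4 * (‖s₀‖ ^ 2 * N2 (trM T (Fin N)) e) ≤ ε / 8 := by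
    have hφT : 0 ≤ (T.f (C.ι (cx φ))).re := ((mt' A T).2.1 _ (kap_nonneg C.κ hφ0)).1
    have h1 : 4 * (‖s₀‖ ^ 2 * N2 (trM T (Fin N)) e) ≤
        4 * (‖s₀‖ ^ 2 * (N * ((2 * k₀ + 2) * (T.f (C.ι (cx φ))).re))) :=
      mul_le_mul_of_nonneg_left (mul_le_mul_of_nonneg_left hN2e (by positivity)) (by norm_num)
    refine h1.trans ?_
    have h2 := mul_le_mul_of_nonneg_right hR' hφT
    have h3 := mul_le_mul_of_nonneg_left hRφ hε.le
    nlinarith
  have hn1 : N2 (trM T (Fin N)) (((η : ℝ) : ℂ) • C.uN N (-(k₀ + 1))) ≤ η * N := by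
    refine (N2_le_norm _ _).trans ?_
    rw [hN1]
    refine mul_le_mul_of_nonneg_right ?_ hNn
    have h1 : ‖((η : ℝ) : ℂ) • C.uN N (-(k₀ + 1))‖ ≤ η := by
      rw [norm_smul, Complex.norm_real, Real.norm_of_nonneg hη0.le]
      refine mul_le_of_le_one_right hη0.le ?_
      have h2 : star (C.uN N (-(k₀ + 1))) * C.uN N (-(k₀ + 1)) = 1 := by
        rw [C.star_uN, ← C.uN_add, neg_add_cancel, C.uN_zero]
      have h3 : ‖C.uN N (-(k₀ + 1))‖ * ‖C.uN N (-(k₀ + 1))‖ ≤ 1 := by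
        rw [← CStarRing.norm_star_mul_self, h2]
        exact (CStarAlgebra.norm_le_one_iff_of_nonneg _ zero_le_one).mpr le_rfl
      nlinarith [norm_nonneg (C.uN N (-(k₀ + 1)))]
    have h0 := norm_nonneg (((η : ℝ) : ℂ) • C.uN N (-(k₀ + 1)))
    nlinarith
  have hn2 : N2 (trM T (Fin N)) (s - s₀) ≤ η * N := by
    refine (N2_le_norm _ _).trans ?_
    rw [hN1]
    refine mul_le_mul_of_nonneg_right ?_ hNn
    have h0 := norm_nonneg (s - s₀)
    have h1 := hsf.le
    nlinarith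
  have hn3 : N2 (trM T (Fin N)) (e * s₀) ≤ ‖s₀‖ ^ 2 * N2 (trM T (Fin N)) e := N2_mul_right _ _ _
  have hn4 : N2 (trM T (Fin N)) (κg * s₀ * e) ≤ ‖s₀‖ ^ 2 * N2 (trM T (Fin N)) e := by
    refine (N2_mul_left _ _ _).trans (mul_le_mul_of_nonneg_right ?_ (N2_nonneg _ _))
    have h1 : ‖κg * s₀‖ ≤ ‖s₀‖ := (norm_mul_le _ _).trans
      (mul_le_of_le_one_left (norm_nonneg _) hκgn)
    have h0 := norm_nonneg (κg * s₀)
    nlinarith
  rw [hsplit]
  have t1 := N2_add_le (trM T (Fin N)) (((η : ℝ) : ℂ) • C.uN N (-(k₀ + 1)) - (s - s₀))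
    (-(e * s₀ + κg * s₀ * e))
  have t2 := N2_add_le (trM T (Fin N)) (((η : ℝ) : ℂ) • C.uN N (-(k₀ + 1))) (-(s - s₀))
  have t3 := N2_add_le (trM T (Fin N)) (e * s₀) (κg * s₀ * e)
  rw [N2_neg, ← sub_eq_add_neg] at t1 t2
  nlinarith

end

end Run7.h450.Dyn
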