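import Pool.Agent.Run7.h450.Q9
import Pool.Agent.Run7.h450.Z3
import Pool.Agent.Run7.h450.Z5

/-!
# The inequality `rc(C*(Z, X, h^n)) ≤ n rc(C*(Z, X, h))`
-/

set_option autoImplicit false
set_option linter.unusedSectionVars false

namespace Run7.h450.Dyn

open Filter Topology
open Pool.Agent.H327R4.Pure
open scoped ENNReal NNReal

universe u v w

section

variable {A : Type v} [CStarAlgebra A] [PartialOrder A] [StarOrderedRing A]
variable {G : Type w} [Fintype G] (β β' : G → A →⋆ₙₐ[ℂ] A)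
variable {m N : ℕ} (E : G × Fin m → Fin N) (hE : Function.Injective E)

theorem eg_inj' (hE : Function.Injective E) (g : G) : Function.Injective fun i => E (g, i) :=
  fun i j h => by simpa using hE h

/-- the summands of `c ↦ ⊕ β_g(c)` -/
noncomputable def tpart (g : G) : Mat m A →⋆ₙₐ[ℂ] Mat N A :=
  NonUnitalStarAlgHom.comp (emb (fun i => E (g, i)) (eg_inj' E hE g)) (ent (β g) m)

theorem tpart_apply (g : G) (x : Mat m A) : tpart β E hE g x =
    emb (fun i => E (g, i)) (eg_inj' E hE g) (ent (β g) m x) := rfl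

theorem tpart_mul (g h : G) (hgh : g ≠ h) (x y : Mat m A) :
    tpart β E hE g x * tpart β E hE h y = 0 := by
  rw [tpart_apply, tpart_apply]
  refine emb_mul_emb _ _ _ _ (fun i j he => ?_) _ _
  have h1 := hE he
  exact hgh (congrArg Prod.fst h1)

/-- `c ↦ ⊕ β_g(c)` -/
noncomputable def tpsi : Mat m A →⋆ₙₐ[ℂ] Mat N A :=
  sumHom (tpart β E hE) (tpart_mul β E hE)

theorem tpsi_eq (c : Mat m A) : tpsi β E hE c =
    ∑ g, emb (fun i => E (g, i)) (eg_inj' E hE g) (ent (β g) m c) := rfl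

theorem tpsi_one (h1 : ∀ g, β g 1 = 1) :
    tpsi β E hE 1 = ∑ g, emb (fun i => E (g, i)) (eg_inj' E hE g) 1 := by
  rw [tpsi_eq]
  refine Finset.sum_congr rfl fun g _ => ?_
  congr 1
  ext i j
  rw [ent_apply, CStarMatrix.one_apply]
  split_ifs
  · exact h1 g
  · exact map_zero _

theorem tpsi_apply [DecidableEq G] (c : Mat m A) (g h : G) (i j : Fin m) :
    tpsi β E hE c (E (g, i)) (E (h, j)) = if g = h then β g (c i j) else 0 := by
  rw [tpsi_eq, cm_sum_apply, Finset.sum_eq_single g]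
  · rw [emb_apply]
    by_cases hgh : g = h
    · subst hgh
      rw [if_pos rfl, embf_apply (eg_inj' E hE g)]
      rfl
    · rw [if_neg hgh, embf_right]
      rintro ⟨i', hi'⟩
      exact hgh (congrArg Prod.fst (hE hi'))
  · intro k _ hk
    rw [emb_apply, embf_left]
    rintro ⟨i', hi'⟩
    exact hk (congrArg Prod.fst (hE hi'))
  · simp

/-- `v ↦ ∑ β_g^{-1}(v_{gg})` -/
noncomputable def tF (v : Mat N A) : Mat m A :=
  ∑ g, ent (β' g) m (cor (fun i => E (g, i)) v)

include hE in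
theorem tF_nonneg {v : Mat N A} (hv : 0 ≤ v) : 0 ≤ tF β' E v :=
  Finset.sum_nonneg fun g _ => ent_nonneg _ _ (cor_nonneg _ (eg_inj' E hE g) hv)

variable {β β'} in
theorem tF_le (h1 : ∀ g, β g 1 = 1) (hinv : ∀ g a, β g (β' g a) = a) {v : Mat N A} (hv : 0 ≤ v)
    (hL : InL (tpsi β E hE 1) v) :
    v ≤ (Fintype.card G : ℝ) • tpsi β E hE (tF β' E v) := by
  set P : G → Mat N A := fun g => emb (fun i => E (g, i)) (eg_inj' E hE g) 1 with hP
  have hPs : ∀ g, star (P g) = P g := fun g => emb_one_star _ _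
  have hψ1 : tpsi β E hE 1 = ∑ g, P g := tpsi_one β E hE h1
  have hψs : star (tpsi β E hE 1) = tpsi β E hE 1 := by rw [← map_star, star_one]
  have hψψ : tpsi β E hE 1 * tpsi β E hE 1 = tpsi β E hE 1 := by rw [← map_mul, one_mul]
  have h1 := inL_proj hψs hψψ (IsSelfAdjoint.of_nonneg hv).star_eq hL
  set s : Mat N A := sq v with hs
  have h2 : v = star (∑ g, s * P g) * ∑ g, s * P g := by
    rw [← Finset.mul_sum, ← hψ1, star_mul, hψs, hs, sq_star]
    conv_lhs => rw [← h1, ← sq_mul_sq hv]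
    simp only [mul_assoc]
  have h3 := pinch fun g => s * P g
  rw [← h2] at h3
  refine h3.trans (rsmul_mono _ (Nat.cast_nonneg _) ?_)
  rw [tpsi_eq]
  refine Finset.sum_le_sum fun g _ => ?_
  have h4 : star (s * P g) * (s * P g) = P g * v * P g := by
    rw [star_mul, hPs, hs, sq_star]
    conv_rhs => rw [← sq_mul_sq hv]
    simp only [mul_assoc]
  rw [h4, hP, ← emb_cor]
  refine hom_mono _ ?_
  have h5 : cor (fun i => E (g, i)) v = ent (β g) m (ent (β' g) m
      (cor (fun i => E (g, i)) v)) := by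
    ext i j
    rw [ent_apply, ent_apply, hinv]
  rw [h5]
  refine hom_mono _ ?_
  refine Finset.single_le_sum (f := fun g => ent (β' g) m (cor (fun i => E (g, i)) v))
    (fun k _ => ?_) (Finset.mem_univ g)
  exact ent_nonneg _ _ (cor_nonneg _ (eg_inj' E hE k) hv)

include hE in
theorem tF_rk (h1 : ∀ g, β' g 1 = 1) {v : Mat N A} (hv : 0 ≤ v) (η : ℝ)
    (h : ∀ T : Tr A, T.f 1 = 1 → rk (trM T (Fin N)) v ≤ η) (T : Tr A) (hT : T.f 1 = 1) :
    rk (trM T (Fin m)) (tF β' E v) ≤ Fintype.card G * η := by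
  refine (rk_sum_le Finset.univ _ _ fun g => ent_nonneg _ _
    (cor_nonneg _ (eg_inj' E hE g) hv)).trans ?_
  calc ∑ g, rk (trM T (Fin m)) (ent (β' g) m (cor (fun i => E (g, i)) v))
      ≤ ∑ _g : G, η := by
        refine Finset.sum_le_sum fun g _ => ?_
        rw [rk_ent _ _ _ (cor_nonneg _ (eg_inj' E hE g) hv)]
        exact (rk_cor_le _ _ (eg_inj' E hE g) hv).trans (h _ (by rw [Tr.pull_apply, h1, hT]))
    _ = Fintype.card G * η := by
        rw [Finset.sum_const, Finset.card_univ, nsmul_eq_mul]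

theorem tpsi_rk (h1 : ∀ g, β g 1 = 1) {t : Mat m A} (ht : 0 ≤ t) (l : ℝ)
    (h : ∀ T : Tr A, T.f 1 = 1 → rk (trM T (Fin m)) t ≤ l) (T : Tr A) (hT : T.f 1 = 1) :
    rk (trM T (Fin N)) (tpsi β E hE t) ≤ Fintype.card G * l := by
  rw [tpsi_eq]
  refine (rk_sum_le Finset.univ _ _ fun g => ?_).trans ?_
  · exact hom_nonneg (R := Mat m A) (R' := Mat N A) (emb (fun i => E (g, i)) (eg_inj' E hE g))
      (ent_nonneg (β g) m ht)
  · calc ∑ g, rk (trM T (Fin N)) (emb (fun i => E (g, i)) (eg_inj' E hE g)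
          (ent (β g) m t)) ≤ ∑ _g : G, l := by
          refine Finset.sum_le_sum fun g _ => ?_
          rw [rk_emb _ _ _ (ent_nonneg _ _ ht), rk_ent _ _ _ ht]
          exact h _ (by rw [Tr.pull_apply, h1, hT])
      _ = Fintype.card G * l := by
          rw [Finset.sum_const, Finset.card_univ, nsmul_eq_mul]

end

section

variable {X : Type u} [TopologicalSpace X] [CompactSpace X] [T2Space X] [Infinite X]
  {h : X ≃ₜ X} {n : ℕ} {A B : Type v} [CStarAlgebra A] [PartialOrder A] [StarOrderedRing A]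
  [CStarAlgebra B] [PartialOrder B] [StarOrderedRing B]
  {CA : Crossed (h ^ n) A} {CB : Crossed h B} (I : Incl CA CB) (hn : n ≠ 0)

/-- the automorphisms `Ad u^k`, `0 ≤ k < n` -/
noncomputable def Incl.bet (I : Incl CA CB) (hn : n ≠ 0) (k : Fin n) : A →⋆ₙₐ[ℂ] A :=
  I.act hn (k : ℕ)

/-- and their inverses -/
noncomputable def Incl.bet' (I : Incl CA CB) (hn : n ≠ 0) (k : Fin n) : A →⋆ₙₐ[ℂ] A :=
  I.act hn (-((k : ℕ) : ℤ))

theorem Incl.bet_one (k : Fin n) : I.bet hn k 1 = 1 := I.act_one hn _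

theorem Incl.bet'_one (k : Fin n) : I.bet' hn k 1 = 1 := I.act_one hn _

theorem Incl.bet_bet' (k : Fin n) (a : A) : I.bet hn k (I.bet' hn k a) = a := by
  unfold Incl.bet Incl.bet'
  rw [I.act_act, add_neg_cancel, I.act_zero]

/-- the inclusion as a non-unital homomorphism -/
noncomputable def Incl.inc (I : Incl CA CB) : A →⋆ₙₐ[ℂ] B := (I.Φ : A →⋆ₙₐ[ℂ] B)

/-- the expectation of a product -/
theorem Incl.E_mul (a b : Fin n → A) (c : A) :
    I.E ((∑ k, I.Φ (a k) * CB.up ((k : ℕ) : ℤ)) * I.Φ c *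
      star (∑ k, I.Φ (b k) * CB.up ((k : ℕ) : ℤ))) =
      ∑ k, a k * I.bet hn k c * star (b k) := by
  have hterm : ∀ k l : Fin n, I.E (I.Φ (a k) * CB.up ((k : ℕ) : ℤ) * I.Φ c *
      star (I.Φ (b l) * CB.up ((l : ℕ) : ℤ))) =
      if k = l then a k * I.bet hn k c * star (b k) else 0 := by
    intro k l
    have e1 : I.Φ (a k) * CB.up ((k : ℕ) : ℤ) * I.Φ c *
        star (I.Φ (b l) * CB.up ((l : ℕ) : ℤ)) =
        I.Φ (a k * I.bet hn k c) * CB.up (((k : ℕ) : ℤ) - ((l : ℕ) : ℤ)) * I.Φ (star (b l)) := by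
      rw [star_mul, CB.star_up, map_mul, map_star, sub_eq_add_neg, CB.up_add]
      have := I.up_Φ hn ((k : ℕ) : ℤ) c
      unfold Incl.bet
      calc I.Φ (a k) * CB.up ((k : ℕ) : ℤ) * I.Φ c * (CB.up (-((l : ℕ) : ℤ)) * star (I.Φ (b l)))
          = I.Φ (a k) * (CB.up ((k : ℕ) : ℤ) * I.Φ c) *
            (CB.up (-((l : ℕ) : ℤ)) * star (I.Φ (b l))) := by simp only [mul_assoc]
        _ = _ := by
            rw [this]
            simp only [mul_assoc]
    rw [e1, I.E_right hn, I.E_left hn, I.E_up hn]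
    by_cases hkl : k = l
    · subst hkl
      rw [if_pos rfl, sub_self, if_pos (dvd_zero _), Int.zero_ediv, CA.up_zero, mul_one]
    · rw [if_neg hkl, if_neg, mul_zero, zero_mul]
      intro hd
      have h1 : ((k : ℕ) : ℤ) - ((l : ℕ) : ℤ) ≠ 0 := fun h0 => hkl (Fin.ext (by omega))
      have h2 := Int.le_of_dvd (abs_pos.mpr h1) ((dvd_abs _ _).mpr hd)
      have h3 := k.2
      have h4 := l.2
      have h5 : |((k : ℕ) : ℤ) - ((l : ℕ) : ℤ)| < n := by
        rw [abs_lt]
        constructor <;> omega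
      omega
  rw [star_sum, Finset.sum_mul, Finset.sum_mul_sum, map_sum]
  refine Finset.sum_congr rfl fun k _ => ?_
  rw [map_sum, Finset.sum_congr rfl fun l _ => hterm k l, Finset.sum_ite_eq Finset.univ k,
    if_pos (Finset.mem_univ _)]

theorem Incl.exists_coef (hn : n ≠ 0) (b : B) :
    ∃ f : Fin n → A, ∑ k, I.Φ (f k) * CB.up ((k : ℕ) : ℤ) = b := by
  refine ⟨fun k => I.E (b * CB.up (-((k : ℕ) : ℤ))), ?_⟩
  rw [Fin.sum_univ_eq_sum_range (fun l => I.Φ (I.E (b * CB.up (-(l : ℤ)))) * CB.up l) n]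
  exact I.decomp hn b

variable {m N : ℕ} (E : Fin n × Fin m → Fin N) (hE : Function.Injective E)

theorem cz_of_cuntz_t {s : Mat N A} {t1 : Mat m A}
    (h : Run7.h450.Cuntz (ent I.inc N s) (ent I.inc m t1)) :
    Cz s (tpsi (I.bet hn) E hE t1) := by
  classical
  obtain ⟨x, hx⟩ := h
  have hsur : ∀ k p i, ∃ f : Fin n → A, ∑ g, I.Φ (f g) * CB.up ((g : ℕ) : ℤ) = x k p i :=
    fun k p i => I.exists_coef hn (x k p i)
  choose a ha using hsur
  rw [tendsto_cm] at hx
  set Y : ℕ → Mat N A := fun k => CStarMatrix.ofMatrix fun p r =>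
    ∑ z : Fin n × Fin m, if E z = r then a k p z.2 z.1 else 0 with hY
  have hYE : ∀ k p z, Y k p (E z) = a k p z.2 z.1 := by
    intro k p z
    simp only [hY, CStarMatrix.ofMatrix_apply]
    rw [Finset.sum_eq_single z]
    · simp
    · intro b _ hb
      rw [if_neg (fun h => hb (hE h))]
    · simp
  have hY0 : ∀ k p r, r ∉ Set.range E → Y k p r = 0 := by
    intro k p r hr
    simp only [hY, CStarMatrix.ofMatrix_apply]
    exact Finset.sum_eq_zero fun z _ => if_neg (fun h => hr ⟨z, h⟩)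
  refine ⟨Y, ?_⟩
  rw [tendsto_cm]
  intro p q
  have h1 : Tendsto (fun k => I.E ((x k * ent I.inc m t1 * (x k).conjTranspose) p q)) atTop
      (𝓝 (I.E (I.Φ (s p q)))) := (I.E.continuous.tendsto _).comp (hx p q)
  have h2 : I.E (I.Φ (s p q)) = s p q := I.E_Φ hn _
  rw [h2] at h1
  refine h1.congr fun k => ?_
  have hL : (Y k * tpsi (I.bet hn) E hE t1 * star (Y k)) p q =
      ∑ z' : Fin n × Fin m, ∑ z : Fin n × Fin m,
        a k p z.2 z.1 * (if z.1 = z'.1 then I.bet hn z.1 (t1 z.2 z'.2) else 0) *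
          star (a k q z'.2 z'.1) := by
    have hin : ∀ z' : Fin n × Fin m, (Y k * tpsi (I.bet hn) E hE t1) p (E z') =
        ∑ z : Fin n × Fin m, a k p z.2 z.1 * (if z.1 = z'.1 then I.bet hn z.1 (t1 z.2 z'.2) else 0) := by
      intro z'
      rw [CStarMatrix.mul_apply]
      symm
      refine Fintype.sum_of_injective E hE _ _ ?_ ?_
      · intro r hr
        rw [hY0 k p r hr, zero_mul]
      · intro z
        rw [hYE]
        congr 1
        exact (tpsi_apply (I.bet hn) E hE t1 z.1 z'.1 z.2 z'.2).symm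
    rw [CStarMatrix.mul_apply]
    symm
    refine Fintype.sum_of_injective E hE _ _ ?_ ?_
    · intro r hr
      rw [CStarMatrix.star_apply, hY0 k q r hr, star_zero, mul_zero]
    · intro z'
      rw [CStarMatrix.star_apply, hYE, hin, Finset.sum_mul]
  have hR : I.E ((x k * ent I.inc m t1 * (x k).conjTranspose) p q) =
      ∑ j, ∑ i, ∑ g, a k p i g * I.bet hn g (t1 i j) * star (a k q j g) := by
    rw [CStarMatrix.mul_apply, map_sum]
    refine Finset.sum_congr rfl fun j _ => ?_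
    rw [CStarMatrix.mul_apply, Finset.sum_mul, map_sum]
    refine Finset.sum_congr rfl fun i _ => ?_
    rw [CStarMatrix.conjTranspose_apply, ← ha k p i, ← ha k q j]
    exact I.E_mul hn (a k p i) (a k q j) (t1 i j)
  have hK : ∑ z' : Fin n × Fin m, ∑ z : Fin n × Fin m,
        a k p z.2 z.1 * (if z.1 = z'.1 then I.bet hn z.1 (t1 z.2 z'.2) else 0) *
          star (a k q z'.2 z'.1) =
      ∑ j, ∑ i, ∑ g, a k p i g * I.bet hn g (t1 i j) * star (a k q j g) := by
    rw [Fintype.sum_prod_type, Finset.sum_comm]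
    refine Finset.sum_congr rfl fun j _ => ?_
    have h3 : ∀ g : Fin n, ∑ z : Fin n × Fin m,
        a k p z.2 z.1 * (if z.1 = g then I.bet hn z.1 (t1 z.2 j) else 0) * star (a k q j g) =
        ∑ i : Fin m, a k p i g * I.bet hn g (t1 i j) * star (a k q j g) := by
      intro g
      rw [Fintype.sum_prod_type, Finset.sum_eq_single g]
      · simp
      · intro b _ hb
        exact Finset.sum_eq_zero fun i _ => by
          show a k p i b * (if b = g then I.bet hn b (t1 i j) else 0) * star (a k q j g) = 0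
          rw [if_neg hb, mul_zero, zero_mul]
      · simp
    exact (Finset.sum_congr rfl fun g _ => h3 g).trans Finset.sum_comm
  exact hR.trans (hK.symm.trans hL.symm)


end

end Run7.h450.Dyn
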