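import Pool.Agent.Run7.h450.Z6

/-!
# The inequality `rc(C*(Z, X, h^n)) ≤ n rc(C*(Z, X, h))`: final theorem
-/

set_option autoImplicit false
set_option linter.unusedSectionVars false

namespace Run7.h450.Dyn

open Filter Topology
open Pool.Agent.H327R4.Pure
open scoped ENNReal NNReal

universe u v w

section

variable {A : Type v} [CStarAlgebra A]

/-- tracial states as traces -/
def TState.toTr (τ : TState A) : Tr A := { f := τ.f, pos := τ.pos, tr := τ.tr }

theorem TState.toTr_one (τ : TState A) : τ.toTr.f 1 = 1 := τ.map_one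

/-- traces as tracial states -/
def TState.ofTr (T : Tr A) (h : T.f 1 = 1) : TState A :=
  { f := T.f, pos := T.pos, tr := T.tr, map_one := h }

variable [PartialOrder A] [StarOrderedRing A]

theorem TState.d_eq (τ : TState A) {n : ℕ} {a : Mat n A} (ha : 0 ≤ a) :
    τ.d a = rk (trM τ.toTr (Fin n)) a := by
  rw [← Run7.h450.d_ofTr τ.toTr τ.toTr_one ha]
  rfl

theorem TState.d_ofTr (T : Tr A) (h : T.f 1 = 1) {n : ℕ} {a : Mat n A} (ha : 0 ≤ a) :
    (TState.ofTr T h).d a = rk (trM T (Fin n)) a := (TState.ofTr T h).d_eq ha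

end

section

variable {X : Type u} [TopologicalSpace X] [CompactSpace X] [T2Space X] [Infinite X]

theorem Crossed.infdim {h : X ≃ₜ X} {A : Type v} [CStarAlgebra A] (C : Crossed h A) :
    ¬ FiniteDimensional ℂ A := by
  classical
  intro hfd
  obtain ⟨s, hs⟩ := Infinite.exists_subset_card_eq X (Module.finrank ℂ A + 1)
  -- functions separating the points of `s`
  have hex : ∀ x : {x // x ∈ s}, ∃ f : C(X, ℝ), ∀ y : {x // x ∈ s}, f y.1 = if x = y then 1 else 0 := by
    intro x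
    obtain ⟨f, hf0, hf1, -⟩ := exists_continuous_zero_one_of_isClosed
      (s := ((s.erase x.1 : Finset X) : Set X)) (t := {x.1})
      (s.erase x.1).finite_toSet.isClosed isClosed_singleton
      (Set.disjoint_singleton_right.mpr (by simp))
    refine ⟨f, fun y => ?_⟩
    by_cases hxy : x = y
    · rw [if_pos hxy, ← hxy]
      exact hf1 (Set.mem_singleton x.1)
    · rw [if_neg hxy]
      exact hf0 (by
        rw [Finset.mem_coe, Finset.mem_erase]
        exact ⟨fun h => hxy (Subtype.ext h.symm), y.2⟩)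
  choose f hf using hex
  have hli : LinearIndependent ℂ fun x : {x // x ∈ s} => C.ι (cx (f x)) := by
    rw [Fintype.linearIndependent_iff]
    intro c hc y
    have h1 : C.ι (∑ x, c x • cx (f x)) = C.ι 0 := by
      rw [map_sum, map_zero, ← hc]
      exact Finset.sum_congr rfl fun x _ => map_smul _ _ _
    have h2 := congrArg (fun g : C(X, ℂ) => g y.1) (C.injective h1)
    simp only [ContinuousMap.sum_apply, ContinuousMap.zero_apply] at h2
    rw [Finset.sum_eq_single y] at h2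
    · have h3 : (c y • cx (f y)) y.1 = c y := by
        show c y * ((f y y.1 : ℝ) : ℂ) = c y
        rw [hf, if_pos rfl, Complex.ofReal_one, mul_one]
      rwa [h3] at h2
    · intro x _ hxy
      show c x * ((f x y.1 : ℝ) : ℂ) = 0
      rw [hf, if_neg hxy, Complex.ofReal_zero, mul_zero]
    · simp
  have h1 := hli.fintype_card_le_finrank
  rw [Fintype.card_coe, hs] at h1
  omega

end

section

variable {X : Type u} [TopologicalSpace X] [CompactSpace X] [T2Space X] [Infinite X]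
  {h : X ≃ₜ X} {n : ℕ} {A B : Type v} [CStarAlgebra A] [PartialOrder A] [StarOrderedRing A]
  [CStarAlgebra B] [PartialOrder B] [StarOrderedRing B]
  {CA : Crossed (h ^ n) A} {CB : Crossed h B}

theorem le_comparison (hn : n ≠ 0) (hm : Minimal (h ^ n)) (I : Incl CA CB) (r : ℝ) (hr : 0 ≤ r)
    (hB : Comparison B r) (r' : ℝ) (hr' : n * r < r') : Comparison A r' := by
  have hA : SimpleC A := CA.simple hm
  have hinf : ¬ FiniteDimensional ℂ A := CA.infdim
  have hUC : ∀ N : ℕ, UC (SSt (D := A) N) := fun N => uc_tsr N (CA.dut hm N)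
  intro n₁ n' a b ha hb hab
  set q : ℝ := (Fintype.card (Fin n) : ℝ) with hq
  have hqn : q = n := by rw [hq, Fintype.card_fin]
  have hq0 : 0 < q := by
    rw [hqn]
    exact_mod_cast Nat.pos_of_ne_zero hn
  have hrq : r < r' / q := by
    rw [lt_div_iff₀ hq0, mul_comm, hqn]
    exact hr'
  set l : ℝ := (r + r' / q) / 2 with hl
  set ε : ℝ := (l - r) / 4 with hε
  have hlr : r < l := by rw [hl]; linarith
  have hlr' : l < r' / q := by rw [hl]; linarith
  have hε0 : 0 < ε := by rw [hε]; linarith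
  have hm₀ : 0 < r' - q * l := by
    rw [lt_div_iff₀ hq0] at hlr'
    linarith
  obtain ⟨K, t, ht, htl⟩ := exists_uniform hA hinf l ε (by linarith) hε0
  obtain ⟨δ, hδ0, hδ⟩ := dini' A K t ((((l - 2 * ε : ℝ)) : ℂ) • (1 : A)) ht (fun S => by
    have h1 := (htl S.1 S.2).1
    rw [map_smul, S.2, smul_eq_mul, mul_one, Complex.ofReal_re]
    linarith)
  set N : ℕ := n₁ + n' + Fintype.card (Fin n × Fin K) with hN
  let E : Fin n × Fin K → Fin N := fun z =>
    Fin.castLE (by omega) (Fintype.equivFin (Fin n × Fin K) z)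
  have hE : Function.Injective E :=
    (Fin.castLE_injective _).comp (Fintype.equivFin (Fin n × Fin K)).injective
  have hn₁ : n₁ ≤ N := by omega
  have hn' : n' ≤ N := by omega
  refine cuntz_of_cz (Fin.castLE hn₁) (Fin.castLE_injective hn₁) (Fin.castLE hn')
    (Fin.castLE_injective hn') ?_
  have ha' : 0 ≤ emb (Fin.castLE hn₁) (Fin.castLE_injective hn₁) a :=
    hom_nonneg (R := Mat n₁ A) (R' := Mat N A) _ ha
  have hb' : 0 ≤ emb (Fin.castLE hn') (Fin.castLE_injective hn') b :=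
    hom_nonneg (R := Mat n' A) (R' := Mat N A) _ hb
  refine assembleg (R := Mat N A) (C := Mat K A) (S := SSt N) (N : ℝ) (by
      rintro _ ⟨T, hT, rfl⟩
      exact (trM_one_re T hT N).le) (hUC N) (tpsi (I.bet hn) E hE) (tF (I.bet' hn) E) q hq0.le
    (fun v hv => tF_nonneg (I.bet' hn) E hE hv)
    (fun v hv hL => tF_le E hE (I.bet_one hn) (I.bet_bet' hn) hv hL)
    (SSt K) q hq0.le ?_ _ _ ha' hb' t ht _ hm₀ ?_ r ε δ hε0 hδ0 ?_ ?_
  · rintro v hv η hη h _ ⟨T, hT, rfl⟩
    exact tF_rk (I.bet' hn) E hE (I.bet'_one hn) hv η (fun T hT => (h _ ⟨T, hT, rfl⟩).le) T hT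
  · rintro _ ⟨T, hT, rfl⟩
    have h1 := hab (TState.ofTr T hT)
    rw [TState.d_ofTr _ _ ha, TState.d_ofTr _ _ hb] at h1
    have h2 := tpsi_rk (I.bet hn) E hE (I.bet_one hn) ht l (fun T hT => (htl T hT).2) T hT
    rw [rk_emb_le hn₁ T ha, rk_emb_le hn' T hb]
    linarith
  · rintro _ ⟨T, hT, rfl⟩
    have h1 := hδ ⟨T, hT⟩
    rw [map_smul, hT, smul_eq_mul, mul_one, Complex.ofReal_re] at h1
    have h2 : r + 2 * ε = l - 2 * ε := by rw [hε]; ring
    rw [h2]
    exact h1.le
  · intro t1 ht1 hrt1 s hs hrs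
    refine cz_of_cuntz_t I hn E hE ?_
    refine hB N K _ _ (ent_nonneg _ _ hs) (ent_nonneg _ _ ht1) fun σ => ?_
    rw [σ.d_eq (ent_nonneg _ _ hs), σ.d_eq (ent_nonneg _ _ ht1), rk_ent _ _ _ hs, rk_ent _ _ _ ht1]
    have hT1 : (Tr.pull I.inc σ.toTr).f 1 = 1 := by
      rw [Tr.pull_apply]
      have : I.inc 1 = 1 := map_one I.Φ
      rw [this]
      exact σ.toTr_one
    have h2 := hrs _ ⟨_, hT1, rfl⟩
    have h3 := hrt1 _ ⟨_, hT1, rfl⟩
    linarith

theorem rc_le_of' {A : Type v} [CStarAlgebra A] [PartialOrder A] [StarOrderedRing A]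
    {B : Type w} [CStarAlgebra B] [PartialOrder B] [StarOrderedRing B] (q : ℝ≥0) (hq : q ≠ 0)
    (h : ∀ r : ℝ≥0, Comparison B r → ∀ r' : ℝ≥0, q * r < r' → Comparison A r') :
    rc A ≤ q * rc B := by
  have hq' : (q : ℝ≥0∞) ≠ 0 := by exact_mod_cast hq
  unfold rc
  rw [ENNReal.mul_iInf_of_ne hq' ENNReal.coe_ne_top]
  refine le_iInf fun r => ?_
  rw [ENNReal.mul_iInf_of_ne hq' ENNReal.coe_ne_top]
  refine le_iInf fun hr => ?_
  refine ENNReal.le_of_forall_pos_le_add fun ε hε _ => ?_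
  have h1 := h r hr (q * r + ε) (lt_add_of_pos_right _ hε)
  have h2 : (⨅ (r : ℝ≥0) (_ : Comparison A r), (r : ℝ≥0∞)) ≤ ((q * r + ε : ℝ≥0) : ℝ≥0∞) :=
    iInf₂_le (q * r + ε) h1
  refine h2.trans (le_of_eq ?_)
  push_cast
  rfl

/-- `rc(C*(Z, X, h^n)) ≤ n rc(C*(Z, X, h))` -/
theorem rc_pow_le (hn : n ≠ 0) (hm : Minimal (h ^ n)) (CA : Crossed (h ^ n) A)
    (CB : Crossed h B) : rc A ≤ n * rc B := by
  obtain ⟨I⟩ := exists_Incl hn CA CB (CA.simple hm)
  have h1 := rc_le_of' (A := A) (B := B) (n : ℝ≥0) (by exact_mod_cast hn)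
    (fun r hr r' hr' => le_comparison hn hm I r r.2 hr r' (by
      have : ((n : ℝ≥0) * r : ℝ≥0) < r' := hr'
      exact_mod_cast this))
  simpa using h1

end

end Run7.h450.Dyn
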