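import Pool.Agent.Run7.h450.Z5

/-!
# Towers modulo `n` for minimal homeomorphisms
-/

set_option autoImplicit false
set_option linter.unusedSectionVars false

namespace Run7.h450.Dyn

open Filter Topology

universe u v w

theorem zpa {X : Type u} [TopologicalSpace X] (h : X ≃ₜ X) (k l : ℤ) (x : X) :
    (h ^ (k + l)) x = (h ^ k) ((h ^ l) x) := by
  rw [zpow_add]
  rfl

section

variable {X : Type u} [TopologicalSpace X] (h : X ≃ₜ X) (φ : C(X, ℝ)) (K : ℕ)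

/-- the cost of the marker `m` at `x` -/
def cost (m : ℤ) (x : X) : ℝ := (m : ℝ) ^ 2 + K * (1 - φ ((h ^ m) x))

/-- `(cost (j + 1) - cost 0) / (2 (j + 1))` -/
noncomputable def rho (j : ℕ) : C(X, ℝ) :=
  ⟨fun x => ((j : ℝ) + 1) / 2 + K * (φ x - φ ((h ^ ((j : ℤ) + 1)) x)) / (2 * ((j : ℝ) + 1)), by
    have : Continuous fun x => φ ((h ^ ((j : ℤ) + 1)) x) :=
      φ.continuous.comp (h ^ ((j : ℤ) + 1)).continuous
    fun_prop⟩

/-- the minimum of the functions `rho` -/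
noncomputable def rmin : C(X, ℝ) :=
  (Finset.range (K + 2)).inf' ⟨0, Finset.mem_range.mpr (by omega)⟩ (rho h φ K)

theorem rho_eq (m : ℤ) (j : ℕ) (x : X) :
    rho h φ K j ((h ^ m) x) + m =
      (cost h φ K (m + (j + 1)) x - cost h φ K m x) / (2 * ((j : ℝ) + 1)) := by
  have h1 : (h ^ ((j : ℤ) + 1)) ((h ^ m) x) = (h ^ (m + ((j : ℤ) + 1))) x := by
    rw [← zpa, add_comm]
  show ((j : ℝ) + 1) / 2 + K * (φ ((h ^ m) x) - φ ((h ^ ((j : ℤ) + 1)) ((h ^ m) x))) /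
    (2 * ((j : ℝ) + 1)) + m = _
  rw [h1]
  unfold cost
  have hj : (j : ℝ) + 1 ≠ 0 := by positivity
  push_cast
  field_simp
  ring

variable {φ} in
theorem rmin_le (hφ0 : ∀ x, 0 ≤ φ x) (hφ1 : ∀ x, φ x ≤ 1) (j : ℕ) (x : X) :
    rmin h φ K x ≤ rho h φ K j x := by
  unfold rmin
  rw [ContinuousMap.inf'_apply]
  by_cases hj : j < K + 2
  · exact Finset.inf'_le (fun i => rho h φ K i x) (Finset.mem_range.mpr hj)
  · push Not at hj
    refine (Finset.inf'_le (fun i => rho h φ K i x) (Finset.mem_range.mpr (by omega : 0 < K + 2))).trans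
      ?_
    have hK : (0 : ℝ) ≤ K := Nat.cast_nonneg K
    have hjr : (K : ℝ) + 2 ≤ j := by exact_mod_cast hj
    have a1 : rho h φ K 0 x ≤ (K + 1) / 2 := by
      show (((0 : ℕ) : ℝ) + 1) / 2 + K * (φ x - φ ((h ^ (((0 : ℕ) : ℤ) + 1)) x)) /
        (2 * (((0 : ℕ) : ℝ) + 1)) ≤ _
      have e1 := hφ1 x
      have e2 := hφ0 ((h ^ (((0 : ℕ) : ℤ) + 1)) x)
      have e3 : K * (φ x - φ ((h ^ (((0 : ℕ) : ℤ) + 1)) x)) ≤ K * 1 :=
        mul_le_mul_of_nonneg_left (by linarith) hK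
      have e4 : ∀ t : ℝ, t ≤ K * 1 → (((0 : ℕ) : ℝ) + 1) / 2 + t / (2 * (((0 : ℕ) : ℝ) + 1)) ≤
          (K + 1) / 2 := by
        intro t ht
        push_cast
        linarith
      exact e4 _ e3
    have a2 : (K + 1) / 2 ≤ rho h φ K j x := by
      show _ ≤ ((j : ℝ) + 1) / 2 + K * (φ x - φ ((h ^ ((j : ℤ) + 1)) x)) / (2 * ((j : ℝ) + 1))
      have e1 := hφ0 x
      have e2 := hφ1 ((h ^ ((j : ℤ) + 1)) x)
      have e3 : -(K : ℝ) ≤ K * (φ x - φ ((h ^ ((j : ℤ) + 1)) x)) := by nlinarith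
      have e4 : -(1 / 2 : ℝ) ≤ K * (φ x - φ ((h ^ ((j : ℤ) + 1)) x)) / (2 * ((j : ℝ) + 1)) := by
        rw [le_div_iff₀ (by positivity)]
        nlinarith
      linarith
    exact a1.trans a2

/-- if all costs are at least the cost of `m` then `rmin` is nonnegative there -/
theorem rmin_nonneg (m : ℤ) (x : X) (hmin : ∀ m' : ℤ, cost h φ K m x ≤ cost h φ K m' x) :
    0 ≤ rmin h φ K ((h ^ m) x) + m := by
  unfold rmin
  rw [ContinuousMap.inf'_apply]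
  obtain ⟨j, -, hj⟩ := Finset.exists_mem_eq_inf' (s := Finset.range (K + 2))
    ⟨0, Finset.mem_range.mpr (by omega)⟩ (fun i => rho h φ K i ((h ^ m) x))
  rw [hj, rho_eq]
  have := hmin (m + (j + 1))
  exact div_nonneg (by linarith) (by positivity)

end

section

variable {X : Type u} [TopologicalSpace X] (h : X ≃ₜ X) (φ : C(X, ℝ)) (K : ℕ)

theorem cost_inv (m : ℤ) (x : X) : cost h⁻¹ φ K m x = cost h φ K (-m) x := by
  unfold cost
  rw [inv_zpow', Int.cast_neg, neg_sq]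

/-- the distance of `0` to the complement of the tile of the marker `m` -/
noncomputable def dd (m : ℤ) (x : X) : ℝ :=
  min (rmin h φ K ((h ^ m) x) + m) (rmin h⁻¹ φ K ((h ^ m) x) - m)

theorem dd_cont (m : ℤ) : Continuous (dd h φ K m) := by
  have h1 : Continuous fun x => rmin h φ K ((h ^ m) x) :=
    (rmin h φ K).continuous.comp (h ^ m).continuous
  have h2 : Continuous fun x => rmin h⁻¹ φ K ((h ^ m) x) :=
    (rmin h⁻¹ φ K).continuous.comp (h ^ m).continuous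
  unfold dd
  fun_prop

/-- shifting -/
theorem dd_shift (m k : ℤ) (x : X) :
    dd h φ K (m + k) x - |(k : ℝ)| ≤ dd h φ K m ((h ^ k) x) := by
  unfold dd
  rw [← zpa]
  have h1 := neg_abs_le (k : ℝ)
  have h2 := le_abs_self (k : ℝ)
  refine le_min ?_ ?_
  · have := min_le_left (rmin h φ K ((h ^ (m + k)) x) + ((m + k : ℤ) : ℝ))
      (rmin h⁻¹ φ K ((h ^ (m + k)) x) - ((m + k : ℤ) : ℝ))
    push_cast at this ⊢
    linarith
  · have := min_le_right (rmin h φ K ((h ^ (m + k)) x) + ((m + k : ℤ) : ℝ))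
      (rmin h⁻¹ φ K ((h ^ (m + k)) x) - ((m + k : ℤ) : ℝ))
    push_cast at this ⊢
    linarith

variable {φ}

/-- the bounds by the costs -/
theorem dd_le (hφ0 : ∀ x, 0 ≤ φ x) (hφ1 : ∀ x, φ x ≤ 1) (m m' : ℤ) (hne : m ≠ m') (x : X) :
    dd h φ K m x ≤ (cost h φ K m' x - cost h φ K m x) / (2 * |(m' : ℝ) - m|) := by
  rcases lt_or_gt_of_ne hne with hlt | hlt
  · obtain ⟨j, hj⟩ : ∃ j : ℕ, m' = m + (j + 1) := ⟨(m' - m - 1).toNat, by
      have := Int.toNat_of_nonneg (by omega : 0 ≤ m' - m - 1)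
      omega⟩
    have h1 := rmin_le h K hφ0 hφ1 j ((h ^ m) x)
    have h2 := rho_eq h φ K m j x
    have h3 : |(m' : ℝ) - m| = (j : ℝ) + 1 := by
      rw [hj]
      push_cast
      rw [abs_of_nonneg (by linarith [(Nat.cast_nonneg j : (0 : ℝ) ≤ j)])]
      ring
    rw [h3, hj]
    refine (min_le_left _ _).trans ?_
    linarith
  · obtain ⟨j, hj⟩ : ∃ j : ℕ, m' = m - (j + 1) := ⟨(m - m' - 1).toNat, by
      have := Int.toNat_of_nonneg (by omega : 0 ≤ m - m' - 1)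
      omega⟩
    have h0 : (h⁻¹ ^ (-m)) x = (h ^ m) x := by rw [inv_zpow', neg_neg]
    have h1 := rmin_le h⁻¹ K hφ0 hφ1 j ((h⁻¹ ^ (-m)) x)
    have h2 := rho_eq h⁻¹ φ K (-m) j x
    rw [cost_inv, cost_inv] at h2
    have h3 : |(m' : ℝ) - m| = (j : ℝ) + 1 := by
      rw [hj]
      push_cast
      rw [abs_of_nonpos (by linarith [(Nat.cast_nonneg j : (0 : ℝ) ≤ j)])]
      ring
    have h4 : -(-m + ((j : ℤ) + 1)) = m' := by rw [hj]; ring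
    rw [h4, neg_neg] at h2
    rw [h0] at h1 h2
    rw [h3]
    refine (min_le_right _ _).trans ?_
    push_cast at h2
    linarith

theorem dd_add_le (hφ0 : ∀ x, 0 ≤ φ x) (hφ1 : ∀ x, φ x ≤ 1) (m m' : ℤ) (hne : m ≠ m') (x : X) :
    dd h φ K m x + dd h φ K m' x ≤ 0 := by
  have h1 := dd_le h K hφ0 hφ1 m m' hne x
  have h2 := dd_le h K hφ0 hφ1 m' m (Ne.symm hne) x
  rw [abs_sub_comm] at h2
  have : (cost h φ K m' x - cost h φ K m x) / (2 * |(m' : ℝ) - m|) +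
      (cost h φ K m x - cost h φ K m' x) / (2 * |(m' : ℝ) - m|) = 0 := by ring
  linarith

/-- a nonnegative distance means minimal cost -/
theorem cost_le_of_dd (hφ0 : ∀ x, 0 ≤ φ x) (hφ1 : ∀ x, φ x ≤ 1) (m : ℤ) (x : X)
    (hd : 0 ≤ dd h φ K m x) (m' : ℤ) : cost h φ K m x ≤ cost h φ K m' x := by
  by_cases hne : m = m'
  · rw [hne]
  · have h1 := hd.trans (dd_le h K hφ0 hφ1 m m' hne x)
    have h2 : 0 < 2 * |(m' : ℝ) - m| := by
      have : (m' : ℝ) - m ≠ 0 := sub_ne_zero.mpr (by exact_mod_cast (Ne.symm hne))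
      positivity
    rw [le_div_iff₀ h2, zero_mul] at h1
    linarith

end

section

variable {X : Type u} [TopologicalSpace X] (h : X ≃ₜ X) {φ : C(X, ℝ)} (J : ℕ)

theorem small_of_cost (hφ0 : ∀ x, 0 ≤ φ x) (hφ1 : ∀ x, φ x ≤ 1)
    (hJ : ∀ x : X, ∃ k : ℤ, |k| ≤ J ∧ φ ((h ^ k) x) = 1) (m : ℤ) (x : X)
    (hmin : ∀ m' : ℤ, cost h φ (J ^ 2 + 1) m x ≤ cost h φ (J ^ 2 + 1) m' x) :
    |m| ≤ J ∧ 0 < φ ((h ^ m) x) := by
  obtain ⟨k, hk, hkx⟩ := hJ x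
  have h1 := hmin k
  unfold cost at h1
  rw [hkx, sub_self, mul_zero, add_zero] at h1
  have h2 : (k : ℝ) ^ 2 ≤ (J : ℝ) ^ 2 := by
    have h3 : |(k : ℝ)| ≤ J := by exact_mod_cast hk
    rw [← sq_abs]
    exact pow_le_pow_left₀ (abs_nonneg _) h3 2
  have h3 := hφ1 ((h ^ m) x)
  have h4 : (0 : ℝ) < ((J ^ 2 + 1 : ℕ) : ℝ) := by positivity
  have h5 : 0 ≤ ((J ^ 2 + 1 : ℕ) : ℝ) * (1 - φ ((h ^ m) x)) := mul_nonneg h4.le (by linarith)
  refine ⟨?_, ?_⟩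
  · have h6 : (m : ℝ) ^ 2 ≤ (J : ℝ) ^ 2 := by linarith
    have h7 : |(m : ℝ)| ≤ J := abs_le_of_sq_le_sq h6 (Nat.cast_nonneg J)
    exact_mod_cast h7
  · by_contra hcon
    push Not at hcon
    have h6 : ((J ^ 2 + 1 : ℕ) : ℝ) * 1 ≤ ((J ^ 2 + 1 : ℕ) : ℝ) * (1 - φ ((h ^ m) x)) :=
      mul_le_mul_of_nonneg_left (by linarith) h4.le
    push_cast at h6 h1
    nlinarith [_root_.sq_nonneg (m : ℝ)]

/-- there is a marker of minimal cost -/
theorem exists_min_cost (hφ1 : ∀ x, φ x ≤ 1)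
    (hJ : ∀ x : X, ∃ k : ℤ, |k| ≤ J ∧ φ ((h ^ k) x) = 1) (x : X) :
    ∃ m : ℤ, ∀ m' : ℤ, cost h φ (J ^ 2 + 1) m x ≤ cost h φ (J ^ 2 + 1) m' x := by
  obtain ⟨k, hk, hkx⟩ := hJ x
  have hk' := abs_le.mp hk
  obtain ⟨m, hm, hmin⟩ := Finset.exists_min_image (Finset.Icc (-(J : ℤ)) J)
    (fun m => cost h φ (J ^ 2 + 1) m x) ⟨k, Finset.mem_Icc.mpr hk'⟩
  refine ⟨m, fun m' => ?_⟩
  by_cases hm' : m' ∈ Finset.Icc (-(J : ℤ)) J
  · exact hmin m' hm'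
  · have h1 := hmin k (Finset.mem_Icc.mpr hk')
    refine h1.trans ?_
    unfold cost
    rw [hkx, sub_self, mul_zero, add_zero]
    have h2 : (k : ℝ) ^ 2 ≤ (J : ℝ) ^ 2 := by
      have h3 : |(k : ℝ)| ≤ J := by exact_mod_cast hk
      rw [← sq_abs]
      exact pow_le_pow_left₀ (abs_nonneg _) h3 2
    have h3 : (J : ℝ) ^ 2 ≤ (m' : ℝ) ^ 2 := by
      have h4 : (J : ℤ) ≤ |m'| := by
        by_contra hcon
        push Not at hcon
        exact hm' (Finset.mem_Icc.mpr (abs_le.mp hcon.le))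
      have h5 : (J : ℝ) ≤ |(m' : ℝ)| := by exact_mod_cast h4
      rw [← sq_abs (m' : ℝ)]
      exact pow_le_pow_left₀ (Nat.cast_nonneg _) h5 2
    have h4 : 0 ≤ ((J ^ 2 + 1 : ℕ) : ℝ) * (1 - φ ((h ^ m') x)) :=
      mul_nonneg (Nat.cast_nonneg _) (by linarith [hφ1 ((h ^ m') x)])
    linarith

end

section

variable {X : Type u} [TopologicalSpace X] (h : X ≃ₜ X) (φ : C(X, ℝ)) (J L n : ℕ)

/-- the truncated distance -/
noncomputable def TT (m : ℤ) (x : X) : ℝ := max 0 (min 1 (dd h φ (J ^ 2 + 1) m x / L))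

theorem TT_cont (m : ℤ) : Continuous (TT h φ J L m) := by
  have := dd_cont h φ (J ^ 2 + 1) m
  unfold TT
  fun_prop

theorem TT_nonneg (m : ℤ) (x : X) : 0 ≤ TT h φ J L m x := le_max_left _ _

theorem TT_le_one (m : ℤ) (x : X) : TT h φ J L m x ≤ 1 :=
  max_le zero_le_one (min_le_left _ _)

theorem TT_shift (m k : ℤ) (x : X) :
    TT h φ J L (m + k) x - |(k : ℝ)| / L ≤ TT h φ J L m ((h ^ k) x) := by
  have h1 := dd_shift h φ (J ^ 2 + 1) m k x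
  have hL : (0 : ℝ) ≤ (L : ℝ) := Nat.cast_nonneg L
  have h2 : dd h φ (J ^ 2 + 1) (m + k) x / L - |(k : ℝ)| / L ≤
      dd h φ (J ^ 2 + 1) m ((h ^ k) x) / L := by
    rw [← sub_div]
    exact div_le_div_of_nonneg_right h1 hL
  have h3 : 0 ≤ |(k : ℝ)| / L := by positivity
  unfold TT
  rcases max_cases (0 : ℝ) (min 1 (dd h φ (J ^ 2 + 1) (m + k) x / L)) with ⟨e, -⟩ | ⟨e, -⟩
  · rw [e]
    exact (by linarith : (0 : ℝ) - |(k : ℝ)| / L ≤ 0).trans (le_max_left _ _)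
  · rw [e]
    refine le_trans ?_ (le_max_right _ _)
    refine le_min ?_ ?_
    · have := min_le_left (1 : ℝ) (dd h φ (J ^ 2 + 1) (m + k) x / L)
      linarith
    · have := min_le_right (1 : ℝ) (dd h φ (J ^ 2 + 1) (m + k) x / L)
      linarith

theorem TT_shift' (m k : ℤ) (x : X) :
    TT h φ J L m ((h ^ k) x) ≤ TT h φ J L (m + k) x + |(k : ℝ)| / L := by
  have h1 := TT_shift h φ J L (m + k) (-k) ((h ^ k) x)
  rw [← zpa, neg_add_cancel, zpow_zero, add_neg_cancel_right, Int.cast_neg, abs_neg] at h1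
  have h2 : (1 : X ≃ₜ X) x = x := rfl
  rw [h2] at h1
  linarith

variable {φ}

theorem dd_of_TT {m : ℤ} {x : X} (hne : TT h φ J L m x ≠ 0) : 0 < dd h φ (J ^ 2 + 1) m x := by
  by_contra hcon
  push Not at hcon
  refine hne (max_eq_left ?_)
  exact (min_le_right _ _).trans (div_nonpos_of_nonpos_of_nonneg hcon (Nat.cast_nonneg L))

theorem TT_ne (hφ0 : ∀ x, 0 ≤ φ x) (hφ1 : ∀ x, φ x ≤ 1) {m m' : ℤ} (hne : m ≠ m') {x : X}
    (h1 : TT h φ J L m x ≠ 0) : TT h φ J L m' x = 0 := by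
  by_contra h2
  have e1 := dd_of_TT h J L h1
  have e2 := dd_of_TT h J L h2
  have e3 := dd_add_le h (J ^ 2 + 1) hφ0 hφ1 m m' hne x
  linarith

theorem TT_small (hφ0 : ∀ x, 0 ≤ φ x) (hφ1 : ∀ x, φ x ≤ 1)
    (hJ : ∀ x : X, ∃ k : ℤ, |k| ≤ J ∧ φ ((h ^ k) x) = 1) {m : ℤ} {x : X}
    (h1 : TT h φ J L m x ≠ 0) : |m| ≤ J :=
  (small_of_cost h J hφ0 hφ1 hJ m x
    (cost_le_of_dd h (J ^ 2 + 1) hφ0 hφ1 m x (dd_of_TT h J L h1).le)).1

/-- sums of truncated distances have at most one non-zero term -/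
theorem TT_sum (hφ0 : ∀ x, 0 ≤ φ x) (hφ1 : ∀ x, φ x ≤ 1) (S : Finset ℤ) (x : X) :
    (∀ m ∈ S, TT h φ J L m x = 0) ∧ ∑ m ∈ S, TT h φ J L m x = 0 ∨
    ∃ m ∈ S, TT h φ J L m x ≠ 0 ∧ ∑ m ∈ S, TT h φ J L m x = TT h φ J L m x := by
  by_cases hcon : ∀ m ∈ S, TT h φ J L m x = 0
  · exact Or.inl ⟨hcon, Finset.sum_eq_zero hcon⟩
  · push Not at hcon
    obtain ⟨m, hm, hne⟩ := hcon
    refine Or.inr ⟨m, hm, hne, ?_⟩
    rw [Finset.sum_eq_single m]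
    · intro b _ hb
      exact TT_ne h J L hφ0 hφ1 (Ne.symm hb) hne
    · intro hm'
      exact absurd hm hm'

variable (φ)

/-- the markers -/
noncomputable def Mk : Finset ℤ := Finset.Icc (-(J : ℤ)) J

/-- the tower function -/
noncomputable def ff : C(X, ℝ) :=
  ⟨fun x => ∑ m ∈ (Mk J).filter (fun m => (n : ℤ) ∣ m), TT h φ J L m x,
    continuous_finsetSum _ fun m _ => TT_cont h φ J L m⟩

/-- the remainder -/
noncomputable def gg : C(X, ℝ) :=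
  ⟨fun x => 1 - ∑ m ∈ Mk J, TT h φ J L m x,
    continuous_const.sub (continuous_finsetSum _ fun m _ => TT_cont h φ J L m)⟩

variable {φ}

theorem ff_cases (hφ0 : ∀ x, 0 ≤ φ x) (hφ1 : ∀ x, φ x ≤ 1) (x : X) :
    ff h φ J L n x = 0 ∨ ∃ m : ℤ, (n : ℤ) ∣ m ∧ TT h φ J L m x ≠ 0 ∧
      ff h φ J L n x = TT h φ J L m x := by
  rcases TT_sum h J L hφ0 hφ1 ((Mk J).filter (fun m => (n : ℤ) ∣ m)) x with ⟨-, e⟩ | ⟨m, hm, h1, e⟩
  · exact Or.inl e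
  · exact Or.inr ⟨m, (Finset.mem_filter.mp hm).2, h1, e⟩

theorem ff_nonneg (x : X) : 0 ≤ ff h φ J L n x := by
  show 0 ≤ ∑ m ∈ (Mk J).filter (fun m => (n : ℤ) ∣ m), TT h φ J L m x
  exact Finset.sum_nonneg fun m _ => TT_nonneg h φ J L m x

theorem ff_le_one (hφ0 : ∀ x, 0 ≤ φ x) (hφ1 : ∀ x, φ x ≤ 1) (x : X) : ff h φ J L n x ≤ 1 := by
  rcases ff_cases h J L n hφ0 hφ1 x with e | ⟨m, -, -, e⟩
  · rw [e]
    exact zero_le_one
  · rw [e]
    exact TT_le_one h φ J L m x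

theorem TT_le_ff (hφ0 : ∀ x, 0 ≤ φ x) (hφ1 : ∀ x, φ x ≤ 1)
    (hJ : ∀ x : X, ∃ k : ℤ, |k| ≤ J ∧ φ ((h ^ k) x) = 1) {m : ℤ} (hm : (n : ℤ) ∣ m) (x : X) :
    TT h φ J L m x ≤ ff h φ J L n x := by
  by_cases h0 : TT h φ J L m x = 0
  · rw [h0]
    exact ff_nonneg h J L n x
  · have h1 := TT_small h J L hφ0 hφ1 hJ h0
    have h2 : m ∈ (Mk J).filter (fun m => (n : ℤ) ∣ m) :=
      Finset.mem_filter.mpr ⟨Finset.mem_Icc.mpr (abs_le.mp h1), hm⟩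
    exact Finset.single_le_sum (f := fun m => TT h φ J L m x)
      (fun m _ => TT_nonneg h φ J L m x) h2

theorem ff_shift_le (hφ0 : ∀ x, 0 ≤ φ x) (hφ1 : ∀ x, φ x ≤ 1)
    (hJ : ∀ x : X, ∃ k : ℤ, |k| ≤ J ∧ φ ((h ^ k) x) = 1) {k : ℤ} (hk : (n : ℤ) ∣ k) (x : X) :
    ff h φ J L n ((h ^ k) x) ≤ ff h φ J L n x + |(k : ℝ)| / L := by
  have h3 : 0 ≤ |(k : ℝ)| / L := by positivity
  rcases ff_cases h J L n hφ0 hφ1 ((h ^ k) x) with e | ⟨m, hm, -, e⟩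
  · rw [e]
    have := ff_nonneg h J L n (φ := φ) x
    linarith
  · rw [e]
    have h1 := TT_shift' h φ J L m k x
    have h2 := TT_le_ff h J L n hφ0 hφ1 hJ (dvd_add hm hk) x
    linarith

theorem ff_shift (hφ0 : ∀ x, 0 ≤ φ x) (hφ1 : ∀ x, φ x ≤ 1)
    (hJ : ∀ x : X, ∃ k : ℤ, |k| ≤ J ∧ φ ((h ^ k) x) = 1) {k : ℤ} (hk : (n : ℤ) ∣ k) (x : X) :
    |ff h φ J L n ((h ^ k) x) - ff h φ J L n x| ≤ |(k : ℝ)| / L := by
  rw [abs_le]
  have h1 := ff_shift_le h J L n hφ0 hφ1 hJ hk x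
  have h2 := ff_shift_le h J L n hφ0 hφ1 hJ ((dvd_neg).mpr hk) ((h ^ k) x)
  rw [← zpa, neg_add_cancel, zpow_zero, Int.cast_neg, abs_neg] at h2
  have h3 : (1 : X ≃ₜ X) x = x := rfl
  rw [h3] at h2
  constructor <;> linarith

theorem ff_mul (hφ0 : ∀ x, 0 ≤ φ x) (hφ1 : ∀ x, φ x ≤ 1) {k : ℤ} (hk : ¬ (n : ℤ) ∣ k) (x : X) :
    ff h φ J L n x * ff h φ J L n ((h ^ k) x) ≤ |(k : ℝ)| / L := by
  have h3 : 0 ≤ |(k : ℝ)| / L := by positivity
  rcases ff_cases h J L n hφ0 hφ1 x with e | ⟨m, hm, hne, -⟩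
  · rw [e, zero_mul]
    exact h3
  · rcases ff_cases h J L n hφ0 hφ1 ((h ^ k) x) with e | ⟨m', hm', hne', e'⟩
    · rw [e, mul_zero]
      exact h3
    · have h4 : m ≠ m' + k := by
        intro hcon
        refine hk ?_
        have : k = m - m' := by rw [hcon]; ring
        rw [this]
        exact dvd_sub hm hm'
      have h5 := TT_ne h J L hφ0 hφ1 h4 hne
      have h6 := TT_shift' h φ J L m' k x
      rw [h5, zero_add] at h6
      have h7 := ff_le_one h J L n hφ0 hφ1 x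
      have h8 := ff_nonneg h J L n (φ := φ) ((h ^ k) x)
      rw [e'] at h8 ⊢
      calc ff h φ J L n x * TT h φ J L m' ((h ^ k) x) ≤ 1 * TT h φ J L m' ((h ^ k) x) :=
            mul_le_mul_of_nonneg_right h7 h8
        _ ≤ _ := by rw [one_mul]; exact h6

theorem gg_nonneg (hφ0 : ∀ x, 0 ≤ φ x) (hφ1 : ∀ x, φ x ≤ 1) (x : X) : 0 ≤ gg h φ J L x := by
  show 0 ≤ 1 - ∑ m ∈ Mk J, TT h φ J L m x
  rcases TT_sum h J L hφ0 hφ1 (Mk J) x with ⟨-, e⟩ | ⟨m, hm, h1, e⟩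
  · rw [e]
    norm_num
  · rw [e]
    have := TT_le_one h φ J L m x
    linarith

theorem gg_zero (hn : n ≠ 0) (hφ0 : ∀ x, 0 ≤ φ x) (hφ1 : ∀ x, φ x ≤ 1)
    (hJ : ∀ x : X, ∃ k : ℤ, |k| ≤ J ∧ φ ((h ^ k) x) = 1) (x : X) (h0 : gg h φ J L x = 0) :
    |1 - ∑ k ∈ Finset.range n, (ff h φ J L n ((h ^ (k : ℤ)) x)) ^ 4| ≤ 5 * n ^ 2 / L := by
  have h0' : 1 - ∑ m ∈ Mk J, TT h φ J L m x = 0 := h0
  rcases TT_sum h J L hφ0 hφ1 (Mk J) x with ⟨-, e⟩ | ⟨m, hm, h1, e⟩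
  · rw [e] at h0'
    norm_num at h0'
  rw [e] at h0'
  have hT : TT h φ J L m x = 1 := by linarith
  set δ : ℝ := (n : ℝ) / L with hδ
  have hδ0 : 0 ≤ δ := by positivity
  have hkd : ∀ k ∈ Finset.range n, |((k : ℤ) : ℝ)| / L ≤ δ := by
    intro k hk
    have hk' : (k : ℝ) ≤ n := by exact_mod_cast (Finset.mem_range.mp hk).le
    rw [Int.cast_natCast, abs_of_nonneg (Nat.cast_nonneg k)]
    exact div_le_div_of_nonneg_right hk' (Nat.cast_nonneg L)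
  -- good k
  have hgood : ∀ k ∈ Finset.range n, (n : ℤ) ∣ m - k →
      1 - δ ≤ ff h φ J L n ((h ^ (k : ℤ)) x) := by
    intro k hk hd
    have a1 := TT_shift h φ J L (m - k) (k : ℤ) x
    rw [sub_add_cancel, hT] at a1
    have a2 := TT_le_ff h J L n hφ0 hφ1 hJ hd ((h ^ (k : ℤ)) x)
    have a3 := hkd k hk
    linarith
  have hbad : ∀ k ∈ Finset.range n, ¬ (n : ℤ) ∣ m - k →
      ff h φ J L n ((h ^ (k : ℤ)) x) ≤ δ := by
    intro k hk hd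
    rcases ff_cases h J L n hφ0 hφ1 ((h ^ (k : ℤ)) x) with e | ⟨m', hm', hne', e'⟩
    · rw [e]
      exact hδ0
    · rw [e']
      have h4 : m ≠ m' + (k : ℤ) := by
        intro hcon
        refine hd ?_
        have : m - k = m' := by rw [hcon]; ring
        rw [this]
        exact hm'
      have h5 := TT_ne h J L hφ0 hφ1 h4 h1
      have h6 := TT_shift' h φ J L m' (k : ℤ) x
      rw [h5, zero_add] at h6
      exact h6.trans (hkd k hk)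
  obtain ⟨k₀, hk₀, hd₀, huniq⟩ : ∃ k₀ ∈ Finset.range n, (n : ℤ) ∣ m - k₀ ∧
      ∀ k ∈ Finset.range n, (n : ℤ) ∣ m - k → k = k₀ := by
    have hnz : (0 : ℤ) < n := by exact_mod_cast Nat.pos_of_ne_zero hn
    have b1 := Int.emod_nonneg m hnz.ne'
    have b2 := Int.emod_lt_of_pos m hnz
    have b3 := Int.toNat_of_nonneg b1
    refine ⟨(m % n).toNat, Finset.mem_range.mpr (by omega), ?_, fun k hk hd => ?_⟩
    · rw [b3]
      have := Int.emod_add_mul_ediv m n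
      exact ⟨m / n, by linarith⟩
    · have hk' := Finset.mem_range.mp hk
      have c1 : m % n = (k : ℤ) % n :=
        Int.emod_eq_emod_iff_emod_sub_eq_zero.mpr (Int.emod_eq_zero_of_dvd hd)
      rw [Int.emod_eq_of_lt (b := (n : ℤ)) (a := (k : ℤ)) (by omega) (by omega)] at c1
      omega
  set a : ℕ → ℝ := fun k => ff h φ J L n ((h ^ (k : ℤ)) x) with ha
  have ha0 : ∀ k, 0 ≤ a k := fun k => ff_nonneg h J L n _
  have ha1 : ∀ k, a k ≤ 1 := fun k => ff_le_one h J L n hφ0 hφ1 _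
  have hn1 : (1 : ℝ) ≤ n := by exact_mod_cast Nat.one_le_iff_ne_zero.mpr hn
  have d1 : 1 - δ ≤ a k₀ := hgood k₀ hk₀ hd₀
  have d2 : 1 - a k₀ ^ 4 ≤ 4 * δ := by
    have e1 := ha0 k₀
    have e2 := ha1 k₀
    have e3 : 1 - a k₀ ^ 4 = (1 - a k₀) * (1 + a k₀ + a k₀ ^ 2 + a k₀ ^ 3) := by ring
    have e4 : a k₀ ^ 2 ≤ 1 := pow_le_one₀ e1 e2
    have e5 : a k₀ ^ 3 ≤ 1 := pow_le_one₀ e1 e2
    rw [e3]
    calc (1 - a k₀) * (1 + a k₀ + a k₀ ^ 2 + a k₀ ^ 3) ≤ (1 - a k₀) * 4 :=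
          mul_le_mul_of_nonneg_left (by linarith) (by linarith)
      _ ≤ 4 * δ := by linarith
  have d3 : a k₀ ^ 4 ≤ 1 := pow_le_one₀ (ha0 k₀) (ha1 k₀)
  have d4 : ∑ k ∈ Finset.range n, a k ^ 4 = a k₀ ^ 4 + ∑ k ∈ (Finset.range n).erase k₀, a k ^ 4 :=
    (Finset.add_sum_erase _ _ hk₀).symm
  have d5 : 0 ≤ ∑ k ∈ (Finset.range n).erase k₀, a k ^ 4 :=
    Finset.sum_nonneg fun k _ => pow_nonneg (ha0 k) 4
  have d6 : ∑ k ∈ (Finset.range n).erase k₀, a k ^ 4 ≤ n * δ := by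
    have f1 : ∀ k ∈ (Finset.range n).erase k₀, a k ^ 4 ≤ δ := by
      intro k hk
      obtain ⟨hk1, hk2⟩ := Finset.mem_erase.mp hk
      have f2 : a k ≤ δ := hbad k hk2 fun hd => hk1 (huniq k hk2 hd)
      have f3 : a k ^ 4 ≤ a k ^ 1 := pow_le_pow_of_le_one (ha0 k) (ha1 k) (by norm_num)
      rw [pow_one] at f3
      exact f3.trans f2
    calc ∑ k ∈ (Finset.range n).erase k₀, a k ^ 4 ≤ ∑ k ∈ (Finset.range n).erase k₀, δ :=
          Finset.sum_le_sum f1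
      _ = ((Finset.range n).erase k₀).card * δ := by rw [Finset.sum_const, nsmul_eq_mul]
      _ ≤ n * δ := by
          refine mul_le_mul_of_nonneg_right ?_ hδ0
          have : ((Finset.range n).erase k₀).card ≤ n := by
            have := Finset.card_erase_le (s := Finset.range n) (a := k₀)
            rwa [Finset.card_range] at this
          exact_mod_cast this
  have d7 : 5 * (n : ℝ) ^ 2 / L = 5 * (n * δ) := by
    rw [hδ]
    ring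
  have d8 : δ ≤ n * δ := le_mul_of_one_le_left hδ0 hn1
  show |1 - ∑ k ∈ Finset.range n, a k ^ 4| ≤ _
  rw [d7, d4, abs_le]
  constructor <;> linarith

theorem gg_ne (hL : 0 < L) (hφ0 : ∀ x, 0 ≤ φ x) (hφ1 : ∀ x, φ x ≤ 1)
    (hJ : ∀ x : X, ∃ k : ℤ, |k| ≤ J ∧ φ ((h ^ k) x) = 1) (x : X) (h0 : gg h φ J L x ≠ 0) :
    ∃ m : ℤ, |m| ≤ J ∧ 0 < φ ((h ^ m) x) ∧
      ((0 ≤ rmin h φ (J ^ 2 + 1) ((h ^ m) x) + m ∧ rmin h φ (J ^ 2 + 1) ((h ^ m) x) + m < L) ∨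
       (0 ≤ rmin h⁻¹ φ (J ^ 2 + 1) ((h ^ m) x) - m ∧
        rmin h⁻¹ φ (J ^ 2 + 1) ((h ^ m) x) - m < L)) := by
  obtain ⟨m, hm⟩ := exists_min_cost h J hφ1 hJ x
  obtain ⟨hmJ, hmφ⟩ := small_of_cost h J hφ0 hφ1 hJ m x hm
  refine ⟨m, hmJ, hmφ, ?_⟩
  have h1 := rmin_nonneg h φ (J ^ 2 + 1) m x hm
  have h2 : 0 ≤ rmin h⁻¹ φ (J ^ 2 + 1) ((h ^ m) x) - m := by
    have a1 := rmin_nonneg h⁻¹ φ (J ^ 2 + 1) (-m) x (fun m' => by
      rw [cost_inv, cost_inv, neg_neg]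
      exact hm (-m'))
    have a2 : (h⁻¹ ^ (-m)) x = (h ^ m) x := by rw [inv_zpow', neg_neg]
    rw [a2, Int.cast_neg, ← sub_eq_add_neg] at a1
    exact a1
  by_contra hcon
  push Not at hcon
  have h3 := hcon.1 h1
  have h4 := hcon.2 h2
  refine h0 ?_
  have h5 : TT h φ J L m x = 1 := by
    have h6 : (L : ℝ) ≤ dd h φ (J ^ 2 + 1) m x := le_min h3 h4
    have h7 : 1 ≤ dd h φ (J ^ 2 + 1) m x / L := by
      rw [le_div_iff₀ (by exact_mod_cast hL)]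
      linarith
    unfold TT
    rw [min_eq_left h7]
    exact max_eq_right zero_le_one
  show 1 - ∑ m ∈ Mk J, TT h φ J L m x = 0
  have h6 : TT h φ J L m x ≠ 0 := by rw [h5]; exact one_ne_zero
  rw [Finset.sum_eq_single m, h5, sub_self]
  · intro b _ hb
    exact TT_ne h J L hφ0 hφ1 (Ne.symm hb) h6
  · intro hm'
    exact absurd (Finset.mem_Icc.mpr (abs_le.mp hmJ)) hm'

end

end Run7.h450.Dyn
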