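import Pool.Agent.Run7.h450.Z8

/-!
# The remainder of the towers is small in the sense of Cuntz
-/

set_option autoImplicit false
set_option linter.unusedSectionVars false

namespace Run7.h450.Dyn

open Filter Topology
open Pool.Agent.H327R4.Pure

universe u v w

section

variable {X : Type u} [TopologicalSpace X] [CompactSpace X]

theorem dom {f g : C(X, ℝ)} (hf : ∀ x, 0 ≤ f x) (hg : ∀ x, 0 ≤ g x)
    (hfg : ∀ x, f x ≠ 0 → 0 < g x) (ε : ℝ) (hε : 0 < ε) :
    ∃ C : ℝ, 0 ≤ C ∧ ∀ x, f x ≤ ε + C * g x := by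
  have hS : IsCompact {x | ε ≤ f x} := (isClosed_le continuous_const f.continuous).isCompact
  rcases Set.eq_empty_or_nonempty {x | ε ≤ f x} with he | hne
  · refine ⟨0, le_rfl, fun x => ?_⟩
    by_contra hcon
    push Not at hcon
    have : x ∈ {x | ε ≤ f x} := by
      show ε ≤ f x
      linarith
    rw [he] at this
    exact this
  · obtain ⟨x₀, hx₀, hmin⟩ := hS.exists_isMinOn hne g.continuous.continuousOn
    have hc : 0 < g x₀ := hfg x₀ (by
      have : ε ≤ f x₀ := hx₀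
      linarith)
    refine ⟨‖f‖ / g x₀, by positivity, fun x => ?_⟩
    by_cases hx : ε ≤ f x
    · have h1 : g x₀ ≤ g x := hmin hx
      have h2 : f x ≤ ‖f‖ := (le_abs_self _).trans (f.norm_coe_le_norm x)
      have h3 : ‖f‖ ≤ ‖f‖ / g x₀ * g x := by
        calc ‖f‖ = ‖f‖ / g x₀ * g x₀ := by field_simp
          _ ≤ _ := mul_le_mul_of_nonneg_left h1 (by positivity)
      linarith
    · push Not at hx
      have : 0 ≤ ‖f‖ / g x₀ * g x := mul_nonneg (by positivity) (hg x)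
      linarith

end

section

variable {R : Type v} [CStarAlgebra R] [PartialOrder R] [StarOrderedRing R]

theorem proj_le_one {p : R} (h1 : p * p = p) (h2 : star p = p) : p ≤ 1 := by
  rw [← sub_nonneg]
  have : 1 - p = star (1 - p) * (1 - p) := by
    rw [star_sub, star_one, h2, sub_mul, one_mul, mul_sub, mul_one, h1, sub_self, sub_zero]
  rw [this]
  exact star_mul_self_nonneg _

variable {X : Type u} [TopologicalSpace X] [CompactSpace X] [T2Space X]

theorem kap_le_one (κ : C(X, ℂ) →⋆ₙₐ[ℂ] R) : κ (cx 1) ≤ 1 := by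
  rw [cx_one]
  refine proj_le_one ?_ ?_
  · rw [← map_mul, one_mul]
  · rw [← map_star, star_one]

theorem kap_rsmul (κ : C(X, ℂ) →⋆ₙₐ[ℂ] R) (c : ℝ) (f : C(X, ℝ)) :
    κ (cx (c • f)) = c • κ (cx f) := by
  rw [cx_smul, ← Complex.coe_smul, map_smul, Complex.coe_smul]

/-- functions with a smaller support are subequivalent -/
theorem kap_cz (κ : C(X, ℂ) →⋆ₙₐ[ℂ] R) {f g : C(X, ℝ)} (hf : ∀ x, 0 ≤ f x) (hg : ∀ x, 0 ≤ g x)
    (hfg : ∀ x, f x ≠ 0 → 0 < g x) : Cz (κ (cx f)) (κ (cx g)) := by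
  have hf' := kap_nonneg κ hf
  have hg' := kap_nonneg κ hg
  refine clo' R _ _ hf' fun ε hε => ?_
  obtain ⟨C, hC, hle⟩ := dom hf hg hfg ε hε
  have h1 : κ (cx f) ≤ C • κ (cx g) + ε • (1 : R) := by
    have h2 : κ (cx f) ≤ κ (cx (C • g + ε • 1)) := kap_mono κ fun x => by
      show f x ≤ C * g x + ε * 1
      linarith [hle x]
    rw [cx_add, map_add, kap_rsmul, kap_rsmul] at h2
    exact h2.trans (add_le_add le_rfl (smul_le_smul_of_nonneg_left (kap_le_one κ) hε.le))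
  exact cz_trans (cz_cut_of_le hf' (smul_nonneg hC hg') ε hε.le h1) (cz_smul C hC)

/-- finite sums of Cuntz subequivalences with orthogonal targets -/
theorem cz_sum {ι : Type w} (s : Finset ι) (x y : ι → R) (hx : ∀ i ∈ s, 0 ≤ x i)
    (hy : ∀ i ∈ s, 0 ≤ y i) (ho : ∀ i ∈ s, ∀ j ∈ s, i ≠ j → y i * y j = 0)
    (h : ∀ i ∈ s, Cz (x i) (y i)) : Cz (∑ i ∈ s, x i) (∑ i ∈ s, y i) := by
  classical
  induction s using Finset.induction_on with
  | empty =>
    rw [Finset.sum_empty, Finset.sum_empty]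
    exact cz_refl
  | insert b t hb ih =>
    rw [Finset.sum_insert hb, Finset.sum_insert hb]
    refine cz_add (hx b (Finset.mem_insert_self b t))
      (Finset.sum_nonneg fun i hi => hx i (Finset.mem_insert_of_mem hi))
      (hy b (Finset.mem_insert_self b t))
      (Finset.sum_nonneg fun i hi => hy i (Finset.mem_insert_of_mem hi)) ?_
      (h b (Finset.mem_insert_self b t))
      (ih (fun i hi => hx i (Finset.mem_insert_of_mem hi))
        (fun i hi => hy i (Finset.mem_insert_of_mem hi))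
        (fun i hi j hj => ho i (Finset.mem_insert_of_mem hi) j (Finset.mem_insert_of_mem hj))
        (fun i hi => h i (Finset.mem_insert_of_mem hi)))
    rw [Finset.mul_sum]
    exact Finset.sum_eq_zero fun i hi => ho b (Finset.mem_insert_self b t) i
      (Finset.mem_insert_of_mem hi) (fun hbi => hb (hbi ▸ hi))

end

section

variable {X : Type u} [TopologicalSpace X] (h : X ≃ₜ X) (φ : C(X, ℝ)) (J L : ℕ)

/-- the two sides -/
noncomputable def side (s : Bool) : C(X, ℝ) :=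
  if s then rmin h φ (J ^ 2 + 1) else rmin h⁻¹ φ (J ^ 2 + 1)

/-- the sign of a side -/
def sgn (s : Bool) : ℝ := if s then 1 else -1

/-- the boundary functions -/
noncomputable def RR (s : Bool) (m : ℤ) : C(X, ℝ) :=
  ⟨fun y => max 0 (min (side h φ J s y + sgn s * m + 1) (L + 1 - (side h φ J s y + sgn s * m))) *
    φ y, by fun_prop⟩

variable {φ}

theorem RR_nonneg (hφ0 : ∀ x, 0 ≤ φ x) (s : Bool) (m : ℤ) (y : X) : 0 ≤ RR h φ J L s m y :=
  mul_nonneg (le_max_left _ _) (hφ0 y)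

theorem RR_ne {s : Bool} {m : ℤ} {y : X} (hne : RR h φ J L s m y ≠ 0) :
    φ y ≠ 0 ∧ -1 < side h φ J s y + sgn s * m ∧ side h φ J s y + sgn s * m < L + 1 := by
  have h1 : max 0 (min (side h φ J s y + sgn s * m + 1)
      (L + 1 - (side h φ J s y + sgn s * m))) * φ y ≠ 0 := hne
  have h2 := left_ne_zero_of_mul h1
  have h3 : 0 < min (side h φ J s y + sgn s * m + 1) (L + 1 - (side h φ J s y + sgn s * m)) := by
    by_contra hcon
    push Not at hcon
    exact h2 (max_eq_left hcon)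
  obtain ⟨h4, h5⟩ := lt_min_iff.mp h3
  exact ⟨right_ne_zero_of_mul h1, by linarith, by linarith⟩

theorem RR_orth {s : Bool} {m m' : ℤ} (hmm : (L : ℤ) + 2 ≤ |m - m'|) (y : X) :
    RR h φ J L s m y * RR h φ J L s m' y = 0 := by
  by_contra hcon
  obtain ⟨-, a1, a2⟩ := RR_ne h J L (left_ne_zero_of_mul hcon)
  obtain ⟨-, b1, b2⟩ := RR_ne h J L (right_ne_zero_of_mul hcon)
  have h1 : ((L : ℝ) + 2) ≤ |(m : ℝ) - m'| := by exact_mod_cast hmm
  have h2 : |(m : ℝ) - m'| < L + 2 := by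
    unfold sgn at a1 a2 b1 b2
    rw [abs_lt]
    cases s
    · simp only [Bool.false_eq_true, if_false] at a1 a2 b1 b2
      constructor <;> linarith
    · simp only [if_true] at a1 a2 b1 b2
      constructor <;> linarith
  linarith

/-- the sum of the translates of the boundary functions -/
noncomputable def GG (φ : C(X, ℝ)) : C(X, ℝ) :=
  ∑ s : Bool, ∑ m ∈ Mk J, (RR h φ J L s m).comp ((h ^ m : X ≃ₜ X) : C(X, X))

theorem GG_apply (x : X) : GG h J L φ x = ∑ s : Bool, ∑ m ∈ Mk J, RR h φ J L s m ((h ^ m) x) := by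
  unfold GG
  rw [ContinuousMap.sum_apply]
  refine Finset.sum_congr rfl fun s _ => ?_
  rw [ContinuousMap.sum_apply]
  rfl

theorem GG_nonneg (hφ0 : ∀ x, 0 ≤ φ x) (x : X) : 0 ≤ GG h J L φ x := by
  rw [GG_apply]
  exact Finset.sum_nonneg fun s _ => Finset.sum_nonneg fun m _ => RR_nonneg h J L hφ0 s m _

theorem GG_pos (hL : 0 < L) (hφ0 : ∀ x, 0 ≤ φ x) (hφ1 : ∀ x, φ x ≤ 1)
    (hJ : ∀ x : X, ∃ k : ℤ, |k| ≤ J ∧ φ ((h ^ k) x) = 1) (x : X) (h0 : gg h φ J L x ≠ 0) :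
    0 < GG h J L φ x := by
  obtain ⟨m, hm, hφm, hside⟩ := gg_ne h J L hL hφ0 hφ1 hJ x h0
  have hmM : m ∈ Mk J := Finset.mem_Icc.mpr (abs_le.mp hm)
  have key : ∀ s : Bool, 0 ≤ side h φ J s ((h ^ m) x) + sgn s * m →
      side h φ J s ((h ^ m) x) + sgn s * m < L → 0 < GG h J L φ x := by
    intro s h1 h2
    rw [GG_apply]
    refine Finset.sum_pos' (fun s _ => Finset.sum_nonneg fun m _ => RR_nonneg h J L hφ0 s m _)
      ⟨s, Finset.mem_univ s, ?_⟩
    refine Finset.sum_pos' (fun m _ => RR_nonneg h J L hφ0 s m _) ⟨m, hmM, ?_⟩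
    show 0 < max 0 (min (side h φ J s ((h ^ m) x) + sgn s * m + 1)
      (L + 1 - (side h φ J s ((h ^ m) x) + sgn s * m))) * φ ((h ^ m) x)
    refine mul_pos (lt_max_of_lt_right (lt_min ?_ ?_)) hφm
    · linarith
    · linarith
  rcases hside with ⟨h1, h2⟩ | ⟨h1, h2⟩
  · refine key true ?_ ?_
    · show 0 ≤ rmin h φ (J ^ 2 + 1) ((h ^ m) x) + 1 * m
      rw [one_mul]
      exact h1
    · show rmin h φ (J ^ 2 + 1) ((h ^ m) x) + 1 * m < L
      rw [one_mul]
      exact h2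
  · refine key false ?_ ?_
    · show 0 ≤ rmin h⁻¹ φ (J ^ 2 + 1) ((h ^ m) x) + -1 * m
      rw [neg_one_mul, ← sub_eq_add_neg]
      exact h1
    · show rmin h⁻¹ φ (J ^ 2 + 1) ((h ^ m) x) + -1 * m < L
      rw [neg_one_mul, ← sub_eq_add_neg]
      exact h2

end

section

variable {X : Type u} [TopologicalSpace X] [CompactSpace X] [T2Space X] {h : X ≃ₜ X} {B : Type v}
  [CStarAlgebra B] [PartialOrder B] [StarOrderedRing B]

theorem Crossed.sg_conj_up (C : Crossed h B) {N : ℕ} (a i : Fin N) (j k : ℤ) (g : C(X, ℂ)) :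
    Cz (sg a a (C.ι (sh h j g))) (sg i i (C.ι (sh h k g))) := by
  have h1 := cz_conj (sg a i (C.up (j - k))) (sg i i (C.ι (sh h k g)))
  rw [sg_star, sg_mul, sg_mul, C.star_up, C.up_comm, sh_sh, sub_add_cancel, mul_assoc,
    ← C.up_add, add_neg_cancel, C.up_zero, mul_one] at h1
  exact h1

theorem sum_sg (N : ℕ) (b : B) : ∑ a : Fin N, sg a a b = scalHom N b := by
  ext p q
  rw [cm_sum_apply, scalHom_apply, scal_apply]
  rw [Finset.sum_congr rfl fun a _ => sg_apply a a b p q]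
  by_cases hpq : p = q
  · subst hpq
    rw [if_pos rfl, Finset.sum_eq_single p]
    · rw [if_pos ⟨rfl, rfl⟩]
    · intro a _ ha
      rw [if_neg fun h' => ha h'.1]
    · intro h'
      exact absurd (Finset.mem_univ p) h'
  · rw [if_neg hpq]
    exact Finset.sum_eq_zero fun a _ => if_neg fun h' => hpq (h'.1.symm.trans h'.2)

/-- towers modulo `n` with a small remainder -/
theorem Crossed.tower [Infinite X] (C : Crossed h B) (hm : Minimal h) {N : ℕ} (i : Fin N)
    {χ : C(X, ℝ)} (hχ0 : ∀ x, 0 ≤ χ x) (x₁ : X) (hχ : χ x₁ ≠ 0) (n L : ℕ) (hn : n ≠ 0)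
    (hL : 0 < L) :
    ∃ f ψ : C(X, ℝ), (∀ x, 0 ≤ f x) ∧ (∀ x, f x ≤ 1) ∧
      (∀ k : ℤ, (n : ℤ) ∣ k → ∀ x, |f ((h ^ k) x) - f x| ≤ |(k : ℝ)| / L) ∧
      (∀ k : ℤ, ¬ (n : ℤ) ∣ k → ∀ x, f x * f ((h ^ k) x) ≤ |(k : ℝ)| / L) ∧
      (∀ x, 0 ≤ ψ x) ∧
      (∀ x, ψ x = 0 →
        |1 - ∑ k ∈ Finset.range n, (f ((h ^ (k : ℤ)) x)) ^ 4| ≤ 5 * n ^ 2 / L) ∧
      Cz (scalHom N (C.ι (cx ψ))) (sg i i (C.ι (cx χ))) := by
  classical
  have haper := aper_of hm
  set O : Set X := {x | 0 < χ x} with hO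
  have hOo : IsOpen O := isOpen_lt continuous_const χ.continuous
  have hOne : O.Nonempty := ⟨x₁, lt_of_le_of_ne (hχ0 x₁) (Ne.symm hχ)⟩
  obtain ⟨J₀, hJ₀⟩ := exists_cover hm hOo hOne
  let I := Fin N × Bool × ZMod (L + 2)
  haveI : NeZero (L + 2) := ⟨by omega⟩
  let e : I ≃ Fin (Fintype.card I) := Fintype.equivFin I
  have hk : ∀ b : I, ∃ k : ℤ, |k| ≤ J₀ ∧ (h ^ k) ((h ^ ((2 * J₀ + 1) * (e b : ℤ))) x₁) ∈ O :=
    fun b => hJ₀ _
  choose k' hk'1 hk'2 using hk
  set k : I → ℤ := fun b => k' b + (2 * J₀ + 1) * (e b : ℤ) with hkdef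
  have hkO : ∀ b, (h ^ (k b)) x₁ ∈ O := fun b => by
    rw [hkdef]
    show (h ^ (k' b + (2 * J₀ + 1) * (e b : ℤ))) x₁ ∈ O
    rw [zpa]
    exact hk'2 b
  have hkinj : Function.Injective k := by
    intro b b' hbb
    have h1 : k' b + (2 * J₀ + 1) * (e b : ℤ) = k' b' + (2 * J₀ + 1) * (e b' : ℤ) := hbb
    have h2 := abs_le.mp (hk'1 b)
    have h3 := abs_le.mp (hk'1 b')
    by_contra hne
    have h4 : (e b : ℤ) ≠ e b' := by
      intro h5
      exact hne (e.injective (Fin.ext (by exact_mod_cast h5)))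
    have h5 : (2 * (J₀ : ℤ) + 1) * ((e b : ℤ) - e b') = k' b' - k' b := by linarith
    have h6 : |(2 * (J₀ : ℤ) + 1) * ((e b : ℤ) - e b')| ≤ 2 * J₀ := by
      rw [h5, abs_le]
      constructor <;> linarith
    rw [abs_mul, abs_of_nonneg (by positivity : (0 : ℤ) ≤ 2 * J₀ + 1)] at h6
    have h7 : 1 ≤ |(e b : ℤ) - e b'| := Int.one_le_abs (sub_ne_zero.mpr h4)
    nlinarith
  set S : Finset ℤ := (Finset.univ : Finset (I × I)).image (fun z => k z.1 - k z.2) |>.erase 0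
    with hS
  obtain ⟨V₁, hV₁o, hx₁V₁, hV₁⟩ := exists_nhd haper S (Finset.notMem_erase _ _) x₁
  set V : Set X := V₁ ∩ ⋂ b : I, (h ^ (k b)) ⁻¹' O with hV
  have hVo : IsOpen V := hV₁o.inter (isOpen_iInter_of_finite fun b =>
    hOo.preimage (h ^ (k b)).continuous)
  have hx₁V : x₁ ∈ V := ⟨hx₁V₁, Set.mem_iInter.mpr fun b => hkO b⟩
  obtain ⟨φ, hφ0, hφ1, hφV, U, hUo, hx₁U, hφU⟩ := exists_bump x₁ hVo hx₁V
  obtain ⟨J, hJ⟩ := exists_cover hm hUo ⟨x₁, hx₁U⟩
  have hJ' : ∀ x : X, ∃ k : ℤ, |k| ≤ J ∧ φ ((h ^ k) x) = 1 := fun x => by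
    obtain ⟨k, hk1, hk2⟩ := hJ x
    exact ⟨k, hk1, hφU _ hk2⟩
  refine ⟨ff h φ J L n, gg h φ J L, ff_nonneg h J L n, ff_le_one h J L n hφ0 hφ1,
    fun k hk x => ff_shift h J L n hφ0 hφ1 hJ' hk x,
    fun k hk x => ff_mul h J L n hφ0 hφ1 hk x, gg_nonneg h J L hφ0 hφ1,
    gg_zero h J L n hn hφ0 hφ1 hJ', ?_⟩
  -- the first step
  have s1 : Cz (scalHom N (C.ι (cx (gg h φ J L)))) (scalHom N (C.ι (cx (GG h J L φ)))) :=
    kap_cz ((scalHom N).comp C.κ) (gg_nonneg h J L hφ0 hφ1) (GG_nonneg h J L hφ0)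
      (GG_pos h J L hL hφ0 hφ1 hJ')
  refine cz_trans s1 ?_
  -- the families
  set T : Finset (Fin N × Bool × ℤ) := Finset.univ ×ˢ (Finset.univ ×ˢ Mk J) with hT
  set res : Fin N × Bool × ℤ → I := fun z => (z.1, z.2.1, (z.2.2 : ZMod (L + 2))) with hres
  set xx : Fin N × Bool × ℤ → Mat N B := fun z =>
    sg z.1 z.1 (C.ι (sh h (-z.2.2) (cx (RR h φ J L z.2.1 z.2.2)))) with hxx
  set yy : Fin N × Bool × ℤ → Mat N B := fun z =>
    sg i i (C.ι (sh h (k (res z)) (cx (RR h φ J L z.2.1 z.2.2)))) with hyy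
  have hsum : scalHom N (C.ι (cx (GG h J L φ))) = ∑ z ∈ T, xx z := by
    rw [hT, Finset.sum_product, ← sum_sg]
    refine Finset.sum_congr rfl fun a _ => ?_
    rw [Finset.sum_product]
    have h1 : cx (GG h J L φ) =
        ∑ s : Bool, ∑ m ∈ Mk J, sh h (-m) (cx (RR h φ J L s m)) := by
      unfold GG
      rw [cx_sum]
      refine Finset.sum_congr rfl fun s _ => ?_
      rw [cx_sum]
      refine Finset.sum_congr rfl fun m _ => ?_
      ext x
      rw [sh_apply, neg_neg]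
      rfl
    rw [h1, map_sum]
    have h2 : ∀ y : B, sg a a y = sgHom (D := B) a y := fun _ => rfl
    rw [h2, map_sum]
    refine Finset.sum_congr rfl fun s _ => ?_
    rw [map_sum, map_sum]
    rfl
  rw [hsum]
  have hsupp : ∀ z : Fin N × Bool × ℤ, ∀ x,
      RR h φ J L z.2.1 z.2.2 ((h ^ (-(k (res z)))) x) ≠ 0 → (h ^ (-(k (res z)))) x ∈ V :=
    fun z x hne => hφV _ (RR_ne h J L hne).1
  have hyy0 : ∀ z, 0 ≤ yy z := fun z => by
    have h1 := kap_nonneg ((sgHom i).comp C.κ)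
      (f := shr h (k (res z)) (RR h φ J L z.2.1 z.2.2)) (fun x => RR_nonneg h J L hφ0 _ _ _)
    exact h1
  have hxx0 : ∀ z, 0 ≤ xx z := fun z => by
    have h1 := kap_nonneg ((sgHom z.1).comp C.κ)
      (f := shr h (-z.2.2) (RR h φ J L z.2.1 z.2.2)) (fun x => RR_nonneg h J L hφ0 _ _ _)
    exact h1
  refine cz_trans (cz_sum T xx yy (fun z _ => hxx0 z) (fun z _ => hyy0 z) ?_
    (fun z _ => C.sg_conj_up _ _ _ _ _)) ?_
  · -- orthogonality
    intro z _ z' _ hzz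
    rw [hyy]
    show sg i i _ * sg i i _ = 0
    rw [sg_mul, ← map_mul]
    have h0 : sh h (k (res z)) (cx (RR h φ J L z.2.1 z.2.2)) *
        sh h (k (res z')) (cx (RR h φ J L z'.2.1 z'.2.2)) = 0 := by
      ext x
      show ((RR h φ J L z.2.1 z.2.2 ((h ^ (-(k (res z)))) x) : ℝ) : ℂ) *
        ((RR h φ J L z'.2.1 z'.2.2 ((h ^ (-(k (res z')))) x) : ℝ) : ℂ) = 0
      rw [← Complex.ofReal_mul, Complex.ofReal_eq_zero]
      by_contra hne
      have hl := left_ne_zero_of_mul hne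
      have hr := right_ne_zero_of_mul hne
      have m1 := hsupp z x hl
      have m2 := hsupp z' x hr
      by_cases hb : res z = res z'
      · rw [← hb] at hr hne
        have e1 : z.1 = z'.1 := congrArg (fun t : I => t.1) hb
        have e2 : z.2.1 = z'.2.1 := congrArg (fun t : I => t.2.1) hb
        have e3 : (z.2.2 : ZMod (L + 2)) = z'.2.2 := congrArg (fun t : I => t.2.2) hb
        have e4 : z.2.2 ≠ z'.2.2 := fun e4 => hzz (Prod.ext e1 (Prod.ext e2 e4))
        have e5 : ((L + 2 : ℕ) : ℤ) ∣ z.2.2 - z'.2.2 := by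
          rw [← ZMod.intCast_zmod_eq_zero_iff_dvd] 
          push_cast
          rw [e3, sub_self]
        have e6 : (L : ℤ) + 2 ≤ |z.2.2 - z'.2.2| := by
          have := Int.le_of_dvd (abs_pos.mpr (sub_ne_zero.mpr e4)) ((dvd_abs _ _).mpr e5)
          push_cast at this
          exact this
        rw [← e2] at hne
        exact hne (RR_orth h J L e6 _)
      · have hkne : k (res z) - k (res z') ≠ 0 := fun h' => hb (hkinj (sub_eq_zero.mp h'))
        have hmem : k (res z) - k (res z') ∈ S := by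
          rw [hS, Finset.mem_erase]
          exact ⟨hkne, Finset.mem_image.mpr ⟨(res z, res z'), Finset.mem_univ _, rfl⟩⟩
        refine hV₁ _ hmem _ m1.1 ?_
        rw [← zpa]
        have : k (res z) - k (res z') + -(k (res z)) = -(k (res z')) := by ring
        rw [this]
        exact m2.1
    rw [h0, map_zero, sg_zero]
  · -- the last step
    set Y : C(X, ℝ) := ∑ z ∈ T, shr h (k (res z)) (RR h φ J L z.2.1 z.2.2) with hY
    have h1 : ∑ z ∈ T, yy z = (sgHom i).comp C.κ (cx Y) := by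
      rw [hY, cx_sum, map_sum]
      rfl
    rw [h1]
    have hYx : ∀ x, Y x = ∑ z ∈ T, RR h φ J L z.2.1 z.2.2 ((h ^ (-(k (res z)))) x) := by
      intro x
      rw [hY, ContinuousMap.sum_apply]
      rfl
    refine kap_cz ((sgHom i).comp C.κ) (fun x => ?_) hχ0 (fun x hne => ?_)
    · rw [hYx]
      exact Finset.sum_nonneg fun z _ => RR_nonneg h J L hφ0 _ _ _
    · rw [hYx] at hne
      obtain ⟨z, -, hz⟩ := Finset.exists_ne_zero_of_sum_ne_zero hne
      have m1 := hsupp z x hz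
      have m2 := Set.mem_iInter.mp m1.2 (res z)
      have m3 : (h ^ (k (res z))) ((h ^ (-(k (res z)))) x) ∈ O := m2
      rw [← zpa, add_neg_cancel, zpow_zero] at m3
      exact m3

end

end Run7.h450.Dyn
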